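import Pool.Agent.P.MP_8be758_nt.Av3.BasB

/-! The step `S_BIL`. -/

namespace Pool.Agent.P.MP_8be758_nt.Av3

open Finset Real Filter Topology
open Pool.Agent.P.MP_e86632_nt (ee)
open Pool.Agent.P.MP_8be758_nt.Avg Pool.Agent.P.MP_8be758_nt.Av2
open MeasureTheory Pool.Agent.P.MP_e86632_nt

theorem bil_int_ee {f : ℝ → ℂ} (hf : Integrable f) (l : ℝ) :
    Integrable fun t => f t * ee (t * l) :=
  hf.mul_bdd (c := 1) (by fun_prop) (Eventually.of_forall fun t => (norm_ee _).le)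

theorem bil_int_sq {P : ℝ → ℝ} (hP : PW P) (I : Finset ℕ) (d : ℕ → ℂ) (x : ℝ) :
    Integrable fun t => P t * ‖dp I d (t / 2 + x)‖ ^ 2 :=
  hP.2.2.mul_bdd (c := (∑ a ∈ I, ‖d a‖) ^ 2) (by fun_prop) (Eventually.of_forall fun t => by
    rw [Real.norm_of_nonneg (by positivity)]
    exact pow_le_pow_left₀ (norm_nonneg _) (norm_dp_le _ _ _) 2)

theorem bil_q_cont {P : ℝ → ℝ} (hP : PW P) (I : Finset ℕ) (d : ℕ → ℂ) :
    Continuous fun x => ∫ t : ℝ, P t * ‖dp I d (t / 2 + x)‖ ^ 2 := by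
  refine continuous_of_dominated (bound := fun t => P t * (∑ a ∈ I, ‖d a‖) ^ 2)
    (fun x => (bil_int_sq hP I d x).aestronglyMeasurable)
    (fun x => Eventually.of_forall fun t => ?_) (hP.2.2.mul_const _)
    (Eventually.of_forall fun t => by fun_prop)
  rw [Real.norm_of_nonneg (mul_nonneg (hP.2.1 t) (by positivity))]
  exact mul_le_mul_of_nonneg_left (pow_le_pow_left₀ (norm_nonneg _) (norm_dp_le _ _ _) 2)
    (hP.2.1 t)

theorem bil_q_int {P : ℝ → ℝ} (hP : PW P) {R : ℝ} (hR : 0 < R) (I : Finset ℕ) (d : ℕ → ℂ) :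
    Integrable fun x => kq R x * ∫ t : ℝ, P t * ‖dp I d (t / 2 + x)‖ ^ 2 := by
  refine (integrable_kq hR).mul_bdd (c := ∫ t, P t * (∑ a ∈ I, ‖d a‖) ^ 2)
    (bil_q_cont hP I d).aestronglyMeasurable (Eventually.of_forall fun x => ?_)
  rw [Real.norm_of_nonneg (integral_nonneg fun t => mul_nonneg (hP.2.1 t) (by positivity))]
  exact integral_mono (bil_int_sq hP I d x) (hP.2.2.mul_const _) fun t =>
    mul_le_mul_of_nonneg_left (pow_le_pow_left₀ (norm_nonneg _) (norm_dp_le _ _ _) 2) (hP.2.1 t)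

theorem bil_expand {F : ℝ → ℂ} (hF : Integrable F) (I : Finset ℕ) (d1 d2 : ℕ → ℂ) (τ : ℝ) :
    ∫ t : ℝ, F t * (dp I d1 (t / 2 + -τ) * dp I d2 (t / 2 + τ)) =
      ∑ a1 ∈ I, ∑ a2 ∈ I, d1 a1 * d2 a2 * ee (τ * lq a1 a2) *
        ∫ t : ℝ, F t * ee (t * ((Real.log a1 + Real.log a2) / 2)) := by
  have e : ∀ t : ℝ, F t * (dp I d1 (t / 2 + -τ) * dp I d2 (t / 2 + τ)) =
      ∑ a1 ∈ I, ∑ a2 ∈ I, d1 a1 * d2 a2 * ee (τ * lq a1 a2) *
        (F t * ee (t * ((Real.log a1 + Real.log a2) / 2))) := fun t => by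
    rw [dp, dp, sum_mul_sum, mul_sum]
    refine sum_congr rfl fun a1 _ => ?_
    rw [mul_sum]
    refine sum_congr rfl fun a2 _ => ?_
    have : ee ((t / 2 + -τ) * Real.log a1) * ee ((t / 2 + τ) * Real.log a2) =
        ee (τ * lq a1 a2) * ee (t * ((Real.log a1 + Real.log a2) / 2)) := by
      rw [← ee_add, ← ee_add, lq]
      congr 1
      ring
    linear_combination F t * d1 a1 * d2 a2 * this
  simp only [e]
  rw [integral_finsetSum _ fun a1 _ => integrable_finsetSum _ fun a2 _ =>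
    (bil_int_ee hF _).const_mul _]
  refine sum_congr rfl fun a1 _ => ?_
  rw [integral_finsetSum _ fun a2 _ => (bil_int_ee hF _).const_mul _]
  exact sum_congr rfl fun a2 _ => integral_const_mul _ _

theorem t_BIL : S_BIL := by
  intro P F R I d1 d2 hP hc hF hR
  have hFi : Integrable F := hP.2.2.mono' hc.aestronglyMeasurable (Eventually.of_forall hF)
  have hk : Integrable fun τ => (kq R τ : ℂ) := (integrable_kq hR).ofReal
  have e1 : ∑ a1 ∈ I, ∑ a2 ∈ I, d1 a1 * d2 a2 * (gs (R * lq a1 a2) : ℂ) *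
      ∫ t : ℝ, F t * ee (t * ((Real.log a1 + Real.log a2) / 2)) =
      ∫ τ : ℝ, (kq R τ : ℂ) * ∫ t : ℝ, F t * (dp I d1 (t / 2 + -τ) * dp I d2 (t / 2 + τ)) := by
    have e : ∀ τ : ℝ, (kq R τ : ℂ) * ∫ t : ℝ, F t * (dp I d1 (t / 2 + -τ) * dp I d2 (t / 2 + τ)) =
        ∑ a1 ∈ I, ∑ a2 ∈ I, (d1 a1 * d2 a2 *
          ∫ t : ℝ, F t * ee (t * ((Real.log a1 + Real.log a2) / 2))) *
            ((kq R τ : ℂ) * ee (τ * lq a1 a2)) := fun τ => by
      rw [bil_expand hFi, mul_sum]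
      refine sum_congr rfl fun a1 _ => ?_
      rw [mul_sum]
      exact sum_congr rfl fun a2 _ => by ring
    simp only [e]
    rw [integral_finsetSum _ fun a1 _ => integrable_finsetSum _ fun a2 _ =>
      (bil_int_ee hk _).const_mul _]
    refine sum_congr rfl fun a1 _ => ?_
    rw [integral_finsetSum _ fun a2 _ => (bil_int_ee hk _).const_mul _]
    refine sum_congr rfl fun a2 _ => ?_
    rw [integral_const_mul, kq_ft hR]
    ring
  have i1 : Integrable fun x => kq R x * ∫ t : ℝ, P t * ‖dp I d1 (t / 2 + -x)‖ ^ 2 := by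
    have := (bil_q_int hP hR I d1).comp_neg
    simpa only [kq_neg] using this
  have e2 : ∫ x : ℝ, kq R x * ∫ t : ℝ, P t * ‖dp I d1 (t / 2 + -x)‖ ^ 2 = QQ P R I d1 := by
    have := integral_neg_eq_self
      (fun x : ℝ => kq R x * ∫ t : ℝ, P t * ‖dp I d1 (t / 2 + x)‖ ^ 2) volume
    simpa only [kq_neg, QQ] using this
  rw [e1, ← e2, QQ, ← integral_add i1 (bil_q_int hP hR I d2), ← integral_div]
  refine norm_integral_le_of_norm_le ((i1.add (bil_q_int hP hR I d2)).div_const _)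
    (Eventually.of_forall fun τ => ?_)
  rw [norm_mul, Complex.norm_real, Real.norm_of_nonneg (kq_pos hR τ).le, ← mul_add, mul_div_assoc,
    ← integral_add (bil_int_sq hP _ _ _) (bil_int_sq hP _ _ _), ← integral_div]
  refine mul_le_mul_of_nonneg_left (norm_integral_le_of_norm_le
    (((bil_int_sq hP _ _ _).add (bil_int_sq hP _ _ _)).div_const _)
    (Eventually.of_forall fun t => ?_)) (kq_pos hR τ).le
  rw [norm_mul, norm_mul, ← mul_add, mul_div_assoc]
  refine mul_le_mul (hF t) ?_ (by positivity) (hP.2.1 t)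
  nlinarith [sq_nonneg (‖dp I d1 (t / 2 + -τ)‖ - ‖dp I d2 (t / 2 + τ)‖)]

end Pool.Agent.P.MP_8be758_nt.Av3
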