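import Pool.Agent.P.MP_8be758_nt.Av3.BasB

/-! The step `S_BMP`. -/

namespace Pool.Agent.P.MP_8be758_nt.Av3

open Finset Real Filter Topology
open Pool.Agent.P.MP_e86632_nt (ee)
open Pool.Agent.P.MP_8be758_nt.Avg Pool.Agent.P.MP_8be758_nt.Av2

theorem t_BMP : S_BMP := by
  let b : ContDiffBump (0 : ℝ) := ⟨1, 3 / 2, by norm_num, by norm_num⟩
  have hb : ContDiff ℝ 2 b := b.contDiff
  have hb1 : ContDiff ℝ 1 (deriv b) := hb.deriv'
  have hb2 : Continuous (deriv (deriv b)) := hb1.continuous_deriv le_rfl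
  have s0 : HasCompactSupport b := b.hasCompactSupport
  obtain ⟨C1, h1⟩ := hb1.continuous.bounded_above_of_compact_support s0.deriv
  obtain ⟨C2, h2⟩ := hb2.bounded_above_of_compact_support s0.deriv.deriv
  have hz : ∀ x : ℝ, 2 ≤ |x| → (b : ℝ → ℝ) =ᶠ[𝓝 x] fun _ => 0 := fun x hx => by
    have ho : IsOpen {y : ℝ | 3 / 2 < |y|} := isOpen_lt continuous_const continuous_abs
    filter_upwards [ho.mem_nhds (show 3 / 2 < |x| by linarith)] with y hy
    exact b.zero_of_le_dist (by simpa [b] using le_of_lt hy)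
  refine ⟨b, deriv b, deriv (deriv b), max C1 C2,
    fun x => (hb.differentiable (by norm_num) x).hasDerivAt,
    fun x => (hb1.differentiable (by norm_num) x).hasDerivAt, hb2,
    fun x => abs_le.2 ⟨by linarith [b.nonneg (x := x)], b.le_one⟩,
    fun x => (h1 x).trans (le_max_left _ _), fun x => (h2 x).trans (le_max_right _ _),
    fun x hx => b.one_of_mem_closedBall (by simpa [b] using hx),
    fun x hx => ⟨(hz x hx).eq_of_nhds, ?_, ?_⟩⟩
  · simpa using (hz x hx).deriv.eq_of_nhds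
  · simpa using (hz x hx).deriv.deriv.eq_of_nhds

end Pool.Agent.P.MP_8be758_nt.Av3
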