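import Pool.Agent.P.MP_8be758_nt.Av3.Basic

/-! The step `S_BXb`. -/

namespace Pool.Agent.P.MP_8be758_nt.Av3

open Finset Real Filter Topology
open Pool.Agent.P.MP_e86632_nt (ee)
open Pool.Agent.P.MP_8be758_nt.Avg Pool.Agent.P.MP_8be758_nt.Av2

/-- the size conditions that follow from the box conditions -/
theorem bxb_ev {θ δ β e1 eg : ℝ} (hθ : 7 / 10 ≤ θ) (hβ : 4 / 5 ≤ β) (he : e1 ≤ 1 / 10)
    (hg : 0 < eg) (h1 : eg ≤ e1) (h2 : eg ≤ β - (2 - 3 * θ / 2)) (h3 : eg ≤ δ) :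
    ∀ᶠ N : ℝ in atTop,
    ∀ (K : ℕ) (B : ℝ) (A1 A2 : ℕ) (S : Finset ℕ), N ^ θ ≤ K → (K : ℝ) ≤ N ^ (2 - δ) →
      N ^ β ≤ B → B ≤ N ^ (1 - eg) → Bx N e1 B A1 A2 S →
      (N ^ (eg / 10)) ^ 16 * B ≤ A1 ∧ (N ^ (eg / 10)) ^ 10 ≤ B ∧
      (N ^ (eg / 10)) ^ 8 * (A1 : ℝ) ^ 2 ≤ (K : ℝ) ^ 3 ∧ (N ^ (eg / 10)) ^ 8 * A1 ≤ B * K ∧
      (N ^ (eg / 10)) ^ 5 * K ≤ A1 * B ∧ 1 + Real.log A1 ≤ N ^ (eg / 10) ∧
      ((N ^ (eg / 10)) ^ 2) ^ 2 * (N ^ e1) ^ 2 ≤ A1 ∧ (N ^ e1) ^ 5 ≤ A1 ∧ (N ^ e1) ^ 5 ≤ B ∧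
      N / 4 ≤ A1 ∧ (A1 : ℝ) ≤ N ^ 2 ∧ 2 * B ≤ N ^ 2 := by
  filter_upwards [eventually_ge_atTop 4, ev_log 1,
    bx_ev2 4 (show eg / 10 * (16 : ℕ) + (1 - eg) + (1 - eg) < 2 by push_cast; linarith),
    bx_ev2 4 (show eg / 10 * (8 : ℕ) + (2 - β) * (2 : ℕ) < θ * (3 : ℕ) by push_cast; linarith),
    bx_ev2 2 (show eg / 10 * (8 : ℕ) + (2 - β) < β + θ by push_cast; linarith),
    bx_ev2 4 (show eg / 10 * (5 : ℕ) + (2 - δ) < 2 by push_cast; linarith),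
    bx_ev3 3 1 (show 0 < eg / 10 by linarith),
    bx_ev2 4 (show eg / 10 * (2 : ℕ) * (2 : ℕ) + e1 * (2 : ℕ) < 1 by push_cast; linarith),
    bx_ev2 4 (show e1 * (5 : ℕ) < 1 by push_cast; linarith),
    bx_ev2 2 (show 2 - β < 2 by linarith)] with N hN hL c2 c4 c5 c6 c7 c9 c10 c11
  intro K B A1 A2 S hlo hhi hb1 hb2 h
  have ha1 : N ^ 2 / 4 ≤ A1 * B := by linarith [h.a1, sq_nonneg N]
  have hN0 : 0 < N := by linarith
  have hN1 : 1 ≤ N := by linarith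
  have pos : ∀ x : ℝ, 0 < N ^ x := fun x => Real.rpow_pos_of_pos hN0 x
  have mono : ∀ {x y : ℝ}, x ≤ y → N ^ x ≤ N ^ y := fun h =>
    Real.rpow_le_rpow_of_exponent_le hN1 h
  have hB0 : 0 < B := (pos _).trans_le hb1
  have hA0 : (0 : ℝ) ≤ A1 := Nat.cast_nonneg _
  have hBN : B ≤ N := hb2.trans ((mono (by linarith)).trans_eq (Real.rpow_one N))
  have hAlo : N / 4 ≤ A1 := by
    refine le_of_mul_le_mul_right ?_ hN0
    nlinarith [ha1, mul_le_mul_of_nonneg_left hBN hA0]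
  have hAhi : (A1 : ℝ) ≤ 2 * N ^ (2 - β) := by
    refine le_of_mul_le_mul_right ?_ (pos β)
    rw [mul_assoc, ← Real.rpow_add hN0, show 2 - β + β = 2 by ring, Real.rpow_two]
    exact (mul_le_mul_of_nonneg_left hb1 hA0).trans h.a2
  rw [Real.rpow_two] at c2 c6 c11
  rw [Real.rpow_one] at c9 c10
  simp only [Real.rpow_add hN0] at c2 c4 c5 c6 c9
  simp only [bx_pw hN0]
  have hA2 : (A1 : ℝ) ≤ N ^ 2 := hAhi.trans c11
  refine ⟨le_of_mul_le_mul_right ?_ hB0, (mono (by push_cast; linarith)).trans hb1, ?_, ?_, ?_,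
    ?_, by linarith, by linarith, (mono (by push_cast; linarith)).trans hb1, hAlo, hA2,
    by nlinarith⟩
  · have : N ^ (eg / 10 * (16 : ℕ)) * B * B ≤
        N ^ (eg / 10 * (16 : ℕ)) * N ^ (1 - eg) * N ^ (1 - eg) := by
      have := pos (eg / 10 * (16 : ℕ))
      gcongr
    linarith [ha1]
  · have e1 : (A1 : ℝ) ^ 2 ≤ 4 * N ^ ((2 - β) * (2 : ℕ)) := by
      rw [← bx_pw hN0]
      exact (pow_le_pow_left₀ hA0 hAhi 2).trans_eq (by ring)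
    have e2 : N ^ (θ * (3 : ℕ)) ≤ (K : ℝ) ^ 3 := by
      rw [← bx_pw hN0]
      exact pow_le_pow_left₀ (pos _).le hlo 3
    exact (mul_le_mul_of_nonneg_left e1 (pos _).le).trans
      ((mul_left_comm _ _ _).trans_le (c4.trans e2))
  · have e2 : N ^ β * N ^ θ ≤ B * K := mul_le_mul hb1 hlo (pos _).le hB0.le
    nlinarith [mul_le_mul_of_nonneg_left hAhi (pos (eg / 10 * (8 : ℕ))).le]
  · nlinarith [mul_le_mul_of_nonneg_left hhi (pos (eg / 10 * (5 : ℕ))).le, ha1]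
  · have : Real.log A1 ≤ 2 * Real.log N := by
      refine (Real.log_le_log (by linarith) hA2).trans_eq ?_
      rw [Real.log_pow]
      norm_num
    rw [pow_one] at c7
    linarith

theorem t_BXb (hPERb : S_PERb) (θ δ β : ℝ) (hθ : 7 / 10 ≤ θ) (hδ : 0 < δ) (hβ : 4 / 5 ≤ β)
    (hθβ : 2 - 3 * θ / 2 < β) : S_BX2 θ δ β := by
  have hD1 := lib_D1
  have hDISP := lib_DISP
  have hNU := lib_NU
  have hRC := lib_RC
  have hPROJ := lib_PROJ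
  have hROOT := lib_ROOT
  have hTAU := lib_TAU
  have hDIV := lib_DIV
  intro e1 he0 he
  refine ⟨min e1 (min δ (β - (2 - 3 * θ / 2))), lt_min he0 (lt_min hδ (by linarith)),
    fun eg hg hg0 => ?_⟩
  have g1 : eg ≤ e1 := hg0.trans (min_le_left _ _)
  have g2 : eg ≤ β - (2 - 3 * θ / 2) := hg0.trans ((min_le_right _ _).trans (min_le_right _ _))
  have g3 : eg ≤ δ := hg0.trans ((min_le_right _ _).trans (min_le_left _ _))
  obtain ⟨Cd, hCd, hDISP⟩ := hDISP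
  obtain ⟨Cn, hCn, hNU⟩ := hNU
  obtain ⟨Cr, hCr, hRC⟩ := hRC
  obtain ⟨Cp, hCp, hPROJ⟩ := hPROJ
  obtain ⟨Cv, hCv, hDIV⟩ := hDIV (eg / 100) (by positivity)
  refine ⟨√(2 * (4 * 2 ^ ⌈2 / e1⌉₊) * (Cr / e1) * Cd * (10 * Cn * Cp / (eg * e1 ^ 2) + 2)) + 1,
    by positivity, fun R hR => ?_⟩
  have hR1 : (1 : ℝ) < R := by exact_mod_cast hR
  have hρ : 0 < Real.log R / R := div_pos (Real.log_pos hR1) (by linarith)
  generalize hρe : Real.log R / R = ρ at hρ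
  have hsq := Real.sqrt_pos.2 hρ
  filter_upwards [bxb_ev hθ hβ he hg g1 g2 g3,
    hPERb δ e1 eg hδ he0 hg R.factorial R.factorial_pos,
    eventually_ge_atTop 4, ev_log 1, ev_log (1 / √ρ), ev_const 2 (show 0 < eg / 10 by linarith),
    bx_ev2 Cv (show (5 : ℝ) * (eg / 100) < eg / 10 by linarith),
    ev_pow (4 * Cp * (R.factorial : ℝ) ^ 2 / ρ) 3
      (show eg / 10 * (2 : ℕ) * (3 : ℕ) < 1 by push_cast; linarith),
    bx_ev3 (1 / ρ) 3 (show 0 < eg / 10 by linarith)] with N hev hper hN hL hL' hZ c8 c13 c14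
  intro K A1 A2 B S φ α hlo hhi hb1 hb2 h hφ hc
  have hα := hc.1
  have hα' : ∀ a, α a ≠ 0 → Rough (N ^ e1) a := fun a ha => (hc.2 a ha).1
  obtain ⟨d1, d2, d3, d4, d5, d6, d7, d8, d9, d10, d11, d12⟩ := hev K B A1 A2 S hlo hhi hb1 hb2 h
  have hN0 : 0 < N := by linarith
  have hN1 : 1 ≤ N := by linarith
  have hL0 : 0 < Real.log N := by linarith
  have hZz : N ^ (eg / 10) ≤ N ^ e1 := Real.rpow_le_rpow_of_exponent_le hN1 (by linarith)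
  have hz : 2 ≤ N ^ e1 := hZ.trans hZz
  have lZ : Real.log (N ^ (eg / 10)) = eg / 10 * Real.log N := Real.log_rpow hN0 _
  have lz : Real.log (N ^ e1) = e1 * Real.log N := Real.log_rpow hN0 _
  have zs : N ^ 2 ≤ (N ^ e1) ^ ⌈2 / e1⌉₊ := by
    rw [bx_pw hN0, ← Real.rpow_two]
    refine Real.rpow_le_rpow_of_exponent_le hN1 ?_
    have := Nat.le_ceil (2 / e1)
    rwa [div_le_iff₀' he0] at this
  have c8' : ∀ m : ℕ, (m : ℝ) ≤ 4 * (A1 : ℝ) ^ 2 → (m.divisors.card : ℝ) ≤ N ^ (eg / 10) := by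
    intro m hm
    refine (hDIV m).trans (le_trans ?_ c8)
    rw [Real.rpow_mul hN0.le]
    gcongr
    calc (m : ℝ) ≤ 4 * (A1 : ℝ) ^ 2 := hm
      _ ≤ N * (N ^ 2) ^ 2 := by gcongr
      _ = N ^ (5 : ℝ) := by rw [show (5 : ℝ) = (5 : ℕ) by norm_num, Real.rpow_natCast]; ring
  rw [← bx_pw hN0, ← bx_pw hN0, Real.rpow_one] at c13
  generalize N ^ (eg / 10) = Z at *
  have hZ0 : 0 < Z := by linarith
  have hA1 : (1 : ℝ) ≤ A1 := by linarith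
  have hB0 : 0 < B := lt_of_lt_of_le (by positivity) d2
  have hBA : B ≤ A1 := le_trans (le_mul_of_one_le_left hB0.le (one_le_pow₀ (by linarith))) d1
  have hB1 : 1 ≤ B := (one_le_pow₀ (by linarith)).trans d2
  have ha3' : (4 : ℝ) * A2 ≤ 5 * A1 :=
    le_of_mul_le_mul_right (by linarith [h.a1, h.a3]) hB0
  have ha3 : 4 * A2 ≤ 5 * A1 := by exact_mod_cast ha3'
  have hQ : (⌊Z ^ 2⌋₊ : ℝ) ≤ Z ^ 2 := Nat.floor_le (by positivity)
  obtain ⟨f, f1, f2, f3, f4⟩ := hPROJ A1 A2 R ⌊Z ^ 2⌋₊ (N ^ e1) α hR hz ha3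
    (le_trans (by gcongr) d7) d8 hα hα'
  obtain ⟨ν, nb, n1, n2, n3⟩ := hNU Z hZ
  have hI : Rng A1 (Ioc A1 A2) := fun a ha => by
    have h1 : (A1 : ℝ) < a := by exact_mod_cast (mem_Ioc.1 ha).1
    have h2 : (a : ℝ) ≤ A2 := by exact_mod_cast (mem_Ioc.1 ha).2
    exact ⟨h1, by linarith⟩
  have hhalf : ∀ a, |(α a - f a) / 2| ≤ 1 := fun a => by
    have h1 := abs_le.1 (hα a)
    have h2 := abs_le.1 (f1 a)
    rw [abs_le]
    constructor <;> linarith [h1.1, h1.2, h2.1, h2.2]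
  have hd := hDISP A1 B Z nb K (Ioc A1 A2) S (fun a => (α a - f a) / 2) ν hZ d1 d2 d3 d4 d5 d6 c8'
    hI hhalf n1 fun b hb => ⟨(h.s b hb).1.le, (h.s b hb).2.1, (n3 b ((h.s b hb).2.2.2.mono hZz)).ge⟩
  have hs := hRC (N ^ e1) B B S hz d9 fun b hb =>
    ⟨(h.s b hb).1, by linarith [(h.s b hb).2.1], (h.s b hb).2.2.2⟩
  have hbpos : ∀ b ∈ S, 0 < b := fun b hb => (h.s b hb).2.2.2.pos hz
  have hcs := bx_cs (Icc 1 K) S (fun k b => ∑ a ∈ Ioc A1 A2, (α a - f a) * rr k (a * b))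
    (fun k b => 4 * 2 ^ ⌈2 / e1⌉₊ * Qf (fun a => (α a - f a) / 2) (Ioc A1 A2) ⌈2 * (A1 : ℝ)⌉₊ b k)
    fun k hk b hb => by
      obtain ⟨b1, b2, b3, b4⟩ := h.s b hb
      obtain ⟨q1, q2⟩ := hD1 (fun a => (α a - f a) / 2) (Ioc A1 A2) ⌈2 * (A1 : ℝ)⌉₊ b (hbpos b hb)
      have q3 := q2 k (mem_Icc.1 hk).1 fun a ha => by
        have h1 := (hI a ha).2
        have h2 := Nat.le_ceil (2 * (A1 : ℝ))
        have h3 : (a : ℝ) * b ≤ (⌈2 * (A1 : ℝ)⌉₊ : ℝ) ^ 2 :=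
          calc (a : ℝ) * b ≤ 2 * A1 * (2 * A1) := by
                gcongr <;> linarith
            _ ≤ _ := by rw [sq]; gcongr
        exact_mod_cast h3
      have q4 : (rho k b : ℝ) ≤ 2 ^ ⌈2 / e1⌉₊ := by
        exact_mod_cast (hROOT.2.2.2.1 k b (mem_Icc.1 hk).1 (b4.odd hz) b3).2.trans
          (hTAU (N ^ e1) _ b (by linarith) b4 (by linarith))
      have e : ∑ a ∈ Ioc A1 A2, (α a - f a) * rr k (a * b) =
          2 * ∑ a ∈ Ioc A1 A2, (α a - f a) / 2 * rr k (a * b) := by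
        rw [mul_sum]
        exact sum_congr rfl fun a _ => by ring
      rw [e, mul_pow, mul_assoc, show (2 : ℝ) ^ 2 = 4 by norm_num]
      exact mul_le_mul_of_nonneg_left (q3.trans (mul_le_mul_of_nonneg_right q4 (q1 k)))
        (by norm_num)
  simp only [← mul_sum] at hcs
  rw [Nat.card_Icc, Nat.add_sub_cancel] at hcs
  have hE : nb * enS (Ioc A1 A2) (gam fun a => (α a - f a) / 2) ⌊Z ^ 2⌋₊ + A1 / Z ≤
      (10 * Cn * Cp / (eg * e1 ^ 2) + 2) * (ρ * A1 / Real.log N ^ 3) := by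
    have k1 := mul_le_mul_of_nonneg_left ((bx_half _ _ _).trans f4) n1.2.2.1
    rw [hρe, lz] at k1
    rw [lZ] at n2
    have k2 : nb * (Cp * (ρ * A1 / (e1 * Real.log N) ^ 2)) ≤
        10 * Cn * Cp / (eg * e1 ^ 2) * (ρ * A1 / Real.log N ^ 3) :=
      (mul_le_mul_of_nonneg_right n2 (by positivity)).trans_eq (by field_simp)
    have k3 : nb * (Cp * ((R.factorial : ℝ) ^ 2 * (⌊Z ^ 2⌋₊ : ℝ) ^ 3 / A1)) ≤
        ρ * A1 / Real.log N ^ 3 := by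
      refine (mul_le_of_le_one_left (by positivity) n1.2.2.2.1).trans ?_
      rw [le_div_iff₀ (by positivity)]
      calc Cp * ((R.factorial : ℝ) ^ 2 * (⌊Z ^ 2⌋₊ : ℝ) ^ 3 / A1) * Real.log N ^ 3
          ≤ Cp * ((R.factorial : ℝ) ^ 2 * (Z ^ 2) ^ 3 / 1) * Real.log N ^ 3 := by gcongr
        _ = ρ * (4 * Cp * (R.factorial : ℝ) ^ 2 / ρ * (Z ^ 2) ^ 3 * Real.log N ^ 3 / 4) := by
          field_simp
        _ ≤ ρ * A1 := by gcongr; linarith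
    have k4 : A1 / Z ≤ ρ * A1 / Real.log N ^ 3 := by
      rw [div_le_div_iff₀ hZ0 (by positivity)]
      calc A1 * Real.log N ^ 3 = ρ * A1 * (1 / ρ * Real.log N ^ 3) := by field_simp
        _ ≤ _ := by gcongr
    rw [mul_add, mul_add] at k1
    rw [add_mul]
    linarith only [k1, k2, k3, k4]
  have hs' : (S.card : ℝ) ≤ Cr / e1 * B / Real.log N := hs.trans_eq (by rw [lz]; field_simp)
  have hT := bx_final (τ := 4 * 2 ^ ⌈2 / e1⌉₊) (c3 := 10 * Cn * Cp / (eg * e1 ^ 2) + 2)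
    (Nat.cast_nonneg K) hB0.le hN0.le hL0 hρ.le (by positivity) (div_pos hCr he0).le hCd.le
    (by positivity) (sum_nonneg fun (k : ℕ) _ => sum_nonneg fun b hb =>
      (hD1 _ _ _ b (hbpos b hb)).1 k) hcs hs' hd hE h.a2
  have hP := hper K A1 A2 B S f φ ((Real.rpow_le_rpow_of_exponent_le hN1 hθ).trans hlo) hhi hB1
    hb2 h f1 f2 hφ
  have hP' : K * N / Real.log N ^ 3 ≤ √ρ * K * N / Real.log N ^ 2 := by
    rw [div_le_iff₀ hsq] at hL'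
    calc K * N / Real.log N ^ 3 ≤ K * N / Real.log N ^ 3 * (Real.log N * √ρ) :=
          le_mul_of_one_le_right (by positivity) hL'
      _ = _ := by field_simp
  refine (sum_le_sum fun k _ => bx_split R.factorial k _ S α φ f hφ (f3 k)).trans ?_
  rw [sum_add_distrib]
  refine (add_le_add hT (hP.trans hP')).trans_eq ?_
  ring

end Pool.Agent.P.MP_8be758_nt.Av3
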