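import Pool.Agent.P.MP_8be758_nt.Av3.Basic

/-! The step `S_CELLb`. -/

namespace Pool.Agent.P.MP_8be758_nt.Av3

open Finset Real Filter Topology
open Pool.Agent.P.MP_e86632_nt (ee)
open Pool.Agent.P.MP_8be758_nt.Avg Pool.Agent.P.MP_8be758_nt.Av2

theorem cellb_ev {θ ζ : ℝ} (hP : Pm θ ζ) (C : ℝ) : ∀ᶠ N : ℝ in atTop,
    ∀ (K : ℕ) (B : ℝ) (S : Finset ℕ) (β : ℕ → ℝ), T4 θ N K B S β →
    cell_H C N (Zq ζ N) (max K B) B (N ^ (1 / 10 : ℝ)) ⌈N ^ 3⌉₊ ∧ (0 : ℝ) < K ∧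
      2 * Zq ζ N ^ 30 * (K * B) ≤ N ^ 2 ∧ 2 * Zq ζ N ^ 800 * N ^ 2 ≤ K ^ 2 * B ∧
      2 * Zq ζ N ^ 400 * N ^ 2 ≤ K * B ^ 2 ∧ 2 * Zq ζ N ^ 400 * N ^ 2 * B ≤ K ^ 4 ∧
      2 * Zq ζ N ^ 40 * N ^ 2 ≤ K ^ 3 := by
  have z0 := hP.z0
  have z1 := hP.z1
  have t0 := hP.t0
  filter_upwards [ev_zq0 z0 16, ev_zq0 z0 C,
    ev_zq_pow ζ 1 100 (a := 0) (b := 1) (by push_cast; linarith),
    ev_zq_pow ζ 1 300 (a := 0) (b := 33 / 50) (by push_cast; linarith),
    ev_zq_pow ζ 2 600 (a := 10 / 11 + 10 / 11) (b := 2) (by push_cast; linarith),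
    ev_zq_pow ζ 2 30 (a := 10 / 11 + 10 / 11) (b := 2) (by push_cast; linarith),
    ev_zq_pow ζ 2 800 (a := 2) (b := θ + θ + 33 / 50) (by push_cast; linarith),
    ev_zq_pow ζ 2 400 (a := 2) (b := θ + (33 / 50 + 33 / 50)) (by push_cast; linarith),
    ev_zq z0 5 1, ev_log 1, ev_zq_gs z0 10 (c := 1 / 2) (by norm_num), ev_zq_gs z0 210 one_pos,
    ev_zq_tau z0 8, ev_zq_pow ζ 2 85 (a := 0) (b := 1 / 10) (by push_cast; linarith),
    ev_zq_pow ζ 2 400 (a := 2 + 10 / 11) (b := θ + θ + θ + θ) (by push_cast; linarith),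
    ev_zq_pow ζ 2 40 (a := 2) (b := θ + θ + θ) (by push_cast; linarith), eventually_ge_atTop 2]
    with N a1 a2 a3 a4 a5 a6 a7 a8 a9 a10 a11 a12 a13 a14 a15 a16 hN K B S β h
  have hN0 : 0 < N := by linarith
  have pos : ∀ x : ℝ, 0 < N ^ x := fun x => Real.rpow_pos_of_pos hN0 x
  have hB : 0 < B := (pos _).trans_le h.b1
  have hK : (0 : ℝ) < K := (pos _).trans_le h.lo
  have hZ := zq_pos hN0 ζ
  have hM : max (K : ℝ) B ≤ N ^ (10 / 11 : ℝ) := max_le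
    (h.hi.trans (Real.rpow_le_rpow_of_exponent_le (by linarith) (by norm_num))) h.b2
  have hK' : (K : ℝ) ≤ max (K : ℝ) B := le_max_left _ _
  simp only [Real.rpow_zero, Real.rpow_one, Real.rpow_two, mul_one, one_mul, pow_one,
    Real.rpow_add hN0, one_div_mul_eq_div] at a3 a4 a5 a6 a7 a8 a9 a11 a12 a14 a15 a16
  have lo := h.lo
  have c1 : 2 * Zq ζ N ^ 30 * (max (K : ℝ) B * B) ≤ N ^ 2 := le_trans (by gcongr; exact h.b2) a6
  have c2 : 2 * Zq ζ N ^ 800 * N ^ 2 ≤ K ^ 2 * B := a7.trans (by rw [sq]; gcongr; exact h.b1)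
  have c3 : 2 * Zq ζ N ^ 400 * N ^ 2 ≤ K * B ^ 2 :=
    a8.trans (by rw [sq]; gcongr <;> exact h.b1)
  refine ⟨⟨a1, a2, a3, a4.trans h.b1, le_max_right _ _, le_trans ?_ a5, c1, c2.trans (by gcongr),
    c3.trans (by gcongr), a9, a10, a11, a12, a13, a14, Nat.le_ceil _, ?_⟩, hK,
    le_trans (by gcongr) c1, c2, c3, le_trans ?_ (a15.trans ?_), a16.trans ?_⟩
  · rw [sq B]; gcongr <;> exact h.b2
  · have := (Nat.ceil_lt_add_one (show 0 ≤ N ^ 3 by positivity)).le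
    have h3 : 1 ≤ N ^ 3 := one_le_pow₀ (by linarith)
    nlinarith
  · rw [mul_assoc _ (N ^ 2)]; gcongr; exact h.b2
  · rw [show (K : ℝ) ^ 4 = K * K * K * K by ring]; gcongr
  · rw [show (K : ℝ) ^ 3 = K * K * K by ring]; gcongr

theorem t_CELLb (hCELL0b : S_CELL0b) (θ ζ : ℝ) (hP : Pm θ ζ) : S_CELLb θ ζ := by
  have hWW := lib_WW
  intro W hW
  obtain ⟨C0, hC0, H0⟩ := hCELL0b
  obtain ⟨C1, hC1, H1⟩ := lib_GA
  obtain ⟨C2, hC2, H2⟩ := lib_ZF
  filter_upwards [cellb_ev hP (36 * C0 + C1 + C2 + W)] with N hev K E1 E2 B j j' l τ1 τ2 S β hT hS s21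
    e1 e2 f1 f2
  obtain ⟨h, hK0, m1, m2, m3, m4, m5⟩ := hev K B S β hT
  rw [rq]
  generalize Zq ζ N = Z at *
  generalize ⌈N ^ 3⌉₊ = Y at h
  have hz := h.z0
  have hN := h.n1
  have hN0 : 0 < N := by linarith
  have hB := h.bb
  have hB0 : 0 < B := by linarith
  have hW0 : (0 : ℝ) ≤ W := Nat.cast_nonneg W
  have hc := h.c
  have P := h.par hS.l0 hS.s12 s21 hS.a2 hS.u hS.v rfl e1 e2 f1 f2
  have P' := h.par hS.l0 hS.s12 s21 hS.a2 hS.u' hS.v' rfl e1 e2 f1 f2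
  have k1 := h.kap1
  have k0 : 0 < 1 / Z ^ 22 * Z := by positivity
  obtain ⟨A, hA⟩ : ∃ A, A = Real.exp (2 * τ1 - 8 * (1 / Z ^ 22 * Z)) := ⟨_, rfl⟩
  have hA0 : 0 < A := hA ▸ Real.exp_pos _
  have x12 : Real.exp (2 * τ1) ≤ Real.exp (2 * τ2) := by gcongr; exact hS.s12
  have A1 : A ≤ Real.exp (2 * τ1) := by rw [hA]; gcongr; linarith
  have A2 : 2 / 3 * Real.exp (2 * τ1) ≤ A := by
    rw [hA, sub_eq_add_neg, Real.exp_add, mul_comm]
    gcongr
    linarith [Real.add_one_le_exp (-(8 * (1 / Z ^ 22 * Z)))]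
  have AB1 : N ^ 2 / 2 ≤ A * B := by
    nlinarith [mul_le_mul_of_nonneg_right A2 hB0.le, hS.a1, sq_nonneg N]
  have AB2 : A * B ≤ 13 / 10 * N ^ 2 :=
    (mul_le_mul_of_nonneg_right (A1.trans x12) hB0.le).trans hS.a2
  have hN2 : 0 < N ^ 2 := by positivity
  have AN : 2 * A ≤ N ^ 2 := by nlinarith only [AB2, hB, hA0, hN2]
  have AB3 : A * B ≤ 2 * N ^ 2 := by linarith
  have eta1 : 4 / Z ^ 20 ≤ 1 / 4 := by
    rw [div_le_div_iff₀ (by positivity) (by norm_num)]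
    linarith [h.zp (n := 20) (by norm_num)]
  have eta0 : 0 < 4 / Z ^ 20 := by positivity
  obtain ⟨I, hI⟩ : ∃ I, I = Ioc ⌊A⌋₊ ⌊(1 + 4 / Z ^ 20) * A⌋₊ := ⟨_, rfl⟩
  have mI : ∀ a : ℕ, a ∈ I ↔ A < a ∧ (a : ℝ) ≤ (1 + 4 / Z ^ 20) * A := fun a => by
    rw [hI, mem_Ioc, Nat.floor_lt hA0.le, Nat.le_floor_iff (by positivity)]
  have top : Real.exp (2 * τ2 + 8 * (1 / Z ^ 22 * Z)) ≤ (1 + 4 / Z ^ 20) * A := by
    have w1 : 16 * (1 / Z ^ 22 * Z) ≤ 1 / Z ^ 20 := by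
      rw [h.kap, mul_one_div, div_le_div_iff₀ (by positivity) (by positivity), one_mul,
        pow_succ' Z 20]
      gcongr
      exact h.z
    have w2 : 4 / Z ^ 20 = 4 * (1 / Z ^ 20) := by ring
    rw [w2] at eta1 eta0 ⊢
    generalize 1 / Z ^ 20 = y at *
    have w3 := Real.abs_exp_sub_one_sub_id_le (x := 3 * y) (by rw [abs_le]; constructor <;> linarith)
    have w4 : Real.exp (3 * y) ≤ 1 + 4 * y := by nlinarith [(abs_le.1 w3).2]
    refine le_trans ?_ (mul_le_mul_of_nonneg_right w4 hA0.le)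
    rw [hA, ← Real.exp_add]
    exact Real.exp_le_exp.2 (by linarith)
  have hIA : I ⊆ AR N B := fun a ha => by
    obtain ⟨a1, a2⟩ := (mI a).1 ha
    refine (mem_AR (by positivity)).2 ⟨by exact_mod_cast hA0.trans a1, ?_, ?_⟩
    · rw [div_le_iff₀ (by positivity)]; nlinarith
    · rw [le_div_iff₀ hB0]
      have : (a : ℝ) ≤ 5 / 4 * A := a2.trans (by gcongr; linarith)
      nlinarith
  have aN : ∀ a ∈ AR N B, (a : ℝ) ≤ N ^ 2 := fun a ha => by
    refine ((mem_AR (by positivity)).1 ha).2.2.trans ?_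
    rw [div_le_iff₀ hB0]; nlinarith
  have hτ : ∀ a ∈ AR N B, (a.divisors.card : ℝ) ≤ Z := fun a ha =>
    h.t a ((aN a ha).trans (h.np (by norm_num)))
  have hCov : Cov Y (1 / Z ^ 22) Z τ1 τ2 I := by
    refine ⟨fun a ha => mem_Icc.2 ⟨((mem_AR (by positivity)).1 (hIA ha)).1, ?_⟩,
      fun a a1 a2 => (mI a).2 ⟨hA ▸ a1, a2.trans top⟩⟩
    exact_mod_cast (aN a (hIA ha)).trans ((h.np (by norm_num)).trans h.y1)
  have hyg := h.ygs
  have N5 : N ≤ N ^ 5 := by simpa using h.np (m := 1) (n := 5) (by norm_num)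
  have hy3 : Y * gs Z ≤ (1 / Z ^ 22) ^ 3 := by
    refine hyg.trans ?_
    rw [one_div_pow, ← pow_mul]
    exact one_div_le_one_div_of_le (by positivity) ((h.zn (by norm_num)).trans N5)
  have dif : ∀ {p q M : ℝ}, 0 ≤ p → 0 ≤ q → p ≤ M → q ≤ M → |p - q| ≤ M := fun a b c d =>
    abs_le.2 ⟨by linarith, by linarith⟩
  set α : ℕ → ℝ := fun a => al (1 / Z ^ 22) j (j + l) τ1 τ2 E1 E2 a -
    al (1 / Z ^ 22) j' (j' + l) τ1 τ2 E1 E2 a with hα
  obtain ⟨D, hD⟩ : ∃ D, D = Z * (9 * (1 / Z ^ 22) ^ 2) := ⟨_, rfl⟩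
  have hD0 : 0 < D := by rw [hD]; positivity
  have hD1 : 1 / D = Z ^ 43 / 9 := by rw [hD]; field_simp
  have b1 : ∀ a ∈ AR N B, |α a| ≤ D := fun a ha => hD ▸
    dif (al_nonneg _ P.j12 P.s12 _ _ _) (al_nonneg _ P'.j12 P'.s12 _ _ _)
      ((cell_al hWW P (hτ a ha)).1 hy3) ((cell_al hWW P' (hτ a ha)).1 hy3)
  have b2 : ∀ a ∈ AR N B \ I, |α a| ≤ Z * (Y * gs Z) := fun a ha => by
    obtain ⟨a1, a2⟩ := mem_sdiff.1 ha
    have a3 : (a : ℝ) ≤ Real.exp (2 * τ1 - 8 * (1 / Z ^ 22 * Z)) ∨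
        Real.exp (2 * τ2 + 8 * (1 / Z ^ 22 * Z)) ≤ a := by
      by_contra hc
      rw [not_or, not_le, not_le] at hc
      exact a2 (hCov.2 a hc.1 hc.2.le)
    exact dif (al_nonneg _ P.j12 P.s12 _ _ _) (al_nonneg _ P'.j12 P'.s12 _ _ _)
      ((cell_al hWW P (hτ a a1)).2 a3) ((cell_al hWW P' (hτ a a1)).2 a3)
  set α0 : ℕ → ℝ := fun a => if a ∈ I then 1 / D * α a else 0 with hα0
  have eS : ∀ γ t, SI I α0 γ t = (1 / D : ℝ) * SI I α γ t := fun γ t => by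
    rw [SI_congr (α' := fun a => 1 / D * α a) fun a ha => if_pos ha, SI_smul]
  have nD : ‖((1 / D : ℝ) : ℂ)‖ = Z ^ 43 / 9 := by
    rw [Complex.norm_real, hD1, Real.norm_of_nonneg (by positivity)]
  have hBA : Z ^ 600 * B ≤ A := le_of_mul_le_mul_right (by linarith only [h.b3, AB1]) hB0
  have hBA' : B ≤ A := le_trans (le_mul_of_one_le_left hB0.le (one_le_pow₀ h.z1)) hBA
  have q1 : Real.exp τ1 ^ 2 = Real.exp (2 * τ1) := by rw [← Real.exp_nat_mul]; norm_num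
  have main := H0 A B Z K W I S α0 β (by linarith [h.z]) hBA h.b1
    (by
      calc Z ^ 400 * (B ^ 2 * A) = Z ^ 400 * (A * B) * B := by ring
        _ ≤ Z ^ 400 * (2 * N ^ 2) * B := by gcongr
        _ = 2 * Z ^ 400 * N ^ 2 * B := by ring
        _ ≤ _ := m4)
    (by
      calc Z ^ 40 * (A * B) ≤ Z ^ 40 * (2 * N ^ 2) := by gcongr
        _ = 2 * Z ^ 40 * N ^ 2 := by ring
        _ ≤ _ := m5)
    (le_of_mul_le_mul_right (by linarith only [m1, AB1]) hB0)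
    (le_of_mul_le_mul_right (by
      calc Z ^ 800 * A * B = Z ^ 800 * (A * B) := by ring
        _ ≤ Z ^ 800 * (2 * N ^ 2) := by gcongr
        _ = 2 * Z ^ 800 * N ^ 2 := by ring
        _ ≤ _ := m2) hB0)
    (le_of_mul_le_mul_right (by
      calc Z ^ 400 * A * B = Z ^ 400 * (A * B) := by ring
        _ ≤ Z ^ 400 * (2 * N ^ 2) := by gcongr
        _ = 2 * Z ^ 400 * N ^ 2 := by ring
        _ ≤ K * B ^ 2 := m3
        _ = _ := by ring) hB0)
    (by
      have := Real.log_le_log hA0 (show A ≤ N ^ 2 by linarith)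
      rw [Real.log_pow] at this
      push_cast at this
      linarith [h.l, h.l1])
    (le_trans (by
      have := gs_pos (Z / 2)
      rw [show N ^ 10 = (N ^ 2) ^ 5 by ring]
      gcongr
      linarith) h.g1)
    (h.t.mono (le_trans (by nlinarith : 4 * A ^ 2 ≤ (N ^ 2) ^ 2)
      (by rw [← pow_mul]; exact h.np (by norm_num))) le_rfl)
    (fun a ha => (mI a).1 ha)
    (fun a => by
      simp only [hα0]
      split_ifs with ha
      · rw [abs_mul, abs_of_pos (by positivity), one_div_mul_eq_div, div_le_one hD0]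
        exact b1 a (hIA ha)
      · simp)
    hT.s hT.c hW (by linarith)
    (fun φ t1 t2 => by
      have s1 : √A ≤ Real.exp τ1 := Real.sqrt_le_iff.2 ⟨(Real.exp_pos _).le, by rwa [q1]⟩
      have s2 : Real.exp τ1 ≤ 2 * √A := by
        refine abs_le_of_sq_le_sq' ?_ (by positivity) |>.2
        rw [q1, mul_pow, Real.sq_sqrt hA0.le]
        linarith
      have g1 := cell_gg h hC1 (by linarith) H1 P hCov f1 f2 hBA' (by linarith) s1 s2 t1 t2
      have g2 := cell_gg h hC1 (by linarith) H1 P' hCov f1 f2 hBA' (by linarith) s1 s2 t1 t2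
      have g3 := GG_le_two (S := SI I α) (fun γ t => by
        rw [hα, SI_sub]; exact norm_sub_le _ _) (2 * ⌈√(A / B)⌉₊) φ
      have g4 := shp_nonneg (Real.sqrt_nonneg A) (Real.sqrt_nonneg (A / B)) φ
      rw [show SI I α0 = fun γ t => (1 / D : ℝ) * SI I α γ t from funext₂ eS, GG_smul, nD]
      calc _ ≤ (Z ^ 43 / 9) ^ 2 * (36 * Z ^ 13 * shp (√A) (√(A / B)) φ) := by
            gcongr; linarith
        _ = 4 / 9 * Z ^ 99 * shp (√A) (√(A / B)) φ := by ring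
        _ ≤ _ := by
            gcongr
            linarith [h.pw (m := 99) (n := 120) (by norm_num), pow_pos hz 99])
    (fun q r q1 q2 => by
      have lt : ∀ {E y : ℝ}, 0 ≤ E → E ≤ Z ^ 2 → N ^ (1 / 10 : ℝ) ≤ y →
          q * Z / (1 / Z ^ 22) * E < y := fun {E y} a b c => by
        have : q * Z / (1 / Z ^ 22) * E ≤ Z ^ 60 * Z / (1 / Z ^ 22) * Z ^ 2 := by gcongr
        have e : Z ^ 60 * Z / (1 / Z ^ 22) * Z ^ 2 = Z ^ 85 := by field_simp
        linarith [h.x, pow_pos hz 85]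
      have g := H2 Y Y E1 E2 q r _ Z j j' l τ1 τ2 I P P' hCov q1
        (lt (Nat.cast_nonneg _) f1 hS.u) (lt (Nat.cast_nonneg _) f1 hS.u')
        (lt (Nat.cast_nonneg _) f2 hS.v) (lt (Nat.cast_nonneg _) f2 hS.v')
      rw [eS, norm_mul, nD]
      calc _ ≤ Z ^ 43 / 9 * (Z * (2 / N ^ 6)) := by
            gcongr
            refine g.trans (mul_le_mul (by linarith) h.neg1 ?_ hz.le)
            exact mul_nonneg (Nat.cast_nonneg _) (neg_nonneg' _ _)
        _ = 2 / 9 * Z ^ 44 / N ^ 6 := by ring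
        _ ≤ 1 := by
            rw [div_le_one (by positivity)]
            linarith [h.zn (m := 44) (by norm_num), pow_pos hz 44,
              show N ≤ N ^ 6 by simpa using h.np (m := 1) (n := 6) (by norm_num)])
  have eT : tb K W S β I α = D * tb K W S β I α0 := by
    rw [← abs_of_pos hD0, ← tb_smul]
    exact tb_congr (fun _ _ => rfl) fun a ha => by
      simp only [hα0, if_pos ha]
      field_simp
  have r1 : tb K W S β I α ≤ K * N / Z ^ 69 / 2 := by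
    have sq : √(A * B) ≤ 2 * N := Real.sqrt_le_iff.2 ⟨by positivity, by nlinarith⟩
    rw [eT]
    calc D * tb K W S β I α0 ≤ D * (Z / 36 * K * (2 * N) / Z ^ 27) := by
          refine mul_le_mul_of_nonneg_left (main.trans ?_) hD0.le
          gcongr
          linarith
      _ = _ := by rw [hD]; field_simp; norm_num
  have cS : (S.card : ℝ) ≤ 2 * B := by
    have d1 : S ⊆ Icc 1 ⌊2 * B⌋₊ := fun b hb =>
      mem_Icc.2 ⟨(hT.s b hb).2.2.2.pos, Nat.le_floor (hT.s b hb).2.1⟩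
    have d2 := card_le_card d1
    rw [Nat.card_Icc, Nat.add_sub_cancel] at d2
    exact le_trans (by exact_mod_cast d2) (Nat.floor_le (by positivity))
  have cJ : ((AR N B \ I).card : ℝ) ≤ 2 * N ^ 2 / B :=
    le_trans (by exact_mod_cast card_le_card sdiff_subset) (card_AR (by positivity))
  have r2 : tb K W S β (AR N B \ I) α ≤ K * N / Z ^ 69 / 2 := by
    refine (cell_triv K W hT.c b2).trans ?_
    calc _ ≤ K * (2 * B * (2 * N ^ 2 / B * (Z * (1 / N ^ 5) * (2 * Z)))) := by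
          have := gs_pos Z
          gcongr
          linarith [h.z1]
      _ = K * N / Z ^ 69 / 2 * (16 * Z ^ 71 / N ^ 4) := by field_simp; norm_num
      _ ≤ _ := by
          refine mul_le_of_le_one_right (by positivity) ?_
          rw [div_le_one (by positivity)]
          calc 16 * Z ^ 71 ≤ N * N := by gcongr; exact h.zn (by norm_num)
            _ = N ^ 2 := by ring
            _ ≤ _ := h.np (by norm_num)
  refine (tb_sdiff_le β α hIA).trans ((add_le_add r1 r2).trans_eq ?_)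
  field_simp
  norm_num

end Pool.Agent.P.MP_8be758_nt.Av3
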