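import Pool.Agent.P.MP_8be758_nt.Av3.BasB

/-! The step `S_CLS`. -/

namespace Pool.Agent.P.MP_8be758_nt.Av3

open Finset Real Filter Topology
open Pool.Agent.P.MP_e86632_nt (ee)
open Pool.Agent.P.MP_8be758_nt.Avg Pool.Agent.P.MP_8be758_nt.Av2
open Pool.Agent.P.MP_e86632_nt

/-- restriction to a residue class -/
noncomputable def clsR (q s : ℕ) (f : ℕ → ℝ) (u : ℕ) : ℝ := if u % q = s then f u else 0

theorem cls_sum {q : ℕ} (hq : 0 < q) (f : ℕ → ℝ) : f = fun u => ∑ s ∈ range q, clsR q s f u := by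
  funext u
  simp [clsR, sum_ite_eq, Nat.mod_lt _ hq]

theorem cls_fg {U V : ℕ} {f g : ℕ → ℝ} (h : FG U V f g) (q s t : ℕ) :
    FG U V (clsR q s f) (clsR q t g) := by
  refine ⟨fun u => ?_, fun v => ?_, fun u hu => h.fU u fun h0 => hu ?_,
    fun v hv => h.gV v fun h0 => hv ?_, h.u1, h.v1⟩
  · unfold clsR; split_ifs; exacts [h.f1 u, by simp]
  · unfold clsR; split_ifs; exacts [h.g1 v, by simp]
  · simp [clsR, h0]
  · simp [clsR, h0]

theorem cls_cv {q : ℕ} (hq : 0 < q) (f g : ℕ → ℝ) (a : ℕ) :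
    cv f g a = ∑ p ∈ range q ×ˢ range q, cv (clsR q p.1 f) (clsR q p.2 g) a := by
  rw [sum_product]
  conv_lhs => rw [cls_sum hq f, cls_sum hq g]
  rw [cv_sum_left]
  exact sum_congr rfl fun _ _ => cv_sum _ _ _ _

theorem cls_mod {q s t a : ℕ} {f g : ℕ → ℝ} (h : cv (clsR q s f) (clsR q t g) a ≠ 0) :
    ∃ k : ℤ, (a : ℤ) = (s * t : ℕ) + q * k := by
  obtain ⟨u, v, rfl, -, h1, h2⟩ := cv_ne_zero h
  have e1 : u % q = s := by by_contra hh; simp [clsR, hh] at h1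
  have e2 : v % q = t := by by_contra hh; simp [clsR, hh] at h2
  have : u * v ≡ s * t [MOD q] := by
    rw [← e1, ← e2]; exact ((Nat.mod_modEq u q).mul (Nat.mod_modEq v q)).symm
  obtain ⟨k, hk⟩ := (Nat.modEq_iff_dvd.1 this.symm)
  exact ⟨k, by linarith⟩

theorem cls_term {μ a1 a2 m1 m2 : ℕ} (hμ : 1 ≤ μ) (j : ℕ) (c x : ℂ) {k1 k2 : ℤ}
    (h1 : (a1 : ℤ) = m1 + (2 * μ ^ 2 : ℕ) * k1) (h2 : (a2 : ℤ) = m2 + (2 * μ ^ 2 : ℕ) * k2) :
    (c * if Cg μ a1 a2 then x * ee (-((j : ℝ) / 2 * (sg a1 a2 ^ 2 / (μ : ℝ) ^ 2))) else 0) =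
      x * ((if Cg μ m1 m2 then c * ee (-(j * ((m1 : ℝ) + m2) / (2 * μ ^ 2))) else 0) *
        ee (1 / (μ : ℝ) ^ 2 * j * √((a1 : ℝ) * a2))) := by
  have e : Cg μ a1 a2 ↔ Cg μ m1 m2 := by
    have : (a2 : ℤ) - a1 ≡ m2 - m1 [ZMOD 2 * μ] := by
      refine Int.modEq_iff_dvd.2 ⟨μ * (k1 - k2), ?_⟩
      rw [h1, h2]; push_cast; ring
    exact ⟨fun h => this.symm.trans h, fun h => this.trans h⟩
  by_cases h : Cg μ m1 m2
  · rw [if_pos (e.2 h), if_pos h]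
    have hμ' : (0 : ℝ) < μ := by exact_mod_cast hμ
    have r1 : (a1 : ℝ) = m1 + 2 * μ ^ 2 * k1 := by exact_mod_cast h1
    have r2 : (a2 : ℝ) = m2 + 2 * μ ^ 2 * k2 := by exact_mod_cast h2
    have s : sg a1 a2 ^ 2 = a1 + a2 - 2 * √((a1 : ℝ) * a2) := by
      rw [sg, sub_sq, Real.sq_sqrt (Nat.cast_nonneg _), Real.sq_sqrt (Nat.cast_nonneg _),
        Real.sqrt_mul (Nat.cast_nonneg _)]
      ring
    have t : -((j : ℝ) / 2 * (sg a1 a2 ^ 2 / (μ : ℝ) ^ 2)) =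
        -(j * ((m1 : ℝ) + m2) / (2 * μ ^ 2)) + 1 / (μ : ℝ) ^ 2 * j * √((a1 : ℝ) * a2) +
          ((-(j * (k1 + k2)) : ℤ) : ℝ) := by
      rw [s]
      generalize √((a1 : ℝ) * a2) = w
      rw [r1, r2]; push_cast; field_simp; ring
    rw [t, ee_add_int, ee_add]; ring
  · rw [if_neg (fun hh => h (e.1 hh)), if_neg h]; ring

theorem t_CLS : S_CLS := by
  classical
  intro μ U V R η κ y1 y2 E c Js f g hμ hc hF h
  obtain ⟨q, hq⟩ : ∃ q, q = 2 * μ ^ 2 := ⟨_, rfl⟩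
  have hq0 : 0 < q := by rw [hq]; positivity
  set P := range q ×ˢ range q with hP
  let c' : (ℕ × ℕ) × ℕ × ℕ → ℕ → ℂ := fun p j =>
    if Cg μ (p.1.1 * p.1.2) (p.2.1 * p.2.2) then
      c j * ee (-(j * (((p.1.1 * p.1.2 : ℕ) : ℝ) + (p.2.1 * p.2.2 : ℕ)) / (2 * μ ^ 2))) else 0
  have := ib_sum_le (P ×ˢ P) fun p _ => h (c' p) _ _ _ _ (fun j => by
    simp only [c']
    split_ifs
    · rw [norm_mul, norm_ee, mul_one]; exact hc j
    · simp) (cls_fg hF q p.1.1 p.1.2) (cls_fg hF q p.2.1 p.2.2)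
  refine this.mono (fun y _ _ => le_trans (le_of_eq ?_) (norm_sum_le _ _)) (le_of_eq ?_)
  · congr 1
    simp only [os, osj, ob, mul_sum]
    rw [sum_comm]
    conv_rhs => rw [sum_comm]
    refine sum_congr rfl fun a1 _ => ?_
    rw [sum_comm]
    conv_rhs => rw [sum_comm]
    refine sum_congr rfl fun a2 _ => ?_
    conv_rhs => rw [sum_comm]
    refine sum_congr rfl fun j _ => ?_
    have e : wd η y (cv f g) a1 * wd η y (cv f g) a2 * gs (R * lq a1 a2) = ∑ p ∈ P ×ˢ P,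
        wd η y (cv (clsR q p.1.1 f) (clsR q p.1.2 g)) a1 *
          wd η y (cv (clsR q p.2.1 f) (clsR q p.2.2 g)) a2 * gs (R * lq a1 a2) := by
      rw [← sum_mul, sum_product]
      simp only [wd]
      rw [cls_cv hq0 f g a1, cls_cv hq0 f g a2, mul_sum, mul_sum, sum_mul_sum]
    rw [e]
    have e2 : ∀ (F : (ℕ × ℕ) × ℕ × ℕ → ℝ) (z : ℂ),
        (c j * if Cg μ a1 a2 then ((∑ p ∈ P ×ˢ P, F p : ℝ) : ℂ) * z else 0) =
        ∑ p ∈ P ×ˢ P, c j * if Cg μ a1 a2 then (F p : ℂ) * z else 0 := by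
      intro F z
      split_ifs
      · rw [Complex.ofReal_sum, sum_mul, mul_sum]
      · simp
    rw [e2]
    refine sum_congr rfl fun p _ => ?_
    by_cases n1 : cv (clsR q p.1.1 f) (clsR q p.1.2 g) a1 = 0
    · simp [wd, n1]
    by_cases n2 : cv (clsR q p.2.1 f) (clsR q p.2.2 g) a2 = 0
    · simp [wd, n2]
    obtain ⟨k1, e1⟩ := cls_mod n1
    obtain ⟨k2, e3⟩ := cls_mod n2
    rw [hq] at e1 e3
    exact cls_term hμ j _ _ e1 e3
  · rw [hP, card_product, card_product, card_range, hq]; push_cast; ring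

end Pool.Agent.P.MP_8be758_nt.Av3
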