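import Pool.Agent.P.MP_8be758_nt.Av3.BasB

/-! The step `S_CNT8`. -/

namespace Pool.Agent.P.MP_8be758_nt.Av3

open Finset Real Filter Topology
open Pool.Agent.P.MP_e86632_nt (ee)
open Pool.Agent.P.MP_8be758_nt.Avg Pool.Agent.P.MP_8be758_nt.Av2

theorem cnt8_prod {J L w : ℕ} (h1 : 1 ≤ L) (h : L ≤ J) (hw : w < J / L + 1) {x : Fin 4 → ℕ}
    (hx : x ∈ W4 J L w) : 1 ≤ ∏ i, x i ∧ ∏ i, x i ≤ 81 * J ^ 4 := by
  have b := fun i => mem_Wn_bd h hw (Fintype.mem_piFinset.1 hx i)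
  have hJ := h1.trans h
  refine ⟨Nat.pos_of_ne_zero (prod_ne_zero_iff.2 fun i _ => by have := b i; omega), ?_⟩
  refine (prod_le_pow_card _ _ (3 * J) fun i _ => by have := b i; omega).trans_eq ?_
  simp; ring

theorem cnt8_fib {J L w : ℕ} {τ : ℝ} (h1 : 1 ≤ L) (h : L ≤ J) (hw : w < J / L + 1)
    (hτ : TauB (100 * (J : ℝ) ^ 4) τ) (m D : ℤ) :
    (((W4 J L w).filter fun x => m - (∏ i, x i : ℕ) = D).card : ℝ) ≤ τ ^ 4 := by
  have hJ : (1 : ℝ) ≤ J := by exact_mod_cast h1.trans h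
  have t1 := hτ.one_le (by nlinarith [one_le_pow₀ (n := 4) hJ])
  rcases ((W4 J L w).filter fun x => m - (∏ i, x i : ℕ) = D).eq_empty_or_nonempty with e | ⟨y, hy⟩
  · rw [e]; simp; positivity
  obtain ⟨y1, y2⟩ := mem_filter.1 hy
  obtain ⟨p1, p2⟩ := cnt8_prod h1 h hw y1
  have s : ((W4 J L w).filter fun x => m - (∏ i, x i : ℕ) = D) ⊆
      Fintype.piFinset fun _ => (∏ i, y i).divisors := by
    intro x hx
    have e : ∏ i, x i = ∏ i, y i := by have := (mem_filter.1 hx).2; omega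
    exact Fintype.mem_piFinset.2 fun i => Nat.mem_divisors.2
      ⟨e ▸ dvd_prod_of_mem _ (mem_univ i), by omega⟩
  refine (Nat.cast_le.2 (card_le_card s)).trans ?_
  rw [Fintype.card_piFinset, prod_const, card_univ, Fintype.card_fin, Nat.cast_pow]
  refine pow_le_pow_left₀ (Nat.cast_nonneg _) (hτ _ ?_) _
  have : ((∏ i, y i : ℕ) : ℝ) ≤ 81 * J ^ 4 := by exact_mod_cast p2
  nlinarith [one_le_pow₀ (n := 4) hJ]

open Classical in
theorem cnt8_win {J L w : ℕ} {τ : ℝ} (h1 : 1 ≤ L) (h : L ≤ J) (hw : w < J / L + 1)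
    (hτ : TauB (100 * (J : ℝ) ^ 4) τ) (D : ℤ) :
    (((W4 J L w ×ˢ W4 J L w).filter fun p =>
      ((∏ i, p.1 i : ℕ) : ℤ) - (∏ i, p.2 i : ℕ) = D).card : ℝ) ≤
    ((W4 J L w).filter fun x => ∃ y ∈ W4 J L w, ((∏ i, x i : ℕ) : ℤ) - (∏ i, y i : ℕ) = D).card *
      τ ^ 4 := by
  rw [card_filter, sum_product, Nat.cast_sum, ← nsmul_eq_mul, ← sum_const, sum_filter]
  refine sum_le_sum fun x _ => ?_
  rw [← card_filter]
  split_ifs with hh
  · exact cnt8_fib h1 h hw hτ ((∏ i, x i : ℕ) : ℤ) D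
  · rw [filter_eq_empty_iff.2 fun y hy e => hh ⟨y, hy, e⟩]; simp

theorem cnt8_sum (J L M : ℕ) (f : ℕ → ℕ) :
    ∑ w ∈ range M, ∑ c ∈ Wn J L w, f c = ∑ c ∈ Ico J (J + M * L), f c := by
  induction M with
  | zero => simp
  | succ M ih =>
    rw [sum_range_succ, ih, Wn, sum_Ico_consecutive _ (by omega) (by nlinarith)]

/-- the differences -/
noncomputable def cnt8D (L : ℕ) : Finset (Fin 4 → ℤ) := Fintype.piFinset fun _ => Ioo (-(L : ℤ)) L

open Classical in
theorem cnt8_red (J L w : ℕ) (D : ℤ) :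
    ((W4 J L w).filter fun x => ∃ y ∈ W4 J L w,
      ((∏ i, x i : ℕ) : ℤ) - (∏ i, y i : ℕ) = D).card ≤
    ∑ c ∈ Wn J L w, ((cnt8D L).filter fun d => (c : ℤ) ∣ ∏ i, d i - D).card := by
  refine le_trans (card_le_card (t := (Wn J L w).biUnion fun c =>
    (W4 J L w).filter fun x => (c : ℤ) ∣ (∏ i, x i : ℕ) - D) fun x hx => ?_)
    (card_biUnion_le.trans (sum_le_sum fun c hc => ?_))
  · obtain ⟨x1, y, y1, e⟩ := mem_filter.1 hx
    refine mem_biUnion.2 ⟨y 3, Fintype.mem_piFinset.1 y1 3, mem_filter.2 ⟨x1, ?_⟩⟩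
    rw [← e, sub_sub_cancel]
    exact Int.natCast_dvd_natCast.2 (dvd_prod_of_mem _ (mem_univ _))
  · refine card_le_card_of_injOn (fun x i => (x i : ℤ) - c) (fun x hx => ?_) fun x _ y _ e => ?_
    · obtain ⟨x1, x2⟩ := mem_filter.1 (mem_coe.1 hx)
      refine mem_coe.2 (mem_filter.2 ⟨Fintype.mem_piFinset.2 fun i => ?_, ?_⟩)
      · have a := mem_Ico.1 (Fintype.mem_piFinset.1 x1 i)
        have b := mem_Ico.1 hc
        rw [add_mul, one_mul] at a b
        rw [mem_Ioo]; beta_reduce; omega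
      · have : ∏ i, ((x i : ℤ) - c) ≡ (∏ i, x i : ℕ) [ZMOD c] := by
          push_cast
          exact Int.ModEq.prod fun i _ => by simp [Int.ModEq]
        have := (this.sub_right D).dvd
        simpa using (dvd_sub x2 this)
    · funext i
      have := congrFun e i
      simp only at this
      omega

theorem cnt8_tot {J L : ℕ} {τ : ℝ} (h1 : 1 ≤ L) (h : L ≤ J) (hτ : TauB (100 * (J : ℝ) ^ 4) τ)
    {D : ℤ} (h0 : D ≠ 0) (hD : D.natAbs ≤ 81 * J ^ 4) :
    ((∑ c ∈ Ico J (3 * J), ((cnt8D L).filter fun d => (c : ℤ) ∣ ∏ i, d i - D).card : ℕ) : ℝ) ≤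
      16 * (L : ℝ) ^ 4 * τ + 16 * τ ^ 4 * (2 * J) := by
  classical
  have hJ : (1 : ℝ) ≤ J := by exact_mod_cast h1.trans h
  have t1 := hτ.one_le (by nlinarith [one_le_pow₀ (n := 4) hJ])
  have tb : ∀ m : ℕ, m ≤ 82 * J ^ 4 → (m.divisors.card : ℝ) ≤ τ := fun m hm => hτ m (by
    have : (m : ℝ) ≤ 82 * J ^ 4 := by exact_mod_cast hm
    nlinarith [one_le_pow₀ (n := 4) hJ])
  simp only [card_filter]
  rw [sum_comm, Nat.cast_sum]
  simp only [← card_filter]
  have k : ∀ d ∈ cnt8D L, (((Ico J (3 * J)).filter fun c : ℕ => (c : ℤ) ∣ ∏ i, d i - D).card : ℝ) ≤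
      τ + if ∏ i, d i = D then 2 * (J : ℝ) else 0 := by
    intro d hd
    split_ifs with e
    · refine (Nat.cast_le.2 (card_filter_le _ _)).trans ?_
      rw [Nat.card_Ico, show 3 * J - J = 2 * J by omega]
      push_cast; linarith
    · rw [add_zero]
      refine le_trans (Nat.cast_le.2 (card_le_card fun c hc => ?_)) (tb (∏ i, d i - D).natAbs ?_)
      · exact Nat.mem_divisors.2 ⟨Int.natCast_dvd.1 (mem_filter.1 hc).2,
          Int.natAbs_ne_zero.2 (sub_ne_zero.2 e)⟩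
      · have : (∏ i, d i).natAbs ≤ J ^ 4 := by
          rw [← Int.natAbsHom_apply, map_prod]
          refine (prod_le_pow_card _ _ J fun i _ => ?_).trans_eq (by simp)
          have := mem_Ioo.1 (Fintype.mem_piFinset.1 hd i)
          rw [Int.natAbsHom_apply]; omega
        have := Int.natAbs_sub_le (∏ i, d i) D
        omega
  refine (sum_le_sum k).trans ?_
  rw [sum_add_distrib, ← sum_filter, sum_const, sum_const, nsmul_eq_mul, nsmul_eq_mul]
  have c1 : ((cnt8D L).card : ℝ) ≤ 16 * (L : ℝ) ^ 4 := by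
    rw [cnt8D, Fintype.card_piFinset, prod_const, card_univ, Fintype.card_fin, Int.card_Ioo]
    have : ((L : ℤ) - -L - 1).toNat ≤ 2 * L := by omega
    calc _ ≤ (((2 * L) ^ 4 : ℕ) : ℝ) := by exact_mod_cast Nat.pow_le_pow_left this 4
      _ = _ := by push_cast; ring
  have c2 : (((cnt8D L).filter fun d => ∏ i, d i = D).card : ℝ) ≤ 16 * τ ^ 4 := by
    let S : Finset ℤ := D.natAbs.divisors.image (fun m : ℕ => (m : ℤ)) ∪
      D.natAbs.divisors.image fun m : ℕ => -(m : ℤ)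
    have s : ((cnt8D L).filter fun d => ∏ i, d i = D) ⊆ Fintype.piFinset fun _ => S := by
      intro d hd
      refine Fintype.mem_piFinset.2 fun i => ?_
      have e : (d i).natAbs ∈ D.natAbs.divisors := Nat.mem_divisors.2 ⟨Int.natAbs_dvd_natAbs.2
        ((mem_filter.1 hd).2 ▸ dvd_prod_of_mem _ (mem_univ i)), Int.natAbs_ne_zero.2 h0⟩
      rcases Int.natAbs_eq (d i) with e1 | e1
      · exact mem_union_left _ (mem_image.2 ⟨_, e, e1.symm⟩)
      · exact mem_union_right _ (mem_image.2 ⟨_, e, e1.symm⟩)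
    have s2 : (S.card : ℝ) ≤ 2 * τ := by
      have a : S.card ≤ D.natAbs.divisors.card + D.natAbs.divisors.card :=
        (card_union_le _ _).trans (add_le_add card_image_le card_image_le)
      have b := tb D.natAbs (by omega)
      have : (S.card : ℝ) ≤ D.natAbs.divisors.card + D.natAbs.divisors.card := by exact_mod_cast a
      linarith
    refine (Nat.cast_le.2 (card_le_card s)).trans ?_
    rw [Fintype.card_piFinset, prod_const, card_univ, Fintype.card_fin, Nat.cast_pow]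
    exact (pow_le_pow_left₀ (Nat.cast_nonneg _) s2 4).trans_eq (by ring)
  gcongr

theorem t_CNT8 : S_CNT8 := by
  classical
  intro J L τ h1 h hτ
  have hJ : (1 : ℝ) ≤ J := by exact_mod_cast h1.trans h
  have t1 := hτ.one_le (by nlinarith [one_le_pow₀ (n := 4) hJ])
  have k := fun D => sum_le_sum fun w (hw : w ∈ range (J / L + 1)) =>
    cnt8_win h1 h (mem_range.1 hw) hτ D
  refine ⟨?_, fun D h0 => ?_⟩
  · rw [cnt8, Nat.cast_sum]
    refine (k 0).trans ((sum_le_card_nsmul _ _ ((L : ℝ) ^ 4 * τ ^ 4) fun w _ => ?_).trans ?_)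
    · gcongr
      refine (Nat.cast_le.2 (card_filter_le _ _)).trans_eq ?_
      rw [W4, Fintype.card_piFinset, prod_const, card_univ, Fintype.card_fin, card_Wn, Nat.cast_pow]
    · rw [card_range, nsmul_eq_mul]
      have : ((J / L + 1 : ℕ) : ℝ) * L ≤ 2 * J := by exact_mod_cast Wn_len h
      calc _ = ((J / L + 1 : ℕ) : ℝ) * L * ((L : ℝ) ^ 3 * τ ^ 4) := by ring
        _ ≤ 2 * J * ((L : ℝ) ^ 3 * τ ^ 4) := by gcongr
        _ = _ := by ring
  · by_cases hD : D.natAbs ≤ 81 * J ^ 4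
    · rw [cnt8, Nat.cast_sum]
      refine (k D).trans ?_
      rw [← sum_mul, ← Nat.cast_sum]
      have a := (sum_le_sum fun w (_ : w ∈ range (J / L + 1)) => cnt8_red J L w D).trans
        ((cnt8_sum J L _ _).trans_le (sum_le_sum_of_subset (t := Ico J (3 * J))
          (Ico_subset_Ico_right (by have := Wn_len h; omega))))
      refine (mul_le_mul_of_nonneg_right ((Nat.cast_le.2 a).trans (cnt8_tot h1 h hτ h0 hD))
        (by positivity)).trans ?_
      have b : τ ≤ τ ^ 4 := le_self_pow₀ t1 (by norm_num)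
      calc _ ≤ (32 * (L : ℝ) ^ 4 * τ ^ 4 + 16 * τ ^ 4 * (2 * J)) * τ ^ 4 := by gcongr; norm_num
        _ = _ := by ring
    · rw [cnt8, sum_eq_zero fun w hw => ?_, Nat.cast_zero]
      · positivity
      · rw [card_eq_zero, filter_eq_empty_iff]
        intro p hp e
        have a := cnt8_prod h1 h (mem_range.1 hw) (mem_product.1 hp).1
        have b := cnt8_prod h1 h (mem_range.1 hw) (mem_product.1 hp).2
        omega

end Pool.Agent.P.MP_8be758_nt.Av3
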