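import Pool.Agent.P.MP_8be758_nt.Av3.Basic

/-! The step `S_COREb`. -/

namespace Pool.Agent.P.MP_8be758_nt.Av3

open Finset Real Filter Topology
open Pool.Agent.P.MP_e86632_nt (ee)
open Pool.Agent.P.MP_8be758_nt.Avg Pool.Agent.P.MP_8be758_nt.Av2
open ArithmeticFunction (vonMangoldt)

theorem t_COREb (θ δ : ℝ) (hθ : 7 / 10 ≤ θ) (hHB : S_HB θ δ) : S_CORE2 θ δ := by
  classical
  intro ε hε
  have hε1 : 0 < ε ^ 2 / 100 := by positivity
  obtain ⟨e0, he0, hHB⟩ := hHB _ hε1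
  obtain ⟨e1, he1, h10, h1e⟩ : ∃ e1 : ℝ, 0 < e1 ∧ e1 ≤ 1 / 10 ∧ e1 ≤ e0 :=
    ⟨min (1 / 10) e0, lt_min (by norm_num) he0, min_le_left _ _, min_le_right _ _⟩
  obtain ⟨C1, R1, hHB⟩ := hHB e1 he1 h1e
  obtain ⟨C, hC, hHR⟩ := lib_HR
  obtain ⟨C2, hC2, -, hCNT2, -⟩ := lib_CNT
  obtain ⟨C0, hC0, hC1⟩ : ∃ C0 : ℝ, 0 < C0 ∧ C1 ≤ C0 :=
    ⟨|C1| + 1, by positivity, by linarith [le_abs_self C1]⟩
  obtain ⟨e4, he4, h4a, h4b⟩ : ∃ e4 : ℝ, 0 < e4 ∧ e4 ≤ ε / 4 ∧ 3 * C0 * C / e1 * e4 ≤ ε := by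
    refine ⟨min (ε / 4) (ε / (3 * C0 * C / e1)), by positivity, min_le_left _ _, ?_⟩
    rw [← le_div_iff₀' (by positivity)]
    exact min_le_right _ _
  obtain ⟨R0, -, hSS1⟩ := lib_SS1 e4 he4
  refine ⟨max R0 R1, fun R hR => ?_⟩
  have hRa := le_of_max_le_left hR
  filter_upwards [hHB R (le_of_max_le_right hR),
    lib_PNTM R (ε / 4) (by positivity), ev_K (hSS1 R hRa) (show (0 : ℝ) < 7 / 10 by norm_num),
    ev_const 2 he1, ev_pow (40 * C2 / ε ^ 2) 1 (show (0 : ℝ) < 7 / 20 by norm_num),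
    eventually_ge_atTop 2] with N hG hP hS hz hL2 hN K X1 X2 hst
  have hN1 : 1 ≤ N := by linarith
  have hN0 : 0 < N := by linarith
  have hL := Real.log_pos (show 1 < N by linarith)
  have hK : N ^ (7 / 10 : ℝ) ≤ K := (Real.rpow_le_rpow_of_exponent_le hN1 hθ).trans hst.lo
  have hK1 : (1 : ℝ) ≤ K := (Real.one_le_rpow hN1 (by norm_num)).trans hK
  have pw : ∀ (n : ℕ) (b : ℝ), e1 * n ≤ b → (N ^ e1) ^ n ≤ N ^ b := fun n b h => by
    rw [← Real.rpow_mul_natCast hN0.le]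
    exact Real.rpow_le_rpow_of_exponent_le hN1 h
  have hzN : N ^ e1 ≤ N := by simpa using pw 1 1 (by push_cast; linarith)
  obtain ⟨v0, v1, -⟩ := hHR (N ^ e1) (N ^ e1) hz le_rfl
  obtain ⟨c0, hc0, s1⟩ := hG K X1 X2 hst
  have s5 := hCNT2 N K X1 X2 hN hst.x2
  have s6 := hS K hK (N ^ e1) ((pw 3 (7 / 10) (by push_cast; linarith)).trans hK)
  obtain ⟨E, hE⟩ : ∃ E : ℕ → ℝ, E = fun k => 3 * Real.log N *
      |∑ m ∈ (Ioc X1 X2).filter (Rough (N ^ e1)),
        vonMangoldt m / (3 * Real.log N) * dd R.factorial k m - c0 * MT R (N ^ e1) X1 X2 k| +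
      ∑ m ∈ (Ioc X1 X2).filter (fun m => ¬ m.Prime), vonMangoldt m * rr k m := ⟨_, rfl⟩
  have hE0 : ∀ k ∈ Icc 1 K, 0 ≤ E k := fun k _ => by
    have : 0 ≤ ∑ m ∈ (Ioc X1 X2).filter (fun m => ¬ m.Prime), vonMangoldt m * rr k m :=
      sum_nonneg fun m _ => mul_nonneg ArithmeticFunction.vonMangoldt_nonneg (rr_nonneg k m)
    rw [hE]
    positivity
  have hEs : ∑ k ∈ Icc 1 K, E k ≤ ε * N / 2 * (ε / 2 * K) := by
    refine le_trans ?_ (core_sum (S := 0) hε hC2 he1 hL hK1 hN0 (by simpa using hL.le) ?_)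
    · simp only [hE, sum_add_distrib, ← mul_sum, zero_mul, add_zero]
      have : 0 ≤ ε ^ 2 / 100 * K * N / Real.log N := by positivity
      gcongr
      linarith
    · rw [Real.rpow_zero, mul_one, pow_one] at hL2
      refine hL2.trans (Real.le_sqrt_of_sq_le ?_)
      rw [← Real.rpow_mul_natCast hN0.le]
      norm_num
      exact hK
  have m1 : (((Icc 1 K).filter fun k => ε * N / 2 ≤ E k).card : ℝ) ≤ ε / 2 * K :=
    le_of_mul_le_mul_left ((markov (Icc 1 K) E hE0 (ε * N / 2) (fun k => ε * N / 2 ≤ E k)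
      fun _ _ h => h).trans hEs) (by positivity)
  have key : ∀ k, ¬ ε * N / 2 ≤ E k → ¬ e4 < |TT k R (N ^ e1) - 1| →
      |Th k X1 X2 - (√(X2 : ℝ) - √(X1 : ℝ)) * sing R k| ≤ ε * N * (1 + sing R k) := by
    intro k b1 b2
    have sg0 := lib_SGW.2.1 k R
    have b3 := core2_main hC he1 (by linarith) (hc0.trans hC1)
      (core_len hN0.le hst.x1 hst.x12 hst.x2) v0 v1 sg0 (not_lt.1 b2)
    have b5 := core_comb (core_Th k X2 (hzN.trans ((core_sq hN).1.trans hst.x1)))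
      (D := ∑ m ∈ (Ioc X1 X2).filter (Rough (N ^ e1)), vonMangoldt m * dd R.factorial k m)
      (t := ∑ m ∈ (Ioc X1 X2).filter (Rough (N ^ e1)),
        vonMangoldt m / (3 * Real.log N) * dd R.factorial k m) (b1 := 0) (b2 := 0) (lf := 0)
      (F := 0) (by rw [← sum_add_distrib]; exact sum_congr rfl fun m _ => by rw [dd]; ring)
      (hP (N ^ e1) k X1 X2 hzN hst.x1 hst.x12 hst.x2)
      (by simp only [add_zero, mul_sum]; exact sum_congr rfl fun m _ => by field_simp)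
      (by simp) b3 hL.le
    simp only [hE, not_le, MT] at b1
    simp only [abs_zero, add_zero] at b5
    have b6 := mul_le_mul_of_nonneg_right h4b (mul_nonneg hN0.le sg0)
    have b7 : 0 < ε * N := by positivity
    linarith
  have sub : ((Icc 1 K).filter fun k => ε * N * (1 + sing R k) <
      |Th k X1 X2 - (√(X2 : ℝ) - √(X1 : ℝ)) * sing R k|) ⊆
      ((Icc 1 K).filter fun k => ε * N / 2 ≤ E k) ∪
        (Icc 1 K).filter fun k => e4 < |TT k R (N ^ e1) - 1| := by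
    intro k hk
    obtain ⟨k1, k2⟩ := mem_filter.1 hk
    by_contra h
    simp only [mem_union, mem_filter, k1, true_and, not_or] at h
    exact absurd k2 (not_lt.2 (key k h.1 h.2))
  have fin := (card_le_card sub).trans (card_union_le _ _)
  have fin' := (Nat.cast_le (α := ℝ)).2 fin
  push_cast at fin'
  have b8 := mul_le_mul_of_nonneg_right h4a (Nat.cast_nonneg (α := ℝ) K)
  have b9 : 0 ≤ ε * K := by positivity
  linarith

end Pool.Agent.P.MP_8be758_nt.Av3
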