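import Pool.Agent.P.MP_8be758_nt.Av3.Basic

/-! The step `S_COb`. -/

namespace Pool.Agent.P.MP_8be758_nt.Av3

open Finset Real Filter Topology
open Pool.Agent.P.MP_e86632_nt (ee)
open Pool.Agent.P.MP_8be758_nt.Avg Pool.Agent.P.MP_8be758_nt.Av2

theorem cob_pairs (D : Finset ℕ) (Y k : ℕ) (hD : ∀ d ∈ D, d ≤ Y) (a w : ℕ → ℝ)
    (hw : ∀ n, 0 ≤ w n) (h : ∀ d ∈ D, ∀ n < d, a d ≤ w n) :
    ∑ d ∈ D, a d * (rho k d : ℝ) ≤
      ∑ n ∈ range Y, w n * ((D.filter fun d => d ∣ n ^ 2 + n + k).card : ℝ) := by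
  calc _ ≤ ∑ d ∈ D, ∑ n ∈ range Y, if d ∣ n ^ 2 + n + k then w n else 0 := by
        refine sum_le_sum fun d hd => ?_
        rw [← sum_filter, rho, mul_comm, ← nsmul_eq_mul, ← sum_const]
        refine (sum_le_sum fun n hn => h d hd n (mem_range.1 (mem_filter.1 hn).1)).trans ?_
        exact sum_le_sum_of_subset_of_nonneg
          (filter_subset_filter _ (range_subset_range.2 (hD d hd))) fun n _ _ => hw n
    _ = _ := by
        rw [sum_comm]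
        refine sum_congr rfl fun n _ => ?_
        rw [← sum_filter, sum_const, nsmul_eq_mul, mul_comm]

theorem cob_div {x τ : ℝ} (hτ : TauB x τ) (D : Finset ℕ) {m : ℕ} (h0 : m ≠ 0) (hm : (m : ℝ) ≤ x) :
    ((D.filter fun d => d ∣ m).card : ℝ) ≤ τ := by
  refine le_trans ?_ (hτ m hm)
  exact_mod_cast card_le_card fun d hd => Nat.mem_divisors.2 ⟨(mem_filter.1 hd).2, h0⟩

theorem cob_cnt (m K : ℕ) {q : ℕ} (hq : 0 < q) :
    (((Icc 1 K).filter fun k => q ∣ m + k).card : ℝ) ≤ K / q + 1 := by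
  have h1 : ((Icc 1 K).filter fun k => q ∣ m + k).card ≤ (Ioc (m / q) ((m + K) / q)).card := by
    refine card_le_card_of_injOn (fun k => (m + k) / q) (fun k hk => ?_) fun k hk k' hk' e => ?_
    · obtain ⟨h1, h2⟩ := mem_filter.1 hk
      obtain ⟨h3, h4⟩ := mem_Icc.1 h1
      refine mem_Ioc.2 ⟨?_, Nat.div_le_div_right (by omega)⟩
      rw [Nat.div_lt_iff_lt_mul hq, Nat.div_mul_cancel h2]
      omega
    · have h2 := Nat.div_mul_cancel (mem_filter.1 hk).2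
      have h3 := Nat.div_mul_cancel (mem_filter.1 hk').2
      simp only at e
      rw [e] at h2
      omega
  rw [Nat.card_Ioc] at h1
  have h3 : ((Icc 1 K).filter fun k => q ∣ m + k).card ≤ K / q + 1 :=
    h1.trans (Nat.sub_le_iff_le_add'.2
      ((Nat.add_div_le_div_add_div_add_one m K q).trans_eq (add_assoc _ _ _)))
  refine le_trans (by exact_mod_cast h3) (add_le_add (Nat.cast_div_le (α := ℝ)) le_rfl)

theorem cob_sq {x τ z : ℝ} (hτ : TauB x τ) (hz : 0 ≤ z) (D : Finset ℕ) (Y : ℕ)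
    (hD : ∀ d ∈ D, d ≤ Y ∧ 1 ≤ d ∧ Rough z d ∧ ¬ Squarefree d) {m : ℕ} (h0 : m ≠ 0)
    (hm : (m : ℝ) ≤ x) :
    ((D.filter fun d => d ∣ m).card : ℝ) ≤
      τ * ∑ p ∈ Ioc ⌊z⌋₊ (⌊z⌋₊ + Nat.sqrt Y), if p ^ 2 ∣ m then (1 : ℝ) else 0 := by
  have h1 := cob_div hτ D h0 hm
  have t0 : 0 ≤ τ := (Nat.cast_nonneg _).trans h1
  have hn : ∀ p : ℕ, (0 : ℝ) ≤ if p ^ 2 ∣ m then (1 : ℝ) else 0 := fun p => by
    split_ifs <;> norm_num
  rcases (D.filter fun d => d ∣ m).eq_empty_or_nonempty with h | ⟨d, hd⟩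
  · rw [h, card_empty, Nat.cast_zero]
    exact mul_nonneg t0 (sum_nonneg fun p _ => hn p)
  obtain ⟨h2, h3⟩ := mem_filter.1 hd
  obtain ⟨d1, d2, d3, d4⟩ := hD d h2
  rw [Nat.squarefree_iff_prime_squarefree] at d4
  push Not at d4
  obtain ⟨p, hp, hpd⟩ := d4
  have p1 : ⌊z⌋₊ < p := (Nat.floor_lt hz).2 (d3 p hp ((Dvd.intro _ rfl).trans hpd))
  have p2 : p ≤ Nat.sqrt Y := Nat.le_sqrt.2 ((Nat.le_of_dvd d2 hpd).trans d1)
  have h4 := single_le_sum (f := fun p : ℕ => if p ^ 2 ∣ m then (1 : ℝ) else 0)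
    (fun p _ => hn p) (mem_Ioc.2 ⟨p1, p2.trans (Nat.le_add_left _ ⌊z⌋₊)⟩)
  rw [if_pos (by rw [sq]; exact hpd.trans h3)] at h4
  exact h1.trans (le_mul_of_one_le_right t0 h4)

theorem cob_nsq {x τ z : ℝ} (hτ : TauB x τ) (hz : 2 ≤ z) (D : Finset ℕ) (Y K : ℕ)
    (hD : ∀ d ∈ D, d ≤ Y ∧ 1 ≤ d ∧ Rough z d ∧ ¬ Squarefree d) (t0 : 0 ≤ τ)
    (hx : ∀ n < Y, ∀ k ≤ K, ((n ^ 2 + n + k : ℕ) : ℝ) ≤ x) :
    ∑ k ∈ Icc 1 K, ∑ d ∈ D, 1 / (d : ℝ) * (rho k d : ℝ) ≤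
      τ * (1 + Real.log Y) * (2 * K / z + √(Y : ℝ)) := by
  have hz1 : 2 ≤ ⌊z⌋₊ := Nat.le_floor (by exact_mod_cast hz)
  have h2 : (2 : ℝ) ≤ ⌊z⌋₊ := by exact_mod_cast hz1
  have hz2 : z ≤ 2 * (⌊z⌋₊ : ℝ) := by linarith [Nat.lt_floor_add_one z]
  have hP : ∑ p ∈ Ioc ⌊z⌋₊ (⌊z⌋₊ + Nat.sqrt Y), ((K : ℝ) / (p ^ 2 : ℕ) + 1) ≤
      2 * K / z + √(Y : ℝ) := by
    rw [sum_add_distrib, sum_const, Nat.card_Ioc, Nat.add_sub_cancel_left, nsmul_eq_mul, mul_one]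
    refine add_le_add ?_ Real.nat_sqrt_le_real_sqrt
    simp only [div_eq_mul_inv (K : ℝ), Nat.cast_pow]
    rw [← mul_sum]
    calc _ ≤ (K : ℝ) * (⌊z⌋₊ : ℝ)⁻¹ := by
          refine mul_le_mul_of_nonneg_left ?_ (Nat.cast_nonneg _)
          refine (sum_Ioc_inv_sq_le_sub (by omega) (Nat.le_add_right _ _)).trans ?_
          exact sub_le_self _ (by positivity)
      _ ≤ _ := by
          rw [← div_eq_mul_inv, div_le_div_iff₀ (by linarith) (by linarith)]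
          nlinarith [Nat.cast_nonneg (α := ℝ) K]
  have hH : ∑ n ∈ range Y, 1 / ((n : ℝ) + 1) ≤ 1 + Real.log Y := by
    refine le_trans (le_of_eq ?_) (MP_e86632_nt.sum_inv_le Y)
    rw [← Nat.Ico_zero_eq_range, ← Finset.Ico_add_one_add_one_eq_Ioc, ← sum_Ico_add' _ _ _ 1]
    simp
  calc _ ≤ ∑ k ∈ Icc 1 K, ∑ n ∈ range Y, 1 / ((n : ℝ) + 1) *
        (τ * ∑ p ∈ Ioc ⌊z⌋₊ (⌊z⌋₊ + Nat.sqrt Y), if p ^ 2 ∣ n ^ 2 + n + k then (1 : ℝ) else 0) := by
        refine sum_le_sum fun k hk => ?_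
        obtain ⟨k1, k2⟩ := mem_Icc.1 hk
        refine (cob_pairs D Y k (fun d hd => (hD d hd).1) _ (fun n => 1 / ((n : ℝ) + 1))
          (fun n => by positivity) fun d _ n hn => ?_).trans (sum_le_sum fun n hn => ?_)
        · exact one_div_le_one_div_of_le (by positivity) (by exact_mod_cast hn)
        · exact mul_le_mul_of_nonneg_left (cob_sq hτ (by linarith) D Y hD (by omega)
            (hx n (mem_range.1 hn) k k2)) (by positivity)
    _ ≤ ∑ n ∈ range Y, 1 / ((n : ℝ) + 1) * (τ * (2 * K / z + √(Y : ℝ))) := by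
        rw [sum_comm]
        refine sum_le_sum fun n _ => ?_
        rw [← mul_sum, ← mul_sum, sum_comm]
        refine mul_le_mul_of_nonneg_left (mul_le_mul_of_nonneg_left
          (le_trans (sum_le_sum fun p hp => ?_) hP) t0) (by positivity)
        rw [← sum_filter, sum_const, nsmul_eq_mul, mul_one]
        exact cob_cnt _ K (pow_pos (by have := (mem_Ioc.1 hp).1; omega) 2)
    _ ≤ _ := by
        rw [← sum_mul, mul_comm τ (1 + _), mul_assoc]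
        exact mul_le_mul_of_nonneg_right hH (by positivity)

theorem t_COb : S_COb := by
  intro e1 he1
  obtain ⟨c0, hc, hR⟩ := lib_RHO e1 he1
  set g : ℝ := min (e1 / 2) (1 / 200) with hg
  have g0 : 0 < g := lt_min (half_pos he1) (by norm_num)
  have g1 : g ≤ e1 / 2 := min_le_left _ _
  have g2 : g ≤ 1 / 200 := min_le_right _ _
  filter_upwards [ev_K hR (by norm_num : (0 : ℝ) < 7 / 10), eventually_ge_atTop 2,
    ev_const 2 he1, ev_tau 3 g0, ev_log 1,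
    ev_pow 4 3 (by linarith : 0 < 7 / 10 * c0), ev_pow 16 4 (by linarith : g < e1),
    ev_pow 8 4 (by linarith : g + 5 / 11 < 7 / 10), ev_pow 16 4 he1]
    with N hK hN h2N hτ hL v1 v2 v3 v4 K hlo hhi
  have N0 : 0 < N := by linarith
  have N1 : 1 ≤ N := by linarith
  have K0 : (0 : ℝ) < K := (Real.rpow_pos_of_pos N0 _).trans_le hlo
  rw [Real.rpow_zero, mul_one] at v1 v4
  set y : ℝ := N ^ (10 / 11 : ℝ) with hy
  set z : ℝ := N ^ e1 with hz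
  set L : ℝ := Real.log N with hLL
  have y1 : 1 ≤ y := Real.one_le_rpow N1 (by norm_num)
  have yN : y ≤ N := by
    simpa using Real.rpow_le_rpow_of_exponent_le N1 (show (10 / 11 : ℝ) ≤ 1 by norm_num)
  have hfl : (⌊y⌋₊ : ℝ) ≤ y := Nat.floor_le (by linarith)
  have hf0 : (0 : ℝ) < ⌊y⌋₊ := by exact_mod_cast Nat.floor_pos.2 y1
  have t0 : 0 < N ^ g := Real.rpow_pos_of_pos N0 _
  have hx : ∀ n < ⌊y⌋₊, ∀ k ≤ K, ((n ^ 2 + n + k : ℕ) : ℝ) ≤ N ^ (3 : ℝ) := fun n hn k hk => by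
    have h1 : (n : ℝ) ≤ N := le_trans (by exact_mod_cast hn.le) (hfl.trans yN)
    have h2 : (k : ℝ) ≤ N := le_trans (by exact_mod_cast hk) hhi
    have h3 : (n : ℝ) ^ 2 ≤ N ^ 2 := by gcongr
    rw [show (3 : ℝ) = (3 : ℕ) by norm_num, Real.rpow_natCast]
    push_cast
    nlinarith [mul_nonneg (mul_nonneg N0.le (sub_nonneg.2 hN)) (by linarith : 0 ≤ N + 1)]
  have hm : ∀ d ∈ Ry y z, d ≤ ⌊y⌋₊ ∧ 1 ≤ d ∧ Rough z d := fun d hd =>
    ⟨(mem_Icc.1 (mem_filter.1 hd).1).2, (mem_Icc.1 (mem_filter.1 hd).1).1, (mem_filter.1 hd).2⟩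
  refine ⟨fun k hk => ?_, fun c hc1 => ?_⟩
  · obtain ⟨k1, k2⟩ := mem_Icc.1 hk
    have h1 := cob_pairs (Ry y z) ⌊y⌋₊ k (fun d hd => (hm d hd).1) (fun _ => 1) (fun _ => 1)
      (fun _ => zero_le_one) fun _ _ _ _ => le_rfl
    simp only [one_mul] at h1
    refine h1.trans ((sum_le_card_nsmul _ _ (N ^ g) fun n hn =>
      cob_div hτ _ (by omega) (hx n (mem_range.1 hn) k k2)).trans ?_)
    rw [card_range, nsmul_eq_mul]
    refine (mul_le_mul_of_nonneg_right hfl t0.le).trans ?_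
    rw [hy, ← Real.rpow_add N0]
    exact Real.rpow_le_rpow_of_exponent_le N1 (by linarith)
  set S := (Ry y z).filter Squarefree with hS
  set D := (Ry y z).filter (fun d => ¬ Squarefree d) with hD
  have hD1 : ∀ d ∈ D, d ≤ ⌊y⌋₊ ∧ 1 ≤ d ∧ Rough z d ∧ ¬ Squarefree d := fun d hd =>
    have h := hm d (mem_filter.1 hd).1
    ⟨h.1, h.2.1, h.2.2, (mem_filter.1 hd).2⟩
  have a1 := hK K hlo S (fun b => c b / b) fun b hb => by
    obtain ⟨b1, b2, b3⟩ := hm b (mem_filter.1 hb).1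
    refine ⟨(mem_filter.1 hb).2, b3.mono (Real.rpow_le_rpow K0.le hhi he1.le), ?_, ?_⟩
    · have h1 := mul_le_mul hlo hlo (by positivity) K0.le
      rw [← Real.rpow_add N0] at h1
      have h2 : y ≤ N ^ (7 / 10 + 7 / 10 : ℝ) := Real.rpow_le_rpow_of_exponent_le N1 (by norm_num)
      have h3 : (b : ℝ) ≤ ⌊y⌋₊ := by exact_mod_cast b1
      have h4 : (b : ℝ) ≤ (K : ℝ) ^ 2 := by nlinarith
      exact_mod_cast h4
    · rw [abs_div, Nat.abs_cast]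
      exact div_le_div_of_nonneg_right (hc1 b) (Nat.cast_nonneg _)
  have a2 := cob_nsq hτ h2N D ⌊y⌋₊ K hD1 t0.le hx
  have a3 := (lib_NSQ z y D h2N y1 fun b hb =>
    ⟨le_trans (by exact_mod_cast (hD1 b hb).1) hfl, (hD1 b hb).2.2⟩).2
  have l1 : 1 + Real.log y ≤ 2 * L := by linarith [Real.log_le_log (by linarith) yN]
  have l2 : 1 + Real.log ⌊y⌋₊ ≤ 2 * L := by linarith [Real.log_le_log hf0 hfl]
  have s1 : √(⌊y⌋₊ : ℝ) ≤ N ^ (5 / 11 : ℝ) := by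
    rw [Real.sqrt_le_iff, sq, ← Real.rpow_add N0]
    exact ⟨by positivity, hfl.trans (le_of_eq (by norm_num [hy]))⟩
  have z0 : 0 < z := by linarith
  have L0 : 0 < L := by linarith
  have b1 : (K : ℝ) ^ (1 - c0) ≤ K / (4 * L ^ 3) := by
    have h1 : N ^ (7 / 10 * c0) ≤ (K : ℝ) ^ c0 := by
      rw [Real.rpow_mul N0.le]
      exact Real.rpow_le_rpow (by positivity) hlo hc.le
    rw [Real.rpow_sub K0, Real.rpow_one]
    exact div_le_div_of_nonneg_left K0.le (by positivity) (v1.trans h1)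
  have b2 : N ^ g * (2 * L) * (2 * K / z) ≤ K / (4 * L ^ 3) := by
    rw [← mul_div_assoc, div_le_div_iff₀ z0 (by positivity)]
    nlinarith [mul_le_mul_of_nonneg_left v2 K0.le]
  have b3 : N ^ g * (2 * L) * N ^ (5 / 11 : ℝ) ≤ K / (4 * L ^ 3) := by
    rw [le_div_iff₀ (by positivity)]
    rw [Real.rpow_add N0] at v3
    nlinarith
  have b4 : K * (2 * (2 * L) / z) ≤ K / (4 * L ^ 3) := by
    rw [← mul_div_assoc, div_le_div_iff₀ z0 (by positivity)]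
    nlinarith [mul_le_mul_of_nonneg_left v4 K0.le]
  have herr : ∀ k ∈ Icc 1 K, |∑ d ∈ Ry y z, c d / d * ((rho k d : ℝ) - 1)| ≤
      |∑ d ∈ S, c d / d * ((rho k d : ℝ) - 1)| +
        (∑ d ∈ D, 1 / (d : ℝ) * (rho k d : ℝ) + 2 * (2 * L) / z) := fun k _ => by
    rw [← sum_filter_add_sum_filter_not (Ry y z) Squarefree]
    refine (abs_add_le _ _).trans (add_le_add le_rfl ((abs_sum_le_sum_abs _ _).trans ?_))
    refine le_trans ?_ (add_le_add le_rfl (a3.trans (by gcongr)))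
    rw [← sum_add_distrib]
    refine sum_le_sum fun d _ => ?_
    rw [abs_mul, abs_div, Nat.abs_cast, ← mul_add_one]
    refine mul_le_mul (div_le_div_of_nonneg_right (hc1 d) (Nat.cast_nonneg _)) ?_ (abs_nonneg _)
      (by positivity)
    exact abs_le.2 ⟨by linarith [Nat.cast_nonneg (α := ℝ) (rho k d)], by linarith⟩
  refine (sum_le_sum herr).trans ?_
  rw [sum_add_distrib, sum_add_distrib, sum_const, Nat.card_Icc, Nat.add_sub_cancel, nsmul_eq_mul]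
  have a4 : N ^ g * (1 + Real.log ⌊y⌋₊) * (2 * K / z + √(⌊y⌋₊ : ℝ)) ≤
      N ^ g * (2 * L) * (2 * K / z + N ^ (5 / 11 : ℝ)) := by gcongr
  rw [mul_add] at a4
  have e : (K : ℝ) / L ^ 3 = 4 * (K / (4 * L ^ 3)) := by field_simp
  linarith

end Pool.Agent.P.MP_8be758_nt.Av3
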