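import Pool.Agent.P.MP_8be758_nt.Av3.BasB

/-! The step `S_DG0`. -/

namespace Pool.Agent.P.MP_8be758_nt.Av3

open Finset Real Filter Topology
open Pool.Agent.P.MP_e86632_nt (ee)
open Pool.Agent.P.MP_8be758_nt.Avg Pool.Agent.P.MP_8be758_nt.Av2

theorem t_DG0 : S_DG0 := by
  refine ⟨Real.exp π * 8 * 12, by positivity, ?_⟩
  intro A B K τ n0 I hA hB hK hKA hI hτ hτ0
  have hAB : 1 ≤ A * B := hK.trans hKA
  set g1 : ℕ → ℝ := fun n => gs (1 / √(A * B) * ((n : ℤ) - 0)) with hg1
  set g2 : ℤ → ℝ := fun k => gs (1 / (2 * K) * (k - 1 / 4)) with hg2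
  have key : ∀ (k : ℤ) (n : ℕ), ∑ b ∈ Icc 1 n0, ∑ a ∈ I,
      cw B K b (4 * k - 1) * (if FF k n = a * b then (1 : ℝ) ^ 2 else 0) ≤
        τ * (Real.exp π * (g1 n * g2 k)) := by
    intro k n
    have hM : 0 ≤ Real.exp π * (g1 n * g2 k) :=
      (mul_pos (Real.exp_pos _) (mul_pos (gs_pos _) (gs_pos _))).le
    set T := (Icc 1 n0 ×ˢ I).filter fun p : ℕ × ℕ => FF k n = p.2 * p.1 with hT
    have h1 : ∑ b ∈ Icc 1 n0, ∑ a ∈ I,
        cw B K b (4 * k - 1) * (if FF k n = a * b then (1 : ℝ) ^ 2 else 0) =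
        ∑ p ∈ T, cw B K p.1 (4 * k - 1) := by
      rw [hT, sum_filter, sum_product]
      simp only [mul_ite, mul_zero, one_pow, mul_one]
    have h2 : (T.card : ℝ) ≤ τ := by
      rcases T.eq_empty_or_nonempty with h | ⟨p, hp⟩
      · simpa [h] using hτ0
      simp only [hT, mem_filter, mem_product, mem_Icc] at hp
      have ha := hI _ hp.1.2
      refine le_trans ?_ (hτ (p.2 * p.1) ?_)
      · refine Nat.cast_le.2 (card_le_card_of_injOn (fun q => q.1) ?_ ?_)
        · intro q hq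
          simp only [hT, coe_filter, mem_product, mem_Icc, Set.mem_ofPred_eq] at hq
          have h3 : p.2 * p.1 = q.2 * q.1 := by exact_mod_cast hp.2.symm.trans hq.2
          exact mem_coe.2 (Nat.mem_divisors.2 ⟨h3 ▸ dvd_mul_left _ _,
            (Nat.mul_pos ha.1 hp.1.1.1).ne'⟩)
        · intro q hq q' hq' he
          simp only [hT, coe_filter, mem_product, mem_Icc, Set.mem_ofPred_eq] at hq hq' he
          have h3 : q.2 * q.1 = q'.2 * q'.1 := by exact_mod_cast hq.2.symm.trans hq'.2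
          rw [← he] at h3
          exact Prod.ext he (Nat.eq_of_mul_eq_mul_right hq.1.1.1 h3)
      · have h3 : (p.1 : ℝ) ≤ n0 := by exact_mod_cast hp.1.1.2
        push_cast
        exact mul_le_mul ha.2 h3 (Nat.cast_nonneg _) hA.le
    rw [h1]
    refine (sum_le_card_nsmul _ _ _ fun p hp => ?_).trans
      (by rw [nsmul_eq_mul]; exact mul_le_mul_of_nonneg_right h2 hM)
    simp only [hT, mem_filter, mem_product, mem_Icc] at hp
    have ha := hI _ hp.1.2
    have h3 : ((FF k n : ℤ) : ℝ) = p.2 * p.1 := by exact_mod_cast hp.2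
    have h4 := d13_exp (A' := A) (B := B) (K := K) (F := (FF k n : ℤ)) (n := n) (k := k)
      (b := p.1) hA hB (by linarith) hKA (Nat.cast_nonneg _)
      (by simp [FF]) (by rw [h3]; gcongr; exact ha.2)
    simpa [hg1, hg2, cw] using h4
  have hs : 1 ≤ √(A * B) := Real.one_le_sqrt.2 hAB
  have s1 : ∑ n ∈ range n0, g1 n ≤ 8 * √(A * B) := by
    have h1 := d13_fin lib_GS1 lib_GS2 (r := 1 / √(A * B)) (by positivity) 0
      ((range n0).map Nat.castEmbedding)
    rw [sum_map, one_div_one_div] at h1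
    exact h1.trans (by linarith)
  have s2 : ∑ k ∈ KR n0, g2 k ≤ 12 * K := by
    have h1 := d13_fin lib_GS1 lib_GS2 (r := 1 / (2 * K)) (by positivity) (1 / 4) (KR n0)
    rw [one_div_one_div] at h1
    exact h1.trans (by linarith)
  calc dg (cw B K) (fun _ => 1) I n0 = ∑ k ∈ KR n0, ∑ n ∈ range n0, ∑ b ∈ Icc 1 n0, ∑ a ∈ I,
        cw B K b (4 * k - 1) * (if FF k n = a * b then (1 : ℝ) ^ 2 else 0) := by
        simp only [dg, mul_sum]
        rw [sum_comm]
        exact sum_congr rfl fun k _ => sum_comm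
    _ ≤ ∑ k ∈ KR n0, ∑ n ∈ range n0, τ * (Real.exp π * (g1 n * g2 k)) :=
        sum_le_sum fun k _ => sum_le_sum fun n _ => key k n
    _ = τ * Real.exp π * ((∑ n ∈ range n0, g1 n) * ∑ k ∈ KR n0, g2 k) := by
        rw [sum_mul_sum, sum_comm, mul_sum]
        refine sum_congr rfl fun k _ => ?_
        rw [mul_sum]
        exact sum_congr rfl fun n _ => by ring
    _ ≤ τ * Real.exp π * (8 * √(A * B) * (12 * K)) := by
        gcongr
        exact sum_nonneg fun _ _ => (gs_pos _).le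
    _ = _ := by ring

end Pool.Agent.P.MP_8be758_nt.Av3
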