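import Pool.Agent.P.MP_8be758_nt.Av3.BasB

/-! The step `S_DGI`. -/

namespace Pool.Agent.P.MP_8be758_nt.Av3

open Finset Real Filter Topology
open Pool.Agent.P.MP_e86632_nt (ee)
open Pool.Agent.P.MP_8be758_nt.Avg Pool.Agent.P.MP_8be758_nt.Av2

theorem dgi_ind {κ y1 y2 : ℝ} (hκ : 0 < κ) (hy : y1 ≤ y2) (a : ℕ) :
    IB y1 y2 (fun y => if a ∈ Iw κ y then 1 else 0) (Real.exp π * κ) := by
  refine ⟨fun y => Real.exp π * gw κ y a, by fun_prop, fun y _ _ => ?_, ?_⟩
  · dsimp only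
    split_ifs with h
    · have h1 : gs 1 ≤ gw κ y a := gs_anti (by
        rw [abs_div, abs_of_pos hκ, abs_one, div_le_one hκ, abs_sub_comm]
        exact Iw_log h)
      calc (1 : ℝ) = Real.exp π * gs 1 := by rw [gs, ← Real.exp_add]; simp
        _ ≤ _ := mul_le_mul_of_nonneg_left h1 (Real.exp_pos _).le
    · exact (mul_pos (Real.exp_pos _) (gw_pos _ _ _)).le
  · rw [intervalIntegral.integral_const_mul, intervalIntegral.integral_of_le hy]
    refine mul_le_mul_of_nonneg_left (le_trans ?_ (integral_gw hκ a).le) (Real.exp_pos _).le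
    exact MeasureTheory.setIntegral_le_integral (integrable_gw hκ a)
      (Eventually.of_forall fun y => (gw_pos _ _ _).le)

theorem t_DGI (hDG0 : S_DG0) : S_DGI := by
  obtain ⟨C, hC, h⟩ := hDG0
  refine ⟨C * Real.exp π, by positivity, fun A B K τ κ y1 y2 n0 hA hB hK hKA hκ hy hyA ht h0 => ?_⟩
  have h1 := h A B K τ n0 (Icc 1 ⌊A⌋₊) hA hB hK hKA
    (fun a ha => ⟨(mem_Icc.1 ha).1, (Nat.le_floor_iff hA.le).1 (mem_Icc.1 ha).2⟩) ht h0
  have h2 := ib_sum (Icc 1 n0) fun b _ => ib_sum (KR n0) fun k _ =>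
    (ib_sum (range n0) fun n _ => ib_sum (Icc 1 ⌊A⌋₊) fun a _ => (dgi_ind hκ hy a).smul
      (c := if FF k n = a * b then (1 : ℝ) ^ 2 else 0) (by positivity)).smul
      (cw_pos B K b (4 * k - 1)).le
  refine h2.mono (fun y _ hy2 => ?_) ?_
  · have h3 : Iw κ y ⊆ Icc 1 ⌊A⌋₊ := fun a ha => mem_Icc.2 ⟨Iw_pos ha, Nat.le_floor
      ((mem_Iw.1 ha).2.trans ((Real.exp_le_exp.2 (by linarith)).trans hyA))⟩
    refine sum_le_sum fun b _ => sum_le_sum fun k _ => mul_le_mul_of_nonneg_left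
      (sum_le_sum fun n _ => ?_) (cw_pos _ _ _ _).le
    refine le_trans (sum_le_sum fun a ha => ?_)
      (sum_le_sum_of_subset_of_nonneg h3 fun a _ _ => by positivity)
    rw [if_pos ha, mul_one]
  · calc _ = dg (cw B K) (fun _ => 1) (Icc 1 ⌊A⌋₊) n0 * (Real.exp π * κ) := by
          simp only [dg, sum_mul, mul_assoc]
      _ ≤ C * τ * √(A * B) * K * (Real.exp π * κ) := by gcongr
      _ = _ := by ring

end Pool.Agent.P.MP_8be758_nt.Av3
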