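import Pool.Agent.P.MP_8be758_nt.Av3.BasB

/-! The step `S_E4`. -/

namespace Pool.Agent.P.MP_8be758_nt.Av3

open Finset Real Filter Topology
open Pool.Agent.P.MP_e86632_nt (ee)
open Pool.Agent.P.MP_8be758_nt.Avg Pool.Agent.P.MP_8be758_nt.Av2

lemma e4_num {K N M Z C A B η g cS cJ sβ sω W r : ℝ} (hK : 0 ≤ K) (hMN : M ≤ N) (hZ : 16 ≤ Z)
    (hM : 170 * Z ^ 9 ≤ M) (hC : 0 ≤ C) (hCZ : C ≤ Z) (hW : 0 ≤ W) (hWZ : W ≤ Z)
    (hη : 1 / N ≤ η) (hκ : η * Z ≤ 1 / M) (hg : 0 ≤ g) (hg' : N ^ 3 * g ≤ 1) (hB : 1 ≤ B)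
    (hBN : B ≤ N) (hA : 0 ≤ A) (hAB : A * B ≤ 6 / 5 * N ^ 2) (hS : cS ≤ 4 * B) (hJ0 : 0 ≤ cJ)
    (hJ : cJ ≤ 2 * N ^ 2 / B) (hβ : sβ ≤ cS) (hω0 : 0 ≤ sω)
    (hω : sω ≤ 9 * (η * Z) * A + 2 + cJ * (2 * g)) (hr : r ≤ 2 * N) :
    η * K * r / Z ^ 9 / η + K * (cS * (cJ * (g * (1 + W)))) / η +
      (C * (K / N) * sβ * sω + 1 * (K * (N / M))) ≤ K * N / Z ^ 8 := by
  have hN : 1 ≤ N := hB.trans hBN
  have hZ0 : 0 < Z := by linarith
  have hM0 : 0 < M := lt_of_lt_of_le (by positivity) hM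
  have hη0 : 0 < η := lt_of_lt_of_le (by positivity) hη
  have hq : 1 ≤ N / M := (one_le_div hM0).2 hMN
  have hBJ : B * cJ ≤ 2 * N ^ 2 := by rwa [le_div_iff₀ (by linarith), mul_comm] at hJ
  have hNg : N * g ≤ 1 := le_trans (mul_le_mul_of_nonneg_right
    (le_self_pow₀ hN (by norm_num)) hg) hg'
  have p1 : η * K * r / Z ^ 9 / η ≤ K * N / Z ^ 8 / 2 := by
    rw [show η * K * r / Z ^ 9 / η = K * r / Z / Z ^ 8 by field_simp, div_right_comm (K * N)]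
    refine div_le_div_of_nonneg_right ?_ (by positivity)
    rw [div_le_div_iff₀ hZ0 two_pos]
    nlinarith [mul_le_mul_of_nonneg_left hr hK,
      mul_le_mul_of_nonneg_left hZ (show 0 ≤ K * N by positivity)]
  have p2 : K * (cS * (cJ * (g * (1 + W)))) / η ≤ 16 * (K * Z * (N / M)) := by
    have a1 : cS * (cJ * (g * (1 + W))) ≤ 8 * N ^ 2 * (g * (2 * Z)) := by
      rw [← mul_assoc]
      exact mul_le_mul (by nlinarith [mul_le_mul_of_nonneg_right hS hJ0])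
        (mul_le_mul_of_nonneg_left (by linarith) hg) (by positivity) (by positivity)
    have a2 : 1 / η ≤ N := by rwa [div_le_comm₀ hη0 (by linarith)]
    calc K * (cS * (cJ * (g * (1 + W)))) / η = K * (cS * (cJ * (g * (1 + W)))) * (1 / η) := by ring
      _ ≤ K * (8 * N ^ 2 * (g * (2 * Z))) * N :=
          mul_le_mul (mul_le_mul_of_nonneg_left a1 hK) a2 (by positivity) (by positivity)
      _ = 16 * (K * Z * (N ^ 3 * g)) := by ring
      _ ≤ _ := by gcongr; exact hg'.trans hq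
  have p3 : C * (K / N) * sβ * sω ≤ 68 * (K * Z * (N / M)) := by
    have a1 : η * Z * (A * B) ≤ 1 / M * (6 / 5 * N ^ 2) :=
      mul_le_mul hκ hAB (by positivity) (by positivity)
    have a2 : B * cJ * g ≤ 2 * N ^ 2 * g := mul_le_mul_of_nonneg_right hBJ hg
    have a3 : N * (N * g) ≤ N * (N / M) := mul_le_mul_of_nonneg_left (hNg.trans hq) (by linarith)
    have a4 : N * 1 ≤ N * (N / M) := mul_le_mul_of_nonneg_left hq (by linarith)
    have a5 : 1 / M * (6 / 5 * N ^ 2) = 6 / 5 * (N * (N / M)) := by ring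
    have a6 : sβ * sω ≤ 68 * (N * (N / M)) := by
      refine (mul_le_mul (hβ.trans hS) hω hω0 (by linarith)).trans ?_
      nlinarith
    calc C * (K / N) * sβ * sω = C * (K / N) * (sβ * sω) := by ring
      _ ≤ Z * (K / N) * (68 * (N * (N / M))) :=
          (mul_le_mul_of_nonneg_left a6 (by positivity)).trans
            (mul_le_mul_of_nonneg_right (by gcongr) (by positivity))
      _ = _ := by field_simp
  have p4 : K * (N / M) ≤ K * Z * (N / M) := by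
    gcongr; exact le_mul_of_one_le_right hK (by linarith)
  have p5 : 170 * (K * Z * (N / M)) ≤ K * N / Z ^ 8 := by
    rw [le_div_iff₀ (by positivity), show 170 * (K * Z * (N / M)) * Z ^ 8 =
      K * N * (170 * Z ^ 9 / M) by ring]
    exact mul_le_of_le_one_right (by positivity) ((div_le_one hM0).2 hM)
  linarith

lemma e4_sub {N B κ y : ℝ} {A1 A2 : ℕ} (hB : 0 < B) (h1 : 24 / 25 * N ^ 2 ≤ A1 * B)
    (h2 : A2 * B ≤ 6 / 5 * N ^ 2) (hA : (0 : ℝ) < A1) (hA' : (0 : ℝ) < A2) (k0 : 0 ≤ κ)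
    (k1 : κ ≤ 1 / 4) (y1 : Real.log A1 ≤ y) (y2 : y ≤ Real.log A2) : Iw κ y ⊆ AR N B := by
  intro a ha
  obtain ⟨a1, a2⟩ := mem_Iw.1 ha
  have hN := sq_nonneg N
  have e1 : (A1 : ℝ) ≤ Real.exp y := (Real.log_le_iff_le_exp hA).1 y1
  have e2 : Real.exp y ≤ A2 := (Real.le_log_iff_exp_le hA').1 y2
  have b1 : 3 / 4 * (A1 : ℝ) ≤ a := by
    rw [sub_eq_add_neg, Real.exp_add] at a1
    have := Real.add_one_le_exp (-κ)
    nlinarith [mul_le_mul e1 (show 3 / 4 ≤ Real.exp (-κ) by linarith) (by norm_num)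
      (Real.exp_pos y).le]
  have b2 : (a : ℝ) ≤ 11 / 8 * A2 := by
    rw [Real.exp_add] at a2
    have := exp_le_lin k0 k1
    nlinarith [mul_le_mul e2 (show Real.exp κ ≤ 11 / 8 by linarith) (Real.exp_pos κ).le hA'.le]
  refine (mem_AR (by positivity)).2 ⟨Iw_pos ha, ?_, ?_⟩
  · rw [div_le_iff₀ (by positivity)]
    nlinarith [mul_le_mul_of_nonneg_right b1 hB.le]
  · rw [le_div_iff₀ hB]
    nlinarith [mul_le_mul_of_nonneg_right b2 hB.le]

theorem t_E4 (hE40 : S_E40) (hWIN : S_WIN) (hUPWb : S_UPWb) (θ ζ : ℝ) (hP : Pm θ ζ)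
    (h1 : S_NUM1 θ ζ) (h2 : S_NUM2 θ ζ) : S_E4 θ ζ := by
  obtain ⟨C₁, -, hE⟩ := hE40
  obtain ⟨C, hC, hU⟩ := hUPWb
  intro W hW
  filter_upwards [h1, h2, hU W hW, ev_zq0 hP.z0 C₁, ev_zq0 hP.z0 C, ev_zq0 hP.z0 W,
    ev_zq_gs hP.z0 3 one_pos, eventually_ge_atTop 1,
    ev_zq_pow ζ 170 9 (a := 0) (b := 1 / 50) (by push_cast; linarith [hP.z1])]
    with N h1 h2 hU c1 c2 c3 c4 hN c5 K A1 A2 U V B S β f g t4 b1 ab1 a12 ab2 fg uv u1 v1 cv1 mj
  have hN0 : 0 < N := by linarith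
  have hB1 : 1 ≤ B := (Real.one_le_rpow hN (by norm_num)).trans t4.b1
  have hB : 0 < B := by linarith
  have a12' : (A1 : ℝ) ≤ A2 := by exact_mod_cast a12
  have ab3 : A1 * B ≤ 6 / 5 * N ^ 2 := (mul_le_mul_of_nonneg_right a12' hB.le).trans ab2
  have hA : (0 : ℝ) < A1 := (mul_pos_iff_of_pos_right hB).1 (lt_of_lt_of_le (by positivity) ab1)
  have hA' : (0 : ℝ) < A2 := hA.trans_le a12'
  have a54 : (A2 : ℝ) ≤ 5 / 4 * A1 := le_of_mul_le_mul_right (by linarith) hB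
  obtain ⟨hq, k1, k2⟩ := h1 K A1 B t4.lo t4.hi
    ((Real.rpow_le_rpow_of_exponent_le hN (by linarith [hP.t1])).trans b1) t4.b2 ab1 ab3
  have num := h2 A1 B K U V t4.lo b1 t4.b2 ab1 ab3 (by exact_mod_cast fg.u1)
    (by exact_mod_cast fg.v1) uv u1 v1
  rw [Real.rpow_zero, mul_one] at c5
  rw [one_mul] at c4
  set Z := Zq ζ N
  set η := et A1 B Z
  have hZ := hq.z
  have hη : 0 < η := lt_of_lt_of_le (by positivity) k2
  have r1 : √(A1 * B) ≤ 2 * N := Real.sqrt_le_iff.2 ⟨by positivity, by nlinarith⟩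
  have r2 : N / 2 ≤ √(A1 * B) := Real.le_sqrt_of_sq_le (by nlinarith)
  have hK : (0 : ℝ) < K := by exact_mod_cast hq.k1
  have hM : N ^ (1 / 50 : ℝ) ≤ N := by
    simpa using Real.rpow_le_rpow_of_exponent_le hN (show (1 / 50 : ℝ) ≤ 1 by norm_num)
  have k3 : η * Z ≤ 1 / N ^ (1 / 50 : ℝ) := k1.trans (one_div_le_one_div_of_le (by positivity)
    (Real.rpow_le_rpow_of_exponent_le hN (by norm_num)))
  have k4 : η * Z ≤ 1 / 4 := k3.trans (one_div_le_one_div_of_le (by norm_num) (by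
    nlinarith [one_le_pow₀ (show 1 ≤ Z by linarith) (n := 9)]))
  have ib := hE A1 B Z (Real.log A2) K W U V S β f g hq c1 (Real.log_le_log hA a12')
    (by rwa [Real.exp_log hA']) hW c3 t4.s t4.c fg uv cv1 (mj.mono le_rfl le_rfl
      (by rw [pow_succ Z 40, mul_assoc]; gcongr; nlinarith)
      (by rw [pow_succ' Z 100, ← div_div]; gcongr; exact le_trans (by gcongr; linarith) r2)) num
  obtain ⟨ω, w1, w2, w3⟩ := hWIN K W A1 A2 S (AR N B) β (cv f g) η (η * Z) _ hη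
    (le_mul_of_one_le_right hη.le (by linarith)) (by linarith)
    (by have : 0 < √(A1 * B) := by linarith
        positivity) (by exact_mod_cast hA) a12
    (by exact_mod_cast (show (A2 : ℝ) ≤ 2 * A1 by linarith)) t4.c cv1
    (fun a ha => ((mem_AR (by positivity)).1 ha).1) (ioc_sub_AR hB ab1 ab2)
    (fun y y1 y2 => e4_sub hB ab1 ab2 hA hA' (by positivity) k4 y1 y2) ib
  have up := hU K B 1 S (AR N B) β ω (t4.k7 hP hN) (t4.b13 hN) ((t4.bN hN).trans (by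
    simpa using Real.rpow_le_rpow_of_exponent_le hN (show (1 : ℝ) ≤ 27 / 20 by norm_num)))
    (fun b hb => ⟨(t4.s b hb).1, (t4.s b hb).2.1⟩) subset_rfl t4.c zero_le_one (fun a _ => w1 a)
  rw [mul_div_cancel_left₀ Z hη.ne'] at w2 w3
  rw [show (49 / 50 : ℝ) = 1 - 1 / 50 by norm_num, Real.rpow_sub hN0, Real.rpow_one] at up
  refine w3.trans ((add_le_add_right up _).trans (e4_num hK.le hM hZ c5 hC.le c2
    (Nat.cast_nonneg W) c3 k2 k3 (gs_pos _).le c4 hB1 (t4.bN hN) hA.le ab3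
    (up_card hB1 fun b hb => ⟨(t4.s b hb).1, by linarith [(t4.s b hb).2.1]⟩) (Nat.cast_nonneg _)
    (card_AR (by positivity)) ?_ (sum_nonneg fun _ _ => abs_nonneg _) w2 r1))
  simpa using sum_le_card_nsmul S _ 1 fun b _ => t4.c b

end Pool.Agent.P.MP_8be758_nt.Av3
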