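import Pool.Agent.P.MP_8be758_nt.Av3.BasB

/-! The step `S_E40`. -/

namespace Pool.Agent.P.MP_8be758_nt.Av3

open Finset Real Filter Topology
open Pool.Agent.P.MP_e86632_nt (ee)
open Pool.Agent.P.MP_8be758_nt.Avg Pool.Agent.P.MP_8be758_nt.Av2

theorem e40_num {A B Z y : ℝ} {K : ℕ} (h : Hq A B Z K) (h1 : A ≤ Real.exp y)
    (h2 : Real.exp y ≤ 5 / 4 * A) :
    Real.exp (y + et A B Z * Z) ≤ 2 * A ∧
      Real.exp (y + et A B Z * Z) + 1 ≤ Real.exp (y - et A B Z * Z) + Z ^ 40 * √(A * B) ∧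
      A / 4 ≤ Real.exp (y - et A B Z * Z) := by
  have hk0 : 0 < et A B Z * Z := mul_pos h.et0 h.z0
  have hk1 := h.kap1
  have hA := h.a0
  have he := h.eta
  set κ := et A B Z * Z with hκ
  have e1 : Real.exp κ ≤ 1 + 3 / 2 * κ := exp_le_lin hk0.le (by linarith)
  have e2 : 1 - κ ≤ Real.exp (-κ) := by linarith [Real.add_one_le_exp (-κ)]
  have p1 : Real.exp (y + κ) ≤ Real.exp y * (1 + 3 / 2 * κ) := by
    rw [Real.exp_add]; gcongr
  have p2 : Real.exp y * (1 - κ) ≤ Real.exp (y - κ) := by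
    rw [sub_eq_add_neg y, Real.exp_add]; gcongr
  have hs : 1 ≤ √(A * B) := h.kr.trans h.ks
  have q1 : κ * A = Z ^ 31 * √(A * B) := by
    rw [hκ, mul_right_comm, he]; ring
  have q2 : Real.exp y * κ ≤ 5 / 4 * (Z ^ 31 * √(A * B)) := by
    rw [← q1]; nlinarith
  have q3 : 16 * Z ^ 31 ≤ Z ^ 40 :=
    calc 16 * Z ^ 31 ≤ Z * Z ^ 31 := mul_le_mul_of_nonneg_right h.z (pow_nonneg h.z0.le _)
      _ = Z ^ 32 := by ring
      _ ≤ _ := h.pw (by norm_num)
  have q4 : 1 ≤ Z ^ 31 * √(A * B) := one_le_mul_of_one_le_of_one_le (h.one _) hs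
  have q5 : 16 * (Z ^ 31 * √(A * B)) ≤ Z ^ 40 * √(A * B) := by
    rw [← mul_assoc]; gcongr
  refine ⟨by nlinarith, by nlinarith, by nlinarith⟩

theorem e40_len {A y : ℝ} (hA : 0 < A) (h2 : Real.exp y ≤ 5 / 4 * A) : y ≤ Real.log A + 1 := by
  rw [← Real.exp_le_exp, Real.exp_add, Real.exp_log hA]
  have := Real.add_one_le_exp 1
  nlinarith

theorem e40_fin {t T Q K B Z c s : ℝ} (hK : 0 ≤ K) (hZ : 0 ≤ Z) (hQ : 0 ≤ Q)
    (h1 : T ^ 2 ≤ K * c * (Z * Q)) (h2 : c ≤ 2 * B) (h3 : t ≤ (T + s / 2) ^ 2) :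
    t ≤ 4 * K * B * Z * Q + s ^ 2 / 2 := by
  have h5 : T ^ 2 ≤ K * (2 * B) * (Z * Q) := h1.trans (by gcongr)
  nlinarith [sq_nonneg (T - s / 2)]

theorem t_E40 (hQI : S_QI) (hMNT : S_MNT) : S_E40 := by
  obtain ⟨C, hC, hQI⟩ := hQI
  refine ⟨C, hC, fun A B Z y2 K W U V S β f g h hCZ hy1 hy2 hW hWZ hS hβ hFG hUV hcv hM hN => ?_⟩
  have hQ := hQI A B Z y2 K U V S f g h hCZ hy1 hy2
    (fun b hb => ⟨(hS b hb).1, (hS b hb).2.1, (hS b hb).2.2.2⟩) hFG hUV hcv hM hN
  have hA := h.a0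
  have hB := h.b0
  have hZ := h.z0
  have hK : (0 : ℝ) ≤ K := Nat.cast_nonneg K
  have hsq : 0 < √(A * B) := Real.sqrt_pos.2 (mul_pos hA hB)
  have hb : ∀ b ∈ S, 1 ≤ b := fun b hb => by exact_mod_cast h.b1.trans (hS b hb).1
  have hcard : (S.card : ℝ) ≤ 2 * B := by
    have h1 : S ⊆ Icc 1 ⌊2 * B⌋₊ := fun b h =>
      mem_Icc.2 ⟨hb b h, Nat.le_floor (hS b h).2.1⟩
    have h2 := card_le_card h1
    rw [Nat.card_Icc, Nat.add_sub_cancel] at h2
    exact le_trans (by exact_mod_cast h2) (Nat.floor_le (by positivity))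
  set s := et A B Z * K * √(A * B) / Z ^ 9 with hs
  have hs' : s = K * B * Z ^ 21 := by
    rw [hs, mul_right_comm, h.ets]; field_simp
  have hI := (hQ.smul (c := 4 * K * B * Z) (by positivity)).add
    (ib_const (c := s ^ 2 / 2) (e40_len hA hy2) (by positivity))
  refine hI.mono (fun y y1 y3 => ?_) ?_
  · have a1 : A ≤ Real.exp y := by
      rw [← Real.exp_log hA]; exact Real.exp_le_exp.2 y1
    have a2 : Real.exp y ≤ 5 / 4 * A := (Real.exp_le_exp.2 y3).trans hy2
    obtain ⟨n1, n2, n3⟩ := e40_num h a1 a2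
    set I := Iw (et A B Z * Z) y with hI
    set d := wd (et A B Z) y (cv f g) with hd
    have hcs := bx_cs (Icc 1 K) S (fun k b => ∑ a ∈ I, d a * rr k (a * b))
      (fun k b => Z * Qf d I ⌈3 * A⌉₊ b k) fun k hk b hb' => by
        obtain ⟨b1, b2, b3, b4⟩ := hS b hb'
        obtain ⟨q1, q2⟩ := lib_D1 d I ⌈3 * A⌉₊ b (hb b hb')
        have hBA := h.ba
        have q3 := q2 k (mem_Icc.1 hk).1 fun a ha => by
          have h1 := (mem_Iw.1 ha).2.trans n1
          have h2 := Nat.le_ceil (3 * A)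
          have h3 : (a : ℝ) * b ≤ (⌈3 * A⌉₊ : ℝ) ^ 2 :=
            calc (a : ℝ) * b ≤ 3 * A * (3 * A) := by
                  gcongr <;> linarith
              _ ≤ _ := by rw [sq]; gcongr
          exact_mod_cast h3
        have q4 : (rho k b : ℝ) ≤ b.divisors.card := by
          exact_mod_cast (lib_ROOT.2.2.2.1 k b (mem_Icc.1 hk).1 b4 b3).2
        have q5 : (b : ℝ) ≤ A ^ 6 := by
          have r1 : 2 ≤ A := by
            have := h.za
            have := h.pw (show 1 ≤ 200 by norm_num)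
            have := h.z
            rw [pow_one] at *
            linarith
          calc (b : ℝ) ≤ A * A := b2.trans (by gcongr)
            _ = A ^ 2 := by ring
            _ ≤ _ := pow_le_pow_right₀ h.a1 (by norm_num)
        exact q3.trans (mul_le_mul_of_nonneg_right (q4.trans (h.t b q5)) (q1 k))
    simp only [← mul_sum] at hcs
    rw [Nat.card_Icc, Nat.add_sub_cancel] at hcs
    have hU : 0 ≤ ∑ k ∈ Icc 1 K, ∑ b ∈ S, Qf d I ⌈3 * A⌉₊ b k :=
      sum_nonneg fun (k : ℕ) _ => sum_nonneg fun b h => (lib_D1 _ _ _ b (hb b h)).1 k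
    have hm := (hMNT (cv f g) _ _ _ _ (et A B Z) (et A B Z * Z) y hM hcv (by positivity) n1 n2).2
    have h2 : ∑ k ∈ Icc 1 K, ∑ b ∈ S, |∑ a ∈ I, d a * md W k (a * b)| ≤ s / 2 := by
      calc _ ≤ ∑ k ∈ Icc 1 K, ∑ b ∈ S, (1 : ℝ) := sum_le_sum fun k _ => sum_le_sum fun b hb' => by
            refine (hm W k b hW (hWZ.trans ((pow_one Z).ge.trans (h.pw (by norm_num))))
              (hb b hb')).trans ?_
            have r1 : √(A * B) / 2 ≤ √(Real.exp (y - et A B Z * Z) * b) := by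
              refine Real.le_sqrt_of_sq_le ?_
              rw [div_pow, Real.sq_sqrt (by positivity)]
              calc A * B / 2 ^ 2 = A / 4 * B := by ring
                _ ≤ _ := by
                  gcongr
                  exact (hS b hb').1
            have r2 : 2 * Z ^ 2 ≤ Z ^ 100 :=
              calc 2 * Z ^ 2 ≤ Z * Z ^ 2 := by
                    gcongr
                    linarith [h.z]
                _ = Z ^ 3 := by ring
                _ ≤ _ := h.pw (by norm_num)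
            calc _ ≤ Z ^ 2 * (√(A * B) / Z ^ 100) / (√(A * B) / 2) := by gcongr
              _ = 2 * Z ^ 2 / Z ^ 100 := by field_simp
              _ ≤ 1 := (div_le_one (by positivity)).2 r2
        _ = K * S.card := by simp
        _ ≤ K * (2 * B) := by gcongr
        _ = K * B * 4 / 2 := by ring
        _ ≤ _ := by
          rw [hs']
          gcongr
          have := h.pw (show 1 ≤ 21 by norm_num)
          have := h.z
          rw [pow_one] at *
          linarith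
    have h3 : tb K W S β I d ≤ ∑ k ∈ Icc 1 K, ∑ b ∈ S, |∑ a ∈ I, d a * rr k (a * b)| + s / 2 := by
      refine (sum_le_sum fun k _ => cell0_split W k I S d β hβ).trans ?_
      rw [sum_add_distrib]
      gcongr
    have h4 := pow_le_pow_left₀ (tb_nonneg K W S β I d) h3 2
    exact e40_fin hK hZ.le hU hcs hcard h4
  · have e : 4 * K * B * Z * (K * et A B Z ^ 2 * A / Z ^ 20) = 4 / Z * s ^ 2 := by
      rw [hs, div_pow, mul_pow, mul_pow, Real.sq_sqrt (by positivity)]
      field_simp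
    have e2 : 4 / Z ≤ 1 / 2 := by
      rw [div_le_iff₀ hZ]; linarith [h.z]
    rw [e]
    nlinarith [sq_nonneg s]

end Pool.Agent.P.MP_8be758_nt.Av3
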