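import Pool.Agent.P.MP_8be758_nt.Av3.BasB

/-! The step `S_EB`. -/

namespace Pool.Agent.P.MP_8be758_nt.Av3

open Finset Real Filter Topology
open Pool.Agent.P.MP_e86632_nt (ee)
open Pool.Agent.P.MP_8be758_nt.Avg Pool.Agent.P.MP_8be758_nt.Av2
open MeasureTheory

theorem eb_pt {x y z : ℝ} (hx : 0 ≤ x) (hz : 0 ≤ z) : x * y * z ≤ x ^ 8 + y ^ 2 + z ^ 3 + 1 := by
  have h1 : x ^ 6 ≤ 1 + x ^ 8 := by
    rcases le_total x 1 with h | h
    · have := pow_le_one₀ hx h (n := 6)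
      have : 0 ≤ x ^ 8 := by positivity
      linarith
    · have := pow_le_pow_right₀ h (show 6 ≤ 8 by norm_num)
      linarith
  have h2 : x ^ 2 * z ^ 2 ≤ z ^ 3 + x ^ 6 := by
    rcases le_total (x ^ 2) z with h | h
    · have : x ^ 2 * z ^ 2 ≤ z * z ^ 2 := by gcongr
      have : 0 ≤ x ^ 6 := by positivity
      nlinarith
    · have : x ^ 2 * z ^ 2 ≤ x ^ 2 * (x ^ 2) ^ 2 := by gcongr
      have : 0 ≤ z ^ 3 := by positivity
      nlinarith
  have h3 : 0 ≤ x ^ 2 * z ^ 2 := by positivity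
  nlinarith [sq_nonneg (y - x * z / 2)]

theorem eb_root {P : ℝ} (h : 0 < P) {n : ℕ} (hn : n ≠ 0) : ∃ p, 0 < p ∧ p ^ n = P :=
  ⟨P ^ (n : ℝ)⁻¹, Real.rpow_pos_of_pos h _, Real.rpow_inv_natCast_pow h.le hn⟩

theorem t_EB : S_EB := by
  intro a b c T P8 P4 P6 G ha hb hc hT h8 h4 h6 hG i8 i4 i6 hle
  obtain ⟨p, hp, rfl⟩ := eb_root h8 (n := 8) (by norm_num)
  obtain ⟨m, hm, rfl⟩ := eb_root h4 (n := 2) (by norm_num)
  obtain ⟨r, hr, rfl⟩ := eb_root h6 (n := 3) (by norm_num)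
  have hg : p * m * r ≤ G := by
    refine le_of_pow_le_pow_left₀ (n := 24) (by norm_num) hG.le (le_of_eq_of_le ?_ hle)
    ring
  have j8 := (ha.pow 8).integrable hT
  have j4 := (hb.pow 4).integrable hT
  have j6 := (hc.pow 6).integrable hT
  have j0 := integrable_WT hT
  have k1 : Integrable fun t => WT T t * a t ^ 8 / p ^ 8 + WT T t * b t ^ 4 / m ^ 2 :=
    (j8.div_const (p ^ 8)).add (j4.div_const (m ^ 2))
  have k2 : Integrable fun t => WT T t * a t ^ 8 / p ^ 8 + WT T t * b t ^ 4 / m ^ 2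
      + WT T t * c t ^ 6 / r ^ 3 := k1.add (j6.div_const (r ^ 3))
  have key : ∫ t : ℝ, WT T t * a t * (b t ^ 2 * c t ^ 2) ≤ ∫ t : ℝ, p * m * r *
      (WT T t * a t ^ 8 / p ^ 8 + WT T t * b t ^ 4 / m ^ 2 + WT T t * c t ^ 6 / r ^ 3
        + WT T t) := by
    refine integral_mono ?_ ((k2.add j0).const_mul _) fun t => ?_
    · simpa only [mul_assoc] using (ha.mul ((hb.pow 2).mul (hc.pow 2))).integrable hT
    · have h := eb_pt (x := a t / p) (y := b t ^ 2 / m) (z := c t ^ 2 / r)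
        (div_nonneg (ha.2.1 t) hp.le) (by positivity)
      have := mul_le_mul_of_nonneg_left h (show 0 ≤ p * m * r * WT T t by
        have := WT_pos T t
        positivity)
      refine le_of_eq_of_le ?_ (this.trans_eq ?_)
      · field_simp
      · field_simp
  rw [integral_const_mul, integral_add k2 j0, integral_add k1 (j6.div_const _),
    integral_add (j8.div_const _) (j4.div_const _), integral_div, integral_div, integral_div,
    integral_WT hT] at key
  have b8 : (∫ t : ℝ, WT T t * a t ^ 8) / p ^ 8 ≤ T := by rwa [div_le_iff₀' h8]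
  have b4 : (∫ t : ℝ, WT T t * b t ^ 4) / m ^ 2 ≤ T := by rwa [div_le_iff₀' h4]
  have b6 : (∫ t : ℝ, WT T t * c t ^ 6) / r ^ 3 ≤ T := by rwa [div_le_iff₀' h6]
  have b0 : π * T ≤ 4 * T := mul_le_mul_of_nonneg_right Real.pi_le_four hT.le
  refine key.trans ?_
  calc _ ≤ p * m * r * (7 * T) := mul_le_mul_of_nonneg_left (by linarith) (by positivity)
    _ ≤ G * (7 * T) := by gcongr
    _ = 7 * G * T := by ring

end Pool.Agent.P.MP_8be758_nt.Av3
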