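import Pool.Agent.P.MP_8be758_nt.Av3.Basic

/-! The step `S_EDGb`. -/

namespace Pool.Agent.P.MP_8be758_nt.Av3

open Finset Real Filter Topology
open Pool.Agent.P.MP_e86632_nt (ee)
open Pool.Agent.P.MP_8be758_nt.Avg Pool.Agent.P.MP_8be758_nt.Av2

theorem t_EDGb : S_EDGb := by
  obtain ⟨C, hC, hRC⟩ := lib_RC
  refine ⟨3 * C ^ 2, by positivity, fun e1 e0 e30 => ?_⟩
  filter_upwards [ev_const 2 e0, eventually_gt_atTop 1] with N hz hN B A1 A2 U1 U2 V1 V2 hB hA1 hA2
    hU hV h12
  have N0 : 0 < N := by linarith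
  have hw : (N ^ e1) ^ 5 ≤ N ^ (1 / 6 : ℝ) := by
    rw [← rpow_natCast, ← rpow_mul N0.le]
    exact rpow_le_rpow_of_exponent_le hN.le (by push_cast; linarith)
  have w0 : 0 < N ^ (1 / 6 : ℝ) := by positivity
  rw [← log_rpow N0]
  generalize N ^ e1 = z at *
  generalize N ^ (1 / 6 : ℝ) = w at *
  have hL : 0 < log z := log_pos (by linarith)
  have cT : ∀ x, 0 ≤ x → ((edg_T z w x).card : ℝ) ≤ C * x / log z := fun x hx => by
    have k : ∀ m ∈ edg_T z w x, w ≤ m ∧ (m : ℝ) ≤ x ∧ Rough z m := fun m hm => by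
      obtain ⟨k1, k2⟩ := mem_filter.1 hm
      exact ⟨k2.1, (Nat.le_floor_iff hx).1 (mem_Icc.1 k1).2, k2.2⟩
    rcases (edg_T z w x).eq_empty_or_nonempty with h | ⟨m, hm⟩
    · rw [h, card_empty, Nat.cast_zero]
      positivity
    · exact hRC z 0 x _ hz (hw.trans ((k m hm).1.trans (k m hm).2.1)) fun n hn =>
        ⟨w0.trans_le (k n hn).1, by simpa using (k n hn).2.1, (k n hn).2.2⟩
  have B0 : 0 < B := by linarith
  have U0 : (0 : ℝ) < U1 := by linarith
  have V0 : (0 : ℝ) < V1 := by linarith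
  have V0' : (0 : ℝ) < V2 := V0.trans_le (by exact_mod_cast h12)
  have l0 : 0 < loB N B U1 V2 := U0.trans_le (le_max_left _ _)
  rw [lamB, mul_max_of_nonneg _ _ l0.le, mul_one, mul_div_cancel₀ _ l0.ne']
  set T := edg_T z w (6 / 5 * N ^ 2 / (B * V2)) ×ˢ edg_T z w V2 ∪
    edg_T z w (6 / 5 * N ^ 2 / (B * V1)) ×ˢ edg_T z w (5 / 4 * V1) with hT
  refine (sum_le_sum (g := fun a => ((T.filter fun p => p.1 * p.2 = a).card : ℝ))
    fun a ha => ?_).trans ?_
  · obtain ⟨a1, a2⟩ := mem_Ioc.1 ha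
    have a3 : 24 / 25 * N ^ 2 < a * B :=
      hA1.trans_lt (mul_lt_mul_of_pos_right (by exact_mod_cast a1) B0)
    have a4 : a * B ≤ 6 / 5 * N ^ 2 :=
      (mul_le_mul_of_nonneg_right (by exact_mod_cast a2) B0.le).trans hA2
    refine edg_pt (fun u v e k1 k2 => ?_) fun u v e r1 r2 ⟨⟨k1, k2⟩, k3, k4⟩ k5 => ?_
    · obtain ⟨k3, k4⟩ := le_min_iff.1 ((le_max_iff.1 k2).resolve_left (not_le.2 k1))
      obtain ⟨k5, k6⟩ := max_lt_iff.1 k1
      rw [le_div_iff₀ (by positivity)] at k4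
      rw [div_lt_iff₀ (by positivity)] at k6
      rw [← e, Nat.cast_mul] at a3 a4
      have u0 : (0 : ℝ) < u * B := mul_pos (U0.trans k5) B0
      refine ⟨⟨by exact_mod_cast k5, by exact_mod_cast k3⟩, ?_, ?_⟩
      · exact_mod_cast lt_of_mul_lt_mul_left (show u * B * V1 < u * B * v by linarith) u0.le
      · exact_mod_cast le_of_mul_le_mul_left (show u * B * v ≤ u * B * V2 by linarith) u0
    · rw [← e, Nat.cast_mul] at a4
      have k1' : (U1 : ℝ) < u := by exact_mod_cast k1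
      have k3' : (V1 : ℝ) < v := by exact_mod_cast k3
      have u0 : (0 : ℝ) < u * B := mul_pos (U0.trans k1') B0
      rcases k5 with k | k
      · exact mem_union_left _ (mem_product.2
          ⟨edg_mem hU k1 ((le_max_iff.1 k).resolve_left (not_le.2 k1')) r1,
            edg_mem hV k3 (by exact_mod_cast k4) r2⟩)
      · have k6 := (min_lt_iff.1 (max_lt_iff.1 k).2).resolve_left (not_lt.2 (by exact_mod_cast k2))
        rw [div_lt_iff₀ (by positivity)] at k6
        have k7 := mul_lt_mul_of_pos_left k3' u0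
        refine mem_union_right _ (mem_product.2 ⟨edg_mem hU k1 ?_ r1, edg_mem hV k3 ?_ r2⟩)
        · rw [le_div_iff₀ (by positivity)]
          linarith
        · exact le_of_mul_le_mul_left (show u * B * v ≤ u * B * (5 / 4 * V1) by linarith) u0
  · rw [← Nat.cast_sum, sum_card_fiberwise_eq_card_filter]
    refine (Nat.cast_le.2 ((card_filter_le _ _).trans (card_union_le _ _))).trans ?_
    rw [card_product, card_product]
    push_cast
    calc _ ≤ C * (6 / 5 * N ^ 2 / (B * V2)) / log z * (C * V2 / log z) +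
          C * (6 / 5 * N ^ 2 / (B * V1)) / log z * (C * (5 / 4 * V1) / log z) := by
          gcongr <;> exact cT _ (by positivity)
      _ = 27 / 10 * C ^ 2 * (N ^ 2 / B) / log z ^ 2 := by
          field_simp
          ring
      _ ≤ _ := by
          gcongr
          norm_num

end Pool.Agent.P.MP_8be758_nt.Av3
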