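import Pool.Agent.P.MP_8be758_nt.Av3.BasB

/-! The step `S_EE`. -/

namespace Pool.Agent.P.MP_8be758_nt.Av3

open Finset Real Filter Topology
open Pool.Agent.P.MP_e86632_nt (ee)
open Pool.Agent.P.MP_8be758_nt.Avg Pool.Agent.P.MP_8be758_nt.Av2

theorem ee_dp {U V n : ℕ} {f g : ℕ → ℝ} (h : FG U V f g) (hn : U * V ≤ n) (s : ℝ) :
    dp (Icc 1 n) (fun a => (cv f g a : ℂ)) s =
      dp (Icc 1 U) (fun a => (f a : ℂ)) s * dp (Icc 1 V) (fun a => (g a : ℂ)) s := by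
  have hU : U ≤ n := (Nat.le_mul_of_pos_right U h.v1).trans hn
  have hV : V ≤ n := (Nat.le_mul_of_pos_left V h.u1).trans hn
  have e1 : dp (Icc 1 U) (fun a => (f a : ℂ)) s = dp (Icc 1 n) (fun a => (f a : ℂ)) s :=
    sum_subset (Icc_subset_Icc_right hU) fun x hx hx' => by
      have : f x = 0 := by_contra fun c => hx' (mem_Icc.2 ⟨(mem_Icc.1 hx).1, h.fU x c⟩)
      simp [this]
  have e2 : dp (Icc 1 V) (fun a => (g a : ℂ)) s = dp (Icc 1 n) (fun a => (g a : ℂ)) s :=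
    sum_subset (Icc_subset_Icc_right hV) fun x hx hx' => by
      have : g x = 0 := by_contra fun c => hx' (mem_Icc.2 ⟨(mem_Icc.1 hx).1, h.gV x c⟩)
      simp [this]
  have e : Icc 1 n = Ioc 0 n := rfl
  rw [e1, e2, dp, dp, dp, sum_mul_sum, e, ← sum_product']
  have e3 : ∀ a ∈ Ioc 0 n, (cv f g a : ℂ) * ee (s * Real.log a) =
      ∑ p ∈ (Ioc 0 n ×ˢ Ioc 0 n).filter (fun p => p.1 * p.2 = a),
        (f p.1 : ℂ) * ee (s * Real.log p.1) * (g p.2 * ee (s * Real.log p.2)) := fun a ha => by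
    rw [← Nat.divisorsAntidiagonal_eq_prod_filter_of_le (mem_Ioc.1 ha).1.ne' (mem_Ioc.1 ha).2, cv]
    push_cast
    rw [sum_mul]
    refine sum_congr rfl fun p hp => ?_
    obtain ⟨rfl, h0⟩ := Nat.mem_divisorsAntidiagonal.1 hp
    rw [Nat.cast_mul, Real.log_mul (Nat.cast_ne_zero.2 (left_ne_zero_of_mul h0))
      (Nat.cast_ne_zero.2 (right_ne_zero_of_mul h0)), mul_add, Pool.Agent.P.MP_e86632_nt.ee_add]
    ring
  rw [sum_congr rfl e3, sum_fiberwise_eq_sum_filter]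
  refine sum_filter_of_ne fun p hp h0 => ?_
  simp only [mem_product, mem_Ioc] at hp ⊢
  refine ⟨Nat.mul_pos hp.1.1 hp.2.1, (Nat.mul_le_mul (h.fU _ fun c => h0 ?_)
    (h.gV _ fun c => h0 ?_)).trans hn⟩ <;> simp [c]

theorem ee_id (C τ U V T X1 X2 X3 : ℝ) :
    (C * τ ^ 8 * X3) ^ 3 * (4 * τ * U ^ 2 * X1 / T) ^ 12 * (4 * τ ^ 2 * V ^ 3 * X2) ^ 8 =
      C ^ 3 * 4 ^ 20 * τ ^ 52 * (U * V) ^ 24 * (X1 ^ 12 * X2 ^ 8 * X3 ^ 3) / T ^ 12 := by ring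

theorem t_EE (hM46 : S_M46) (hJ8 : S_J8) (hEB : S_EB) : S_EE := by
  obtain ⟨C, C0, hC⟩ := hJ8
  refine ⟨C ^ 3 * 4 ^ 44, by positivity, fun A T η τ Y x J L U V n c f g hA hT hη hL hLJ hc h hn
    hUV t1 t2 t3 hY hq => ?_⟩
  have u1 : (1 : ℝ) ≤ U := by exact_mod_cast h.u1
  have v1 : (1 : ℝ) ≤ V := by exact_mod_cast h.v1
  have l1 : (1 : ℝ) ≤ L := by exact_mod_cast hL
  have j1 : (1 : ℝ) ≤ J := by exact_mod_cast hL.trans hLJ
  have τ1 : 1 ≤ τ := by simpa using t2 1 (by exact_mod_cast one_le_pow₀ u1)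
  have Y0 : 0 < Y := lt_of_lt_of_le (by positivity) hY
  have s0 := Real.sqrt_pos.2 hT
  have s2 := Real.mul_self_sqrt hT.le
  have k := hEB (Jm J L c) _ _ T
    (C * τ ^ 8 * (J * (L : ℝ) ^ 3 + (J : ℝ) ^ 4 * (J + (L : ℝ) ^ 4) / T))
    (4 * τ * (U : ℝ) ^ 2 * (T + (U : ℝ) ^ 2) / T) (4 * τ ^ 2 * (V : ℝ) ^ 3 * (1 + (V : ℝ) ^ 3 / T))
    (η * A ^ 2 / (Y * √T)) (cb_Jm hLJ hc) (cb_dp (Icc 1 U) (fun a => (f a : ℂ)) x)
    (cb_dp (Icc 1 V) (fun a => (g a : ℂ)) x) hT (by positivity) (by positivity) (by positivity)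
    (by positivity) ((hC J L c T τ hL hLJ hT hc t1).trans_eq (by field_simp))
    (((hM46 U _ T τ x hT h.u1 fun u => by simpa using h.f1 u).1 t2).trans_eq (by field_simp))
    (((hM46 V _ T τ x hT h.v1 fun u => by simpa using h.g1 u).2 t3).trans_eq (by field_simp)) (by
      have q0 : 0 ≤ nq T U V J L := by unfold nq; positivity
      have e1 : (η * A ^ 2 / (Y * √T)) ^ 24 = (η * A) ^ 24 * A ^ 24 / (Y ^ 24 * T ^ 12) := by
        rw [div_pow, mul_pow Y, show √T ^ 24 = (√T * √T) ^ 12 by ring, s2]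
        ring
      have a1 : ((U : ℝ) * V) ^ 24 ≤ (4 * A) ^ 24 := by gcongr
      calc _ = C ^ 3 * 4 ^ 20 * τ ^ 52 * ((U : ℝ) * V) ^ 24 * nq T U V J L / T ^ 12 := 
            ee_id _ _ _ _ _ _ _ _
        _ ≤ C ^ 3 * 4 ^ 20 * τ ^ 52 * (4 * A) ^ 24 * nq T U V J L / T ^ 12 := by gcongr
        _ = C ^ 3 * 4 ^ 44 * τ ^ 52 * (A ^ 24 * nq T U V J L / T ^ 12) := by ring
        _ ≤ Y * (A ^ 24 * nq T U V J L / T ^ 12) := by gcongr
        _ = Y ^ 25 * nq T U V J L * A ^ 24 / (Y ^ 24 * T ^ 12) := by field_simp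
        _ ≤ _ := by rw [e1]; gcongr)
  simp only [ee_dp h hn, norm_mul, mul_pow]
  refine k.trans_eq ?_
  field_simp
  rw [Real.sq_sqrt hT.le]

end Pool.Agent.P.MP_8be758_nt.Av3
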