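import Pool.Agent.P.MP_8be758_nt.Av3.Basic

/-! The step `S_EXPb`. -/

namespace Pool.Agent.P.MP_8be758_nt.Av3

open Finset Real Filter Topology
open Pool.Agent.P.MP_e86632_nt (ee)
open Pool.Agent.P.MP_8be758_nt.Avg Pool.Agent.P.MP_8be758_nt.Av2

theorem t_EXPb : S_EXPb := by
  intro n l β hl h1 h2
  rw [or_iff_not_imp_left]
  intro hc
  push Not at hc
  obtain ⟨S0, hS0, hm⟩ := exists_max_image (univ.filter fun S : Finset (Fin n) => ∑ i ∈ S, l i ≤ β)
    (fun S => ∑ i ∈ S, l i) ⟨∅, by simpa using h1⟩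
  obtain ⟨S, hS, hk⟩ := exists_max_image
    (univ.filter fun S : Finset (Fin n) => ∑ i ∈ S, l i = ∑ i ∈ S0, l i) card ⟨S0, by simp⟩
  have e0 := (mem_filter.1 hS).2
  have s1 : ∑ i ∈ S, l i ≤ β := e0 ▸ (mem_filter.1 hS0).2
  have s2 : ∀ T : Finset (Fin n), ∑ i ∈ T, l i ≤ β → ∑ i ∈ T, l i ≤ ∑ i ∈ S, l i :=
    fun T hT => e0 ▸ hm T (mem_filter.2 ⟨mem_univ _, hT⟩)
  have s3 : ∀ i, l i ≤ ∑ i ∈ S, l i := fun i => by simpa using s2 {i} (by simpa using (hl i).2)
  have key : ∀ i ∈ Sᶜ, ∑ j, l j - 2 * ∑ j ∈ S, l j ≤ l i := fun i hi => by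
    have hi' := mem_compl.1 hi
    have e := sum_add_sum_compl (insert i S) l
    have := s2 _ (hc (insert i S) (not_le.1 fun h => ?_))
    · rw [sum_insert hi'] at e
      linarith
    · have h3 := hk (insert i S) (mem_filter.2 ⟨mem_univ _, le_antisymm (e0 ▸ s2 _ h) (by
        rw [sum_insert hi', e0]; linarith [(hl i).1])⟩)
      rw [card_insert_of_notMem hi'] at h3
      omega
  have eS := sum_add_sum_compl S l
  obtain ⟨i1, a1, a2⟩ := exists_min_image Sᶜ l (nonempty_iff_ne_empty.2 fun e => by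
    rw [e, sum_empty] at eS; linarith)
  have c1 := add_sum_erase _ l a1
  obtain ⟨i2, b1, b2⟩ := exists_min_image (Sᶜ.erase i1) l (nonempty_iff_ne_empty.2 fun e => by
    rw [e, sum_empty] at c1; linarith [(hl i1).2])
  have c2 := add_sum_erase _ l b1
  have b3 := mem_of_mem_erase b1
  refine ⟨S, i1, i2, (ne_of_mem_erase b1).symm, mem_compl.1 a1, mem_compl.1 b3, s1, key i1 a1,
    key i2 b3, ?_⟩
  rcases ((Sᶜ.erase i1).erase i2).eq_empty_or_nonempty with e | ⟨i3, d1⟩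
  · refine .inl ⟨?_, by rw [e, sum_empty] at c2; linarith [s3 i1, s3 i2]⟩
    ext j
    have := Finset.ext_iff.1 e j
    have u1 := mem_compl.1 a1
    have u2 := mem_compl.1 b3
    simp only [mem_erase, mem_compl, notMem_empty, mem_univ] at this ⊢
    grind
  · have d2 := mem_of_mem_erase d1
    have d3 := mem_of_mem_erase d2
    have := single_le_sum (fun j _ => (hl j).1) d1
    exact .inr ⟨by linarith [key i1 a1, key i2 b3, key i3 d3], by linarith [a2 i3 d3, b2 i3 d2]⟩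

end Pool.Agent.P.MP_8be758_nt.Av3
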