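import Pool.Agent.P.MP_8be758_nt.Av3.BasB
import Pool.Agent.P.MP_8be758_nt.Av2.FRZ

/-! The step `S_FZG`. -/

namespace Pool.Agent.P.MP_8be758_nt.Av3

open Finset Real Filter Topology
open Pool.Agent.P.MP_e86632_nt (ee)
open Pool.Agent.P.MP_8be758_nt.Avg Pool.Agent.P.MP_8be758_nt.Av2

theorem fzg_e0 (u v : ℝ) : exp (-u) - exp (-v) ≤ |v - u| * exp (-u) := by
  have h1 : exp (-u) * (1 - (v - u)) ≤ exp (-v) := by
    rw [show -v = -u + -(v - u) by ring, exp_add]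
    exact mul_le_mul_of_nonneg_left (by linarith [add_one_le_exp (-(v - u))]) (exp_pos _).le
  have h2 := mul_le_mul_of_nonneg_right (le_abs_self (v - u)) (exp_pos (-u)).le
  linarith

theorem fzg_exp {s s' ρ : ℝ} (h0 : 0 ≤ s) (r0 : 0 ≤ ρ) (r1 : ρ ≤ 1 / 5)
    (h1 : s ≤ (1 + ρ) * s') (h2 : s' ≤ (1 + ρ) * s) :
    |exp (-s) - exp (-s')| ≤ ρ * s * exp (-(4 / 5 * s)) := by
  have d : |s' - s| ≤ ρ * s := by
    refine abs_le.2 ⟨?_, by linarith⟩
    rcases le_total s s' with h | h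
    · nlinarith [mul_nonneg r0 h0]
    · nlinarith [mul_le_mul_of_nonneg_left h r0]
  have d2 : ρ * s ≤ 1 / 5 * s := by gcongr
  have a1 : exp (-s) ≤ exp (-(4 / 5 * s)) := exp_le_exp.2 (by linarith)
  have a2 : exp (-s') ≤ exp (-(4 / 5 * s)) := exp_le_exp.2 (by linarith [(abs_le.1 d).1])
  have b1 := (fzg_e0 s s').trans (mul_le_mul d a1 (exp_pos _).le (by positivity))
  have b2 := (fzg_e0 s' s).trans
    (mul_le_mul ((abs_sub_comm s s').trans_le d) a2 (exp_pos _).le (by positivity))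
  exact abs_le.2 ⟨by linarith, b1⟩

theorem fzg_pt {w H ρ : ℝ} (r0 : 0 ≤ ρ) (r1 : ρ ≤ 1 / 5) (h1 : w ^ 2 ≤ (1 + ρ) * H ^ 2)
    (h2 : H ^ 2 ≤ (1 + ρ) * w ^ 2) (x : ℝ) :
    |gs (w * x) - gs (H * x)| ≤ 2 * ρ * gs (w / 2 * x) := by
  have p : 0 ≤ π * x ^ 2 := by positivity
  have h := fzg_exp (s := π * (w * x) ^ 2) (s' := π * (H * x) ^ 2) (by positivity)
    r0 r1 (by nlinarith [mul_le_mul_of_nonneg_left h1 p])
    (by nlinarith [mul_le_mul_of_nonneg_left h2 p])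
  have e : gs (w / 2 * x) = exp (-(π * (w * x) ^ 2 / 4)) := by
    rw [gs]; congr 2; ring
  rw [e]
  refine h.trans ?_
  have s0 : 0 ≤ π * (w * x) ^ 2 := by positivity
  generalize π * (w * x) ^ 2 = s at *
  have a : s * exp (-(4 / 5 * s)) ≤ 2 * exp (-(s / 4)) := by
    rw [show -(s / 4) = -(4 / 5 * s) + 11 / 20 * s by ring, exp_add]
    have := mul_le_mul_of_nonneg_left (add_one_le_exp (11 / 20 * s)) (exp_pos (-(4 / 5 * s))).le
    nlinarith [exp_pos (-(4 / 5 * s)), mul_nonneg s0 (exp_pos (-(4 / 5 * s))).le]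
  nlinarith [mul_le_mul_of_nonneg_left a r0]

theorem fzg_half {B c : ℝ} (hB : 0 < B) (c0 : 0 ≤ c) : psi B c ≤ 2 * psi (2 * B) c := by
  have e : exp (-(π * c / B)) = exp (-(π * c / (2 * B))) ^ 2 := by
    rw [← exp_nat_mul]; congr 1; push_cast; field_simp
  have f0 := exp_pos (-(π * c / (2 * B)))
  have f1 : exp (-(π * c / (2 * B))) ≤ 1 := by
    have : 0 ≤ π * c / (2 * B) := by positivity
    exact exp_le_one_iff.2 (by linarith)
  rw [psi_eq, psi_eq, e]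
  generalize exp (-(π * c / (2 * B))) = f at *
  have a : f * (1 + f) ≤ 2 := by nlinarith
  have := mul_le_mul_of_nonneg_left a (mul_nonneg f0.le (sub_nonneg.2 f1))
  nlinarith

theorem fzg_psi {B c ρ u : ℝ} (hB : 0 < B) (c0 : 0 ≤ c) (r0 : 0 ≤ ρ) (r1 : ρ ≤ 1 / 5)
    (h1 : c / B ≤ (1 + ρ) * u ^ 2) (h2 : u ^ 2 ≤ (1 + ρ) * (c / B)) :
    |psi B c - (gs u - gs (√2 * u))| ≤ 12 * ρ * psi (2 * B) c := by
  obtain ⟨s, hs⟩ : ∃ s, s = π * (c / B) := ⟨_, rfl⟩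
  have s0 : 0 ≤ s := by rw [hs]; positivity
  have k1 : s ≤ (1 + ρ) * (π * u ^ 2) := by
    rw [hs]; nlinarith [mul_le_mul_of_nonneg_left h1 pi_pos.le]
  have k2 : π * u ^ 2 ≤ (1 + ρ) * s := by
    rw [hs]; nlinarith [mul_le_mul_of_nonneg_left h2 pi_pos.le]
  have a1 := fzg_exp s0 r0 r1 k1 k2
  have a2 := fzg_exp (s := 2 * s) (s' := 2 * (π * u ^ 2)) (by positivity) r0 r1
    (by linarith) (by linarith)
  have e1 : psi B c = exp (-s) - exp (-(2 * s)) := by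
    rw [psi, hs]; congr 2 <;> ring
  have e2 : gs (√2 * u) = exp (-(2 * (π * u ^ 2))) := by
    rw [gs, mul_pow, Real.sq_sqrt (by norm_num)]; congr 2; ring
  have e3 : psi (2 * B) c = exp (-(s / 2)) * (1 - exp (-(s / 2))) := by
    rw [psi_eq, show π * c / (2 * B) = s / 2 by rw [hs]; field_simp]
  have a3 : exp (-(4 / 5 * (2 * s))) ≤ exp (-(4 / 5 * s)) := exp_le_exp.2 (by linarith)
  have a4 : ρ * (2 * s) * exp (-(4 / 5 * (2 * s))) ≤ ρ * (2 * s) * exp (-(4 / 5 * s)) := by gcongr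
  have b1 : exp (-(s / 2)) * (s / 2 + 1) ≤ 1 := by
    refine (mul_le_mul_of_nonneg_left (add_one_le_exp (s / 2)) (exp_pos _).le).trans_eq ?_
    rw [← exp_add, neg_add_cancel, exp_zero]
  have b2 : exp (-(4 / 5 * s)) * (3 / 10 * s + 1) ≤ exp (-(s / 2)) := by
    rw [show -(s / 2) = -(4 / 5 * s) + 3 / 10 * s by ring, exp_add]
    exact mul_le_mul_of_nonneg_left (add_one_le_exp _) (exp_pos _).le
  have b3 : s * exp (-(4 / 5 * s)) ≤ 4 * (exp (-(s / 2)) * (1 - exp (-(s / 2)))) := by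
    have f0 := exp_pos (-(s / 2))
    have g0 := exp_pos (-(4 / 5 * s))
    generalize exp (-(s / 2)) = f at *
    generalize exp (-(4 / 5 * s)) = g at *
    refine le_of_mul_le_mul_right (a := s / 2 + 1) ?_ (by linarith)
    have t1 := mul_le_mul_of_nonneg_left b1 f0.le
    have t2 := mul_le_mul_of_nonneg_left b2 s0
    have t3 : 0 ≤ s * g := by positivity
    have t4 : 0 ≤ s * s * g := by positivity
    nlinarith
  have b4 := mul_le_mul_of_nonneg_left b3 r0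
  rw [e1, e2, e3, gs]
  have c1 := abs_le.1 a1
  have c2 := abs_le.1 (a2.trans a4)
  exact abs_le.2 ⟨by linarith [c1.1, c2.2], by linarith [c1.2, c2.1]⟩

theorem fzg_sq {u v lo hi : ℝ} (u0 : lo ≤ u) (u1 : u ≤ hi) (v0 : lo ≤ v) (v1 : v ≤ hi) :
    (u - v) ^ 2 * exp lo ^ 2 ≤ (exp u - exp v) ^ 2 ∧
      (exp u - exp v) ^ 2 ≤ (u - v) ^ 2 * exp hi ^ 2 := by
  wlog h : v ≤ u generalizing u v
  · have := this v0 v1 u0 u1 (le_of_not_ge h)
    rwa [← neg_sub u v, ← neg_sub (exp u) (exp v), neg_sq, neg_sq] at this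
  have d := sub_nonneg.2 h
  have a1 : (u - v) * exp v ≤ exp u - exp v := by
    rw [show exp u = exp (u - v) * exp v by rw [← exp_add]; congr 1; ring]
    nlinarith [mul_le_mul_of_nonneg_right (add_one_le_exp (u - v)) (exp_pos v).le]
  have a2 : exp u - exp v ≤ (u - v) * exp u := by
    rw [show exp v = exp (v - u) * exp u by rw [← exp_add]; congr 1; ring]
    nlinarith [mul_le_mul_of_nonneg_right (add_one_le_exp (v - u)) (exp_pos u).le]
  have b1 : (u - v) * exp lo ≤ (u - v) * exp v := by gcongr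
  have b2 : (u - v) * exp u ≤ (u - v) * exp hi := by gcongr
  have b0 : 0 ≤ (u - v) * exp lo := by positivity
  rw [← mul_pow, ← mul_pow]
  exact ⟨pow_le_pow_left₀ b0 (b1.trans a1) 2,
    pow_le_pow_left₀ (b0.trans (b1.trans a1)) (a2.trans b2) 2⟩

theorem fzg_sqrt {a : ℕ} (h : 1 ≤ a) : √(a : ℝ) = exp (Real.log a / 2) := by
  have h0 : (0 : ℝ) < a := by exact_mod_cast h
  rw [Real.exp_half, Real.exp_log h0]

theorem fzg_win {κ y : ℝ} (k0 : 0 < κ) (k1 : κ ≤ 1 / 20) {a1 a2 : ℕ} (h1 : a1 ∈ Iw κ y)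
    (h2 : a2 ∈ Iw κ y) :
    (sg a1 a2 ^ 2 ≤ (1 + 4 * κ) * (lq a1 a2 ^ 2 / 4 * exp y) ∧
      lq a1 a2 ^ 2 / 4 * exp y ≤ (1 + 4 * κ) * sg a1 a2 ^ 2) ∧
    ((a1 : ℝ) * a2 ≤ (1 + 4 * κ) * exp y ^ 2 ∧ exp y ^ 2 ≤ (1 + 4 * κ) * ((a1 : ℝ) * a2)) ∧
    lq a1 a2 ^ 2 ≤ 4 * κ ^ 2 := by
  have l1 := abs_le.1 (Iw_log h1)
  have l2 := abs_le.1 (Iw_log h2)
  have E2 : exp κ ^ 2 ≤ 1 + 4 * κ := by
    rw [← exp_nat_mul]
    have := exp_le_lin (x := 2 * κ) (by linarith) (by linarith)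
    push_cast
    linarith
  have E0 : 1 ≤ exp κ := one_le_exp k0.le
  have E1 : exp κ ≤ 1 + 4 * κ := by nlinarith
  have y0 := exp_pos y
  have q := fzg_sq (u := Real.log a2 / 2) (v := Real.log a1 / 2) (lo := (y - κ) / 2)
    (hi := (y + κ) / 2) (by linarith [l2.1]) (by linarith [l2.2]) (by linarith [l1.1])
    (by linarith [l1.2])
  rw [← fzg_sqrt (Iw_pos h1), ← fzg_sqrt (Iw_pos h2), ← exp_nat_mul, ← exp_nat_mul,
    show (Real.log a2 / 2 - Real.log a1 / 2) ^ 2 = lq a1 a2 ^ 2 / 4 by rw [lq]; ring,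
    show ((2 : ℕ) : ℝ) * ((y - κ) / 2) = y - κ by push_cast; ring,
    show ((2 : ℕ) : ℝ) * ((y + κ) / 2) = y + κ by push_cast; ring, exp_add] at q
  have ey : exp y = exp κ * exp (y - κ) := by rw [← exp_add]; congr 1; ring
  have z0 := exp_pos (y - κ)
  have L0 : 0 ≤ lq a1 a2 ^ 2 / 4 := by positivity
  obtain ⟨p1, q1⟩ := mem_Iw.1 h1
  obtain ⟨p2, q2⟩ := mem_Iw.1 h2
  rw [exp_add] at q1 q2
  refine ⟨⟨q.2.trans ?_, ?_⟩, ⟨?_, ?_⟩, ?_⟩
  · nlinarith [mul_le_mul_of_nonneg_left E1 (mul_nonneg L0 y0.le)]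
  · calc _ = exp κ * (lq a1 a2 ^ 2 / 4 * exp (y - κ)) := by rw [ey]; ring
      _ ≤ _ := mul_le_mul E1 q.1 (by positivity) (by positivity)
  · calc _ ≤ exp y * exp κ * (exp y * exp κ) := by gcongr
      _ = exp κ ^ 2 * exp y ^ 2 := by ring
      _ ≤ _ := by gcongr
  · calc _ = exp κ ^ 2 * (exp (y - κ) * exp (y - κ)) := by rw [ey]; ring
      _ ≤ _ := by gcongr
  · rw [show 4 * κ ^ 2 = (2 * κ) ^ 2 by ring, lq]
    exact sq_le_sq' (by linarith [l1.2, l2.1]) (by linarith [l1.1, l2.2])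

theorem t_FZG : S_FZG := by
  refine ⟨64, by norm_num, fun M H κ ε y n0 μ0 d hM hH k0 k1 e0 hμ hn hd => ?_⟩
  have y0 := exp_pos y
  obtain ⟨B, hBe⟩ : ∃ B, B = exp y / M ^ 2 := ⟨_, rfl⟩
  obtain ⟨K, hKe⟩ : ∃ K, K = exp y / H := ⟨_, rfl⟩
  have hB : 0 < B := by rw [hBe]; positivity
  have hK : 0 < K := by rw [hKe]; positivity
  rw [← hBe, ← hKe]
  refine (frz_gen hn _ _ (fun μ a1 a2 => 64 * (κ * modT nuo (2 * B) (2 * K) μ a1 a2 +
    ε ^ 2 * modT nuo (ε ^ 2 * B) K μ a1 a2)) (fun a _ => hd a)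
    fun a1 h1 a2 h2 μ m1 => ?_).trans_eq (by
      simp only [offS, one_mul, mul_add, sum_add_distrib, mul_sum])
  obtain ⟨⟨g1, g2⟩, ⟨w1, w2⟩, lb⟩ := fzg_win k0 k1 h1 h2
  have m0 : (0 : ℝ) < μ := by exact_mod_cast m1
  have pa : (0 : ℝ) < (a1 : ℝ) * a2 := by
    have := Iw_pos h1
    have := Iw_pos h2
    positivity
  have hr := Real.sqrt_pos.2 pa
  rw [← Real.sq_sqrt pa.le] at w1 w2
  simp only [modT, modG]
  have c0 : 0 ≤ sg a1 a2 ^ 2 / (μ : ℝ) ^ 2 := by positivity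
  generalize √((a1 : ℝ) * a2) = r at *
  rw [show r / (2 * K) = r / K / 2 by field_simp]
  have v1 : (r / K) ^ 2 ≤ (1 + 4 * κ) * H ^ 2 := by
    rw [div_pow, div_le_iff₀ (by positivity), hKe]
    refine w1.trans_eq ?_
    field_simp
  have v2 : H ^ 2 ≤ (1 + 4 * κ) * (r / K) ^ 2 := by
    rw [div_pow, ← mul_div_assoc, le_div_iff₀ (by positivity), hKe]
    refine le_trans (le_of_eq ?_) w2
    field_simp
  have w0 : 0 < r / K := by positivity
  generalize r / K = w at *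
  have s1 := frz_sum w0 (sg a1 a2 ^ 2 / (μ : ℝ) ^ 2)
  have s2 := frz_sum hH (sg a1 a2 ^ 2 / (μ : ℝ) ^ 2)
  have s3 := frz_sum (half_pos w0) (sg a1 a2 ^ 2 / (μ : ℝ) ^ 2)
  have p1 := psi_nonneg hB c0
  have p2 := psi_nonneg (B := ε ^ 2 * B) (by positivity) c0
  have p3 := psi_nonneg (B := 2 * B) (by positivity) c0
  have n1 : 0 ≤ ∑' b : ℤ, nuo b * gs (w * (b - sg a1 a2 ^ 2 / (μ : ℝ) ^ 2)) :=
    tsum_nonneg fun b => mul_nonneg (nuo_bd b).1 (gs_pos _).le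
  have n2 : 0 ≤ ∑' b : ℤ, nuo b * gs (H * (b - sg a1 a2 ^ 2 / (μ : ℝ) ^ 2)) :=
    tsum_nonneg fun b => mul_nonneg (nuo_bd b).1 (gs_pos _).le
  have n3 : 0 ≤ ∑' b : ℤ, nuo b * gs (w / 2 * (b - sg a1 a2 ^ 2 / (μ : ℝ) ^ 2)) :=
    tsum_nonneg fun b => mul_nonneg (nuo_bd b).1 (gs_pos _).le
  have q1 := mul_nonneg k0.le (mul_nonneg p3 n3)
  have q2 := mul_nonneg (sq_nonneg ε) (mul_nonneg p2 n1)
  split_ifs with h
  · have t1 := tsum_of_norm_bounded (s3.mul_left (2 * (4 * κ))).hasSum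
      (f := fun b : ℤ => nuo b * gs (w * (b - sg a1 a2 ^ 2 / (μ : ℝ) ^ 2)) -
        nuo b * gs (H * (b - sg a1 a2 ^ 2 / (μ : ℝ) ^ 2))) fun b => by
      rw [← mul_sub, mul_left_comm, Real.norm_eq_abs, abs_mul, abs_of_nonneg (nuo_bd b).1]
      exact mul_le_mul_of_nonneg_left (fzg_pt (by linarith) (by linarith) v1 v2 _) (nuo_bd b).1
    rw [tsum_mul_left, Real.norm_eq_abs, s1.tsum_sub s2] at t1
    have wH : w / 2 ≤ H := by
      refine le_of_sq_le_sq ?_ hH.le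
      nlinarith [mul_le_mul_of_nonneg_right k1 (sq_nonneg H), sq_nonneg H]
    have t2 := s2.tsum_le_tsum (fun b => mul_le_mul_of_nonneg_left (gs_anti (by
      rw [abs_mul, abs_mul, abs_of_pos hH, abs_of_pos (half_pos w0)]
      gcongr)) (nuo_bd b).1) s3
    have t3 := fzg_psi (ρ := 4 * κ) (u := M / (2 * μ) * lq a1 a2) hB c0 (by linarith) (by linarith)
      (by
        rw [div_div, div_le_iff₀ (by positivity), hBe]
        refine g1.trans_eq ?_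
        field_simp
        ring)
      (by
        rw [div_div, ← mul_div_assoc, le_div_iff₀ (by positivity), hBe]
        refine le_trans (le_of_eq ?_) g2
        field_simp
        ring)
    rw [show √2 * (M / (2 * μ) * lq a1 a2) = √2 * M / (2 * μ) * lq a1 a2 by ring] at t3
    have t4 := fzg_half hB c0
    generalize gs (M / (2 * μ) * lq a1 a2) - gs (√2 * M / (2 * μ) * lq a1 a2) = P at *
    generalize ∑' b : ℤ, nuo b * gs (w * (b - sg a1 a2 ^ 2 / (μ : ℝ) ^ 2)) = S1 at *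
    generalize ∑' b : ℤ, nuo b * gs (H * (b - sg a1 a2 ^ 2 / (μ : ℝ) ^ 2)) = S2 at *
    generalize ∑' b : ℤ, nuo b * gs (w / 2 * (b - sg a1 a2 ^ 2 / (μ : ℝ) ^ 2)) = S3 at *
    generalize psi B (sg a1 a2 ^ 2 / (μ : ℝ) ^ 2) = P1 at *
    rw [show P1 * S1 - P * S2 = P1 * (S1 - S2) + (P1 - P) * S2 by ring]
    refine (abs_add_le _ _).trans ?_
    rw [abs_mul, abs_mul, abs_of_nonneg p1, abs_of_nonneg n2]
    have u1 := mul_le_mul t4 t1 (abs_nonneg _) (by positivity)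
    have u2 := mul_le_mul t3 t2 n2 (by positivity)
    linarith
  · rw [sub_zero, abs_of_nonneg (mul_nonneg p1 n1)]
    have hc : sg a1 a2 ^ 2 / (μ : ℝ) ^ 2 ≤ ε ^ 2 * B / 4 := by
      have m2 : (μ0 : ℝ) ≤ μ := by exact_mod_cast (not_le.1 h).le
      have m3 : 3 * κ * M ≤ ε * μ := hμ.trans (by gcongr)
      have m4 : (3 * κ * M) ^ 2 ≤ (ε * μ) ^ 2 := by gcongr
      have m5 : sg a1 a2 ^ 2 ≤ 6 / 5 * (4 * κ ^ 2 / 4 * exp y) := g1.trans (by gcongr; linarith)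
      have m6 := mul_le_mul_of_nonneg_left m4 hB.le
      have m7 : B * (3 * κ * M) ^ 2 = 9 * (κ ^ 2 * exp y) := by rw [hBe]; field_simp; ring
      have m8 : 0 ≤ κ ^ 2 * exp y := by positivity
      rw [div_le_iff₀ (by positivity)]
      linarith only [m5, m6, m7, m8]
    have := mul_le_mul_of_nonneg_right (frz_psi hB e0 c0 hc).2 n1
    linarith

end Pool.Agent.P.MP_8be758_nt.Av3
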