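import Pool.Agent.P.MP_8be758_nt.Av3.Basic

/-! The step `S_G1b`. -/

namespace Pool.Agent.P.MP_8be758_nt.Av3

open Finset Real Filter Topology
open Pool.Agent.P.MP_e86632_nt (ee)
open Pool.Agent.P.MP_8be758_nt.Avg Pool.Agent.P.MP_8be758_nt.Av2

theorem t_G1b (θ : ℝ) (hθ : 7 / 10 ≤ θ) (hI : S_Ib θ) : S_G1b θ := by
  intro j ε hε
  obtain ⟨e0, he0, h0⟩ := hI j ε hε
  obtain ⟨C, hC, hCNT, -⟩ := lib_CNT
  refine ⟨min e0 (1 / 10), by positivity, fun e1 he1 hle D ε' hD hε' R hR => ?_⟩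
  have h10 := hle.trans (min_le_right _ _)
  obtain ⟨s, hs⟩ : ∃ s : ℕ, 3 ≤ e1 * s := ⟨⌈3 / e1⌉₊, by
    rw [mul_comm, ← div_le_iff₀ he1]; exact Nat.le_ceil _⟩
  filter_upwards [h0 e1 he1 (hle.trans (min_le_left _ _)) R hR, eventually_ge_atTop 2,
    ev_const 2 he1, ev_const (R.factorial : ℝ) (show (0 : ℝ) < 7 / 10 by norm_num), ev_log 1,
    ev_log ((D + D * 2 ^ s * C / e1) / ε')] with N h1 hN hz hW hL hL' K X1 X2 c f hst hb hc hf
  have hN1 : (1 : ℝ) ≤ N := by linarith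
  have hN0 : (0 : ℝ) < N := by linarith
  have hL0 : 0 < Real.log N := by linarith
  have hy : 0 ≤ N ^ (10 / 11 : ℝ) := by positivity
  have hK := (hst.mono hθ le_rfl hN1).lo
  have pw : ∀ (i : ℕ) (b : ℝ), e1 * i ≤ b → (N ^ e1) ^ i ≤ N ^ b := fun i b h => by
    rw [bx_pw hN0]; exact Real.rpow_le_rpow_of_exponent_le hN1 h
  have y2 : N ^ (10 / 11 : ℝ) ≤ N ^ 2 := by
    rw [← Real.rpow_natCast]; exact Real.rpow_le_rpow_of_exponent_le hN1 (by norm_num)
  have n3 : 6 / 5 * N ^ 2 ≤ N ^ 3 := by nlinarith [sq_nonneg N]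
  have hb' : ∀ d ∈ Ry (N ^ (10 / 11 : ℝ)) (N ^ e1), |c d| ≤ D := fun d hd =>
    hb d ((mem_Ry hy).1 hd).2.2 (by have := ((mem_Ry hy).1 hd).2.1; nlinarith [sq_nonneg N])
  have hA := g1_A hD fun c => h1 K X1 X2 c hst
  have he : D / Real.log N + D * 2 ^ s * C / e1 / Real.log N ≤ ε' := by
    rw [← add_div, div_le_iff₀ hL0, ← div_le_iff₀' hε']; exact hL'
  have he2 : 0 ≤ D * 2 ^ s * C / e1 / Real.log N := by positivity
  have m0 : ∀ m, X1 < m → m ≠ 0 := fun m h => by omega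
  rcases hf with rfl | rfl
  · refine ((hA c hb').mono hN1 le_rfl (by linarith)).congr fun m a _ r => ?_
    rw [g1_conv hy _ hc (m0 m a) r]
    refine sum_congr rfl fun d hd => ?_
    have := Nat.div_ne_zero_iff_of_dvd (mem_filter.1 hd).2 |>.2
      ⟨m0 m a, (Nat.one_le_iff_ne_zero.1 ((mem_Ry hy).1 (mem_filter.1 hd).1).1)⟩
    simp [ze, this]
  have c1 : ∀ d ∈ Ry (N ^ (10 / 11 : ℝ)) (N ^ e1),
      |c d * ((2 * Real.log N - Real.log d) / (3 * Real.log N))| ≤ |c d| := fun d hd => by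
    obtain ⟨d1, d2, -⟩ := (mem_Ry hy).1 hd
    have l1 : 0 ≤ Real.log d := Real.log_natCast_nonneg d
    have l2 : Real.log d ≤ 2 * Real.log N := by
      have := Real.log_le_log (by exact_mod_cast d1) (d2.trans y2)
      rwa [Real.log_pow] at this
    rw [abs_mul]
    refine mul_le_of_le_one_right (abs_nonneg _) ?_
    rw [abs_of_nonneg (div_nonneg (by linarith) (by linarith)), div_le_one (by linarith)]
    linarith
  have c2 : ms (N ^ (10 / 11 : ℝ)) (N ^ e1) (fun d => c d * ((2 * Real.log N - Real.log d) /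
      (3 * Real.log N))) ≤ ms (N ^ (10 / 11 : ℝ)) (N ^ e1) c :=
    sum_le_sum fun d hd => div_le_div_of_nonneg_right (c1 d hd) (Nat.cast_nonneg d)
  have g1 := hA _ fun d hd => (c1 d hd).trans (hb' d hd)
  have g2 : Good N (N ^ e1) R K X1 X2 (fun m => (Real.log m - 2 * Real.log N) / (3 * Real.log N) *
      ∑ d ∈ (Ry (N ^ (10 / 11 : ℝ)) (N ^ e1)).filter (· ∣ m), c d) 0
      (D * 2 ^ s * C / e1 / Real.log N) := by
    have s4 := hCNT (N ^ e1) N K R.factorial X1 X2 hz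
      ((pw 5 (7 / 10) (by push_cast; linarith)).trans hK)
      (by simpa using pw 5 2 (by push_cast; linarith)) (Nat.factorial_pos R)
      (by exact_mod_cast hW.trans hK) hN1 hst.x1 hst.x2
    rw [Real.log_rpow hN0] at s4
    refine good_of_le (le_trans ?_ ((mul_le_mul_of_nonneg_left s4
      (show 0 ≤ D * 2 ^ s / Real.log N by positivity)).trans_eq (by field_simp)))
    rw [mul_sum]
    refine sum_le_sum fun k _ => (abs_sum_le_sum_abs _ _).trans ?_
    rw [mul_sum]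
    refine sum_le_sum fun m hm => ?_
    obtain ⟨a, r⟩ := mem_filter.1 hm
    have a1 : N ^ 2 ≤ m := hst.x1.trans (by exact_mod_cast (mem_Ioc.1 a).1.le)
    have a2 : (m : ℝ) ≤ 6 / 5 * N ^ 2 := le_trans (by exact_mod_cast (mem_Ioc.1 a).2) hst.x2
    have l1 := Real.log_le_log (by positivity) a1
    have l2 := Real.log_le_log (lt_of_lt_of_le (by positivity) a1) a2
    rw [Real.log_mul (by norm_num) (by positivity)] at l2
    rw [Real.log_pow] at l1 l2
    have l3 := Real.log_le_sub_one_of_pos (show (0 : ℝ) < 6 / 5 by norm_num)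
    push_cast at l1 l2
    have t1 := lib_TAU (N ^ e1) s m (by linarith) r (by
      rw [bx_pw hN0]
      refine (a2.trans n3).trans ?_
      rw [← Real.rpow_natCast]
      exact Real.rpow_le_rpow_of_exponent_le hN1 (by exact_mod_cast hs))
    have t2 : |∑ d ∈ (Ry (N ^ (10 / 11 : ℝ)) (N ^ e1)).filter (· ∣ m), c d| ≤ D * 2 ^ s := by
      refine (abs_sum_le_sum_abs _ _).trans ((sum_le_card_nsmul _ _ D fun d hd =>
        hb' d (mem_filter.1 hd).1).trans ?_)
      rw [nsmul_eq_mul, mul_comm]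
      gcongr
      exact_mod_cast (card_le_card fun d hd =>
        Nat.mem_divisors.2 ⟨(mem_filter.1 hd).2, m0 m (mem_Ioc.1 a).1⟩).trans t1
    rw [abs_mul, abs_mul, abs_of_nonneg (div_nonneg (by linarith) (by linarith)),
      show D * 2 ^ s / Real.log N = 1 / Real.log N * (D * 2 ^ s) by ring]
    gcongr ?_ * ?_ * _
    rw [div_le_div_iff₀ (by linarith) hL0]
    nlinarith
  have h5 : 0 ≤ ε * e1 ^ j := by positivity
  refine ((g1.add g2).mono hN1 (by linarith) (by nlinarith)).congr fun m a _ r => ?_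
  rw [g1_conv hy _ hc (m0 m a) r, mul_sum, ← sum_add_distrib]
  refine sum_congr rfl fun d hd => ?_
  have d0 : (d : ℝ) ≠ 0 := by
    exact_mod_cast Nat.one_le_iff_ne_zero.1 ((mem_Ry hy).1 (mem_filter.1 hd).1).1
  change _ = c d * (Real.log (m / d : ℕ) / _)
  rw [Nat.cast_div (mem_filter.1 hd).2 d0, Real.log_div (by exact_mod_cast m0 m a) d0]
  ring

end Pool.Agent.P.MP_8be758_nt.Av3
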