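import Pool.Agent.P.MP_8be758_nt.Av3.Basic

/-! The step `S_G3b`. -/

namespace Pool.Agent.P.MP_8be758_nt.Av3

open Finset Real Filter Topology
open Pool.Agent.P.MP_e86632_nt (ee)
open Pool.Agent.P.MP_8be758_nt.Avg Pool.Agent.P.MP_8be758_nt.Av2

theorem t_G3b (θ : ℝ) (hIII : S_IIIb θ) : S_G3b θ := by
  intro j ε hε
  obtain ⟨e0, he0, hIII⟩ := hIII j ε hε
  refine ⟨e0, he0, fun e1 he1 h1e D ε' hD hε' => ?_⟩
  obtain ⟨R1, hIII⟩ := hIII e1 he1 h1e (ε' / D) (by positivity)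
  refine ⟨R1, fun R hR => ?_⟩
  filter_upwards [hIII R hR, eventually_gt_atTop 1] with N h hN K X1 X2 U1 U2 V1 V2 y c f1 f2 hst
    y1 y2 hc hs h1 h2 u1 v1 u2 u3 v3
  have hL := Real.log_pos hN
  have hN0 : 0 < N := by linarith
  have h45 : N ^ (10 / 11 : ℝ) ≤ N ^ 3 := by
    rw [← Real.rpow_natCast]
    exact Real.rpow_le_rpow_of_exponent_le hN.le (by norm_num)
  obtain ⟨β, hβ⟩ : ∃ β : ℕ → ℝ, β = fun b => if Rough (N ^ e1) b then c b / D else 0 := ⟨_, rfl⟩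
  have b0 : ∀ b, β b ≠ 0 → Rough (N ^ e1) b ∧ c b ≠ 0 := fun b hb => by
    simp only [hβ] at hb
    by_cases r : Rough (N ^ e1) b
    · exact ⟨r, fun e => hb (by rw [if_pos r, e, zero_div])⟩
    · exact absurd (if_neg r) hb
  have b1 : Coef (N ^ e1) y β := by
    refine ⟨fun b => ?_, fun b hb => ⟨(b0 b hb).1, (hs b (b0 b hb).2).1⟩⟩
    by_cases hb : β b = 0
    · rw [hb, abs_zero]; exact zero_le_one
    · obtain ⟨r, e⟩ := b0 b hb
      simp only [hβ, if_pos r]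
      rw [abs_div, abs_of_pos hD, div_le_one hD]
      exact hc b r ((hs b e).2.2.trans h45)
  have hm := ms_nonneg (N ^ (10 / 11 : ℝ)) (N ^ e1) β
  have key := t_LAY (N ^ e1) ((ε * e1 ^ j * ms (N ^ (10 / 11 : ℝ)) (N ^ e1) β + ε' / D) * K * N /
    Real.log N) K X1 X2 U1 U2 V1 V2 β f1 f2 (fun k => dd R.factorial k) (by positivity)
    (fun u _ hu => h1.bd hN (le_trans (by exact_mod_cast hu) u3))
    (fun u u' hu hu' => h1.mono hN (by omega) hu')
    (fun v _ hv => h2.bd hN (le_trans (by exact_mod_cast hv) v3))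
    (fun v v' hv hv' => h2.mono hN (by omega) hv')
    (fun t t' ht ht' => by
      have a1 : (U1 : ℝ) ≤ t := by exact_mod_cast ht
      have a2 : (V1 : ℝ) ≤ t' := by exact_mod_cast ht'
      exact h K X1 X2 t U2 t' V2 y β hst y1 y2 b1 (fun b hb => hs b (b0 b hb).2) (u1.trans a1)
        (v1.trans a2) (u2.trans (by gcongr)))
  refine good_of_le ?_
  rw [g3_tau] at key
  rw [sum_congr rfl fun k _ => by rw [g3_conv _ hD, abs_mul, abs_of_pos hD, ← hβ], ← mul_sum]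
  refine (mul_le_mul_of_nonneg_left key hD.le).trans_eq ?_
  rw [← g3_ms hD c, ← hβ]
  field_simp

end Pool.Agent.P.MP_8be758_nt.Av3
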