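import Pool.Agent.P.MP_8be758_nt.Av3.Basic

/-! The step `S_GAPb`. -/

namespace Pool.Agent.P.MP_8be758_nt.Av3

open Finset Real Filter Topology
open Pool.Agent.P.MP_e86632_nt (ee)
open Pool.Agent.P.MP_8be758_nt.Avg Pool.Agent.P.MP_8be758_nt.Av2

theorem gapb_upd (hUPDb : S_UPDb) : ∃ C : ℝ, 0 < C ∧ ∀ W : ℕ, 1 ≤ W → ∀ᶠ N : ℝ in atTop,
    ∀ (K : ℕ) (B : ℝ) (S1 S2 : Finset ℕ), N ^ (7 / 10 : ℝ) ≤ K → N ^ (2 / 3 : ℝ) ≤ B →
      B ≤ N ^ (4 / 3 : ℝ) → (∀ b ∈ S1, B ≤ b ∧ (b : ℝ) ≤ 2 * B) →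
      (∀ a ∈ S2, N ^ 2 / (2 * B) ≤ a ∧ (a : ℝ) ≤ 2 * N ^ 2 / B) →
      ∑ k ∈ Icc 1 K, ∑ b ∈ S1, ∑ a ∈ S2, |dd W k (a * b)| ≤
        C * (K / N) * S1.card * S2.card + K * N / Real.log N ^ 4 := by
  obtain ⟨C, hC, hU⟩ := hUPDb
  refine ⟨C, hC, fun W hW => ?_⟩
  filter_upwards [hU W hW, ev_log 1, eventually_ge_atTop 1,
    ev_pow 1 4 (show (49 / 50 : ℝ) < 1 by norm_num)] with N hU hL hN h
  intro K B S1 S2 hK h1 h2 hS1 hS2
  have a1 : N ^ (13 / 20 : ℝ) ≤ N ^ (2 / 3 : ℝ) :=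
    Real.rpow_le_rpow_of_exponent_le hN (by norm_num)
  have a2 : N ^ (4 / 3 : ℝ) ≤ N ^ (27 / 20 : ℝ) :=
    Real.rpow_le_rpow_of_exponent_le hN (by norm_num)
  refine (hU K B S1 S2 hK (a1.trans h1) (h2.trans a2) hS1 hS2).trans ?_
  have hL0 : 0 < Real.log N ^ 4 := by positivity
  have a3 : N ^ (49 / 50 : ℝ) ≤ N / Real.log N ^ 4 := by
    rw [le_div_iff₀ hL0]
    rw [Real.rpow_one] at h
    linarith
  have a4 : (K : ℝ) * N ^ (49 / 50 : ℝ) ≤ K * N / Real.log N ^ 4 := by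
    rw [mul_div_assoc]
    exact mul_le_mul_of_nonneg_left a3 (Nat.cast_nonneg K)
  linarith

theorem t_GAPb (hUPDb : S_UPDb) : S_GAPb := by
  obtain ⟨C1, hC1, hU⟩ := gapb_upd hUPDb
  obtain ⟨C2, hC2, hR⟩ := lib_RC
  refine ⟨20 * C1 * C2 ^ 2 + 5, by positivity, fun e1 eg he1 he1' heg heg' W hW => ?_⟩
  filter_upwards [hU W hW, ev_const 2 he1, ev_log (1 / eg), ev_log 1, eventually_ge_atTop 1,
    ev_pow (6 / 5) 0 (show (5 / 4 : ℝ) < 4 / 3 by norm_num)] with N hU hz hL hL1 hN h43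
  intro K X1 X2 φ ψ slo sx1 sx2 hφ hψ
  have hN0 : 0 < N := by linarith
  rw [pow_zero, mul_one] at h43
  set L := Real.log N with hLdef
  set z := N ^ e1 with hzdef
  set G := N ^ (1 - eg) with hGdef
  have hG0 : 0 < G := Real.rpow_pos_of_pos hN0 _
  have hlz : Real.log z = e1 * L := Real.log_rpow hN0 _
  have hx : 1 ≤ eg * L := by rwa [div_le_iff₀' heg] at hL
  have hz5 : z ^ 5 ≤ N ^ (2 / 3 : ℝ) := by
    rw [hzdef, ← Real.rpow_mul_natCast hN0.le]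
    exact Real.rpow_le_rpow_of_exponent_le hN (by push_cast; linarith)
  have hG23 : N ^ (2 / 3 : ℝ) ≤ G := Real.rpow_le_rpow_of_exponent_le hN (by linarith)
  have hN2 : N ^ 2 = N ^ (2 / 3 : ℝ) * N ^ (4 / 3 : ℝ) := by
    rw [← Real.rpow_add hN0, ← Real.rpow_natCast]
    norm_num
  have hN2' : N ^ 2 = G * N ^ (1 + eg) := by
    rw [hGdef, ← Real.rpow_add hN0, ← Real.rpow_natCast]
    norm_num
  have hN3 : N ^ (1 + eg) = G * Real.exp (2 * (eg * L)) := by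
    rw [hGdef, Real.rpow_def_of_pos hN0, Real.rpow_def_of_pos hN0, ← Real.exp_add]
    congr 1
    ring
  have h54 : N ^ (1 + eg) ≤ N ^ (5 / 4 : ℝ) := Real.rpow_le_rpow_of_exponent_le hN (by linarith)
  let J := (range (⌊4 * (eg * L)⌋₊ + 1)).filter fun j => G * 2 ^ j ≤ N ^ (4 / 3 : ℝ)
  let S1 : ℕ → Finset ℕ := fun j => (Icc 1 X2).filter fun u =>
    Rough z u ∧ G * 2 ^ j ≤ u ∧ (u : ℝ) ≤ 2 * (G * 2 ^ j)
  let S2 : ℕ → Finset ℕ := fun j => (Icc 1 X2).filter fun v =>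
    Rough z v ∧ N ^ 2 / (2 * (G * 2 ^ j)) ≤ v ∧ (v : ℝ) ≤ 2 * N ^ 2 / (G * 2 ^ j)
  have hcov : ∀ k, |bil X1 X2 φ ψ (dd W k)| ≤
      ∑ j ∈ J, ∑ b ∈ S1 j, ∑ a ∈ S2 j, |dd W k (a * b)| := by
    intro k
    refine gap_cover _ J S1 S2 (fun p => φ p.1 * ψ p.2) _ (fun p => ?_) fun p hp h => ?_
    · rw [abs_mul]
      exact mul_le_one₀ (hφ.1 _) (abs_nonneg _) (hψ.1 _)
    obtain ⟨r1, g1⟩ := hφ.2 _ (left_ne_zero_of_mul h)
    obtain ⟨r2, g2⟩ := hψ.2 _ (right_ne_zero_of_mul h)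
    obtain ⟨hp1, hp2, hp3⟩ := mem_filter.1 hp
    obtain ⟨m1, m2⟩ := mem_product.1 hp1
    have a1 : N ^ 2 ≤ (p.1 : ℝ) * p.2 := sx1.trans (by exact_mod_cast hp2.le)
    have a2 : (p.1 : ℝ) * p.2 ≤ 6 / 5 * N ^ 2 := le_trans (by exact_mod_cast hp3) sx2
    obtain ⟨j, j1, j2⟩ := exists_nat_pow_near ((one_le_div hG0).2 g1.le) (one_lt_two (α := ℝ))
    rw [le_div_iff₀' hG0] at j1
    rw [div_lt_iff₀' hG0, pow_succ] at j2
    have u0 : 0 < G * 2 ^ j := by positivity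
    have hu : (p.1 : ℝ) ≤ 6 / 5 * N ^ (1 + eg) := by
      refine le_of_mul_le_mul_left ?_ hG0
      have : G * p.1 ≤ (p.1 : ℝ) * p.2 := by
        rw [mul_comm]
        exact mul_le_mul_of_nonneg_left g2.le (Nat.cast_nonneg _)
      rw [hN2'] at a2
      linarith
    have v0 : (0 : ℝ) ≤ p.2 := Nat.cast_nonneg _
    refine ⟨j, mem_filter.2 ⟨mem_range.2 (gap_index hx ?_ rfl), by linarith⟩,
      mem_filter.2 ⟨m1, r1, j1, by linarith⟩, mem_filter.2 ⟨m2, r2, ?_, ?_⟩⟩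
    · refine le_of_mul_le_mul_left ?_ hG0
      rw [hN3] at hu
      linarith
    · rw [div_le_iff₀ (by positivity)]
      nlinarith
    · rw [le_div_iff₀ u0]
      have : 0 ≤ N ^ 2 := by positivity
      nlinarith
  have hL0 : 0 < L := by linarith
  have hK0 : (0 : ℝ) ≤ K := Nat.cast_nonneg K
  have hbox : ∀ j ∈ J, ∑ k ∈ Icc 1 K, ∑ b ∈ S1 j, ∑ a ∈ S2 j, |dd W k (a * b)| ≤
      (4 * C1 * C2 ^ 2 + 1) * (K * N / (e1 * L) ^ 2) := by
    intro j hj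
    have j1 := (mem_filter.1 hj).2
    have j0 : G ≤ G * 2 ^ j := le_mul_of_one_le_right hG0.le (one_le_pow₀ one_le_two)
    generalize hB : G * 2 ^ j = B at j0 j1
    have hB0 : 0 < B := by linarith
    have b1 := hU K B (S1 j) (S2 j) slo (hG23.trans j0) j1
      (fun b hb => hB ▸ (mem_filter.1 hb).2.2) fun a ha => hB ▸ (mem_filter.1 ha).2.2
    have c1 := hR z 0 (2 * B) (S1 j) hz (by linarith) fun m hm => by
      obtain ⟨h1, h2, -, h3⟩ := mem_filter.1 hm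
      exact ⟨by exact_mod_cast (mem_Icc.1 h1).1, by rw [zero_add, ← hB]; exact h3, h2⟩
    have c2 := hR z 0 (2 * N ^ 2 / B) (S2 j) hz (by
      rw [le_div_iff₀ hB0]
      have : 0 ≤ N ^ 2 := by positivity
      have := mul_le_mul hz5 j1 hB0.le (by positivity)
      linarith) fun m hm => by
      obtain ⟨h1, h2, -, h3⟩ := mem_filter.1 hm
      exact ⟨by exact_mod_cast (mem_Icc.1 h1).1, by rw [zero_add, ← hB]; exact h3, h2⟩
    rw [hlz] at c1 c2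
    have d1 : C1 * (K / N) * (S1 j).card * (S2 j).card ≤
        C1 * (K / N) * (C2 * (2 * B) / (e1 * L)) * (C2 * (2 * N ^ 2 / B) / (e1 * L)) := by
      gcongr
    have d2 : C1 * (K / N) * (C2 * (2 * B) / (e1 * L)) * (C2 * (2 * N ^ 2 / B) / (e1 * L)) =
        4 * C1 * C2 ^ 2 * (K * N / (e1 * L) ^ 2) := by
      field_simp
      ring
    have d3 : K * N / L ^ 4 ≤ K * N / (e1 * L) ^ 2 := by
      refine div_le_div_of_nonneg_left (by positivity) (by positivity) ?_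
      rw [show L ^ 4 = (L * L) ^ 2 by ring]
      gcongr
      linarith
    linarith
  have hJ : (J.card : ℝ) ≤ 5 * (eg * L) := by
    have h1 : J.card ≤ ⌊4 * (eg * L)⌋₊ + 1 := (card_filter_le _ _).trans (card_range _).le
    have h2 := Nat.floor_le (show 0 ≤ 4 * (eg * L) by positivity)
    have h3 : (J.card : ℝ) ≤ ⌊4 * (eg * L)⌋₊ + 1 := by exact_mod_cast h1
    linarith
  calc ∑ k ∈ Icc 1 K, |bil X1 X2 φ ψ (dd W k)|
      ≤ ∑ k ∈ Icc 1 K, ∑ j ∈ J, ∑ b ∈ S1 j, ∑ a ∈ S2 j, |dd W k (a * b)| :=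
        sum_le_sum fun k _ => hcov k
    _ ≤ J.card * ((4 * C1 * C2 ^ 2 + 1) * (K * N / (e1 * L) ^ 2)) := by
        rw [sum_comm, ← nsmul_eq_mul]
        exact sum_le_card_nsmul _ _ _ hbox
    _ ≤ 5 * (eg * L) * ((4 * C1 * C2 ^ 2 + 1) * (K * N / (e1 * L) ^ 2)) := by gcongr
    _ = _ := by
        field_simp
        ring

end Pool.Agent.P.MP_8be758_nt.Av3
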