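import Pool.Agent.P.MP_8be758_nt.Av3.BasB

/-! The step `S_HARM`. -/

namespace Pool.Agent.P.MP_8be758_nt.Av3

open Finset Real Filter Topology
open Pool.Agent.P.MP_e86632_nt (ee)
open Pool.Agent.P.MP_8be758_nt.Avg Pool.Agent.P.MP_8be758_nt.Av2

theorem harm_H {a b : ℝ} (ha : 0 < a) (h : a ≤ b) :
    |∑ t ∈ Ioc ⌊a⌋₊ ⌊b⌋₊, 1 / (t : ℝ) - Real.log (b / a)| ≤ 2 / a := by
  have h1 := abs_le.1 (svs_H ha h)
  have h2 : ∑ t ∈ Ioc ⌊a⌋₊ ⌊b⌋₊, 1 / (t : ℝ) ≤ ∑ t ∈ Icc ⌈a⌉₊ ⌊b⌋₊, 1 / (t : ℝ) :=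
    sum_le_sum_of_subset_of_nonneg (fun t ht => mem_Icc.2
      ⟨(Nat.ceil_le_floor_add_one a).trans (mem_Ioc.1 ht).1, (mem_Ioc.1 ht).2⟩)
      fun _ _ _ => by positivity
  have h3 : ∑ t ∈ Icc ⌈a⌉₊ ⌊b⌋₊, 1 / (t : ℝ) ≤
      ∑ t ∈ Ioc ⌊a⌋₊ ⌊b⌋₊, 1 / (t : ℝ) + ∑ t ∈ {⌈a⌉₊}, 1 / (t : ℝ) := by
    rw [← sum_union_inter]
    refine le_add_of_le_of_nonneg (sum_le_sum_of_subset_of_nonneg (fun t ht => ?_)
      fun _ _ _ => by positivity) (sum_nonneg fun _ _ => by positivity)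
    have := Nat.floor_le_ceil a
    rw [mem_Icc] at ht
    rw [mem_union, mem_Ioc, mem_singleton]
    omega
  have h4 : 1 / (⌈a⌉₊ : ℝ) ≤ 1 / a := one_div_le_one_div_of_le ha (Nat.le_ceil a)
  have h5 : 2 / a = 1 / a + 1 / a := by ring
  have h6 : 0 ≤ 1 / a := by positivity
  rw [sum_singleton] at h3
  rw [abs_le]
  constructor <;> linarith [h1.1, h1.2]

theorem harm_per {per : ℕ → ℝ} {Q : ℕ} (hQ : 1 ≤ Q) (h1 : ∀ u, |per u| ≤ 1)
    (h2 : ∀ u, per (u + Q) = per u) (x x' : ℕ) :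
    |∑ u ∈ Ioc x x', (per u - (∑ r ∈ range Q, per r) / Q)| ≤ 2 * Q := by
  rcases le_or_gt x x' with h | h
  · have h3 := lib_PS.1 per Q (x + 1) (x' + 1) hQ (by omega) h2
    have h4 : ∑ n ∈ range Q, |per n| ≤ Q := by
      simpa using sum_le_card_nsmul (range Q) (fun n => |per n|) 1 fun n _ => h1 n
    have e : Ico (x + 1) (x' + 1) = Ioc x x' := by
      ext t; rw [mem_Ico, mem_Ioc]; omega
    rw [e] at h3
    rw [sum_sub_distrib, sum_const, Nat.card_Ioc, nsmul_eq_mul, Nat.cast_sub h]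
    refine le_trans (le_of_eq ?_) (h3.trans (by linarith))
    congr 1
    push_cast
    ring
  · rw [Ioc_eq_empty (by omega), sum_empty, abs_zero]
    positivity

theorem t_HARM (hLAYC : S_LAYC) : S_HARM := by
  intro per Q a b hQ h1 h2 ha hab
  have hQ' : (1 : ℝ) ≤ Q := by exact_mod_cast hQ
  set m : ℝ := (∑ r ∈ range Q, per r) / Q with hm
  have hm1 : |m| ≤ 1 := by
    rw [hm, abs_div, Nat.abs_cast, div_le_one (by linarith)]
    refine (abs_sum_le_sum_abs _ _).trans ?_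
    simpa using sum_le_card_nsmul (range Q) (fun n => |per n|) 1 fun n _ => h1 n
  have h3 := hLAYC ⌊a⌋₊ ⌊b⌋₊ (fun u => per u - m) _ _ (um_exp zero_le_one (Real.log a))
    fun x x' _ _ => harm_per hQ h1 h2 x x'
  have e : ∑ u ∈ Ioc ⌊a⌋₊ ⌊b⌋₊, per u / u - m * Real.log (b / a) =
      1 / a * ∑ u ∈ Ioc ⌊a⌋₊ ⌊b⌋₊, min 1 (Real.exp (1 * (Real.log a - Real.log u))) * (per u - m) +
        m * (∑ t ∈ Ioc ⌊a⌋₊ ⌊b⌋₊, 1 / (t : ℝ) - Real.log (b / a)) := by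
    rw [mul_sub, ← add_sub_assoc, mul_sum, mul_sum, ← sum_add_distrib]
    refine congrArg (· - _) (sum_congr rfl fun u hu => ?_)
    have h4 : a < u := (Nat.floor_lt ha.le).1 (mem_Ioc.1 hu).1
    have h5 : (0 : ℝ) < u := ha.trans h4
    rw [one_mul, Real.exp_sub, Real.exp_log ha, Real.exp_log h5,
      min_eq_right ((div_le_one h5).2 h4.le)]
    field_simp
    ring
  rw [e]
  refine (abs_add_le _ _).trans ?_
  rw [abs_mul, abs_mul, abs_of_pos (one_div_pos.2 ha)]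
  have h6 := mul_le_mul hm1 (harm_H ha hab) (abs_nonneg _) zero_le_one
  have h7 := mul_le_mul_of_nonneg_left h3 (one_div_pos.2 ha).le
  have h8 : 1 / a * (2 * Q) + 1 * (2 / a) ≤ 4 * Q / a := by
    rw [show 1 / a * (2 * Q) + 1 * (2 / a) = (2 * Q + 2) / a by ring]
    exact div_le_div_of_nonneg_right (by linarith) ha.le
  linarith

end Pool.Agent.P.MP_8be758_nt.Av3
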