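import Pool.Agent.P.MP_8be758_nt.Av3.Basic
import Pool.Agent.P.MP_8be758_nt.Av2.HBI

/-! The step `S_HBIb`. -/

namespace Pool.Agent.P.MP_8be758_nt.Av3

open Finset Real Filter Topology
open Pool.Agent.P.MP_e86632_nt (ee)
open Pool.Agent.P.MP_8be758_nt.Avg Pool.Agent.P.MP_8be758_nt.Av2
open ArithmeticFunction (moebius vonMangoldt zeta)

theorem t_HBIb : S_HBIb := by
  intro N y m hN hm
  set M := rs 0 y (moebius : ArithmeticFunction ℝ) with hM
  set c : ℝ := 1 / (3 * Real.log N) with hc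
  have h1 : lg N = (c • vonMangoldt) * ze := by
    rw [smul_mul_assoc, hbi_ze, ArithmeticFunction.vonMangoldt_mul_zeta]
    ext n
    rw [lg_apply, ArithmeticFunction.smul_map, ArithmeticFunction.log_apply, hc, smul_eq_mul]
    ring
  have h2 : (((1 - M * ze) ^ 12) * (c • vonMangoldt) : ArithmeticFunction ℝ) m = 0 := by
    rw [ArithmeticFunction.mul_apply]
    refine sum_eq_zero fun p hp => ?_
    rw [hbi_pow (hbi_F y) 11 _
      ((Nat.divisor_le (Nat.fst_mem_divisors_of_mem_antidiagonal hp)).trans hm), zero_mul]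
  let E : ArithmeticFunction ℝ →+ ℝ := ⟨⟨fun f => f m, rfl⟩, fun _ _ => rfl⟩
  have h3 : c • vonMangoldt + (66 • (M ^ 2 * ze ^ 1 * lg N) +
        495 • (M ^ 4 * ze ^ 3 * lg N) +
        924 • (M ^ 6 * ze ^ 5 * lg N) +
        495 • (M ^ 8 * ze ^ 7 * lg N) +
        66 • (M ^ 10 * ze ^ 9 * lg N) +
        1 • (M ^ 12 * ze ^ 11 * lg N)) =
      ((1 - M * ze) ^ 12) * (c • vonMangoldt) + (12 • (M ^ 1 * ze ^ 0 * lg N) +
        220 • (M ^ 3 * ze ^ 2 * lg N) +
        792 • (M ^ 5 * ze ^ 4 * lg N) +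
        792 • (M ^ 7 * ze ^ 6 * lg N) +
        220 • (M ^ 9 * ze ^ 8 * lg N) +
        12 • (M ^ 11 * ze ^ 10 * lg N)) := by
    rw [h1]
    simp only [nsmul_eq_mul]
    push_cast
    ring
  have h4 := congrArg E h3
  simp only [map_add, map_nsmul] at h4
  simp only [nsmul_eq_mul, Nat.cast_ofNat, Nat.cast_one] at h4
  have h5 : E ((1 - M * ze) ^ 12 * (c • vonMangoldt)) = 0 := h2
  have h6 : E (c • vonMangoldt) = vonMangoldt m / (3 * Real.log N) := by
    change c * vonMangoldt m = _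
    rw [hc]; ring
  rw [h5, h6] at h4
  change _ = ∑ j ∈ range 12,
    (-1) ^ j * (Nat.choose 12 (j + 1) : ℝ) * E (M ^ (j + 1) * ze ^ j * lg N)
  simp only [sum_range_succ, sum_range_zero, Nat.reduceAdd, Nat.choose, Nat.cast_ofNat,
    Nat.cast_one]
  linear_combination h4

end Pool.Agent.P.MP_8be758_nt.Av3
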