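import Pool.Agent.P.MP_8be758_nt.Av3.Basic

/-! The step `S_HBb`. -/

namespace Pool.Agent.P.MP_8be758_nt.Av3

open Finset Real Filter Topology
open Pool.Agent.P.MP_e86632_nt (ee)
open Pool.Agent.P.MP_8be758_nt.Avg Pool.Agent.P.MP_8be758_nt.Av2
open ArithmeticFunction (moebius vonMangoldt)

theorem hbb_sml {N : ℝ} (hN : 0 ≤ N) :
    Sm6 N (rs 0 ⌊2 * N ^ (1 / 6 : ℝ)⌋₊ (moebius : ArithmeticFunction ℝ)) := by
  refine ⟨fun n => ?_, fun n hn => ?_⟩
  · rw [rs_apply]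
    split_ifs
    · rw [ArithmeticFunction.intCoe_apply]
      exact_mod_cast ArithmeticFunction.abs_moebius_le_one
    · simp
  · rw [rs_apply] at hn
    split_ifs at hn with h
    · exact (Nat.le_floor_iff (by positivity)).1 h.2
    · exact absurd rfl hn

theorem hbb_pow {N : ℝ} (hN : 0 < N) (h : 2 ≤ N ^ (1 / 6 : ℝ)) :
    6 / 5 * N ^ 2 ≤ (⌊2 * N ^ (1 / 6 : ℝ)⌋₊ : ℝ) ^ 12 := by
  have h1 := Nat.lt_floor_add_one (2 * N ^ (1 / 6 : ℝ))
  have h2 : (N ^ (1 / 6 : ℝ)) ^ 12 = N ^ 2 := by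
    rw [← Real.rpow_mul_natCast hN.le]; norm_num
  calc 6 / 5 * N ^ 2 ≤ (3 / 2 * N ^ (1 / 6 : ℝ)) ^ 12 := by
        rw [mul_pow, h2]; nlinarith [sq_nonneg N]
    _ ≤ _ := by gcongr; linarith

theorem t_HBb (hHBIb : S_HBIb) (θ : ℝ) (hPR1 : S_PR1b θ) : S_HB θ (119 / 100) := by
  intro ε hε
  obtain ⟨e0, he0, h⟩ := hPR1 (ε / 4095) (by positivity)
  refine ⟨e0, he0, fun e1 he1 h1e => ?_⟩
  obtain ⟨C, R1, h⟩ := h e1 he1 h1e
  refine ⟨4095 * C, R1, fun R hR => ?_⟩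
  filter_upwards [h R hR, eventually_gt_atTop 1, ev_const 2 (show (0 : ℝ) < 1 / 6 by norm_num)]
    with N h hN h2 K X1 X2 hst
  have hN0 : 0 < N := by linarith
  have key := good_sum (range 12) fun j hj => (h K X1 X2 _ (Fin.append
    (fun _ : Fin (j + 1) => rs 0 ⌊2 * N ^ (1 / 6 : ℝ)⌋₊ (moebius : ArithmeticFunction ℝ))
    (Fin.cons (lg N) (fun _ : Fin j => ze) : Fin (j + 1) → _)) hst
    (by have := mem_range.1 hj; omega) fun i => by
      refine Fin.addCases (fun i => ?_) (fun i => ?_) i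
      · rw [Fin.append_left]; exact Or.inl (hbb_sml hN0.le)
      · rw [Fin.append_right]
        refine Fin.cases (Or.inr (Or.inr rfl)) (fun i => Or.inr (Or.inl rfl)) i).smul
    ((-1) ^ j * (Nat.choose 12 (j + 1) : ℝ))
  simp only [hb_prod, ← sum_mul] at key
  have e : ∑ j ∈ range 12, |(-1) ^ j * (Nat.choose 12 (j + 1) : ℝ)| = 4095 := by
    simp only [abs_mul, abs_pow, abs_neg, abs_one, one_pow, one_mul, Nat.abs_cast]
    norm_num [sum_range_succ, Nat.choose]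
  rw [e] at key
  refine (key.congr fun m _ hm _ => (hHBIb N _ m hN ?_).symm).mono hN.le le_rfl (by linarith)
  have a : (m : ℝ) ≤ X2 := by exact_mod_cast hm
  exact_mod_cast (a.trans hst.x2).trans (hbb_pow hN0 h2)

end Pool.Agent.P.MP_8be758_nt.Av3
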