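import Pool.Agent.P.MP_8be758_nt.Av3.Basic

/-! The step `S_HYPb`. -/

namespace Pool.Agent.P.MP_8be758_nt.Av3

open Finset Real Filter Topology
open Pool.Agent.P.MP_e86632_nt (ee)
open Pool.Agent.P.MP_8be758_nt.Avg Pool.Agent.P.MP_8be758_nt.Av2

theorem t_HYPb (hUPDb : S_UPDb) : S_HYPb := by
  intro e1 he0 he1 ε hε
  obtain ⟨Cu, hCu, hUPD⟩ := hUPDb
  obtain ⟨Cr, hCr, hRC⟩ := lib_RC
  have hNSQ := lib_NSQ
  obtain ⟨η, hη0, hη1, hη⟩ : ∃ η : ℝ, 0 < η ∧ η ≤ 1 ∧ 27 * Cu * Cr ^ 2 * η ≤ ε * e1 ^ 2 := by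
    refine ⟨min 1 (ε * e1 ^ 2 / (27 * Cu * Cr ^ 2)), by positivity, min_le_left _ _, ?_⟩
    rw [mul_comm, ← le_div_iff₀ (by positivity)]
    exact min_le_right _ _
  refine ⟨η / 3, by positivity, fun W hW => ?_⟩
  filter_upwards [hUPD W hW, eventually_ge_atTop 25, ev_const 2 he0, ev_log 1,
    ev_pow (1 / η) 0 (show (1 / 2 : ℝ) < 13 / 20 by norm_num),
    ev_pow (72 * Cu / (ε * η)) 2 he0,
    ev_pow (18 / (ε * η)) 2 (show (49 / 50 : ℝ) < 1 by norm_num)]
    with N HU hN hz2 hL1 hy hz hw K X1 X2 y y' M φ m ψ hK hX1 hX12 hX2 hyy hy' hM0 hm hφ hφ' hψ HB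
  have hN0 : 0 < N := by linarith
  have hN1 : 1 ≤ N := by linarith
  set L := Real.log N with hLdef
  have hL0 : 0 < L := by linarith
  have hz0 : 0 < N ^ e1 := Real.rpow_pos_of_pos hN0 _
  have hy1 : 1 ≤ N ^ (13 / 20 : ℝ) := Real.one_le_rpow hN1 (by norm_num)
  have hlz : Real.log (N ^ e1) = e1 * L := Real.log_rpow hN0 _
  have hz5 : (N ^ e1) ^ 5 ≤ η * N ^ (13 / 20 : ℝ) := by
    rw [pow_zero, mul_one, one_div_mul_eq_div, div_le_iff₀ hη0, mul_comm] at hy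
    refine le_trans ?_ hy
    rw [← Real.rpow_natCast, ← Real.rpow_mul hN0.le]
    exact Real.rpow_le_rpow_of_exponent_le hN1 (by push_cast; linarith)
  have hup : N ≤ N ^ (27 / 20 : ℝ) := by
    simpa using Real.rpow_le_rpow_of_exponent_le hN1 (show (1 : ℝ) ≤ 27 / 20 by norm_num)
  have hKN : 0 ≤ (K : ℝ) * N := by positivity
  set M0 := ε * η / 3 * (K * N) / L ^ 2 with hM
  have hM1 : 0 ≤ M0 := by positivity
  have key : ∀ B : ℝ, y ≤ B → ∑ k ∈ Icc 1 K,
      |∑ b ∈ (Icc 1 X2).filter (fun b : ℕ => B < b ∧ (b : ℝ) ≤ B * (1 + η)),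
        ∑ a ∈ half_P X1 X2 b, φ b * ψ B a * dd W k (a * b)| ≤
      ∑ b ∈ (Icc 1 X2).filter (fun b : ℕ => B < b ∧ (b : ℝ) ≤ B * (1 + η)), m b + (M + M0) := by
    intro B hB1
    rcases le_or_gt B y' with hB2 | hB2
    · refine (hyp_box (Cr := Cr / (e1 * L)) hX1 hX12 hX2 hφ (hψ B) hN hη0 hη1 hCu.le (by linarith)
        (hB2.trans hy') (hz5.trans (by gcongr; linarith))
        (fun A1 A2 S hS' hS => (HB B A1 A2 S hB1 hB2 hS').trans (add_le_add_left
          (sum_le_sum_of_subset_of_nonneg hS fun b _ _ => hm b) M))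
        (fun S1 S2 => HU K B S1 S2 hK (hyy.trans hB1) (hB2.trans (hy'.trans hup)))
        (fun x H S h1 h2 => by
          rw [div_mul_eq_mul_div, ← hlz]
          exact hRC _ x H S hz2 h1 h2)
        fun S h1 => (hNSQ _ _ S hz2 (by linarith) h1).1).trans ?_
      have t2 : 2 * (N ^ (49 / 50 : ℝ) * L ^ 2 / N) ≤ ε * η / 9 := by
        rw [Real.rpow_one, mul_assoc, div_mul_eq_mul_div, div_le_iff₀ (by positivity)] at hw
        rw [← mul_div_assoc, div_le_iff₀ hN0]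
        linarith
      have t3 : Cu * (3 * Cr ^ 2 * η ^ 2 / e1 ^ 2) ≤ ε * η / 9 := by
        rw [← mul_div_assoc, div_le_iff₀ (by positivity)]
        nlinarith
      have t4 : Cu * (8 * L ^ 2 / N ^ e1) ≤ ε * η / 9 := by
        rw [Real.rpow_zero, mul_one, div_mul_eq_mul_div, div_le_iff₀ (by positivity)] at hz
        rw [← mul_div_assoc, div_le_iff₀ hz0]
        linarith
      have t5 : 2 * (K * N ^ (49 / 50 : ℝ)) +
          Cu * K * N * (3 * (Cr / (e1 * L)) ^ 2 * η ^ 2 + 8 / N ^ e1) ≤ M0 :=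
        calc _ = (2 * (N ^ (49 / 50 : ℝ) * L ^ 2 / N) + Cu * (3 * Cr ^ 2 * η ^ 2 / e1 ^ 2) +
              Cu * (8 * L ^ 2 / N ^ e1)) * (K * N) / L ^ 2 := by
              field_simp
              ring
          _ ≤ M0 := by
              rw [hM]
              gcongr
              linarith
      linarith
    · rw [sum_eq_zero fun k _ => ?_]
      · exact add_nonneg (sum_nonneg fun b _ => hm b) (by linarith)
      rw [sum_eq_zero fun b hb => ?_, abs_zero]
      have : φ b = 0 := by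
        by_contra h0
        linarith [hφ' b h0, (mem_filter.1 hb).2.1]
      simp [this]
  obtain ⟨Bf, hBf⟩ := hyp_Bf (y := y) (lam := 1 + η) (by linarith) (by linarith)
  refine ⟨Bf, ?_⟩
  have hj := hyp_cover (Icc 1 K) (Icc 1 X2)
    (fun k b => ∑ a ∈ half_P X1 X2 b, φ b * ψ (Bf b) a * dd W k (a * b)) m
    (y := y) (lam := 1 + η) (M := M + M0) (by linarith) (by linarith)
    (fun j => le_trans (le_of_eq (sum_congr rfl fun k _ => congrArg _ (sum_congr rfl fun b hb => by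
        rw [hBf j b (mem_filter.1 hb).2.1 (mem_filter.1 hb).2.2])))
      (key _ (le_mul_of_one_le_right (by linarith) (one_le_pow₀ (by linarith)))))
    ⌈2 * L / η⌉₊
  have hpw := half_pow hη0 hη1 hN0 (Nat.le_ceil (2 * L / η))
  have e : ∀ k, ∑ b ∈ Icc 1 X2, ∑ a ∈ half_P X1 X2 b, φ b * ψ (Bf b) a * dd W k (a * b) =
      ∑ b ∈ (Icc 1 X2).filter (fun b : ℕ => y < b ∧ (b : ℝ) ≤ y * (1 + η) ^ ⌈2 * L / η⌉₊),
        ∑ a ∈ half_P X1 X2 b, φ b * ψ (Bf b) a * dd W k (a * b) := fun k => by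
    refine (sum_filter_of_ne fun b _ hb => ?_).symm
    have h0 : φ b ≠ 0 := fun h0 => hb (by simp [h0])
    refine ⟨(hφ.2 b h0).2, (hφ' b h0).trans (hy'.trans (hpw.trans ?_))⟩
    exact le_mul_of_one_le_left (by positivity) (by linarith)
  simp only [e]
  refine hj.trans ?_
  have hc : (⌈2 * L / η⌉₊ : ℝ) ≤ 3 * L / η := by
    have h1 := (Nat.ceil_lt_add_one (show 0 ≤ 2 * L / η by positivity)).le
    have h2 : 1 ≤ L / η := by rw [le_div_iff₀ hη0]; linarith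
    have h3 : 3 * L / η = 2 * L / η + L / η := by ring
    linarith
  rw [add_assoc]
  refine add_le_add (sum_le_sum_of_subset_of_nonneg (filter_subset _ _) fun b _ _ => hm b) ?_
  calc (⌈2 * L / η⌉₊ : ℝ) * (M + M0) ≤ 3 * L / η * (M + M0) := by gcongr
    _ = _ := by rw [hM]; field_simp

end Pool.Agent.P.MP_8be758_nt.Av3
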