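import Pool.Agent.P.MP_8be758_nt.Av3.Basic

/-! The step `S_IIIb`. -/

namespace Pool.Agent.P.MP_8be758_nt.Av3

open Finset Real Filter Topology
open Pool.Agent.P.MP_e86632_nt (ee)
open Pool.Agent.P.MP_8be758_nt.Avg Pool.Agent.P.MP_8be758_nt.Av2

theorem t_IIIb (hHYPb : S_HYPb) (θ : ℝ) (hθ : 7 / 10 ≤ θ) (hB : S_BOXb θ)
    (hR : S_RGb θ (119 / 100)) : S_IIIb θ := by
  intro j ε hε
  obtain ⟨e0, he0, hB⟩ := hB j ε hε
  refine ⟨min e0 (1 / 10), by positivity, fun e1 he1 he ε' hε' => ?_⟩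
  have he2 := he.trans (min_le_right _ _)
  obtain ⟨t, htd⟩ : ∃ t : ℝ, t = 2 ^ ⌈3 / e1⌉₊ := ⟨_, rfl⟩
  have ht : 0 < t := by rw [htd]; positivity
  obtain ⟨R1, hR⟩ := hR e1 he1 he2 (ε' / 3) (by positivity)
  obtain ⟨η, hη, hH⟩ := hHYPb e1 he1 he2 (ε' / (3 * t)) (by positivity)
  refine ⟨R1, fun R hR1 => ?_⟩
  filter_upwards [hR R hR1,
    hH _ (Nat.factorial_pos R), hB e1 he1 (he.trans (min_le_left _ _)) _ (Nat.factorial_pos R),
    eventually_ge_atTop 2, ev_const 2 he1, ev_log (3 / (η * ε')),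
    bx_ev2 (25 / 24) (show (118 / 100 : ℝ) < 2 by norm_num)] with N hR hH hB hN hz hL hE
  intro K X1 X2 U1 U2 V1 V2 y β hS hy1 hy2 hβ hβ' hU hV hU'
  have hN1 : 1 ≤ N := by linarith
  have hN0 : 0 < N := by linarith
  have hL0 : 0 < Real.log N := Real.log_pos (by linarith)
  have pw : ∀ {a b : ℝ}, a ≤ b → N ^ a ≤ N ^ b := Real.rpow_le_rpow_of_exponent_le hN1
  have hy0 : 0 < y := lt_of_lt_of_le (by positivity) hy1
  rw [Real.rpow_two] at hE
  obtain ⟨x, hx⟩ : ∃ x : ℝ, x * y = N ^ (101 / 100 : ℝ) := ⟨_, div_mul_cancel₀ _ hy0.ne'⟩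
  have hx1 : N ^ (1 / 10 : ℝ) ≤ x := by
    refine le_of_mul_le_mul_right ?_ hy0
    rw [hx]
    refine (mul_le_mul_of_nonneg_left hy2 (by positivity)).trans ?_
    rw [← Real.rpow_add hN0]
    exact pw (by norm_num)
  have hx0 : 0 < x := lt_of_lt_of_le (by positivity) hx1
  have h65 : 6 / 5 * N ^ 2 ≤ N ^ 3 := by nlinarith [sq_nonneg N]
  have hT : ∀ a : ℕ, (a : ℝ) ≤ N ^ 3 → Rough (N ^ e1) a → (a.divisors.card : ℝ) ≤ t :=
    fun a ha hr => by
      have := lib_TAU (N ^ e1) ⌈3 / e1⌉₊ a (by linarith) hr (ha.trans (by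
        rw [bx_pw hN0, ← Real.rpow_natCast]
        refine pw ?_
        have := (div_le_iff₀ he1).1 (Nat.le_ceil (3 / e1))
        push_cast
        linarith))
      rw [htd]
      exact_mod_cast this
  have bR := fun a ha => iii_R U1 U2 V1 V2 ht.le (hT a ha)
  have zR : ∀ a, ¬ Rough (N ^ e1) a → tauR (N ^ e1) U1 U2 V1 V2 a = 0 := fun a h => if_neg h
  have hms := ms_nonneg (N ^ (10 / 11 : ℝ)) (N ^ e1) β
  have mP : ∀ b, ∀ a ∈ half_P X1 X2 b, (0 : ℝ) < a ∧ (a : ℝ) ≤ N ^ 3 :=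
    fun b a ha => by
      rw [half_P, mem_filter, mem_Icc] at ha
      exact ⟨by exact_mod_cast ha.1.1, le_trans (by exact_mod_cast ha.1.2) (hS.x2.trans h65)⟩
  rcases lt_or_ge V2 V1 with hV' | hV'
  · have h0 : ∀ a, tauR (N ^ e1) U1 U2 V1 V2 a = 0 := fun a => by
      unfold tauR tauG
      rw [filter_false_of_mem fun p _ => by omega]
      simp
    simp only [bil, h0, mul_zero, zero_mul, sum_const_zero, abs_zero]
    positivity
  have hK' : N ^ (7 / 10 : ℝ) ≤ K := (pw hθ).trans hS.lo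
  obtain ⟨Bf, h1⟩ := hH K X1 X2 y (min (y * N ^ (1 / 50 : ℝ)) (N ^ (10 / 11 : ℝ)))
    (K * N / (Real.log N ^ 3 * t)) β
    (fun b => ε * e1 ^ j * (|β b| / b) * (K * N / (Real.log N * t)))
    (fun B a => if (0 : ℝ) < a ∧ (a : ℝ) ≤ N ^ 3 then t⁻¹ * (tauR (N ^ e1) U1 U2 V1 V2 a -
      tauJ (N ^ e1) x (x * lamB N B U1 U2 V1 V2) a) else 0)
    hK' hS.x1 hS.x12 hS.x2 ((pw (by norm_num)).trans hy1)
    ((min_le_right _ _).trans ((pw (b := 1) (by norm_num)).trans_eq (Real.rpow_one N)))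
    (by positivity) (fun b => by positivity) hβ (fun b hb => le_min (hβ' b hb).2.1 (hβ' b hb).2.2)
    (fun B => iii_coef ht (fun a ha => by
      have p := bR a ha
      have q := iii_J x (x * lamB N B U1 U2 V1 V2) ht.le (hT a ha)
      exact abs_le.2 ⟨by linarith, by linarith⟩) fun a h => by
        rw [zR a h, tauJ, if_neg h, sub_self])
    fun B A1 A2 S b1 b2 hX => by
      have b3 : 1 ≤ B := ((Real.one_le_rpow hN1 (by norm_num)).trans hy1).trans b1
      have b4 : x * N ^ (3 / 20 : ℝ) ≤ A1 := by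
        refine le_of_mul_le_mul_right (le_trans ?_ hX.a1) (show 0 < B by linarith)
        have b5 : x * N ^ (3 / 20 : ℝ) * B ≤ x * N ^ (3 / 20 : ℝ) * (y * N ^ (1 / 50 : ℝ)) :=
          mul_le_mul_of_nonneg_left (b2.trans (min_le_left _ _)) (by positivity)
        rw [mul_mul_mul_comm, hx, ← Real.rpow_add hN0, ← Real.rpow_add hN0,
          show (101 / 100 + (3 / 20 + 1 / 50) : ℝ) = 118 / 100 by norm_num] at b5
        linarith
      have h2 := hB K A1 A2 U1 U2 V1 V2 B x S β ⟨hS.lo, setup_hi hS, hy1.trans b1,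
        b2.trans (min_le_right _ _), fun b hb =>
        ⟨(hX.s b hb).1.le, (hX.s b hb).2.1, (hX.s b hb).2.2.1, (hX.s b hb).2.2.2.odd hz⟩, hβ.1⟩
        hX.a1 hX.a3 hU hV hV' hU' hx1 b4
      rw [tb_congr (fun _ _ => rfl) fun a ha => if_pos ⟨by
          exact_mod_cast (Nat.zero_le _).trans_lt (mem_Ioc.1 ha).1, by
          have h3 : (a : ℝ) ≤ A2 := by exact_mod_cast (mem_Ioc.1 ha).2
          nlinarith [hX.a3, Nat.cast_nonneg (α := ℝ) A2]⟩, tb_smul, abs_of_pos (inv_pos.2 ht)]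
      refine (mul_le_mul_of_nonneg_left h2 (inv_pos.2 ht).le).trans_eq ?_
      rw [← sum_mul, ← mul_sum]
      field_simp
  have hr : ∀ b, lamB N (Bf b) U1 U2 V1 V2 ≤ N ^ (1 / 20 : ℝ) := fun b => by
    have u0 : (0 : ℝ) < U1 := lt_of_lt_of_le (by positivity) hU
    have u1 : (U1 : ℝ) ≤ loB N (Bf b) U1 V2 := le_max_left _ _
    refine max_le (Real.one_le_rpow hN1 (by norm_num)) ?_
    rw [div_le_iff₀' (u0.trans_le u1)]
    exact (min_le_left _ _).trans (hU'.trans (by gcongr))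
  have h2 := hR K X1 X2 (fun b u => β b * if Rough (N ^ e1) u ∧ x < u ∧
      (u : ℝ) ≤ x * lamB N (Bf b) U1 U2 V1 V2 then 1 else 0)
    (fun v => if Rough (N ^ e1) v ∧ v ≠ 0 then 1 else 0) hS
    (fun b u => by
      split_ifs
      · rw [mul_one]; exact hβ.1 b
      · simp)
    (fun b u h => by
      have hb := left_ne_zero_of_mul h
      have hu := right_ne_zero_of_mul h
      split_ifs at hu with c
      swap
      · exact absurd rfl hu
      obtain ⟨s1, s2, -⟩ := hβ' b hb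
      refine ⟨rough_mul.2 ⟨(hβ.2 b hb).1, c.1⟩, ?_, ?_⟩
      · push_cast
        refine lt_of_le_of_lt (pw (b := 101 / 100) (by norm_num)) ?_
        rw [← hx, mul_comm]
        exact mul_lt_mul'' s1 c.2.1 hy0.le hx0.le
      · push_cast
        have s3 : (u : ℝ) ≤ x * N ^ (1 / 20 : ℝ) :=
          c.2.2.trans (mul_le_mul_of_nonneg_left (hr b) hx0.le)
        refine (mul_le_mul s2 s3 (Nat.cast_nonneg _) (by positivity)).trans ?_
        rw [mul_mul_mul_comm, mul_comm y, hx, ← Real.rpow_add hN0, ← Real.rpow_add hN0]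
        exact pw (by norm_num))
    ⟨fun v => by dsimp only; split_ifs <;> simp, fun v h => by
      dsimp only at h
      split_ifs at h with c
      · exact ⟨c.1, by exact_mod_cast Nat.pos_of_ne_zero c.2⟩
      · exact absurd rfl h⟩
  have e2 : ∀ b a : ℕ, ∑ p ∈ a.divisorsAntidiagonal, (β b * if Rough (N ^ e1) p.1 ∧ x < p.1 ∧
      (p.1 : ℝ) ≤ x * lamB N (Bf b) U1 U2 V1 V2 then 1 else 0) *
      (if Rough (N ^ e1) p.2 ∧ p.2 ≠ 0 then 1 else 0) =
      β b * tauJ (N ^ e1) x (x * lamB N (Bf b) U1 U2 V1 V2) a := fun b a => by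
    rw [rg_tau]
    refine sum_congr rfl fun p hp => ?_
    have := (Nat.ne_zero_of_mem_divisorsAntidiagonal hp).2
    simp only [ne_eq, this, not_false_eq_true, and_true]
  simp only [e2] at h2
  refine (iii_split ht.le fun b _ a ha => ?_).trans
    ((add_le_add (mul_le_mul_of_nonneg_left h1 ht.le) h2).trans ?_)
  · rw [if_pos ⟨(mP b a ha).1, (mP b a ha).2⟩, mul_inv_cancel_left₀ ht.ne', sub_add_cancel]
  have h3 : ∑ b ∈ Icc 1 X2, |β b| / b ≤ ms (N ^ (10 / 11 : ℝ)) (N ^ e1) β := by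
    rw [← sum_filter_of_ne (p := fun b => β b ≠ 0) fun b _ h c => h (by simp [c])]
    refine sum_le_sum_of_subset_of_nonneg (fun b hb => ?_) fun _ _ _ => by positivity
    rw [mem_filter, mem_Icc] at hb
    exact (mem_Ry (by positivity)).2 ⟨hb.1.1, (hβ' b hb.2).2.2, (hβ.2 b hb.2).1⟩
  have h4 : 1 / (η * Real.log N) ≤ ε' / 3 := by
    rw [div_le_iff₀ (by positivity)] at hL
    rw [div_le_div_iff₀ (by positivity) (by norm_num)]
    linarith
  rw [← sum_mul, ← mul_sum]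
  calc _ = (ε * e1 ^ j * ∑ b ∈ Icc 1 X2, |β b| / b + (1 / (η * Real.log N) + 2 * (ε' / 3))) *
        K * N / Real.log N := by field_simp; ring
    _ ≤ _ := by gcongr; linarith

end Pool.Agent.P.MP_8be758_nt.Av3
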