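import Pool.Agent.P.MP_8be758_nt.Av3.BasB

/-! The step `S_IV`. -/

namespace Pool.Agent.P.MP_8be758_nt.Av3

open Finset Real Filter Topology
open Pool.Agent.P.MP_e86632_nt (ee)
open Pool.Agent.P.MP_8be758_nt.Avg Pool.Agent.P.MP_8be758_nt.Av2

/-- bounded up to `Y` and supported on rough numbers -/
def iv_RB (z Y s : ℝ) (f : ℕ → ℝ) : Prop :=
  (∀ u : ℕ, (u : ℝ) ≤ Y → |f u| ≤ s) ∧ ∀ u, f u ≠ 0 → Rough z u

theorem iv_cv {z Y t s s' : ℝ} {f g : ℕ → ℝ} (ht : 0 ≤ t) (hs : 0 ≤ s) (hs' : 0 ≤ s')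
    (hT : ∀ a : ℕ, (a : ℝ) ≤ Y → Rough z a → (a.divisors.card : ℝ) ≤ t)
    (hf : iv_RB z Y s f) (hg : iv_RB z Y s' g) : iv_RB z Y (t * (s * s')) (cv f g) := by
  have h2 : ∀ u, cv f g u ≠ 0 → Rough z u := fun u h => by
    obtain ⟨a, b, rfl, -, h1, h2⟩ := cv_ne_zero h
    exact rough_mul.2 ⟨hf.2 a h1, hg.2 b h2⟩
  refine ⟨fun u hu => ?_, h2⟩
  by_cases h0 : cv f g u = 0
  · rw [h0, abs_zero]; positivity
  refine (abs_cv_le (c := s * s') fun a b e h => ?_).trans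
    (mul_le_mul_of_nonneg_right (hT u hu (h2 u h0)) (by positivity))
  have k : ∀ d, d ∣ u → (d : ℝ) ≤ Y := fun d hd =>
    le_trans (by exact_mod_cast Nat.le_of_dvd (Nat.pos_of_ne_zero h) hd) hu
  exact mul_le_mul (hf.1 a (k a ⟨b, e.symm⟩)) (hg.1 b (k b ⟨a, by rw [← e, mul_comm]⟩))
    (abs_nonneg _) hs

theorem iv_cut1 (z x y : ℝ) (u : ℕ) : |cut x y (rI z) u| ≤ 1 :=
  (abs_cut_le _ _ _ _).trans (abs_le.2 ⟨by linarith [(rI_bd z u).1], (rI_bd z u).2⟩)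

theorem iv_cut (z Y x y : ℝ) : iv_RB z Y 1 (cut x y (rI z)) :=
  ⟨fun u _ => iv_cut1 z x y u, fun _ h => by_contra fun c => (cut_ne_zero h).2.2 (if_neg c)⟩

theorem iv_bd {z Y t : ℝ} (ht : 0 ≤ t)
    (hT : ∀ a : ℕ, (a : ℝ) ≤ Y → Rough z a → (a.divisors.card : ℝ) ≤ t) (x1 x2 w1 w2 ρ : ℝ) :
    iv_RB z Y (2 * t) (bd (rI z) (rI z) x1 x2 w1 w2 ρ) := by
  have h : ∀ a b c d, iv_RB z Y (t * (1 * 1)) (bx (rI z) (rI z) a b c d) := fun a b c d =>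
    iv_cv ht zero_le_one zero_le_one hT (iv_cut z Y a b) (iv_cut z Y c d)
  refine ⟨fun u hu => (abs_sub _ _).trans ?_, fun u hu => by_contra fun c => hu ?_⟩
  · linarith [(h x1 x2 w1 w2).1 u hu, (h (x1 / ρ) (x2 / ρ) (ρ * w1) (ρ * w2)).1 u hu]
  · rw [bd, by_contra fun e => c ((h x1 x2 w1 w2).2 u e),
      by_contra fun e => c ((h (x1 / ρ) (x2 / ρ) (ρ * w1) (ρ * w2)).2 u e), sub_self]

theorem iv_coef {z Y t : ℝ} {f : ℕ → ℝ} (ht : 0 < t) (h : iv_RB z Y t f) :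
    Coef z 0 fun a => if (0 : ℝ) < a ∧ (a : ℝ) ≤ Y then t⁻¹ * f a else 0 :=
  iii_coef ht h.1 fun a c => by_contra fun e => c (h.2 a e)

theorem iv_split {X1 X2 K : ℕ} {s t : ℝ} (hs : 0 ≤ s) (ht : 0 ≤ t) {β g : ℕ → ℝ}
    {ψ h f : ℕ → ℕ → ℝ}
    (e : ∀ b, ∀ a ∈ half_P X1 X2 b, β b * g a = s * (β b * ψ b a) + t * h b a) :
    ∑ k ∈ Icc 1 K, |bil X1 X2 β g (f k)| ≤
      s * ∑ k ∈ Icc 1 K, |∑ b ∈ Icc 1 X2, ∑ a ∈ half_P X1 X2 b, β b * ψ b a * f k (a * b)| +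
      t * ∑ k ∈ Icc 1 K, |∑ b ∈ Icc 1 X2, ∑ a ∈ half_P X1 X2 b, h b a * f k (a * b)| := by
  rw [mul_sum, mul_sum, ← sum_add_distrib]
  refine sum_le_sum fun k _ => ?_
  rw [← abs_of_nonneg ht, ← abs_of_nonneg hs, ← abs_mul, ← abs_mul]
  refine le_trans (le_of_eq (congrArg _ ?_)) (abs_add_le _ _)
  rw [half_bil, mul_sum, mul_sum, ← sum_add_distrib]
  refine sum_congr rfl fun b _ => ?_
  rw [mul_sum, mul_sum, ← sum_add_distrib]
  refine sum_congr rfl fun a ha => ?_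
  rw [e b a ha]; ring

theorem iv_P4 {θ N y0 B y1 y2 : ℝ} (h : P4 θ N y0 y1 y2) (hN : 0 < N) (hy : 0 < y0) (b1 : y0 ≤ B)
    (b2 : B ≤ N ^ (10 / 11 : ℝ)) : P4 θ N B y1 y2 := by
  have := h.v1
  refine ⟨h.b1.trans b1, b2, h.v1, h.v2, h.o.imp (fun o => ⟨o.1.trans ?_, o.2.trans ?_⟩)
    fun o => o.trans ?_⟩ <;> gcongr

theorem t_IV (hHYPb : S_HYPb) (θ : ℝ) (hθ : 7 / 10 ≤ θ) (hθ2 : θ ≤ 8 / 11 + 1 / 100)
    (hS : S_SW4 θ) (hR : S_RGb θ (119 / 100)) : S_IV θ := by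
  intro j ε hε
  obtain ⟨e0, he0, hB⟩ := hS j ε hε
  refine ⟨min e0 (1 / 10), by positivity, fun e1 he1 he ε' hε' => ?_⟩
  have he2 := he.trans (min_le_right _ _)
  obtain ⟨t, htd⟩ : ∃ t : ℝ, t = 2 ^ ⌈3 / e1⌉₊ := ⟨_, rfl⟩
  have ht : 0 < t := by rw [htd]; positivity
  obtain ⟨s, hsd⟩ : ∃ s : ℝ, s = t * (1 * (2 * t)) := ⟨_, rfl⟩
  have hs : 0 < s := by rw [hsd]; positivity
  obtain ⟨R1, hR⟩ := hR e1 he1 he2 (ε' / (3 * t)) (by positivity)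
  obtain ⟨η, hη, hH⟩ := hHYPb e1 he1 he2 (ε' / (3 * s)) (by positivity)
  refine ⟨R1, fun R hR1 => ?_⟩
  filter_upwards [hR R hR1,
    hH _ (Nat.factorial_pos R), hB e1 he1 (he.trans (min_le_left _ _)) _ (Nat.factorial_pos R),
    eventually_ge_atTop 2, ev_const 2 he1, ev_log (3 / (η * ε'))] with N hR hH hB hN hz hL
  intro K X1 X2 U1 U2 V1 V2 y y1 y2 β c hS hP hβ hβ' hc hc' hU hV hU'
  have hN1 : 1 ≤ N := by linarith
  have hN0 : 0 < N := by linarith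
  have hL0 : 0 < Real.log N := Real.log_pos (by linarith)
  have pw : ∀ {a b : ℝ}, a ≤ b → N ^ a ≤ N ^ b := Real.rpow_le_rpow_of_exponent_le hN1
  have hy1 : N ^ (33 / 50 : ℝ) ≤ y := (pw (by linarith)).trans hP.b1
  have hy2 := hP.b2
  have hy0 : 0 < y := lt_of_lt_of_le (by positivity) hy1
  have hU0 : (0 : ℝ) < U1 :=
    (mul_pos_iff_of_pos_left hy0).1 ((Real.rpow_pos_of_pos hN0 _).trans_le hU)
  obtain ⟨x, hx⟩ : ∃ x : ℝ, x * y = N ^ (19 / 20 : ℝ) := ⟨_, div_mul_cancel₀ _ hy0.ne'⟩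
  have hx0 : 0 < x := (mul_pos_iff_of_pos_right hy0).1 (by rw [hx]; positivity)
  have hx1 : N ^ (1 / 25 : ℝ) ≤ x := by
    refine le_of_mul_le_mul_right ?_ hy0
    rw [hx]
    refine (mul_le_mul_of_nonneg_left hy2 (by positivity)).trans ?_
    rw [← Real.rpow_add hN0]
    exact pw (by norm_num)
  have hx2 : x ≤ U1 := by
    refine le_of_mul_le_mul_right ?_ hy0
    rw [hx, mul_comm]
    exact (pw (by norm_num)).trans hU
  obtain ⟨ρ, hρ⟩ : ∃ ρ : ℝ, x * ρ = U1 := ⟨_, mul_div_cancel₀ _ hx0.ne'⟩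
  have hρ1 : 1 ≤ ρ := le_of_mul_le_mul_left (by rwa [hρ, mul_one]) hx0
  have hρ0 : 0 < ρ := by linarith
  have h65 : 6 / 5 * N ^ 2 ≤ N ^ 3 := by nlinarith [sq_nonneg N]
  have hT : ∀ a : ℕ, (a : ℝ) ≤ N ^ 3 → Rough (N ^ e1) a → (a.divisors.card : ℝ) ≤ t :=
    fun a ha hr => by
      have := lib_TAU (N ^ e1) ⌈3 / e1⌉₊ a (by linarith) hr (ha.trans (by
        rw [bx_pw hN0, ← Real.rpow_natCast]
        refine pw ?_
        have := (div_le_iff₀ he1).1 (Nat.le_ceil (3 / e1))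
        push_cast
        linarith))
      rw [htd]
      exact_mod_cast this
  have hcR : iv_RB (N ^ e1) (N ^ 3) 1 c := ⟨fun u _ => hc.1 u, fun u h => (hc.2 u h).1⟩
  have hms := ms_nonneg (N ^ (10 / 11 : ℝ)) (N ^ e1) β
  have hms' := ms_nonneg (N ^ (10 / 11 : ℝ)) (N ^ e1) c
  have mP : ∀ b, ∀ a ∈ half_P X1 X2 b, (0 : ℝ) < a ∧ (a : ℝ) ≤ N ^ 3 :=
    fun b a ha => by
      rw [half_P, mem_filter, mem_Icc] at ha
      exact ⟨by exact_mod_cast ha.1.1, le_trans (by exact_mod_cast ha.1.2) (hS.x2.trans h65)⟩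
  by_cases hUV : U2 < U1 ∨ V2 < V1
  · have h0 : ∀ a, tauR (N ^ e1) U1 U2 V1 V2 a = 0 := fun a => by
      unfold tauR tauG
      rw [filter_false_of_mem fun p _ => by omega]
      simp
    simp only [bil, h0, mul_zero, zero_mul, sum_const_zero, abs_zero]
    positivity
  rw [not_or, not_lt, not_lt] at hUV
  have hK' : N ^ (7 / 10 : ℝ) ≤ K := (pw hθ).trans hS.lo
  obtain ⟨Bf, h1⟩ := hH K X1 X2 y (min (y * N ^ (1 / 50 : ℝ)) (N ^ (10 / 11 : ℝ)))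
    (K * N / (Real.log N ^ 3 * s)) β
    (fun b => ε * e1 ^ j * ms (N ^ (10 / 11 : ℝ)) (N ^ e1) c * (|β b| / b) *
      (K * N / (Real.log N * s)))
    (fun _ a => if (0 : ℝ) < a ∧ (a : ℝ) ≤ N ^ 3 then
      s⁻¹ * cv c (bd (rI (N ^ e1)) (rI (N ^ e1)) U1 U2 V1 V2 ρ) a else 0)
    hK' hS.x1 hS.x12 hS.x2 ((pw (by norm_num)).trans hy1)
    ((min_le_right _ _).trans ((pw (b := 1) (by norm_num)).trans_eq (Real.rpow_one N)))
    (by positivity) (fun b => by positivity) hβ (fun b hb => le_min (hβ' b hb).2.1 (hβ' b hb).2.2)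
    (fun B => iv_coef hs (hsd ▸ iv_cv ht.le zero_le_one (by positivity) hT hcR
      (iv_bd ht.le hT _ _ _ _ _)))
    fun B A1 A2 S b1 b2 hX => by
      have b3 : 1 ≤ B := ((Real.one_le_rpow hN1 (by norm_num)).trans hy1).trans b1
      have b4 := b2.trans (min_le_right _ _)
      have h2 := hB K A1 A2 B y1 y2 U1 U2 V1 V2 ρ S β c ⟨hS.lo, setup_hi hS, hy1.trans b1, b4,
        fun b hb => ⟨(hX.s b hb).1.le, (hX.s b hb).2.1, (hX.s b hb).2.2.1,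
          (hX.s b hb).2.2.2.odd hz⟩, hβ.1⟩ (iv_P4 hP hN0 hy0 b1 b4) hX.a1 hX.a3 hc hc'
        ⟨hρ1, (mul_le_mul_of_nonneg_right hx1 hρ0.le).trans_eq hρ, by exact_mod_cast hUV.1,
          hU'.trans (mul_le_mul_of_nonneg_left
            ((pw (b := 1) (by norm_num)).trans_eq (Real.rpow_one N)) hU0.le),
          hV.trans (mul_le_mul_of_nonneg_right b1 (Nat.cast_nonneg _)), by exact_mod_cast hUV.2⟩
      rw [tb_congr (fun _ _ => rfl) fun a ha => if_pos ⟨by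
          exact_mod_cast (Nat.zero_le _).trans_lt (mem_Ioc.1 ha).1, by
          have h3 : (a : ℝ) ≤ A2 := by exact_mod_cast (mem_Ioc.1 ha).2
          nlinarith [hX.a3, Nat.cast_nonneg (α := ℝ) A2]⟩, tb_smul, abs_of_pos (inv_pos.2 hs)]
      refine (mul_le_mul_of_nonneg_left h2 (inv_pos.2 hs).le).trans_eq ?_
      rw [← sum_mul, ← mul_sum]
      field_simp
  have h2 := hR K X1 X2 (fun b u => β b * cut (U1 / ρ) (U2 / ρ) (rI (N ^ e1)) u)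
    (fun v => if (0 : ℝ) < v ∧ (v : ℝ) ≤ N ^ 3 then
      t⁻¹ * cv c (cut (ρ * V1) (ρ * V2) (rI (N ^ e1))) v else 0) hS
    (fun b u => by
      rw [abs_mul]
      exact mul_le_one₀ (hβ.1 b) (abs_nonneg _) (iv_cut1 _ _ _ _))
    (fun b u h => by
      have hb := left_ne_zero_of_mul h
      have hu := right_ne_zero_of_mul h
      obtain ⟨c1, c2, -⟩ := cut_ne_zero hu
      obtain ⟨s1, s2, -⟩ := hβ' b hb
      rw [← hρ, mul_div_cancel_right₀ _ hρ0.ne'] at c1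
      refine ⟨rough_mul.2 ⟨(hβ.2 b hb).1, (iv_cut _ 0 _ _).2 u hu⟩, ?_, ?_⟩
      · push_cast
        refine lt_of_le_of_lt (pw (b := 19 / 20) (by norm_num)) ?_
        rw [← hx, mul_comm]
        exact mul_lt_mul'' s1 c1 hy0.le hx0.le
      · push_cast
        have s3 : (u : ℝ) ≤ x * N ^ (1 / 50 : ℝ) := c2.trans (by
          rw [div_le_iff₀ hρ0, mul_right_comm, hρ]; exact hU')
        refine (mul_le_mul s2 s3 (Nat.cast_nonneg _) (by positivity)).trans ?_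
        rw [mul_mul_mul_comm, mul_comm y, hx, ← Real.rpow_add hN0, ← Real.rpow_add hN0]
        exact pw (by norm_num))
    (iv_coef ht (by
      simpa using iv_cv ht.le zero_le_one zero_le_one hT hcR (iv_cut _ _ (ρ * V1) (ρ * V2))))
  simp only [bil_cv_assoc, tauR_eq_bx]
  refine (iv_split hs.le ht.le fun b a ha => ?_).trans
    ((add_le_add (mul_le_mul_of_nonneg_left h1 hs.le) (mul_le_mul_of_nonneg_left h2 ht.le)).trans
      ?_)
  · have e1 : cv c (bx (rI (N ^ e1)) (rI (N ^ e1)) U1 U2 V1 V2) a =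
        cv c (bd (rI (N ^ e1)) (rI (N ^ e1)) U1 U2 V1 V2 ρ) a +
          cv (cut (U1 / ρ) (U2 / ρ) (rI (N ^ e1)))
            (cv c (cut (ρ * V1) (ρ * V2) (rI (N ^ e1)))) a := by
      rw [← cv_assoc, cv_comm _ c, cv_assoc, ← cv_add]
      exact congrArg (fun g => cv c g a) (funext fun u => (sub_add_cancel _ _).symm)
    rw [if_pos (mP b a ha), e1, mul_add, mul_left_comm s, mul_inv_cancel_left₀ hs.ne', cv, cv,
      mul_sum _ _ t, mul_sum _ (fun p : ℕ × ℕ => cut _ _ _ p.1 * _)]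
    congr 1
    refine sum_congr rfl fun p hp => ?_
    have h3 := Nat.mem_divisorsAntidiagonal.1 hp
    have h4 : p.2 ≤ a := Nat.le_of_dvd (Nat.pos_of_ne_zero h3.2) ⟨p.1, by rw [← h3.1, mul_comm]⟩
    rw [if_pos ⟨by
      exact_mod_cast Nat.pos_of_ne_zero (Nat.ne_zero_of_mem_divisorsAntidiagonal hp).2,
      le_trans (by exact_mod_cast h4) (mP b a ha).2⟩]
    field_simp
  have h3 : ∑ b ∈ Icc 1 X2, |β b| / b ≤ ms (N ^ (10 / 11 : ℝ)) (N ^ e1) β := by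
    rw [← sum_filter_of_ne (p := fun b => β b ≠ 0) fun b _ h c => h (by simp [c])]
    refine sum_le_sum_of_subset_of_nonneg (fun b hb => ?_) fun _ _ _ => by positivity
    rw [mem_filter, mem_Icc] at hb
    exact (mem_Ry (by positivity)).2 ⟨hb.1.1, (hβ' b hb.2).2.2, (hβ.2 b hb.2).1⟩
  have h4 : 1 / (η * Real.log N) ≤ ε' / 3 := by
    rw [div_le_iff₀ (by positivity)] at hL
    rw [div_le_div_iff₀ (by positivity) (by norm_num)]
    linarith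
  rw [← sum_mul, ← mul_sum]
  calc _ = (ε * e1 ^ j * ((∑ b ∈ Icc 1 X2, |β b| / b) * ms (N ^ (10 / 11 : ℝ)) (N ^ e1) c) +
        (1 / (η * Real.log N) + 2 * (ε' / 3))) * K * N / Real.log N := by field_simp; ring
    _ ≤ _ := div_le_div_of_nonneg_right (mul_le_mul_of_nonneg_right (mul_le_mul_of_nonneg_right
      (add_le_add (mul_le_mul_of_nonneg_left (mul_le_mul_of_nonneg_right h3 hms') (by positivity))
        (by linarith only [h4])) (Nat.cast_nonneg _)) hN0.le) hL0.le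

end Pool.Agent.P.MP_8be758_nt.Av3
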