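import Pool.Agent.P.MP_8be758_nt.Av3.Basic

/-! The step `S_Ib`. -/

namespace Pool.Agent.P.MP_8be758_nt.Av3

open Finset Real Filter Topology
open Pool.Agent.P.MP_e86632_nt (ee)
open Pool.Agent.P.MP_8be758_nt.Avg Pool.Agent.P.MP_8be758_nt.Av2

theorem ib_ker {N : ℝ} {K X1 X2 k q : ℕ} (hN1 : 1 ≤ N) (hX : N ^ 2 ≤ X1) (h12 : X1 ≤ X2)
    (hK : (K : ℝ) ≤ N) (hk : k ∈ Icc 1 K) (hq : 1 ≤ q) :
    |∑ m ∈ (Ioc X1 X2).filter (q ∣ ·), rr k m - (√(X2 : ℝ) - √(X1 : ℝ)) * rho k q / q| ≤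
      6 * (rho k q : ℝ) + 0 := by
  have hN : 0 < N := by linarith
  have hX1 : 1 ≤ X1 := by
    have : (0 : ℝ) < X1 := lt_of_lt_of_le (by positivity) hX
    exact_mod_cast this
  have hs : N ≤ √(X1 : ℝ) := Real.le_sqrt_of_sq_le hX
  have hq1 : (1 : ℝ) ≤ q := by exact_mod_cast hq
  have h2 := per0_rr lib_PS (G := fun m => if q ∣ m then (1 : ℝ) else 0) (mem_Icc.1 hk).1 hX1
    h12 hq fun m => by simp only [Nat.dvd_add_self_right]
  have h3 : ∀ m, |if q ∣ m then (1 : ℝ) else 0| = if q ∣ m then (1 : ℝ) else 0 := fun m => by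
    split_ifs <;> simp
  simp only [h3, per0_rho, ite_mul, one_mul, zero_mul] at h2
  rw [sum_filter, mul_div_right_comm, add_zero]
  refine h2.trans (mul_le_mul_of_nonneg_right ?_ (by positivity))
  have h4 : (k : ℝ) ≤ K := by exact_mod_cast (mem_Icc.1 hk).2
  have h5 : (k : ℝ) / (q * √(X1 : ℝ)) ≤ 1 := by
    rw [div_le_one (mul_pos (by linarith) (by linarith))]
    nlinarith
  linarith

theorem ib_card {y z : ℝ} (hy : 0 ≤ y) : ((Ry y z).card : ℝ) ≤ y := by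
  have h : (Ry y z).card ≤ ⌊y⌋₊ := (card_filter_le _ _).trans (by simp)
  exact le_trans (by exact_mod_cast h) (Nat.floor_le hy)

theorem ib_core (hTI : S_TIb) (y z L δ E2 Y G : ℝ)
    (K X1 X2 R : ℕ) (c : ℕ → ℝ) (lam Del : Finset ℕ → ℝ) (hy : 0 ≤ y) (hL : 1 ≤ L) (hR : 2 ≤ R)
    (hRz : (R : ℝ) ≤ z) (hX : X1 ≤ X2) (hc : ∀ d, |c d| ≤ 1)
    (hF : FLData z L δ lam Del) (hE2 : 0 ≤ E2)
    (k1 : ∀ k ∈ Icc 1 K, ∀ q : ℕ, 1 ≤ q → |∑ m ∈ (Ioc X1 X2).filter (q ∣ ·), rr k m -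
      (√(X2 : ℝ) - √(X1 : ℝ)) * rho k q / q| ≤ 6 * (rho k q : ℝ) + 0)
    (k2 : ∀ q : ℕ, 1 ≤ q → ∀ k : ℕ, |∑ m ∈ (Ioc X1 X2).filter (q ∣ ·), md R.factorial k m -
      (√(X2 : ℝ) - √(X1 : ℝ)) * rho k (Nat.gcd q R.factorial) / q| ≤ E2)
    (hY : ∀ k ∈ Icc 1 K, ∑ d ∈ Ry y z, (rho k d : ℝ) ≤ Y)
    (hG : ∀ c : ℕ → ℝ, (∀ d, |c d| ≤ 1) →
      ∑ k ∈ Icc 1 K, |∑ d ∈ Ry y z, c d / d * ((rho k d : ℝ) - 1)| ≤ G) :
    ∑ k ∈ Icc 1 K, |∑ m ∈ (Ioc X1 X2).filter (Rough z),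
      (∑ d ∈ (Ry y z).filter (· ∣ m), c d) * dd R.factorial k m -
      (∑ d ∈ Ry y z, c d / d) * MT R z X1 X2 k| ≤
    L * K * (6 * Y + E2 * (Ry y z).card) +
      2 * ((√(X2 : ℝ) - √(X1 : ℝ)) * K * δ * ms y z c) +
      2 * ((√(X2 : ℝ) - √(X1 : ℝ)) * L * ms y z c) + 2 * ((√(X2 : ℝ) - √(X1 : ℝ)) * G) := by
  have hROOT := lib_ROOT
  unfold MT ms
  set l := √(X2 : ℝ) - √(X1 : ℝ) with hl
  set W := R.factorial with hW
  have hW0 : 0 < W := Nat.factorial_pos R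
  have hl0 : 0 ≤ l := sub_nonneg.2 (Real.sqrt_le_sqrt (by exact_mod_cast hX))
  have hD : ∀ d ∈ Ry y z, 1 ≤ d ∧ Rough z d ∧ |c d| ≤ 1 := fun d hd =>
    have h := (mem_Ry hy).1 hd
    ⟨h.1, h.2.2, hc d⟩
  have m1 : ∀ k a b : ℕ, a.Coprime b → (rho k (a * b) : ℝ) = rho k a * rho k b := fun k a b h => by
    rw [hROOT.1 k a b h]; push_cast; rfl
  have m2 : ∀ k a b : ℕ, a.Coprime b →
      (rho k (Nat.gcd (a * b) W) : ℝ) = rho k (Nat.gcd a W) * rho k (Nat.gcd b W) :=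
    fun k a b h => by
      rw [Nat.gcd_comm, Nat.Coprime.gcd_mul W h, Nat.gcd_comm W a, Nat.gcd_comm W b]
      exact m1 k _ _ ((h.coprime_dvd_left (Nat.gcd_dvd_left _ _)).coprime_dvd_right
        (Nat.gcd_dvd_left _ _))
  have g1 : ∀ k, ∀ d ∈ Ry y z, (rho k (Nat.gcd d W) : ℝ) = 1 := fun k d hd => by
    rw [((hD d hd).2.1.coprime_factorial hRz).gcd_eq_one, rho_one]; simp
  have T1 := hTI z L δ 6 0 l Y G K (Ioc X1 X2) (Ry y z) rr (fun k q => (rho k q : ℝ)) c lam Del hF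
    hL hl0 (by norm_num) le_rfl rr_nonneg hD k1 (fun q hq => hROOT.2.2.2.2.1 q K hq)
    (fun _ _ => Nat.cast_nonneg _) (fun k p _ => by exact_mod_cast rho_le k p)
    (fun k d hd E hE => i_mult (fun q => (rho k q : ℝ)) (by simp [rho_one]) (m1 k)
      (hD d hd).2.1 E hE)
    (fun k E hE => i_prod (fun q => (rho k q : ℝ)) (by simp [rho_one]) (m1 k) E
      fun p hp => prime_of_mem_PL (hE hp))
    hY (hG (fun d => |c d|) fun d => by rw [abs_abs]; exact hc d)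
  have T2 := hTI z L δ 0 E2 l (Ry y z).card 0 K (Ioc X1 X2) (Ry y z) (md W)
    (fun k q => (rho k (Nat.gcd q W) : ℝ)) c lam Del hF hL hl0 le_rfl hE2 (md_nonneg W) hD
    (fun k _ q hq => by rw [zero_mul, zero_add]; exact k2 q hq k)
    (fun q hq => (hROOT.2.2.2.2.1 _ K (Nat.gcd_pos_of_pos_left W hq)).trans
      (by exact_mod_cast Nat.gcd_le_left W hq))
    (fun _ _ => Nat.cast_nonneg _)
    (fun k p hp => by exact_mod_cast (rho_le k _).trans (Nat.gcd_le_left W hp.pos))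
    (fun k d hd E hE => i_mult (fun q => (rho k (Nat.gcd q W) : ℝ)) (by simp [rho_one]) (m2 k)
      (hD d hd).2.1 E hE)
    (fun k E hE => i_prod (fun q => (rho k (Nat.gcd q W) : ℝ)) (by simp [rho_one]) (m2 k) E
      fun p hp => prime_of_mem_PL (hE hp))
    (fun k _ => by rw [sum_congr rfl (g1 k)]; simp)
    (by
      refine le_of_eq (sum_eq_zero fun k _ => abs_eq_zero.2 (sum_eq_zero fun d hd => ?_))
      rw [g1 k d hd, sub_self, mul_zero])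
  have T3 : ∑ k ∈ Icc 1 K, |∑ d ∈ Ry y z, c d * (rho k d : ℝ) / d - ∑ d ∈ Ry y z, c d / d| ≤ G := by
    refine le_trans (le_of_eq (sum_congr rfl fun k _ => ?_)) (hG c hc)
    rw [← sum_sub_distrib]
    congr 1
    exact sum_congr rfl fun d _ => by ring
  have T4 := mul_le_mul_of_nonneg_left T3 hl0
  rw [mul_sum] at T4
  refine le_trans ?_ ((add_le_add (add_le_add T1 T2) T4).trans (le_of_eq (by ring)))
  rw [← sum_add_distrib, ← sum_add_distrib]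
  refine sum_le_sum fun k hk => ?_
  have hk1 : 1 ≤ k := (mem_Icc.1 hk).1
  obtain ⟨p1, p2⟩ := lib_SGW.2.2.1 k R z hk1 hR hRz
  have e2 : ∑ d ∈ Ry y z, c d * (rho k (Nat.gcd d W) : ℝ) / d = ∑ d ∈ Ry y z, c d / d :=
    sum_congr rfl fun d hd => by rw [g1 k d hd, mul_one]
  have e3 : ∑ m ∈ (Ioc X1 X2).filter (Rough z), (∑ d ∈ (Ry y z).filter (· ∣ m), c d) * dd W k m =
      ∑ m ∈ (Ioc X1 X2).filter (Rough z), (∑ d ∈ (Ry y z).filter (· ∣ m), c d) * rr k m -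
      ∑ m ∈ (Ioc X1 X2).filter (Rough z), (∑ d ∈ (Ry y z).filter (· ∣ m), c d) * md W k m := by
    rw [← sum_sub_distrib]
    exact sum_congr rfl fun m _ => by rw [dd]; ring
  have hP : ∀ p ∈ PL z, 0 ≤ 1 - (rho k p : ℝ) / p ∧ 1 - (rho k p : ℝ) / p ≤ 1 := fun p hp => by
    have h1 : (0 : ℝ) < p := by exact_mod_cast (prime_of_mem_PL hp).pos
    have h2 : (rho k p : ℝ) ≤ p := by exact_mod_cast rho_le k p
    have h3 : (rho k p : ℝ) / p ≤ 1 := (div_le_one h1).2 h2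
    have h4 : 0 ≤ (rho k p : ℝ) / p := by positivity
    constructor <;> linarith
  have hP0 : 0 ≤ ∏ p ∈ PL z, (1 - (rho k p : ℝ) / p) := prod_nonneg fun p hp => (hP p hp).1
  have hP1 : ∏ p ∈ PL z, (1 - (rho k p : ℝ) / p) ≤ 1 :=
    prod_le_one (fun p hp => (hP p hp).1) fun p hp => (hP p hp).2
  simp only [e2]
  rw [e3, p2]
  rw [p1] at hP0 hP1 ⊢
  generalize ∑ m ∈ (Ioc X1 X2).filter (Rough z),
    (∑ d ∈ (Ry y z).filter (· ∣ m), c d) * rr k m = a1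
  generalize ∑ m ∈ (Ioc X1 X2).filter (Rough z),
    (∑ d ∈ (Ry y z).filter (· ∣ m), c d) * md W k m = a2
  generalize ∑ d ∈ Ry y z, c d * (rho k d : ℝ) / d = B
  generalize ∑ d ∈ Ry y z, c d / d = A
  have e4 : a1 - a2 - A * (l * Vz z * sing R k * (TT k R z - 1)) =
      (a1 - l * B * (sing R k * Vz z * TT k R z)) + -(a2 - l * A * (sing R k * Vz z)) +
        l * (B - A) * (sing R k * Vz z * TT k R z) := by ring
  rw [e4]
  refine (abs_add_three _ _ _).trans (add_le_add (add_le_add le_rfl (abs_neg _).le) ?_)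
  rw [abs_mul, abs_mul, abs_of_nonneg hl0, abs_of_nonneg hP0]
  exact mul_le_of_le_one_right (by positivity) hP1

theorem ib_num {N K L l n Y v u A C e V m t η : ℝ} (hN : 0 < N) (hK : 0 < K) (hL : 6 ≤ L)
    (_hl0 : 0 ≤ l) (hl : l ≤ N) (hn0 : 0 ≤ n) (hn : n ≤ Y) (hv : 0 ≤ v) (g1 : v ≤ u) (hA : 0 ≤ A)
    (hC : 0 < C) (he : 0 < e) (v2 : m ≤ C * (10 / 11 * L) / (e * L))
    (v0 : 0 ≤ V) (v1 : V ≤ C / (e * L)) (m0 : 0 ≤ m) (ht : 0 < t)
    (a10 : 2 * (C / e / t) ≤ η) (b2 : 3 * (6 + A) * (u * Y) * L ^ 2 ≤ N)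
    (g2 : 6 * (C / e) * u * L ^ 2 ≤ K) :
    v * K * (6 * Y + A * n) + 2 * (l * K * (V / t) * m) + 2 * (l * v * m) + 2 * (l * (K / L ^ 3)) ≤
      (η * m + 1 / L) * K * N / L := by
  have hL0 : 0 < L := by linarith
  have hu := hv.trans g1
  have hY := hn0.trans hn
  set Q := K * N / L ^ 2 with hQ
  have f1 : v * K * (6 * Y + A * n) ≤ Q / 3 := by
    calc _ ≤ u * K * (6 * Y + A * Y) := by gcongr
      _ = K * (3 * (6 + A) * (u * Y) * L ^ 2) / L ^ 2 / 3 := by field_simp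
      _ ≤ K * N / L ^ 2 / 3 := by gcongr
  have f2 : 2 * (l * K * (V / t) * m) ≤ η * (m * K * N / L) := by
    calc _ ≤ 2 * (N * K * (C / (e * L) / t) * m) := by gcongr
      _ = 2 * (C / e / t) * (m * K * N / L) := by field_simp
      _ ≤ _ := by gcongr
  have f3 : 2 * (l * v * m) ≤ Q / 3 := by
    have g5 : m ≤ C / e := by
      refine v2.trans ?_
      rw [show C * (10 / 11 * L) / (e * L) = 10 / 11 * (C / e) by field_simp]
      have : 0 < C / e := by positivity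
      linarith
    calc _ ≤ 2 * (N * u * (C / e)) := by gcongr
      _ = 6 * (C / e) * u * L ^ 2 * N / L ^ 2 / 3 := by field_simp; ring
      _ ≤ K * N / L ^ 2 / 3 := by gcongr
  have f4 : 2 * (l * (K / L ^ 3)) ≤ Q / 3 := by
    calc _ ≤ 2 * (N * (K / (6 * L ^ 2))) := by
          have : 6 * L ^ 2 ≤ L ^ 3 := by nlinarith [sq_nonneg L]
          gcongr
      _ = _ := by rw [hQ]; field_simp; norm_num
  have e : (η * m + 1 / L) * K * N / L = η * (m * K * N / L) + Q := by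
    rw [hQ]; field_simp
  rw [e]
  linarith

theorem t_Ib (hTIb : S_TIb) (hCOb : S_COb) (θ : ℝ) (hθ : 7 / 10 ≤ θ) : S_Ib θ := by
  intro j ε hε
  obtain ⟨C1, hFL⟩ := lib_FL
  obtain ⟨C, hC, hHR⟩ := lib_HR
  obtain ⟨C', hC', hKER⟩ := lib_KER
  obtain ⟨κ, hκ⟩ : ∃ κ : ℝ, κ = 1 / 100 := ⟨_, rfl⟩
  have κ0 : 0 < κ := by rw [hκ]; norm_num
  set c1 : ℝ := (C1 + 1) / κ with hc1
  have hc10 : 0 < c1 := by positivity
  obtain ⟨s0, hs01, hs0⟩ := i2_s C c1 ε (j + 1) hε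
  have hs0' : (1 : ℝ) ≤ s0 := by exact_mod_cast hs01
  refine ⟨1 / (c1 * s0), by positivity, fun e1 he1 he R hR => ?_⟩
  set s := ⌊1 / (c1 * e1)⌋₊ with hs
  have a1 : (s0 : ℝ) ≤ 1 / (c1 * e1) := by
    rw [le_div_iff₀ (by positivity)] at he ⊢
    linarith
  have a2 : s0 ≤ s := Nat.le_floor a1
  have a3 : (s : ℝ) ≤ 1 / (c1 * e1) := Nat.floor_le (by positivity)
  have a4 : 1 / (c1 * e1) < s + 1 := Nat.lt_floor_add_one _
  have a5 : (1 : ℝ) ≤ s := by exact_mod_cast hs01.trans a2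
  rw [le_div_iff₀ (by positivity)] at a3
  rw [div_lt_iff₀ (by positivity)] at a4
  have a6 : 1 / e1 ≤ 2 * c1 * s := by
    rw [div_le_iff₀ he1]
    have := mul_le_mul_of_nonneg_right a5 (by positivity : 0 ≤ c1 * e1)
    linarith
  have hC10 : (0 : ℝ) ≤ C1 := Nat.cast_nonneg _
  have a9 : s * (C1 + 1) * e1 ≤ κ := by
    have := mul_le_mul_of_nonneg_right a3 κ0.le
    rwa [hc1, one_mul, show s * ((C1 + 1) / κ * e1) * κ = s * (C1 + 1) * e1 by field_simp] at this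
  have a7 : e1 * (C1 * s) ≤ κ := by
    have : 0 ≤ s * e1 := by positivity
    linarith
  have a8 : e1 ≤ κ := by
    have : 0 ≤ s * e1 * C1 := by positivity
    have := mul_le_mul_of_nonneg_right a5 he1.le
    linarith
  have a10 : 2 * (C / e1 / 2 ^ s) ≤ ε * e1 ^ j := by
    refine le_trans ?_ (mul_le_mul_of_nonneg_right (hs0 s a2) (by positivity))
    calc 2 * (C / e1 / 2 ^ s) = 2 * (C * (1 / e1) ^ (j + 1) / 2 ^ s) * e1 ^ j := by
          rw [one_div_pow, pow_succ]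
          field_simp
      _ ≤ _ := by gcongr
  set W : ℝ := (R.factorial : ℝ) with hW
  have hW0 : 0 ≤ W := Nat.cast_nonneg _
  filter_upwards [hCOb e1 he1, eventually_ge_atTop 1, ev_log 6, ev_const (R : ℝ) he1,
    ev_pow (3 * (6 + C' * W ^ 2)) 2 (a := κ + 11 / 12) (b := 1) (by linarith),
    ev_pow (6 * (C / e1)) 2 (a := κ) (b := θ) (by linarith)]
    with N b1 hN hL hRz b2 b5 K X1 X2 cc hS hcc
  have hN0 : 0 < N := by linarith
  have hR' : (2 : ℝ) ≤ R := by exact_mod_cast hR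
  have hz : 2 ≤ N ^ e1 := hR'.trans hRz
  have hK7 : N ^ (7 / 10 : ℝ) ≤ K := (Real.rpow_le_rpow_of_exponent_le hN hθ).trans hS.lo
  have hKN : (K : ℝ) ≤ N := (setup_hi hS).trans (by
    simpa using Real.rpow_le_rpow_of_exponent_le hN (show (81 / 100 : ℝ) ≤ 1 by norm_num))
  have hzy : N ^ e1 ≤ N ^ (10 / 11 : ℝ) := Real.rpow_le_rpow_of_exponent_le hN (by linarith)
  have hK0 : (0 : ℝ) < K := lt_of_lt_of_le (by positivity) hK7
  have hy0 : 0 ≤ N ^ (10 / 11 : ℝ) := by positivity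
  obtain ⟨lam, Del, hF⟩ := hFL s (hs01.trans a2) _ hz
  obtain ⟨hY, hG⟩ := b1 K hK7 hKN
  refine (ib_core hTIb _ _ _ _ (C' * W ^ 2) _ _ K X1 X2 R cc lam Del hy0
    (one_le_pow₀ (by linarith)) hR hRz hS.x12 hcc hF (by positivity)
    (fun k hk q hq => ib_ker hN hS.x1 hS.x12 hKN hk hq)
    (fun q hq => (hKER N K X1 X2 R.factorial q hN0 hS.x1 hS.x12 hq (Nat.factorial_pos R)).2)
    hY hG).trans ?_
  have hl0 : 0 ≤ √(X2 : ℝ) - √(X1 : ℝ) :=
    sub_nonneg.2 (Real.sqrt_le_sqrt (by exact_mod_cast hS.x12))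
  have hl := i_l hN0.le hS.x1 hS.x2
  generalize √(X2 : ℝ) - √(X1 : ℝ) = l at hl0 hl
  obtain ⟨v0, v1, v2⟩ := hHR _ _ hz hzy
  rw [Real.log_rpow hN0] at v1
  rw [Real.log_rpow hN0, Real.log_rpow hN0, ← Ry] at v2
  have m0 := ms_nonneg (N ^ (10 / 11 : ℝ)) (N ^ e1) cc
  have m1 : ms (N ^ (10 / 11 : ℝ)) (N ^ e1) cc ≤
      ∑ d ∈ Ry (N ^ (10 / 11 : ℝ)) (N ^ e1), 1 / (d : ℝ) :=
    sum_le_sum fun d _ => div_le_div_of_nonneg_right (hcc d) (Nat.cast_nonneg _)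
  have m2 := m1.trans v2
  generalize ms (N ^ (10 / 11 : ℝ)) (N ^ e1) cc = m at m0 m2
  simp only [Real.rpow_one, Real.rpow_add hN0] at b2
  have g1 : (N ^ e1) ^ (C1 * s) ≤ N ^ κ := by
    rw [← Real.rpow_natCast, ← Real.rpow_mul hN0.le]
    exact Real.rpow_le_rpow_of_exponent_le hN (by push_cast; exact a7)
  exact ib_num hN0 hK0 hL hl0 hl (Nat.cast_nonneg _)
    ((ib_card hy0).trans (Real.rpow_le_rpow_of_exponent_le hN (by norm_num))) (by positivity) g1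
    (by positivity) hC he1 m2 v0 v1 m0 (by positivity) a10 b2 (b5.trans hS.lo)

end Pool.Agent.P.MP_8be758_nt.Av3
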