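import Pool.Agent.P.MP_8be758_nt.Av3.BasB

/-! The step `S_J8`. -/

namespace Pool.Agent.P.MP_8be758_nt.Av3

open Finset Real Filter Topology
open Pool.Agent.P.MP_e86632_nt (ee)
open Pool.Agent.P.MP_8be758_nt.Avg Pool.Agent.P.MP_8be758_nt.Av2

theorem j8_pow (I : Finset ℕ) (hI : ∀ a ∈ I, 1 ≤ a) (c : ℕ → ℂ) (t : ℝ) :
    dp I c t ^ 4 = ∑ x ∈ Fintype.piFinset fun _ : Fin 4 => I,
      (∏ i, c (x i)) * ee (t * Real.log (∏ i, x i : ℕ)) := by
  rw [dp, sum_pow']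
  refine sum_congr rfl fun x hx => ?_
  have h : ∀ i, (x i : ℝ) ≠ 0 := fun i => by
    have := hI _ (Fintype.mem_piFinset.1 hx i)
    positivity
  rw [Nat.cast_prod, Real.log_prod fun i _ => h i, prod_mul_distrib]
  simp only [Fin.prod_univ_four, Fin.sum_univ_four, mul_add, Pool.Agent.P.MP_e86632_nt.ee_add]

theorem j8_log {P P' M : ℝ} (h1 : 0 < P) (h2 : 0 < P') (h3 : P ≤ M) (h4 : P' ≤ M) :
    |P - P'| / M ≤ |Real.log P - Real.log P'| := by
  wlog h : P' ≤ P generalizing P P'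
  · rw [abs_sub_comm, abs_sub_comm (Real.log P)]
    exact this h2 h1 h4 h3 (not_le.1 h).le
  have a := Real.log_le_sub_one_of_pos (div_pos h2 h1)
  rw [Real.log_div h2.ne' h1.ne'] at a
  rw [abs_of_nonneg (sub_nonneg.2 h)]
  refine le_trans ?_ (le_abs_self _)
  calc (P - P') / M ≤ (P - P') / P := div_le_div_of_nonneg_left (sub_nonneg.2 h) h1 h3
    _ = 1 - P' / P := by field_simp
    _ ≤ _ := by linarith

theorem j8_sym (f : ℤ → ℝ) (M : ℕ) :
    ∑ D ∈ Icc (-M : ℤ) M, f D = f 0 + ∑ b ∈ Icc 1 M, (f b + f (-b)) := by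
  induction M with
  | zero => simp
  | succ M ih =>
    rw [sum_Icc_succ_top (by omega), ← add_assoc, ← ih]
    push_cast
    rw [sum_Icc_succ_eq_add_endpoints]
    ring

theorem j8_geo {c A B : ℝ} (hc : 0 < c) (hB : 0 ≤ B) (n : ℤ → ℝ) (h0 : n 0 ≤ A)
    (h1 : ∀ D, D ≠ 0 → n D ≤ B) (M : ℕ) :
    ∑ D ∈ Icc (-M : ℤ) M, n D * Real.exp (-(c * |(D : ℝ)|)) ≤ A + 2 * B / c := by
  rw [j8_sym]
  refine add_le_add (by simpa using h0) ?_
  have g := (prim_geo c M).trans (sub_le_self _ (Real.exp_pos _).le)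
  calc _ ≤ ∑ b ∈ Icc 1 M, 2 * B / c * (c * Real.exp (-(c * b))) := sum_le_sum fun b hb => by
        have hb : (b : ℤ) ≠ 0 := by have := (mem_Icc.1 hb).1; omega
        have e := Real.exp_pos (-(c * b))
        have a1 := mul_le_mul_of_nonneg_right (h1 _ hb) e.le
        have a2 := mul_le_mul_of_nonneg_right (h1 _ (neg_ne_zero.2 hb)) e.le
        simp only [Int.cast_neg, Int.cast_natCast, abs_neg, Nat.abs_cast]
        rw [show 2 * B / c * (c * Real.exp (-(c * b))) = 2 * (B * Real.exp (-(c * b))) by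
          field_simp]
        linarith
    _ ≤ _ := by
        rw [← mul_sum]
        exact mul_le_of_le_one_right (by positivity) g

theorem j8_prod {J L w : ℕ} (hL : 1 ≤ L) (h : L ≤ J) (hw : w < J / L + 1) {x : Fin 4 → ℕ}
    (hx : x ∈ W4 J L w) : 1 ≤ ∏ i, x i ∧ ∏ i, x i ≤ 81 * J ^ 4 := by
  have a := fun i => mem_Wn_bd h hw (Fintype.mem_piFinset.1 hx i)
  refine ⟨one_le_prod' fun i _ => (hL.trans h).trans (a i).1, ?_⟩
  exact (prod_le_pow_card _ _ (3 * J) fun i _ => (a i).2.le).trans_eq (by simp [mul_pow])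

theorem j8_win (hWMV : S_WMV) {J L w : ℕ} (hL : 1 ≤ L) (h : L ≤ J) (hw : w < J / L + 1)
    {c : ℕ → ℂ} (hc : ∀ j, ‖c j‖ ≤ 1) {T : ℝ} (hT : 0 < T) :
    ∫ t : ℝ, WT T t * ‖dp (Wn J L w) c t‖ ^ 8 ≤
      π * T * ∑ D ∈ Icc (-(81 * J ^ 4 : ℕ) : ℤ) (81 * J ^ 4 : ℕ),
        (((W4 J L w ×ˢ W4 J L w).filter fun p =>
          ((∏ i, p.1 i : ℕ) : ℤ) - (∏ i, p.2 i : ℕ) = D).card : ℝ) *
          Real.exp (-(2 * π * T / (81 * J ^ 4 : ℕ) * |(D : ℝ)|)) := by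
  have e : ∀ t, ‖dp (Wn J L w) c t‖ ^ 8 = ‖∑ x ∈ W4 J L w,
      (∏ i, c (x i)) * ee (t * Real.log (∏ i, x i : ℕ))‖ ^ 2 := fun t => by
    rw [W4, ← j8_pow _ fun a ha => (hL.trans h).trans (mem_Wn_bd h hw ha).1, norm_pow, ← pow_mul]
  simp only [e]
  refine (hWMV _ _ _ _ T hT).trans (mul_le_mul_of_nonneg_left ?_ (by positivity))
  have n1 : ∀ x : Fin 4 → ℕ, ‖∏ i, c (x i)‖ ≤ 1 := fun x => by
    rw [norm_prod]
    exact prod_le_one (fun _ _ => norm_nonneg _) fun _ _ => hc _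
  rw [← sum_product', ← sum_fiberwise_of_maps_to
    (g := fun p : (Fin 4 → ℕ) × (Fin 4 → ℕ) => ((∏ i, p.1 i : ℕ) : ℤ) - (∏ i, p.2 i : ℕ))
    (t := Icc (-(81 * J ^ 4 : ℕ) : ℤ) (81 * J ^ 4 : ℕ)) fun p hp => by
      have a := j8_prod hL h hw (mem_product.1 hp).1
      have b := j8_prod hL h hw (mem_product.1 hp).2
      rw [mem_Icc]
      omega]
  refine sum_le_sum fun D _ => ?_
  rw [← nsmul_eq_mul]
  refine sum_le_card_nsmul _ _ _ fun p hp0 => ?_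
  obtain ⟨hp, rfl⟩ := mem_filter.1 hp0
  have a := j8_prod hL h hw (mem_product.1 hp).1
  have b := j8_prod hL h hw (mem_product.1 hp).2
  refine (mul_le_of_le_one_left (Real.exp_pos _).le
    (mul_le_one₀ (n1 _) (norm_nonneg _) (n1 _))).trans (Real.exp_le_exp.2 (neg_le_neg ?_))
  rw [div_mul_eq_mul_div, mul_div_assoc, Int.cast_sub, Int.cast_natCast, Int.cast_natCast]
  exact mul_le_mul_of_nonneg_left (j8_log (by exact_mod_cast a.1) (by exact_mod_cast b.1)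
    (by exact_mod_cast a.2) (by exact_mod_cast b.2)) (by positivity)

theorem t_J8 (hWMV : S_WMV) (hCNT8 : S_CNT8) : S_J8 := by
  refine ⟨2592, by norm_num, fun J L c T τ hL h hT hc hτ => ?_⟩
  obtain ⟨c0, c1⟩ := hCNT8 J L τ hL h hτ
  have J1 : (1 : ℝ) ≤ J := by exact_mod_cast hL.trans h
  have τ1 : 1 ≤ τ := by
    have := one_le_pow₀ (n := 4) J1
    simpa using hτ 1 (by push_cast; linarith)
  simp only [Jm_pow, mul_sum]
  rw [MeasureTheory.integral_finsetSum _ fun w _ => CB.integrable (CB.pow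
    ⟨by fun_prop, fun _ => norm_nonneg _, _, fun _ => norm_dp_le (Wn J L w) c _⟩ 8) hT]
  refine (sum_le_sum fun w hw => j8_win hWMV hL h (mem_range.1 hw) hc hT).trans ?_
  rw [← mul_sum, sum_comm]
  simp only [← sum_mul, ← Nat.cast_sum]
  have g := j8_geo (c := 2 * π * T / (81 * J ^ 4 : ℕ)) (by push_cast; positivity) (by positivity)
    (fun D => (cnt8 J L D : ℝ)) c0 c1 (81 * J ^ 4)
  refine (mul_le_mul_of_nonneg_left g (by positivity)).trans ?_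
  have e : π * T * (2 * (32 * τ ^ 8 * (J + (L : ℝ) ^ 4)) / (2 * π * T / (81 * J ^ 4 : ℕ))) =
      2592 * τ ^ 8 * ((J : ℝ) ^ 4 * (J + (L : ℝ) ^ 4)) := by
    push_cast
    field_simp
    norm_num
  rw [mul_add, e, mul_add (2592 * τ ^ 8)]
  refine add_le_add ?_ le_rfl
  have t8 : τ ^ 4 ≤ τ ^ 8 := pow_le_pow_right₀ τ1 (by norm_num)
  calc _ = 2 * π * τ ^ 4 * (T * (J * (L : ℝ) ^ 3)) := by ring
    _ ≤ _ := by
      gcongr
      linarith [Real.pi_le_four]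

end Pool.Agent.P.MP_8be758_nt.Av3
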