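import Pool.Agent.P.MP_8be758_nt.Av3.BasB

/-! The step `S_M46`. -/

namespace Pool.Agent.P.MP_8be758_nt.Av3

open Finset Real Filter Topology
open Pool.Agent.P.MP_e86632_nt (ee)
open Pool.Agent.P.MP_8be758_nt.Avg Pool.Agent.P.MP_8be758_nt.Av2

theorem m46_mul {ι : Type} (s : Finset ι) (d : ι → ℂ) (m : ι → ℕ) (hm : ∀ i ∈ s, 1 ≤ m i) (U : ℕ)
    (f : ℕ → ℂ) (y : ℝ) : dp (Icc 1 U) f y * ∑ i ∈ s, d i * ee (y * Real.log (m i)) =
      ∑ p ∈ Icc 1 U ×ˢ s, f p.1 * d p.2 * ee (y * Real.log ((p.1 * m p.2 : ℕ) : ℝ)) := by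
  rw [dp, sum_mul_sum, sum_product]
  refine sum_congr rfl fun u hu => sum_congr rfl fun i hi => ?_
  have h1 : (u : ℝ) ≠ 0 := by have := (mem_Icc.1 hu).1; positivity
  have h2 : (m i : ℝ) ≠ 0 := by have := hm i hi; positivity
  rw [Nat.cast_mul, Real.log_mul h1 h2, mul_add, Pool.Agent.P.MP_e86632_nt.ee_add]
  ring

theorem m46_cnt {ι : Type} (s : Finset ι) (m : ι → ℕ) (U : ℕ) {Y D τ : ℝ} (hD : 0 ≤ D)
    (hm : ∀ i ∈ s, 1 ≤ m i ∧ (m i : ℝ) ≤ Y) (hτ : TauB (U * Y) τ) (h0 : 0 ≤ τ)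
    (h : ∀ n : ℕ, ((s.filter fun i => m i = n).card : ℝ) ≤ D) (n : ℕ) :
    (((Icc 1 U ×ˢ s).filter fun p => p.1 * m p.2 = n).card : ℝ) ≤ τ * D := by
  classical
  rcases ((Icc 1 U ×ˢ s).filter fun p => p.1 * m p.2 = n).eq_empty_or_nonempty with e | ⟨q, hq⟩
  · rw [e]; simpa using mul_nonneg h0 hD
  obtain ⟨hq, e⟩ := mem_filter.1 hq
  obtain ⟨h1, h2⟩ := mem_product.1 hq
  have n0 : n ≠ 0 := by
    rw [← e]; exact (Nat.mul_pos (mem_Icc.1 h1).1 (hm _ h2).1).ne'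
  have hn : (n : ℝ) ≤ U * Y := by
    rw [← e, Nat.cast_mul]
    exact mul_le_mul (by exact_mod_cast (mem_Icc.1 h1).2) (hm _ h2).2 (Nat.cast_nonneg _)
      (Nat.cast_nonneg _)
  have sub : ((Icc 1 U ×ˢ s).filter fun p => p.1 * m p.2 = n) ⊆
      n.divisors.biUnion fun u => {u} ×ˢ s.filter fun i => m i = n / u := fun p hp => by
    obtain ⟨hp, e⟩ := mem_filter.1 hp
    obtain ⟨h1, h2⟩ := mem_product.1 hp
    refine mem_biUnion.2 ⟨p.1, Nat.mem_divisors.2 ⟨⟨_, e.symm⟩, n0⟩,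
      mem_product.2 ⟨mem_singleton_self _, mem_filter.2 ⟨h2, ?_⟩⟩⟩
    rw [← e, Nat.mul_div_cancel_left _ (mem_Icc.1 h1).1]
  calc _ ≤ ((∑ u ∈ n.divisors, ({u} ×ˢ s.filter fun i => m i = n / u).card : ℕ) : ℝ) := by
        exact_mod_cast (card_le_card sub).trans card_biUnion_le
    _ ≤ ∑ u ∈ n.divisors, D := by
        rw [Nat.cast_sum]
        exact sum_le_sum fun u _ => by simpa using h _
    _ ≤ τ * D := by
        rw [sum_const, nsmul_eq_mul]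
        exact mul_le_mul_of_nonneg_right (hτ n hn) hD

theorem t_M46 (hMOMG : S_MOMG) : S_M46 := by
  intro U f T τ x hT hU hf
  have hU1 : (1 : ℝ) ≤ U := by exact_mod_cast hU
  have pos : ∀ {y : ℝ}, 1 ≤ y → TauB y τ → 0 ≤ τ := fun hy h =>
    (Nat.cast_nonneg _).trans (h 1 (by simpa using hy))
  have a1 : ∀ u ∈ Icc 1 U, 1 ≤ u ∧ (u : ℝ) ≤ U := fun u hu =>
    ⟨(mem_Icc.1 hu).1, by exact_mod_cast (mem_Icc.1 hu).2⟩
  have c1 : ∀ n : ℕ, (((Icc 1 U).filter fun i => i = n).card : ℝ) ≤ 1 := fun n => by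
    have : ((Icc 1 U).filter fun i => i = n).card ≤ 1 := card_le_one.2 fun a ha b hb =>
      (mem_filter.1 ha).2.trans (mem_filter.1 hb).2.symm
    exact_mod_cast this
  have a2 : ∀ p ∈ Icc 1 U ×ˢ Icc 1 U, 1 ≤ p.1 * p.2 ∧ ((p.1 * p.2 : ℕ) : ℝ) ≤ (U : ℝ) ^ 2 :=
    fun p hp => by
      obtain ⟨h1, h2⟩ := mem_product.1 hp
      refine ⟨Nat.mul_pos (a1 _ h1).1 (a1 _ h2).1, ?_⟩
      rw [Nat.cast_mul, sq]
      exact mul_le_mul (a1 _ h1).2 (a1 _ h2).2 (Nat.cast_nonneg _) (Nat.cast_nonneg _)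
  have c2 : TauB ((U : ℝ) ^ 2) τ → ∀ n : ℕ,
      (((Icc 1 U ×ˢ Icc 1 U).filter fun p => p.1 * p.2 = n).card : ℝ) ≤ τ := fun h n => by
    simpa using m46_cnt (Icc 1 U) (fun u => u) U zero_le_one a1 (by rwa [← sq])
      (pos (one_le_pow₀ hU1) h) c1 n
  have e2 : ∀ y, dp (Icc 1 U) f y * dp (Icc 1 U) f y = _ := fun y =>
    m46_mul (Icc 1 U) f (fun u => u) (fun u hu => (a1 u hu).1) U f y
  have n2 : ∀ p : ℕ × ℕ, ‖f p.1 * f p.2‖ ≤ 1 := fun p =>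
    (norm_mul_le _ _).trans (mul_le_one₀ (hf _) (norm_nonneg _) (hf _))
  refine ⟨fun h => ?_, fun h => ?_⟩
  · have := hMOMG _ (Icc 1 U ×ˢ Icc 1 U) (fun p => f p.1 * f p.2) (fun p => p.1 * p.2) T
      ((U : ℝ) ^ 2) τ x hT (by positivity) (fun p hp => ⟨n2 p, a2 p hp⟩) (c2 h)
    simp only [← e2, norm_mul] at this
    rw [card_product, Nat.card_Icc, Nat.add_sub_cancel, Nat.cast_mul] at this
    refine le_trans (le_of_eq ?_) (this.trans_eq (by ring))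
    congr 1
    funext t
    ring
  · have h0 := pos (one_le_pow₀ hU1) h
    have h' : TauB ((U : ℝ) ^ 2) τ := fun m hm => h m (hm.trans (pow_le_pow_right₀ hU1 (by norm_num)))
    have e3 := fun y => m46_mul (Icc 1 U ×ˢ Icc 1 U) (fun p => f p.1 * f p.2) (fun p => p.1 * p.2)
      (fun p hp => (a2 p hp).1) U f y
    have c3 := m46_cnt (Icc 1 U ×ˢ Icc 1 U) (fun p => p.1 * p.2) U h0 a2 (by rwa [← pow_succ']) h0
      (c2 h')
    have := hMOMG _ (Icc 1 U ×ˢ Icc 1 U ×ˢ Icc 1 U) (fun p => f p.1 * (f p.2.1 * f p.2.2))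
      (fun p => p.1 * (p.2.1 * p.2.2)) T ((U : ℝ) ^ 3) (τ * τ) x hT (by positivity)
      (fun p hp => ?_) c3
    · simp only [← e3, ← e2, norm_mul] at this
      rw [card_product, card_product, Nat.card_Icc, Nat.add_sub_cancel, Nat.cast_mul,
        Nat.cast_mul] at this
      refine le_trans (le_of_eq ?_) (this.trans_eq (by ring))
      congr 1
      funext t
      ring
    · obtain ⟨h1, h2⟩ := mem_product.1 hp
      refine ⟨(norm_mul_le _ _).trans (mul_le_one₀ (hf _) (norm_nonneg _) (n2 _)),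
        Nat.mul_pos (a1 _ h1).1 (a2 _ h2).1, ?_⟩
      rw [Nat.cast_mul, pow_succ']
      exact mul_le_mul (a1 _ h1).2 (a2 _ h2).2 (Nat.cast_nonneg _) (Nat.cast_nonneg _)

end Pool.Agent.P.MP_8be758_nt.Av3
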