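import Pool.Agent.P.MP_8be758_nt.Av3.BasB

/-! The step `S_MAJ`. -/

namespace Pool.Agent.P.MP_8be758_nt.Av3

open Finset Real Filter Topology
open Pool.Agent.P.MP_e86632_nt (ee)
open Pool.Agent.P.MP_8be758_nt.Avg Pool.Agent.P.MP_8be758_nt.Av2

theorem maj_cut (z x y : ℝ) (lam : Finset ℕ → ℝ) :
    cut x y (svL z lam) =
      fun u => ∑ E ∈ (PL z).powerset, lam E * cut x y (dv (∏ p ∈ E, p)) u := by
  funext u
  by_cases h : x < u ∧ (u : ℝ) ≤ y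
  · simp only [cut_pos _ h.1 h.2, svL, dv, mul_ite, mul_one, mul_zero]
  · simp only [cut_neg _ h, mul_zero, sum_const_zero]

theorem maj_bx (z x1 x2 w1 w2 : ℝ) (lam : Finset ℕ → ℝ) (u : ℕ) :
    bx (svL z lam) (svL z lam) x1 x2 w1 w2 u = ∑ E ∈ (PL z).powerset, ∑ F ∈ (PL z).powerset,
      lam E * lam F * bx (dv (∏ p ∈ E, p)) (dv (∏ p ∈ F, p)) x1 x2 w1 w2 u := by
  rw [bx, maj_cut, maj_cut, cv_sum_left]
  refine sum_congr rfl fun E _ => ?_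
  rw [cv_smul_left, cv_sum, mul_sum]
  refine sum_congr rfl fun F _ => ?_
  rw [cv_smul, bx, mul_assoc]

theorem maj_cv (z x1 x2 w1 w2 ρ : ℝ) (lam : Finset ℕ → ℝ) (c : ℕ → ℝ) (a : ℕ) :
    cv c (bd (svL z lam) (svL z lam) x1 x2 w1 w2 ρ) a =
      ∑ E ∈ (PL z).powerset, ∑ F ∈ (PL z).powerset,
        lam E * lam F * cv c (bd (dv (∏ p ∈ E, p)) (dv (∏ p ∈ F, p)) x1 x2 w1 w2 ρ) a := by
  have e : bd (svL z lam) (svL z lam) x1 x2 w1 w2 ρ = fun u => ∑ E ∈ (PL z).powerset,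
      ∑ F ∈ (PL z).powerset,
        lam E * lam F * bd (dv (∏ p ∈ E, p)) (dv (∏ p ∈ F, p)) x1 x2 w1 w2 ρ u := by
    funext u
    simp only [bd, maj_bx, mul_sub, sum_sub_distrib]
  rw [e, cv_sum]
  refine sum_congr rfl fun E _ => ?_
  rw [cv_sum]
  exact sum_congr rfl fun F _ => cv_smul _ _ _ _

theorem maj_sum {ι : Type*} (P : Finset ι) (I : Finset ℕ) (lam : ι → ℝ) (t : ι → ι → ℕ → ℝ)
    {Z M : ℝ} (hM : 0 ≤ M) (hZ : ∑ E ∈ P, |lam E| ≤ Z)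
    (h : ∀ E ∈ P, ∀ F ∈ P, lam E ≠ 0 → |∑ a ∈ I, t E F a| ≤ M) :
    |∑ a ∈ I, ∑ E ∈ P, ∑ F ∈ P, lam E * lam F * t E F a| ≤ Z ^ 2 * M := by
  have h0 : 0 ≤ ∑ E ∈ P, |lam E| := sum_nonneg fun _ _ => abs_nonneg _
  rw [sum_comm]
  calc _ ≤ ∑ E ∈ P, ∑ F ∈ P, |lam E| * |lam F| * M := by
        refine (abs_sum_le_sum_abs _ _).trans (sum_le_sum fun E hE => ?_)
        rw [sum_comm]
        refine (abs_sum_le_sum_abs _ _).trans (sum_le_sum fun F hF => ?_)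
        rw [← mul_sum, abs_mul, abs_mul]
        by_cases e : lam E = 0
        · simp [e]
        · exact mul_le_mul_of_nonneg_left (h E hE F hF e) (by positivity)
    _ = (∑ E ∈ P, |lam E|) ^ 2 * M := by
        rw [sq, sum_mul_sum, sum_mul]
        exact sum_congr rfl fun E _ => (sum_mul _ _ _).symm
    _ ≤ Z ^ 2 * M := mul_le_mul_of_nonneg_right (pow_le_pow_left₀ h0 hZ 2) hM

theorem maj_num {C Z N u v : ℝ} (hZ : 0 < Z) (hN : 0 < N) (hu : 0 < u) (hv : 0 < v)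
    (h1 : 6 * C * Z ^ 174 ≤ u) (h2 : 2 * C * Z ^ 217 ≤ v) :
    Z ^ 2 * (C * Z * Z ^ 70 * (3 * N / u + Z ^ 41 * N * (Z ^ 2 / v))) ≤ N / Z ^ 101 := by
  rw [le_div_iff₀ (by positivity)]
  have e : Z ^ 2 * (C * Z * Z ^ 70 * (3 * N / u + Z ^ 41 * N * (Z ^ 2 / v))) * Z ^ 101 =
      N / 2 * (6 * C * Z ^ 174 / u + 2 * C * Z ^ 217 / v) := by
    field_simp
    ring
  have a1 : 6 * C * Z ^ 174 / u ≤ 1 := (div_le_one hu).2 h1
  have a2 : 2 * C * Z ^ 217 / v ≤ 1 := (div_le_one hv).2 h2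
  rw [e]
  nlinarith

theorem t_MAJ (hMAJ0 : S_MAJ0) (ζ : ℝ) (h0 : 0 < ζ) (h1 : ζ ≤ 1 / 10000) : S_MAJ ζ := by
  obtain ⟨C, hC, H⟩ := hMAJ0
  filter_upwards [eventually_ge_atTop (3 : ℝ), ev_zq h0 4 1,
    ev_zq_pow ζ (6 * C) 174 (a := 0) (b := 1 / 20) (by push_cast; linarith),
    ev_zq_pow ζ (2 * C) 217 (a := 0) (b := 1 / 25) (by push_cast; linarith)] with N hN hL e1 e2
  intro z B x1 x2 w1 w2 ρ lam c hB hBN hS hlam hE hc x x' q s hq hqQ hx' hxD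
  have N0 : 0 < N := by linarith
  have Z0 := zq_pos N0 ζ
  rw [Real.rpow_zero, mul_one] at e1 e2
  rw [pow_one] at hL
  have u0 : 0 < N ^ (1 / 20 : ℝ) := Real.rpow_pos_of_pos N0 _
  have v0 : 0 < N ^ (1 / 25 : ℝ) := Real.rpow_pos_of_pos N0 _
  by_cases hx : x' ≤ x
  · rw [Ioc_eq_empty (by omega), filter_empty, sum_empty, abs_zero]
    positivity
  have hxx : x ≤ x' := by omega
  have hx1 : 1 ≤ x' := by omega
  have u1 : 1 ≤ N ^ (1 / 20 : ℝ) := Real.one_le_rpow (by linarith) (by norm_num)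
  have hw : N * N ^ (1 / 20 : ℝ) ≤ B * w1 := by
    have := hS.w0
    rwa [show (21 / 20 : ℝ) = 1 + 1 / 20 by norm_num, Real.rpow_add N0, Real.rpow_one] at this
  have B0 : 0 < B := by linarith
  have w0 : 0 < w1 := (mul_pos_iff_of_pos_left B0).1 (lt_of_lt_of_le (by positivity) hw)
  have w1' : 1 ≤ w1 := by
    have : N * 1 ≤ N * w1 := by nlinarith
    exact le_of_mul_le_mul_left this N0
  have r0 : 0 < ρ := by linarith [hS.r1]
  have x0 : 0 < x1 := lt_of_lt_of_le (by positivity) hS.x0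
  have xB : (x' : ℝ) * B ≤ 3 * N ^ 2 := (le_div_iff₀ B0).1 hx'
  have xp : (1 : ℝ) ≤ x' := by exact_mod_cast hx1
  have a1 : (x' : ℝ) / w1 ≤ 3 * N / N ^ (1 / 20 : ℝ) := by
    rw [div_le_div_iff₀ w0 u0]
    have b1 : (x' : ℝ) * (N * N ^ (1 / 20 : ℝ)) ≤ x' * (B * w1) :=
      mul_le_mul_of_nonneg_left hw (by positivity)
    have b2 : (x' : ℝ) * B * w1 ≤ 3 * N ^ 2 * w1 := mul_le_mul_of_nonneg_right xB w0.le
    refine le_of_mul_le_mul_left ?_ N0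
    nlinarith
  have a2 : 1 + Real.log x' ≤ Zq ζ N := by
    have b1 : (x' : ℝ) ≤ N ^ 3 := by nlinarith
    have b2 := Real.log_le_log (by linarith) b1
    rw [Real.log_pow] at b2
    have b3 : 1 ≤ Real.log N := by
      rw [Real.le_log_iff_exp_le N0]
      linarith [Real.exp_one_lt_d9]
    push_cast at b2
    linarith
  have l0 : 0 ≤ 1 + Real.log x' := by linarith [Real.log_nonneg xp]
  have d0 : (0 : ℝ) ≤ x' - x := sub_nonneg.2 (by exact_mod_cast hxx)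
  simp only [maj_cv]
  refine (maj_sum _ _ lam _ (by positivity) hlam fun E hE' F hF' hne => ?_).trans
    (maj_num Z0 N0 u0 v0 e1 e2)
  refine (H _ _ q s x x' c x1 x2 w1 w2 ρ (ti_prod_pos (mem_powerset.1 hE'))
    (ti_prod_pos (mem_powerset.1 hF')) hq hxx hx1 hc hS.r1 x0 w1' hS.w12).trans ?_
  have a3 : ((∏ p ∈ E, p : ℕ) : ℝ) * ρ / x1 ≤ Zq ζ N ^ 2 / N ^ (1 / 25 : ℝ) := by
    rw [div_le_div_iff₀ x0 v0, Nat.cast_prod, mul_assoc, mul_comm ρ]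
    exact mul_le_mul (hE E hE' hne) hS.x0 (by positivity) (by positivity)
  have a4 : (x' : ℝ) - x ≤ Zq ζ N ^ 41 * N := by linarith
  gcongr

end Pool.Agent.P.MP_8be758_nt.Av3
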