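import Pool.Agent.P.MP_8be758_nt.Av3.BasB

/-! The step `S_MAJ0`. -/

namespace Pool.Agent.P.MP_8be758_nt.Av3

open Finset Real Filter Topology
open Pool.Agent.P.MP_e86632_nt (ee)
open Pool.Agent.P.MP_8be758_nt.Avg Pool.Agent.P.MP_8be758_nt.Av2

theorem maj0_reg (X : ℕ) (f g J : ℕ → ℝ) (hJ : ∀ a, X < a → J a = 0) :
    ∑ a ∈ Icc 1 X, cv f g a * J a = ∑ u ∈ Icc 1 X, f u * ∑ t ∈ Icc 1 X, g t * J (u * t) := by
  simp only [mul_sum, ← mul_assoc]
  rw [← rg_regroup X (fun u t => f u * g t * J (u * t)) fun u t h => by rw [hJ _ h, mul_zero]]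
  refine sum_congr rfl fun a _ => ?_
  rw [cv, sum_mul]
  exact sum_congr rfl fun p hp => by rw [(Nat.mem_divisorsAntidiagonal.1 hp).1]

/-- the indicator of the progression in the interval -/
noncomputable def maj0_I (q s x x' a : ℕ) : ℝ :=
  if (x < a ∧ a ≤ x') ∧ a ≡ s [MOD q] then 1 else 0

/-- the periodic function -/
noncomputable def maj0_g (E q s m t : ℕ) : ℝ := dv E t * if m * t ≡ s [MOD q] then 1 else 0

/-- its mean -/
noncomputable def maj0_F (E q s m : ℕ) : ℝ := ∑ t ∈ range (q * E), maj0_g E q s m t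

theorem maj0_g0 (E q s m t : ℕ) : 0 ≤ maj0_g E q s m t := by
  unfold maj0_g dv; split_ifs <;> norm_num

theorem maj0_F0 (E q s m : ℕ) : 0 ≤ maj0_F E q s m := sum_nonneg fun _ _ => maj0_g0 _ _ _ _ _

theorem maj0_Fq (E q s m : ℕ) : maj0_F E q s m ≤ q := by
  calc maj0_F E q s m ≤ ∑ t ∈ range (q * E), if E ∣ t then (1 : ℝ) else 0 :=
        sum_le_sum fun t _ => by unfold maj0_g dv; split_ifs <;> norm_num
    _ = (((range (q * E)).filter (E ∣ ·)).card : ℝ) := by rw [sum_boole]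
    _ ≤ (((range q).image (E * ·)).card : ℝ) := by
        refine Nat.cast_le.2 (card_le_card fun t ht => ?_)
        obtain ⟨h1, k, rfl⟩ := mem_filter.1 ht
        refine mem_image.2 ⟨k, mem_range.2 ?_, rfl⟩
        rw [mem_range, mul_comm q] at h1
        exact Nat.lt_of_mul_lt_mul_left h1
    _ ≤ q := Nat.cast_le.2 (card_image_le.trans (card_range q).le)

theorem maj0_F1 {E q : ℕ} (hE : 1 ≤ E) (hq : 1 ≤ q) (s m : ℕ) :
    0 ≤ maj0_F E q s m / (q * E : ℕ) ∧ maj0_F E q s m / (q * E : ℕ) ≤ 1 := by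
  have h : (0 : ℝ) < (q * E : ℕ) := Nat.cast_pos.2 (Nat.mul_pos hq hE)
  refine ⟨div_nonneg (maj0_F0 _ _ _ _) h.le, (div_le_one h).2 ((maj0_Fq E q s m).trans ?_)⟩
  exact Nat.cast_le.2 (Nat.le_mul_of_pos_right q hE)

theorem maj0_gper (E q s m t : ℕ) : maj0_g E q s m (t + q * E) = maj0_g E q s m t := by
  have h1 : E ∣ t + q * E ↔ E ∣ t := Nat.dvd_add_left (Nat.dvd_mul_left E q)
  have h2 : m * (t + q * E) ≡ m * t [MOD q] := by
    rw [mul_add, show m * (q * E) = q * (m * E) by ring]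
    exact Nat.add_mul_mod_self_left _ _ _
  have h3 : m * (t + q * E) ≡ s [MOD q] ↔ m * t ≡ s [MOD q] :=
    ⟨fun h => h2.symm.trans h, fun h => h2.trans h⟩
  simp only [maj0_g, dv, h1, h3]

theorem maj0_Fper (E q s m k : ℕ) : maj0_F E q s (m + q * k) = maj0_F E q s m := by
  refine sum_congr rfl fun t _ => ?_
  have h2 : (m + q * k) * t ≡ m * t [MOD q] := by
    rw [add_mul, mul_assoc]
    exact Nat.add_mul_mod_self_left _ _ _
  have h3 : (m + q * k) * t ≡ s [MOD q] ↔ m * t ≡ s [MOD q] :=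
    ⟨fun h => h2.symm.trans h, fun h => h2.trans h⟩
  simp only [maj0_g, h3]

theorem maj0_in {E q : ℕ} (hE : 1 ≤ E) (hq : 1 ≤ q) (s x x' m : ℕ) (hm : 1 ≤ m) {w1 : ℝ}
    (w2 : ℝ) (hw : 1 ≤ w1) :
    |∑ t ∈ Icc 1 x', cut w1 w2 (dv E) t * maj0_I q s x x' (m * t) -
      maj0_F E q s m / (q * E : ℕ) * max 0 (min w2 (x' / m) - max w1 (x / m))| ≤
      if w1 * m ≤ x' then 3 * (q : ℝ) else 0 := by
  have hm0 : (0 : ℝ) < m := Nat.cast_pos.2 hm
  set lo := max w1 (x / m : ℝ) with hlo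
  set hi := min w2 (x' / m : ℝ) with hhi
  have lo1 : 1 ≤ lo := hw.trans (le_max_left _ _)
  have e : ∀ t : ℕ, cut w1 w2 (dv E) t * maj0_I q s x x' (m * t) =
      if lo < t ∧ (t : ℝ) ≤ hi then maj0_g E q s m t else 0 := by
    intro t
    have h1 : lo < t ∧ (t : ℝ) ≤ hi ↔ (w1 < t ∧ (t : ℝ) ≤ w2) ∧ x < m * t ∧ m * t ≤ x' := by
      rw [hlo, hhi, max_lt_iff, le_min_iff, div_lt_iff₀ hm0, le_div_iff₀ hm0, mul_comm (t : ℝ),
        ← Nat.cast_mul, Nat.cast_lt, Nat.cast_le]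
      tauto
    simp only [h1, cut, maj0_I, maj0_g]
    by_cases a : w1 < t ∧ (t : ℝ) ≤ w2 <;> by_cases b : x < m * t ∧ m * t ≤ x' <;> simp [a, b]
  simp only [e]
  by_cases hl : lo ≤ hi
  · have h1 : w1 * m ≤ x' :=
      (le_div_iff₀ hm0).1 (((le_max_left _ _).trans hl).trans (min_le_right _ _))
    have h2 : ∑ t ∈ Icc 1 x', (if lo < t ∧ (t : ℝ) ≤ hi then maj0_g E q s m t else 0) =
        ∑ t ∈ Ico (⌊lo⌋₊ + 1) (⌊hi⌋₊ + 1), maj0_g E q s m t := by
      rw [← sum_filter]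
      refine sum_congr (Finset.ext fun t => ?_) fun _ _ => rfl
      rw [mem_filter, mem_Ico, mem_Icc, Nat.lt_succ_iff, Nat.add_one_le_iff (n := ⌊lo⌋₊),
        Nat.floor_lt (by linarith), Nat.le_floor_iff (by linarith)]
      refine ⟨fun h => h.2, fun h => ⟨⟨Nat.cast_pos.1 (by linarith [h.1] : (0 : ℝ) < t), ?_⟩, h⟩⟩
      have : (t : ℝ) ≤ x' := (h.2.trans (min_le_right _ _)).trans
        (div_le_self (Nat.cast_nonneg _) (Nat.one_le_cast.2 hm))
      exact Nat.cast_le.1 this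
    have h3 := lib_PS.1 (maj0_g E q s m) (q * E) (⌊lo⌋₊ + 1) (⌊hi⌋₊ + 1) (Nat.mul_pos hq hE)
      (Nat.succ_le_succ (Nat.floor_mono hl)) (maj0_gper E q s m)
    rw [sum_congr rfl fun t _ => abs_of_nonneg (maj0_g0 E q s m t), ← maj0_F,
      div_mul_comm, Nat.cast_succ, Nat.cast_succ] at h3
    rw [if_pos h1, h2, max_eq_right (sub_nonneg.2 hl)]
    obtain ⟨f0, f1⟩ := maj0_F1 hE hq s m
    have f2 := maj0_Fq E q s m
    have q1 : (1 : ℝ) ≤ q := Nat.one_le_cast.2 hq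
    have a1 := Nat.floor_le (show 0 ≤ lo by linarith)
    have a2 := Nat.lt_floor_add_one lo
    have a3 := Nat.floor_le (show 0 ≤ hi by linarith)
    have a4 := Nat.lt_floor_add_one hi
    rw [abs_le] at h3 ⊢
    constructor <;> nlinarith [h3.1, h3.2]
  · rw [max_eq_left (by linarith [not_le.1 hl]), mul_zero, sub_zero,
      sum_eq_zero fun t _ => if_neg fun h => hl (h.1.le.trans h.2), abs_zero]
    split_ifs <;> positivity

/-- the periodic density -/
noncomputable def maj0_p (E1 E2 q s v u : ℕ) : ℝ :=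
  dv E1 u * (maj0_F E2 q s (v * u) / (q * E2 : ℕ))

theorem maj0_box {E2 q : ℕ} (hE : 1 ≤ E2) (hq : 1 ≤ q) (E1 s x x' v : ℕ) (hv : 1 ≤ v) {w1 : ℝ}
    (x1 x2 w2 : ℝ) (hw : 1 ≤ w1) :
    |∑ m ∈ Icc 1 x', bx (dv E1) (dv E2) x1 x2 w1 w2 m * maj0_I q s x x' (v * m) -
      ∑ u ∈ Icc 1 x', cut x1 x2 (maj0_p E1 E2 q s v) u * ln2 w1 w2 (x / v) (x' / v) u| ≤
      3 * q * (x' / w1 / v) := by
  have hv0 : (0 : ℝ) < v := Nat.cast_pos.2 hv
  rw [bx, maj0_reg x' _ _ (fun m => maj0_I q s x x' (v * m)) fun a ha =>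
    if_neg fun h => absurd (ha.trans_le ((Nat.le_mul_of_pos_left a hv).trans h.1.2)) (lt_irrefl _),
    ← sum_sub_distrib]
  calc _ ≤ ∑ u ∈ Icc 1 x', if (u : ℝ) ≤ x' / w1 / v then 3 * (q : ℝ) else 0 := by
        refine (abs_sum_le_sum_abs _ _).trans (sum_le_sum fun u hu => ?_)
        have h := maj0_in hE hq s x x' (v * u) (Nat.mul_pos hv (mem_Icc.1 hu).1) w2 hw
        have e : w1 * (v * u : ℕ) ≤ x' ↔ (u : ℝ) ≤ x' / w1 / v := by
          rw [le_div_iff₀ hv0, le_div_iff₀ (by linarith), Nat.cast_mul]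
          exact iff_of_eq (congrArg (· ≤ _) (by ring))
        simp only [e] at h
        refine le_trans ?_ h
        simp only [← mul_assoc, ln2, div_div, ← Nat.cast_mul]
        by_cases a : x1 < u ∧ (u : ℝ) ≤ x2
        · rw [cut, cut, if_pos a, if_pos a, maj0_p, mul_assoc, ← mul_sub, abs_mul]
          refine mul_le_of_le_one_left (abs_nonneg _) ?_
          unfold dv; split_ifs <;> norm_num
        · rw [cut, cut, if_neg a, if_neg a, zero_mul, zero_mul, sub_zero, abs_zero]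
          exact abs_nonneg _
    _ ≤ _ := by
        have h0 : 0 ≤ x' / w1 / v := by positivity
        rw [← sum_filter, sum_const, nsmul_eq_mul, mul_comm]
        refine mul_le_mul_of_nonneg_left (le_trans ?_ (Nat.floor_le h0)) (by positivity)
        refine Nat.cast_le.2 ((card_le_card (t := Icc 1 ⌊x' / w1 / v⌋₊) fun u hu => ?_).trans ?_)
        · rw [mem_filter, mem_Icc] at hu
          exact mem_Icc.2 ⟨hu.1.1, Nat.le_floor hu.2⟩
        · simp

theorem t_MAJ0 (hMJ1 : S_MJ1) : S_MAJ0 := by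
  refine ⟨8, by norm_num, fun E1 E2 q s x x' c x1 x2 w1 w2 ρ h1 h2 hq hx hx' hc hρ hx1 hw hw2 => ?_⟩
  have e : ∑ a ∈ (Ioc x x').filter (fun a => a ≡ s [MOD q]),
      cv c (bd (dv E1) (dv E2) x1 x2 w1 w2 ρ) a =
      ∑ a ∈ Icc 1 x', cv c (bd (dv E1) (dv E2) x1 x2 w1 w2 ρ) a * maj0_I q s x x' a := by
    simp only [maj0_I, mul_ite, mul_one, mul_zero]
    rw [← sum_filter]
    refine sum_congr (Finset.ext fun a => ?_) fun _ _ => rfl
    simp only [mem_filter, mem_Ioc, mem_Icc]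
    exact ⟨fun h => ⟨⟨by omega, h.1.2⟩, h⟩, fun h => h.2⟩
  rw [e, maj0_reg x' _ _ (maj0_I q s x x') fun a ha => if_neg fun h => absurd h.1.2 (not_le.2 ha)]
  have hxx : (0 : ℝ) ≤ x' - x := sub_nonneg.2 (Nat.cast_le.2 hx)
  set R : ℝ := 8 * q * (x' / w1 + ((x' : ℝ) - x) * (E1 * ρ / x1)) with hR
  have R0 : 0 ≤ R := by positivity
  calc _ ≤ ∑ v ∈ Icc 1 x', R * (v : ℝ)⁻¹ := by
        refine (abs_sum_le_sum_abs _ _).trans (sum_le_sum fun v hv => ?_)
        have hv1 := (mem_Icc.1 hv).1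
        have hv0 : (0 : ℝ) < v := Nat.cast_pos.2 hv1
        have hρw : w1 ≤ ρ * w1 := le_mul_of_one_le_left (by linarith) hρ
        have b1 := maj0_box h2 hq E1 s x x' v hv1 x1 x2 w2 hw
        have b2 := maj0_box h2 hq E1 s x x' v hv1 (x1 / ρ) (x2 / ρ) (ρ * w2) (hw.trans hρw)
        have b3 := hMJ1 (maj0_p E1 E2 q s v) (q * E1) x' x1 x2 w1 w2 ρ (x / v) (x' / v)
          (Nat.mul_pos hq h1) (fun u => by
            obtain ⟨f0, f1⟩ := maj0_F1 h2 hq s (v * u)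
            rw [maj0_p, dv]
            split_ifs
            · rwa [one_mul, abs_of_nonneg f0]
            · simp) (fun u => by
            have h : E1 ∣ u + q * E1 ↔ E1 ∣ u := Nat.dvd_add_left (Nat.dvd_mul_left E1 q)
            rw [maj0_p, maj0_p, mul_add, show v * (q * E1) = q * (v * E1) by ring, maj0_Fper]
            simp only [dv, h]) hρ hx1 (by linarith) hw2 (by positivity)
          (div_le_div_of_nonneg_right (Nat.cast_le.2 hx) hv0.le)
          ((div_le_self (Nat.cast_nonneg _) (Nat.one_le_cast.2 hv1)).trans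
            (le_mul_of_one_le_left (Nat.cast_nonneg _) hw))
        have b4 : (x' : ℝ) / (ρ * w1) / v ≤ x' / w1 / v := by gcongr
        have b5 : (0 : ℝ) ≤ q * (x' / w1 / v) := by positivity
        have b6 : 3 * q * ((x' : ℝ) / (ρ * w1) / v) ≤ 3 * q * (x' / w1 / v) := by gcongr
        have b7 : R * (v : ℝ)⁻¹ = 8 * (q * (x' / w1 / v)) +
            8 * ((x' : ℝ) / v - x / v) * ((q * E1 : ℕ) * ρ / x1) := by
          rw [hR, Nat.cast_mul]; ring
        rw [abs_mul]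
        refine (mul_le_of_le_one_left (abs_nonneg _) (hc v)).trans ?_
        simp only [bd, sub_mul, sum_sub_distrib]
        rw [abs_le] at b1 b2 b3 ⊢
        constructor <;> linarith [b1.1, b1.2, b2.1, b2.2, b3.1, b3.2]
    _ ≤ R * (1 + Real.log x') := by
        rw [← mul_sum]
        refine mul_le_mul_of_nonneg_left (le_trans (le_of_eq ?_) (harmonic_le_one_add_log x')) R0
        rw [harmonic_eq_sum_Icc]; push_cast; rfl
    _ = _ := by rw [hR]; ring

end Pool.Agent.P.MP_8be758_nt.Av3
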