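import Pool.Agent.P.MP_8be758_nt.Av3.BasB

/-! The step `S_MJ1`. -/

namespace Pool.Agent.P.MP_8be758_nt.Av3

open Finset Real Filter Topology
open Pool.Agent.P.MP_e86632_nt (ee)
open Pool.Agent.P.MP_8be758_nt.Avg Pool.Agent.P.MP_8be758_nt.Av2

theorem mj1_ii (p q a a' : ℝ) :
    IntervalIntegrable ((Set.Ico p q).indicator (1 : ℝ → ℝ)) MeasureTheory.volume a a' :=
  intervalIntegrable_iff.2
    ((intervalIntegrable_const (c := (1 : ℝ))).def'.indicator measurableSet_Ico)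

theorem mj1_int (p q : ℝ) {a a' : ℝ} (h : a ≤ a') :
    ∫ Y in a..a', (Set.Ico p q).indicator (1 : ℝ → ℝ) Y = max 0 (min q a' - max p a) := by
  rw [intervalIntegral.integral_of_le h, ← MeasureTheory.integral_Ico_eq_integral_Ioc,
    MeasureTheory.integral_indicator_one measurableSet_Ico,
    MeasureTheory.measureReal_restrict_apply measurableSet_Ico, Set.Ico_inter_Ico,
    Real.volume_real_Ico, max_comm]

theorem mj1_sum (c : ℕ → ℝ) (n : ℕ) (w1 w2 : ℝ) {a a' : ℝ} (h : a ≤ a') :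
    ∑ u ∈ Icc 1 n, c u * ln2 w1 w2 a a' u = ∫ Y in a..a', ∑ u ∈ Icc 1 n,
      c u / u * (Set.Ico (u * w1) (u * w2)).indicator (1 : ℝ → ℝ) Y := by
  rw [intervalIntegral.integral_finsetSum fun u _ => (mj1_ii _ _ _ _).const_mul _]
  refine sum_congr rfl fun u hu => ?_
  have u0 : (0 : ℝ) < u := by exact_mod_cast (mem_Icc.1 hu).1
  have e : (u : ℝ) * ln2 w1 w2 a a' u = max 0 (min (u * w2) a' - max (u * w1) a) := by
    rw [ln2, mul_max_of_nonneg _ _ u0.le, mul_zero, mul_sub, mul_min_of_nonneg _ _ u0.le,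
      mul_max_of_nonneg _ _ u0.le, mul_div_cancel₀ _ u0.ne', mul_div_cancel₀ _ u0.ne']
  rw [intervalIntegral.integral_const_mul, mj1_int _ _ h, ← e]
  field_simp

theorem mj1_pt (per : ℕ → ℝ) (n : ℕ) {x1 w1 w2 Y : ℝ} (x2 : ℝ) (hx : 0 < x1) (hw : 0 < w1)
    (hw2 : w1 ≤ w2) (hn : Y ≤ w1 * n) :
    ∑ u ∈ Icc 1 n, cut x1 x2 per u / u * (Set.Ico (u * w1) (u * w2)).indicator (1 : ℝ → ℝ) Y =
      ∑ u ∈ Ioc ⌊max x1 (Y / w2)⌋₊ ⌊min x2 (Y / w1)⌋₊, per u / u := by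
  have h2 : 0 < w2 := hw.trans_le hw2
  have e : Ioc ⌊max x1 (Y / w2)⌋₊ ⌊min x2 (Y / w1)⌋₊ = (Icc 1 n).filter fun u : ℕ =>
      (x1 < u ∧ (u : ℝ) ≤ x2) ∧ u * w1 ≤ Y ∧ Y < u * w2 := by
    ext u
    rw [mem_Ioc, mem_filter, mem_Icc, Nat.floor_lt (le_max_of_le_left hx.le), max_lt_iff,
      div_lt_iff₀ h2]
    rcases Nat.eq_zero_or_pos u with rfl | u0
    · simp [hx.le]
    rw [Nat.le_floor_iff' u0.ne', le_min_iff, le_div_iff₀ hw]
    refine ⟨fun h => ⟨⟨u0, ?_⟩, ⟨h.1.1, h.2.1⟩, h.2.2, h.1.2⟩,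
      fun h => ⟨⟨h.2.1.1, h.2.2.2⟩, h.2.1.2, h.2.2.1⟩⟩
    have := h.2.2.trans hn
    rw [mul_comm] at this
    exact_mod_cast le_of_mul_le_mul_left this hw
  rw [e, sum_filter]
  refine sum_congr rfl fun u _ => ?_
  by_cases c1 : x1 < u ∧ (u : ℝ) ≤ x2
  · by_cases c2 : u * w1 ≤ Y ∧ Y < u * w2
    · rw [if_pos ⟨c1, c2⟩, cut_pos _ c1.1 c1.2, Set.indicator_of_mem (Set.mem_Ico.2 c2),
        Pi.one_apply, mul_one]
    · rw [if_neg fun c => c2 c.2, Set.indicator_of_notMem (fun c => c2 (Set.mem_Ico.1 c)),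
        mul_zero]
  · rw [if_neg fun c => c1 c.1, cut_neg _ c1, zero_div, zero_mul]

theorem mj1_two (hHARM : S_HARM) {per : ℕ → ℝ} {Q : ℕ} {x1 lo ρ : ℝ} (hi : ℝ) (hQ : 1 ≤ Q)
    (h1 : ∀ u, |per u| ≤ 1) (h2 : ∀ u, per (u + Q) = per u) (hρ : 1 ≤ ρ) (hx : 0 < x1)
    (hl : x1 ≤ lo) :
    |∑ u ∈ Ioc ⌊lo⌋₊ ⌊hi⌋₊, per u / u - ∑ u ∈ Ioc ⌊lo / ρ⌋₊ ⌊hi / ρ⌋₊, per u / u| ≤
      8 * (Q * ρ / x1) := by
  have r0 : 0 < ρ := by linarith
  have l0 : 0 < lo := hx.trans_le hl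
  rcases le_total lo hi with h | h
  · have p := hHARM per Q lo hi hQ h1 h2 l0 h
    have q := hHARM per Q (lo / ρ) (hi / ρ) hQ h1 h2 (by positivity) (by gcongr)
    rw [div_div_div_cancel_right₀ r0.ne'] at q
    have e1 : 4 * (Q : ℝ) / lo ≤ 4 * (Q * ρ / x1) := by
      rw [mul_div_assoc]
      gcongr
      exact le_mul_of_one_le_right (Nat.cast_nonneg _) hρ
    have e2 : 4 * (Q : ℝ) / (lo / ρ) ≤ 4 * (Q * ρ / x1) := by
      rw [div_div_eq_mul_div, mul_assoc, mul_div_assoc]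
      gcongr
    rw [abs_le] at p q ⊢
    constructor <;> linarith [p.1, p.2, q.1, q.2]
  · rw [Ioc_eq_empty_of_le (Nat.floor_mono h),
      Ioc_eq_empty_of_le (Nat.floor_mono (div_le_div_of_nonneg_right h r0.le)), sub_self, abs_zero]
    positivity

theorem t_MJ1 (hHARM : S_HARM) : S_MJ1 := by
  intro per Q n x1 x2 w1 w2 ρ a a' hQ h1 h2 hρ hx hw hw2 ha haa hn
  have r0 : 0 < ρ := by linarith
  have ii : ∀ (c : ℕ → ℝ) (v1 v2 : ℝ), IntervalIntegrable (fun Y => ∑ u ∈ Icc 1 n,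
      c u / u * (Set.Ico (u * v1) (u * v2)).indicator (1 : ℝ → ℝ) Y) MeasureTheory.volume a a' :=
    fun c v1 v2 => by
      have := IntervalIntegrable.sum (Icc 1 n) (μ := MeasureTheory.volume) (a := a) (b := a')
        (f := fun u Y => c u / u * (Set.Ico (u * v1) (u * v2)).indicator (1 : ℝ → ℝ) Y)
        fun u _ => (mj1_ii _ _ _ _).const_mul _
      rwa [Finset.sum_fn] at this
  rw [mj1_sum _ _ _ _ haa, mj1_sum _ _ _ _ haa, ← intervalIntegral.integral_sub (ii _ _ _)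
    (ii _ _ _), ← Real.norm_eq_abs]
  refine (intervalIntegral.norm_integral_le_of_norm_le_const (C := 8 * (Q * ρ / x1))
    fun Y hY => ?_).trans_eq (by rw [abs_of_nonneg (sub_nonneg.2 haa)]; ring)
  rw [Set.uIoc_of_le haa] at hY
  have y1 : Y ≤ w1 * n := hY.2.trans hn
  have y2 : Y ≤ ρ * w1 * n := y1.trans (by
    rw [mul_assoc]
    exact le_mul_of_one_le_left (by positivity) hρ)
  rw [Real.norm_eq_abs, mj1_pt per n x2 hx hw hw2 y1, mj1_pt per n (x2 / ρ) (by positivity)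
    (by positivity) (mul_le_mul_of_nonneg_left hw2 r0.le) y2, mul_comm ρ w1, mul_comm ρ w2,
    ← div_div, ← div_div, max_div_div_right r0.le, min_div_div_right r0.le]
  exact mj1_two hHARM _ hQ h1 h2 hρ hx (le_max_left _ _)

end Pool.Agent.P.MP_8be758_nt.Av3
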