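import Pool.Agent.P.MP_8be758_nt.Av3.BasB

/-! The step `S_MNT`. -/

namespace Pool.Agent.P.MP_8be758_nt.Av3

open Finset Real Filter Topology
open Pool.Agent.P.MP_e86632_nt (ee)
open Pool.Agent.P.MP_8be758_nt.Avg Pool.Agent.P.MP_8be758_nt.Av2

theorem mnt_key (hLAYC : S_LAYC) {α : ℕ → ℝ} {X Q D e κ y : ℝ} (h : Maj α X Q D e)
    (h1 : Real.exp (y + κ) ≤ X) (h2 : Real.exp (y + κ) + 1 ≤ Real.exp (y - κ) + D) {q : ℕ}
    (q1 : 1 ≤ q) (hq : (q : ℝ) ≤ Q) (s : ℕ) {w : ℕ → ℝ} (hw : UM w) :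
    |∑ a ∈ Iw κ y, w a * if a ≡ s [MOD q] then α a else 0| ≤ e := by
  refine hLAYC _ _ _ w e hw fun x x' a b => ?_
  have c : (x' : ℝ) ≤ Real.exp (y + κ) := (Nat.le_floor_iff (Real.exp_pos _).le).1 b
  have d : (⌊Real.exp (y - κ)⌋₊ : ℝ) ≤ x := by exact_mod_cast a
  have f := Nat.lt_floor_add_one (Real.exp (y - κ))
  rw [← sum_filter]
  exact h x x' q s q1 hq (c.trans h1) (by linarith)

theorem mnt_cg (μ a1 a2 : ℕ) : Cg μ a1 a2 ↔ a2 ≡ a1 + μ * (μ + 1) [MOD 2 * μ] := by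
  rw [Cg, ← Int.natCast_modEq_iff, Int.modEq_iff_dvd, Int.modEq_iff_dvd]
  push_cast
  congr! 1
  ring

theorem mnt_vr {W a s : ℕ} (h : a ≡ s [MOD W]) (k b : ℕ) : vr W k (a * b) = vr W k (s * b) := by
  unfold vr
  congr 1
  exact filter_congr fun n _ => ⟨fun e => e.trans (h.mul_right b),
    fun e => e.trans (h.mul_right b).symm⟩

theorem mnt_md {κ y : ℝ} {a : ℕ} (ha : a ∈ Iw κ y) (W k : ℕ) {b : ℕ} (hb : 1 ≤ b) :
    md W k (a * b) = vr W k (a * b) / (2 * √(Real.exp (y - κ) * b)) *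
      min 1 (Real.exp (1 / 2 * (y - κ - Real.log a))) := by
  have a0 : (0 : ℝ) < a := by exact_mod_cast Iw_pos ha
  have b0 : (0 : ℝ) < b := by exact_mod_cast hb
  have l := ((mem_Iw_log (Iw_pos ha)).1 ha).1
  have e : √(a : ℝ) = Real.exp (Real.log a / 2) := by rw [Real.exp_half, Real.exp_log a0]
  rw [min_eq_right (Real.exp_le_one_iff.2 (by linarith)), md, Nat.cast_mul, Real.sqrt_mul a0.le,
    Real.sqrt_mul (Real.exp_pos _).le, ← Real.exp_half, e,
    show 1 / 2 * (y - κ - Real.log a) = (y - κ) / 2 - Real.log a / 2 by ring, Real.exp_sub]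
  have := Real.sqrt_pos.2 b0
  field_simp

theorem t_MNT (hLAYC : S_LAYC) : S_MNT := by
  intro α X Q D e η κ y h hα he h1 h2
  refine ⟨fun μ R hμ hQ => ?_, fun W k b hW hQ hb => ?_⟩
  · rw [osj, ← nsmul_eq_mul]
    refine (norm_sum_le _ _).trans (sum_le_card_nsmul _ _ _ fun a1 _ => ?_)
    have k := mnt_key hLAYC h h1 h2 (q := 2 * μ) (by omega) (by exact_mod_cast hQ)
      (a1 + μ * (μ + 1)) ((um_gw η y).mul (um_gs R (Real.log a1)))
    refine le_trans (le_of_eq ?_) ((mul_le_mul ((abs_wd_le η y α a1).trans (hα a1)) k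
      (abs_nonneg _) zero_le_one).trans_eq (one_mul e))
    rw [← abs_mul, ← Real.norm_eq_abs, ← Complex.norm_real, mul_sum, Complex.ofReal_sum]
    refine congrArg _ (sum_congr rfl fun a2 _ => ?_)
    by_cases c : Cg μ a1 a2
    · rw [if_pos c, if_pos ((mnt_cg _ _ _).1 c)]
      simp only [ee, wd, lq, Nat.cast_zero, zero_div, zero_mul, neg_zero, mul_zero,
        Complex.ofReal_zero, Complex.exp_zero, mul_one]
      congr 1
      ring
    · rw [if_neg c, if_neg fun c' => c ((mnt_cg _ _ _).2 c')]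
      simp
  · have b0 : (0 : ℝ) < b := by exact_mod_cast hb
    have p : 0 < √(Real.exp (y - κ) * b) := Real.sqrt_pos.2 (by positivity)
    have e1 : ∑ a ∈ Iw κ y, wd η y α a * md W k (a * b) = ∑ s ∈ range W,
        vr W k (s * b) / (2 * √(Real.exp (y - κ) * b)) * ∑ a ∈ Iw κ y,
          (gw η y a * min 1 (Real.exp (1 / 2 * (y - κ - Real.log a)))) *
            if a ≡ s [MOD W] then α a else 0 := by
      simp only [mul_sum]
      rw [sum_comm]
      refine sum_congr rfl fun a ha => ?_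
      rw [sum_eq_single_of_mem (a % W) (mem_range.2 (Nat.mod_lt _ hW)) fun s hs ne => ?_,
        if_pos (Nat.mod_modEq a W).symm, mnt_md ha W k hb, mnt_vr (Nat.mod_modEq a W), wd]
      · ring
      · rw [if_neg fun c => ne ?_, mul_zero, mul_zero]
        rw [← Nat.mod_eq_of_lt (mem_range.1 hs)]
        exact c.symm
    rw [e1]
    refine (abs_sum_le_sum_abs _ _).trans ((sum_le_card_nsmul _ _
      (W / √(Real.exp (y - κ) * b) * e) fun s _ => ?_).trans_eq ?_)
    · rw [abs_mul, abs_of_nonneg (by positivity)]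
      refine mul_le_mul ?_ (mnt_key hLAYC h h1 h2 hW hQ s
        ((um_gw η y).mul (um_exp (by norm_num) (y - κ)))) (abs_nonneg _) (by positivity)
      have : (vr W k (s * b) : ℝ) ≤ W := by exact_mod_cast vr_le _ _ _
      gcongr
      linarith
    · rw [card_range, nsmul_eq_mul]
      ring

end Pool.Agent.P.MP_8be758_nt.Av3
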