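import Pool.Agent.P.MP_8be758_nt.Av3.BasB

/-! The step `S_MOMG`. -/

namespace Pool.Agent.P.MP_8be758_nt.Av3

open Finset Real Filter Topology
open Pool.Agent.P.MP_e86632_nt (ee)
open Pool.Agent.P.MP_8be758_nt.Avg Pool.Agent.P.MP_8be758_nt.Av2

theorem momg_inj {c : ℝ} (hc : 0 < c) (S : Finset ℕ) (φ : ℕ → ℕ) (hi : Set.InjOn φ S)
    (h1 : ∀ n ∈ S, 1 ≤ φ n) : ∑ n ∈ S, Real.exp (-(c * φ n)) ≤ 1 / c := by
  rw [← sum_image (f := fun b : ℕ => Real.exp (-(c * b))) hi, le_div_iff₀ hc, mul_comm, mul_sum]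
  refine (sum_le_sum_of_subset_of_nonneg (t := Icc 1 (S.sup φ)) (fun b hb => ?_)
    fun _ _ _ => by positivity).trans
    ((prim_geo c _).trans (sub_le_self _ (Real.exp_pos _).le))
  obtain ⟨n, hn, rfl⟩ := mem_image.1 hb
  exact mem_Icc.2 ⟨h1 n hn, le_sup hn⟩

theorem momg_geo {c : ℝ} (hc : 0 < c) (S : Finset ℕ) (m : ℕ) :
    ∑ n ∈ S, Real.exp (-(c * |(m : ℝ) - n|)) ≤ 1 + 2 / c := by
  have h1 := momg_inj hc (S.filter (· < m)) (fun n => m - n) (fun a ha b hb e => by
    have := (mem_filter.1 ha).2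
    have := (mem_filter.1 hb).2
    simp only at e
    omega) fun n hn => by have := (mem_filter.1 hn).2; omega
  have h2 := momg_inj hc (S.filter (m < ·)) (fun n => n - m) (fun a ha b hb e => by
    have := (mem_filter.1 ha).2
    have := (mem_filter.1 hb).2
    simp only at e
    omega) fun n hn => by have := (mem_filter.1 hn).2; omega
  have h3 : ∑ n ∈ S, (if m = n then (1 : ℝ) else 0) ≤ 1 := by
    rw [sum_ite_eq]; split_ifs <;> norm_num
  rw [sum_filter] at h1 h2
  have e : 1 + 2 / c = 1 + (1 / c + 1 / c) := by ring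
  refine e ▸ le_trans ?_ (add_le_add h3 (add_le_add h1 h2))
  rw [← sum_add_distrib, ← sum_add_distrib]
  refine sum_le_sum fun n _ => ?_
  rcases lt_trichotomy n m with h | h | h
  · rw [if_neg h.ne', if_pos h, if_neg h.not_gt, Nat.cast_sub h.le,
      abs_of_nonneg (sub_nonneg.2 (Nat.cast_le.2 h.le))]
    simp
  · simp [h]
  · rw [if_neg h.ne, if_neg h.not_gt, if_pos h, Nat.cast_sub h.le, abs_sub_comm,
      abs_of_nonneg (sub_nonneg.2 (Nat.cast_le.2 h.le))]
    simp

theorem momg_log {a b Y : ℝ} (ha : 1 ≤ a) (hb : 1 ≤ b) (haY : a ≤ Y) (hbY : b ≤ Y) :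
    |a - b| / Y ≤ |Real.log a - Real.log b| := by
  wlog h : b ≤ a generalizing a b
  · rw [abs_sub_comm, abs_sub_comm (Real.log a)]
    exact this hb ha hbY haY (not_le.1 h).le
  have h1 := Real.one_sub_inv_le_log_of_pos (x := a / b) (by positivity)
  rw [Real.log_div (by positivity) (by positivity), inv_div] at h1
  rw [abs_of_nonneg (sub_nonneg.2 h)]
  refine le_trans ?_ (h1.trans (le_abs_self _))
  have e : 1 - b / a = (a - b) / a := by field_simp
  rw [e]
  gcongr

theorem t_MOMG (hWMV : S_WMV) : S_MOMG := by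
  intro ι s d m T Y D x hT hY hs hD
  have h := hWMV ι s (fun i => d i * ee (x * Real.log (m i))) (fun i => Real.log (m i) / 2) T hT
  have e : ∀ (t : ℝ) (i : ι), d i * ee ((t / 2 + x) * Real.log (m i)) =
      d i * ee (x * Real.log (m i)) * ee (t * (Real.log (m i) / 2)) := fun t i => by
    rw [mul_assoc, ← MP_e86632_nt.ee_add]
    congr 2
    ring
  simp only [e]
  refine h.trans ?_
  have hD0 : 0 ≤ D := (Nat.cast_nonneg _).trans (hD 0)
  rw [mul_sum]
  refine (sum_le_card_nsmul s _ (4 * D * (T + Y)) fun i hi => ?_).trans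
    (le_of_eq (by rw [nsmul_eq_mul]; ring))
  obtain ⟨d1, m1, mY⟩ := hs i hi
  have m1' : (1 : ℝ) ≤ m i := by exact_mod_cast m1
  have hY1 : 0 < Y := by linarith
  have hc : 0 < π * T / Y := by positivity
  have h1 : ∑ i' ∈ s, ‖d i * ee (x * Real.log (m i))‖ * ‖d i' * ee (x * Real.log (m i'))‖ *
      Real.exp (-(2 * π * T * |Real.log (m i) / 2 - Real.log (m i') / 2|)) ≤
      ∑ i' ∈ s, Real.exp (-(π * T / Y * |(m i : ℝ) - m i'|)) := by
    refine sum_le_sum fun j hj => ?_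
    obtain ⟨d2, m2, mY2⟩ := hs j hj
    have hl := momg_log m1' (by exact_mod_cast m2) mY mY2
    rw [norm_mul, norm_mul, MP_e86632_nt.norm_ee, MP_e86632_nt.norm_ee, mul_one, mul_one]
    refine (mul_le_of_le_one_left (Real.exp_pos _).le
      (mul_le_one₀ d1 (norm_nonneg _) d2)).trans (Real.exp_le_exp.2 (neg_le_neg ?_))
    rw [← sub_div, abs_div, abs_two]
    calc π * T / Y * |(m i : ℝ) - m j| = π * T * (|(m i : ℝ) - m j| / Y) := by ring
      _ ≤ π * T * |Real.log (m i) - Real.log (m j)| := by gcongr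
      _ = _ := by ring
  have h2 : ∑ i' ∈ s, Real.exp (-(π * T / Y * |(m i : ℝ) - m i'|)) ≤ D * (1 + 2 / (π * T / Y)) := by
    rw [sum_comp (fun n : ℕ => Real.exp (-(π * T / Y * |(m i : ℝ) - n|))) m]
    refine le_trans (sum_le_sum fun n _ => ?_)
      ((mul_sum _ _ D).symm.le.trans (mul_le_mul_of_nonneg_left (momg_geo hc _ (m i)) hD0))
    rw [nsmul_eq_mul]
    exact mul_le_mul_of_nonneg_right (hD n) (Real.exp_pos _).le
  calc _ ≤ π * T * (D * (1 + 2 / (π * T / Y))) := by gcongr; exact h1.trans h2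
    _ = D * (π * T + 2 * Y) := by field_simp
    _ ≤ D * (4 * T + 4 * Y) := by gcongr; exacts [Real.pi_le_four, by norm_num]
    _ = _ := by ring

end Pool.Agent.P.MP_8be758_nt.Av3
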