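import Pool.Agent.P.MP_8be758_nt.Av3.BasB

/-! The step `S_NUM2`. -/

namespace Pool.Agent.P.MP_8be758_nt.Av3

open Finset Real Filter Topology
open Pool.Agent.P.MP_e86632_nt (ee)
open Pool.Agent.P.MP_8be758_nt.Avg Pool.Agent.P.MP_8be758_nt.Av2

theorem num2_lin {s θ a b k j l t u v : ℝ} (hs : 0 < s) (t0 : 8 / 11 + 1000000 * s ≤ θ)
    (t1 : θ ≤ 8 / 11 + 1 / 100) (h1 : θ ≤ k) (h2 : 4 / 5 - (θ - 8 / 11) / 10 ≤ b)
    (h3 : b ≤ 10 / 11) (h4 : 2 ≤ s + (a + b)) (h5 : a + b ≤ s + 2) (h6 : 0 ≤ u) (h7 : 0 ≤ v)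
    (h8 : u + v ≤ s + a) (h9 : u ≤ 83 / 100) (h10 : v * 2 ≤ 3 / 10 + b) (h11 : 0 ≤ j)
    (h12 : j ≤ a - k + s) (h13 : 0 ≤ l) (h14 : l ≤ max (s * 30 - (a - b) / 2 + j) 0 + s)
    (h15 : j + a ≤ s * 128 + t) (h16 : t ≤ j + a) :
    s * 620 * 25 + ((max t (u * 2) + s) * 12 + (max 0 (v * 3 - t) + s) * 8 +
      (max (j + l * 3) (j * 4 + (max j (l * 4) + s) - t) + s) * 3) ≤
      (s * 30 - (a - b) / 2 + a) * 24 := by
  rcases max_cases (s * 30 - (a - b) / 2 + j) 0 with ⟨e1, f1⟩ | ⟨e1, f1⟩ <;>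
  rcases max_cases t (u * 2) with ⟨e2, f2⟩ | ⟨e2, f2⟩ <;>
  rcases max_cases 0 (v * 3 - t) with ⟨e3, f3⟩ | ⟨e3, f3⟩ <;>
  rcases max_cases j (l * 4) with ⟨e4, f4⟩ | ⟨e4, f4⟩ <;>
  rcases max_cases (j + l * 3) (j * 4 + (max j (l * 4) + s) - t) with ⟨e5, f5⟩ | ⟨e5, f5⟩ <;>
  linarith

theorem num2_add {N s : ℝ} (hN : 1 < N) (h : 4 ≤ N ^ s) (x y : ℝ) :
    N ^ x + N ^ y ≤ N ^ (max x y + s) := by
  have a := Real.rpow_le_rpow_of_exponent_le hN.le (le_max_left x y)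
  have b := Real.rpow_le_rpow_of_exponent_le hN.le (le_max_right x y)
  have c := Real.rpow_pos_of_pos (one_pos.trans hN) (max x y)
  rw [Real.rpow_add (one_pos.trans hN)]
  nlinarith

theorem num2_ex {N X : ℝ} (hN : 1 < N) (hX : 0 < X) : ∃ x : ℝ, X = N ^ x :=
  ⟨Real.logb N X, (Real.rpow_logb (one_pos.trans hN) hN.ne' hX).symm⟩

theorem t_NUM2 (θ ζ : ℝ) (hP : Pm θ ζ) : S_NUM2 θ ζ := by
  filter_upwards [ev_zq0 hP.z0 4, eventually_gt_atTop 1] with N hZ hN A B K U V h1 h2 h3 h4 h5 h6 h7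
    h8 h9 h10 J L T h11 h12 h13 h14 h15 h16
  have N0 : 0 < N := one_pos.trans hN
  have P : ∀ x : ℝ, 0 < N ^ x := Real.rpow_pos_of_pos N0
  have hB : 0 < B := (P _).trans_le h2
  have hA : 0 < A := (mul_pos_iff_of_pos_right hB).1 (lt_of_lt_of_le (by positivity) h4)
  have hT : 0 < T := (mul_pos_iff_of_pos_left (pow_pos (zq_pos N0 ζ) 128)).1
    (lt_of_lt_of_le (mul_pos (one_pos.trans_le h11) hA) h15)
  obtain ⟨a, rfl⟩ := num2_ex hN hA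
  obtain ⟨b, rfl⟩ := num2_ex hN hB
  obtain ⟨k, rfl⟩ := num2_ex hN ((P _).trans_le h1)
  obtain ⟨u, rfl⟩ := num2_ex hN (one_pos.trans_le h6)
  obtain ⟨v, rfl⟩ := num2_ex hN (one_pos.trans_le h7)
  obtain ⟨j, rfl⟩ := num2_ex hN (one_pos.trans_le h11)
  obtain ⟨l, rfl⟩ := num2_ex hN (one_pos.trans_le h13)
  obtain ⟨t, rfl⟩ := num2_ex hN hT
  have pw : ∀ (x : ℝ) (n : ℕ), (N ^ x) ^ n = N ^ (x * n) := fun x n =>
    (Real.rpow_mul_natCast N0.le x n).symm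
  have ml : ∀ x y : ℝ, N ^ x * N ^ y = N ^ (x + y) := fun x y => (Real.rpow_add N0 x y).symm
  have dv : ∀ x y : ℝ, N ^ x / N ^ y = N ^ (x - y) := fun x y => (Real.rpow_sub N0 x y).symm
  have le : ∀ {x y : ℝ}, N ^ x ≤ N ^ y ↔ x ≤ y := Real.rpow_le_rpow_left_iff hN
  have o : (1 : ℝ) = N ^ (0 : ℝ) := (Real.rpow_zero N).symm
  have n2 : N ^ 2 = N ^ (2 : ℝ) := (Real.rpow_natCast N 2).symm
  have he : et (N ^ a) (N ^ b) (Zq ζ N) = N ^ (ζ * 30 - (a - b) / 2) := by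
    rw [et, Zq, dv, Real.sqrt_eq_rpow, ← Real.rpow_mul N0.le, pw, dv]
    congr 1
    push_cast
    ring
  unfold Zq at *
  have g4 : N ^ (2 : ℝ) ≤ N ^ ζ * (N ^ a * N ^ b) := by
    rw [← n2]; nlinarith [P a, P b, mul_pos (P a) (P b), pow_pos N0 2]
  have g5 : N ^ a * N ^ b ≤ N ^ ζ * N ^ (2 : ℝ) := by rw [← n2]; nlinarith [pow_pos N0 2]
  have g8 : N ^ u * N ^ v ≤ N ^ ζ * N ^ a := h8.trans (mul_le_mul_of_nonneg_right hZ (P a).le)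
  rw [he, ml, o] at h14
  have g14 := h14.trans (num2_add hN hZ _ _)
  rw [o] at h6 h7 h11 h13
  simp only [pw, ml, dv, le, Nat.cast_ofNat] at h1 h2 h3 g4 g5 h6 h7 g8 h9 h10 h11 h12 h13 g14 h15 h16
  have k := le.2 (num2_lin hP.z0 hP.t0 hP.t1 h1 h2 h3 g4 g5 h6 h7 g8 h9 h10 h11 h12 h13 g14 h15 h16)
  have a1 := num2_add hN hZ t (u * 2)
  have a2 := num2_add hN hZ 0 (v * 3 - t)
  have a3 := num2_add hN hZ j (l * 4)
  have a4 := num2_add hN hZ (j + l * 3) (j * 4 + (max j (l * 4) + ζ) - t)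
  have a5 : N ^ j * (N ^ l) ^ 3 + (N ^ j) ^ 4 * (N ^ j + (N ^ l) ^ 4) / N ^ t ≤
      N ^ (max (j + l * 3) (j * 4 + (max j (l * 4) + ζ) - t) + ζ) := by
    refine le_trans ?_ a4
    rw [← dv, ← ml (j * 4)]
    simp only [pw, ml j, Nat.cast_ofNat]
    have := P t
    have := P (j * 4)
    gcongr
  rw [he, ml, pw, pw, pw]
  push_cast
  refine le_trans ?_ k
  rw [← ml, ← ml, ← ml (_ * 12)]
  refine mul_le_mul_of_nonneg_left ?_ (P _).le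
  have b12 := pw (max t (u * 2) + ζ) 12
  have b8 := pw (max 0 (v * 3 - t) + ζ) 8
  have b3 := pw (max (j + l * 3) (j * 4 + (max j (l * 4) + ζ) - t) + ζ) 3
  push_cast at b12 b8 b3
  rw [← b12, ← b8, ← b3, nq]
  have c1 : N ^ t + (N ^ u) ^ 2 ≤ N ^ (max t (u * 2) + ζ) := by
    simpa only [pw, Nat.cast_ofNat] using a1
  have c2 : 1 + (N ^ v) ^ 3 / N ^ t ≤ N ^ (max 0 (v * 3 - t) + ζ) := by
    simpa only [pw, dv, Nat.cast_ofNat, Real.rpow_zero] using a2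
  have := P t
  have := P j
  have := P l
  have := P v
  gcongr

end Pool.Agent.P.MP_8be758_nt.Av3
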