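import Pool.Agent.P.MP_8be758_nt.Av3.BasB

/-! The step `S_OVL`. -/

namespace Pool.Agent.P.MP_8be758_nt.Av3

open Finset Real Filter Topology
open Pool.Agent.P.MP_e86632_nt (ee)
open Pool.Agent.P.MP_8be758_nt.Avg Pool.Agent.P.MP_8be758_nt.Av2

theorem ovl_phi {a b : ℝ} (h : a ≤ b) :
    (b - a) / ((1 + |a|) * (1 + |b|)) ≤ b / (1 + |b|) - a / (1 + |a|) := by
  rw [div_sub_div _ _ (by positivity) (by positivity), mul_comm (1 + |b|) (1 + |a|)]
  refine div_le_div_of_nonneg_right ?_ (by positivity)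
  rcases abs_cases a with ⟨e, h1⟩ | ⟨e, h1⟩ <;> rcases abs_cases b with ⟨e', h2⟩ | ⟨e', h2⟩ <;>
    rw [e, e'] <;> nlinarith

theorem ovl_step (a : ℝ) {h : ℝ} (h0 : 0 < h) (h1 : h ≤ 1) :
    1 / (1 + a ^ 2) ≤ 4 / h * ((a + h) / (1 + |a + h|) - a / (1 + |a|)) := by
  refine le_trans ?_ (mul_le_mul_of_nonneg_left (ovl_phi (le_add_of_nonneg_right h0.le))
    (by positivity))
  rw [add_sub_cancel_left, ← mul_div_assoc, div_mul_cancel₀ _ h0.ne',
    div_le_div_iff₀ (by positivity) (by positivity)]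
  have h2 : |a + h| ≤ |a| + 1 := (abs_add_le _ _).trans (by rw [abs_of_pos h0]; linarith)
  have h3 := mul_le_mul_of_nonneg_left h2 (show 0 ≤ 1 + |a| by positivity)
  nlinarith [sq_abs a, sq_nonneg (|a| - 1), abs_nonneg a]

theorem ovl_sum (a : ℝ) {h : ℝ} (h0 : 0 < h) (h1 : h ≤ 1) (W : ℕ) :
    ∑ w ∈ range W, 1 / (1 + (a + w * h) ^ 2) ≤ 8 / h := by
  have hb : ∀ v : ℝ, |v / (1 + |v|)| ≤ 1 := fun v => by
    rw [abs_div, abs_of_pos (show 0 < 1 + |v| by positivity), div_le_one (by positivity)]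
    linarith
  calc _ ≤ ∑ w ∈ range W, 4 / h * ((a + (w + 1 : ℕ) * h) / (1 + |a + (w + 1 : ℕ) * h|) -
          (a + w * h) / (1 + |a + w * h|)) := sum_le_sum fun w _ => by
        rw [Nat.cast_succ, add_mul, one_mul, ← add_assoc]
        exact ovl_step _ h0 h1
    _ ≤ 4 / h * 2 := by
        rw [← mul_sum, sum_range_sub fun w : ℕ => (a + w * h) / (1 + |a + w * h|)]
        refine mul_le_mul_of_nonneg_left ?_ (by positivity)
        linarith [abs_le.1 (hb (a + W * h)), abs_le.1 (hb (a + (0 : ℕ) * h))]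
    _ = _ := by ring

theorem t_OVL : S_OVL := by
  refine ⟨2600, by norm_num, fun T δ η x s t W hT hδ hδη hη hx hs hW => ?_⟩
  have η0 : 0 < η := hδ.trans_le hδη
  have s0 : 0 < s := (mul_pos hδ hT).trans_le hs
  have hq : 1 ≤ η / δ := (one_le_div hδ).2 hδη
  have x0 : ∀ w : ℕ, 0 < x + w * s := fun w => by
    have : 0 ≤ (w : ℝ) * s := by positivity
    linarith
  have w0 := WT_pos T t
  rcases le_total |t| (8 * T) with ht | ht
  · have h1 : 1 / 65 ≤ WT T t := by
      have : (t / T) ^ 2 ≤ 8 ^ 2 := by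
        rw [← sq_abs, abs_div, abs_of_pos hT]
        exact pow_le_pow_left₀ (by positivity) ((div_le_iff₀ hT).2 ht) 2
      exact one_div_le_one_div_of_le (by positivity) (by linarith)
    set r := 4 * T * η + s with hr
    have r0 : 0 < r := by positivity
    have h2 := ovl_sum ((x - t) / r) (div_pos s0 r0)
      ((div_le_one r0).2 (le_add_of_nonneg_left (by positivity))) W
    have h3 : 8 / (s / r) ≤ 40 * (η / δ) := by
      have : 4 * T * η / s ≤ 4 * (η / δ) := by
        rw [← mul_div_assoc, div_le_div_iff₀ s0 hδ]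
        nlinarith [mul_le_mul_of_nonneg_left hs η0.le]
      rw [div_div_eq_mul_div, hr, mul_div_assoc, add_div, div_self s0.ne']
      linarith
    refine le_trans (sum_le_sum fun w hw => ?_) (h2.trans (h3.trans (by nlinarith)))
    have e : (x - t) / r + w * (s / r) = (x + w * s - t) / r := by ring
    rw [e]
    refine WT_anti (T := r) ?_
    rw [abs_div, abs_div, abs_sub_comm, abs_of_pos r0, abs_of_pos (mul_pos (x0 w) η0)]
    refine div_le_div_of_nonneg_left (abs_nonneg _) (mul_pos (x0 w) η0) ?_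
    linarith [mul_le_mul_of_nonneg_right (hW w (mem_range.1 hw)) η0.le]
  · have h1 : (W : ℝ) ≤ 4 / δ := by
      rw [le_div_iff₀ hδ]
      rcases W with _ | W
      · simp
      · have h := hW W W.lt_succ_self
        have : W * (δ * T) ≤ W * s := mul_le_mul_of_nonneg_left hs (Nat.cast_nonneg _)
        have : (W : ℝ) * δ ≤ 3 := le_of_mul_le_mul_right (by linarith) hT
        push_cast; linarith
    have h2 : ∀ w ∈ range W, WT ((x + w * s) * η) (t - (x + w * s)) ≤ 128 * η * WT T t := by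
      intro w hw
      have hw := hW w (mem_range.1 hw)
      have h3 : |t / (8 * T * η)| ≤ |(t - (x + w * s)) / ((x + w * s) * η)| := by
        have h4 : |t| / 2 ≤ |t - (x + w * s)| := by
          have := abs_sub_abs_le_abs_sub t (x + w * s)
          rw [abs_of_pos (x0 w)] at this
          linarith
        rw [abs_div, abs_div, abs_of_pos (by positivity : 0 < 8 * T * η),
          abs_of_pos (mul_pos (x0 w) η0), show |t| / (8 * T * η) = |t| / 2 / (4 * T * η) by ring]
        exact div_le_div₀ (abs_nonneg _) h4 (mul_pos (x0 w) η0)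
          (mul_le_mul_of_nonneg_right hw η0.le)
      refine (WT_anti h3).trans ?_
      have h5 : 1 ≤ (t / T) ^ 2 := by
        rw [← sq_abs, abs_div, abs_of_pos hT]
        exact one_le_pow₀ ((one_le_div hT).2 (by linarith))
      have e : (t / T) ^ 2 = 64 * η ^ 2 * (t / (8 * T * η)) ^ 2 := by field_simp; ring
      rw [WT, WT, mul_one_div, div_le_div_iff₀ (by positivity) (by positivity)]
      have h6 : η ^ 2 * (t / (8 * T * η)) ^ 2 ≤ η * (t / (8 * T * η)) ^ 2 :=
        mul_le_mul_of_nonneg_right (by nlinarith) (sq_nonneg _)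
      nlinarith
    refine (sum_le_card_nsmul _ _ _ h2).trans ?_
    rw [card_range, nsmul_eq_mul]
    calc _ ≤ 4 / δ * (128 * η * WT T t) := mul_le_mul_of_nonneg_right h1 (by positivity)
      _ = 512 * (η / δ * WT T t) := by ring
      _ ≤ 2600 * (η / δ * WT T t) := by gcongr; norm_num
      _ = _ := by ring

end Pool.Agent.P.MP_8be758_nt.Av3
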