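import Pool.Agent.P.MP_8be758_nt.Av3.BasB

/-! The step `S_PMJ`. -/

namespace Pool.Agent.P.MP_8be758_nt.Av3

open Finset Real Filter Topology
open Pool.Agent.P.MP_e86632_nt (ee)
open Pool.Agent.P.MP_8be758_nt.Avg Pool.Agent.P.MP_8be758_nt.Av2

/-- the bound for one modulus -/
theorem pmj_b {A K η T : ℝ} (hA : 0 < A) (hK : 0 < K) (hη : 0 < η) (hη1 : η ≤ 1 / 4)
    (hT : 0 ≤ T) (hKT : 4 * K * T ≤ η * A) (n0 : ℕ) {I : Finset ℕ} (hI : Nar A η I)
    {b : ℕ} (hb : 1 ≤ b) :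
    ∑ k ∈ KR n0, gs ((4 * k - 1) / (4 * K)) * Qf (fun _ => 1) I n0 b k ≤
      (η * √(A * b) / b + 1) * ∑ k ∈ KR n0, gs ((4 * k - 1) / (4 * K)) *
          ∑ n ∈ range n0, ∑ a ∈ I, (if FF k n = a * b then (1 : ℝ) ^ 2 else 0) +
        n0 * (n0 * (gs (T / 2) * (4 * (1 + 2 * K)))) := by
  have hb0 : (0 : ℝ) < b := by exact_mod_cast hb
  set l := η * √(A * b) with hl
  set x := (1 - η / 4) * √(A * b) - 1 / 2 with hx
  have hl0 : 0 ≤ l := by positivity
  have hg := gs_pos (T / 2)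
  have hS : ∀ (k : ℤ) (n : ℕ), 0 ≤ gs ((4 * k - 1) / (4 * K)) *
      ∑ a ∈ I, (if FF k n = a * b then (1 : ℝ) ^ 2 else 0) := fun k n =>
    mul_nonneg (gs_pos _).le (sum_nonneg fun a _ => by positivity)
  have key : ∀ (k : ℤ) (n1 n2 : ℕ), gs ((4 * k - 1) / (4 * K)) * ∑ a1 ∈ I, ∑ a2 ∈ I,
      (if n1 ≡ n2 [MOD b] ∧ FF k n1 = a1 * b ∧ FF k n2 = a2 * b then (1 : ℝ) * 1 else 0) ≤
      (if (x ≤ n2 ∧ (n2 : ℝ) ≤ x + l) ∧ n1 ≡ n2 [MOD b] then (1 : ℝ) else 0) *
          (gs ((4 * k - 1) / (4 * K)) * ∑ a ∈ I, (if FF k n1 = a * b then (1 : ℝ) ^ 2 else 0)) +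
        gs (T / 2) * gs (1 / (2 * K) * (k - 1 / 4)) := by
    intro k n1 n2
    have g1 := gs_pos ((4 * (k : ℝ) - 1) / (4 * K))
    have g2 := mul_pos hg (gs_pos (1 / (2 * K) * (k - 1 / 4)))
    have g3 := mul_nonneg (show (0 : ℝ) ≤ (if (x ≤ n2 ∧ (n2 : ℝ) ≤ x + l) ∧ n1 ≡ n2 [MOD b]
      then (1 : ℝ) else 0) by positivity) (hS k n1)
    refine prim_pt I hb _ _ _ (by linarith) fun a1 i1 a2 i2 hp e1 e2 => ?_
    rcases le_total T |(4 * (k : ℝ) - 1) / (4 * K)| with h | h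
    · have h1 := gs_split hT h
      rw [show (4 * (k : ℝ) - 1) / (4 * K) / 2 = 1 / (2 * K) * (k - 1 / 4) by field_simp] at h1
      linarith
    · rw [if_pos ⟨prim_near hA hK hη hη1 hKT hb (hI a2 i2).1 (hI a2 i2).2 e2 h, hp⟩, one_mul]
      have h1 := single_le_sum (f := fun a : ℕ => if FF k n1 = a * b then (1 : ℝ) ^ 2 else 0)
        (fun a _ => by positivity) i1
      rw [if_pos e1, one_pow] at h1
      have h2 := le_mul_of_one_le_right g1.le h1
      rw [one_pow]
      linarith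
  have hf := d13_fin lib_GS1 lib_GS2 (r := 1 / (2 * K)) (by positivity) (1 / 4) (KR n0)
  rw [one_div_one_div] at hf
  refine le_trans (sum_le_sum fun k _ => ?_ : _ ≤ ∑ k ∈ KR n0,
    ((l / b + 1) * (gs ((4 * k - 1) / (4 * K)) *
      ∑ n ∈ range n0, ∑ a ∈ I, (if FF k n = a * b then (1 : ℝ) ^ 2 else 0)) +
      n0 * (n0 * (gs (T / 2) * gs (1 / (2 * K) * (k - 1 / 4)))))) ?_
  · rw [Qf, mul_sum, mul_sum (range n0), mul_sum (range n0)]
    refine le_trans (sum_le_sum fun n1 _ => ?_ : _ ≤ ∑ n1 ∈ range n0,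
      ((l / b + 1) * (gs ((4 * k - 1) / (4 * K)) *
        ∑ a ∈ I, (if FF k n1 = a * b then (1 : ℝ) ^ 2 else 0)) +
        n0 * (gs (T / 2) * gs (1 / (2 * K) * (k - 1 / 4))))) ?_
    · rw [mul_sum]
      refine (sum_le_sum fun n2 _ => key k n1 n2).trans ?_
      rw [sum_add_distrib, ← sum_mul, sum_const, card_range, nsmul_eq_mul]
      exact add_le_add (mul_le_mul_of_nonneg_right (prim_cnt n0 n1 hb x hl0) (hS k n1)) le_rfl
    · rw [sum_add_distrib, sum_const, card_range, nsmul_eq_mul]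
  · rw [sum_add_distrib, ← mul_sum, ← mul_sum, ← mul_sum, ← mul_sum]
    gcongr

theorem pmj_num {A B η b : ℝ} (hA : 0 < A) (hB : 0 < B) (hη : 0 < η) (hb : 0 < b) :
    psi B b * (η * √(A * b) / b + 1) ≤
      2 * (η * √(A / B) + 1) * Real.exp (-(π * b / (2 * B))) := by
  have hπ := Real.pi_le_four
  have hy0 : 0 ≤ π * b / B := by positivity
  have e1 : Real.exp (-(π * b / B)) ≤ Real.exp (-(π * b / (2 * B))) := by
    refine Real.exp_le_exp.2 (neg_le_neg ?_)
    gcongr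
    linarith
  have m1 := Real.add_one_le_exp (-(π * b / B))
  have m2 := Real.exp_pos (-(π * b / B))
  have m3 : Real.exp (-(π * b / B)) ≤ 1 := Real.exp_le_one_iff.2 (by linarith)
  rw [psi_eq]
  obtain ⟨m, hm⟩ : ∃ m, m = 1 - Real.exp (-(π * b / B)) := ⟨_, rfl⟩
  rw [← hm]
  have m4 : 0 ≤ m := by linarith
  have m5 : m ≤ 1 := by linarith
  have m6 : m ^ 2 ≤ 4 * b / B := by
    have h1 : π * b / B ≤ 4 * b / B := by gcongr
    nlinarith
  have h2 : m * (√(A * b) / b) ≤ 2 * √(A / B) := by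
    refine (pow_le_pow_iff_left₀ (by positivity) (by positivity) two_ne_zero).1 ?_
    rw [mul_pow, mul_pow, div_pow, Real.sq_sqrt (by positivity), Real.sq_sqrt (by positivity)]
    calc _ ≤ 4 * b / B * (A * b / b ^ 2) := by gcongr
      _ = _ := by field_simp; norm_num
  have h3 : m * (η * √(A * b) / b + 1) ≤ 2 * (η * √(A / B) + 1) := by
    have := mul_le_mul_of_nonneg_left h2 hη.le
    rw [mul_div_assoc]
    nlinarith
  rw [mul_assoc, mul_comm]
  exact mul_le_mul h3 e1 m2.le (by positivity)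

theorem t_PMJ : S_PMJ := by
  obtain ⟨C4, c4, h4⟩ := lib_D4
  refine ⟨768 + 2 * C4, by positivity,
    fun A B K η T n0 I a1 b0 k0 e0 e1 t1 kt n1 n2 hI => ?_⟩
  have a0 : 0 < A := by linarith
  have ka : K ≤ A := by nlinarith
  have hR : Rng A I := fun a ha => ⟨(hI a ha).1, (hI a ha).2.trans (by nlinarith)⟩
  have hg := gs_pos (T / 2)
  have hQ : ∀ b k, 0 ≤ Qf (fun _ => 1) I n0 b k := fun b k => by
    unfold Qf; positivity
  have s1 : ∑ b ∈ Icc 1 n0, ∑ k ∈ KR n0, wt nuo B K b (4 * k - 1) * Qf (fun _ => 1) I n0 b k ≤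
      2 * (η * √(A / B) + 1) * dg (cw (2 * B) K) (fun _ => 1) I n0 +
        768 * (A ^ 5 * gs (T / 2)) := by
    calc _ ≤ ∑ b ∈ Icc 1 n0, (2 * (η * √(A / B) + 1) * ∑ k ∈ KR n0, cw (2 * B) K b (4 * k - 1) *
          ∑ n ∈ range n0, ∑ a ∈ I, (if FF k n = a * b then (1 : ℝ) ^ 2 else 0) +
            n0 * (n0 * (gs (T / 2) * (4 * (1 + 2 * K))))) := by
          refine sum_le_sum fun b hb => ?_
          have hb1 := (mem_Icc.1 hb).1
          have p0 := psi_nonneg b0 (Nat.cast_nonneg b)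
          have p1 := psi_le_one b0 (Nat.cast_nonneg b)
          calc _ ≤ psi B b *
                ∑ k ∈ KR n0, gs ((4 * k - 1) / (4 * K)) * Qf (fun _ => 1) I n0 b k := by
                rw [mul_sum]
                refine sum_le_sum fun k _ => ?_
                rw [wt, mul_assoc, mul_assoc]
                exact mul_le_of_le_one_left (mul_nonneg p0 (mul_nonneg (gs_pos _).le (hQ b k)))
                  (nuo_bd b).2
            _ ≤ _ := by
                refine (mul_le_mul_of_nonneg_left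
                  (pmj_b a0 k0 e0 e1 (by linarith) kt n0 hI hb1) p0).trans ?_
                rw [mul_add]
                refine add_le_add ?_ (mul_le_of_le_one_left (by positivity) p1)
                simp only [cw, mul_assoc (Real.exp _)]
                rw [← mul_sum _ _ (Real.exp _), ← mul_assoc, ← mul_assoc]
                exact mul_le_mul_of_nonneg_right (pmj_num a0 b0 e0 (by exact_mod_cast hb1))
                  (sum_nonneg fun k _ => mul_nonneg (gs_pos _).le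
                    (sum_nonneg fun n _ => sum_nonneg fun a _ => by positivity))
      _ ≤ 2 * (η * √(A / B) + 1) * dg (cw (2 * B) K) (fun _ => 1) I n0 +
          4 * A * (4 * A * (4 * A * (gs (T / 2) * (4 * (3 * (A * A)))))) := by
          rw [sum_add_distrib, ← mul_sum, sum_const, Nat.card_Icc, Nat.add_sub_cancel,
            nsmul_eq_mul]
          have h2 : 1 + 2 * K ≤ 3 * (A * A) := by nlinarith
          refine add_le_add le_rfl ?_
          gcongr
      _ = _ := by ring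
  rw [lib_D2 A n0 I _ _ a1 n1 hR (qf0_wt B _)] at s1
  have s2 : 0 ≤ dg (wt nuo B K) (fun _ => 1) I n0 :=
    sum_nonneg fun b _ => sum_nonneg fun k _ => mul_nonneg
      (disp_wt_nonneg (fun b => (nuo_bd b).1) b0 _ _ _)
      (sum_nonneg fun n _ => sum_nonneg fun a _ => by split_ifs <;> norm_num)
  have s3 := (abs_le.1 (h4 A B K 1 n0 I (fun _ => 1) nuo a1 b0 k0 n1 hR
    (fun _ => by simp) nuo_bd)).1
  have l0 : 0 ≤ 1 + Real.log A := by linarith [Real.log_nonneg a1]
  have s4 : C4 * 1 * (1 + Real.log A) * K * (A + K) / B ≤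
      2 * C4 * ((1 + Real.log A) * K * A / B) := by
    calc _ ≤ C4 * 1 * (1 + Real.log A) * K * (2 * A) / B := by gcongr; linarith
      _ = _ := by ring
  have g0 : 0 ≤ A ^ 5 * gs (T / 2) := by positivity
  have w0 : 0 ≤ (1 + Real.log A) * K * A / B := by positivity
  have x0 : 0 ≤ (η * √(A / B) + 1) * dg (cw (2 * B) K) (fun _ => 1) I n0 :=
    mul_nonneg (by positivity) (sum_nonneg fun b _ => sum_nonneg fun k _ => mul_nonneg
      (cw_pos _ _ _ _).le (sum_nonneg fun n _ => sum_nonneg fun a _ => by positivity))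
  rw [mul_assoc 2] at s1
  generalize A ^ 5 * gs (T / 2) = g at *
  generalize (1 + Real.log A) * K * A / B = w at *
  generalize (η * √(A / B) + 1) * dg (cw (2 * B) K) (fun _ => 1) I n0 = x at *
  have s7 : 0 ≤ C4 * (x + g) := by positivity
  linarith

end Pool.Agent.P.MP_8be758_nt.Av3
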