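import Pool.Agent.P.MP_8be758_nt.Av3.Basic

/-! The step `S_PR3b`. -/

namespace Pool.Agent.P.MP_8be758_nt.Av3

open Finset Real Filter Topology
open Pool.Agent.P.MP_e86632_nt (ee)
open Pool.Agent.P.MP_8be758_nt.Avg Pool.Agent.P.MP_8be758_nt.Av2

theorem pr3b_bdd {N e1 : ℝ} (hN : 1 < N) (he : 0 < e1) {n : ℕ} (hn : n ≤ 24)
    (g : Fin n → ArithmeticFunction ℝ) (hg : ∀ i, ∀ m : ℕ, (m : ℝ) ≤ N ^ 3 → |g i m| ≤ 1)
    (s : Finset (Fin n)) : Bdd N (N ^ e1) ((2 ^ ⌈3 / e1⌉₊) ^ 24) (∏ i ∈ s, g i :) := by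
  intro m hm h3
  refine (((t_PRB _ s g).1 (N ^ 3) fun i _ => hg i).1 m h3).trans ?_
  have h1 : (m : ℝ) ≤ (N ^ e1) ^ ⌈3 / e1⌉₊ := by
    rw [bx_pw (by linarith)]
    refine h3.trans ?_
    rw [← Real.rpow_natCast]
    refine Real.rpow_le_rpow_of_exponent_le hN.le ?_
    have := Nat.le_ceil (3 / e1)
    rw [div_le_iff₀ he] at this
    push_cast
    linarith
  have h2 := lib_TAU _ _ m (Real.one_lt_rpow hN he) hm h1
  have h4 : (m.divisors.card : ℝ) ≤ 2 ^ ⌈3 / e1⌉₊ := by exact_mod_cast h2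
  have h5 : s.card ≤ 24 := (card_le_univ s).trans (by simpa using hn)
  exact (pow_le_pow_left₀ (by positivity) h4 _).trans
    (pow_le_pow_right₀ (one_le_pow₀ (by norm_num)) h5)

theorem pr3b_rng {N h : ℝ} (hN : 1 < N) (h0 : 0 < h) {n : ℕ} (hn : n ≤ 24)
    (g : Fin n → ArithmeticFunction ℝ) (l : Fin n → ℝ)
    (hg : ∀ i, ∀ m : ℕ, g i m ≠ 0 → N ^ l i ≤ m ∧ (m : ℝ) ≤ N ^ (l i + h))
    (s : Finset (Fin n)) (m : ℕ) (hm : (∏ i ∈ s, g i) m ≠ 0) :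
    N ^ (∑ i ∈ s, l i) ≤ m ∧ (m : ℝ) ≤ N ^ (∑ i ∈ s, l i + 24 * h) := by
  have hN0 : 0 < N := by linarith
  have h1 := (t_PRB _ s g).2 (fun i => N ^ l i) (fun i => N ^ (l i + h))
    (fun i _ => ⟨by positivity, hg i⟩) m hm
  rw [← Real.rpow_sum_of_pos hN0, ← Real.rpow_sum_of_pos hN0] at h1
  refine ⟨h1.1, h1.2.trans (Real.rpow_le_rpow_of_exponent_le hN.le ?_)⟩
  have h5 : (s.card : ℝ) ≤ 24 := by
    exact_mod_cast (card_le_univ s).trans (by simpa using hn)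
  rw [sum_add_distrib, sum_const, nsmul_eq_mul]
  nlinarith

theorem pr3b_ms : ∃ C : ℝ, 0 < C ∧ ∀ (N e1 : ℝ), 1 < N → 0 < e1 → e1 ≤ 1 / 10 →
    2 ≤ N ^ e1 → ∀ (n : ℕ), n ≤ 24 → ∀ (g : Fin n → ArithmeticFunction ℝ),
      (∀ i, ∀ m : ℕ, (m : ℝ) ≤ N ^ 3 → |g i m| ≤ 1) → ∀ s : Finset (Fin n),
        e1 ^ 24 * ms (N ^ (10 / 11 : ℝ)) (N ^ e1) (∏ i ∈ s, g i :) ≤ C := by
  obtain ⟨C, hC, H⟩ := lib_HR
  refine ⟨(max C 1) ^ 24, by positivity, fun N e1 hN he he' hz n hn g hg s => ?_⟩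
  have hN0 : 0 < N := by linarith
  have hL := Real.log_pos hN
  have h1 := ((t_PRB _ s g).1 (N ^ 3) fun i _ => hg i).2 (N ^ (10 / 11 : ℝ)) (N ^ e1)
    (Real.one_le_rpow hN.le (by norm_num)) (by
      rw [← Real.rpow_natCast]
      exact Real.rpow_le_rpow_of_exponent_le hN.le (by norm_num))
  have h2 := (H (N ^ e1) (N ^ (10 / 11 : ℝ)) hz
    (Real.rpow_le_rpow_of_exponent_le hN.le (by linarith))).2.2
  rw [Real.log_rpow hN0, Real.log_rpow hN0] at h2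
  have h3 : ∑ d ∈ Ry (N ^ (10 / 11 : ℝ)) (N ^ e1), 1 / (d : ℝ) ≤ max C 1 / e1 := by
    refine h2.trans ?_
    rw [div_le_div_iff₀ (by positivity) he]
    have := le_max_left C 1
    have h4 : 0 < e1 * Real.log N := by positivity
    nlinarith
  have h4 : 1 ≤ max C 1 / e1 := by
    rw [le_div_iff₀ he]
    linarith [le_max_right C 1]
  have h5 : s.card ≤ 24 := (card_le_univ s).trans (by simpa using hn)
  have h6 := h1.trans ((pow_le_pow_left₀ (sum_nonneg fun _ _ => by positivity) h3 _).trans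
    (pow_le_pow_right₀ h4 h5))
  rw [div_pow, le_div_iff₀ (by positivity)] at h6
  linarith

theorem pr3b_key {N h a b : ℝ} (hN : 1 < N) (h8 : 8 ≤ N ^ h) (hab : a + h ≤ b) :
    8 * N ^ a ≤ N ^ b := by
  have hN0 : 0 < N := by linarith
  refine le_trans ?_ (Real.rpow_le_rpow_of_exponent_le hN.le hab)
  rw [Real.rpow_add hN0, mul_comm]
  exact mul_le_mul_of_nonneg_left h8 (by positivity)

theorem pr3b_U {N a h t : ℝ} (hN : 1 < N) (h8 : 8 ≤ N ^ h) (ha : 2 / 11 ≤ a) (h1 : h ≤ 1 / 200)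
    (ht : t ≤ 1) : N ^ a / 2 ≤ (⌈N ^ a⌉₊ - 1 : ℕ) ∧ N ^ (1 / 6 : ℝ) ≤ (⌈N ^ a⌉₊ - 1 : ℕ) ∧
    ((min (⌈N ^ (a + h)⌉₊ - 1) ⌊N ^ t⌋₊ : ℕ) : ℝ) ≤ (⌈N ^ a⌉₊ - 1 : ℕ) * N ^ (1 / 50 : ℝ) ∧
    ((min (⌈N ^ (a + h)⌉₊ - 1) ⌊N ^ t⌋₊ : ℕ) : ℝ) ≤ N ^ 3 := by
  have hN0 : 0 < N := by linarith
  have p1 : 0 < ⌈N ^ a⌉₊ := Nat.ceil_pos.2 (by positivity)
  have p2 : 0 < ⌈N ^ (a + h)⌉₊ := Nat.ceil_pos.2 (by positivity)
  have q1 : 1 ≤ N ^ (1 / 6 : ℝ) := Real.one_le_rpow hN.le (by norm_num)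
  have q2 := pr3b_key (a := 1 / 6) (b := a) hN h8 (by linarith)
  have q3 : N ^ a - 1 ≤ (⌈N ^ a⌉₊ - 1 : ℕ) := by
    rw [Nat.cast_pred p1]
    linarith [Nat.le_ceil (N ^ a)]
  refine ⟨by linarith, by linarith, ?_, ?_⟩
  · have r1 : ((min (⌈N ^ (a + h)⌉₊ - 1) ⌊N ^ t⌋₊ : ℕ) : ℝ) ≤ N ^ (a + h) :=
      (Nat.lt_ceil.1 (lt_of_le_of_lt (min_le_left _ _) (by omega))).le
    have r2 := pr3b_key (a := h) (b := 1 / 50) hN h8 (by linarith)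
    have r4 : N ^ a ≤ 2 * (⌈N ^ a⌉₊ - 1 : ℕ) := by linarith
    have r5 : (0 : ℝ) ≤ (⌈N ^ a⌉₊ - 1 : ℕ) := by positivity
    calc _ ≤ N ^ a * N ^ h := by rwa [← Real.rpow_add hN0]
      _ ≤ 2 * (⌈N ^ a⌉₊ - 1 : ℕ) * N ^ h := by gcongr
      _ = (⌈N ^ a⌉₊ - 1 : ℕ) * (2 * N ^ h) := by ring
      _ ≤ _ := by gcongr; linarith
  · refine le_trans (by exact_mod_cast min_le_right _ _) ((Nat.floor_le (by positivity)).trans ?_)
    rw [← Real.rpow_natCast]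
    exact Real.rpow_le_rpow_of_exponent_le hN.le (by push_cast; linarith)

theorem pr3b_P4 {θ N h b r : ℝ} (hN : 1 < N) (h8 : 8 ≤ N ^ h)
    (c1 : 4 / 5 - (θ - 8 / 11) / 10 + h ≤ b) (c2 : b ≤ 10 / 11) (c3 : 0 ≤ r)
    (c4 : r + 24 * h ≤ 41 / 50) (c5 : 2 + h ≤ 41 / 50 + b + r)
    (c6 : 2 * (r + 24 * h) + h ≤ 29 / 100 + b ∨ 4 + h ≤ 29 / 100 + 3 * b + 2 * r) :
    P4 θ N (N ^ b / 2) (N ^ r) (N ^ (r + 24 * h)) := by
  have hN0 : 0 < N := by linarith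
  have p0 : ∀ a : ℝ, 0 < N ^ a := fun a => by positivity
  refine ⟨by linarith [pr3b_key hN h8 c1, p0 (4 / 5 - (θ - 8 / 11) / 10)],
    by linarith [Real.rpow_le_rpow_of_exponent_le hN.le c2, p0 b], Real.one_le_rpow hN.le c3,
    Real.rpow_le_rpow_of_exponent_le hN.le c4, c6.imp (fun c => ⟨?_, ?_⟩) fun c => ?_⟩
  · have := pr3b_key hN h8 c5
    rw [Real.rpow_add hN0, Real.rpow_add hN0, Real.rpow_two] at this
    nlinarith [sq_nonneg N]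
  · have := pr3b_key hN h8 c
    rw [Real.rpow_add hN0, mul_comm 2, Real.rpow_mul hN0.le, Real.rpow_two] at this
    nlinarith [sq_nonneg (N ^ (r + 24 * h))]
  · have := pr3b_key hN h8 c
    rw [Real.rpow_add hN0, Real.rpow_add hN0, mul_comm 3, mul_comm 2, Real.rpow_mul hN0.le,
      Real.rpow_mul hN0.le, Real.rpow_two, Real.rpow_ofNat, Real.rpow_ofNat] at this
    rw [div_pow]
    nlinarith

theorem t_PR3b (hEXPb : S_EXPb) (θ β h : ℝ) (h0 : 0 < h) (h1 : 200 * h ≤ θ - 8 / 11)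
    (h2 : θ ≤ 8 / 11 + 1 / 100) (hβ : β = 10 / 11 - (θ - 8 / 11))
    (hG2 : S_G2 θ (119 / 100) β) (hG3 : S_G3b θ) (hG4 : S_G4b θ) : S_PR3b θ β h := by
  intro ε hε
  obtain ⟨C, hC, hms⟩ := pr3b_ms
  obtain ⟨e3, he3, H3⟩ := hG3 24 (ε / (2 * C)) (by positivity)
  obtain ⟨e4, he4, H4⟩ := hG4 48 (ε / (2 * C ^ 2)) (by positivity)
  refine ⟨min (min e3 e4) (1 / 10), by positivity, fun e1 he he' => ?_⟩
  rw [le_min_iff, le_min_iff] at he'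
  obtain ⟨R2, H2⟩ := hG2 e1 he he'.2 ((2 ^ ⌈3 / e1⌉₊) ^ 24) ε (by positivity) hε
  obtain ⟨R3, H3⟩ := H3 e1 he he'.1.1 ((2 ^ ⌈3 / e1⌉₊) ^ 24) (ε / 2) (by positivity) (by positivity)
  obtain ⟨R4, H4⟩ := H4 e1 he he'.1.2 ((2 ^ ⌈3 / e1⌉₊) ^ 24) (ε / 2) (by positivity) (by positivity)
  refine ⟨max R2 (max R3 R4), fun R hR => ?_⟩
  rw [max_le_iff, max_le_iff] at hR
  filter_upwards [H2 R hR.1, H3 R hR.2.1, H4 R hR.2.2, eventually_gt_atTop 1, ev_const 2 he,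
    ev_const 8 h0] with N G2 G3 G4 hN hz h8
  intro K X1 X2 n f w hS hn hf
  have hN0 : 0 < N := by linarith
  have p0 : ∀ a : ℝ, 0 < N ^ a := fun a => by positivity
  have mono : ∀ {a b : ℝ}, a ≤ b → N ^ a ≤ N ^ b := Real.rpow_le_rpow_of_exponent_le hN.le
  have key : ∀ {a b : ℝ}, a + h ≤ b → 8 * N ^ a ≤ N ^ b := pr3b_key hN h8
  obtain ⟨l, hl⟩ : ∃ l : Fin n → ℝ, ∀ i, l i = w i * h := ⟨_, fun _ => rfl⟩
  have el : ∀ i, ((w i : ℝ) + 1) * h = l i + h := fun i => by rw [hl]; ring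
  have l0 : ∀ i, 0 ≤ l i := fun i => by rw [hl]; positivity
  simp only [el, ← hl]
  obtain ⟨g, hg⟩ : ∃ g : Fin n → ArithmeticFunction ℝ, ∀ i,
    g i = rs (⌈N ^ l i⌉₊ - 1) (min (⌈N ^ (l i + h)⌉₊ - 1) ⌊N ^ β⌋₊) (f i) := ⟨_, fun _ => rfl⟩
  simp only [← hg]
  have sp : ∀ i (m : ℕ), g i m ≠ 0 →
      N ^ l i ≤ m ∧ (m : ℝ) ≤ N ^ (l i + h) ∧ (m : ℝ) ≤ N ^ β ∧ f i m ≠ 0 := fun i m hm =>
    pr3_supp (by positivity) (by positivity) (hg i ▸ hm)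
  have bd : ∀ i, ∀ m : ℕ, (m : ℝ) ≤ N ^ 3 → |g i m| ≤ 1 := fun i m hm =>
    hg i ▸ pr3_bd hN ((hf i).imp_left fun a => a.sml hN.le) _ _ m hm
  have bdd := pr3b_bdd hN he hn g bd
  have rng := pr3b_rng hN h0 hn g l fun i m hm => ⟨(sp i m hm).1, (sp i m hm).2.1⟩
  have msb := hms N e1 hN he he'.2 hz n hn g bd
  have zero : (∀ m, X1 < m → m ≤ X2 → (∏ i, g i) m = 0) →
      Good N (N ^ e1) R K X1 X2 (∏ i, g i :) 0 ε :=
    fun hz => ((good_zero N _ R K X1 X2).mono hN.le le_rfl hε.le).congr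
      fun m hm hm' _ => (hz m hm hm').symm
  have zero' : ∀ i, (∀ m, g i m = 0) → Good N (N ^ e1) R K X1 X2 (∏ i, g i :) 0 ε :=
    fun i hi => zero fun m _ _ => by
      rw [prod_eq_zero (mem_univ i) (ArithmeticFunction.ext hi)]; rfl
  by_cases c1 : ∃ i, β < l i
  · obtain ⟨i, hi⟩ := c1
    refine zero' i fun m => by_contra fun hm => ?_
    have := Real.rpow_lt_rpow_of_exponent_lt hN hi
    linarith [(sp i m hm).1, (sp i m hm).2.2.1]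
  push Not at c1
  by_cases c2 : ∑ i, l i < 2 - 24 * h
  · refine zero fun m hm _ => by_contra fun hc => ?_
    have a1 := (rng univ m hc).2.trans (mono (show _ ≤ (2 : ℝ) by linarith))
    rw [Real.rpow_two] at a1
    have a2 : (X1 : ℝ) < m := by exact_mod_cast hm
    linarith [hS.x1]
  by_cases c3 : 2 + h ≤ ∑ i, l i
  · refine zero fun m _ hm => by_contra fun hc => ?_
    have a1 := (key c3).trans (rng univ m hc).1
    rw [Real.rpow_two] at a1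
    have a2 : (m : ℝ) ≤ X2 := by exact_mod_cast hm
    linarith [hS.x2, pow_pos hN0 2]
  push Not at c2 c3
  rcases hEXPb n l β (fun i => ⟨l0 i, c1 i⟩) (by linarith) (by linarith) with
    ⟨S, s1, s2⟩ | ⟨S, i1, i2, hne, n1, n2, b1, b2, b3, hc⟩
  · rw [← prod_mul_prod_compl S]
    exact G2 K X1 X2 _ _ hS (bdd S) (bdd Sᶜ)
      (fun u hu => (Real.rpow_lt_rpow_of_exponent_lt hN s1).trans_le (rng S u hu).1)
      (fun u hu => (Real.rpow_lt_rpow_of_exponent_lt hN s2).trans_le (rng Sᶜ u hu).1)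
  have d1 : 2 / 11 ≤ l i1 := by linarith
  have d2 : 2 / 11 ≤ l i2 := by linarith
  have sml : ∀ i, 2 / 11 ≤ l i → Sm6 N (f i) → ∀ m, g i m = 0 := fun i hi hs m =>
    by_contra fun hm => by
      have a1 := hs.2 m (sp i m hm).2.2.2
      linarith [(sp i m hm).1, key (a := 1 / 6) (b := l i) (by linarith), p0 (1 / 6)]
  rcases hf i1 with f1 | f1
  · exact zero' i1 (sml i1 d1 f1)
  rcases hf i2 with f2 | f2
  · exact zero' i2 (sml i2 d2 f2)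
  obtain ⟨u0, u1, u2, u3⟩ := pr3b_U (t := β) hN h8 d1 (by linarith) (by linarith)
  obtain ⟨w0, w1, -, w3⟩ := pr3b_U (t := β) hN h8 d2 (by linarith) (by linarith)
  have sup : Sup N (N ^ (∑ i ∈ S, l i) / 2) (∏ i ∈ S, g i :) := fun m hm => by
    obtain ⟨a1, a2⟩ := rng S m hm
    have a3 := key (a := ∑ i ∈ S, l i + 24 * h) (b := ∑ i ∈ S, l i + 1 / 50) (by linarith)
    rw [Real.rpow_add hN0 _ (1 / 50)] at a3
    exact ⟨by linarith [p0 (∑ i ∈ S, l i)], by linarith [p0 (∑ i ∈ S, l i + 24 * h)],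
      a2.trans (mono (by linarith))⟩
  rcases hc with ⟨rfl, b4⟩ | ⟨b4, b5⟩
  · have e : ∏ i, g i = (∏ i ∈ (univ.erase i1).erase i2, g i) * (g i1 * g i2) := by
      rw [← mul_prod_erase univ g (mem_univ i1),
        ← mul_prod_erase (univ.erase i1) g (mem_erase.2 ⟨hne.symm, mem_univ i2⟩)]
      ring
    have G := G3 K X1 X2 _ _ _ _ _ _ _ _ hS
      (by linarith [key (a := 33 / 50) (b := ∑ i ∈ (univ.erase i1).erase i2, l i) (by linarith),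
        p0 (33 / 50)])
      (by linarith [mono (a := ∑ i ∈ (univ.erase i1).erase i2, l i) (b := 10 / 11) (by linarith),
        p0 (∑ i ∈ (univ.erase i1).erase i2, l i)]) (bdd _) sup f1 f2 u1 w1
      (u2.trans (mul_le_mul_of_nonneg_left (mono (by norm_num)) (by positivity))) u3 w3
    rw [← hg, ← hg, ← e] at G
    refine G.mono hN.le le_rfl ?_
    have a1 := msb ((univ.erase i1).erase i2)
    have a2 : ε / (2 * C) * C = ε / 2 := by field_simp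
    have a3 : 0 < ε / (2 * C) := by positivity
    rw [mul_assoc]
    nlinarith
  have m1 : i1 ∈ Sᶜ := mem_compl.2 n1
  have m2 : i2 ∈ Sᶜ.erase i1 := mem_erase.2 ⟨hne.symm, mem_compl.2 n2⟩
  have e : ∏ i, g i = (∏ i ∈ S, g i) * (∏ i ∈ (Sᶜ.erase i1).erase i2, g i) * (g i1 * g i2) := by
    rw [← prod_mul_prod_compl S, ← mul_prod_erase _ g m1, ← mul_prod_erase _ g m2]
    ring
  have e' : ∑ i, l i = ∑ i ∈ S, l i + (l i1 + (l i2 + ∑ i ∈ (Sᶜ.erase i1).erase i2, l i)) := by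
    rw [← sum_add_sum_compl S, ← add_sum_erase _ l m1, ← add_sum_erase _ l m2]
  have big : ∀ {a U : ℝ}, N ^ a / 2 ≤ U → ∑ i, l i - 2 * ∑ i ∈ S, l i ≤ a →
      N ^ (21 / 20 : ℝ) ≤ N ^ (∑ i ∈ S, l i) / 2 * U := fun {a U} a1 a2 => by
    have a3 := key (a := 21 / 20) (b := ∑ i ∈ S, l i + a) (by linarith)
    rw [Real.rpow_add hN0] at a3
    have a4 := mul_le_mul_of_nonneg_left a1 (p0 (∑ i ∈ S, l i)).le
    linarith [p0 (21 / 20)]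
  have G := G4 K X1 X2 _ _ _ _ _ _ _ _ _ _ _ hS (pr3b_P4 hN h8 (by linarith) (by linarith)
    (sum_nonneg fun i _ => l0 i) (by linarith) (by linarith) (by
      by_contra a
      push Not at a
      linarith [a.1, a.2])) (bdd S) (bdd ((Sᶜ.erase i1).erase i2)) sup (rng _) f1 f2 (big u0 b2)
    (big w0 b3) u2 u3 w3
  rw [← hg, ← hg, ← e] at G
  refine G.mono hN.le le_rfl ?_
  have a1 := mul_le_mul (msb S) (msb ((Sᶜ.erase i1).erase i2))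
    (mul_nonneg (by positivity) (ms_nonneg _ _ _)) hC.le
  have a2 : ε / (2 * C ^ 2) * (C * C) = ε / 2 := by field_simp
  have a3 := mul_le_mul_of_nonneg_left a1 (by positivity : 0 ≤ ε / (2 * C ^ 2))
  calc _ = ε / (2 * C ^ 2) * (e1 ^ 24 * ms (N ^ (10 / 11 : ℝ)) (N ^ e1) (∏ i ∈ S, g i :) *
        (e1 ^ 24 * ms (N ^ (10 / 11 : ℝ)) (N ^ e1) (∏ i ∈ (Sᶜ.erase i1).erase i2, g i :))) + ε / 2 := by
        ring
    _ ≤ _ := by linarith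

end Pool.Agent.P.MP_8be758_nt.Av3
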