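import Pool.Agent.P.MP_8be758_nt.Av3.Basic

/-! The step `S_PRIMb`. -/

namespace Pool.Agent.P.MP_8be758_nt.Av3

open Finset Real Filter Topology
open Pool.Agent.P.MP_e86632_nt (ee)
open Pool.Agent.P.MP_8be758_nt.Avg Pool.Agent.P.MP_8be758_nt.Av2

/-- the Gaussian in the shift is at most the Gaussian in the distance to the square root -/
theorem primb_gs {K r : ℝ} (hK : 0 < K) (hr : 0 ≤ r) {m n : ℕ} {k : ℤ} (hm : r * K ≤ √(m : ℝ))
    (e : FF k n = m) : gs ((4 * k - 1) / (4 * K)) ≤ gs (r * (n - (√(m : ℝ) - 1 / 2))) := by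
  have e1 : (n : ℝ) ^ 2 + n + k = m := by unfold FF at e; exact_mod_cast e
  have hs := Real.sq_sqrt (Nat.cast_nonneg (α := ℝ) m)
  have hn : (0 : ℝ) ≤ n := Nat.cast_nonneg n
  have hs0 := Real.sqrt_nonneg (m : ℝ)
  set s := √(m : ℝ)
  refine gs_anti ?_
  have e2 : (4 * (k : ℝ) - 1) / (4 * K) = -((n + 1 / 2 + s) / K * (n - (s - 1 / 2))) := by
    field_simp
    nlinarith
  rw [e2, abs_neg, abs_mul, abs_mul, abs_of_nonneg hr,
    abs_of_nonneg (show 0 ≤ (n + 1 / 2 + s) / K by positivity)]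
  refine mul_le_mul_of_nonneg_right ?_ (abs_nonneg _)
  rw [le_div_iff₀ hK]
  linarith

/-- at most one shift -/
theorem primb_k (s : Finset ℤ) (n : ℕ) (m : ℤ) {c : ℝ} (hc : 0 ≤ c) :
    ∑ k ∈ s, (if FF k n = m then c else 0) ≤ c := by
  have e : ∀ k : ℤ, FF k n = m ↔ k = m - ((n : ℤ) ^ 2 + n) := fun k => by
    unfold FF; constructor <;> intro h <;> linarith
  simp only [e, sum_ite_eq']
  split_ifs
  · exact le_rfl
  · exact hc

/-- the bound for one modulus -/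
theorem primb_b {A K η T r : ℝ} (hA : 0 < A) (hK : 0 < K) (hη : 0 < η) (hη1 : η ≤ 1 / 4)
    (hT : 0 ≤ T) (hKT : 4 * K * T ≤ η * A) (hr : 0 < r) (n0 : ℕ) {I : Finset ℕ} (hI : Nar A η I)
    {b : ℕ} (hb : 1 ≤ b) (hrb : ∀ a ∈ I, r * K ≤ √((a * b : ℕ) : ℝ)) :
    ∑ k ∈ KR n0, gs ((4 * k - 1) / (4 * K)) * Qf (fun _ => 1) I n0 b k ≤
      (η * √(A * b) / b + 1) *
          ∑ a ∈ I, ∑' n : ℤ, gs (r * (n - (√((a * b : ℕ) : ℝ) - 1 / 2))) +
        n0 * (n0 * (gs (T / 2) * (4 * (1 + 2 * K)))) := by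
  have hb0 : (0 : ℝ) < b := by exact_mod_cast hb
  set l := η * √(A * b) with hl
  set x := (1 - η / 4) * √(A * b) - 1 / 2 with hx
  have hl0 : 0 ≤ l := by positivity
  have hg := gs_pos (T / 2)
  set G : ℕ → ℕ → ℝ := fun a n => gs (r * (n - (√((a * b : ℕ) : ℝ) - 1 / 2))) with hG
  have hG0 : ∀ a n, 0 ≤ G a n := fun a n => (gs_pos _).le
  have hif : ∀ (k : ℤ) (n a : ℕ), 0 ≤ (if FF k n = a * b then G a n else 0) := fun k n a => by
    split_ifs
    · exact hG0 a n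
    · exact le_rfl
  have key : ∀ (k : ℤ) (n1 n2 : ℕ), gs ((4 * k - 1) / (4 * K)) * ∑ a1 ∈ I, ∑ a2 ∈ I,
      (if n1 ≡ n2 [MOD b] ∧ FF k n1 = a1 * b ∧ FF k n2 = a2 * b then (1 : ℝ) * 1 else 0) ≤
      (if (x ≤ n2 ∧ (n2 : ℝ) ≤ x + l) ∧ n1 ≡ n2 [MOD b] then (1 : ℝ) else 0) *
          ∑ a ∈ I, (if FF k n1 = a * b then G a n1 else 0) +
        gs (T / 2) * gs (1 / (2 * K) * (k - 1 / 4)) := by
    intro k n1 n2
    have g2 := mul_pos hg (gs_pos (1 / (2 * K) * (k - 1 / 4)))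
    have g3 : 0 ≤ (if (x ≤ n2 ∧ (n2 : ℝ) ≤ x + l) ∧ n1 ≡ n2 [MOD b] then (1 : ℝ) else 0) *
        ∑ a ∈ I, (if FF k n1 = a * b then G a n1 else 0) :=
      mul_nonneg (by positivity) (sum_nonneg fun a _ => hif k n1 a)
    refine prim_pt I hb _ _ _ (by linarith) fun a1 i1 a2 i2 hp e1 e2 => ?_
    rcases le_total T |(4 * (k : ℝ) - 1) / (4 * K)| with h | h
    · have h1 := gs_split hT h
      rw [show (4 * (k : ℝ) - 1) / (4 * K) / 2 = 1 / (2 * K) * (k - 1 / 4) by field_simp] at h1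
      linarith
    · rw [if_pos ⟨prim_near hA hK hη hη1 hKT hb (hI a2 i2).1 (hI a2 i2).2 e2 h, hp⟩, one_mul]
      have h1 := single_le_sum (f := fun a : ℕ => if FF k n1 = a * b then G a n1 else 0)
        (fun a _ => hif k n1 a) i1
      simp only [if_pos e1] at h1
      have h2 : gs ((4 * k - 1) / (4 * K)) ≤ G a1 n1 :=
        primb_gs hK hr.le (hrb a1 i1) (by rw [e1]; push_cast; ring)
      linarith
  have hf := d13_fin lib_GS1 lib_GS2 (r := 1 / (2 * K)) (by positivity) (1 / 4) (KR n0)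
  rw [one_div_one_div] at hf
  simp only [Qf, mul_sum (range n0)]
  rw [sum_comm]
  refine le_trans (sum_le_sum fun n1 _ => ?_ :
    _ ≤ ∑ n1 ∈ range n0, ((l / b + 1) * ∑ a ∈ I, G a n1 +
      n0 * (gs (T / 2) * (4 * (1 + 2 * K))))) ?_
  · have h0 : 0 ≤ ∑ a ∈ I, G a n1 := sum_nonneg fun a _ => hG0 a n1
    rw [sum_comm]
    refine le_trans (sum_le_sum fun n2 _ => ?_ : _ ≤ ∑ n2 ∈ range n0,
      ((if (x ≤ n2 ∧ (n2 : ℝ) ≤ x + l) ∧ n1 ≡ n2 [MOD b] then (1 : ℝ) else 0) *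
        ∑ a ∈ I, G a n1 + gs (T / 2) * (4 * (1 + 2 * K)))) ?_
    · refine (sum_le_sum fun k _ => key k n1 n2).trans ?_
      rw [sum_add_distrib, ← mul_sum, ← mul_sum, sum_comm]
      have h1 : ∑ a ∈ I, ∑ k ∈ KR n0, (if FF k n1 = a * b then G a n1 else 0) ≤
          ∑ a ∈ I, G a n1 := sum_le_sum fun a _ => primb_k _ _ _ (hG0 a n1)
      gcongr
    · rw [sum_add_distrib, ← sum_mul, sum_const, card_range, nsmul_eq_mul]
      have h1 := prim_cnt n0 n1 hb x hl0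
      gcongr
  · rw [sum_add_distrib, ← mul_sum, sum_const, card_range, nsmul_eq_mul, sum_comm]
    have h1 : ∑ a ∈ I, ∑ n ∈ range n0, G a n ≤
        ∑ a ∈ I, ∑' n : ℤ, gs (r * (n - (√((a * b : ℕ) : ℝ) - 1 / 2))) := by
      refine sum_le_sum fun a _ => ?_
      have h2 := (lib_GS1 r 0 (√((a * b : ℕ) : ℝ) - 1 / 2) hr).1.sum_le_tsum
        ((range n0).image fun n : ℕ => (n : ℤ)) fun _ _ => (gs_pos _).le
      rw [sum_image fun _ _ _ _ e => Nat.cast_injective (R := ℤ) e] at h2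
      simpa only [Int.cast_natCast] using h2
    gcongr

/-- the numerical inequality, in terms of square roots -/
theorem primb_num {u v w q η y : ℝ} (hu : 1 ≤ u) (hv : 1 ≤ v) (hw : 1 ≤ w) (hq : 1 ≤ q)
    (hη : 0 < η) (hη1 : η ≤ 1 / 4) (hy : v ^ 2 = y * w ^ 2) (h1 : u ≤ η * q ^ 2)
    (h2 : u * w ≤ η * q ^ 3) :
    (η * u / v + 1) * (q ^ 2 / (u * v) * v ^ 2 * (η * u ^ 2 + 1) + u * v * (2 * u + u * v / q)) ≤
      4 * (q ^ 2 * (η ^ 2 * u ^ 2 + u * w)) * (1 + y) := by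
  have hu0 : 0 < u := by linarith
  have hv0 : 0 < v := by linarith
  have hw0 : 0 < w := by linarith
  have hq0 : 0 < q := by linarith
  have hy0 : 0 ≤ y := by
    by_contra h
    have : y * w ^ 2 < 0 := mul_neg_of_neg_of_pos (not_le.1 h) (by positivity)
    nlinarith
  have hvw : v ≤ w * (1 + y) := by
    refine (pow_le_pow_iff_left₀ hv0.le (by positivity) two_ne_zero).1 ?_
    rw [hy, mul_pow, mul_comm y]
    gcongr
    nlinarith
  have e : (η * u / v + 1) * (q ^ 2 / (u * v) * v ^ 2 * (η * u ^ 2 + 1) +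
      u * v * (2 * u + u * v / q)) = q ^ 2 * (η ^ 2 * u ^ 2) + η * q ^ 2 + 2 * (η * u ^ 2) * u +
        η * u ^ 2 * (u * v / q) + η * q ^ 2 * (u * v) + q ^ 2 * (v / u) + 2 * (u * v) * u +
          u * w * y * (u * w / q) := by
    have : u * w * y * (u * w / q) = u ^ 2 * v ^ 2 / q := by rw [hy]; field_simp
    rw [this]
    field_simp
    ring
  have huw : 1 ≤ u * w := by nlinarith
  have huv : u * v ≤ u * w * (1 + y) := by rw [mul_assoc]; gcongr
  have h3 : u * w / q ≤ η * q ^ 2 := by rw [div_le_iff₀ hq0]; linarith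
  have h4 : u * v / q ≤ η * q ^ 2 * (1 + y) := by
    calc _ ≤ u * w * (1 + y) / q := by gcongr
      _ = u * w / q * (1 + y) := by ring
      _ ≤ _ := by gcongr
  have h5 : v / u ≤ u * w * (1 + y) := by
    refine (div_le_self hv0.le hu).trans (le_trans ?_ huv)
    nlinarith
  set P := q ^ 2 * (η ^ 2 * u ^ 2) with hP
  set Q := q ^ 2 * (u * w) with hQ
  have hP0 : 0 ≤ P := by positivity
  have hQ0 : 0 ≤ Q := by positivity
  have hPy := mul_nonneg hP0 hy0
  have hQy := mul_nonneg hQ0 hy0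
  have t2 : η * q ^ 2 ≤ Q := by
    rw [hQ, mul_comm]; gcongr; linarith
  have t3 : 2 * (η * u ^ 2) * u ≤ 2 * P := by
    calc _ ≤ 2 * (η * u ^ 2) * (η * q ^ 2) := by gcongr
      _ = _ := by rw [hP]; ring
  have t4 : η * u ^ 2 * (u * v / q) ≤ P * (1 + y) := by
    calc _ ≤ η * u ^ 2 * (η * q ^ 2 * (1 + y)) := by gcongr
      _ = _ := by rw [hP]; ring
  have t5 : η * q ^ 2 * (u * v) ≤ 1 / 4 * (Q * (1 + y)) := by
    calc _ ≤ 1 / 4 * q ^ 2 * (u * w * (1 + y)) := by gcongr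
      _ = _ := by rw [hQ]; ring
  have t6 : q ^ 2 * (v / u) ≤ Q * (1 + y) := by
    calc _ ≤ q ^ 2 * (u * w * (1 + y)) := by gcongr
      _ = _ := by rw [hQ]; ring
  have h6 : η * q ^ 2 ≤ 1 / 4 * q ^ 2 := by gcongr
  have t7 : 2 * (u * v) * u ≤ 1 / 2 * (Q * (1 + y)) := by
    calc _ ≤ 2 * (u * w * (1 + y)) * (1 / 4 * q ^ 2) := by gcongr; linarith
      _ = _ := by rw [hQ]; ring
  have t8 : u * w * y * (u * w / q) ≤ 1 / 4 * (Q * y) := by
    calc _ ≤ u * w * y * (1 / 4 * q ^ 2) := by gcongr; linarith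
      _ = _ := by rw [hQ]; ring
  have e2 : 4 * (q ^ 2 * (η ^ 2 * u ^ 2 + u * w)) * (1 + y) = 4 * (P + Q) * (1 + y) := by
    rw [hP, hQ]; ring
  rw [e, e2]
  nlinarith

/-- the weight on a dyadic block -/
theorem primb_psi {B x b : ℝ} (hB : 0 < B) (hx : 0 ≤ x) (h1 : x ≤ b) (h2 : b ≤ 2 * x) :
    psi B b * (1 + x / B) ≤ 8 * (Real.exp (-(x / B)) - Real.exp (-(2 * x / B))) := by
  have hπ := Real.pi_gt_three
  have hπ4 := Real.pi_le_four
  set y := x / B with hy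
  have hy0 : 0 ≤ y := by positivity
  have hb0 : 0 ≤ b := hx.trans h1
  have a1 : 3 * y ≤ π * b / B := by
    rw [hy, ← mul_div_assoc]; gcongr
  have a2 : π * b / B ≤ 8 * y := by
    rw [hy, ← mul_div_assoc]
    refine div_le_div_of_nonneg_right ?_ hB.le
    nlinarith
  have a3 : psi B b ≤ Real.exp (-(3 * y)) * (8 * y) := by
    rw [psi_eq]
    have := Real.add_one_le_exp (-(π * b / B))
    exact mul_le_mul (Real.exp_le_exp.2 (by linarith)) (by linarith)
      (sub_nonneg.2 (Real.exp_le_one_iff.2 (by linarith))) (Real.exp_pos _).le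
  have a4 := Real.add_one_le_exp y
  have e1 : Real.exp (-(3 * y)) * Real.exp y = Real.exp (-(2 * y)) := by
    rw [← Real.exp_add]; congr 1; ring
  have e2 : Real.exp (-(2 * y)) * Real.exp y = Real.exp (-y) := by
    rw [← Real.exp_add]; congr 1; ring
  have p2 := Real.exp_pos (-(2 * y))
  have p3 := Real.exp_pos (-(3 * y))
  rw [mul_div_assoc, ← hy]
  calc _ ≤ Real.exp (-(3 * y)) * (8 * y) * Real.exp y := by gcongr; linarith
    _ = 8 * (Real.exp (-(2 * y)) * y) := by rw [← e1]; ring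
    _ ≤ _ := by
      have := mul_le_mul_of_nonneg_left a4 p2.le
      linarith

theorem primb_tel (B : ℝ) (n : ℕ) :
    ∑ i ∈ range n, (Real.exp (-(2 ^ i / B)) - Real.exp (-(2 * 2 ^ i / B))) ≤
      Real.exp (-(1 / B)) := by
  have h := sum_range_sub' (fun i : ℕ => Real.exp (-(2 ^ i / B))) n
  simp only [pow_succ', pow_zero] at h
  rw [h]
  exact sub_le_self _ (Real.exp_pos _).le

/-- the bound for one dyadic block -/
theorem primb_blk {C A B K η x : ℝ} (hC : 0 < C) (hB : 1 ≤ B) (hBA : B ≤ A) (hK : 1 ≤ K)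
    (hη : 0 < η) (hη1 : η ≤ 1 / 4) (h1 : A ≤ η ^ 2 * K ^ 2) (h2 : A * B ≤ η ^ 2 * K ^ 3)
    (hx : 1 ≤ x) {I S : Finset ℕ} (hI : Nar A η I)
    (hS : ∀ b ∈ S, x ≤ b ∧ (b : ℝ) + 1 ≤ 2 * x ∧ (b : ℝ) ≤ 3 * A) (F : ℕ → ℝ) (hF : ∀ b, 0 ≤ F b)
    (hU : ∑ b ∈ S, F b ≤ C * (K / √(A * x) * S.card * I.card +
      √(A * x) * (√(A + x) + √(√(A * x) / (K / √(A * x)))))) :
    ∑ b ∈ S, psi B b * ((η * √(A * b) / b + 1) * F b) ≤
      32 * C * (K * (η ^ 2 * A + √(A * B))) *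
        (Real.exp (-(x / B)) - Real.exp (-(2 * x / B))) := by
  have hA : 1 ≤ A := hB.trans hBA
  have hA0 : 0 < A := by linarith
  have hK0 : 0 < K := by linarith
  have hB0 : 0 < B := by linarith
  have hx0 : 0 < x := by linarith
  have hy0 : 0 ≤ x / B := by positivity
  set D := Real.exp (-(x / B)) - Real.exp (-(2 * x / B)) with hD
  have hD0 : 0 ≤ D := sub_nonneg.2 (Real.exp_le_exp.2 (by rw [mul_div_assoc]; linarith))
  rcases S.eq_empty_or_nonempty with rfl | ⟨b0, hb0⟩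
  · rw [sum_empty]; positivity
  have hx3 : x ≤ 3 * A := (hS b0 hb0).1.trans (hS b0 hb0).2.2
  have c1 : (S.card : ℝ) ≤ x := by
    have := prim_int S x (w := x - 1) (by linarith) fun b hb => ⟨(hS b hb).1, by
      linarith [(hS b hb).2.1]⟩
    linarith
  have c2 : (I.card : ℝ) ≤ η * A + 1 :=
    prim_int I A (by positivity) fun a ha => ⟨(hI a ha).1.le, by linarith [(hI a ha).2]⟩
  have hu := Real.sq_sqrt hA0.le
  have hv := Real.sq_sqrt hx0.le
  have hw := Real.sq_sqrt hB0.le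
  have hq := Real.sq_sqrt hK0.le
  have u1 : 1 ≤ √A := Real.one_le_sqrt.2 hA
  have v1 : 1 ≤ √x := Real.one_le_sqrt.2 hx
  have w1 : 1 ≤ √B := Real.one_le_sqrt.2 hB
  have q1 : 1 ≤ √K := Real.one_le_sqrt.2 hK
  have n1 : √A ≤ η * √K ^ 2 := by
    rw [hq]; exact Real.sqrt_le_iff.2 ⟨by positivity, by rw [mul_pow]; exact h1⟩
  have n2 : √A * √B ≤ η * √K ^ 3 := by
    rw [← Real.sqrt_mul hA0.le]
    refine Real.sqrt_le_iff.2 ⟨by positivity, ?_⟩
    rw [mul_pow, ← pow_mul, mul_comm 3 2, pow_mul, hq]; exact h2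
  have hN := primb_num (y := x / B) u1 v1 w1 q1 hη hη1 (by rw [hv, hw]; field_simp) n1 n2
  rw [hu, hv, hq, ← Real.sqrt_mul hA0.le B] at hN
  have s1 : √(A + x) ≤ 2 * √A :=
    Real.sqrt_le_iff.2 ⟨by positivity, by rw [mul_pow, hu]; linarith⟩
  have s2 : √(√(A * x) / (K / √(A * x))) = √A * √x / √K := by
    rw [div_div_eq_mul_div, Real.mul_self_sqrt (by positivity), Real.sqrt_div (by positivity),
      Real.sqrt_mul hA0.le]
  rw [s2, Real.sqrt_mul hA0.le] at hU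
  have hU2 : ∑ b ∈ S, F b ≤
      C * (K / (√A * √x) * x * (η * A + 1) + √A * √x * (2 * √A + √A * √x / √K)) :=
    hU.trans (by gcongr)
  have hF0 : 0 ≤ ∑ b ∈ S, F b := sum_nonneg fun b _ => hF b
  calc _ ≤ ∑ b ∈ S, 8 * D / (1 + x / B) * ((η * √A / √x + 1) * F b) := by
        refine sum_le_sum fun b hb => ?_
        obtain ⟨b1, b2, -⟩ := hS b hb
        have b0 : (0 : ℝ) < b := by linarith
        have p1 : psi B b ≤ 8 * D / (1 + x / B) := by
          rw [le_div_iff₀ (by positivity)]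
          exact primb_psi hB0 hx0.le b1 (by linarith)
        have p2 : η * √(A * b) / b ≤ η * √A / √x := by
          rw [Real.sqrt_mul hA0.le, mul_div_assoc, mul_div_assoc, Real.sqrt_div_self',
            mul_one_div, mul_div_assoc]
          gcongr
        have p3 := hF b
        gcongr
    _ = 8 * D / (1 + x / B) * ((η * √A / √x + 1) * ∑ b ∈ S, F b) := by
        rw [← mul_sum, ← mul_sum]
    _ ≤ 8 * D / (1 + x / B) * (C * ((η * √A / √x + 1) *
        (K / (√A * √x) * x * (η * A + 1) + √A * √x * (2 * √A + √A * √x / √K)))) := by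
        rw [mul_left_comm C]
        gcongr
    _ ≤ 8 * D / (1 + x / B) * (C * (4 * (K * (η ^ 2 * A + √(A * B))) * (1 + x / B))) := by
        gcongr
    _ = _ := by field_simp; ring

theorem t_PRIMb (hUPG : S_UPG) : S_PRIMb := by
  obtain ⟨C, hC, hU⟩ := hUPG
  refine ⟨32 * C + 324, by positivity,
    fun A B K η T n0 I hB hBA hK hη hη1 hT hKT h1 h2 hn hI => ?_⟩
  have hA : 1 ≤ A := hB.trans hBA
  have hA0 : 0 < A := by linarith
  have hK0 : 0 < K := by linarith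
  have hB0 : 0 < B := by linarith
  have hg := gs_pos (T / 2)
  have hKA : K ≤ A := by nlinarith
  have hM : 0 ≤ K * (η ^ 2 * A + √(A * B)) := by positivity
  have hQ : ∀ b k, 0 ≤ Qf (fun _ => 1) I n0 b k := fun b k => by
    unfold Qf; positivity
  set F : ℕ → ℕ → ℝ := fun i b => ∑ a ∈ I, ∑' n : ℤ,
    gs (1 / (K / √(A * 2 ^ i)) * (n - (√((a * b : ℕ) : ℝ) - 1 / 2))) with hF
  have hF0 : ∀ i b, 0 ≤ F i b := fun i b =>
    sum_nonneg fun a _ => tsum_nonneg fun n => (gs_pos _).le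
  have hlog : ∀ b : ℕ, 1 ≤ b →
      (2 : ℝ) ^ Nat.log 2 b ≤ b ∧ (b : ℝ) + 1 ≤ 2 * 2 ^ Nat.log 2 b := fun b hb => by
    have a1 := Nat.pow_log_le_self 2 (x := b) (by omega)
    have a2 := Nat.lt_pow_succ_log_self (b := 2) (by norm_num) b
    rw [Nat.succ_eq_add_one, pow_succ'] at a2
    exact ⟨by exact_mod_cast a1, by exact_mod_cast a2⟩
  have main : ∑ b ∈ Icc 1 n0, psi B b * ((η * √(A * b) / b + 1) * F (Nat.log 2 b) b) ≤
      32 * C * (K * (η ^ 2 * A + √(A * B))) * 1 := by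
    rw [← sum_fiberwise_of_maps_to (s := Icc 1 n0) (t := range (n0 + 1)) (g := Nat.log 2)
      fun b hb => mem_range.2 (Nat.lt_succ_of_le ((Nat.log_le_self 2 b).trans (mem_Icc.1 hb).2))]
    refine le_trans (sum_le_sum fun i _ => ?_ : _ ≤ ∑ i ∈ range (n0 + 1),
      32 * C * (K * (η ^ 2 * A + √(A * B))) *
        (Real.exp (-(2 ^ i / B)) - Real.exp (-(2 * 2 ^ i / B)))) ?_
    · have hx : (1 : ℝ) ≤ 2 ^ i := one_le_pow₀ (by norm_num)
      have hS : ∀ b ∈ (Icc 1 n0).filter fun b => Nat.log 2 b = i,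
          (2 : ℝ) ^ i ≤ b ∧ (b : ℝ) + 1 ≤ 2 * 2 ^ i ∧ (b : ℝ) ≤ 3 * A := fun b hb => by
        obtain ⟨b1, rfl⟩ := mem_filter.1 hb
        obtain ⟨b2, b3⟩ := mem_Icc.1 b1
        exact ⟨(hlog b b2).1, (hlog b b2).2, le_trans (by exact_mod_cast b3) hn⟩
      rw [sum_congr rfl fun b hb => by rw [(mem_filter.1 hb).2]]
      refine primb_blk hC hB hBA hK hη hη1 h1 h2 hx hI hS (F i) (hF0 i) ?_
      refine hU A (2 ^ i) _ _ I hA hx (by positivity) (fun b hb => ⟨(hS b hb).1, ?_⟩)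
        fun a ha => ⟨(hI a ha).1.le, ?_⟩
      · linarith [(hS b hb).2.1]
      · nlinarith [(hI a ha).2]
    · rw [← mul_sum]
      have := (primb_tel B (n0 + 1)).trans
        (Real.exp_le_one_iff.2 (neg_nonpos.2 (show 0 ≤ 1 / B by positivity)))
      gcongr
  calc _ ≤ ∑ b ∈ Icc 1 n0, (psi B b * ((η * √(A * b) / b + 1) * F (Nat.log 2 b) b) +
          n0 * (n0 * (gs (T / 2) * (4 * (1 + 2 * K))))) := by
        refine sum_le_sum fun b hb => ?_
        have hb1 := (mem_Icc.1 hb).1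
        have hb0 : (1 : ℝ) ≤ b := by exact_mod_cast hb1
        have p0 := psi_nonneg hB0 (Nat.cast_nonneg b)
        have p1 := psi_le_one hB0 (Nat.cast_nonneg b)
        have hrb : ∀ a ∈ I, 1 / (K / √(A * 2 ^ Nat.log 2 b)) * K ≤ √((a * b : ℕ) : ℝ) := by
          intro a ha
          rw [one_div_div, div_mul_cancel₀ _ hK0.ne', Nat.cast_mul]
          have a1 := (hI a ha).1.le
          have a2 := (hlog b hb1).1
          gcongr
        calc _ ≤ psi B b * ∑ k ∈ KR n0, gs ((4 * k - 1) / (4 * K)) * Qf (fun _ => 1) I n0 b k := by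
              rw [mul_sum]
              refine sum_le_sum fun k _ => ?_
              rw [wt, mul_assoc, mul_assoc]
              exact mul_le_of_le_one_left (mul_nonneg p0 (mul_nonneg (gs_pos _).le (hQ b k)))
                (nuo_bd b).2
          _ ≤ _ := by
              refine (mul_le_mul_of_nonneg_left (primb_b hA0 hK0 hη hη1 (by linarith) hKT
                (by positivity) n0 hI hb1 hrb) p0).trans ?_
              rw [mul_add]
              exact add_le_add le_rfl (mul_le_of_le_one_left (by positivity) p1)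
    _ ≤ 32 * C * (K * (η ^ 2 * A + √(A * B))) * 1 +
          3 * A * (3 * A * (3 * A * (gs (T / 2) * (4 * (3 * (A * A)))))) := by
        rw [sum_add_distrib, sum_const, Nat.card_Icc, Nat.add_sub_cancel, nsmul_eq_mul]
        have h2 : 1 + 2 * K ≤ 3 * (A * A) := by nlinarith
        gcongr
    _ ≤ _ := by
        have a1 : 0 ≤ C * (A ^ 5 * gs (T / 2)) := by positivity
        nlinarith

end Pool.Agent.P.MP_8be758_nt.Av3
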