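import Pool.Agent.P.MP_8be758_nt.Av3.BasB

/-! The step `S_PSN`. -/

namespace Pool.Agent.P.MP_8be758_nt.Av3

open Finset Real Filter Topology
open Pool.Agent.P.MP_e86632_nt (ee)
open Pool.Agent.P.MP_8be758_nt.Avg Pool.Agent.P.MP_8be758_nt.Av2

theorem psn_sym (f : ℤ → ℂ) (J : ℕ) :
    ∑ j ∈ Ioo (-((J + 1 : ℕ) : ℤ)) ((J + 1 : ℕ) : ℤ), f j =
      f 0 + ∑ j ∈ Ico 1 (J + 1), f (j : ℕ) + ∑ j ∈ Ico 1 (J + 1), f (-((j : ℕ) : ℤ)) := by
  induction J with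
  | zero =>
    have : Ioo (-((0 + 1 : ℕ) : ℤ)) ((0 + 1 : ℕ) : ℤ) = {0} := by decide
    rw [this]
    simp
  | succ J ih =>
    have e : Ioo (-((J + 1 + 1 : ℕ) : ℤ)) ((J + 1 + 1 : ℕ) : ℤ) =
        insert ((J + 1 : ℕ) : ℤ) (insert (-((J + 1 : ℕ) : ℤ))
          (Ioo (-((J + 1 : ℕ) : ℤ)) ((J + 1 : ℕ) : ℤ))) := by
      ext x
      simp only [mem_Ioo, mem_insert]
      omega
    rw [e, sum_insert (by simp only [mem_Ioo, mem_insert]; omega),
      sum_insert (by simp only [mem_Ioo]; omega), ih,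
      sum_Ico_succ_top (by omega : 1 ≤ J + 1), sum_Ico_succ_top (by omega : 1 ≤ J + 1)]
    ring

theorem psn_gen {f : ℤ → ℂ} {S : ℂ} {G H : ℝ} (hH : 0 < H) (hG : 0 ≤ G) (hf : HasSum f S)
    (hc : ∀ j : ℤ, f (-j) = (starRingEnd ℂ) (f j)) (hb : ∀ j : ℤ, ‖f j‖ ≤ G * gs (j / (2 * H)))
    {J : ℕ} (hJ : 1 ≤ J) :
    ‖S‖ ≤ ‖f 0‖ + 2 * ‖∑ j ∈ Ico 1 J, f (j : ℕ)‖ + G * (gs (J / (4 * H)) * (4 * (1 + 4 * H))) := by
  obtain ⟨J, rfl⟩ : ∃ J', J = J' + 1 := ⟨J - 1, by omega⟩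
  set T := Ioo (-((J + 1 : ℕ) : ℤ)) ((J + 1 : ℕ) : ℤ) with hT
  have h1 : HasSum (fun j => if j ∈ T then f j else 0) (∑ j ∈ T, f j) := by
    have := hasSum_sum_of_ne_finset_zero (L := SummationFilter.unconditional ℤ)
      (f := fun j => if j ∈ T then f j else 0) (s := T) fun b hb => if_neg hb
    rwa [sum_congr rfl fun j hj => if_pos hj] at this
  have h2 : ‖S - ∑ j ∈ T, f j‖ ≤ G * (gs (((J + 1 : ℕ) : ℝ) / (4 * H)) * (4 * (1 + 4 * H))) := by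
    refine osc2_norm_le (hf.sub h1) fun s => ?_
    have p1 := (gs_pos (((J + 1 : ℕ) : ℝ) / (4 * H))).le
    have h3 : ∀ j ∈ s, ‖f j - if j ∈ T then f j else 0‖ ≤
        G * (gs (((J + 1 : ℕ) : ℝ) / (4 * H)) * gs (1 / (4 * H) * (j - 0))) := fun j _ => by
      have p2 := (gs_pos (1 / (4 * H) * (j - 0))).le
      split_ifs with hj
      · rw [sub_self, norm_zero]
        positivity
      · rw [sub_zero]
        refine (hb j).trans (mul_le_mul_of_nonneg_left ?_ hG)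
        have h4 : ((J + 1 : ℕ) : ℝ) ≤ |(j : ℝ)| := by
          have : ((J + 1 : ℕ) : ℤ) ≤ |j| := by
            simp only [hT, mem_Ioo, not_and_or] at hj
            rw [le_abs]
            omega
          exact_mod_cast this
        have h5 := gs_split (x := j / (2 * H)) (T := ((J + 1 : ℕ) : ℝ) / (2 * H)) (by positivity)
          (by
            rw [abs_div, abs_of_pos (by positivity : 0 < 2 * H)]
            exact div_le_div_of_nonneg_right h4 (by positivity))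
        rwa [show ((J + 1 : ℕ) : ℝ) / (2 * H) / 2 = ((J + 1 : ℕ) : ℝ) / (4 * H) by ring,
          show (j : ℝ) / (2 * H) / 2 = 1 / (4 * H) * (j - 0) by ring] at h5
    refine (sum_le_sum h3).trans ?_
    rw [← mul_sum, ← mul_sum]
    have h4 := d13_fin lib_GS1 lib_GS2 (r := 1 / (4 * H)) (by positivity) 0 s
    rw [one_div_one_div] at h4
    gcongr
  have h3 : ‖∑ j ∈ T, f j‖ ≤ ‖f 0‖ + 2 * ‖∑ j ∈ Ico 1 (J + 1), f (j : ℕ)‖ := by
    rw [hT, psn_sym]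
    simp only [hc]
    rw [← map_sum]
    refine (norm_add_le _ _).trans ?_
    rw [Complex.norm_conj]
    have := norm_add_le (f 0) (∑ j ∈ Ico 1 (J + 1), f (j : ℕ))
    linarith
  have h4 := norm_add_le (S - ∑ j ∈ T, f j) (∑ j ∈ T, f j)
  rw [sub_add_cancel] at h4
  linarith

theorem psn_dy (f : ℕ → ℂ) (i0 : ℕ) :
    ∑ j ∈ Ico 1 (2 ^ i0), f j = ∑ i ∈ range i0, ∑ j ∈ Ico (2 ^ i) (2 * 2 ^ i), f j := by
  induction i0 with
  | zero => simp
  | succ i ih =>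
    rw [sum_range_succ, ← ih, pow_succ', sum_Ico_consecutive _ Nat.one_le_two_pow (by omega)]

/-- the oscillating sum at a real frequency -/
noncomputable def psnO (μ : ℕ) (R : ℝ) (d : ℕ → ℝ) (I : Finset ℕ) (ξ : ℝ) : ℂ :=
  ∑ a1 ∈ I, ∑ a2 ∈ I, if Cg μ a1 a2 then ((d a1 * d a2 * gs (R * lq a1 a2) : ℝ) : ℂ) *
    ee (-(ξ / 2 * (sg a1 a2 ^ 2 / (μ : ℝ) ^ 2))) else 0

/-- the sum for one `μ` and one width -/
noncomputable def psnW (μ : ℕ) (R H : ℝ) (d : ℕ → ℝ) (I : Finset ℕ) : ℝ :=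
  ∑ a1 ∈ I, ∑ a2 ∈ I, if Cg μ a1 a2 then d a1 * d a2 * gs (R * lq a1 a2) *
    ∑' b : ℤ, nuo b * gs (H * (b - sg a1 a2 ^ 2 / (μ : ℝ) ^ 2)) else 0

theorem psn_conj (μ : ℕ) (R : ℝ) (d : ℕ → ℝ) (I : Finset ℕ) (ξ : ℝ) :
    psnO μ R d I (-ξ) = (starRingEnd ℂ) (psnO μ R d I ξ) := by
  unfold psnO
  simp only [map_sum]
  refine sum_congr rfl fun a1 _ => sum_congr rfl fun a2 _ => ?_
  split_ifs
  · rw [map_mul, Complex.conj_ofReal, ← Pool.Agent.P.MP_e86632_nt.ee_neg]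
    congr 2
    ring
  · rw [map_zero]

theorem psn_norm (μ : ℕ) (R : ℝ) {d : ℕ → ℝ} (hd : ∀ a, |d a| ≤ 1) (I : Finset ℕ) (ξ : ℝ) :
    ‖psnO μ R d I ξ‖ ≤ (I.card : ℝ) ^ 2 := by
  rw [sq (I.card : ℝ)]
  unfold psnO
  refine (norm_sum_le _ _).trans ((sum_le_card_nsmul _ _ (I.card : ℝ) fun a1 _ => ?_).trans
    (by rw [nsmul_eq_mul]))
  refine (norm_sum_le _ _).trans ((sum_le_card_nsmul _ _ (1 : ℝ) fun a2 _ => ?_).trans
    (by rw [nsmul_eq_mul, mul_one]))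
  split_ifs
  · rw [norm_mul, Pool.Agent.P.MP_e86632_nt.norm_ee, mul_one, Complex.norm_real, Real.norm_eq_abs,
      abs_mul, abs_mul, abs_of_pos (gs_pos _)]
    exact mul_le_one₀ (mul_le_one₀ (hd _) (abs_nonneg _) (hd _)) (gs_pos _).le (gs_le_one _)
  · simp

theorem psn_hasSum (μ : ℕ) (R : ℝ) {H : ℝ} (hH : 0 < H) (d : ℕ → ℝ) (I : Finset ℕ) :
    HasSum (fun j : ℤ => ((1 / 2 * gs (j / (2 * H)) : ℝ) : ℂ) * ee (j / 2) * psnO μ R d I j)
      ((H * psnW μ R H d I : ℝ) : ℂ) := by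
  unfold psnO psnW
  simp only [mul_sum, Complex.ofReal_sum]
  refine hasSum_sum fun a1 _ => hasSum_sum fun a2 _ => ?_
  split_ifs
  · have h := (pb_dual hH one_pos (sg a1 a2 ^ 2 / (μ : ℝ) ^ 2)).mul_left
      ((d a1 * d a2 * gs (R * lq a1 a2) : ℝ) : ℂ)
    simp only [mul_one, div_one] at h
    rw [← Complex.ofReal_mul, mul_left_comm] at h
    exact osc2_congr h fun j => mul_left_comm _ _ _
  · simp only [mul_zero, Complex.ofReal_zero]
    exact hasSum_zero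

theorem psn_one (μ i0 : ℕ) (R : ℝ) {H : ℝ} (hH : 0 < H) {d : ℕ → ℝ} (hd : ∀ a, |d a| ≤ 1)
    (I : Finset ℕ) : H * |psnW μ R H d I| ≤ osU μ R i0 H d I +
      1 / 2 * (I.card : ℝ) ^ 2 * (gs (2 ^ i0 / (4 * H)) * (4 * (1 + 4 * H))) := by
  have h := psn_gen (G := 1 / 2 * (I.card : ℝ) ^ 2) hH (by positivity) (psn_hasSum μ R hH d I)
    (fun j => by
      rw [map_mul, map_mul, Complex.conj_ofReal, ← Pool.Agent.P.MP_e86632_nt.ee_neg, ← psn_conj,
        Int.cast_neg, neg_div, neg_div, gs_neg])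
    (fun j => by
      have p := gs_pos (j / (2 * H))
      rw [norm_mul, norm_mul, Pool.Agent.P.MP_e86632_nt.norm_ee, mul_one, Complex.norm_real,
        Real.norm_of_nonneg (by positivity), mul_right_comm]
      exact mul_le_mul_of_nonneg_right (mul_le_mul_of_nonneg_left (psn_norm μ R hd I _)
        (by norm_num)) p.le)
    (J := 2 ^ i0) Nat.one_le_two_pow
  rw [Complex.norm_real, Real.norm_eq_abs, abs_mul, abs_of_pos hH] at h
  refine h.trans ?_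
  push_cast
  refine add_le_add (add_le_add ?_ ?_) le_rfl
  · have e : psnO μ R d I 0 = osj μ R d I 0 := by
      unfold psnO osj
      rw [Nat.cast_zero]
    rw [zero_div, zero_div, gs_zero, Pool.Agent.P.MP_e86632_nt.ee_zero, e, norm_mul]
    refine mul_le_of_le_one_left (norm_nonneg _) ?_
    norm_num
  · have e : ∑ j ∈ Ico 1 (2 ^ i0), 1 / 2 * (gs ((j : ℕ) / (2 * H)) : ℂ) * ee ((j : ℕ) / 2) *
        psnO μ R d I (j : ℕ) = 1 / 2 * ∑ j ∈ Ico 1 (2 ^ i0), cj H j * osj μ R d I j := by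
      rw [mul_sum]
      refine sum_congr rfl fun j _ => ?_
      unfold cj psnO osj
      ring
    rw [e, psn_dy, norm_mul]
    have e2 : ‖(1 / 2 : ℂ)‖ = 1 / 2 := by norm_num
    rw [e2, ← mul_assoc, show (2 : ℝ) * (1 / 2) = 1 by norm_num, one_mul]
    exact norm_sum_le _ _

theorem psn_off (M H : ℝ) (μ0 : ℕ) (d : ℕ → ℝ) (I : Finset ℕ) :
    offS d I μ0 (modG M H) = ∑ μ ∈ Icc 1 μ0,
      (psnW μ (M / (2 * μ)) H d I - psnW μ (√2 * M / (2 * μ)) H d I) := by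
  unfold offS psnW
  simp only [← sum_sub_distrib]
  rw [sum_comm (s := Icc 1 μ0)]
  refine sum_congr rfl fun a1 _ => ?_
  rw [sum_comm (s := Icc 1 μ0)]
  refine sum_congr rfl fun a2 _ => ?_
  rw [sum_filter, mul_sum]
  refine sum_congr rfl fun μ _ => ?_
  unfold modG
  split_ifs
  · ring
  · simp

theorem t_PSN : S_PSN := by
  intro M H μ0 i0 d I hH hd
  rw [one_div_mul_eq_div, le_div_iff₀ hH, mul_comm, psn_off]
  refine (mul_le_mul_of_nonneg_left (abs_sum_le_sum_abs _ _) hH.le).trans ?_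
  rw [mul_sum, osT]
  refine (sum_le_sum (g := fun μ => osU μ (M / (2 * μ)) i0 H d I +
    osU μ (√2 * M / (2 * μ)) i0 H d I +
      (I.card : ℝ) ^ 2 * (gs (2 ^ i0 / (4 * H)) * (4 * (1 + 4 * H)))) fun μ _ => ?_).trans ?_
  · have h1 := psn_one μ i0 (M / (2 * μ)) hH hd I
    have h2 := psn_one μ i0 (√2 * M / (2 * μ)) hH hd I
    have h3 := mul_le_mul_of_nonneg_left (abs_sub (psnW μ (M / (2 * μ)) H d I)
      (psnW μ (√2 * M / (2 * μ)) H d I)) hH.le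
    linarith
  · rw [sum_add_distrib, sum_const, Nat.card_Icc, Nat.add_sub_cancel, nsmul_eq_mul, mul_assoc]

end Pool.Agent.P.MP_8be758_nt.Av3
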