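import Pool.Agent.P.MP_8be758_nt.Av3.BasB

/-! The step `S_PT`. -/

namespace Pool.Agent.P.MP_8be758_nt.Av3

open Finset Real Filter Topology
open Pool.Agent.P.MP_e86632_nt (ee)
open Pool.Agent.P.MP_8be758_nt.Avg Pool.Agent.P.MP_8be758_nt.Av2

/-- lower bound for the weight -/
noncomputable def pt_c0 : ℝ := Real.exp (-(2 * π)) * (1 - Real.exp (-(π / 2))) * gs 1

theorem pt_c1_pos : 0 < 1 - Real.exp (-(π / 2)) :=
  sub_pos.2 (Real.exp_lt_one_iff.2 (neg_neg_of_pos (half_pos Real.pi_pos)))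

theorem pt_c0_pos : 0 < pt_c0 := mul_pos (mul_pos (Real.exp_pos _) pt_c1_pos) (gs_pos 1)

theorem pt_wt_ge {B K' : ℝ} (hB : 0 < B) {K k b : ℕ} (hK : (K : ℝ) ≤ K') (h1 : B ≤ 2 * b)
    (h2 : (b : ℝ) ≤ 2 * B) (h3 : Odd b) (hk : k ∈ Icc 1 K) :
    pt_c0 ≤ wt nuo B K' b (4 * (k : ℤ) - 1) := by
  obtain ⟨k1, k2⟩ := mem_Icc.1 hk
  have k3 : (1 : ℝ) ≤ k := by exact_mod_cast k1
  have k4 : (k : ℝ) ≤ K := by exact_mod_cast k2
  have hpi := Real.pi_pos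
  have e1 : Real.exp (-(2 * π)) ≤ Real.exp (-(π * b / B)) := by
    refine Real.exp_le_exp.2 (neg_le_neg ?_)
    rw [div_le_iff₀ hB]; nlinarith
  have e2 : Real.exp (-(π * b / B)) ≤ Real.exp (-(π / 2)) := by
    refine Real.exp_le_exp.2 (neg_le_neg ?_)
    rw [le_div_iff₀ hB]; nlinarith
  have e3 : Real.exp (-(2 * π)) * (1 - Real.exp (-(π / 2))) ≤ psi B b := by
    rw [psi_eq]
    exact mul_le_mul e1 (by linarith) pt_c1_pos.le (Real.exp_pos _).le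
  have e4 : gs 1 ≤ gs ((4 * ((k : ℤ) : ℝ) - 1) / (4 * K')) := by
    apply gs_anti
    rw [Int.cast_natCast, abs_one, abs_of_nonneg (div_nonneg (by linarith) (by linarith)),
      div_le_one (by linarith)]
    linarith
  have e5 : 0 ≤ psi B b := psi_nonneg hB (Nat.cast_nonneg b)
  rw [wt, nuo_odd ((Int.odd_coe_nat b).2 h3), one_mul]
  exact mul_le_mul e3 e4 (gs_pos 1).le e5

theorem pt_cmp {B K' : ℝ} (hB : 0 < B) {K n0 : ℕ} (hK' : (K : ℝ) ≤ K') (hK : K ≤ n0 ^ 2)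
    (α : ℕ → ℝ) (I : Finset ℕ) {S : Finset ℕ}
    (hS : ∀ b ∈ S, b ∈ Icc 1 n0 ∧ B ≤ 2 * b ∧ (b : ℝ) ≤ 2 * B ∧ Odd b) :
    pt_c0 * ∑ k ∈ Icc 1 K, ∑ b ∈ S, Qf α I n0 b k ≤
      ∑ b ∈ Icc 1 n0, ∑ k ∈ KR n0, wt nuo B K' b (4 * k - 1) * Qf α I n0 b k := by
  have hsub : S ⊆ Icc 1 n0 := fun b hb => (hS b hb).1
  have hq : ∀ b ∈ Icc 1 n0, ∀ k : ℤ, 0 ≤ Qf α I n0 b k := fun b hb =>
    (lib_D1 α I n0 b (mem_Icc.1 hb).1).1
  have hw : ∀ b ∈ Icc 1 n0, ∀ k : ℤ, 0 ≤ wt nuo B K' b (4 * k - 1) * Qf α I n0 b k := fun b hb k =>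
    mul_nonneg (disp_wt_nonneg (fun b => (nuo_bd b).1) hB _ _ _) (hq b hb k)
  rw [sum_comm, mul_sum]
  refine le_trans (sum_le_sum fun b hb => ?_)
    (sum_le_sum_of_subset_of_nonneg hsub fun b hb _ => sum_nonneg fun k _ => hw b hb k)
  obtain ⟨-, h1, h2, h3⟩ := hS b hb
  have himg : (Icc 1 K).image (fun k : ℕ => (k : ℤ)) ⊆ KR n0 := by
    intro z hz
    obtain ⟨k, hk, rfl⟩ := mem_image.1 hz
    have k2 : (k : ℤ) ≤ (n0 : ℤ) ^ 2 := by exact_mod_cast (mem_Icc.1 hk).2.trans hK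
    have k3 : (0 : ℤ) ≤ k := Int.natCast_nonneg k
    exact mem_Icc.2 ⟨by linarith, by linarith⟩
  refine le_trans ?_ (sum_le_sum_of_subset_of_nonneg himg fun k _ _ => hw b (hsub hb) k)
  rw [sum_image fun x _ y _ h => Nat.cast_injective h, mul_sum]
  exact sum_le_sum fun k hk =>
    mul_le_mul_of_nonneg_right (pt_wt_ge hB hK' h1 h2 h3 hk) (hq b (hsub hb) k)

theorem pt_osT (μ0 i0 : ℕ) (M H : ℝ) (d : ℕ → ℝ) (I : Finset ℕ) : 0 ≤ osT μ0 i0 M H d I :=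
  sum_nonneg fun _ _ => add_nonneg
    (add_nonneg (norm_nonneg _) (sum_nonneg fun _ _ => norm_nonneg _))
    (add_nonneg (norm_nonneg _) (sum_nonneg fun _ _ => norm_nonneg _))

section num

variable {A B Z : ℝ} {K : ℕ} (h : Hq A B Z K)
include h

theorem pt_W : 1 ≤ Z * K * A / B := by
  rw [mul_div_assoc]
  exact one_le_mul_of_one_le_of_one_le (one_le_mul_of_one_le_of_one_le h.z1 h.kr)
    ((one_le_div h.b0).2 h.ba)

theorem pt_a16 : 16 ≤ A := h.z.trans (by simpa using (h.pw (m := 1) (by norm_num)).trans h.za)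

theorem pt_log {A' : ℝ} (h0 : 0 < A') (h1 : A' ≤ 5 / 4 * A) : 1 + Real.log A' ≤ 2 * Z := by
  have h2 := Real.log_le_log h0 h1
  rw [Real.log_mul (by norm_num) h.a0.ne'] at h2
  have h3 := Real.log_le_sub_one_of_pos (show (0 : ℝ) < 5 / 4 by norm_num)
  linarith [h.l, h.z]

theorem pt_gs {n : ℕ} (hn : n ≤ 20) {x : ℝ} (hx : Z / 4 ≤ x) : A ^ n * gs x ≤ 1 :=
  le_trans (mul_le_mul (pow_le_pow_right₀ h.a1 hn) (gs_mono (by linarith [h.z]) hx) (gs_pos _).le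
    (pow_nonneg h.a0.le _)) h.g

theorem pt_gs5 {A' : ℝ} (h0 : 0 < A') (h1 : A' ≤ 5 / 4 * A) :
    A' ^ 5 * gs (Z / 2) ≤ 4 * (Z * K * A / B) := by
  have h2 := pt_gs h (n := 5) (by norm_num) (x := Z / 2) (by linarith [h.z])
  have h3 := gs_pos (Z / 2)
  calc A' ^ 5 * gs (Z / 2) ≤ (5 / 4 * A) ^ 5 * gs (Z / 2) := by gcongr
    _ = (5 / 4) ^ 5 * (A ^ 5 * gs (Z / 2)) := by ring
    _ ≤ _ := by linarith [pt_W h]

theorem pt_km : et A B Z * Z * √(A / B) = Z ^ 31 := by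
  rw [mul_right_comm, h.etm]; ring

theorem pt_k0 : 0 < et A B Z * Z := mul_pos h.et0 h.z0

theorem pt_kt {A' : ℝ} (h1 : 9 / 10 * A ≤ A') : 10 * K * Z ≤ 3 * (et A B Z * Z) * A' := by
  have h2 : et A B Z * Z * A = Z ^ 30 * √(A * B) * Z := by rw [mul_right_comm, h.eta]
  have h3 : (16 : ℝ) ≤ Z ^ 30 := h.z.trans (by simpa using h.pw (m := 1) (n := 30) (by norm_num))
  have h4 : 16 * K * Z ≤ Z ^ 30 * √(A * B) * Z := by
    have := h.ks
    have := h.z0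
    gcongr
  have h5 := mul_le_mul_of_nonneg_left h1 (pt_k0 h).le
  have h6 : 0 ≤ K * Z := mul_nonneg (Nat.cast_nonneg K) h.z0.le
  linarith

theorem pt_f1 {r : ℝ} (hr : r ≤ √(A / B)) :
    et A B Z * Z * (3 * (et A B Z * Z) * r + 1) ≤ 1 := by
  have h0 := pt_k0 h
  have hz := h.z0
  have h1 := mul_le_mul_of_nonneg_left hr h0.le
  rw [pt_km h] at h1
  have h2 : 3 * (et A B Z * Z) * r + 1 ≤ 4 * Z ^ 31 := by linarith [h.one 31]
  have h3 : 4 * Z ^ 31 ≤ Z ^ 69 := by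
    calc 4 * Z ^ 31 ≤ Z * Z ^ 31 := by gcongr; linarith [h.z]
      _ = Z ^ 32 := by ring
      _ ≤ _ := h.pw (by norm_num)
  calc _ ≤ et A B Z * Z * Z ^ 69 := by gcongr; linarith
    _ ≤ 1 / Z ^ 69 * Z ^ 69 := by gcongr; exact h.kap
    _ = 1 := by field_simp

theorem pt_f2 {r : ℝ} (hr : r ≤ √(A / B) * Z ^ 32) :
    (1 / Z ^ 32) ^ 2 * (3 * (et A B Z * Z) * r + 1) ≤ 2 := by
  have h0 := pt_k0 h
  have hz := h.z0
  have h1 := mul_le_mul_of_nonneg_left hr h0.le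
  rw [← mul_assoc, pt_km h] at h1
  have h3 : 3 * (Z ^ 31 * Z ^ 32) ≤ Z ^ 64 := by
    calc 3 * (Z ^ 31 * Z ^ 32) ≤ Z * (Z ^ 31 * Z ^ 32) := by gcongr; linarith [h.z]
      _ = _ := by ring
  calc _ ≤ (1 / Z ^ 32) ^ 2 * (2 * Z ^ 64) := by gcongr; linarith [h.one 64]
    _ = 2 := by field_simp

theorem pt_mu : 3 * (et A B Z * Z) * √(A / B) ≤ 1 / Z ^ 32 * ⌊Z ^ 64⌋₊ := by
  have hz := h.z0
  rw [mul_assoc, pt_km h]
  calc 3 * Z ^ 31 ≤ Z / 2 * Z ^ 31 := by gcongr; linarith [h.z]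
    _ = 1 / Z ^ 32 * (Z ^ 64 / 2) := by field_simp
    _ ≤ _ := by gcongr; exact (disp_floor (h.one 64)).1

theorem pt_mua : (⌊Z ^ 64⌋₊ : ℝ) ≤ A :=
  (disp_floor (h.one 64)).2.trans ((h.pw (by norm_num)).trans h.za)

theorem pt_tail {c x : ℝ} (c0 : 0 ≤ c) (hc : c ≤ 2 * A) (hx : A / K * Z ≤ x) :
    1 / (A / K) * (⌊Z ^ 64⌋₊ * c ^ 2 * (gs (x / (4 * (A / K))) * (4 * (1 + 4 * (A / K))))) ≤
      80 * (Z * K * A / B) := by
  have k0 : (0 : ℝ) < K := by linarith [h.kr]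
  have h1 : 1 ≤ A / K := (one_le_div k0).2 h.ka
  generalize A / K = H at *
  have h0 : 0 < H := by linarith
  have h2 := pt_gs h (n := 3) (by norm_num) (x := x / (4 * H)) (by
    rw [le_div_iff₀ (by positivity)]; linarith)
  have h3 := gs_pos (x / (4 * H))
  generalize gs (x / (4 * H)) = g at *
  have h4 := pt_mua h
  have a0 := h.a0
  calc _ ≤ 1 / H * (A * (2 * A) ^ 2 * (g * (4 * (H + 4 * H)))) := by gcongr
    _ = 80 * (A ^ 3 * g) := by field_simp; ring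
    _ ≤ _ := by linarith [pt_W h]

end num

theorem t_PT (hPMJ : S_PMJ) (hFZG : S_FZG) (hPSN : S_PSN) : S_PT := by
  obtain ⟨Cp, cp, hP⟩ := hPMJ
  obtain ⟨Cf, cf, hF⟩ := hFZG
  obtain ⟨C4, c4, h4⟩ := lib_D4
  have hc0 := pt_c0_pos
  refine ⟨(80 + 5 * C4 + 13 * (Cf * Cp)) / pt_c0, by positivity, ?_⟩
  intro A B Z y K i0 S d h y1 y2 hi hS hd
  have hz := h.z0
  have a0 := h.a0
  have b0 := h.b0
  have k0 : (0 : ℝ) < K := by linarith [h.kr]
  have a16 := pt_a16 h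
  have κ0 := pt_k0 h
  have κ1 := h.kap1
  have m0 := h.m0
  have n1 : 3 * A ≤ (⌈3 * A⌉₊ : ℝ) := Nat.le_ceil _
  have n2 : (⌈3 * A⌉₊ : ℝ) ≤ 3 * A + 1 := (Nat.ceil_lt_add_one (by positivity)).le
  generalize ⌈3 * A⌉₊ = n0 at *
  have hN := Iw_nar κ0.le κ1 y
  have hR := Iw_rng κ0.le κ1 y
  have hc : ((Iw (et A B Z * Z) y).card : ℝ) ≤ 2 * A := by
    refine (card_Iw _ _).trans ?_
    rw [Real.exp_add]
    have := exp_le_lin κ0.le (by linarith)
    calc _ ≤ 5 / 4 * A * (8 / 5) := by gcongr; linarith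
      _ = _ := by ring
  have p1 : Real.exp (y - et A B Z * Z) ≤ Real.exp y := Real.exp_le_exp.2 (by linarith)
  have p2 : 9 / 10 * A ≤ Real.exp (y - et A B Z * Z) := by
    rw [sub_eq_add_neg, Real.exp_add]
    have := Real.add_one_le_exp (-(et A B Z * Z))
    calc 9 / 10 * A = A * (9 / 10) := by ring
      _ ≤ _ := by gcongr; linarith
  have s4 := hF √(A / B) (A / K) (et A B Z * Z) (1 / Z ^ 32) y n0 ⌊Z ^ 64⌋₊ d m0 (by positivity)
    κ0 κ1 (by positivity) (pt_mu h) (Nat.cast_le.1 ((pt_mua h).trans (by linarith))) hd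
  have s5 := hPSN √(A / B) (A / K) ⌊Z ^ 64⌋₊ i0 d (Iw (et A B Z * Z) y) (by positivity) hd
  have s6 := pt_tail h (Nat.cast_nonneg _) hc hi
  rw [mul_add, one_div_div] at s5
  rw [one_div_div] at s6
  have o0 : 0 ≤ K / A * osT ⌊Z ^ 64⌋₊ i0 √(A / B) (A / K) d (Iw (et A B Z * Z) y) :=
    mul_nonneg (by positivity) (pt_osT _ _ _ _ _ _)
  have q1 : Real.exp y / √(A / B) ^ 2 = Real.exp y / A * B := by
    rw [Real.sq_sqrt (by positivity)]; field_simp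
  have q2 : Real.exp y / (A / K) = Real.exp y / A * K := by field_simp
  have q3 : 1 ≤ Real.exp y / A := (one_le_div a0).2 y1
  have q4 : Real.exp y / A ≤ 5 / 4 := (div_le_iff₀ a0).2 y2
  have q5 : Real.exp (y - et A B Z * Z) ≤ Real.exp y / A * A := by
    rw [div_mul_cancel₀ _ a0.ne']; exact p1
  replace p1 := p1.trans y2
  rw [q1, q2] at s4
  generalize Real.exp y / A = ρ at *
  generalize Real.exp (y - et A B Z * Z) = A' at *
  generalize Iw (et A B Z * Z) y = I at *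
  generalize K / A * osT ⌊Z ^ 64⌋₊ i0 √(A / B) (A / K) d I = O at *
  generalize offS d I ⌊Z ^ 64⌋₊ (modG √(A / B) (A / K)) = X at *
  replace s5 : X ≤ O + 80 * (Z * K * A / B) := by linarith [le_abs_self X]
  clear s6 hi
  have ρ0 : 0 < ρ := by linarith
  have a1 : 1 ≤ A' := by linarith
  have B1 : B ≤ ρ * B := le_mul_of_one_le_left b0.le q3
  have B2 : ρ * B ≤ 5 / 4 * B := mul_le_mul_of_nonneg_right q4 b0.le
  have K1 : K ≤ ρ * K := le_mul_of_one_le_left k0.le q3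
  have K2 : ρ * K ≤ 5 / 4 * K := mul_le_mul_of_nonneg_right q4 k0.le
  have hKn : K ≤ n0 ^ 2 := by
    have h1 : (K : ℝ) ≤ (n0 : ℝ) ^ 2 := by nlinarith only [h.ka, n1, a16]
    exact_mod_cast h1
  have s0 := pt_cmp (B := ρ * B) (by positivity) K1 hKn d I (S := S) fun b hb => by
    obtain ⟨h1, h2, h3⟩ := hS b hb
    refine ⟨mem_Icc.2 ⟨by exact_mod_cast h.b1.trans h1, ?_⟩, by linarith, by linarith, h3⟩
    exact_mod_cast h2.trans (by linarith [h.ba] : 2 * B ≤ (n0 : ℝ))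
  rw [lib_D2 A' n0 I d _ a1 (by linarith) hR (qf0_wt _ _)] at s0
  have hG : ∀ B1 K1 : ℝ, 0 < B1 → B1 ≤ 8 * B → 0 < K1 → K1 ≤ 4 * K →
      dg (cw B1 K1) (fun _ => 1) I n0 ≤ dg (cw (8 * B) (4 * K)) (fun _ => 1) I n0 :=
    fun B1 K1 h1 h2 h3 h4 => dg_mono n0 (cw_mono h1 h2 h3 h4) (fun _ _ => (cw_pos _ _ _ _).le)
      Subset.rfl fun _ _ => le_rfl
  have s1 : dg (wt nuo (ρ * B) (ρ * K)) d I n0 ≤ dg (cw (8 * B) (4 * K)) (fun _ => 1) I n0 :=
    le_trans (dg_mono n0 (wt_le_cw (by positivity) _) (fun _ _ => (cw_pos _ _ _ _).le) Subset.rfl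
      fun a _ => sq_le_sq.2 (by simpa using hd a))
      (hG _ _ (by positivity) (by linarith) (by positivity) (by linarith))
  have s2 := (abs_le.1 (h4 A' (ρ * B) (ρ * K) 1 n0 I d nuo a1 (by positivity) (by positivity)
    (by linarith) hR hd nuo_bd)).2
  have l0 : 0 ≤ 1 + Real.log A' := by linarith [Real.log_nonneg a1]
  have l1 := pt_log h (by linarith) p1
  have s3 : C4 * 1 * (1 + Real.log A') * (ρ * K) * (A' + ρ * K) / (ρ * B) ≤
      5 * C4 * (Z * K * A / B) := by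
    calc _ ≤ C4 * 1 * (2 * Z) * (ρ * K) * (5 / 2 * A) / (ρ * B) := by
          gcongr; linarith [h.ka]
      _ = _ := by field_simp
  have w1 : (1 + Real.log A') * (ρ * K) * A' / (ρ * B) ≤ 5 / 2 * (Z * K * A / B) := by
    calc _ ≤ 2 * Z * (ρ * K) * (5 / 4 * A) / (ρ * B) := by gcongr
      _ = _ := by field_simp; ring
  have kt := pt_kt h p2
  have kz := mul_le_mul_of_nonneg_right K2 hz.le
  have kz0 : 0 ≤ K * Z := by positivity
  have ε1 : (1 / Z ^ 32) ^ 2 ≤ 1 :=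
    pow_le_one₀ (by positivity) ((div_le_one (by positivity)).2 (h.one _))
  have ε2 := mul_le_of_le_one_left (by positivity : 0 ≤ ρ * B) ε1
  have u1 := hP A' (2 * (ρ * B)) (2 * (ρ * K)) (3 * (et A B Z * Z)) Z n0 I a1 (by positivity)
    (by positivity) (by positivity) (by linarith) h.z1 (by linarith) (by linarith) (by linarith) hN
  have u2 := hP A' ((1 / Z ^ 32) ^ 2 * (ρ * B)) (ρ * K) (3 * (et A B Z * Z)) Z n0 I a1
    (by positivity) (by positivity) (by positivity) (by linarith) h.z1 (by linarith) (by linarith)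
    (by linarith) hN
  have g1 := hG (2 * (2 * (ρ * B))) (2 * (ρ * K)) (by positivity) (by linarith) (by positivity)
    (by linarith)
  have g2 := hG (2 * ((1 / Z ^ 32) ^ 2 * (ρ * B))) (ρ * K) (by positivity) (by linarith)
    (by positivity) (by linarith)
  have r0 : A' / (ρ * B) ≤ A / B := by
    calc _ ≤ ρ * A / (ρ * B) := by gcongr
      _ = _ := by field_simp
  have f1 := pt_f1 h (r := √(A' / (2 * (ρ * B)))) (Real.sqrt_le_sqrt (le_trans (by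
    gcongr; linarith) r0))
  have f2 := pt_f2 h (r := √(A' / ((1 / Z ^ 32) ^ 2 * (ρ * B)))) (by
    rw [show A' / ((1 / Z ^ 32) ^ 2 * (ρ * B)) = A' / (ρ * B) * (Z ^ 32) ^ 2 by field_simp,
      Real.sqrt_mul' _ (by positivity), Real.sqrt_sq (by positivity)]
    gcongr)
  have w2 : (1 + Real.log A') * (2 * (ρ * K)) * A' / (2 * (ρ * B)) =
      (1 + Real.log A') * (ρ * K) * A' / (ρ * B) := by field_simp
  have w3 : (1 / Z ^ 32) ^ 2 * ((1 + Real.log A') * (ρ * K) * A' / ((1 / Z ^ 32) ^ 2 * (ρ * B))) =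
      (1 + Real.log A') * (ρ * K) * A' / (ρ * B) := by field_simp
  rw [w2] at u1
  have w0 : 0 ≤ (1 + Real.log A') * (ρ * K) * A' / (ρ * B) := by positivity
  have t1 := pt_gs5 h (by linarith) p1
  have t0 : 0 ≤ A' ^ 5 * gs (Z / 2) := mul_nonneg (by positivity) (gs_pos _).le
  have G0 : 0 ≤ dg (cw (8 * B) (4 * K)) (fun _ => 1) I n0 :=
    dg_nonneg (fun _ _ => (cw_pos _ _ _ _).le) _ _ _
  have W0 : 0 ≤ Z * K * A / B := by positivity
  have x1 : 0 ≤ 3 * (et A B Z * Z) * √(A' / (2 * (ρ * B))) + 1 := by positivity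
  have x2 : 0 ≤ 3 * (et A B Z * Z) * √(A' / ((1 / Z ^ 32) ^ 2 * (ρ * B))) + 1 := by positivity
  have ε0 : 0 ≤ (1 / Z ^ 32) ^ 2 := by positivity
  replace s4 := (abs_le.1 s4).2
  rw [div_mul_eq_mul_div, le_div_iff₀ hc0, mul_comm]
  generalize 3 * (et A B Z * Z) * √(A' / (2 * (ρ * B))) + 1 = x at *
  generalize 3 * (et A B Z * Z) * √(A' / ((1 / Z ^ 32) ^ 2 * (ρ * B))) + 1 = x' at *
  generalize (1 + Real.log A') * (ρ * K) * A' / ((1 / Z ^ 32) ^ 2 * (ρ * B)) = w' at *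
  generalize (1 + Real.log A') * (ρ * K) * A' / (ρ * B) = w at *
  generalize A' ^ 5 * gs (Z / 2) = t at *
  generalize dg (cw (8 * B) (4 * K)) (fun _ => 1) I n0 = G at *
  generalize dg (cw (2 * (2 * (ρ * B))) (2 * (ρ * K))) (fun _ => 1) I n0 = G1 at *
  generalize dg (cw (2 * ((1 / Z ^ 32) ^ 2 * (ρ * B))) (ρ * K)) (fun _ => 1) I n0 = G2 at *
  generalize offS (fun _ => 1) I n0 (modT nuo (2 * (ρ * B)) (2 * (ρ * K))) = U1 at *
  generalize offS (fun _ => 1) I n0 (modT nuo ((1 / Z ^ 32) ^ 2 * (ρ * B)) (ρ * K)) = U2 at *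
  generalize (1 / Z ^ 32) ^ 2 = ε at *
  generalize Z * K * A / B = W at *
  generalize et A B Z * Z = κ at *
  have v1 : κ * (x * G1 + t + w) ≤ G + 13 / 2 * W := by
    have h1 := mul_le_mul_of_nonneg_left (mul_le_mul_of_nonneg_left g1 x1) κ0.le
    have h2 := mul_le_mul_of_nonneg_right f1 G0
    have h3 := mul_le_of_le_one_left (add_nonneg t0 w0) (by linarith : κ ≤ 1)
    linarith
  have v2 : ε * (x' * G2 + t + w') ≤ 2 * G + 13 / 2 * W := by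
    have h1 := mul_le_mul_of_nonneg_left (mul_le_mul_of_nonneg_left g2 x2) ε0
    have h2 := mul_le_mul_of_nonneg_right f2 G0
    have h3 := mul_le_of_le_one_left t0 ε1
    linarith
  have z1 := (mul_le_mul_of_nonneg_left u1 κ0.le).trans
    ((mul_left_comm _ _ _).trans_le (mul_le_mul_of_nonneg_left v1 cp.le))
  have z2 := (mul_le_mul_of_nonneg_left u2 ε0).trans
    ((mul_left_comm _ _ _).trans_le (mul_le_mul_of_nonneg_left v2 cp.le))
  have z3 := mul_le_mul_of_nonneg_left (add_le_add z1 z2) cf.le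
  have z4 : 0 ≤ C4 * (G + O) := by positivity
  have z5 : 0 ≤ Cf * Cp * G := by positivity
  have z6 : 0 ≤ Cf * Cp * O := by positivity
  linarith

end Pool.Agent.P.MP_8be758_nt.Av3
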