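import Pool.Agent.P.MP_8be758_nt.Av3.Basic

/-! The step `S_QFb`. -/

namespace Pool.Agent.P.MP_8be758_nt.Av3

open Finset Real Filter Topology
open Pool.Agent.P.MP_e86632_nt (ee)
open Pool.Agent.P.MP_8be758_nt.Avg Pool.Agent.P.MP_8be758_nt.Av2

theorem qfb_eta {x y Z : ℝ} (hZ : 1 ≤ Z) (hx : 0 ≤ x) {m : ℕ} (hm : 40 ≤ m) (h : Z ^ m * x ≤ y) :
    x ≤ (4 / Z ^ 20) ^ 2 * y := by
  have h1 : Z ^ 40 * x ≤ y := (mul_le_mul_of_nonneg_right (pow_le_pow_right₀ hZ hm) hx).trans h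
  have h2 : 0 ≤ Z ^ 40 * x := by positivity
  rw [div_pow, ← pow_mul, div_mul_eq_mul_div, le_div_iff₀ (by positivity), mul_comm x]
  norm_num
  linarith

theorem qfb_k {A B K Z : ℝ} (hz : 2 ≤ Z) (hA : 1 ≤ A) (hB : 0 ≤ B) (hK : 0 ≤ K)
    (h : Z ^ 400 * (B ^ 2 * A) ≤ K ^ 4) : 30 * Z ^ 2 * √B ≤ K := by
  refine le_of_pow_le_pow_left₀ (n := 4) (by norm_num) hK (le_trans ?_ h)
  have z5 : 32 ≤ Z ^ 5 := le_trans (by norm_num) (pow_le_pow_left₀ zero_le_two hz 5)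
  have e1 : √B ^ 4 = B ^ 2 := by
    rw [show 4 = 2 * 2 by norm_num, pow_mul, Real.sq_sqrt hB]
  have e2 : 30 * Z ^ 2 ≤ Z ^ 100 :=
    calc 30 * Z ^ 2 ≤ Z ^ 5 * Z ^ 2 := by gcongr; linarith
      _ ≤ _ := by rw [← pow_add]; exact pow_le_pow_right₀ (by linarith) (by norm_num)
  calc (30 * Z ^ 2 * √B) ^ 4 = (30 * Z ^ 2) ^ 4 * (B ^ 2 * 1) := by rw [mul_pow, e1, mul_one]
    _ ≤ (Z ^ 100) ^ 4 * (B ^ 2 * A) := by gcongr
    _ = _ := by rw [← pow_mul]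

theorem qfb_osc {A B K Z L g : ℝ} (z1 : 1 ≤ Z) (b0 : 0 < B) (k0 : 0 < K) (ha : Z ^ 300 ≤ A)
    (hb4 : Z ^ 400 * (B ^ 2 * A) ≤ K ^ 4) (hak : Z ^ 800 * A ≤ K ^ 2)
    (habk : Z ^ 400 * A ≤ K * B) (l0 : 0 ≤ L) (hL : L ≤ Z) (g0 : 0 ≤ g) (hg : A ^ 5 * g ≤ 1) :
    Z ^ 120 * Z * L ^ 2 * Z ^ 4 * A * (√(A / K / B) + √(√A / K) + B * √A / K ^ 2) +
      Z * A ^ 3 * g ≤ 4 * (A / Z ^ 56) := by
  have z0 : 0 < Z := by linarith
  have a1 : 1 ≤ A := (one_le_pow₀ z1).trans ha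
  have a0 : 0 < A := by linarith
  have u1 : 1 ≤ A / Z ^ 56 := by
    rw [one_le_div (by positivity)]
    exact (pow_le_pow_right₀ z1 (by norm_num)).trans ha
  have e1 : √(A / K / B) ≤ 1 / Z ^ 200 := qf_sqrt z0 200 (by
    rw [div_div, div_mul_eq_mul_div, div_le_one (by positivity), mul_comm]
    exact habk)
  have e2 : √(√A / K) ≤ 1 / Z ^ 200 := qf_sqrt z0 200 (by
    rw [div_mul_eq_mul_div, div_le_one k0, ← le_div_iff₀ (by positivity)]
    refine Real.sqrt_le_iff.2 ⟨by positivity, ?_⟩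
    rw [div_pow, ← pow_mul, le_div_iff₀ (by positivity), mul_comm]
    exact hak)
  have e6 : B * √A / K ^ 2 ≤ 1 / Z ^ 200 := by
    rw [div_le_div_iff₀ (by positivity) (by positivity), one_mul]
    refine le_of_pow_le_pow_left₀ (n := 2) (by norm_num) (by positivity) ?_
    rw [mul_pow, mul_pow, Real.sq_sqrt a0.le, ← pow_mul, ← pow_mul, mul_comm]
    exact hb4
  have e3 : Z * A ^ 3 * g ≤ A ^ 5 * g := by
    have e4 : Z ≤ A ^ 2 :=
      ((le_self_pow₀ z1 (by norm_num)).trans ha).trans (le_self_pow₀ a1 (by norm_num))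
    calc _ ≤ A ^ 2 * A ^ 3 * g := by gcongr
      _ = _ := by ring
  have e5 : Z ^ 120 * Z * L ^ 2 * Z ^ 4 * A * (√(A / K / B) + √(√A / K) + B * √A / K ^ 2) ≤
      3 * (A / Z ^ 73) :=
    calc _ ≤ Z ^ 120 * Z * Z ^ 2 * Z ^ 4 * A * (1 / Z ^ 200 + 1 / Z ^ 200 + 1 / Z ^ 200) := by
          gcongr
      _ = _ := by field_simp; norm_num
  linarith [qf_div a0.le z1 (m := 73) (by norm_num)]

theorem t_QFb (hQF0b : S_QF0b) (hOSCb : S_OSCb) : S_QFb := by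
  obtain ⟨C0, c0, h0⟩ := hQF0b
  obtain ⟨C1, c1, h1⟩ := hOSCb
  obtain ⟨C6, c6, h6⟩ := lib_MAIN
  refine ⟨C0 * (8 * C6 + 4 * C1 + 67), by positivity, ?_⟩
  intro A B Z K I S α hz hab hb hb4 hb3 hka hak habk hL hg hτ hI hα hS hG
  have z0 : 0 < Z := by linarith
  have z1 : 1 ≤ Z := by linarith
  have pw : ∀ {m n : ℕ}, m ≤ n → Z ^ m ≤ Z ^ n := fun h => pow_le_pow_right₀ z1 h
  have one : ∀ n : ℕ, 1 ≤ Z ^ n := fun n => one_le_pow₀ z1
  have z5 : 32 ≤ Z ^ 5 := le_trans (by norm_num) (pow_le_pow_left₀ zero_le_two hz 5)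
  have b1 : 32 ≤ B := z5.trans ((pw (by norm_num)).trans hb)
  have b0 : 0 < B := by linarith
  have ba : B ≤ A := (le_mul_of_one_le_left b0.le (one 600)).trans hab
  have a0 : 0 < A := by linarith
  have ak : A ≤ (K : ℝ) ^ 2 := (le_mul_of_one_le_left a0.le (one 800)).trans hak
  have k1 : 1 ≤ K := Nat.one_le_iff_ne_zero.2 fun e => by
    rw [e, Nat.cast_zero] at ak
    linarith
  have k0 : (0 : ℝ) < K := by exact_mod_cast k1
  have ka : (K : ℝ) ≤ A := (le_mul_of_one_le_left k0.le (one 30)).trans hka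
  have hη : 4 / Z ^ 20 ≤ 1 / 4 := by
    rw [div_le_iff₀ (by positivity)]
    linarith [pw (show 5 ≤ 20 by norm_num)]
  have hR : Rng A I := fun a ha => ⟨(hI a ha).1, (hI a ha).2.trans (by gcongr; linarith)⟩
  have hsq : √(A / B) ^ 2 = A / B := Real.sq_sqrt (by positivity)
  have j1 : Z ^ 300 ≤ √(A / B) := by
    apply Real.le_sqrt_of_sq_le
    rw [le_div_iff₀ b0]
    exact (le_of_eq (by ring)).trans hab
  have j2 : A / B ≤ A / 32 := by gcongr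
  have j3 : 32 ≤ √(A / B) := z5.trans ((pw (by norm_num)).trans j1)
  have μ1 : (⌈√(A / B)⌉₊ : ℝ) ≤ A := by
    have := Nat.ceil_lt_add_one (Real.sqrt_nonneg (A / B))
    nlinarith
  have u1 : 1 ≤ A / Z ^ 56 := by
    rw [one_le_div (by positivity)]
    exact ((pw (by norm_num)).trans hb).trans ba
  have s1 := h1 A B K Z (Z ^ 120) Z _ I α (by linarith) ba ka ak z1 (one 120)
    (by rw [← pow_mul]; exact (pw (by norm_num)).trans hb)
    (qfb_k hz (by linarith) b0.le k0.le hb4) μ1 hR hα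
    (hτ.mono (by nlinarith) le_rfl) hG
  have l0 : 0 ≤ 1 + Real.log A := by linarith [Real.log_nonneg (show 1 ≤ A by linarith)]
  have s2 := qfb_osc z1 b0 k0 (hb.trans ba) hb4 hak habk l0 hL (gs_pos (Z / 2)).le hg
  have s3 := h0 A B (4 / Z ^ 20) Z Z (C1 * (4 * (A / Z ^ 56))) K _ I S α k1 ba (by positivity) hη
    ?_ z1 ?_ (qfb_eta z1 a0.le (by norm_num) hak) (qfb_eta z1 (by positivity) le_rfl hb3)
    (Nat.le_ceil _) μ1 hI hα hτ hS (s1.trans (by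
      rw [mul_comm C1, mul_assoc]
      gcongr))
  rotate_left
  · rw [div_pow, ← pow_mul, div_mul_eq_mul_div, one_le_div (by positivity)]
    linarith [(pw (show 20 * 2 ≤ 300 by norm_num)).trans hb]
  · rw [div_mul_eq_mul_div, le_div_iff₀ (by positivity)]
    calc _ = 4 * (2 * Z ^ 21 * K) := by ring
      _ ≤ 4 * (Z ^ 5 * Z ^ 21 * K) := by gcongr; linarith
      _ ≤ 4 * (Z ^ 30 * K) := by rw [← pow_add]; gcongr; norm_num
      _ ≤ _ := by gcongr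
  have n1 : 2 * A ≤ (⌈2 * A⌉₊ : ℝ) := Nat.le_ceil _
  have n2 : (⌈2 * A⌉₊ : ℝ) ≤ 3 * A := by
    have := Nat.ceil_lt_add_one (a := 2 * A) (by positivity)
    linarith
  obtain ⟨q1, q2⟩ := disp_floor (one 60)
  obtain ⟨v1, v2⟩ := disp_floor (x := √(A / B) * Z ^ 60)
    (one_le_mul_of_one_le_of_one_le (by linarith) (one 60))
  have q4 : 4 * ⌊Z ^ 60⌋₊ ≤ ⌊√(A / B) * Z ^ 60⌋₊ := by
    apply Nat.le_floor
    push_cast
    gcongr
    linarith
  have q5 : ⌊√(A / B) * Z ^ 60⌋₊ ≤ ⌈2 * A⌉₊ := by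
    have e1 : √(A / B) * Z ^ 60 ≤ √(A / B) * √(A / B) := by
      gcongr
      exact (pw (by norm_num)).trans j1
    have e2 : (⌊√(A / B) * Z ^ 60⌋₊ : ℝ) ≤ ⌈2 * A⌉₊ := by linarith
    exact_mod_cast e2
  have s4 := h6 A B _ _ _ I α (by linarith) ba n1 n2 (Nat.le_floor (by simpa using one 60)) q4 q5
    hR hα
  have s5 := qf_main z1 j1 (by linarith : _ ≤ A) hL q1 q2 v1 v2
  rw [hsq] at s5
  have hE := enS_nonneg I (gam α) ⌊Z ^ 60⌋₊
  have r1 : Z * (4 / Z ^ 20) ^ 3 * A = 64 * (A / Z ^ 59) := by field_simp; norm_num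
  have r2 : Z * √(A * B) ≤ A / Z ^ 299 := by
    have e1 : √(A * B) ≤ A / Z ^ 300 := by
      refine Real.sqrt_le_iff.2 ⟨by positivity, ?_⟩
      rw [div_pow, ← pow_mul, le_div_iff₀ (by positivity), sq, mul_assoc, mul_comm B]
      gcongr
    calc _ ≤ Z * (A / Z ^ 300) := by gcongr
      _ = _ := by field_simp
  have r3 : (1 + Real.log A) * A / B ≤ A / Z ^ 299 :=
    calc _ ≤ Z * A / Z ^ 300 := by gcongr
      _ = _ := by field_simp
  have d1 := qf_div a0.le z1 (m := 59) (by norm_num)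
  have d2 := qf_div a0.le z1 (m := 299) (by norm_num)
  have r4 := s4.trans (mul_le_mul_of_nonneg_left
    (show _ ≤ enS I (gam α) ⌊Z ^ 60⌋₊ + 8 * (A / Z ^ 56) by linarith) c6.le)
  refine s3.trans ?_
  rw [mul_right_comm C0 _ (K : ℝ), mul_assoc (C0 * K)]
  refine mul_le_mul_of_nonneg_left ?_ (by positivity)
  have := mul_nonneg (by positivity : 0 ≤ 7 * C6 + 4 * C1 + 67) hE
  linarith

end Pool.Agent.P.MP_8be758_nt.Av3
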