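import Pool.Agent.P.MP_8be758_nt.Av3.BasB

/-! The step `S_QI`. -/

namespace Pool.Agent.P.MP_8be758_nt.Av3

open Finset Real Filter Topology
open Pool.Agent.P.MP_e86632_nt (ee)
open Pool.Agent.P.MP_8be758_nt.Avg Pool.Agent.P.MP_8be758_nt.Av2

section
variable {A B Z : ℝ} {K : ℕ}

theorem qi_za (h : Hq A B Z K) : Z ≤ A :=
  le_trans (by simpa using h.pw (m := 1) (n := 200) (by norm_num)) h.za

theorem qi_256 (h : Hq A B Z K) : 256 ≤ A :=
  calc (256 : ℝ) = 16 ^ 2 := by norm_num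
    _ ≤ Z ^ 2 := pow_le_pow_left₀ (by norm_num) h.z 2
    _ ≤ Z ^ 200 := h.pw (by norm_num)
    _ ≤ A := h.za

theorem qi_s1 (h : Hq A B Z K) : 1 ≤ √(A * B) := h.kr.trans h.ks

theorem qi_ss (h : Hq A B Z K) : √(A * B) * √(A * B) = A * B :=
  Real.mul_self_sqrt (mul_pos h.a0 h.b0).le

theorem qi_hz (h : Hq A B Z K) : A / K * Z ≤ A * Z :=
  mul_le_mul_of_nonneg_right (div_le_self h.a0.le h.kr) h.z0.le

theorem qi_ek (h : Hq A B Z K) : et A B Z ≤ et A B Z * Z := le_mul_of_one_le_right h.et0.le h.z1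

theorem qi_tau (h : Hq A B Z K) {c : ℝ} {n : ℕ} (hc : c ≤ 256) (hn : n ≤ 5) {x : ℝ}
    (hx : x ≤ c * A ^ n) : TauB x Z := by
  refine h.t.mono (hx.trans ?_) le_rfl
  calc c * A ^ n ≤ A * A ^ 5 :=
        mul_le_mul (hc.trans (qi_256 h)) (pow_le_pow_right₀ h.a1 hn) (pow_nonneg h.a0.le _) h.a0.le
    _ = A ^ 6 := by ring

theorem qi_exp (h : Hq A B Z K) {y : ℝ} (hy : Real.exp y ≤ 5 / 4 * A) :
    Real.exp (y + et A B Z * Z) ≤ 2 * A := by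
  have hk0 : 0 ≤ et A B Z * Z := (mul_pos h.et0 h.z0).le
  have hk1 := h.kap1
  have h1 := exp_le_lin hk0 (by linarith)
  rw [Real.exp_add]
  calc Real.exp y * Real.exp (et A B Z * Z) ≤ 5 / 4 * A * (8 / 5) :=
        mul_le_mul hy (by linarith) (Real.exp_pos _).le (by linarith [h.a0])
    _ = 2 * A := by ring

theorem qi_len (h : Hq A B Z K) {y : ℝ} (hy : Real.exp y ≤ 5 / 4 * A) :
    3 * (et A B Z * Z) * Real.exp (y - et A B Z * Z) + 1 ≤ 5 * (Z ^ 31 * √(A * B)) := by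
  have hk0 : 0 ≤ et A B Z * Z := (mul_pos h.et0 h.z0).le
  have h1 : Real.exp (y - et A B Z * Z) ≤ 5 / 4 * A :=
    (Real.exp_le_exp.2 (by linarith)).trans hy
  have h2 : 1 ≤ Z ^ 31 * √(A * B) := one_le_mul_of_one_le_of_one_le (h.one _) (qi_s1 h)
  have h3 : et A B Z * Z * A = Z ^ 31 * √(A * B) := by
    rw [mul_right_comm, h.eta]; ring
  have h4 : 3 * (et A B Z * Z) * Real.exp (y - et A B Z * Z) ≤ 3 * (et A B Z * Z) * (5 / 4 * A) :=
    mul_le_mul_of_nonneg_left h1 (by linarith)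
  nlinarith

/-- the frequency zero -/
theorem qi_zero (hMNT : S_MNT) (h : Hq A B Z K) {α : ℕ → ℝ} (hα : ∀ a, |α a| ≤ 1)
    (hM : Maj α (2 * A) (Z ^ 70) (Z ^ 40 * √(A * B)) (√(A * B) / Z ^ 100)) {y : ℝ}
    (hy : Real.exp y ≤ 5 / 4 * A) {μ : ℕ} (h1 : 1 ≤ μ) (h2 : (μ : ℝ) ≤ Z ^ 64) (R : ℝ) :
    ‖osj μ R (wd (et A B Z) y α) (Iw (et A B Z * Z) y) 0‖ ≤ 5 * (A * B) / Z ^ 69 := by
  have hz := h.z0
  have hk0 : 0 ≤ et A B Z * Z := (mul_pos h.et0 h.z0).le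
  have hk1 := h.kap1
  have hs := qi_s1 h
  have he : 0 ≤ √(A * B) / Z ^ 100 := by positivity
  have hl := qi_len h hy
  have hD : Real.exp (y + et A B Z * Z) + 1 ≤
      Real.exp (y - et A B Z * Z) + Z ^ 40 * √(A * B) := by
    have e1 := exp_le_lin (x := 2 * (et A B Z * Z)) (by linarith) (by linarith)
    have e2 : Real.exp (y + et A B Z * Z) =
        Real.exp (2 * (et A B Z * Z)) * Real.exp (y - et A B Z * Z) := by
      rw [← Real.exp_add]; congr 1; ring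
    have e3 := mul_le_mul_of_nonneg_right e1 (Real.exp_pos (y - et A B Z * Z)).le
    have e4 : 5 * (Z ^ 31 * √(A * B)) ≤ Z ^ 40 * √(A * B) := by
      rw [← mul_assoc]
      refine mul_le_mul_of_nonneg_right ?_ (by linarith)
      calc 5 * Z ^ 31 ≤ Z * Z ^ 31 := by gcongr; linarith [h.z]
        _ = Z ^ 32 := by ring
        _ ≤ Z ^ 40 := h.pw (by norm_num)
    rw [e2]
    linarith
  have hQ : 2 * (μ : ℝ) ≤ Z ^ 70 :=
    calc 2 * (μ : ℝ) ≤ Z * Z ^ 64 := mul_le_mul (by linarith [h.z]) h2 (Nat.cast_nonneg _) hz.le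
      _ = Z ^ 65 := by ring
      _ ≤ Z ^ 70 := h.pw (by norm_num)
  refine ((hMNT α _ _ _ _ (et A B Z) _ y hM hα he (qi_exp h hy) hD).1 μ R h1 hQ).trans ?_
  calc ((Iw (et A B Z * Z) y).card : ℝ) * (√(A * B) / Z ^ 100)
      ≤ 5 * (Z ^ 31 * √(A * B)) * (√(A * B) / Z ^ 100) :=
        mul_le_mul_of_nonneg_right ((card_Iw' hk0 hk1 y).trans hl) he
    _ = 5 * (√(A * B) * √(A * B)) / Z ^ 69 := by field_simp
    _ = _ := by rw [qi_ss h]

theorem qi_pw4 (h : Hq A B Z K) : Z ^ 620 ≤ A ^ 4 :=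
  calc Z ^ 620 ≤ Z ^ (200 * 4) := h.pw (by norm_num)
    _ = (Z ^ 200) ^ 4 := pow_mul _ _ _
    _ ≤ A ^ 4 := pow_le_pow_left₀ (pow_pos h.z0 _).le h.za 4

theorem qi_tail (h : Hq A B Z K) {J T : ℝ} (hJ0 : 0 ≤ J) (hJ : J ≤ A * Z) (hT : T ≤ J * A) :
    A ^ 4 * J * √T * gs (et A B Z * Z / et A B Z) * Z ^ 620 ≤ et A B Z ^ 2 * A ^ 2 := by
  have ha := h.a0
  have hJ2 : J ≤ A ^ 2 := hJ.trans (by rw [sq]; exact mul_le_mul_of_nonneg_left (qi_za h) ha.le)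
  have hT2 : √T ≤ A ^ 2 := Real.sqrt_le_iff.2 ⟨by positivity, hT.trans (by
    calc J * A ≤ A ^ 2 * A ^ 2 :=
          mul_le_mul hJ2 (by simpa using pow_le_pow_right₀ h.a1 (show 1 ≤ 2 by norm_num)) ha.le
            (by positivity)
      _ = _ := by ring)⟩
  have hg := gs_pos Z
  have hY := qi_pw4 h
  have hY0 := (pow_pos h.z0 620).le
  rw [mul_div_cancel_left₀ _ h.et0.ne']
  generalize Z ^ 620 = Y at hY hY0
  calc A ^ 4 * J * √T * gs Z * Y ≤ A ^ 4 * A ^ 2 * A ^ 2 * gs Z * A ^ 4 := by gcongr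
    _ = A ^ 12 * gs Z := by ring
    _ ≤ A ^ 20 * gs Z := mul_le_mul_of_nonneg_right (pow_le_pow_right₀ h.a1 (by norm_num)) hg.le
    _ ≤ 1 := h.gz
    _ ≤ (et A B Z * A) ^ 2 := by
        rw [h.eta]
        exact one_le_pow₀ (one_le_mul_of_one_le_of_one_le (h.one _) (qi_s1 h))
    _ = _ := mul_pow _ _ _

theorem qi_kap (h : Hq A B Z K) : Z ^ 128 ≤ A * (et A B Z * Z) ^ 2 :=
  calc Z ^ 128 ≤ 1 * Z ^ 200 := by rw [one_mul]; exact h.pw (by norm_num)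
    _ ≤ Z ^ 62 * B := mul_le_mul (h.one _) h.zb (pow_pos h.z0 _).le (pow_pos h.z0 _).le
    _ = Z ^ 32 * (et A B Z * √(A * B)) := by rw [h.ets]; ring
    _ = Z ^ 2 * et A B Z * (et A B Z * A) := by rw [h.eta]; ring
    _ = _ := by ring

theorem qi_id (h : Hq A B Z K) (C : ℝ) :
    16 * Z ^ 512 * (C * (et A B Z * Z / et A B Z) * (et A B Z ^ 2 * A ^ 2 / Z ^ 620)) =
      16 * C * (A * B) / Z ^ 47 := by
  have hz := h.z0
  have e1 : et A B Z ^ 2 * A ^ 2 = Z ^ 60 * (A * B) := by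
    rw [← mul_pow, h.eta, mul_pow, sq √(A * B), qi_ss h, ← pow_mul]
  have e2 : Z ^ 620 = Z ^ 512 * (Z * Z ^ 60 * Z ^ 47) := by
    rw [show (620 : ℕ) = 512 + (1 + 60 + 47) from rfl, pow_add, pow_add, pow_add, pow_one]
  have hP := pow_pos hz 512
  have hQ := pow_pos hz 60
  have hR := pow_pos hz 47
  rw [mul_div_cancel_left₀ _ h.et0.ne', e1, e2]
  generalize Z ^ 512 = P at hP
  generalize Z ^ 60 = Q at hQ
  generalize Z ^ 47 = R at hR
  field_simp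

end

/-- one dyadic block of frequencies -/
theorem qi_os (hQW : S_QW) (hCLS : S_CLS) : ∃ C : ℝ, 0 < C ∧ ∀ (A B Z y2 R : ℝ) (K U V μ J : ℕ)
    (f g : ℕ → ℝ), Hq A B Z K → C ≤ Z → Real.log A ≤ y2 → Real.exp y2 ≤ 5 / 4 * A →
    FG U V f g → (U : ℝ) * V ≤ 4 * A → Num A B Z K U V → 1 ≤ μ → (μ : ℝ) ≤ Z ^ 64 → 0 < R →
    1 ≤ J → (J : ℝ) ≤ A / K * Z →
    IB (Real.log A) y2 (fun y => ‖os μ R (cj (A / K)) (Ico J (2 * J)) (wd (et A B Z) y (cv f g))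
      (Iw (et A B Z * Z) y)‖) (16 * C * (A * B) / Z ^ 47) := by
  obtain ⟨C, hC, hQ⟩ := hQW
  refine ⟨C, hC, fun A B Z y2 R K U V μ J f g h hCZ hy hy2 hfg hUV hN h1 h2 hR hJ1 hJ => ?_⟩
  have hz := h.z0
  have ha := h.a0
  have he := h.et0
  have hm1 : (1 : ℝ) ≤ μ := by exact_mod_cast h1
  have hj1 : (1 : ℝ) ≤ J := by exact_mod_cast hJ1
  have hu1 : (1 : ℝ) ≤ U := by exact_mod_cast hfg.u1
  have hv1 : (1 : ℝ) ≤ V := by exact_mod_cast hfg.v1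
  have hU : (U : ℝ) ≤ 4 * A := (le_mul_of_one_le_right (by linarith) hv1).trans hUV
  have hV : (V : ℝ) ≤ 4 * A := (le_mul_of_one_le_left (by linarith) hu1).trans hUV
  have hJA := hJ.trans (qi_hz h)
  have hm2 : (μ : ℝ) ^ 2 ≤ Z ^ 128 :=
    (pow_le_pow_left₀ (by linarith) h2 2).trans_eq (by rw [← pow_mul])
  have hm0 : (0 : ℝ) < (μ : ℝ) ^ 2 := by positivity
  have hT1 : 1 / (μ : ℝ) ^ 2 * J * A ≤ J * A := by
    rw [mul_assoc]
    exact mul_le_of_le_one_left (by positivity) ((div_le_one hm0).2 (one_le_pow₀ hm1))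
  have hT2 : J * A ≤ Z ^ 128 * (1 / (μ : ℝ) ^ 2 * J * A) :=
    calc (J : ℝ) * A = (μ : ℝ) ^ 2 * (1 / (μ : ℝ) ^ 2 * J * A) := by field_simp
      _ ≤ _ := mul_le_mul_of_nonneg_right hm2 (by positivity)
  have hT3 : 1 ≤ 1 / (μ : ℝ) ^ 2 * J * A * (et A B Z * Z) ^ 2 :=
    calc (1 : ℝ) = 1 / (μ : ℝ) ^ 2 * (1 * (μ : ℝ) ^ 2) := by field_simp
      _ ≤ 1 / (μ : ℝ) ^ 2 * (J * (A * (et A B Z * Z) ^ 2)) :=
          mul_le_mul_of_nonneg_left (mul_le_mul hj1 (hm2.trans (qi_kap h)) hm0.le (by linarith))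
            (by positivity)
      _ = _ := by ring
  have hZ4 : Z ^ 4 ≤ A := (h.pw (by norm_num)).trans h.za
  have t1 : TauB (100 * (J : ℝ) ^ 4) Z := qi_tau h (c := 100) (n := 5) (by norm_num) le_rfl
    (calc 100 * (J : ℝ) ^ 4 ≤ 100 * (A * Z) ^ 4 := by gcongr
      _ = 100 * (A ^ 4 * Z ^ 4) := by ring
      _ ≤ 100 * (A ^ 4 * A) := by gcongr
      _ = _ := by ring)
  have t2 : TauB ((U : ℝ) ^ 2) Z := qi_tau h (c := 16) (n := 2) (by norm_num) (by norm_num)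
    ((pow_le_pow_left₀ (by linarith) hU 2).trans_eq (by ring))
  have t3 : TauB ((V : ℝ) ^ 3) Z := qi_tau h (c := 64) (n := 3) (by norm_num) (by norm_num)
    ((pow_le_pow_left₀ (by linarith) hV 3).trans_eq (by ring))
  have hY : C * Z ^ 52 ≤ Z ^ 620 :=
    calc C * Z ^ 52 ≤ Z * Z ^ 52 := by gcongr
      _ = Z ^ 53 := by ring
      _ ≤ _ := h.pw (by norm_num)
  have hL := Lw_bd he.le (by linarith [qi_ek h, h.kap1]) hJ1
  have hn := hN J (Lw (et A B Z) J) _ hj1 hJ (by exact_mod_cast hL.1) hL.2.2.2 hT2 hT1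
  have ht := qi_tail h (by linarith) hJA hT1
  have key := hCLS μ U V R (et A B Z) (et A B Z * Z) (Real.log A) y2 _ (cj (A / K)) (Ico J (2 * J))
    f g h1 (norm_cj_le _) hfg fun c' f1 g1 f2 g2 hc h3 h4 =>
      hQ (1 / (μ : ℝ) ^ 2) R A (et A B Z) (et A B Z * Z) Z (Z ^ 620) y2 J U V c' f1 g1 f2 g2
        (by positivity) hR h.a1 hJ1 he (qi_ek h) h.kap1 hy (by linarith) hT3 hc h3 h4 hUV t1 t2 t3
        hY hn ht
  refine key.mono (fun _ _ _ => le_rfl) ?_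
  rw [← qi_id h C]
  refine mul_le_mul_of_nonneg_right ?_ (by positivity)
  calc (2 * (μ : ℝ) ^ 2) ^ 4 = 16 * ((μ : ℝ) ^ 2) ^ 4 := by ring
    _ ≤ 16 * (Z ^ 128) ^ 4 := by gcongr
    _ = _ := by rw [← pow_mul]

theorem qi_i0 {A B Z : ℝ} {K : ℕ} (h : Hq A B Z K) : ∃ i0 : ℕ, A / K * Z ≤ 2 ^ i0 ∧
    (∀ i < i0, ((2 ^ i : ℕ) : ℝ) ≤ A / K * Z) ∧ (i0 : ℝ) ≤ 3 * Z := by
  have h2 : ∀ i < Nat.clog 2 ⌈A / K * Z⌉₊, ((2 ^ i : ℕ) : ℝ) ≤ A / K * Z := fun i hi =>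
    (Nat.lt_ceil.1 (Nat.pow_lt_of_lt_clog hi)).le
  refine ⟨Nat.clog 2 ⌈A / K * Z⌉₊, (Nat.le_ceil _).trans ?_, h2, ?_⟩
  · exact_mod_cast Nat.le_pow_clog (by norm_num) _
  · rcases hi : Nat.clog 2 ⌈A / K * Z⌉₊ with _ | i
    · simpa using h.z0.le
    · have h3 := ((h2 i (by omega)).trans (qi_hz h)).trans
        (mul_le_mul_of_nonneg_left (qi_za h) h.a0.le)
      have h4 := Real.log_le_log (by positivity) h3
      rw [Nat.cast_pow, Real.log_pow, Real.log_mul h.a0.ne' h.a0.ne'] at h4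
      have h5 := Real.log_two_gt_d9
      have h6 : (0 : ℝ) ≤ i := Nat.cast_nonneg _
      have h7 := h.l
      push_cast at h4 ⊢
      nlinarith

theorem qi_fin {A B Z C CD CP : ℝ} {K : ℕ} (h : Hq A B Z K) (hC : 0 < C) (hD : 0 < CD)
    (hP : 0 < CP) (hZ : CP * (16 * CD + 11 + 96 * C) ≤ Z) {m i0 : ℝ} (hm0 : 0 ≤ m) (hm : m ≤ Z ^ 64)
    (hi0 : 0 ≤ i0) (hi : i0 ≤ 3 * Z) :
    CP * (CD * (et A B Z * Z) * Z * √(2 * A * (8 * B)) * (4 * K) + Z * K * A / B +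
      K / A * (m * ((5 * (A * B) / Z ^ 69 + i0 * (16 * C * (A * B) / Z ^ 47)) +
        (5 * (A * B) / Z ^ 69 + i0 * (16 * C * (A * B) / Z ^ 47))))) ≤
      K * et A B Z ^ 2 * A / Z ^ 20 := by
  have hz := h.z0
  have ha := h.a0
  have hb := h.b0
  have hk : (0 : ℝ) < K := by linarith [h.kr]
  have e0 : K * et A B Z ^ 2 * A / Z ^ 20 = Z ^ 40 * (K * B) :=
    calc K * et A B Z ^ 2 * A / Z ^ 20 = K * et A B Z * (et A B Z * A) / Z ^ 20 := by ring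
      _ = K * Z ^ 10 * (et A B Z * √(A * B)) := by rw [h.eta]; field_simp
      _ = _ := by rw [h.ets]; ring
  have e1 : √(2 * A * (8 * B)) = 4 * √(A * B) := by
    rw [show 2 * A * (8 * B) = 4 ^ 2 * (A * B) by ring, Real.sqrt_mul (by norm_num),
      Real.sqrt_sq (by norm_num)]
  have e2 : CD * (et A B Z * Z) * Z * √(2 * A * (8 * B)) * (4 * K) =
      16 * CD * (Z ^ 32 * (K * B)) :=
    calc _ = 16 * CD * Z ^ 2 * K * (et A B Z * √(A * B)) := by rw [e1]; ring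
      _ = _ := by rw [h.ets]; ring
  have e3 : Z * K * A / B ≤ 1 * (Z ^ 32 * (K * B)) :=
    calc Z * K * A / B ≤ Z ^ 32 * K * B ^ 2 / B := by
          gcongr
          · simpa using h.pw (m := 1) (n := 32) (by norm_num)
          · exact h.b2
      _ = _ := by field_simp
  have e4 : K / A * (m * ((5 * (A * B) / Z ^ 69 + i0 * (16 * C * (A * B) / Z ^ 47)) +
        (5 * (A * B) / Z ^ 69 + i0 * (16 * C * (A * B) / Z ^ 47)))) ≤
      (10 + 96 * C) * (Z ^ 32 * (K * B)) :=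
    calc _ ≤ K / A * (Z ^ 64 * ((5 * (A * B) / Z ^ 69 + 3 * Z * (16 * C * (A * B) / Z ^ 47)) +
        (5 * (A * B) / Z ^ 69 + 3 * Z * (16 * C * (A * B) / Z ^ 47)))) := by gcongr
      _ = (10 * (1 / Z ^ 5) + 96 * C * Z ^ 18) * (K * B) := by field_simp; ring
      _ ≤ (10 * Z ^ 32 + 96 * C * Z ^ 32) * (K * B) := by
          gcongr
          · exact ((div_le_one (by positivity)).2 (h.one _)).trans (h.one _)
          · exact h.z1
          · norm_num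
      _ = _ := by ring
  rw [e0, e2]
  calc _ ≤ CP * (16 * CD * (Z ^ 32 * (K * B)) + 1 * (Z ^ 32 * (K * B)) +
        (10 + 96 * C) * (Z ^ 32 * (K * B))) := by gcongr
    _ = CP * (16 * CD + 11 + 96 * C) * (Z ^ 32 * (K * B)) := by ring
    _ ≤ Z * (Z ^ 32 * (K * B)) := by gcongr
    _ = Z ^ 33 * (K * B) := by ring
    _ ≤ _ := mul_le_mul_of_nonneg_right (h.pw (by norm_num)) (by positivity)

theorem t_QI (hQW : S_QW) (hCLS : S_CLS) (hMNT : S_MNT) (hDGI : S_DGI) (hPT : S_PT) : S_QI := by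
  obtain ⟨C, hC, hO⟩ := qi_os hQW hCLS
  obtain ⟨CD, hD, hG⟩ := hDGI
  obtain ⟨CP, hP, hT⟩ := hPT
  have hW : 0 < CP * (16 * CD + 11 + 96 * C) := by positivity
  refine ⟨C + CP * (16 * CD + 11 + 96 * C), by positivity,
    fun A B Z y2 K U V S f g h hCZ hy hy2 hS hfg hUV hα hM hN => ?_⟩
  obtain ⟨i0, i1, i2, i3⟩ := qi_i0 h
  have hz := h.z0
  have ha := h.a0
  have hb := h.b0
  have hk := h.kr
  have hyy : ∀ y, y ≤ y2 → Real.exp y ≤ 5 / 4 * A := fun y c => (Real.exp_le_exp.2 c).trans hy2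
  have h1 : y2 ≤ Real.log A + 1 := by
    refine Real.exp_le_exp.1 (hy2.trans ?_)
    rw [Real.exp_add, Real.exp_log ha, mul_comm]
    exact mul_le_mul_of_nonneg_left (by linarith [Real.add_one_le_exp 1]) ha.le
  have hn : (⌈3 * A⌉₊ : ℝ) ≤ 4 * A := by
    linarith [Nat.ceil_lt_add_one (show 0 ≤ 3 * A by linarith), h.a1]
  have ia := hG (2 * A) (8 * B) (4 * K) Z (et A B Z * Z) (Real.log A) y2 ⌈3 * A⌉₊ (by linarith)
    (by linarith) (by linarith) (by nlinarith [h.ka, h.b1]) (mul_pos h.et0 hz) hy (qi_exp h hy2)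
    (qi_tau h (c := 8) (n := 2) (by norm_num) (by norm_num) (by nlinarith)) hz.le
  have ib : IB (Real.log A) y2 (fun _ => Z * K * A / B) (Z * K * A / B) :=
    ib_const h1 (by positivity)
  have iu : ∀ μ ∈ Icc 1 ⌊Z ^ 64⌋₊, ∀ R, 0 < R → IB (Real.log A) y2
      (fun y => osU μ R i0 (A / K) (wd (et A B Z) y (cv f g)) (Iw (et A B Z * Z) y))
      (5 * (A * B) / Z ^ 69 + i0 * (16 * C * (A * B) / Z ^ 47)) := fun μ hμ R hR => by
    have m1 := (mem_Icc.1 hμ).1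
    have m2 : (μ : ℝ) ≤ Z ^ 64 := (Nat.le_floor_iff (by positivity)).1 (mem_Icc.1 hμ).2
    have s := ib_sum_le (range i0) fun i hi => hO A B Z y2 R K U V μ (2 ^ i) f g h (by linarith) hy
      hy2 hfg hUV hN m1 m2 hR (Nat.one_le_two_pow) (i2 i (mem_range.1 hi))
    rw [card_range] at s
    exact ((ib_const (c := 5 * (A * B) / Z ^ 69) h1 (by positivity)).add s).mono
      (fun y _ c => add_le_add (qi_zero hMNT h hα hM (hyy y c) m1 m2 R) le_rfl) le_rfl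
  have hm := h.m0
  have ic := ib_sum_le (Icc 1 ⌊Z ^ 64⌋₊) fun μ hμ => by
    have m1 : (0 : ℝ) < μ := by exact_mod_cast (mem_Icc.1 hμ).1
    exact (iu μ hμ (√(A / B) / (2 * μ)) (by positivity)).add
      (iu μ hμ (√2 * √(A / B) / (2 * μ)) (by positivity))
  refine (((ia.add ib).add (ic.smul (c := K / A) (by positivity))).smul hP.le).mono
    (fun y c1 c2 => hT A B Z y K i0 S _ h ((Real.exp_log ha).ge.trans (Real.exp_le_exp.2 c1))
      (hyy y c2) i1 hS fun a => (abs_wd_le _ _ _ _).trans (hα a)) ?_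
  refine qi_fin h hC hD hP (by linarith) (Nat.cast_nonneg _) ?_ (Nat.cast_nonneg _) i3
  rw [Nat.card_Icc, Nat.add_sub_cancel]
  exact Nat.floor_le (by positivity)

end Pool.Agent.P.MP_8be758_nt.Av3
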