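import Pool.Agent.P.MP_8be758_nt.Av3.BasB

/-! The step `S_QW`. -/

namespace Pool.Agent.P.MP_8be758_nt.Av3

open Finset Real Filter Topology
open Pool.Agent.P.MP_e86632_nt (ee)
open Pool.Agent.P.MP_8be758_nt.Avg Pool.Agent.P.MP_8be758_nt.Av2

theorem qw_diff {I K : Finset ℕ} (h : I ⊆ K) (G : ℕ → ℕ → ℂ) {m : ℝ} (hm : 0 ≤ m)
    (hG : ∀ a1 ∈ K, ∀ a2 ∈ K, (a1 ∉ I ∨ a2 ∉ I) → ‖G a1 a2‖ ≤ m) :
    ‖∑ a1 ∈ I, ∑ a2 ∈ I, G a1 a2‖ ≤
      ‖∑ a1 ∈ K, ∑ a2 ∈ K, G a1 a2‖ + (K.card : ℝ) ^ 2 * m := by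
  rw [← sum_product', ← sum_product', ← sum_sdiff (product_subset_product h h)]
  have h1 : ‖∑ p ∈ (K ×ˢ K) \ (I ×ˢ I), G p.1 p.2‖ ≤ (K.card : ℝ) ^ 2 * m := by
    refine (norm_sum_le _ _).trans ((sum_le_card_nsmul _ _ m fun p hp => ?_).trans ?_)
    · rw [Finset.mem_sdiff, Finset.mem_product, Finset.mem_product, not_and_or] at hp
      exact hG _ hp.1.1 _ hp.1.2 hp.2
    · rw [nsmul_eq_mul]
      refine mul_le_mul_of_nonneg_right ?_ hm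
      have := card_le_card (sdiff_subset (s := K ×ˢ K) (t := I ×ˢ I))
      rw [card_product, ← sq] at this
      exact_mod_cast this
  have h2 := norm_sub_le (∑ p ∈ (K ×ˢ K) \ (I ×ˢ I), G p.1 p.2 + ∑ p ∈ I ×ˢ I, G p.1 p.2)
    (∑ p ∈ (K ×ˢ K) \ (I ×ˢ I), G p.1 p.2)
  rw [add_sub_cancel_left] at h2
  linarith

theorem qw_cv {U V n : ℕ} {f g : ℕ → ℝ} (h : FG U V f g) {a : ℕ} (ha : a ∈ Icc 1 n) :
    |cv f g a| ≤ n :=
  (h.cv_le a).trans (by exact_mod_cast (Nat.card_divisors_le_self a).trans (mem_Icc.1 ha).2)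

theorem qw_term {U V n : ℕ} {f1 g1 f2 g2 : ℕ → ℝ} (h1 : FG U V f1 g1) (h2 : FG U V f2 g2)
    {η κ y r M : ℝ} (hκ : 0 ≤ κ) {z : ℂ} (hz : ‖z‖ ≤ M) {a1 a2 : ℕ} (ha1 : a1 ∈ Icc 1 n)
    (ha2 : a2 ∈ Icc 1 n) (h : a1 ∉ Iw κ y ∨ a2 ∉ Iw κ y) :
    ‖(gw η y a1 : ℂ) * (cv f1 g1 a1 : ℂ) * ((gw η y a2 : ℂ) * (cv f2 g2 a2 : ℂ)) * (gs r : ℂ) * z‖ ≤
      (n : ℝ) ^ 2 * gs (κ / η) * M := by
  have e1 : gw η y a1 * gw η y a2 ≤ gs (κ / η) := by
    rcases h with h | h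
    · exact (mul_le_of_le_one_right (gw_pos _ _ _).le (gw_le_one _ _ _)).trans
        (gw_far η hκ (mem_Icc.1 ha1).1 h)
    · exact (mul_le_of_le_one_left (gw_pos _ _ _).le (gw_le_one _ _ _)).trans
        (gw_far η hκ (mem_Icc.1 ha2).1 h)
  have e2 := qw_cv h1 ha1
  have e3 := qw_cv h2 ha2
  have e4 := gs_le_one r
  have e5 := gs_pos (κ / η)
  have e6 := gs_pos r
  simp only [norm_mul, Complex.norm_real, Real.norm_eq_abs, abs_of_pos (gw_pos _ _ _),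
    abs_of_pos (gs_pos _)]
  calc _ = |cv f1 g1 a1| * |cv f2 g2 a2| * (gw η y a1 * gw η y a2) * gs r * ‖z‖ := by ring
    _ ≤ n * n * gs (κ / η) * 1 * M := by
        have := mul_pos (gw_pos η y a1) (gw_pos η y a2)
        gcongr
    _ = _ := by ring

theorem qw_sub {A κ y : ℝ} (h0 : 0 ≤ κ) (h1 : κ ≤ 1 / 20) (hy : Real.exp y ≤ 2 * A) :
    Iw κ y ⊆ Icc 1 ⌈4 * A⌉₊ := fun a ha => by
  refine mem_Icc.2 ⟨Iw_pos ha, ?_⟩
  have h2 := (mem_Iw.1 ha).2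
  rw [Real.exp_add] at h2
  have h3 := exp_le_lin h0 (by linarith)
  have h4 := Real.exp_pos y
  have h5 : (a : ℝ) ≤ ⌈4 * A⌉₊ := by
    refine h2.trans (le_trans ?_ (Nat.le_ceil _))
    nlinarith
  exact_mod_cast h5

theorem t_QW (hVREP : S_VREP) (hEE : S_EE) (hBIL : S_BIL) (hQY : S_QY) : S_QW := by
  obtain ⟨C1, hC1, hV⟩ := hVREP
  obtain ⟨C2, hC2, hE⟩ := hEE
  refine ⟨C2 + 5007 * C1, by positivity, ?_⟩
  intro ϖ R A η κ τ Y y2 J U V c f1 g1 f2 g2 hϖ hR hA hJ hη hηκ hκ hy1 hy2 hT1 hc hF1 hF2 hUV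
    t1 t2 t3 hY hN hL
  have hA0 : 0 < A := by linarith
  have hJ1 : (1 : ℝ) ≤ J := by exact_mod_cast hJ
  have hκ0 : 0 < κ := hη.trans_le hηκ
  set T := ϖ * J * A with hTd
  have hT : 0 < T := by positivity
  have hsT : 0 < √T := Real.sqrt_pos.2 hT
  obtain ⟨l1, l2, -, -⟩ := Lw_bd hη.le (by linarith) hJ
  set L := Lw η J with hLd
  set n := ⌈4 * A⌉₊ with hnd
  have hn5 : (n : ℝ) ≤ 5 * A := by
    have := Nat.ceil_lt_add_one (show 0 ≤ 4 * A by linarith)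
    linarith
  have hUVn : U * V ≤ n := by
    have : ((U * V : ℕ) : ℝ) ≤ n := by
      push_cast
      exact hUV.trans (Nat.le_ceil _)
    exact_mod_cast this
  set c' : ℕ → ℂ := fun j => if j < 2 * J then c j else 0 with hc'd
  have hc' : ∀ j, ‖c' j‖ ≤ 1 := fun j => by
    simp only [hc'd]
    split_ifs
    · exact hc j
    · simp
  have hc0 : ∀ j, 2 * J ≤ j → c' j = 0 := fun j hj => if_neg (not_lt.2 hj)
  have hτ : 1 ≤ τ := t1.one_le (by nlinarith [one_le_pow₀ (n := 4) hJ1])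
  have hτ52 : 1 ≤ τ ^ 52 := one_le_pow₀ hτ
  have hY2 : C2 * τ ^ 52 ≤ Y := le_trans (by nlinarith) hY
  have hY0 : 0 < Y := lt_of_lt_of_le (by positivity) hY2
  set c0 := C1 * (κ / η) / √T with hc0d
  have hc00 : 0 < c0 := by positivity
  set P : ℝ → ℝ := fun t => c0 * (WT T t * Jm J L c' t) with hPd
  have hP : PW P := (cb_Jm l2 hc').pw hT hc00.le
  have hEE' : ∀ f g : ℕ → ℝ, FG U V f g → ∀ x : ℝ,
      ∫ t : ℝ, P t * ‖dp (Icc 1 n) (fun a => (cv f g a : ℂ)) (t / 2 + x)‖ ^ 2 ≤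
        c0 * (7 * (η * A ^ 2 * √T / Y)) := fun f g hF x => by
    have := hE A T η τ Y x J L U V n c' f g hA0 hT hη l1 l2 hc' hF hUVn hUV t1 t2 t3 hY2 hN
    simp only [hPd, mul_assoc c0]
    rw [MeasureTheory.integral_const_mul]
    exact mul_le_mul_of_nonneg_left this hc00.le
  have q1 := hQY P R η _ _ y2 _ _ hP hR hη hy1 (hEE' f1 g1 hF1)
  have q2 := hQY P R η _ _ y2 _ _ hP hR hη hy1 (hEE' f2 g2 hF2)
  have hPi : ∫ t, P t ≤ c0 * (π * T * (2 * J)) := by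
    simp only [hPd]
    rw [MeasureTheory.integral_const_mul, ← integral_WT hT, ← MeasureTheory.integral_mul_const]
    refine mul_le_mul_of_nonneg_left (MeasureTheory.integral_mono
      ((cb_Jm l2 hc').integrable hT) ((integrable_WT hT).mul_const _) fun t => ?_) hc00.le
    exact mul_le_mul_of_nonneg_left (Jm_le l2 hc' t) (WT_pos _ _).le
  have hy3 : y2 ≤ Real.log A + 1 := by
    have h1 : Real.exp y2 ≤ Real.exp (Real.log A + 1) := by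
      rw [Real.exp_add, Real.exp_log hA0]
      have := Real.add_one_le_exp (1 : ℝ)
      nlinarith
    exact Real.exp_le_exp.1 h1
  set m := (n : ℝ) ^ 2 * gs (κ / η) * (c0 * (π * T * (2 * J))) with hmd
  have hg := gs_pos (κ / η)
  have hm : 0 ≤ m := by positivity
  have q3 := ((q1.add q2).smul (show (0 : ℝ) ≤ 1 / 2 by norm_num)).add
    (ib_const hy3 (c := (n : ℝ) ^ 2 * m) (by positivity))
  refine q3.mono (fun y ya yb => ?_) ?_
  · have e1 : A ≤ Real.exp y := by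
      rw [← Real.exp_log hA0]
      exact Real.exp_le_exp.2 ya
    have e2 : Real.exp y ≤ 2 * A := (Real.exp_le_exp.2 yb).trans hy2
    obtain ⟨F, F1, F2, F3⟩ := hV ϖ A y η κ J c' hϖ hA0 hJ hη hηκ hκ e1 e2 hT1 hc0
    have hB := hBIL P F R (Icc 1 n) (fun a => (gw η y a : ℂ) * (cv f1 g1 a : ℂ))
      (fun a => (gw η y a : ℂ) * (cv f2 g2 a : ℂ)) hP F1 F2 hR
    have hz : ∀ l : ℝ, ‖∫ t : ℝ, F t * ee (t * l)‖ ≤ c0 * (π * T * (2 * J)) := fun l => by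
      refine (MeasureTheory.norm_integral_le_of_norm_le hP.2.2
        (Eventually.of_forall fun t => ?_)).trans hPi
      rw [norm_mul, Pool.Agent.P.MP_e86632_nt.norm_ee, mul_one]
      exact F2 t
    have hD := qw_diff (qw_sub hκ0.le hκ e2) (fun a1 a2 => (gw η y a1 : ℂ) * (cv f1 g1 a1 : ℂ) *
      ((gw η y a2 : ℂ) * (cv f2 g2 a2 : ℂ)) * (gs (R * lq a1 a2) : ℂ) *
        ∫ t : ℝ, F t * ee (t * ((Real.log a1 + Real.log a2) / 2))) hm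
      fun a1 ha1 a2 ha2 h => qw_term hF1 hF2 hκ0.le (hz _) ha1 ha2 h
    have e3 : ob ϖ R c (Ico J (2 * J)) (wd η y (cv f1 g1)) (wd η y (cv f2 g2)) (Iw κ y) =
        ∑ a1 ∈ Iw κ y, ∑ a2 ∈ Iw κ y, (gw η y a1 : ℂ) * (cv f1 g1 a1 : ℂ) *
          ((gw η y a2 : ℂ) * (cv f2 g2 a2 : ℂ)) * (gs (R * lq a1 a2) : ℂ) *
          ∫ t : ℝ, F t * ee (t * ((Real.log a1 + Real.log a2) / 2)) := by
      refine sum_congr rfl fun a1 ha1 => sum_congr rfl fun a2 ha2 => ?_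
      rw [← F3 a1 ha1 a2 ha2, wd, wd]
      push_cast
      congr 1
      exact sum_congr rfl fun j hj => by simp only [hc'd, if_pos (mem_Ico.1 hj).2]
    rw [Nat.card_Icc, Nat.add_sub_cancel] at hD
    rw [e3]
    linarith
  · have e1 : c0 * √T = C1 * (κ / η) := div_mul_cancel₀ _ hsT.ne'
    have e2 : c0 * T = C1 * (κ / η) * √T := by
      rw [← e1, mul_assoc, Real.mul_self_sqrt hT.le]
    have e3 : A ^ 4 * J * √T * gs (κ / η) ≤ η ^ 2 * A ^ 2 / Y := (le_div_iff₀ hY0).2 hL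
    have e4 : (n : ℝ) ^ 4 ≤ (5 * A) ^ 4 := by gcongr
    have e5 : (n : ℝ) ^ 2 * m ≤ 5000 * (C1 * (κ / η)) * (η ^ 2 * A ^ 2 / Y) := by
      calc (n : ℝ) ^ 2 * m = (n : ℝ) ^ 4 * π * (2 * gs (κ / η) * J * (c0 * T)) := by
            rw [hmd]; ring
        _ ≤ (5 * A) ^ 4 * 4 * (2 * gs (κ / η) * J * (c0 * T)) := by
            have := Real.pi_le_four
            gcongr
        _ = 5000 * (C1 * (κ / η)) * (A ^ 4 * J * √T * gs (κ / η)) := by rw [e2]; ring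
        _ ≤ _ := by gcongr
    have e6 : η * (c0 * (7 * (η * A ^ 2 * √T / Y))) = 7 * (C1 * (κ / η)) * (η ^ 2 * A ^ 2 / Y) := by
      rw [← e1]; ring
    have e7 : 0 ≤ C2 * (κ / η) * (η ^ 2 * A ^ 2 / Y) := by positivity
    rw [e6]
    linarith

end Pool.Agent.P.MP_8be758_nt.Av3
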