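import Pool.Agent.P.MP_8be758_nt.Av3.BasB

/-! The step `S_QY`. -/

namespace Pool.Agent.P.MP_8be758_nt.Av3

open Finset Real Filter Topology
open Pool.Agent.P.MP_e86632_nt (ee)
open Pool.Agent.P.MP_8be758_nt.Avg Pool.Agent.P.MP_8be758_nt.Av2
open MeasureTheory Pool.Agent.P.MP_e86632_nt

/-- the coefficients of the expansion -/
noncomputable def qy_cf (P : ℝ → ℝ) (d : ℕ → ℂ) (a a' : ℕ) : ℂ :=
  d a * (starRingEnd ℂ) (d a') * ∫ t : ℝ, (P t : ℂ) * ee (t * (lq a' a / 2))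

theorem qy_int_ee {f : ℝ → ℂ} (hf : Integrable f) (l : ℝ) :
    Integrable fun t => f t * ee (t * l) :=
  hf.mul_bdd (c := 1) (by fun_prop) (Eventually.of_forall fun t => (norm_ee _).le)

theorem qy_inner {P : ℝ → ℝ} (hP : PW P) (I : Finset ℕ) (d : ℕ → ℂ) (x : ℝ) :
    ((∫ t : ℝ, P t * ‖dp I d (t / 2 + x)‖ ^ 2 : ℝ) : ℂ) =
      ∑ a ∈ I, ∑ a' ∈ I, qy_cf P d a a' * ee (x * lq a' a) := by
  have hF : Integrable fun t => (P t : ℂ) := hP.2.2.ofReal
  have e : ∀ t : ℝ, ((P t * ‖dp I d (t / 2 + x)‖ ^ 2 : ℝ) : ℂ) =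
      ∑ a ∈ I, ∑ a' ∈ I, d a * (starRingEnd ℂ) (d a') * ee (x * lq a' a) *
        ((P t : ℂ) * ee (t * (lq a' a / 2))) := fun t => by
    push_cast
    rw [← Complex.mul_conj', dp, map_sum, sum_mul_sum, mul_sum]
    refine sum_congr rfl fun a _ => ?_
    rw [mul_sum]
    refine sum_congr rfl fun a' _ => ?_
    have : ee ((t / 2 + x) * Real.log a) * ee (-((t / 2 + x) * Real.log a')) =
        ee (x * lq a' a) * ee (t * (lq a' a / 2)) := by
      rw [← ee_add, ← ee_add, lq]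
      congr 1
      ring
    rw [map_mul, ← ee_neg]
    linear_combination (P t : ℂ) * d a * (starRingEnd ℂ) (d a') * this
  rw [← integral_complex_ofReal]
  simp only [e]
  rw [integral_finsetSum _ fun a _ => integrable_finsetSum _ fun a' _ =>
    (qy_int_ee hF _).const_mul _]
  refine sum_congr rfl fun a _ => ?_
  rw [integral_finsetSum _ fun a' _ => (qy_int_ee hF _).const_mul _]
  refine sum_congr rfl fun a' _ => ?_
  rw [integral_const_mul, qy_cf]
  ring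

theorem qy_exp {P : ℝ → ℝ} (hP : PW P) {R : ℝ} (hR : 0 < R) (I : Finset ℕ) (d : ℕ → ℂ) :
    QQ P R I d = ∑ a ∈ I, ∑ a' ∈ I, (qy_cf P d a a').re * gs (R * lq a' a) := by
  have hk : Integrable fun τ => (kq R τ : ℂ) := (integrable_kq hR).ofReal
  have e : ∀ τ : ℝ, ((kq R τ * ∫ t : ℝ, P t * ‖dp I d (t / 2 + τ)‖ ^ 2 : ℝ) : ℂ) =
      ∑ a ∈ I, ∑ a' ∈ I, qy_cf P d a a' * ((kq R τ : ℂ) * ee (τ * lq a' a)) := fun τ => by
    rw [Complex.ofReal_mul, qy_inner hP, mul_sum]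
    refine sum_congr rfl fun a _ => ?_
    rw [mul_sum]
    exact sum_congr rfl fun a' _ => by ring
  have e1 : (QQ P R I d : ℂ) = ∑ a ∈ I, ∑ a' ∈ I, qy_cf P d a a' * (gs (R * lq a' a) : ℂ) := by
    rw [QQ, ← integral_complex_ofReal]
    simp only [e]
    rw [integral_finsetSum _ fun a _ => integrable_finsetSum _ fun a' _ =>
      (qy_int_ee hk _).const_mul _]
    refine sum_congr rfl fun a _ => ?_
    rw [integral_finsetSum _ fun a' _ => (qy_int_ee hk _).const_mul _]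
    refine sum_congr rfl fun a' _ => ?_
    rw [integral_const_mul, kq_ft hR]
  have e2 := congrArg Complex.re e1
  simpa only [Complex.ofReal_re, Complex.re_sum, Complex.re_mul_ofReal] using e2

theorem qy_cf_gw (P : ℝ → ℝ) (w : ℕ → ℝ) (d : ℕ → ℂ) (a a' : ℕ) :
    (qy_cf P (fun a => (w a : ℂ) * d a) a a').re = w a * w a' * (qy_cf P d a a').re := by
  rw [← Complex.re_ofReal_mul, qy_cf, qy_cf, map_mul, Complex.conj_ofReal]
  congr 1
  push_cast
  ring

theorem qy_sq {η ρ : ℝ} (hρ : 0 < ρ) (h : η ^ 2 = 2 * ρ ^ 2) (y u v : ℝ) :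
    gs ((y - u) / η) * gs ((y - v) / η) =
      gs ((u - v) / (2 * ρ)) * gs ((y - (u + v) / 2) / ρ) := by
  rw [gs, gs, gs, gs, ← Real.exp_add, ← Real.exp_add]
  congr 1
  rw [div_pow, div_pow, h]
  field_simp
  ring

theorem qy_rad {R ρ : ℝ} (hρ : 0 < ρ) (l : ℝ) :
    gs (R * l) * gs (l / (2 * ρ)) = gs (√(R ^ 2 + 1 / (4 * ρ ^ 2)) * l) := by
  rw [gs, gs, gs, ← Real.exp_add, mul_pow _ l, mul_pow _ l, Real.sq_sqrt (by positivity)]
  congr 1
  field_simp
  ring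

theorem qy_nonneg {P : ℝ → ℝ} (hP : PW P) {R : ℝ} (hR : 0 < R) (I : Finset ℕ) (d : ℕ → ℂ) :
    0 ≤ QQ P R I d := integral_nonneg fun τ =>
  mul_nonneg (kq_pos hR τ).le (integral_nonneg fun t => mul_nonneg (hP.2.1 t) (by positivity))

theorem qy_le {P : ℝ → ℝ} (hP : PW P) {R E : ℝ} (hR : 0 < R) {I : Finset ℕ} {d : ℕ → ℂ}
    (hE : ∀ x, ∫ t : ℝ, P t * ‖dp I d (t / 2 + x)‖ ^ 2 ≤ E) : QQ P R I d ≤ E := by
  calc QQ P R I d ≤ ∫ τ, kq R τ * E := integral_mono_of_nonneg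
        (Eventually.of_forall fun τ => mul_nonneg (kq_pos hR τ).le
          (integral_nonneg fun t => mul_nonneg (hP.2.1 t) (by positivity)))
        ((integrable_kq hR).mul_const _)
        (Eventually.of_forall fun τ => mul_le_mul_of_nonneg_left (hE τ) (kq_pos hR τ).le)
    _ = E := by rw [integral_mul_const, integral_kq hR, one_mul]

theorem t_QY : S_QY := by
  intro P R η E y1 y2 I d hP hR hη hy hE
  obtain ⟨ρ, hρ, hle, hsq⟩ : ∃ ρ : ℝ, 0 < ρ ∧ ρ ≤ η ∧ η ^ 2 = 2 * ρ ^ 2 := by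
    refine ⟨√(η ^ 2 / 2), by positivity, Real.sqrt_le_iff.2 ⟨hη.le, by nlinarith⟩, ?_⟩
    rw [Real.sq_sqrt (by positivity)]
    ring
  have hR' : 0 < √(R ^ 2 + 1 / (4 * ρ ^ 2)) := by positivity
  have e : (fun y => QQ P R I fun a => (gw η y a : ℂ) * d a) = fun y => ∑ a ∈ I, ∑ a' ∈ I,
      ((qy_cf P d a a').re * gs (√(R ^ 2 + 1 / (4 * ρ ^ 2)) * lq a' a)) *
        gs ((y - (Real.log a + Real.log a') / 2) / ρ) := by
    funext y
    rw [qy_exp hP hR]
    refine sum_congr rfl fun a _ => sum_congr rfl fun a' _ => ?_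
    rw [qy_cf_gw, gw, gw, qy_sq hρ hsq, ← qy_rad hρ, lq]
    ring
  have hi : Integrable fun y => QQ P R I fun a => (gw η y a : ℂ) * d a := by
    rw [e]
    exact integrable_finsetSum _ fun a _ => integrable_finsetSum _ fun a' _ =>
      (integrable_gs hρ _).const_mul _
  have hv : ∫ y, (QQ P R I fun a => (gw η y a : ℂ) * d a) =
      QQ P √(R ^ 2 + 1 / (4 * ρ ^ 2)) I d * ρ := by
    rw [e, qy_exp hP hR', sum_mul, integral_finsetSum _ fun a _ =>
      integrable_finsetSum _ fun a' _ => (integrable_gs hρ _).const_mul _]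
    refine sum_congr rfl fun a _ => ?_
    rw [sum_mul, integral_finsetSum _ fun a' _ => (integrable_gs hρ _).const_mul _]
    refine sum_congr rfl fun a' _ => ?_
    rw [integral_const_mul, integral_gs hρ]
  refine ⟨_, by rw [e]; fun_prop, fun _ _ _ => le_rfl, ?_⟩
  rw [intervalIntegral.integral_of_le hy]
  refine (setIntegral_le_integral hi (Eventually.of_forall fun y => qy_nonneg hP hR _ _)).trans ?_
  rw [hv, mul_comm]
  exact mul_le_mul hle (qy_le hP hR' hE) (qy_nonneg hP hR' _ _) hη.le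

end Pool.Agent.P.MP_8be758_nt.Av3
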