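import Pool.Agent.P.MP_8be758_nt.Av3.BasB

/-! The step `S_REP4`. -/

namespace Pool.Agent.P.MP_8be758_nt.Av3

open Finset Real Filter Topology
open Pool.Agent.P.MP_e86632_nt (ee)
open Pool.Agent.P.MP_8be758_nt.Avg Pool.Agent.P.MP_8be758_nt.Av2

theorem rep4_one {X : ℝ} (Dd : Finset ℕ) (c h : ℕ → ℝ) (hc : ∀ d, c d ≠ 0 → d ∈ Dd) :
    ∑ a ∈ Icc 1 ⌊X⌋₊, |cv c h a| ≤ ∑ d ∈ Dd, |c d| * ∑ u ∈ Icc 1 ⌊X / d⌋₊, |h u| := by
  classical
  by_cases hX : 1 ≤ X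
  swap
  · rw [Nat.floor_eq_zero.2 (by linarith)]
    simp only [show Icc 1 0 = (∅ : Finset ℕ) by rfl, sum_empty]
    positivity
  have m := rep_hyp (Icc 1 ⌊X⌋₊) (X := X) 1 X
    (fun a ha => (Nat.cast_le.2 (mem_Icc.1 ha).2).trans (Nat.floor_le (by linarith)))
    (fun u v => |c u| * |h v|) fun u v => by positivity
  refine le_trans (sum_le_sum fun a ha => ?_) (m.trans ?_)
  · refine (abs_sum_le_sum_abs _ _).trans (sum_le_sum fun p hp => ?_)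
    obtain ⟨e, h0⟩ := Nat.mem_divisorsAntidiagonal.1 hp
    have hu : p.1 ≠ 0 := fun h => h0 (by rw [← e, h, zero_mul])
    have h1 : p.1 ≤ a := Nat.le_of_dvd (Nat.pos_of_ne_zero h0) ⟨_, e.symm⟩
    rw [if_pos ⟨by exact_mod_cast Nat.pos_of_ne_zero hu, (Nat.cast_le.2
      (h1.trans (mem_Icc.1 ha).2)).trans (Nat.floor_le (by linarith))⟩, abs_mul]
  · simp only [← mul_sum]
    rw [← sum_filter_ne_zero]
    refine sum_le_sum_of_subset_of_nonneg (fun d hd => hc d fun h0 => (mem_filter.1 hd).2 ?_)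
      fun _ _ _ => by positivity
    rw [h0, abs_zero, zero_mul]

theorem rep4_two {Λ Δ r : ℕ → ℝ} {V δ L X x1 x2 w1 w2 g : ℝ} (hX : 0 ≤ X) (hx : 1 ≤ x1)
    (hxy : x1 ≤ x2) (hw : 0 < w1) (hV : 0 ≤ V) (hV1 : V ≤ 1) (hδ : 0 ≤ δ) (hδ1 : δ ≤ 1)
    (hg : Real.log (x2 / x1) ≤ g) (hr : ∀ u, 0 ≤ r u ∧ r u ≤ 1)
    (h2 : ∀ u, r u ≤ Λ u ∧ Λ u ≤ r u + Δ u ∧ 0 ≤ Δ u ∧ Λ u ≤ L ∧ Δ u ≤ L)
    (h3 : ∀ x : ℝ, 0 ≤ x → ∑ v ∈ Icc 1 ⌊x⌋₊, Λ v ≤ x * (V + δ) + L ∧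
      ∑ v ∈ Icc 1 ⌊x⌋₊, Δ v ≤ x * δ + L)
    (h4 : ∀ x y : ℝ, 1 ≤ x → x ≤ y →
      ∑ u ∈ Icc ⌈x⌉₊ ⌊y⌋₊, Λ u / u ≤ (V + δ) * Real.log (y / x) + L / x ∧
      ∑ u ∈ Icc ⌈x⌉₊ ⌊y⌋₊, Δ u / u ≤ δ * Real.log (y / x) + L / x) :
    ∑ u ∈ Icc 1 ⌊X⌋₊, |bx Λ Λ x1 x2 w1 w2 u - bx r r x1 x2 w1 w2 u| ≤
      X * (2 * (δ * (V + δ) * g) + 3 * L / x1 + 2 * L ^ 2 / w1) := by
  classical
  have hΛ : ∀ u, 0 ≤ Λ u ∧ 0 ≤ Δ u ∧ Λ u ≤ L ∧ Δ u ≤ L := fun u =>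
    ⟨(hr u).1.trans (h2 u).1, (h2 u).2.2⟩
  have hL0 : 0 ≤ L := (hΛ 0).1.trans (hΛ 0).2.2.1
  have hg0 : 0 ≤ g := (Real.log_nonneg ((one_le_div (by linarith)).2 hxy)).trans hg
  have hle : ∀ a ∈ Icc 1 ⌊X⌋₊, (a : ℝ) ≤ X := fun a ha =>
    (Nat.cast_le.2 (mem_Icc.1 ha).2).trans (Nat.floor_le hX)
  have hf : ∀ u v, 0 ≤ Δ u * Λ v + Λ u * Δ v := fun u v =>
    add_nonneg (mul_nonneg (hΛ _).2.1 (hΛ _).1) (mul_nonneg (hΛ _).1 (hΛ _).2.1)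
  have m := rep_hyp (Icc 1 ⌊X⌋₊) x1 (min x2 (X / w1)) hle (fun u v => Δ u * Λ v + Λ u * Δ v) hf
  refine le_trans (sum_le_sum fun a ha => ?_) (m.trans ?_)
  · simp only [bx, cv, ← sum_sub_distrib]
    refine (abs_sum_le_sum_abs _ _).trans (sum_le_sum fun p hp => ?_)
    obtain ⟨e, h0⟩ := Nat.mem_divisorsAntidiagonal.1 hp
    by_cases c1 : x1 < p.1 ∧ (p.1 : ℝ) ≤ x2
    · by_cases c2 : w1 < p.2 ∧ (p.2 : ℝ) ≤ w2
      · have k : (p.1 : ℝ) ≤ X / w1 := by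
          rw [le_div_iff₀ hw]
          have := hle a ha
          rw [← e] at this
          push_cast at this
          nlinarith [c2.1, Nat.cast_nonneg (α := ℝ) p.1]
        rw [if_pos ⟨c1.1.le, le_min c1.2 k⟩]
        simp only [cut_pos _ c1.1 c1.2, cut_pos _ c2.1 c2.2]
        have := rep_pt (w := 1) (c := 1) (hr p.1).1 (hr p.1).2 (hr p.2).1 (hr p.2).2 (h2 _).1
          (h2 _).2.1 (h2 _).1 (h2 _).2.1 zero_le_one
        simpa using this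
      · simp only [cut_neg _ c2, mul_zero, sub_zero, abs_zero]
        split_ifs
        exacts [hf _ _, le_rfl]
    · simp only [cut_neg _ c1, zero_mul, sub_zero, abs_zero]
      split_ifs
      exacts [hf _ _, le_rfl]
  · by_cases hy : x1 ≤ min x2 (X / w1)
    · have lg : Real.log (min x2 (X / w1) / x1) ≤ g := by
        refine le_trans (Real.log_le_log (div_pos (by linarith) (by linarith)) ?_) hg
        gcongr
        exact min_le_left _ _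
      refine (rep_main hX hx hy hV hδ lg hΛ h3 (h4 _ _ hx hy).1 (h4 _ _ hx hy).2).trans ?_
      have a1 : X * (V + 2 * δ) * (L / x1) ≤ X * 3 * (L / x1) := by
        have : 0 ≤ L / x1 := div_nonneg hL0 (by linarith)
        gcongr
        linarith
      have a2 : 2 * L ^ 2 * min x2 (X / w1) ≤ 2 * L ^ 2 * (X / w1) := by
        gcongr
        exact min_le_right _ _
      calc _ ≤ 2 * X * (δ * (V + δ) * g) + X * 3 * (L / x1) + 2 * L ^ 2 * (X / w1) := by linarith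
        _ = _ := by ring
    · rw [Icc_eq_empty, sum_empty]
      · have : 0 ≤ x1 := by linarith
        positivity
      · intro hh
        apply hy
        have h0 : 0 ≤ min x2 (X / w1) := le_min (by linarith) (by positivity)
        exact (Nat.le_ceil _).trans ((Nat.cast_le.2 hh).trans (Nat.floor_le h0))

theorem t_REP4 : S_REP4 := by
  classical
  intro z L δ X x1 x2 w1 w2 g lam Del Dd c hF hδ hδ1 hX hx hxy hw hg hc
  obtain ⟨Λ, Δ, h1, h2, h3, h4⟩ := t_SVS z L δ lam Del hF hδ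
  have e : svL z lam = Λ := funext fun u => (h1 u).symm
  rw [e]
  obtain ⟨v0, v1⟩ := rep_vz z
  refine (rep4_one Dd c _ hc).trans ?_
  rw [mul_sum, sum_mul]
  refine sum_le_sum fun d _ => ?_
  have := rep4_two (r := rI z) (w2 := w2) (X := X / d) (by positivity) hx hxy hw v0 v1 hδ hδ1 hg
    (fun u => by unfold rI; split_ifs <;> norm_num) h2 h3 h4
  refine (mul_le_mul_of_nonneg_left this (abs_nonneg _)).trans_eq ?_
  ring

end Pool.Agent.P.MP_8be758_nt.Av3
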