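import Pool.Agent.P.MP_8be758_nt.Av3.Basic

/-! The step `S_REPb`. -/

namespace Pool.Agent.P.MP_8be758_nt.Av3

open Finset Real Filter Topology
open Pool.Agent.P.MP_e86632_nt (ee)
open Pool.Agent.P.MP_8be758_nt.Avg Pool.Agent.P.MP_8be758_nt.Av2

theorem t_REPb (ζ : ℝ) (h0 : 0 < ζ) (h1 : ζ ≤ 1 / 10000) (hS : S_SMOb ζ) : S_REPb ζ := by
  classical
  refine ⟨160, by norm_num, ?_⟩
  filter_upwards [hS, ev_zq_tau h0 2, ev_zq0 h0 1,
    ev_zq_pow ζ 1 13 (a := 0) (b := 1 / 10) (by push_cast; linarith),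
    ev_const 5 (b := 1 / 10) (by norm_num), eventually_ge_atTop 1] with N hS hT hZ hq hq5 hN
  intro z L δ B x y A1 A2 lam Del hF hL hδ hδ1 hB1 hB2 hA1 hA12 hA2 hx hxy hy
  obtain ⟨Λ, Δ, g1, h2, h3, h4⟩ := t_SVS z L δ lam Del hF hδ
  obtain ⟨s1, s2⟩ := hS B x y A1 A2 hB1 hB2 hA1 hA12 hA2 hx hxy hy
  rw [Real.rpow_zero, one_mul, mul_one] at hq
  have hqB : N ^ (1 / 10 : ℝ) ≤ B :=
    (Real.rpow_le_rpow_of_exponent_le hN (by norm_num)).trans hB1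
  have hqN : N ^ (1 / 10 : ℝ) ≤ N ^ 3 := by
    rw [← Real.rpow_natCast]; exact Real.rpow_le_rpow_of_exponent_le hN (by norm_num)
  generalize N ^ (1 / 10 : ℝ) = q at *
  have hB : 0 < B := by linarith
  have hA : (A1 : ℝ) ≤ A2 := by exact_mod_cast hA12
  obtain ⟨hA0, hHN, hyH, hlg⟩ := rep_num hN hq5 hqB hA1 hA hA2 hx hxy hy
  obtain ⟨H, hH⟩ : ∃ H, H = N ^ 2 / B := ⟨_, rfl⟩
  rw [← hH] at hHN hyH s2 ⊢
  have hH0 : 0 < H := by rw [hH]; positivity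
  have hX : 2 * N ^ 2 / B = 2 * H := by rw [hH]; ring
  set w : ℕ → ℕ → ℝ := fun u v => WW (rq ζ N) (Real.log x / 2) (Real.log y / 2) (Real.log A1 / 2)
    (Real.log A2 / 2) u v / rq ζ N ^ 2 with hw
  have w0 : ∀ u v, 0 ≤ w u v := fun u v => div_nonneg (WW_nonneg _
    (by gcongr; linarith) (by gcongr) _ _) (sq_nonneg _)
  have hR : ∀ u, (0 : ℝ) ≤ (if Rough z u then 1 else 0) ∧
      (if Rough z u then 1 else 0) ≤ (1 : ℝ) := fun u => by split_ifs <;> norm_num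
  have hΛ : ∀ u, 0 ≤ Λ u ∧ 0 ≤ Δ u ∧ Λ u ≤ L ∧ Δ u ≤ L := fun u =>
    ⟨(hR u).1.trans (h2 u).1, (h2 u).2.2⟩
  have hL0 : 0 ≤ L := (hΛ 0).1.trans (hΛ 0).2.2.1
  have hN3 : 1 / N ^ 3 ≤ 1 / Zq ζ N ^ 13 := one_div_le_one_div_of_le (by positivity) (by linarith)
  have hpos : ∀ {a : ℕ} {p : ℕ × ℕ}, p ∈ a.divisorsAntidiagonal → 1 ≤ p.1 ∧ 1 ≤ p.2 := by
    intro a p hp
    obtain ⟨e, h0⟩ := Nat.mem_divisorsAntidiagonal.1 hp
    exact ⟨Nat.pos_of_ne_zero fun h => h0 (by rw [← e, h, zero_mul]),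
      Nat.pos_of_ne_zero fun h => h0 (by rw [← e, h, mul_zero])⟩
  have hle : ∀ a ∈ AR N B, (a : ℝ) ≤ 2 * H := fun a ha =>
    hX ▸ ((mem_AR (by positivity)).1 ha).2.2
  have hc : ∀ a ∈ AR N B, ∀ c : ℝ, 0 ≤ c → ∑ _p ∈ a.divisorsAntidiagonal, c ≤ Zq ζ N * c := by
    intro a ha c hc
    rw [Nat.sum_divisorsAntidiagonal (fun _ _ => c), sum_const, nsmul_eq_mul]
    exact mul_le_mul_of_nonneg_right (hT a (by linarith [hle a ha])) hc
  simp only [rep_als _ _ _ _ _ _ _ Λ g1, rep_tau, ← sum_sub_distrib]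
  refine ⟨fun a ha => ?_, ?_⟩
  · refine (abs_sum_le_sum_abs _ _).trans ((sum_le_sum (g := fun _ => 10 * Zq ζ N ^ 2)
      fun p hp => ?_).trans ((hc a ha _ (by positivity)).trans_eq (by ring)))
    have w9 : w p.1 p.2 ≤ 9 := (s1 _ _ (hpos hp).1 (hpos hp).2).trans (by
      split_ifs
      · exact le_rfl
      · rw [div_le_iff₀ (by positivity)]; linarith)
    have t1 : Λ p.1 * Λ p.2 * w p.1 p.2 ≤ Zq ζ N * Zq ζ N * 9 := by
      have := (hΛ p.1).2.2.1.trans hL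
      have := (hΛ p.2).2.2.1.trans hL
      have := (hΛ p.2).1
      have := w0 p.1 p.2
      gcongr
    have t2 : 0 ≤ Λ p.1 * Λ p.2 * w p.1 p.2 := mul_nonneg (mul_nonneg (hΛ _).1 (hΛ _).1) (w0 _ _)
    exact rep_abs t2 t1 hZ (hR _).1 (hR _).2 (hR _).1 (hR _).2 (by positivity)
      (by split_ifs <;> norm_num)
  · have key : ∀ a ∈ AR N B, |∑ p ∈ a.divisorsAntidiagonal, (Λ p.1 * Λ p.2 * w p.1 p.2 -
        (if Rough z p.1 then 1 else 0) * (if Rough z p.2 then 1 else 0) *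
        (if (x < p.1 ∧ (p.1 : ℝ) ≤ y) ∧ A1 < a ∧ a ≤ A2 then (1 : ℝ) else 0))| ≤
        9 * ∑ p ∈ a.divisorsAntidiagonal, (if x / 2 ≤ p.1 ∧ (p.1 : ℝ) ≤ 2 * y then
          Δ p.1 * Λ p.2 + Λ p.1 * Δ p.2 else 0) + 2 / Zq ζ N ^ 10 +
        ∑ p ∈ a.divisorsAntidiagonal, |w p.1 p.2 -
          if (x < p.1 ∧ (p.1 : ℝ) ≤ y) ∧ A1 < a ∧ a ≤ A2 then (1 : ℝ) else 0| := by
      intro a ha
      have e : 2 / Zq ζ N ^ 10 = Zq ζ N * (2 * Zq ζ N ^ 2 * (1 / Zq ζ N ^ 13)) := by field_simp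
      rw [e]
      refine (abs_sum_le_sum_abs _ _).trans (le_trans ?_ (add_le_add_left
        (add_le_add_right (hc a ha _ (by positivity)) _) _))
      rw [mul_sum, ← sum_add_distrib, ← sum_add_distrib]
      refine sum_le_sum fun p hp => (rep_pt (hR _).1 (hR _).2 (hR _).1 (hR _).2 (h2 _).1
        (h2 _).2.1 (h2 _).1 (h2 _).2.1 (w0 _ _)).trans (add_le_add_left ?_ _)
      have t := s1 _ _ (hpos hp).1 (hpos hp).2
      obtain ⟨a1, a2, a3, a4⟩ := hΛ p.1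
      obtain ⟨b1, b2, b3, b4⟩ := hΛ p.2
      have t0 : 0 ≤ Δ p.1 * Λ p.2 + Λ p.1 * Δ p.2 := by positivity
      have t1 : 0 ≤ 2 * Zq ζ N ^ 2 * (1 / Zq ζ N ^ 13) := by positivity
      split_ifs at t ⊢
      · have := mul_le_mul_of_nonneg_left t t0
        linarith
      · have t2 : Δ p.1 * Λ p.2 + Λ p.1 * Δ p.2 ≤ 2 * Zq ζ N ^ 2 := by
          have := mul_le_mul (a4.trans hL) (b3.trans hL) b1 (by linarith)
          have := mul_le_mul (a3.trans hL) (b4.trans hL) b2 (by linarith)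
          linarith
        have := mul_le_mul t2 (t.trans hN3) (w0 _ _) (by positivity)
        linarith
    refine (sum_le_sum key).trans ?_
    rw [sum_add_distrib, sum_add_distrib, ← mul_sum, sum_const, nsmul_eq_mul]
    have m1 := rep_hyp (AR N B) (x / 2) (2 * y) hle
      (fun u v => Δ u * Λ v + Λ u * Δ v) fun u v =>
      add_nonneg (mul_nonneg (hΛ _).2.1 (hΛ _).1) (mul_nonneg (hΛ _).1 (hΛ _).2.1)
    obtain ⟨v0, v1⟩ := rep_vz z
    have m2 := rep_main (X := 2 * H) (by positivity) (by linarith : 1 ≤ x / 2)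
      (by linarith : x / 2 ≤ 2 * y) v0 hδ hlg hΛ h3 (h4 _ _ (by linarith) (by linarith)).1
      (h4 _ _ (by linarith) (by linarith)).2
    have m3 : ((AR N B).card : ℝ) ≤ 2 * H := hX ▸ card_AR (by positivity)
    have hD : 0 ≤ δ * (Vz z + δ) * Real.log N := by
      have := Real.log_nonneg hN
      positivity
    have hZ0 : 0 < Zq ζ N := by linarith
    have z1 : Zq ζ N ^ 12 ≤ q := (pow_le_pow_right₀ hZ (by norm_num)).trans hq
    have z2 : L / (x / 2) ≤ 2 * (1 / Zq ζ N ^ 10) := by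
      rw [div_le_iff₀ (by linarith)]
      have : Zq ζ N ^ 11 ≤ x := (pow_le_pow_right₀ hZ (by norm_num)).trans (hq.trans hx)
      calc L ≤ Zq ζ N := hL
        _ = 2 * (1 / Zq ζ N ^ 10) * (Zq ζ N ^ 11 / 2) := by field_simp
        _ ≤ _ := by gcongr
    have z3 : L ^ 2 * y ≤ 6 / 5 * H * (1 / Zq ζ N ^ 10) := by
      rw [mul_one_div, le_div_iff₀ (by positivity)]
      calc L ^ 2 * y * Zq ζ N ^ 10 ≤ Zq ζ N ^ 2 * y * Zq ζ N ^ 10 := by gcongr; linarith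
        _ = y * Zq ζ N ^ 12 := by ring
        _ ≤ y * q := by gcongr; linarith
        _ ≤ _ := hyH
    have z4 : 2 * H * (Vz z + 2 * δ) * (L / (x / 2)) ≤ 2 * H * 3 * (2 * (1 / Zq ζ N ^ 10)) := by
      have : 0 ≤ L / (x / 2) := div_nonneg hL0 (by linarith)
      gcongr
      linarith
    have z5 : ((AR N B).card : ℝ) * (2 / Zq ζ N ^ 10) ≤ 2 * H * (2 / Zq ζ N ^ 10) := by gcongr
    have z6 : 0 ≤ H * (1 / Zq ζ N ^ 10) := by positivity
    have z7 := mul_nonneg hH0.le hD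
    have e1 : 2 * H * (2 / Zq ζ N ^ 10) = 4 * (H * (1 / Zq ζ N ^ 10)) := by ring
    have e2 : H / Zq ζ N ^ 10 = H * (1 / Zq ζ N ^ 10) := by ring
    rw [e1] at z5
    rw [e2] at s2
    linarith

end Pool.Agent.P.MP_8be758_nt.Av3
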