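import Pool.Agent.P.MP_8be758_nt.Av3.Basic

/-! The step `S_RGb`. -/

namespace Pool.Agent.P.MP_8be758_nt.Av3

open Finset Real Filter Topology
open Pool.Agent.P.MP_e86632_nt (ee)
open Pool.Agent.P.MP_8be758_nt.Avg Pool.Agent.P.MP_8be758_nt.Av2

theorem t_RGb (θ δ : ℝ) (hII : S_II2 θ δ (10 / 11)) : S_RGb θ δ := by
  intro e1 h0 h1 ε hε
  obtain ⟨t, ht⟩ : ∃ t : ℝ, t = 2 ^ ⌈2 / e1⌉₊ := ⟨_, rfl⟩
  have t0 : 0 < t := by rw [ht]; positivity
  obtain ⟨R1, hR⟩ := hII e1 h0 h1 (ε / t) (by positivity)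
  refine ⟨R1, fun R hR1 => ?_⟩
  filter_upwards [hR R hR1, eventually_gt_atTop 1] with N H hN K X1 X2 G ρ hS g1 g2 hρ
  have N0 : 0 < N := by linarith
  have g3 : ∀ w : ℕ, (∑ p ∈ w.divisorsAntidiagonal, G p.1 p.2) / t ≠ 0 →
      Rough (N ^ e1) w ∧ N ^ (10 / 11 : ℝ) < w ∧ (w : ℝ) ≤ N ^ (109 / 100 : ℝ) := fun w h => by
    obtain ⟨p, hp, h⟩ := exists_ne_zero_of_sum_ne_zero (div_ne_zero_iff.1 h).1
    exact (Nat.mem_divisorsAntidiagonal.1 hp).1 ▸ g2 _ _ h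
  have h2 := H K X1 X2 (fun w => (∑ p ∈ w.divisorsAntidiagonal, G p.1 p.2) / t)
    (fun v => if N ^ (10 / 11 : ℝ) < v then ρ v else 0) hS
    ⟨fun w => ?_, fun w h => ⟨(g3 w h).1, (g3 w h).2.1⟩⟩
    ⟨fun v => by
      dsimp only
      split_ifs
      · exact hρ.1 v
      · simp, fun v h => ⟨(hρ.2 v (ite_ne_right_iff.1 h).2).1, (ite_ne_right_iff.1 h).1⟩⟩
  · have e : ∀ k, ∑ b ∈ Icc 1 X2, ∑ a ∈ half_P X1 X2 b,
        (∑ p ∈ a.divisorsAntidiagonal, G b p.1 * ρ p.2) * dd R.factorial k (a * b) = t * bil X1 X2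
        (fun w => (∑ p ∈ w.divisorsAntidiagonal, G p.1 p.2) / t)
        (fun v => if N ^ (10 / 11 : ℝ) < v then ρ v else 0) (dd R.factorial k) := by
      intro k
      rw [rg_id X1 X2 G ρ (fun v => if N ^ (10 / 11 : ℝ) < v then ρ v else 0) _
        fun b u v h h' => ?_, bil, bil, mul_sum]
      · exact sum_congr rfl fun p _ => by field_simp
      · have a1 := (g2 b u h).2.2
        have a2 : N ^ 2 < (b * u : ℕ) * v := hS.x1.trans_lt (by exact_mod_cast h')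
        refine if_pos (not_le.1 fun c => a2.not_ge ?_)
        refine (mul_le_mul a1 c (Nat.cast_nonneg v) (by positivity)).trans ?_
        rw [← Real.rpow_add N0, ← Real.rpow_two]
        exact Real.rpow_le_rpow_of_exponent_le hN.le (by norm_num)
    simp only [e, abs_mul, abs_of_pos t0, ← mul_sum]
    refine (mul_le_mul_of_nonneg_left h2 t0.le).trans (le_of_eq ?_)
    field_simp
  · by_cases h : (∑ p ∈ w.divisorsAntidiagonal, G p.1 p.2) / t = 0
    · simp [h]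
    obtain ⟨a1, -, a2⟩ := g3 w h
    have a3 := lib_TAU (N ^ e1) ⌈2 / e1⌉₊ w (Real.one_lt_rpow hN h0) a1 (a2.trans (by
      rw [← Real.rpow_natCast, ← Real.rpow_mul N0.le]
      exact Real.rpow_le_rpow_of_exponent_le hN.le (le_trans (by norm_num)
        ((div_le_iff₀' h0).1 (Nat.le_ceil (2 / e1))))))
    rw [abs_div, abs_of_pos t0, div_le_one t0, Nat.sum_divisorsAntidiagonal, ht]
    refine (abs_sum_le_sum_abs _ _).trans ((sum_le_card_nsmul _ _ 1 fun d _ => g1 _ _).trans ?_)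
    rw [nsmul_one]
    exact_mod_cast a3

end Pool.Agent.P.MP_8be758_nt.Av3
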