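import Pool.Agent.P.MP_8be758_nt.Av3.Basic

/-! The step `S_SMOb`. -/

namespace Pool.Agent.P.MP_8be758_nt.Av3

open Finset Real Filter Topology
open Pool.Agent.P.MP_e86632_nt (ee)
open Pool.Agent.P.MP_8be758_nt.Avg Pool.Agent.P.MP_8be758_nt.Av2

theorem t_SMOb (ζ : ℝ) (h0 : 0 < ζ) (h1 : ζ ≤ 1 / 10000) : S_SMOb ζ := by
  obtain ⟨C, hC, hW⟩ := lib_WW
  filter_upwards [ev_zq0 h0 (2 * C + 2684), ev_log 1, ev_zq_gs h0 5 one_pos, ev_zq_tau h0 2,
    ev_const 2 (show (0 : ℝ) < 13 / 20 by norm_num), eventually_ge_atTop 1]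
    with N e1 e2 e3 e4 e5 hN B x y A1 A2 b1 bN a1 a2 a3 x1 x2 x3
  have N0 : 0 < N := by linarith
  have hρ := rq_pos N0 ζ
  have pw : ∀ (j : ℕ) (r : ℝ), (j : ℝ) / 10000 ≤ r → Zq ζ N ^ j ≤ N ^ r := fun j r h => by
    rw [zq_pow N0]
    refine Real.rpow_le_rpow_of_exponent_le hN (le_trans ?_ h)
    have := mul_le_mul_of_nonneg_right h1 (Nat.cast_nonneg (α := ℝ) j)
    linarith
  have z66 : Zq ζ N ^ 66 ≤ N := by simpa using pw 66 1 (by norm_num)
  have z21 := (pw 21 (1 / 10) (by norm_num)).trans x1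
  have t1 : 1 ≤ N ^ (1 / 10 : ℝ) := Real.one_le_rpow hN (by norm_num)
  clear h0 h1 pw
  set Z := Zq ζ N with hZ
  set ρ := rq ζ N
  have hr : ρ = 1 / Z ^ 22 := rfl
  have Z1 : 1 ≤ Z := by linarith
  have B2 : 2 ≤ B := e5.trans b1
  have B0 : 0 < B := by linarith
  have hk : ρ * Z * Z ^ 21 = 1 := by rw [hr]; field_simp
  have k0 : 0 < ρ * Z := by positivity
  have k1 : ρ * Z ≤ 1 / 24 := by
    have := mul_le_mul_of_nonneg_left ((show 24 ≤ Z by linarith).trans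
      (le_self_pow₀ Z1 (show 21 ≠ 0 by norm_num))) k0.le
    linarith
  have r1 : 1 ≤ ρ ^ 3 * N := by
    rw [hr, one_div, inv_pow, ← pow_mul, inv_mul_eq_div, le_div_iff₀ (by positivity), one_mul]
    exact z66
  have r2 : ρ ^ 3 ≤ ρ ^ 2 := pow_le_pow_of_le_one hρ.le
    ((le_mul_of_one_le_right hρ.le Z1).trans (by linarith)) (by norm_num)
  have g1 : Real.log N * gs Z * N ^ 3 ≤ ρ ^ 3 := by
    have h1 : Real.log N ≤ N := (Real.log_le_sub_one_of_pos N0).trans (by linarith)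
    have h2 := gs_pos Z
    rw [one_mul] at e3
    refine le_of_mul_le_mul_right (le_trans ?_ (e3.trans r1)) N0
    calc _ ≤ N * gs Z * N ^ 3 * N := by gcongr
      _ = _ := by ring
  have g2 : Real.log N * gs Z ≤ ρ ^ 3 := le_trans (le_mul_of_one_le_right
    (mul_nonneg (by linarith) (gs_pos Z).le) (one_le_pow₀ hN)) g1
  have x0 : 1 ≤ x := t1.trans x1
  have A12 : (A1 : ℝ) ≤ A2 := by exact_mod_cast a2
  have A0 : (0 : ℝ) < A1 := (mul_pos_iff_of_pos_right B0).1 (lt_of_lt_of_le (by positivity) a1)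
  have A54 : (A2 : ℝ) ≤ 5 / 4 * A1 := le_of_mul_le_mul_right (by rw [mul_assoc]; linarith) B0
  have AQ : (A2 : ℝ) ≤ 2 * (N ^ 2 / B) := by
    rw [← mul_div_assoc, le_div_iff₀ B0]
    linarith [sq_nonneg N]
  have QN : 2 * (N ^ 2 / B) ≤ N ^ 2 := by
    rw [← mul_div_assoc, div_le_iff₀ B0, mul_comm]
    exact mul_le_mul_of_nonneg_left B2 (sq_nonneg N)
  have NQ : N ≤ N ^ 2 / B := by
    rw [le_div_iff₀ B0, sq]
    exact mul_le_mul_of_nonneg_left bN N0.le
  have j12 : Real.log x / 2 ≤ Real.log y / 2 := by gcongr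
  have s12 : Real.log A1 / 2 ≤ Real.log A2 / 2 := by gcongr
  have H := fun (u v : ℕ) hu hv => hW ρ Z (Real.log N) _ _ _ _ u v hρ Z1 (by linarith) hu hv j12 s12
    e2 (by
      have h1 : y ≤ N ^ 2 := (le_mul_of_one_le_right (by linarith) t1).trans (by linarith)
      have h2 := Real.log_le_log (by linarith) h1
      have h3 := Real.log_nonneg x0
      rw [Real.log_pow] at h2
      push_cast at h2
      linarith) (by
      have h1 := Real.log_le_log (by linarith) A54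
      have h2 := Real.log_le_sub_one_of_pos (show (0 : ℝ) < 5 / 4 by norm_num)
      rw [Real.log_mul (by norm_num) A0.ne'] at h1
      linarith)
  have ρ2 : 0 < ρ ^ 2 := by positivity
  have o1 : ∀ w, w ≤ Real.log N * gs Z → w / ρ ^ 2 ≤ 1 / N ^ 3 := fun w h => by
    rw [div_le_div_iff₀ ρ2 (by positivity), one_mul]
    exact le_trans (by gcongr) (g1.trans r2)
  refine ⟨fun u v hu hv => ?_, ?_⟩
  · split_ifs with h
    · exact (div_le_iff₀ ρ2).2 ((H u v hu hv).2 g2).1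
    · have u0 : (0 : ℝ) < u := by exact_mod_cast hu
      have l2 := Real.log_two_gt_d9
      refine o1 _ ((H u v hu hv).1 ?_)
      rcases not_and_or.1 h with h | h
      · have h1 := Real.log_le_log u0 (not_le.1 h).le
        rw [Real.log_div (by linarith) two_ne_zero] at h1
        exact .inl (by linarith)
      · have h1 := Real.log_le_log (by linarith) (not_le.1 h).le
        rw [Real.log_mul two_ne_zero (by linarith)] at h1
        exact .inr (.inl (by linarith))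
  have hQ : 0 ≤ 2 * N ^ 2 / B := by positivity
  have m1 : ∀ a ∈ AR N B, 1 ≤ a := fun a ha => ((mem_AR hQ).1 ha).1
  have m2 : ∀ a ∈ AR N B, (a : ℝ) ≤ 2 * (N ^ 2 / B) := fun a ha =>
    ((mem_AR hQ).1 ha).2.2.trans_eq (mul_div_assoc _ _ _)
  have m3 : ∀ a ∈ AR N B, (a.divisors.card : ℝ) ≤ Z := fun a ha => e4 a ((m2 a ha).trans QN)
  have t0 : 0 < 8 * (ρ * Z) := by positivity
  have t2 : 8 * (ρ * Z) ≤ 1 / 2 := by linarith
  refine le_trans (sum_le_sum fun a ha => sum_le_sum fun (p : ℕ × ℕ) hp => smo_pt (u := Real.log p.1)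
    (P := (x < p.1 ∧ (p.1 : ℝ) ≤ y) ∧ A1 < a ∧ a ≤ A2)
    (a := Real.log a) (x := Real.log x) (y := Real.log y) (c := Real.log A1) (d := Real.log A2)
    (ε := C * (ρ * Z) * Z ^ 2) (η := 1 / N ^ 3) k0 (by positivity) (by positivity)
    (div_nonneg (WW_nonneg ρ j12 s12 _ _) ρ2.le) ?_ ?_ ?_ ?_) ?_
  rotate_right
  · have k2 : ∀ s, Z ^ 21 ≤ s → 1 ≤ ρ * Z * s := fun s hs =>
      hk.symm.trans_le (mul_le_mul_of_nonneg_left hs k0.le)
    have z2 : Z ^ 21 ≤ N := (pow_le_pow_right₀ Z1 (by norm_num)).trans z66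
    have Q0 : 0 < N ^ 2 / B := by positivity
    have f0 := smo_all m3 (f := fun _ => C * (ρ * Z) * Z ^ 2 + 1 / N ^ 3) fun _ => by positivity
    have f1 := smo_u (by positivity) m2 (x := x) (by linarith) t0 t2
    have f2 := smo_u (by positivity) m2 (x := y) (by linarith) t0 t2
    have f3 := smo_a m3 (by linarith) m1 A0 t0 t2
    have f4 := smo_a m3 (by linarith) m1 (A0.trans_le A12) t0 t2
    have f5 := smo_num (C := C) (η := 1 / N ^ 3) Q0 Z1 k0 (by
      rw [div_le_iff₀ (by positivity)]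
      exact k2 _ (z2.trans (le_self_pow₀ hN (by norm_num)))) (by linarith) (k2 x z21) x2
      (k2 _ (z2.trans NQ)) A12 AQ
    have f6 : (∑ _a ∈ AR N B, (C * (ρ * Z) * Z ^ 2 + 1 / N ^ 3)) * Z ≤
        2 * (N ^ 2 / B) * (C * (ρ * Z) * Z ^ 2 + 1 / N ^ 3) * Z := by
      have := (card_AR hQ).trans_eq (mul_div_assoc _ _ _)
      rw [sum_const, nsmul_eq_mul]
      gcongr
    have f7 : N ^ 2 / B * (ρ * Z) * Z ^ 3 * (2 * C + 2684) ≤ N ^ 2 / B / Z ^ 10 := by
      rw [le_div_iff₀ (by positivity)]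
      calc _ ≤ N ^ 2 / B * (ρ * Z) * Z ^ 3 * Z ^ 8 * Z ^ 10 := by
            have := e1.trans (le_self_pow₀ Z1 (show 8 ≠ 0 by norm_num))
            gcongr
        _ = N ^ 2 / B * (ρ * Z * Z ^ 21) := by ring
        _ = _ := by rw [hk, mul_one]
    generalize C * (ρ * Z) * Z ^ 2 + 1 / N ^ 3 = c at *
    simp only [sum_add_distrib, ← mul_sum]
    linarith
  all_goals
    obtain ⟨h6, h7⟩ := Nat.mem_divisorsAntidiagonal.1 hp
    have c1 : 1 ≤ p.1 := Nat.pos_of_ne_zero fun c => h7 (by rw [← h6, c, zero_mul])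
    have c2 : 1 ≤ p.2 := Nat.pos_of_ne_zero fun c => h7 (by rw [← h6, c, mul_zero])
    have c3 : (p.1 : ℝ) * p.2 = a := by exact_mod_cast h6
    have c4 := H p.1 p.2 c1 c2
    rw [c3] at c4
  · exact (div_le_iff₀ ρ2).2 (c4.2 g2).1
  · have u0 : (0 : ℝ) < p.1 := by exact_mod_cast c1
    have a0 : (0 : ℝ) < a := by exact_mod_cast m1 a ha
    rw [Real.log_lt_log_iff (by linarith) u0, Real.log_le_log_iff u0 (by linarith),
      Real.log_lt_log_iff A0 a0, Real.log_le_log_iff a0 (by linarith), Nat.cast_lt, Nat.cast_le]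
  · exact fun h => o1 _ (c4.1 h)
  · intro d1 d2 d3 d4
    rw [div_sub_one ρ2.ne', abs_div, abs_of_pos ρ2, div_le_iff₀ ρ2]
    exact ((c4.2 g2).2 d1 d2 d3 d4).trans_eq (by ring)

end Pool.Agent.P.MP_8be758_nt.Av3
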