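import Pool.Agent.P.MP_8be758_nt.Av3.Basic

/-! The step `S_SW2b`. -/

namespace Pool.Agent.P.MP_8be758_nt.Av3

open Finset Real Filter Topology
open Pool.Agent.P.MP_e86632_nt (ee)
open Pool.Agent.P.MP_8be758_nt.Avg Pool.Agent.P.MP_8be758_nt.Av2

theorem t_SW2b (hUPWb : S_UPWb) (θ ζ : ℝ) (hP : Pm θ ζ) (hR : S_REPb ζ)
    (hS : S_SWAPb θ ζ) : S_SW2b θ := by
  intro j ε hε
  obtain ⟨C1, hFL⟩ := lib_FL
  obtain ⟨CH, hCH, hHR⟩ := lib_HR
  obtain ⟨CR, hCR, hREP⟩ := hR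
  obtain ⟨CU, hCU, hUPW⟩ := hUPWb
  have hz0 := hP.z0
  have hz1' := hP.z1
  set c1 : ℝ := 2 / ζ * (C1 + 1) with hc1
  have hc10 : 0 < c1 := by positivity
  obtain ⟨s0, hs01, hs0⟩ := sw2_s (48 * CU * CR * CH ^ 2) c1 ε (j + 2) hε
  have hs0' : (1 : ℝ) ≤ s0 := by exact_mod_cast hs01
  refine ⟨1 / (c1 * s0), by positivity, fun e1 he1 he W hW => ?_⟩
  set s := ⌊1 / (c1 * e1)⌋₊ with hs
  have a1 : (s0 : ℝ) ≤ 1 / (c1 * e1) := by
    rw [le_div_iff₀ (by positivity)] at he ⊢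
    linarith
  have a2 : s0 ≤ s := Nat.le_floor a1
  have a3 : (s : ℝ) ≤ 1 / (c1 * e1) := Nat.floor_le (by positivity)
  have a4 : 1 / (c1 * e1) < s + 1 := Nat.lt_floor_add_one _
  have a5 : (1 : ℝ) ≤ s := by exact_mod_cast hs01.trans a2
  rw [le_div_iff₀ (by positivity)] at a3
  rw [div_lt_iff₀ (by positivity)] at a4
  have a6 : 1 / e1 ≤ 2 * c1 * s := by
    rw [div_le_iff₀ he1]
    have := mul_le_mul_of_nonneg_right a5 (by positivity : 0 ≤ c1 * e1)
    linarith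
  have a7 : e1 * (((C1 + 1) * s : ℕ) : ℝ) ≤ ζ / 2 := by
    rw [hc1] at a3
    push_cast
    calc _ = s * (2 / ζ * (C1 + 1) * e1) * (ζ / 2) := by field_simp
      _ ≤ 1 * (ζ / 2) := by gcongr
      _ = _ := one_mul _
  have a8 : 24 * CU * CR * CH ^ 2 / (e1 ^ 2 * 2 ^ s) ≤ ε * e1 ^ j / 2 := by
    have g1 : 48 * CU * CR * CH ^ 2 * (1 / e1) ^ (j + 2) / 2 ^ s ≤ ε :=
      le_trans (by gcongr) (hs0 s a2)
    calc _ = 48 * CU * CR * CH ^ 2 * (1 / e1) ^ (j + 2) / 2 ^ s * e1 ^ j / 2 := by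
          rw [one_div, inv_pow]; field_simp; ring
      _ ≤ _ := by gcongr
  filter_upwards [hREP, hUPW W hW, hS W hW, eventually_ge_atTop 1, ev_log 1,
    ev_log (2 * CH / e1), ev_const 2 he1, bx_ev3 (2 * e1 * 2 ^ s / CH) 1 he1,
    bx_ev2 4 (show ζ / 2 < ζ by linarith),
    ev_zq hz0 (8 * CU * CR / (ε * e1 ^ j)) 1, ev_zq hz0 2 4,
    ev_zq_pow ζ 20 4 (a := 49 / 50) (b := 1) (by push_cast; linarith)]
    with N hREP hUPW hSWAP hN hL b1 hz b2 b3 b4 b5 b6 K A1 A2 B x x' r S β hT hA1 hA2 hr hx hx' hxr hxr'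
  have hN0 : 0 < N := by linarith
  set L := Real.log N with hLd
  have hL0 : 0 < L := by linarith
  set σ := ∑ b ∈ S, |β b| / b with hσ
  have hσ0 : 0 ≤ σ := sum_nonneg fun _ _ => by positivity
  rcases lt_or_ge A2 A1 with hA | hA
  · rw [Ioc_eq_empty (by omega)]
    simp only [tb, sum_empty, sum_const_zero, abs_zero]
    positivity
  have hZ0 := zq_pos hN0 ζ
  change _ ≤ Zq ζ N at b3
  set Z := Zq ζ N with hZ
  set z := N ^ e1 with hzd
  have hz1 : 1 ≤ z := by linarith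
  have hB : 0 < B := lt_of_lt_of_le (by positivity) hT.b1
  have hx0 : 0 < x := lt_of_lt_of_le (by positivity) hx
  have hx0' : 0 < x' := lt_of_lt_of_le (by positivity) hx'
  have hr0 : 0 < r := by linarith
  have hA10 : (0 : ℝ) < A1 := lt_of_lt_of_le (by positivity) hxr
  have hA' : (A1 : ℝ) ≤ A2 := by exact_mod_cast hA
  have hZ1 : 1 ≤ Z := by
    have := one_le_pow₀ (n := 4) hL
    linarith
  obtain ⟨lam0, Del0, hF0⟩ := hFL s (hs01.trans a2) z hz
  set L0 := z ^ ((C1 + 1) * s) with hL0d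
  have l1 : z ≤ L0 := le_self_pow₀ hz1 (by have := hs01.trans a2; positivity)
  have l2 : 4 * L0 ≤ Z := by
    refine le_trans ?_ b3
    rw [hL0d, hzd, bx_pw hN0]
    gcongr
  obtain ⟨lam, Del, hF, hsupp⟩ := t_FLT z L0 _ lam0 Del0 (hz1.trans l1)
    (sw2_mono hF0 (pow_le_pow_right₀ hz1 (Nat.mul_le_mul_right _ (Nat.le_succ _))))
  obtain ⟨v0, v1, -⟩ := hHR z z hz le_rfl
  rw [hzd, Real.log_rpow hN0, ← hzd, ← hLd] at v1
  set δ := Vz z / 2 ^ s + 2 / L0 with hδ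
  have d0 : 0 ≤ δ := by positivity
  have d1 : δ ≤ 2 * (CH / (e1 * L)) / 2 ^ s := by
    have g1 : 2 / L0 ≤ CH / (e1 * L) / 2 ^ s := by
      rw [pow_one] at b2
      calc 2 / L0 ≤ 2 / (2 * e1 * 2 ^ s / CH * L) := by
            gcongr
            exact b2.trans l1
        _ = _ := by field_simp
    have g2 : Vz z / 2 ^ s ≤ CH / (e1 * L) / 2 ^ s := by gcongr
    rw [hδ, mul_div_assoc]
    linarith
  have d2 : δ ≤ 2 * (CH / (e1 * L)) :=
    d1.trans (div_le_self (by positivity) (one_le_pow₀ (by norm_num)))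
  have d3 : δ ≤ 1 := by
    refine d2.trans ?_
    rw [div_le_iff₀ he1] at b1
    rw [← mul_div_assoc, div_le_one (by positivity)]
    linarith
  have d4 : 4 * CU * CR * (δ * (Vz z + δ) * L + 1 / Z ^ 10) ≤ ε * e1 ^ j / L := by
    have g1 : δ * (Vz z + δ) * L ≤ 2 * (CH / (e1 * L)) / 2 ^ s * (3 * (CH / (e1 * L))) * L := by
      gcongr
      linarith
    have g2 : 4 * CU * CR * (δ * (Vz z + δ) * L) ≤ ε * e1 ^ j / 2 / L :=
      calc _ ≤ 4 * CU * CR * (2 * (CH / (e1 * L)) / 2 ^ s * (3 * (CH / (e1 * L))) * L) := by gcongr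
        _ = 24 * CU * CR * CH ^ 2 / (e1 ^ 2 * 2 ^ s) / L := by field_simp; ring
        _ ≤ _ := by gcongr
    have g3 : 4 * CU * CR * (1 / Z ^ 10) ≤ ε * e1 ^ j / 2 / L := by
      rw [pow_one] at b4
      calc _ ≤ 4 * CU * CR * (1 / (8 * CU * CR / (ε * e1 ^ j) * L)) := by
            gcongr
            exact b4.trans (le_self_pow₀ hZ1 (by norm_num))
        _ = _ := by field_simp; ring
    rw [mul_add]
    linarith [show ε * e1 ^ j / 2 / L + ε * e1 ^ j / 2 / L = ε * e1 ^ j / L by ring]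
  have hβ : ∑ b ∈ S, |β b| ≤ 2 * B * σ := by
    rw [hσ, mul_sum]
    refine sum_le_sum fun b hb => ?_
    have g1 := (hT.s b hb).1
    have g2 := (hT.s b hb).2.1
    have g3 : (0 : ℝ) < b := by linarith
    rw [← mul_div_assoc, le_div_iff₀ g3, mul_comm]
    exact mul_le_mul_of_nonneg_right g2 (abs_nonneg _)
  have hK0 : (0 : ℝ) ≤ K := Nat.cast_nonneg _
  have key : ∀ y : ℝ, N ^ (1 / 10 : ℝ) ≤ y → y * r * N ^ (1 / 10 : ℝ) ≤ A1 →
      tb K W S β (AR N B) (fun a => als (rq ζ N) z (Real.log y / 2) (Real.log (y * r) / 2)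
        (Real.log A1 / 2) (Real.log A2 / 2) lam a -
          if a ∈ Ioc A1 A2 then tauJ z y (y * r) a else 0) ≤
      ε * e1 ^ j * σ * K * N / L / 2 + K * N / L ^ 4 / 4 := by
    intro y hy hyr
    have hy0 : 0 < y := lt_of_lt_of_le (by positivity) hy
    obtain ⟨r1, r2⟩ := hREP z _ δ B y (y * r) A1 A2 lam Del hF l2 d0 d3 (hT.b13 hN) (hT.bN hN)
      hA1 hA hA2 hy (le_mul_of_one_le_right hy0.le hr) hyr
    refine (hUPW K B (10 * Z ^ 3) S _ β _ (hT.k7 hP hN) (hT.b13 hN)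
      (hT.b2.trans (Real.rpow_le_rpow_of_exponent_le hN (by norm_num)))
      (fun b hb => ⟨(hT.s b hb).1, (hT.s b hb).2.1⟩) Subset.rfl hT.c (by positivity) r1).trans
      (add_le_add ?_ ?_)
    · calc _ ≤ CU * (K / N) * (2 * B * σ) *
            (CR * (N ^ 2 / B) * (δ * (Vz z + δ) * L + 1 / Z ^ 10)) := by gcongr
        _ = 4 * CU * CR * (δ * (Vz z + δ) * L + 1 / Z ^ 10) * (σ * K * N / 2) := by
            field_simp; ring
        _ ≤ ε * e1 ^ j / L * (σ * K * N / 2) := by gcongr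
        _ = _ := by ring
    · rw [Real.rpow_one] at b6
      calc 10 * Z ^ 3 * (K * N ^ (49 / 50 : ℝ))
          = K * (20 * (Z ^ 3 * (2 * L ^ 4)) * N ^ (49 / 50 : ℝ)) / L ^ 4 / 4 := by field_simp; ring
        _ ≤ K * (20 * (Z ^ 3 * Z) * N ^ (49 / 50 : ℝ)) / L ^ 4 / 4 := by gcongr
        _ ≤ _ := by
          rw [← pow_succ]
          gcongr
  have hv : ∀ y : ℝ, 0 < y → y * r * N ^ (1 / 10 : ℝ) ≤ A1 → N ^ (1 / 10 : ℝ) ≤
      Real.exp (2 * (Real.log A1 / 2 - (Real.log y / 2 + Real.log r / 2))) := by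
    intro y hy h
    have : Real.log A1 / 2 - (Real.log y / 2 + Real.log r / 2) = Real.log (A1 / (y * r)) / 2 := by
      rw [Real.log_div hA10.ne' (by positivity), Real.log_mul hy.ne' hr0.ne']; ring
    rw [this, sw2_exp (by positivity), le_div_iff₀ (by positivity)]
    linarith
  have hN2 := sq_nonneg N
  have mid := hSWAP K z B (Real.log x / 2) (Real.log x' / 2) (Real.log r / 2) (Real.log A1 / 2)
    (Real.log A2 / 2) S β lam hT
    ⟨by have := Real.log_nonneg hr; positivity, by gcongr, by rw [sw2_exp hA10]; linarith,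
      by rw [sw2_exp (by linarith)]; linarith, by rwa [sw2_exp hx0], by rwa [sw2_exp hx0'],
      hv x hx0 hxr, hv x' hx0' hxr'⟩ ((sw2_l1 hF).trans l2)
    (fun E hE h => (hsupp E hE h).trans (by gcongr; linarith))
  rw [← add_div, ← add_div, ← Real.log_mul hx0.ne' hr0.ne', ← Real.log_mul hx0'.ne' hr0.ne'] at mid
  have k1 := key x hx hxr
  have k2 := key x' hx' hxr'
  have mid2 : K * N / Z ^ 3 ≤ K * N / L ^ 4 / 2 := by
    rw [div_div, mul_comm (L ^ 4)]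
    gcongr
    exact b5.trans (le_self_pow₀ hZ1 (by norm_num))
  rw [tb_ite β _ (ioc_sub_AR hB hA1 hA2)]
  refine le_trans (le_of_eq (tb_congr (fun _ _ => rfl) fun a _ => ?_))
    ((tb_sub_le _ _ _ _ _ _ _).trans ((add_le_add ((tb_add_le _ _ _ _ _ _ _).trans
      (add_le_add (mid.trans mid2) k2)) k1).trans (le_of_eq ?_)))
  · split_ifs <;> ring
  · field_simp
    ring

end Pool.Agent.P.MP_8be758_nt.Av3
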