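import Pool.Agent.P.MP_8be758_nt.Av3.BasB

/-! The step `S_SW4`. -/

namespace Pool.Agent.P.MP_8be758_nt.Av3

open Finset Real Filter Topology
open Pool.Agent.P.MP_e86632_nt (ee)
open Pool.Agent.P.MP_8be758_nt.Avg Pool.Agent.P.MP_8be758_nt.Av2

theorem sw4_sv (z : ℝ) (lam : Finset ℕ → ℝ) (u : ℕ) :
    |svL z lam u| ≤ ∑ E ∈ (PL z).powerset, |lam E| := by
  refine (abs_sum_le_sum_abs _ _).trans (sum_le_sum fun E _ => ?_)
  split_ifs <;> simp

theorem sw4_bx {f : ℕ → ℝ} {Z Y : ℝ} (hf : ∀ u, |f u| ≤ Z) (hT : TauB Y Z) (x1 x2 w1 w2 : ℝ)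
    {v : ℕ} (hv : (v : ℝ) ≤ Y) : |bx f f x1 x2 w1 w2 v| ≤ Z ^ 3 := by
  have hZ : 0 ≤ Z := (abs_nonneg _).trans (hf 0)
  refine (abs_cv_le (c := Z * Z) fun u w _ _ => mul_le_mul ((abs_cut_le _ _ _ _).trans (hf u))
    ((abs_cut_le _ _ _ _).trans (hf w)) (abs_nonneg _) hZ).trans ?_
  calc _ ≤ Z * (Z * Z) := mul_le_mul_of_nonneg_right (hT v hv) (by positivity)
    _ = _ := by ring

theorem sw4_om {f g c : ℕ → ℝ} {Z Y : ℝ} (hf : ∀ u, |f u| ≤ Z) (hg : ∀ u, |g u| ≤ Z)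
    (hc : ∀ u, |c u| ≤ 1) (hT : TauB Y Z) (x1 x2 w1 w2 : ℝ) {a : ℕ} (ha : (a : ℝ) ≤ Y) :
    |cv c (fun u => bx f f x1 x2 w1 w2 u - bx g g x1 x2 w1 w2 u) a| ≤ 2 * Z ^ 4 := by
  have hZ : 0 ≤ Z := (abs_nonneg _).trans (hf 0)
  refine (abs_cv_le (c := 1 * (Z ^ 3 + Z ^ 3)) fun u v h h0 => ?_).trans ?_
  · have hv : (v : ℝ) ≤ Y := le_trans
      (by exact_mod_cast Nat.le_of_dvd (Nat.pos_of_ne_zero h0) (Dvd.intro_left u h)) ha
    exact mul_le_mul (hc u) ((abs_sub _ _).trans (add_le_add (sw4_bx hf hT _ _ _ _ hv)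
      (sw4_bx hg hT _ _ _ _ hv))) (abs_nonneg _) zero_le_one
  · calc _ ≤ Z * (1 * (Z ^ 3 + Z ^ 3)) := mul_le_mul_of_nonneg_right (hT a ha) (by positivity)
      _ = _ := by ring

theorem t_SW4 (hUPWb : S_UPWb) (hREP4 : S_REP4) (θ ζ : ℝ) (hP : Pm θ ζ) (hS : S_SWAP4 θ ζ) :
    S_SW4 θ := by
  intro j ε hε
  obtain ⟨C1, hFL⟩ := lib_FL
  obtain ⟨CH, hCH, hHR⟩ := lib_HR
  obtain ⟨CU, hCU, hUPW⟩ := hUPWb
  have hz0 := hP.z0
  have hz1' := hP.z1
  set c1 : ℝ := 2 / ζ * (C1 + 1) with hc1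
  have hc10 : 0 < c1 := by positivity
  obtain ⟨s0, hs01, hs0⟩ := sw2_s (192 * CU * CH ^ 2) c1 ε (j + 2) hε
  have hs0' : (1 : ℝ) ≤ s0 := by exact_mod_cast hs01
  refine ⟨1 / (c1 * s0), by positivity, fun e1 he1 he W hW => ?_⟩
  set s := ⌊1 / (c1 * e1)⌋₊ with hs
  have a1 : (s0 : ℝ) ≤ 1 / (c1 * e1) := by
    rw [le_div_iff₀ (by positivity)] at he ⊢
    linarith
  have a2 : s0 ≤ s := Nat.le_floor a1
  have a3 : (s : ℝ) ≤ 1 / (c1 * e1) := Nat.floor_le (by positivity)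
  have a4 : 1 / (c1 * e1) < s + 1 := Nat.lt_floor_add_one _
  have a5 : (1 : ℝ) ≤ s := by exact_mod_cast hs01.trans a2
  rw [le_div_iff₀ (by positivity)] at a3
  rw [div_lt_iff₀ (by positivity)] at a4
  have a6 : 1 / e1 ≤ 2 * c1 * s := by
    rw [div_le_iff₀ he1]
    have := mul_le_mul_of_nonneg_right a5 (by positivity : 0 ≤ c1 * e1)
    linarith
  have a7 : e1 * (((C1 + 1) * s : ℕ) : ℝ) ≤ ζ / 2 := by
    rw [hc1] at a3
    push_cast
    calc _ = s * (2 / ζ * (C1 + 1) * e1) * (ζ / 2) := by field_simp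
      _ ≤ 1 * (ζ / 2) := by gcongr
      _ = _ := one_mul _
  have a8 : 96 * CU * CH ^ 2 / (e1 ^ 2 * 2 ^ s) ≤ ε * e1 ^ j / 2 := by
    have g1 : 192 * CU * CH ^ 2 * (1 / e1) ^ (j + 2) / 2 ^ s ≤ ε :=
      le_trans (by gcongr) (hs0 s a2)
    calc _ = 192 * CU * CH ^ 2 * (1 / e1) ^ (j + 2) / 2 ^ s * e1 ^ j / 2 := by
          rw [one_div, inv_pow]; field_simp; ring
      _ ≤ _ := by gcongr
  filter_upwards [hUPW W hW, hS W hW, eventually_ge_atTop 2, ev_log 1,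
    ev_log (2 * CH / e1), ev_const 2 he1, bx_ev3 (2 * e1 * 2 ^ s / CH) 1 he1,
    bx_ev2 4 (show ζ / 2 < ζ by linarith),
    ev_zq hz0 (80 * CU / (ε * e1 ^ j)) 1, ev_zq hz0 2 3,
    ev_zq_pow ζ 4 5 (a := 49 / 50) (b := 1) (by push_cast; linarith),
    ev_zq_pow ζ 1 3 (a := 0) (b := 1 / 25) (by push_cast; linarith), ev_zq_tau hz0 3]
    with N hUPW hSWAP hN2 hL b1 hz b2 b3 b4 b5 b6 b7 b8 K A1 A2 B y1 y2 x1 x2 w1 w2 ρ S β c hT hP4
      hA1 hA2 hc hcs hq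
  have hN : 1 ≤ N := by linarith
  have hN0 : 0 < N := by linarith
  set L := Real.log N with hLd
  have hL0 : 0 < L := by linarith
  set σ := ∑ b ∈ S, |β b| / b with hσ
  have hσ0 : 0 ≤ σ := sum_nonneg fun _ _ => by positivity
  have hZ0 := zq_pos hN0 ζ
  change _ ≤ Zq ζ N at b3
  set Z := Zq ζ N with hZ
  set z := N ^ e1 with hzd
  set m := ms (N ^ (10 / 11 : ℝ)) z c with hm
  have hm0 : 0 ≤ m := ms_nonneg _ _ _
  have hz1 : 1 ≤ z := by linarith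
  have hB1 : 1 ≤ B := (Real.one_le_rpow hN (by norm_num)).trans hT.b1
  have hB : 0 < B := by linarith
  have hZ1 : 1 ≤ Z := by
    have := one_le_pow₀ (n := 3) hL
    linarith
  obtain ⟨lam0, Del0, hF0⟩ := hFL s (hs01.trans a2) z hz
  set L0 := z ^ ((C1 + 1) * s) with hL0d
  have l1 : z ≤ L0 := le_self_pow₀ hz1 (by have := hs01.trans a2; positivity)
  have l2 : 4 * L0 ≤ Z := by
    refine le_trans ?_ b3
    rw [hL0d, hzd, bx_pw hN0]
    gcongr
  obtain ⟨lam, Del, hF, hsupp⟩ := t_FLT z L0 _ lam0 Del0 (hz1.trans l1)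
    (sw2_mono hF0 (pow_le_pow_right₀ hz1 (Nat.mul_le_mul_right _ (Nat.le_succ _))))
  obtain ⟨v0, v1, -⟩ := hHR z z hz le_rfl
  rw [hzd, Real.log_rpow hN0, ← hzd, ← hLd] at v1
  set δ := Vz z / 2 ^ s + 2 / L0 with hδ
  have d0 : 0 ≤ δ := by positivity
  have d1 : δ ≤ 2 * (CH / (e1 * L)) / 2 ^ s := by
    have g1 : 2 / L0 ≤ CH / (e1 * L) / 2 ^ s := by
      rw [pow_one] at b2
      calc 2 / L0 ≤ 2 / (2 * e1 * 2 ^ s / CH * L) := by
            gcongr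
            exact b2.trans l1
        _ = _ := by field_simp
    have g2 : Vz z / 2 ^ s ≤ CH / (e1 * L) / 2 ^ s := by gcongr
    rw [hδ, mul_div_assoc]
    linarith
  have d2 : δ ≤ 2 * (CH / (e1 * L)) :=
    d1.trans (div_le_self (by positivity) (one_le_pow₀ (by norm_num)))
  have d3 : δ ≤ 1 := by
    refine d2.trans ?_
    rw [div_le_iff₀ he1] at b1
    rw [← mul_div_assoc, div_le_one (by positivity)]
    linarith
  set Y := N ^ (1 / 25 : ℝ) with hY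
  have hY1 : 1 ≤ Y := Real.one_le_rpow hN (by norm_num)
  have hL00 : 0 ≤ L0 := by positivity
  have d4 : ∀ x w : ℝ, Y ≤ x → Y ≤ w →
      8 * CU * (2 * (δ * (Vz z + δ) * L) + 3 * (4 * L0) / x + 2 * (4 * L0) ^ 2 / w) ≤
        ε * e1 ^ j / L := fun x w hx hw => by
    have g1 : δ * (Vz z + δ) * L ≤ 2 * (CH / (e1 * L)) / 2 ^ s * (3 * (CH / (e1 * L))) * L := by
      gcongr
      linarith
    have g2 : 8 * CU * (2 * (δ * (Vz z + δ) * L)) ≤ ε * e1 ^ j / 2 / L :=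
      calc _ ≤ 8 * CU * (2 * (2 * (CH / (e1 * L)) / 2 ^ s * (3 * (CH / (e1 * L))) * L)) := by
            gcongr
        _ = 96 * CU * CH ^ 2 / (e1 ^ 2 * 2 ^ s) / L := by field_simp; ring
        _ ≤ _ := by gcongr
    rw [Real.rpow_zero, one_mul, mul_one] at b7
    have g3 : 3 * (4 * L0) / x + 2 * (4 * L0) ^ 2 / w ≤ 5 / Z :=
      calc _ ≤ 3 * Z ^ 2 / Z ^ 3 + 2 * Z ^ 2 / Z ^ 3 := by
            gcongr
            · exact l2.trans (le_self_pow₀ hZ1 (by norm_num))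
            · exact b7.trans hx
            · exact b7.trans hw
        _ = _ := by field_simp; ring
    have g4 : 8 * CU * (5 / Z) ≤ ε * e1 ^ j / 2 / L := by
      rw [pow_one] at b4
      calc _ ≤ 8 * CU * (5 / (80 * CU / (ε * e1 ^ j) * L)) := by gcongr
        _ = _ := by field_simp; ring
    have g5 := mul_le_mul_of_nonneg_left g3 (by positivity : 0 ≤ 8 * CU)
    rw [add_assoc, mul_add]
    linarith [show ε * e1 ^ j / 2 / L + ε * e1 ^ j / 2 / L = ε * e1 ^ j / L by ring]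
  have hβ : ∑ b ∈ S, |β b| ≤ 2 * B * σ := by
    rw [hσ, mul_sum]
    refine sum_le_sum fun b hb => ?_
    have g1 := (hT.s b hb).1
    have g2 := (hT.s b hb).2.1
    have g3 : (0 : ℝ) < b := by linarith
    rw [← mul_div_assoc, le_div_iff₀ g3, mul_comm]
    exact mul_le_mul_of_nonneg_right g2 (abs_nonneg _)
  have hK0 : (0 : ℝ) ≤ K := Nat.cast_nonneg _
  have hI := ioc_sub_AR hB hA1 hA2
  have hX : 0 ≤ 2 * N ^ 2 / B := by positivity
  have hlam := (sw2_l1 hF).trans l2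
  have key : ∀ x x' w w' : ℝ, Y ≤ x → x ≤ x' → x' ≤ x * N → Y ≤ w →
      tb K W S β (Ioc A1 A2) (cv c fun u => bx (svL z lam) (svL z lam) x x' w w' u -
        bx (rI z) (rI z) x x' w w' u) ≤
      ε * e1 ^ j * m * σ * K * N / L / 2 + K * N / L ^ 3 / 4 := by
    intro x x' w w' h1 h2 h3 h4
    have hx0 : 0 < x := by linarith
    have r2 := hREP4 z _ δ (2 * N ^ 2 / B) x x' w w' L lam Del (Ry (N ^ (10 / 11 : ℝ)) z) c hF d0 d3
      hX (hY1.trans h1) h2 (by linarith)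
      (Real.log_le_log (div_pos (by linarith) hx0) (by rw [div_le_iff₀ hx0]; linarith))
      fun d hd => (mem_Ry (by positivity)).2 ⟨by exact_mod_cast hP4.v1.trans (hcs d hd).1,
        ((hcs d hd).2.trans hP4.v2).trans (Real.rpow_le_rpow_of_exponent_le hN (by norm_num)),
        (hc.2 d hd).1⟩
    have r3 := (sum_le_sum_of_subset_of_nonneg (hI.trans (filter_subset _ _))
      fun _ _ _ => abs_nonneg _).trans r2
    change _ ≤ _ * m * _ at r3
    refine (hUPW K B (2 * Z ^ 4) S _ β _ (hT.k7 hP hN) (hT.b13 hN)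
      (hT.b2.trans (Real.rpow_le_rpow_of_exponent_le hN (by norm_num)))
      (fun b hb => ⟨(hT.s b hb).1, (hT.s b hb).2.1⟩) hI hT.c (by positivity) fun a ha =>
        sw4_om (fun u => (sw4_sv z lam u).trans hlam)
          (fun u => (abs_of_nonneg (rI_bd z u).1).trans_le ((rI_bd z u).2.trans hZ1)) hc.1 b8
          _ _ _ _ (((mem_AR hX).1 (hI ha)).2.2.trans ((div_le_self (by positivity) hB1).trans
            (by nlinarith [sq_nonneg N])))).trans (add_le_add ?_ ?_)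
    · calc _ ≤ CU * (K / N) * (2 * B * σ) * (2 * N ^ 2 / B * m * (2 * (δ * (Vz z + δ) * L) +
            3 * (4 * L0) / x + 2 * (4 * L0) ^ 2 / w)) := by gcongr
        _ = 8 * CU * (2 * (δ * (Vz z + δ) * L) + 3 * (4 * L0) / x + 2 * (4 * L0) ^ 2 / w) *
            (m * σ * K * N / 2) := by field_simp; ring
        _ ≤ ε * e1 ^ j / L * (m * σ * K * N / 2) := by gcongr; exact d4 x w h1 h4
        _ = _ := by ring
    · rw [Real.rpow_one] at b6
      calc 2 * Z ^ 4 * (K * N ^ (49 / 50 : ℝ))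
          = K * (4 * (Z ^ 4 * (2 * L ^ 3)) * N ^ (49 / 50 : ℝ)) / L ^ 3 / 4 := by field_simp
        _ ≤ K * (4 * (Z ^ 4 * Z) * N ^ (49 / 50 : ℝ)) / L ^ 3 / 4 := by gcongr
        _ ≤ _ := by
          rw [← pow_succ]
          gcongr
  have mid := hSWAP K A1 A2 z B y1 y2 x1 x2 w1 w2 ρ S β c lam hT hP4 hA1 hA2 hc.1 hcs hq hlam
    (fun E hE h => (hsupp E hE h).trans (by gcongr; linarith))
  have hρ : 0 < ρ := by linarith [hq.r1]
  have hw : Y ≤ w1 := by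
    have g1 : N * Y ≤ N ^ (21 / 20 : ℝ) := by
      rw [hY, mul_comm, ← Real.rpow_add_one hN0.ne']
      exact Real.rpow_le_rpow_of_exponent_le hN (by norm_num)
    have g2 : 0 < w1 := pos_of_mul_pos_right
      (lt_of_lt_of_le (by positivity) hq.w0) hB.le
    exact le_of_mul_le_mul_left ((g1.trans hq.w0).trans
      (mul_le_mul_of_nonneg_right (hT.bN hN) g2.le)) hN0
  have k1 := key x1 x2 w1 w2 ((le_mul_of_one_le_right (by linarith) hq.r1).trans hq.x0) hq.x12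
    hq.xN hw
  have k2 := key (x1 / ρ) (x2 / ρ) (ρ * w1) (ρ * w2) ((le_div_iff₀ hρ).2 hq.x0)
    (by gcongr; exact hq.x12) (by rw [div_mul_eq_mul_div]; gcongr; exact hq.xN)
    (hw.trans (le_mul_of_one_le_left (by linarith) hq.r1))
  have mid2 : K * N / Z ^ 2 ≤ K * N / L ^ 3 / 2 := by
    rw [div_div, mul_comm (L ^ 3)]
    gcongr
    exact b5.trans (le_self_pow₀ hZ1 (by norm_num))
  refine le_trans (le_of_eq (tb_congr (fun _ _ => rfl) fun a _ => ?_))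
    ((tb_sub_le _ _ _ _ _ _ _).trans ((add_le_add ((tb_add_le _ _ _ _ _ _ _).trans
      (add_le_add (mid.trans mid2) k2)) k1).trans (le_of_eq ?_)))
  · rw [← cv_add, ← cv_sub]
    congr 1
    funext u
    simp only [bd]
    ring
  · field_simp
    ring

end Pool.Agent.P.MP_8be758_nt.Av3
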