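import Pool.Agent.P.MP_8be758_nt.Av3.BasB

/-! The step `S_SWAP4`. -/

namespace Pool.Agent.P.MP_8be758_nt.Av3

open Finset Real Filter Topology
open Pool.Agent.P.MP_e86632_nt (ee)
open Pool.Agent.P.MP_8be758_nt.Avg Pool.Agent.P.MP_8be758_nt.Av2

theorem swap4_svL {z Z : ℝ} {lam : Finset ℕ → ℝ} (h : ∑ E ∈ (PL z).powerset, |lam E| ≤ Z)
    (u : ℕ) : |svL z lam u| ≤ Z := by
  refine le_trans ((abs_sum_le_sum_abs _ _).trans (sum_le_sum fun E _ => ?_)) h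
  split_ifs <;> simp

theorem swap4_bx {f : ℕ → ℝ} {Z X : ℝ} (hf : ∀ u, |f u| ≤ Z) (hτ : TauB X Z) (x1 x2 w1 w2 : ℝ)
    {u : ℕ} (hu : (u : ℝ) ≤ X) : |bx f f x1 x2 w1 w2 u| ≤ Z ^ 3 := by
  have hZ : 0 ≤ Z := (abs_nonneg _).trans (hf 0)
  have h1 := abs_cv_le (f := cut x1 x2 f) (g := cut w1 w2 f) (n := u) (c := Z * Z)
    fun a b _ _ => mul_le_mul ((abs_cut_le _ _ _ _).trans (hf a))
      ((abs_cut_le _ _ _ _).trans (hf b)) (abs_nonneg _) hZ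
  refine h1.trans ?_
  calc (u.divisors.card : ℝ) * (Z * Z) ≤ Z * (Z * Z) :=
        mul_le_mul_of_nonneg_right (hτ u hu) (by positivity)
    _ = Z ^ 3 := by ring

theorem swap4_bd {f : ℕ → ℝ} {Z X : ℝ} (hf : ∀ u, |f u| ≤ Z) (hτ : TauB X Z)
    (x1 x2 w1 w2 ρ : ℝ) {u : ℕ} (hu : (u : ℝ) ≤ X) : |bd f f x1 x2 w1 w2 ρ u| ≤ 2 * Z ^ 3 := by
  have h1 := swap4_bx hf hτ x1 x2 w1 w2 hu
  have h2 := swap4_bx hf hτ (x1 / ρ) (x2 / ρ) (ρ * w1) (ρ * w2) hu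
  exact (abs_sub _ _).trans (by linarith)

/-- the dyadic piece number `i` -/
noncomputable def swap4_dy (c : ℕ → ℝ) (i v : ℕ) : ℝ :=
  if 2 ^ i ≤ v ∧ v < 2 * 2 ^ i then c v else 0

theorem swap4_dy_abs {c : ℕ → ℝ} (hc : ∀ v, |c v| ≤ 1) (i v : ℕ) : |swap4_dy c i v| ≤ 1 := by
  unfold swap4_dy; split_ifs
  · exact hc v
  · simp

theorem swap4_dy_ne {c : ℕ → ℝ} {i v : ℕ} (h : swap4_dy c i v ≠ 0) :
    2 ^ i ≤ v ∧ v < 2 * 2 ^ i ∧ c v ≠ 0 := by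
  unfold swap4_dy at h
  split_ifs at h with h1
  · exact ⟨h1.1, h1.2, h⟩
  · exact absurd rfl h

theorem swap4_dy_sum {c : ℕ → ℝ} {n : ℕ} (hc : ∀ v, c v ≠ 0 → 1 ≤ v ∧ v ≤ n) :
    c = fun v => ∑ i ∈ range (Nat.log 2 n + 1), swap4_dy c i v := by
  funext v
  by_cases h : c v = 0
  · rw [h, eq_comm]
    exact sum_eq_zero fun i _ => by simp [swap4_dy, h]
  obtain ⟨h1, h2⟩ := hc v h
  have h3 : 2 ^ Nat.log 2 v ≤ v := Nat.pow_log_le_self 2 (by omega)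
  have h4 : v < 2 * 2 ^ Nat.log 2 v := by
    have := Nat.lt_pow_succ_log_self (show 1 < 2 by norm_num) v
    rwa [Nat.succ_eq_add_one, pow_succ, mul_comm] at this
  rw [sum_eq_single (Nat.log 2 v)]
  · exact (if_pos ⟨h3, h4⟩).symm
  · intro i _ hi
    refine if_neg fun hh => hi (Nat.log_eq_of_pow_le_of_lt_pow hh.1 ?_).symm
    rw [pow_succ, mul_comm]; exact hh.2
  · intro hi
    exact absurd (mem_range.2 (Nat.lt_succ_of_le (Nat.log_mono_right h2))) hi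

theorem swap4_log {N : ℝ} (hN : 1 ≤ N) (hL : 1 ≤ Real.log N) :
    ((Nat.log 2 ⌊N⌋₊ + 1 : ℕ) : ℝ) ≤ 3 * Real.log N ^ 1 := by
  have h0 : 1 ≤ ⌊N⌋₊ := Nat.le_floor (by simpa using hN)
  have h1 : 2 ^ Nat.log 2 ⌊N⌋₊ ≤ ⌊N⌋₊ := Nat.pow_log_le_self 2 (by omega)
  have h2 : (2 : ℝ) ^ Nat.log 2 ⌊N⌋₊ ≤ N :=
    le_trans (by exact_mod_cast h1) (Nat.floor_le (by linarith))
  have h3 := Real.log_le_log (by positivity) h2
  rw [Real.log_pow] at h3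
  have h4 := Real.log_two_gt_d9
  have h5 : (0 : ℝ) ≤ (Nat.log 2 ⌊N⌋₊ : ℕ) := Nat.cast_nonneg _
  push_cast
  nlinarith

/-- the truncated and normalized factor -/
noncomputable def swap4_tr (p : ℕ → ℝ) (U : ℕ) (Y : ℝ) (u : ℕ) : ℝ :=
  if u ≤ U then p u / Y else 0

theorem swap4_cv {c p : ℕ → ℝ} {i X a : ℕ} {Y : ℝ} (hY : Y ≠ 0) (ha : a ≤ X) :
    cv (swap4_dy c i) p a = Y * cv (swap4_dy c i) (swap4_tr p (X / 2 ^ i) Y) a := by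
  rw [← cv_smul]
  refine cv_congr fun v u h _ => ?_
  by_cases h0 : swap4_dy c i v = 0
  · rw [h0, zero_mul, zero_mul]
  have h1 := (swap4_dy_ne h0).1
  have h2 : u ≤ X / 2 ^ i := by
    rw [Nat.le_div_iff_mul_le (by positivity)]
    calc u * 2 ^ i ≤ u * v := Nat.mul_le_mul_left _ h1
      _ = a := by rw [mul_comm, h]
      _ ≤ X := ha
  rw [swap4_tr, if_pos h2, mul_div_cancel₀ _ hY]

theorem swap4_maj {c p : ℕ → ℝ} {i X : ℕ} {Y X' Q D e : ℝ} (hY : 1 ≤ Y) (hX : X' = X)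
    (h : Maj (cv (swap4_dy c i) p) X' Q D e) :
    Maj (cv (swap4_dy c i) (swap4_tr p (X / 2 ^ i) Y)) X' Q D e := by
  intro x x' q s h1 h2 h3 h4
  have h5 := h x x' q s h1 h2 h3 h4
  have h6 : x' ≤ X := by rw [hX] at h3; exact_mod_cast h3
  rw [sum_congr rfl fun a ha => swap4_cv (Y := Y) (X := X) (by linarith)
    ((mem_Ioc.1 (mem_filter.1 ha).1).2.trans h6), ← mul_sum, abs_mul,
    abs_of_pos (by linarith : (0 : ℝ) < Y)] at h5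
  exact (le_mul_of_one_le_left (abs_nonneg _) hY).trans h5

theorem swap4_tr_abs {p : ℕ → ℝ} {U : ℕ} {Z X : ℝ} (hZ : 1 ≤ Z) (hU : (U : ℝ) ≤ X)
    (hp : ∀ u : ℕ, (u : ℝ) ≤ X → |p u| ≤ 2 * Z ^ 3) (u : ℕ) :
    |swap4_tr p U (2 * Z ^ 4) u| ≤ 1 / Z := by
  have hZ0 : 0 < Z := by linarith
  unfold swap4_tr
  split_ifs with h
  · have h1 := hp u (le_trans (by exact_mod_cast h) hU)
    rw [abs_div, abs_of_pos (by positivity : (0 : ℝ) < 2 * Z ^ 4), div_le_iff₀ (by positivity)]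
    exact h1.trans_eq (by field_simp)
  · rw [abs_zero]; positivity

theorem swap4_tr_ne {p : ℕ → ℝ} {U u : ℕ} {Y : ℝ} (h : swap4_tr p U Y u ≠ 0) : u ≤ U := by
  by_contra h1
  exact h (if_neg h1)

theorem swap4_one {f g : ℕ → ℝ} {U V : ℕ} {Z X : ℝ} (hZ : 1 ≤ Z) (h : FG V U g f)
    (hf : ∀ u, |f u| ≤ 1 / Z) (hτ : TauB X Z) (hX : (V : ℝ) * U ≤ X) (a : ℕ) :
    |cv g f a| ≤ 1 := by
  have hZ0 : 0 < Z := by linarith
  by_cases h0 : cv g f a = 0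
  · rw [h0]; simp
  have h1 : (a : ℝ) ≤ X := le_trans (by exact_mod_cast h.cv_supp h0) hX
  refine (abs_cv_le (c := 1 / Z) fun u v _ _ => ?_).trans ?_
  · exact (mul_le_of_le_one_left (abs_nonneg _) (h.f1 u)).trans (hf v)
  · rw [mul_one_div, div_le_one hZ0]; exact hτ a h1

theorem swap4_FG_symm {f g : ℕ → ℝ} {U V : ℕ} (h : FG U V f g) : FG V U g f :=
  ⟨h.g1, h.f1, h.gV, h.fU, h.v1, h.u1⟩

theorem swap4_n1 {N B A1 A2 : ℝ} (hN : 1 ≤ N) (hB5 : 5 ≤ B) (hBN : B ≤ N) (hA10 : 0 ≤ A1)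
    (hAr : A1 ≤ A2) (hA1 : 24 / 25 * N ^ 2 ≤ A1 * B) (hA2 : A2 * B ≤ 6 / 5 * N ^ 2) :
    A1 * B ≤ 6 / 5 * N ^ 2 ∧ 4 * A1 ≤ N ^ 2 ∧ A2 ≤ 2 * A1 ∧ N ≤ 2 * A1 ∧
      2 * A1 ≤ 3 * N ^ 2 / B := by
  have hB0 : 0 < B := by linarith
  have hN0 : 0 < N := one_pos.trans_le hN
  have h0 := sq_nonneg N
  have h1 : A1 * B ≤ 6 / 5 * N ^ 2 := (mul_le_mul_of_nonneg_right hAr hB0.le).trans hA2
  have h2 : A1 * 5 ≤ A1 * B := mul_le_mul_of_nonneg_left hB5 hA10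
  have h3 : A1 * B ≤ A1 * N := mul_le_mul_of_nonneg_left hBN hA10
  refine ⟨h1, by linarith, le_of_mul_le_mul_right ?_ hB0, le_of_mul_le_mul_right ?_ hN0, ?_⟩
  · linarith
  · linarith [sq N]
  · rw [le_div_iff₀ hB0]; linarith

theorem swap4_n2 {N B A1 U V y1 : ℝ} (hB0 : 0 < B) (hU0 : 0 ≤ U) (hy : y1 ≤ V)
    (hVU : V * U ≤ 4 * A1) (hA : A1 * B ≤ 6 / 5 * N ^ 2) : U * (B * y1) ≤ 5 * N ^ 2 := by
  have h1 : y1 * U ≤ 4 * A1 := (mul_le_mul_of_nonneg_right hy hU0).trans hVU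
  have h2 := mul_le_mul_of_nonneg_right h1 hB0.le
  linarith [sq_nonneg N]

theorem swap4_n3 {N B U y1 a : ℝ} (hBy : 0 < B * y1) (hUB : U * (B * y1) ≤ 5 * N ^ 2)
    (o1 : N ^ 2 ≤ a * (B * y1)) : U ≤ 5 * a :=
  le_of_mul_le_mul_right (hUB.trans (by linarith)) hBy

theorem swap4_n4 {B V y2 a b : ℝ} (hB0 : 0 < B) (ha : 0 ≤ a) (hV0 : 0 ≤ V) (hV : V ≤ 2 * y2)
    (o2 : y2 ^ 2 ≤ a * B) (e2 : 25 * a ≤ b) : V ^ 2 ≤ b * B := by
  have h1 := pow_le_pow_left₀ hV0 hV 2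
  have h2 := mul_le_mul_of_nonneg_right e2 hB0.le
  have h3 : 0 ≤ a * B := by positivity
  rw [mul_pow] at h1
  linarith

theorem swap4_n5 {N B U y1 a b : ℝ} (hB0 : 0 < B) (hy : 0 < y1) (hU0 : 0 ≤ U)
    (hUB : U * (B * y1) ≤ 5 * N ^ 2) (o1 : N ^ 4 ≤ a * (B ^ 3 * y1 ^ 2)) (e2 : 25 * a ≤ b) :
    U ^ 2 ≤ b * B := by
  have hBy : 0 < B * y1 := by positivity
  have h1 := pow_le_pow_left₀ (by positivity) hUB 2
  have h2 := mul_le_mul_of_nonneg_right e2 hB0.le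
  refine le_trans (le_of_mul_le_mul_right ?_ (pow_pos hBy 2)) h2
  calc U ^ 2 * (B * y1) ^ 2 = (U * (B * y1)) ^ 2 := by ring
    _ ≤ (5 * N ^ 2) ^ 2 := h1
    _ = 25 * N ^ 4 := by ring
    _ ≤ 25 * (a * (B ^ 3 * y1 ^ 2)) := by linarith
    _ = _ := by ring

theorem swap4_n6 {Z k X : ℝ} (hZ : 2 ≤ Z) (hk : k ≤ Z) (hX : 0 ≤ X) :
    k * (2 * Z ^ 4 * (X / Z ^ 8)) ≤ X / Z ^ 2 := by
  have hZ0 : 0 < Z := by linarith
  calc k * (2 * Z ^ 4 * (X / Z ^ 8)) ≤ Z * (Z * Z ^ 4 * (X / Z ^ 8)) := by gcongr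
    _ = X / Z ^ 2 := by field_simp

theorem swap4_n7 (A i : ℕ) : ((2 * 2 ^ i : ℕ) : ℝ) * (2 * A / 2 ^ i : ℕ) ≤ 4 * A := by
  have h1 : 2 * A / 2 ^ i * 2 ^ i ≤ 2 * A := Nat.div_mul_le_self _ _
  have h2 : 2 * 2 ^ i * (2 * A / 2 ^ i) ≤ 4 * A := by
    calc 2 * 2 ^ i * (2 * A / 2 ^ i) = 2 * (2 * A / 2 ^ i * 2 ^ i) := by ring
      _ ≤ 2 * (2 * A) := Nat.mul_le_mul_left _ h1
      _ = 4 * A := by ring
  exact_mod_cast h2

theorem swap4_zero (K W : ℕ) (S I : Finset ℕ) (β p : ℕ → ℝ) {g : ℕ → ℝ} (h : ∀ v, g v = 0) :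
    tb K W S β I (cv g p) = 0 := by
  have : cv g p = fun _ => 0 := by
    funext a; simp [cv, h]
  rw [this]
  simp [tb]

theorem t_SWAP4 (θ ζ : ℝ) (hP : Pm θ ζ) (hE : S_E4 θ ζ) (hM : S_MAJ ζ) : S_SWAP4 θ ζ := by
  intro W hW
  filter_upwards [hE W hW, hM, ev_zq_tau hP.z0 2, ev_zq hP.z0 3 1, ev_zq0 hP.z0 2, ev_log 1,
    eventually_ge_atTop 1, ev_const 5 (show (0 : ℝ) < 33 / 50 by norm_num),
    bx_ev2 5 (show (41 / 50 : ℝ) < 83 / 100 by norm_num),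
    bx_ev2 25 (show (29 / 100 : ℝ) < 3 / 10 by norm_num)]
    with N hE hM hτ hlog hZ2 hL hN h5 e1 e2
  intro K A1 A2 z B y1 y2 x1 x2 w1 w2 ρ S β c lam hT h4 hA1 hA2 hc hcs hSq hl1 hl2
  have hpb : ∀ u : ℕ, (u : ℝ) ≤ N ^ 2 →
      |bd (svL z lam) (svL z lam) x1 x2 w1 w2 ρ u| ≤ 2 * Zq ζ N ^ 3 := fun u hu =>
    swap4_bd (swap4_svL hl1) hτ x1 x2 w1 w2 ρ hu
  have hB5 : 5 ≤ B := h5.trans hT.b1
  have hBN : B ≤ N := hT.bN hN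
  have hM' := fun i => hM z B x1 x2 w1 w2 ρ lam _ (le_trans (by norm_num) hB5) hBN hSq
    hl1 hl2 (swap4_dy_abs hc i)
  have hi := (swap4_log hN hL).trans hlog
  clear hM hl1 hl2 hSq hlog hL h5
  generalize bd (svL z lam) (svL z lam) x1 x2 w1 w2 ρ = p at *
  generalize Zq ζ N = Z at *
  have hN0 : 0 < N := one_pos.trans_le hN
  have hZ1 : 1 ≤ Z := one_le_two.trans hZ2
  have hZ0 : 0 < Z := one_pos.trans_le hZ1
  rcases lt_or_ge A2 A1 with hA | hA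
  · rw [Ioc_eq_empty (by omega)]
    simp only [tb, sum_empty, sum_const_zero, abs_zero]
    positivity
  have hB0 : 0 < B := lt_of_lt_of_le (by norm_num) hB5
  obtain ⟨hA1B, h4A, hA21, hNA, hA3⟩ := swap4_n1 hN hB5 hBN (Nat.cast_nonneg A1)
    (Nat.cast_le.2 hA) hA1 hA2
  have hA21' : A2 ≤ 2 * A1 := by exact_mod_cast hA21
  have hy2 : y2 ≤ N := h4.v2.trans (by
    simpa using Real.rpow_le_rpow_of_exponent_le hN (show (41 / 50 : ℝ) ≤ 1 by norm_num))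
  have hy1 : 0 < y1 := one_pos.trans_le h4.v1
  have hY : 1 ≤ 2 * Z ^ 4 := one_le_mul_of_one_le_of_one_le one_le_two (one_le_pow₀ hZ1)
  have hY0 : 0 < 2 * Z ^ 4 := one_pos.trans_le hY
  have key : ∀ i, tb K W S β (Ioc A1 A2) (cv (swap4_dy c i) p) ≤ 2 * Z ^ 4 * (K * N / Z ^ 8) := by
    intro i
    by_cases h0 : ∀ v, swap4_dy c i v = 0
    · rw [swap4_zero _ _ _ _ _ _ h0]
      positivity
    obtain ⟨v, hv⟩ := not_forall.1 h0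
    obtain ⟨v1, v2, v3⟩ := swap4_dy_ne hv
    obtain ⟨v4, v5⟩ := hcs v v3
    have v1' : (2 : ℝ) ^ i ≤ y2 := le_trans (by exact_mod_cast v1) v5
    have v2' : y1 ≤ ((2 * 2 ^ i : ℕ) : ℝ) := v4.trans (Nat.cast_le.2 v2.le)
    have hU1 : 1 ≤ 2 * A1 / 2 ^ i := by
      rw [Nat.le_div_iff_mul_le (by positivity), one_mul]
      have : (2 : ℝ) ^ i ≤ 2 * A1 := v1'.trans (hy2.trans hNA)
      exact_mod_cast this
    have hVU := swap4_n7 A1 i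
    have hV1 : 1 ≤ 2 * 2 ^ i := Nat.succ_le_of_lt (by positivity)
    have hmaj := swap4_maj (X := 2 * A1) hY (by push_cast; rfl)
      ((hM' i).mono hA3 le_rfl le_rfl le_rfl)
    rw [tb_congr (fun _ _ => rfl) fun a ha => swap4_cv (Y := 2 * Z ^ 4) (X := 2 * A1)
      hY0.ne' ((mem_Ioc.1 ha).2.trans hA21'), tb_smul, abs_of_pos hY0]
    refine mul_le_mul_of_nonneg_left ?_ hY0.le
    generalize 2 * A1 / 2 ^ i = U at *
    have hU0 : (0 : ℝ) ≤ U := Nat.cast_nonneg _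
    have hUN : (U : ℝ) ≤ N ^ 2 :=
      (le_mul_of_one_le_left hU0 (Nat.one_le_cast.2 hV1)).trans (hVU.trans h4A)
    have hfa := swap4_tr_abs hZ1 hUN hpb
    have hFG : FG (2 * 2 ^ i) U (swap4_dy c i) (swap4_tr p U (2 * Z ^ 4)) :=
      ⟨swap4_dy_abs hc i, fun u => (hfa u).trans ((div_le_one hZ0).2 hZ1),
        fun u hu => (swap4_dy_ne hu).2.1.le, fun u hu => swap4_tr_ne hu, hV1, hU1⟩
    have hone := swap4_one hZ1 hFG hfa hτ (hVU.trans h4A)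
    have hV : ((2 * 2 ^ i : ℕ) : ℝ) ≤ 2 * y2 := by
      push_cast; exact mul_le_mul_of_nonneg_left v1' zero_le_two
    have hUB := swap4_n2 hB0 hU0 v2' hVU hA1B
    rcases h4.o with ⟨o1, o2⟩ | o1
    · rw [cv_comm] at hone hmaj ⊢
      exact hE K A1 A2 U (2 * 2 ^ i) B S β _ _ hT h4.b1 hA1 hA hA2 (swap4_FG_symm hFG)
        (by rwa [mul_comm]) ((swap4_n3 (mul_pos hB0 hy1) hUB o1).trans e1)
        (swap4_n4 hB0 (by positivity) (Nat.cast_nonneg _) hV o2 e2) hone hmaj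
    · refine hE K A1 A2 (2 * 2 ^ i) U B S β _ _ hT h4.b1 hA1 hA hA2 hFG hVU
        (hV.trans (le_trans ?_ e1)) (swap4_n5 hB0 hy1 hU0 hUB o1 e2) hone hmaj
      exact (mul_le_mul_of_nonneg_left h4.v2 zero_le_two).trans
        (mul_le_mul_of_nonneg_right (by norm_num) (by positivity))
  have hcd := swap4_dy_sum (c := c) (n := ⌊N⌋₊) fun v hv => by
    obtain ⟨v4, v5⟩ := hcs v hv
    exact ⟨by exact_mod_cast h4.v1.trans v4, Nat.le_floor (v5.trans hy2)⟩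
  have e : cv c p = fun a => ∑ i ∈ range (Nat.log 2 ⌊N⌋₊ + 1), cv (swap4_dy c i) p a := by
    funext a
    rw [← cv_sum_left, ← hcd]
  rw [e]
  refine (tb_sum_le _ _ _ _ _ _ _).trans ((sum_le_card_nsmul _ _ _ fun i _ => key i).trans ?_)
  rw [card_range, nsmul_eq_mul]
  exact swap4_n6 hZ2 hi (by positivity)

end Pool.Agent.P.MP_8be758_nt.Av3
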