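import Pool.Agent.P.MP_8be758_nt.Av3.Basic

/-! The step `S_TIb`. -/

namespace Pool.Agent.P.MP_8be758_nt.Av3

open Finset Real Filter Topology
open Pool.Agent.P.MP_e86632_nt (ee)
open Pool.Agent.P.MP_8be758_nt.Avg Pool.Agent.P.MP_8be758_nt.Av2

theorem t_TIb : S_TIb := by
  intro z L δ E1 E2 l Y G K J Dd t κ c lam Del hFL hL1 hl hE1 hE2 ht hD hb hc hκ0 hκp hmul hm1 hY hG
  obtain ⟨hL, hg, hδ⟩ := hFL
  set P := (PL z).powerset with hP
  set e : Finset ℕ → ℕ := fun E => ∏ p ∈ E, p with he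
  have he1 : ∀ E ∈ P, 1 ≤ e E := fun E hE => ti_prod_pos (mem_powerset.1 hE)
  have he1' : ∀ E ∈ P, (1 : ℝ) ≤ e E := fun E hE => by exact_mod_cast he1 E hE
  have hL' : ∑ E ∈ P, (|lam E| + |Del E|) * (e E : ℝ) ≤ L := by simpa [he] using hL
  set S : ℕ → ℕ → ℝ := fun k q => ∑ m ∈ J.filter (q ∣ ·), t k m with hS
  set T : ℕ → ℕ → ℝ := fun k d => ∑ m ∈ J.filter (d ∣ ·), (if Rough z m then 1 else 0) * t k m
    with hT
  set M : ℕ → ℕ → ℝ := fun k d => l * (κ k d / d) * ∏ p ∈ PL z, (1 - κ k p / p) with hM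
  have key : ∀ d ∈ Dd, ∀ k, |T k d - M k d| ≤
      ∑ E ∈ P, (|lam E| + |Del E|) * |S k (d * e E) - l * κ k (d * e E) / (d * e E : ℕ)| +
        l * ∑ E ∈ P, Del E * (κ k (d * e E) / (d * e E : ℕ)) := by
    intro d hd k
    obtain ⟨hd1, hdr, -⟩ := hD d hd
    have g1 := fun m : ℕ => hg (fun p => if p ∣ m then (1 : ℝ) else 0)
      fun p _ => by split_ifs <;> norm_num
    simp only [ti_ind] at g1
    have a1 : T k d ≤ ∑ E ∈ P, lam E * S k (d * e E) := by
      rw [← ti_swap J (t k) lam hdr]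
      exact sum_le_sum fun m _ => mul_le_mul_of_nonneg_right (g1 m).1 (ht k m)
    have a2 : ∑ E ∈ P, lam E * S k (d * e E) ≤ T k d + ∑ E ∈ P, Del E * S k (d * e E) := by
      rw [← ti_swap J (t k) lam hdr, ← ti_swap J (t k) Del hdr, ← sum_add_distrib]
      refine sum_le_sum fun m _ => ?_
      rw [← add_mul]
      exact mul_le_mul_of_nonneg_right (g1 m).2 (ht k m)
    have g2 := hg (fun p => κ k p / p) fun p hp => ⟨div_nonneg (hκ0 k p) (Nat.cast_nonneg p),
      div_le_one_of_le₀ (hκp k p (prime_of_mem_PL hp)) (Nat.cast_nonneg p)⟩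
    have hw : 0 ≤ l * (κ k d / d) := mul_nonneg hl (div_nonneg (hκ0 k d) (Nat.cast_nonneg d))
    have e1 : ∀ w : Finset ℕ → ℝ, l * (κ k d / d) * ∑ E ∈ P, w E * ∏ p ∈ E, κ k p / p =
        ∑ E ∈ P, w E * (l * κ k (d * e E) / (d * e E : ℕ)) := by
      intro w
      rw [mul_sum]
      refine sum_congr rfl fun E hE => ?_
      rw [hmul k d hd E (mem_powerset.1 hE), prod_div_distrib]
      simp only [he]
      push_cast
      ring
    have b1 := mul_le_mul_of_nonneg_left g2.1 hw
    have b2 := mul_le_mul_of_nonneg_left g2.2 hw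
    rw [mul_add, e1, e1] at b2
    rw [e1] at b1
    have c1 : ∀ w : Finset ℕ → ℝ, |∑ E ∈ P, w E * S k (d * e E) -
        ∑ E ∈ P, w E * (l * κ k (d * e E) / (d * e E : ℕ))| ≤
        ∑ E ∈ P, |w E| * |S k (d * e E) - l * κ k (d * e E) / (d * e E : ℕ)| := by
      intro w
      rw [← sum_sub_distrib]
      refine (abs_sum_le_sum_abs _ _).trans (le_of_eq (sum_congr rfl fun E _ => ?_))
      rw [← mul_sub, abs_mul]
    have c2 := abs_le.1 (c1 lam)
    have c3 := abs_le.1 (c1 Del)
    have e2 : l * ∑ E ∈ P, Del E * (κ k (d * e E) / (d * e E : ℕ)) =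
        ∑ E ∈ P, Del E * (l * κ k (d * e E) / (d * e E : ℕ)) := by
      rw [mul_sum]; exact sum_congr rfl fun E _ => by ring
    have c4 : 0 ≤ ∑ E ∈ P, |Del E| * |S k (d * e E) - l * κ k (d * e E) / (d * e E : ℕ)| :=
      sum_nonneg fun _ _ => by positivity
    simp only [add_mul, sum_add_distrib]
    rw [e2, abs_le]
    simp only [hM]
    constructor <;> linarith
  set Q : ℕ → ℝ := fun k => ∑ E ∈ P, Del E * ∏ p ∈ E, κ k p / p with hQ
  have hg0 : ∀ k, ∀ p ∈ PL z, 0 ≤ κ k p / p ∧ κ k p / p ≤ 1 := fun k p hp =>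
    ⟨div_nonneg (hκ0 k p) (Nat.cast_nonneg p),
      div_le_one_of_le₀ (hκp k p (prime_of_mem_PL hp)) (Nat.cast_nonneg p)⟩
  have hQ0 : ∀ k, 0 ≤ Q k := fun k => by
    have := hg _ (hg0 k)
    simp only [hQ]
    linarith [this.1, this.2]
  have key2 : ∀ d ∈ Dd, ∀ k ∈ Icc 1 K, |T k d - M k d| ≤
      L * (E1 * κ k d + E2) + l * (κ k d / d) * min (Q k) 1 := by
    intro d hd k hk
    obtain ⟨hd1, hdr, -⟩ := hD d hd
    have hκ := hκ0 k d
    have hw : 0 ≤ l * (κ k d / d) := by positivity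
    have h0 : 0 ≤ E1 * κ k d + E2 := by positivity
    rcases le_total (Q k) 1 with h | h
    · rw [min_eq_left h]
      refine (key d hd k).trans (add_le_add ?_ (le_of_eq ?_))
      · refine le_trans (sum_le_sum fun E hE => ?_) ((mul_le_mul_of_nonneg_right hL' h0).trans'
          (le_of_eq (sum_mul _ _ _).symm))
        have h1 := hb k hk (d * e E) (Nat.mul_pos hd1 (he1 E hE))
        have h2 : ∏ p ∈ E, κ k p ≤ e E := by
          simp only [he]
          push_cast
          exact prod_le_prod (fun p _ => hκ0 k p) fun p hp =>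
            hκp k p (prime_of_mem_PL (mem_powerset.1 hE hp))
        have h3 : κ k (d * e E) ≤ κ k d * e E := by
          rw [hmul k d hd E (mem_powerset.1 hE)]
          exact mul_le_mul_of_nonneg_left h2 hκ
        have h4 := mul_le_mul_of_nonneg_left h3 hE1
        have h5 := mul_le_mul_of_nonneg_left (he1' E hE) hE2
        rw [mul_assoc]
        exact mul_le_mul_of_nonneg_left (by linarith) (by positivity)
      · simp only [hQ, mul_sum]
        refine sum_congr rfl fun E hE => ?_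
        rw [hmul k d hd E (mem_powerset.1 hE), prod_div_distrib]
        simp only [he]
        push_cast
        ring
    · rw [min_eq_right h, mul_one]
      have t0 : 0 ≤ T k d := sum_nonneg fun m _ => mul_nonneg (by split_ifs <;> norm_num) (ht k m)
      have t1 : T k d ≤ S k d := sum_le_sum fun m _ =>
        mul_le_of_le_one_left (ht k m) (by split_ifs <;> norm_num)
      have t2 := (abs_le.1 (hb k hk d hd1)).2
      have m0 : 0 ≤ M k d := mul_nonneg hw (prod_nonneg fun p hp => sub_nonneg.2 (hg0 k p hp).2)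
      have m1 : M k d ≤ l * (κ k d / d) := mul_le_of_le_one_right hw (prod_le_one
        (fun p hp => sub_nonneg.2 (hg0 k p hp).2) fun p hp => sub_le_self _ (hg0 k p hp).1)
      have := le_mul_of_one_le_left h0 hL1
      rw [mul_div_assoc] at t2
      rw [abs_le]
      constructor <;> simp only [hS] at t1 <;> linarith
  have a2 : ∑ k ∈ Icc 1 K, Q k ≤ K * δ + L := by
    simp only [hQ]
    rw [sum_comm]
    have h1 : ∀ E ∈ P, ∑ k ∈ Icc 1 K, Del E * ∏ p ∈ E, κ k p / p ≤
        (|lam E| + |Del E|) * e E + K * (Del E * ∏ p ∈ E, 1 / (p : ℝ)) := by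
      intro E hE
      have h2 := hc (e E) (he1 E hE)
      have h3 := he1' E hE
      have h4 : (0 : ℝ) < e E := by positivity
      have h5 : ∏ p ∈ E, 1 / (p : ℝ) = 1 / e E := by simp [he]
      have h6 : |Del E * ((∑ k ∈ Icc 1 K, κ k (e E) - K) / e E)| ≤ |Del E| := by
        rw [abs_mul, abs_div, abs_of_pos h4]
        exact mul_le_of_le_one_right (abs_nonneg _) ((div_le_one h4).2 h2)
      have h0 : ∀ k, ∏ p ∈ E, κ k p / p = κ k (e E) / e E := fun k => by
        rw [prod_div_distrib, ← hm1 k E (mem_powerset.1 hE)]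
        simp only [he]
        push_cast
        rfl
      have h7 : ∑ k ∈ Icc 1 K, Del E * (κ k (e E) / e E) =
          Del E * ((∑ k ∈ Icc 1 K, κ k (e E) - K) / e E) + K * (Del E * (1 / e E)) := by
        rw [← mul_sum, ← sum_div]
        field_simp
        ring
      simp only [h0]
      rw [h5, h7]
      have h8 := abs_nonneg (lam E)
      have h9 := abs_nonneg (Del E)
      have := le_abs_self (Del E * ((∑ k ∈ Icc 1 K, κ k (e E) - K) / e E))
      nlinarith
    refine (sum_le_sum h1).trans ?_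
    rw [sum_add_distrib, ← mul_sum]
    have := mul_le_mul_of_nonneg_left hδ (Nat.cast_nonneg K : (0 : ℝ) ≤ K)
    linarith
  have e3 : ∀ k, ∑ m ∈ J.filter (Rough z), (∑ d ∈ Dd.filter (· ∣ m), c d) * t k m -
      l * (∑ d ∈ Dd, c d * κ k d / d) * ∏ p ∈ PL z, (1 - κ k p / p) =
      ∑ d ∈ Dd, c d * (T k d - M k d) := by
    intro k
    simp only [mul_sub, sum_sub_distrib, hT, hM]
    congr 1
    · simp only [sum_filter, sum_mul, mul_sum]
      rw [sum_comm]
      refine sum_congr rfl fun m _ => ?_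
      by_cases h : Rough z m
      · simp [h]
      · simp [h]
    · rw [mul_sum, sum_mul]
      exact sum_congr rfl fun d _ => by ring
  set μ : ℝ := ∑ d ∈ Dd, |c d| / d with hμ
  have hμ0 : 0 ≤ μ := sum_nonneg fun d _ => by positivity
  have hL0 : 0 ≤ L := by linarith
  have fin : ∀ k ∈ Icc 1 K, |∑ d ∈ Dd, c d * (T k d - M k d)| ≤
      L * (E1 * Y + E2 * Dd.card) + l * (Q k * μ + |∑ d ∈ Dd, |c d| / d * (κ k d - 1)|) := by
    intro k hk
    have m0 : 0 ≤ min (Q k) 1 := le_min (hQ0 k) zero_le_one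
    have h1 : |∑ d ∈ Dd, c d * (T k d - M k d)| ≤ ∑ d ∈ Dd, (L * (E1 * κ k d + E2) +
        l * min (Q k) 1 * (|c d| / d + |c d| / d * (κ k d - 1))) := by
      refine (abs_sum_le_sum_abs _ _).trans (sum_le_sum fun d hd => ?_)
      rw [abs_mul]
      refine (mul_le_mul_of_nonneg_left (key2 d hd k hk) (abs_nonneg _)).trans ?_
      have hκ := hκ0 k d
      have := mul_le_of_le_one_left (by positivity : 0 ≤ L * (E1 * κ k d + E2)) (hD d hd).2.2
      have e : |c d| * (l * (κ k d / d) * min (Q k) 1) =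
          l * min (Q k) 1 * (|c d| / d + |c d| / d * (κ k d - 1)) := by ring
      rw [mul_add, e]
      linarith
    refine h1.trans ?_
    rw [sum_add_distrib, ← mul_sum, ← mul_sum, sum_add_distrib, sum_add_distrib, ← mul_sum,
      sum_const, nsmul_eq_mul, mul_comm (Dd.card : ℝ), mul_assoc l]
    have h2 := hY k hk
    have h3 : min (Q k) 1 * μ ≤ Q k * μ := mul_le_mul_of_nonneg_right (min_le_left _ _) hμ0
    have h4 : min (Q k) 1 * ∑ d ∈ Dd, |c d| / d * (κ k d - 1) ≤
        |∑ d ∈ Dd, |c d| / d * (κ k d - 1)| :=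
      (mul_le_mul_of_nonneg_left (le_abs_self _) m0).trans
        (mul_le_of_le_one_left (abs_nonneg _) (min_le_right _ _))
    rw [mul_add (min (Q k) 1)]
    gcongr
  simp only [e3]
  refine (sum_le_sum fin).trans ?_
  rw [sum_add_distrib, sum_const, Nat.card_Icc, Nat.add_sub_cancel, nsmul_eq_mul, ← mul_sum,
    sum_add_distrib, ← sum_mul]
  have h1 := mul_le_mul_of_nonneg_right a2 hμ0
  have h2 := mul_le_mul_of_nonneg_left (add_le_add h1 hG) hl
  linarith

end Pool.Agent.P.MP_8be758_nt.Av3
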