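import Pool.Agent.P.MP_8be758_nt.Av3.Basic

/-! The step `S_UPDb`. -/

namespace Pool.Agent.P.MP_8be758_nt.Av3

open Finset Real Filter Topology
open Pool.Agent.P.MP_e86632_nt (ee)
open Pool.Agent.P.MP_8be758_nt.Avg Pool.Agent.P.MP_8be758_nt.Av2

theorem t_UPDb (hUPG : S_UPG) : S_UPDb := by
  obtain ⟨C0, hC0, H⟩ := hUPG
  obtain ⟨C, hCd⟩ : ∃ C, C = Real.exp π * C0 := ⟨_, rfl⟩
  have hC : 0 < C := by rw [hCd]; positivity
  refine ⟨2 * C + 2, by positivity, fun W hW => ?_⟩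
  filter_upwards [ev_const (W : ℝ) (show (0 : ℝ) < 7 / 10 by norm_num),
    ev_const 2 (show (0 : ℝ) < 13 / 20 by norm_num),
    ev_pow (3 * C) 0 (show (67 / 40 : ℝ) < 42 / 25 by norm_num),
    eventually_ge_atTop 1] with N e1 e2 e3 e5 K B S1 S2 hK hB1 hB2 h1 h2
  have hN : 0 < N := by linarith
  have hWK : (W : ℝ) ≤ K := e1.trans hK
  have hW1 : (1 : ℝ) ≤ W := by exact_mod_cast hW
  have hK0 : (0 : ℝ) < K := by linarith
  have hK1 : 1 ≤ K := by exact_mod_cast (hW1.trans hWK)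
  have hB0 : 0 < B := by linarith
  have p1 : N ^ (13 / 20 : ℝ) * N ^ (27 / 20 : ℝ) = N ^ 2 := by
    rw [← Real.rpow_add hN, ← Real.rpow_natCast]; norm_num
  have p2 : N * N ^ (27 / 40 : ℝ) = N ^ (67 / 40 : ℝ) := by
    rw [show (67 / 40 : ℝ) = 1 + 27 / 40 by norm_num, Real.rpow_add hN, Real.rpow_one]
  have p3 : (N ^ (27 / 40 : ℝ)) ^ 2 = N ^ (27 / 20 : ℝ) := by
    rw [← Real.rpow_natCast, ← Real.rpow_mul hN.le]; norm_num
  have p4 : N ^ (7 / 10 : ℝ) * N ^ (49 / 50 : ℝ) = N ^ (42 / 25 : ℝ) := by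
    rw [← Real.rpow_add hN]; norm_num
  have p5 : N ^ (13 / 20 : ℝ) ≤ N ^ (7 / 10 : ℝ) :=
    Real.rpow_le_rpow_of_exponent_le e5 (by norm_num)
  have q1 : 0 < N ^ (27 / 20 : ℝ) := by positivity
  have q2 : 0 < N ^ (13 / 20 : ℝ) := by positivity
  have q3 : 0 < N ^ (27 / 40 : ℝ) := by positivity
  have q4 : 0 < N ^ (49 / 50 : ℝ) := by positivity
  set A := N ^ 2 / (2 * B) with hA
  have hAB : A * B = N ^ 2 / 2 := by rw [hA]; field_simp
  have hA1 : 1 ≤ A := by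
    rw [hA, le_div_iff₀ (by positivity)]; nlinarith
  have hA2 : A ≤ N ^ (27 / 20 : ℝ) := by
    rw [hA, div_le_iff₀ (by positivity)]; nlinarith
  have r0 : 0 < √(A * B) := Real.sqrt_pos.2 (by positivity)
  have r1 : √(A * B) ≤ N := Real.sqrt_le_iff.2 ⟨hN.le, by rw [hAB]; nlinarith⟩
  have r2 : N / 2 ≤ √(A * B) := Real.le_sqrt_of_sq_le (by rw [hAB]; nlinarith)
  have key0 := H A B (K / √(A * B)) S1 S2 hA1 (by linarith) (by positivity)
    (fun b hb => ⟨(h1 b hb).1, by linarith [(h1 b hb).2]⟩)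
    (fun a ha => ⟨(h2 a ha).1, (h2 a ha).2.trans (le_of_eq (by rw [hA]; field_simp; norm_num))⟩)
  have s1 : ∑ k ∈ Icc 1 K, ∑ b ∈ S1, ∑ a ∈ S2, rr k (a * b) ≤ Real.exp π * ∑ b ∈ S1, ∑ a ∈ S2,
      ∑' n : ℤ, gs (1 / (K / √(A * B)) * (n - (√((a * b : ℕ) : ℝ) - 1 / 2))) := by
    rw [sum_comm, mul_sum]
    refine sum_le_sum fun b hb => ?_
    rw [sum_comm, mul_sum]
    refine sum_le_sum fun a ha => up_point lib_GS1 r0 hK1 (Real.sqrt_le_sqrt ?_)
    push_cast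
    exact mul_le_mul (h2 a ha).1 (h1 b hb).1 hB0.le (Nat.cast_nonneg _)
  have key := s1.trans (mul_le_mul_of_nonneg_left key0 (Real.exp_pos _).le)
  rw [← mul_assoc, ← hCd] at key
  have m1 : ∑ k ∈ Icc 1 K, ∑ b ∈ S1, ∑ a ∈ S2, md W k (a * b) ≤
      2 * (K / N) * S1.card * S2.card := by
    calc _ = ∑ b ∈ S1, ∑ a ∈ S2, ∑ k ∈ Icc 1 K, md W k (a * b) := by
          rw [sum_comm]; exact sum_congr rfl fun b _ => sum_comm
      _ ≤ ∑ _b ∈ S1, ∑ _a ∈ S2, 2 * (K / N) := by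
          refine sum_le_sum fun b hb => sum_le_sum fun a ha => ?_
          have r3 : N / 2 ≤ √((a * b : ℕ) : ℝ) := by
            refine r2.trans (Real.sqrt_le_sqrt ?_)
            push_cast
            exact mul_le_mul (h2 a ha).1 (h1 b hb).1 hB0.le (Nat.cast_nonneg _)
          simp only [md]
          rw [← sum_div]
          calc _ ≤ (K + W) / (2 * √((a * b : ℕ) : ℝ)) :=
              div_le_div_of_nonneg_right (lib_ROOT.2.2.2.2.2 W (a * b) K hW) (by positivity)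
            _ ≤ (K + K) / (2 * (N / 2)) := by gcongr
            _ = _ := by field_simp; ring
      _ = _ := by simp only [sum_const, nsmul_eq_mul]; ring
  have m2 : (K : ℝ) / √(A * B) ≤ 2 * (K / N) := by
    calc _ ≤ K / (N / 2) := by gcongr
      _ = _ := by field_simp
  have m3 : √(A + B) ≤ 2 * N ^ (27 / 40 : ℝ) :=
    Real.sqrt_le_iff.2 ⟨by positivity, by rw [mul_pow, p3]; linarith⟩
  have m4 : √(√(A * B) / (K / √(A * B))) ≤ N ^ (27 / 40 : ℝ) := by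
    refine Real.sqrt_le_iff.2 ⟨by positivity, ?_⟩
    rw [p3, div_div_eq_mul_div, Real.mul_self_sqrt (by positivity), hAB, div_le_iff₀ hK0, ← p1]
    nlinarith
  have m5 : C * (√(A * B) * (√(A + B) + √(√(A * B) / (K / √(A * B))))) ≤
      K * N ^ (49 / 50 : ℝ) := by
    calc _ ≤ C * (N * (2 * N ^ (27 / 40 : ℝ) + N ^ (27 / 40 : ℝ))) := by gcongr
      _ = 3 * C * N ^ (67 / 40 : ℝ) * Real.log N ^ 0 := by rw [← p2]; ring
      _ ≤ N ^ (7 / 10 : ℝ) * N ^ (49 / 50 : ℝ) := e3.trans p4.ge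
      _ ≤ _ := by gcongr
  have m6 : C * (K / √(A * B) * S1.card * S2.card) ≤ C * (2 * (K / N) * S1.card * S2.card) := by
    gcongr
  calc _ ≤ ∑ k ∈ Icc 1 K, ∑ b ∈ S1, ∑ a ∈ S2, (rr k (a * b) + md W k (a * b)) :=
        sum_le_sum fun k _ => sum_le_sum fun b _ => sum_le_sum fun a _ => abs_dd_le _ _ _
    _ = ∑ k ∈ Icc 1 K, ∑ b ∈ S1, ∑ a ∈ S2, rr k (a * b) +
        ∑ k ∈ Icc 1 K, ∑ b ∈ S1, ∑ a ∈ S2, md W k (a * b) := by simp only [sum_add_distrib]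
    _ ≤ (C * (2 * (K / N) * S1.card * S2.card) + K * N ^ (49 / 50 : ℝ)) +
        2 * (K / N) * S1.card * S2.card := by
        refine add_le_add (key.trans ?_) m1
        rw [mul_add]
        exact add_le_add m6 m5
    _ = _ := by ring

end Pool.Agent.P.MP_8be758_nt.Av3
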