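import Pool.Agent.P.MP_8be758_nt.Av3.Basic

/-! The step `S_UPWb`. -/

namespace Pool.Agent.P.MP_8be758_nt.Av3

open Finset Real Filter Topology
open Pool.Agent.P.MP_e86632_nt (ee)
open Pool.Agent.P.MP_8be758_nt.Avg Pool.Agent.P.MP_8be758_nt.Av2

theorem t_UPWb (hUPDb : S_UPDb) : S_UPWb := by
  obtain ⟨C, hC, h⟩ := hUPDb
  refine ⟨C, hC, fun W hW => ?_⟩
  filter_upwards [h W hW, eventually_gt_atTop 0] with N h hN K B Ω S I β α h1 h2 h3 h4 h5 h6 h7 h8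
  have hB : 0 < B := (rpow_pos_of_pos hN _).trans_le h2
  set D : ℕ → ℕ → ℝ := fun b a => ∑ k ∈ Icc 1 K, |dd W k (a * b)| - C * (K / N) with hD
  obtain ⟨S1, s1, e1⟩ := upw_sub S (fun b => |β b|) (fun b => ∑ a ∈ I, |α a| * D b a) 1
    fun b _ => ⟨abs_nonneg _, h6 b⟩
  obtain ⟨S2, s2, e2⟩ := upw_sub I (fun a => |α a|) (fun a => ∑ b ∈ S1, D b a) Ω
    fun a ha => ⟨abs_nonneg _, h8 a ha⟩
  have e3 : ∑ a ∈ S2, ∑ b ∈ S1, D b a ≤ K * N ^ (49 / 50 : ℝ) := by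
    have := h K B S1 S2 h1 h2 h3 (fun b hb => h4 b (s1 hb))
      fun a ha => ((mem_AR (by positivity)).mp (h5 (s2 ha))).2
    rw [sum_comm, sum_congr rfl fun _ _ => sum_comm] at this
    rw [sum_comm]
    simp only [hD, sum_sub_distrib, sum_const, nsmul_eq_mul]
    linarith
  have e4 : ∑ k ∈ Icc 1 K, ∑ b ∈ S, ∑ a ∈ I, |β b| * |α a| * |dd W k (a * b)| =
      C * (K / N) * (∑ b ∈ S, |β b|) * (∑ a ∈ I, |α a|) +
        ∑ b ∈ S, |β b| * ∑ a ∈ I, |α a| * D b a := by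
    rw [mul_assoc (C * (K / N)), sum_mul_sum, mul_sum, ← sum_add_distrib, sum_comm]
    refine sum_congr rfl fun b _ => ?_
    rw [sum_comm, mul_sum, mul_sum, ← sum_add_distrib]
    refine sum_congr rfl fun a _ => ?_
    rw [← mul_sum, hD]
    ring
  rw [one_mul, sum_comm] at e1
  simp only [← mul_sum] at e1
  linarith [tb_le_abs K W S β I α, mul_le_mul_of_nonneg_left e3 h7]

end Pool.Agent.P.MP_8be758_nt.Av3
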