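import Pool.Agent.P.MP_8be758_nt.Av3.BasB

/-! The step `S_VD`. -/

namespace Pool.Agent.P.MP_8be758_nt.Av3

open Finset Real Filter Topology
open Pool.Agent.P.MP_e86632_nt (ee ee_add)
open Pool.Agent.P.MP_8be758_nt.Avg Pool.Agent.P.MP_8be758_nt.Av2
open MeasureTheory
open scoped FourierTransform

theorem vd_inv {h F : ℝ → ℂ} (hc : Continuous h) (hi : Integrable h) (hF : Integrable F)
    (e : ∀ t, F t = ∫ l : ℝ, h l * ee (-(t * l))) (l : ℝ) : h l = ∫ t : ℝ, F t * ee (t * l) := by
  have e1 : 𝓕 h = F := funext fun t => by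
    rw [fourier_real_eq_integral_exp_smul, e]
    refine integral_congr_ae (Eventually.of_forall fun v => ?_)
    simp only [smul_eq_mul, ee]
    rw [mul_comm]; congr 2; push_cast; ring
  have := congrFun (hc.fourierInv_fourier_eq hi (e1 ▸ hF)) l
  rw [← this, e1, fourierInv_eq_fourier_neg, fourier_real_eq_integral_exp_smul]
  refine integral_congr_ae (Eventually.of_forall fun v => ?_)
  simp only [smul_eq_mul, ee]
  rw [mul_comm]; congr 2; push_cast; ring

/-- the weight near the centre -/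
theorem vd_near {R x : ℝ} (hR : 0 < R) (h : |x| ≤ 8 * R) : 1 ≤ 65 * WT R x := by
  have h1 : |x / R| ≤ |8| := by
    rw [abs_div, abs_of_pos hR, div_le_iff₀ hR, abs_of_pos (by norm_num : (0 : ℝ) < 8)]
    exact h
  have h2 := sq_le_sq.2 h1
  unfold WT
  rw [mul_one_div, le_div_iff₀ (by positivity)]
  linarith

/-- the weight far from the centre -/
theorem vd_far {T η x : ℝ} (hT : 0 < T) (hη : 0 < η) (h1 : 1 ≤ T * η ^ 2)
    (h : 8 * (T * η) ≤ |x|) : 1 / (η * x ^ 2) ≤ 2 / √T * WT (T * η) x := by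
  have hR : 0 < T * η := by positivity
  have hx : 0 < |x| := by linarith
  have hx2 : 0 < x ^ 2 := by rw [← sq_abs]; positivity
  have hs : 0 < √T := Real.sqrt_pos.2 hT
  have a1 : (T * η) ^ 2 ≤ x ^ 2 := by
    rw [← sq_abs x]; exact pow_le_pow_left₀ hR.le (by linarith) 2
  have a2 : 1 ≤ √T * η := by
    refine (one_le_sq_iff₀ (by positivity)).1 ?_
    rwa [mul_pow, Real.sq_sqrt hT.le]
  have a3 : √T ≤ η * (T * η) ^ 2 := by
    have e : η * (T * η) ^ 2 = √T * (√T * η) ^ 3 := by
      have := Real.mul_self_sqrt hT.le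
      calc η * (T * η) ^ 2 = η * (√T * √T * η) ^ 2 := by rw [this]
        _ = _ := by ring
    rw [e]
    exact le_mul_of_one_le_right hs.le (one_le_pow₀ a2)
  have e : WT (T * η) x = (T * η) ^ 2 / ((T * η) ^ 2 + x ^ 2) := by
    unfold WT; field_simp
  rw [e, div_mul_div_comm, div_le_div_iff₀ (by positivity) (by positivity), one_mul]
  calc √T * ((T * η) ^ 2 + x ^ 2) ≤ (η * (T * η) ^ 2) * (2 * x ^ 2) :=
        mul_le_mul a3 (by linarith) (by positivity) (by positivity)
    _ = _ := by ring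

theorem t_VD (hBMP : S_BMP) (hVD1 : S_VD1) (hVD2 : S_VD2) : S_VD := by
  obtain ⟨χ, χ1, χ2, C, hb⟩ := hBMP
  obtain ⟨C1, p1, h1⟩ := hVD1 χ χ1 χ2 C hb
  obtain ⟨C2, p2, h2⟩ := hVD2 χ χ1 χ2 C hb
  refine ⟨65 * C1 + 2 * C2, by positivity, fun T η hη hη' hT => ?_⟩
  have T0 : 0 < T := pos_of_mul_pos_left (by linarith : 0 < T * η ^ 2) (sq_nonneg η)
  have hs : 0 < √T := Real.sqrt_pos.2 T0
  have cχ : Continuous χ := continuous_iff_continuousAt.2 fun x => (hb.d1 x).continuousAt
  have cF : Continuous (vF χ T η) :=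
    intervalIntegral.continuous_parametric_intervalIntegral_of_continuous'
      (f := fun t l : ℝ => (χ (l / η) : ℂ) * ee (T * Real.exp l - t * l)) (by fun_prop) _ _
  have bd : ∀ t, ‖vF χ T η t‖ ≤ (65 * C1 + 2 * C2) / √T * WT (T * η) (t - T) := fun t => by
    have w := WT_pos (T * η) (t - T)
    rcases le_total |t - T| (8 * (T * η)) with h | h
    · calc _ ≤ C1 / √T * 1 := by simpa using h1 T η t T0 hη hη'
        _ ≤ C1 / √T * (65 * WT (T * η) (t - T)) := by gcongr; exact vd_near (by positivity) h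
        _ = 65 * C1 / √T * WT (T * η) (t - T) := by ring
        _ ≤ _ := by gcongr; linarith
    · calc _ ≤ C2 * (1 / (η * (t - T) ^ 2)) := by simpa [div_eq_mul_inv] using h2 T η t T0 hη hη' h
        _ ≤ C2 * (2 / √T * WT (T * η) (t - T)) := by gcongr; exact vd_far T0 hη hT h
        _ = 2 * C2 / √T * WT (T * η) (t - T) := by ring
        _ ≤ _ := by gcongr; linarith
  have iF : Integrable (vF χ T η) :=
    (((integrable_WT (by positivity : 0 < T * η)).comp_sub_right T).const_mul _).mono'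
      cF.aestronglyMeasurable (Eventually.of_forall bd)
  have z : ∀ l, l ∉ Set.Ioo (-(2 * η)) (2 * η) → χ (l / η) = 0 := fun l hl => by
    refine (hb.zero _ ?_).1
    rw [abs_div, abs_of_pos hη, le_div_iff₀ hη]
    by_contra hc
    exact hl (abs_lt.1 (not_le.1 hc))
  have ch : Continuous fun l : ℝ => (χ (l / η) : ℂ) * ee (T * Real.exp l) := by fun_prop
  have ih : Integrable fun l : ℝ => (χ (l / η) : ℂ) * ee (T * Real.exp l) :=
    ch.integrable_of_hasCompactSupport (HasCompactSupport.intro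
      (isCompact_Icc (a := -(2 * η)) (b := 2 * η)) fun l hl => by
        rw [z l fun h => hl (Set.Ioo_subset_Icc_self h)]; simp)
  refine ⟨vF χ T η, cF, bd, fun l hl => ?_⟩
  rw [← vd_inv ch ih iF (fun t => ?_) l, hb.one _ (by
    rw [abs_div, abs_of_pos hη, div_le_one hη]; exact hl)]
  · simp
  · rw [vF, intervalIntegral.integral_eq_integral_of_support_subset fun l hl => ?_]
    · simp only [mul_assoc, ← ee_add, sub_eq_add_neg]
    · by_contra hc
      exact hl (by simp [z l fun h => hc (Set.Ioo_subset_Ioc_self h)])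

end Pool.Agent.P.MP_8be758_nt.Av3
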