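import Pool.Agent.P.MP_8be758_nt.Av3.BasB

/-! The step `S_VD1`. -/

namespace Pool.Agent.P.MP_8be758_nt.Av3

open Finset Real Filter Topology
open Pool.Agent.P.MP_e86632_nt (ee)
open Pool.Agent.P.MP_8be758_nt.Avg Pool.Agent.P.MP_8be758_nt.Av2

theorem vd1_ee {φ : ℝ → ℝ} {p l : ℝ} (h : HasDerivAt φ p l) :
    HasDerivAt (fun x => ee (φ x)) (ee (φ l) * (Complex.I * ((2 * π * p : ℝ) : ℂ))) l := by
  unfold ee
  exact (((h.const_mul (2 * π)).ofReal_comp).const_mul Complex.I).cexp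

/-- one integration by parts with a real factor vanishing at both ends -/
theorem vd1_parts {φ p g g' : ℝ → ℝ} {a b : ℝ} (hφ : ∀ x, HasDerivAt φ (p x) x)
    (hp : Continuous p) (hg : ∀ x, HasDerivAt g (g' x) x) (hg' : Continuous g')
    (ha : g a = 0) (hb : g b = 0) :
    ∫ l in a..b, (((g' l : ℝ) : ℂ) * ee (φ l) +
      ((g l : ℝ) : ℂ) * (ee (φ l) * (Complex.I * ((2 * π * p l : ℝ) : ℂ)))) = 0 := by
  have hcφ : Continuous φ := continuous_iff_continuousAt.2 fun x => (hφ x).continuousAt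
  have hcg : Continuous g := continuous_iff_continuousAt.2 fun x => (hg x).continuousAt
  have h := intervalIntegral.integral_eq_sub_of_hasDerivAt (a := a) (b := b)
    (f := fun x => ((g x : ℝ) : ℂ) * ee (φ x))
    (f' := fun l => ((g' l : ℝ) : ℂ) * ee (φ l) +
      ((g l : ℝ) : ℂ) * (ee (φ l) * (Complex.I * ((2 * π * p l : ℝ) : ℂ))))
    (fun x _ => ((hg x).ofReal_comp).mul (vd1_ee (hφ x)))
    (Continuous.intervalIntegrable (by fun_prop) _ _)
  rw [h]; simp [ha, hb]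

theorem vd1_pt {s u v c c1 C η : ℝ} (hs : 0 < s) (hη : 0 < η) (hv : s ^ 2 ≤ 2 * v)
    (hc : |c| ≤ 1) (hc1 : |c1| ≤ C) :
    |c * (s ^ 2 / (u ^ 2 + s ^ 2))| +
      |c1 / η * (u / (u ^ 2 + s ^ 2)) + c * ((s ^ 2 - u ^ 2) / (u ^ 2 + s ^ 2) ^ 2 * v)| ≤
      C / (η * s) + 3 * (v / (u ^ 2 + s ^ 2)) := by
  have hD : 0 < u ^ 2 + s ^ 2 := by positivity
  have hv0 : 0 ≤ v := by nlinarith [sq_nonneg s]
  have hC : 0 ≤ C := (abs_nonneg _).trans hc1
  have h1 : |c * (s ^ 2 / (u ^ 2 + s ^ 2))| ≤ 2 * (v / (u ^ 2 + s ^ 2)) := by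
    rw [abs_mul, abs_of_nonneg (by positivity : 0 ≤ s ^ 2 / (u ^ 2 + s ^ 2))]
    calc |c| * (s ^ 2 / (u ^ 2 + s ^ 2)) ≤ 1 * ((2 * v) / (u ^ 2 + s ^ 2)) := by gcongr
      _ = _ := by ring
  have h2 : |u / (u ^ 2 + s ^ 2)| ≤ 1 / s := by
    rw [abs_div, abs_of_pos hD, div_le_div_iff₀ hD hs, ← sq_abs u]
    nlinarith [sq_nonneg (|u| - s), abs_nonneg u]
  have h3 : |c1 / η * (u / (u ^ 2 + s ^ 2))| ≤ C / (η * s) := by
    rw [abs_mul, abs_div, abs_of_pos hη]
    calc |c1| / η * |u / (u ^ 2 + s ^ 2)| ≤ C / η * (1 / s) := by gcongr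
      _ = _ := by field_simp
  have h4 : |(s ^ 2 - u ^ 2) / (u ^ 2 + s ^ 2) ^ 2| ≤ 1 / (u ^ 2 + s ^ 2) := by
    rw [abs_div, abs_of_pos (by positivity : 0 < (u ^ 2 + s ^ 2) ^ 2),
      div_le_div_iff₀ (by positivity) hD]
    have : |s ^ 2 - u ^ 2| ≤ u ^ 2 + s ^ 2 := by
      rw [abs_le]; constructor <;> nlinarith [sq_nonneg u, sq_nonneg s]
    nlinarith
  have h5 : |c * ((s ^ 2 - u ^ 2) / (u ^ 2 + s ^ 2) ^ 2 * v)| ≤ v / (u ^ 2 + s ^ 2) := by
    rw [abs_mul, abs_mul, abs_of_nonneg hv0]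
    calc |c| * (|(s ^ 2 - u ^ 2) / (u ^ 2 + s ^ 2) ^ 2| * v)
        ≤ 1 * (1 / (u ^ 2 + s ^ 2) * v) := by gcongr
      _ = _ := by ring
  have h6 := abs_add_le (c1 / η * (u / (u ^ 2 + s ^ 2)))
    (c * ((s ^ 2 - u ^ 2) / (u ^ 2 + s ^ 2) ^ 2 * v))
  linarith

theorem vd1_key {s t a b K : ℝ} (hs : 0 < s) :
    ∫ l in a..b, (K + 3 * (s ^ 2 * Real.exp l / ((s ^ 2 * Real.exp l - t) ^ 2 + s ^ 2))) ≤
      K * (b - a) + 3 * π / s := by
  have hd : ∀ x : ℝ, HasDerivAt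
      (fun l => K * l + 3 / s * Real.arctan ((s ^ 2 * Real.exp l - t) / s))
      (K + 3 * (s ^ 2 * Real.exp x / ((s ^ 2 * Real.exp x - t) ^ 2 + s ^ 2))) x := by
    intro x
    have h1 : HasDerivAt (fun l => (s ^ 2 * Real.exp l - t) / s) (s ^ 2 * Real.exp x / s) x :=
      (((Real.hasDerivAt_exp x).const_mul (s ^ 2)).sub_const t).div_const s
    have h2 := ((hasDerivAt_id x).const_mul K).add (h1.arctan.const_mul (3 / s))
    refine h2.congr_deriv ?_
    have : 0 < (s ^ 2 * Real.exp x - t) ^ 2 + s ^ 2 := by positivity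
    field_simp
    ring
  have hc : Continuous fun x : ℝ =>
      K + 3 * (s ^ 2 * Real.exp x / ((s ^ 2 * Real.exp x - t) ^ 2 + s ^ 2)) := by
    refine continuous_const.add (continuous_const.mul (Continuous.div (by fun_prop) (by fun_prop) ?_))
    intro x; positivity
  rw [intervalIntegral.integral_eq_sub_of_hasDerivAt (fun x _ => hd x) (hc.intervalIntegrable _ _)]
  have h1 := Real.arctan_lt_pi_div_two ((s ^ 2 * Real.exp b - t) / s)
  have h2 := Real.neg_pi_div_two_lt_arctan ((s ^ 2 * Real.exp a - t) / s)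
  have h3 : 3 / s * (Real.arctan ((s ^ 2 * Real.exp b - t) / s) -
      Real.arctan ((s ^ 2 * Real.exp a - t) / s)) ≤ 3 / s * π := by
    gcongr; linarith
  have h4 : 3 * π / s = 3 / s * π := by ring
  rw [h4]; linarith

theorem vd1_main {χ χ1 χ2 : ℝ → ℝ} {C s η t : ℝ} (hB : Bmp χ χ1 χ2 C) (hs : 0 < s) (hη : 0 < η)
    (hη' : η ≤ 1 / 10) : ‖vF χ (s ^ 2) η t‖ ≤ (4 * C + 3 * π) / s := by
  have hcχ : Continuous χ := continuous_iff_continuousAt.2 fun x => (hB.d1 x).continuousAt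
  have hcχ1 : Continuous χ1 := continuous_iff_continuousAt.2 fun x => (hB.d2 x).continuousAt
  set p : ℝ → ℝ := fun l => s ^ 2 * Real.exp l - t with hp
  have hcp : Continuous p := by rw [hp]; fun_prop
  have hD : ∀ x, 0 < p x ^ 2 + s ^ 2 := fun x => by positivity
  have hφ : ∀ x, HasDerivAt (fun l => s ^ 2 * Real.exp l - t * l) (p x) x := fun x => by
    have := ((Real.hasDerivAt_exp x).const_mul (s ^ 2)).sub ((hasDerivAt_id x).const_mul t)
    refine this.congr_deriv ?_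
    simp [hp]
  have hdp : ∀ x, HasDerivAt p (s ^ 2 * Real.exp x) x := fun x =>
    ((Real.hasDerivAt_exp x).const_mul (s ^ 2)).sub_const t
  set g : ℝ → ℝ := fun l => χ (l / η) * (p l / (p l ^ 2 + s ^ 2)) with hg
  set g' : ℝ → ℝ := fun l => χ1 (l / η) / η * (p l / (p l ^ 2 + s ^ 2)) +
    χ (l / η) * ((s ^ 2 - p l ^ 2) / (p l ^ 2 + s ^ 2) ^ 2 * (s ^ 2 * Real.exp l)) with hg'
  have hdg : ∀ x, HasDerivAt g (g' x) x := fun x => by
    have h1 : HasDerivAt (fun l => χ (l / η)) (χ1 (x / η) * (1 / η)) x :=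
      (hB.d1 (x / η)).comp x ((hasDerivAt_id x).div_const η)
    have h2 := (hdp x).div (((hdp x).pow 2).add_const (s ^ 2)) (hD x).ne'
    refine (h1.mul h2).congr_deriv ?_
    have := (hD x).ne'
    simp only [hg', Pi.div_apply, Pi.pow_apply]
    field_simp
    ring
  have hq1 : Continuous fun l => p l / (p l ^ 2 + s ^ 2) :=
    hcp.div (by fun_prop) fun x => (hD x).ne'
  have hq2 : Continuous fun l => (s ^ 2 - p l ^ 2) / (p l ^ 2 + s ^ 2) ^ 2 :=
    Continuous.div (by fun_prop) (by fun_prop) fun x => (pow_pos (hD x) 2).ne'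
  have hq3 : Continuous fun l => s ^ 2 / (p l ^ 2 + s ^ 2) :=
    Continuous.div (by fun_prop) (by fun_prop) fun x => (hD x).ne'
  have hcg : Continuous g := continuous_iff_continuousAt.2 fun x => (hdg x).continuousAt
  have hcg' : Continuous g' :=
    (Continuous.mul (by fun_prop) hq1).add (Continuous.mul (by fun_prop) (hq2.mul (by fun_prop)))
  have hz : ∀ x : ℝ, |x| = 2 * η → g x = 0 := fun x hx => by
    have : 2 ≤ |x / η| := by
      rw [abs_div, abs_of_pos hη, hx, le_div_iff₀ hη]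
    simp only [hg, (hB.zero _ this).1, zero_mul]
  have h0 := vd1_parts (a := -(2 * η)) (b := 2 * η) hφ hcp hdg hcg'
    (hz _ (by rw [abs_neg, abs_of_pos (by positivity)])) (hz _ (abs_of_pos (by positivity)))
  set w : ℂ := (Complex.I * ((2 * π : ℝ) : ℂ))⁻¹ with hw
  have hw0 : Complex.I * ((2 * π : ℝ) : ℂ) ≠ 0 :=
    mul_ne_zero Complex.I_ne_zero (by exact_mod_cast (by positivity : 2 * π ≠ 0))
  have hw1 : ‖w‖ ≤ 1 := by
    rw [hw, norm_inv, norm_mul, Complex.norm_I, one_mul, Complex.norm_real, Real.norm_eq_abs,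
      abs_of_pos (by positivity)]
    exact inv_le_one_of_one_le₀ (by linarith [Real.pi_gt_three])
  set R : ℝ → ℂ := fun l => (((χ (l / η) * (s ^ 2 / (p l ^ 2 + s ^ 2)) : ℝ) : ℂ) -
    w * ((g' l : ℝ) : ℂ)) * ee (s ^ 2 * Real.exp l - t * l) with hR
  have hcR : Continuous R := by
    have : Continuous fun l => χ (l / η) * (s ^ 2 / (p l ^ 2 + s ^ 2)) :=
      Continuous.mul (by fun_prop) hq3
    rw [hR]; fun_prop
  have hsplit : ∀ l : ℝ, (χ (l / η) : ℂ) * ee (s ^ 2 * Real.exp l - t * l) =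
      R l + w * (((g' l : ℝ) : ℂ) * ee (s ^ 2 * Real.exp l - t * l) + ((g l : ℝ) : ℂ) *
        (ee (s ^ 2 * Real.exp l - t * l) * (Complex.I * ((2 * π * p l : ℝ) : ℂ)))) := by
    intro l
    have e1 : χ (l / η) = χ (l / η) * (s ^ 2 / (p l ^ 2 + s ^ 2)) + g l * p l := by
      have := (hD l).ne'
      simp only [hg]; field_simp; ring
    have e2 : (χ (l / η) : ℂ) = ((χ (l / η) * (s ^ 2 / (p l ^ 2 + s ^ 2)) : ℝ) : ℂ) +
        ((g l : ℝ) : ℂ) * ((p l : ℝ) : ℂ) := by exact_mod_cast e1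
    have e3 : w * (Complex.I * ((2 * π : ℝ) : ℂ)) = 1 := inv_mul_cancel₀ hw0
    have e4 : ((2 * π * p l : ℝ) : ℂ) = ((2 * π : ℝ) : ℂ) * ((p l : ℝ) : ℂ) :=
      Complex.ofReal_mul _ _
    simp only [hR]
    rw [e4]
    linear_combination ee (s ^ 2 * Real.exp l - t * l) * e2 -
      ((g l : ℝ) : ℂ) * ((p l : ℝ) : ℂ) * ee (s ^ 2 * Real.exp l - t * l) * e3
  have hv : vF χ (s ^ 2) η t = ∫ l in (-(2 * η))..(2 * η), R l := by
    unfold vF
    simp only [hsplit]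
    rw [intervalIntegral.integral_add (hcR.intervalIntegrable _ _)
      (Continuous.intervalIntegrable (by fun_prop) _ _), intervalIntegral.integral_const_mul, h0]
    simp
  have hc : Continuous fun x : ℝ =>
      C / (η * s) + 3 * (s ^ 2 * Real.exp x / ((s ^ 2 * Real.exp x - t) ^ 2 + s ^ 2)) := by
    refine continuous_const.add (continuous_const.mul (Continuous.div (by fun_prop) (by fun_prop) ?_))
    intro x; positivity
  rw [hv]
  refine (intervalIntegral.norm_integral_le_of_norm_le (by linarith)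
    (Eventually.of_forall fun l hl => ?_) (hc.intervalIntegrable _ _)).trans
    ((vd1_key hs).trans (le_of_eq ?_))
  · have he : s ^ 2 ≤ 2 * (s ^ 2 * Real.exp l) := by
      have h1 := Real.add_one_le_exp l
      have h2 : 1 ≤ 2 * Real.exp l := by linarith [hl.1]
      nlinarith [sq_nonneg s]
    refine le_trans ?_ (vd1_pt (u := p l) hs hη he (hB.b0 (l / η)) (hB.b1 (l / η)))
    simp only [hR]
    rw [norm_mul, Pool.Agent.P.MP_e86632_nt.norm_ee, mul_one]
    refine (norm_sub_le _ _).trans (add_le_add (le_of_eq ?_) ?_)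
    · rw [Complex.norm_real, Real.norm_eq_abs]
    · rw [norm_mul, Complex.norm_real, Real.norm_eq_abs]
      exact mul_le_of_le_one_left (abs_nonneg _) hw1
  · field_simp; ring

theorem t_VD1 : S_VD1 := by
  intro χ χ1 χ2 C hB
  have hC : 0 ≤ C := (abs_nonneg _).trans (hB.b1 0)
  refine ⟨4 * C + 3 * π, by positivity, fun T η t hT hη hη' => ?_⟩
  have h := vd1_main (t := t) hB (Real.sqrt_pos.2 hT) hη hη'
  rwa [Real.sq_sqrt hT.le] at h

end Pool.Agent.P.MP_8be758_nt.Av3
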