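import Pool.Agent.P.MP_8be758_nt.Av3.BasB

/-! The step `S_VD2`. -/

namespace Pool.Agent.P.MP_8be758_nt.Av3

open Finset Real Filter Topology
open Pool.Agent.P.MP_e86632_nt (ee norm_ee)
open Pool.Agent.P.MP_8be758_nt.Avg Pool.Agent.P.MP_8be758_nt.Av2

theorem vd2_ibp {a b : ℝ} {f g g1 φ p : ℝ → ℝ} (hg : ∀ x ∈ Set.uIcc a b, HasDerivAt g (g1 x) x)
    (hφ : ∀ x ∈ Set.uIcc a b, HasDerivAt φ (p x) x) (cg : ContinuousOn g1 (Set.uIcc a b))
    (cp : ContinuousOn p (Set.uIcc a b)) (ga : g a = 0) (gb : g b = 0)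
    (hf : ∀ x ∈ Set.uIcc a b, f x = g x * p x) :
    ‖∫ x in a..b, (f x : ℂ) * ee (φ x)‖ ≤ ‖∫ x in a..b, (g1 x : ℂ) * ee (φ x)‖ := by
  have cφ : ContinuousOn φ (Set.uIcc a b) := HasDerivAt.continuousOn hφ
  have h := intervalIntegral.integral_mul_deriv_eq_deriv_mul (a := a) (b := b)
    (u := fun x => (g x : ℂ)) (u' := fun x => (g1 x : ℂ)) (v := fun x => ee (φ x))
    (v' := fun x => ee (φ x) * (Complex.I * ((2 * π * p x : ℝ) : ℂ)))
    (fun x hx => (hg x hx).ofReal_comp)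
    (fun x hx => (((hφ x hx).const_mul (2 * π)).ofReal_comp.const_mul Complex.I).cexp)
    (ContinuousOn.intervalIntegrable (by fun_prop)) (ContinuousOn.intervalIntegrable (by fun_prop))
  have e : ∫ x in a..b, (g x : ℂ) * (ee (φ x) * (Complex.I * ((2 * π * p x : ℝ) : ℂ))) =
      Complex.I * ((2 * π : ℝ) : ℂ) * ∫ x in a..b, (f x : ℂ) * ee (φ x) := by
    rw [← intervalIntegral.integral_const_mul]
    refine intervalIntegral.integral_congr fun x hx => ?_
    simp only [hf x hx]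
    push_cast
    ring
  rw [e, ga, gb] at h
  have h2 := congrArg norm h
  rw [Complex.ofReal_zero, zero_mul, zero_mul, sub_zero, zero_sub, norm_neg, norm_mul, norm_mul,
    Complex.norm_I, one_mul, Complex.norm_real, Real.norm_of_nonneg (by positivity)] at h2
  rw [← h2]
  exact le_mul_of_one_le_left (norm_nonneg _) (by linarith [pi_gt_three])

theorem vd2_bd {c0 c1 c2 w m C : ℝ} (hm : 1 ≤ m) (hC : 0 ≤ C) (h0 : |c0| ≤ 1) (h1 : |c1| ≤ C * m)
    (h2 : |c2| ≤ C * m ^ 2) (hw : |w| ≤ m) :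
    |c2 - 3 * (c1 * w) - c0 * w + 3 * (c0 * w * w)| ≤ 4 * (C + 1) * m ^ 2 := by
  have e1 : |c1 * w| ≤ C * m * m := by rw [abs_mul]; gcongr
  have e2 : |c0 * w| ≤ 1 * m := by rw [abs_mul]; gcongr
  have e3 : |c0 * w * w| ≤ 1 * m * m := by rw [abs_mul]; gcongr
  have e4 : m ≤ m * m := le_mul_of_one_le_left (by linarith) hm
  rw [abs_le] at h2 e1 e2 e3 ⊢
  constructor <;> nlinarith

theorem t_VD2 : S_VD2 := by
  intro χ χ1 χ2 C hb
  have hC : 0 ≤ C := (abs_nonneg _).trans (hb.b1 0)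
  refine ⟨64 * (C + 1), by positivity, fun T η t hT hη hη1 ht => ?_⟩
  have hu : 0 < |t - T| := lt_of_lt_of_le (by positivity) ht
  have hab : -(2 * η) ≤ 2 * η := by linarith
  have hI : ∀ l ∈ Set.uIcc (-(2 * η)) (2 * η),
      Real.exp l ≤ 2 ∧ |t - T| / 2 ≤ |T * Real.exp l - t| := fun l hl => by
    rw [Set.uIcc_of_le hab] at hl
    have h1 : |l| ≤ 2 * η := abs_le.2 hl
    have h2 := Real.abs_exp_sub_one_le (x := l) (by linarith)
    have h3 : |T * (Real.exp l - 1)| ≤ T * (4 * η) := by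
      rw [abs_mul, abs_of_pos hT]
      gcongr
      linarith
    have h4 := abs_sub (T * (Real.exp l - 1)) (T * Real.exp l - t)
    rw [show T * (Real.exp l - 1) - (T * Real.exp l - t) = t - T by ring] at h4
    exact ⟨by linarith [(abs_le.1 h2).2], by linarith⟩
  have hp : ∀ l ∈ Set.uIcc (-(2 * η)) (2 * η), T * Real.exp l - t ≠ 0 := fun l hl =>
    abs_pos.1 (lt_of_lt_of_le (by positivity) (hI l hl).2)
  have c0 : Continuous χ := continuous_iff_continuousAt.2 fun x => (hb.d1 x).continuousAt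
  have c1 : Continuous χ1 := continuous_iff_continuousAt.2 fun x => (hb.d2 x).continuousAt
  have c2 := hb.c2
  have de : ∀ l, HasDerivAt (fun l => T * Real.exp l) (T * Real.exp l) l :=
    fun l => (Real.hasDerivAt_exp l).const_mul T
  have dφ : ∀ l ∈ Set.uIcc (-(2 * η)) (2 * η),
      HasDerivAt (fun l => T * Real.exp l - t * l) (T * Real.exp l - t) l := fun l _ => by
    simpa using (de l).fun_sub ((hasDerivAt_id' l).const_mul t)
  have dq : ∀ l ∈ Set.uIcc (-(2 * η)) (2 * η), HasDerivAt (fun l => (T * Real.exp l - t)⁻¹)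
      (-(T * Real.exp l) * (T * Real.exp l - t)⁻¹ ^ 2) l := fun l hl => by
    rw [inv_pow, ← div_eq_mul_inv]
    exact ((de l).sub_const t).fun_inv (hp l hl)
  have d0 : ∀ l, HasDerivAt (fun l => χ (l / η)) (χ1 (l / η) * η⁻¹) l := fun l =>
    ((hb.d1 (l / η)).comp l ((hasDerivAt_id' l).div_const η)).congr_deriv (by rw [one_div])
  have d1 : ∀ l, HasDerivAt (fun l => χ1 (l / η) * η⁻¹) (χ2 (l / η) * η⁻¹ ^ 2) l := fun l =>
    (((hb.d2 (l / η)).comp l ((hasDerivAt_id' l).div_const η)).mul_const η⁻¹).congr_deriv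
      (by ring)
  have cq : ContinuousOn (fun l => (T * Real.exp l - t)⁻¹) (Set.uIcc (-(2 * η)) (2 * η)) :=
    HasDerivAt.continuousOn dq
  generalize hq : (fun l => (T * Real.exp l - t)⁻¹) = q at cq
  have hq' : ∀ l, (T * Real.exp l - t)⁻¹ = q l := congrFun hq
  simp only [hq'] at dq
  have za := hb.zero (-(2 * η) / η) (by
    rw [neg_div, abs_neg, mul_div_assoc, div_self hη.ne']; norm_num)
  have zb := hb.zero (2 * η / η) (by rw [mul_div_assoc, div_self hη.ne']; norm_num)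
  have s1 := vd2_ibp (f := fun l => χ (l / η)) (g := fun l => χ (l / η) * q l)
    (g1 := fun l => χ1 (l / η) * η⁻¹ * q l - χ (l / η) * (T * Real.exp l) * q l ^ 2)
    (fun l hl => ((d0 l).fun_mul (dq l hl)).congr_deriv (by ring)) dφ (by fun_prop) (by fun_prop)
    (by simp only [za.1, zero_mul]) (by simp only [zb.1, zero_mul])
    fun l hl => by rw [← hq', mul_assoc, inv_mul_cancel₀ (hp l hl), mul_one]
  have s2 := vd2_ibp
    (f := fun l => χ1 (l / η) * η⁻¹ * q l - χ (l / η) * (T * Real.exp l) * q l ^ 2)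
    (g := fun l => (χ1 (l / η) * η⁻¹ * q l - χ (l / η) * (T * Real.exp l) * q l ^ 2) * q l)
    (g1 := fun l => q l ^ 2 * (χ2 (l / η) * η⁻¹ ^ 2 -
      3 * (χ1 (l / η) * η⁻¹ * (T * Real.exp l * q l)) - χ (l / η) * (T * Real.exp l * q l) +
      3 * (χ (l / η) * (T * Real.exp l * q l) * (T * Real.exp l * q l))))
    (fun l hl => ((((d1 l).fun_mul (dq l hl)).fun_sub (((d0 l).fun_mul (de l)).fun_mul
      ((dq l hl).fun_pow 2))).fun_mul (dq l hl)).congr_deriv (by push_cast; ring)) dφ (by fun_prop) (by fun_prop)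
    (by simp only [za.1, za.2.1, zero_mul, sub_self])
    (by simp only [zb.1, zb.2.1, zero_mul, sub_self])
    fun l hl => by rw [mul_assoc _ (q l), ← hq' l, inv_mul_cancel₀ (hp l hl), mul_one]
  refine (s1.trans s2).trans ((intervalIntegral.norm_integral_le_of_norm_le_const
    (C := (2 / |t - T|) ^ 2 * (4 * (C + 1) * η⁻¹ ^ 2)) fun l hl => ?_).trans (le_of_eq ?_))
  · have hl' := Set.uIoc_subset_uIcc hl
    obtain ⟨k1, k2⟩ := hI l hl'
    have k3 : |q l| ≤ 2 / |t - T| := by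
      rw [← hq', abs_inv, ← inv_div]
      exact inv_anti₀ (by positivity) k2
    have k4 : |T * Real.exp l * q l| ≤ η⁻¹ := by
      rw [abs_mul, abs_of_pos (by positivity)]
      calc T * Real.exp l * |q l| ≤ T * 2 * (2 / |t - T|) := by gcongr
        _ ≤ η⁻¹ := by
          rw [← mul_div_assoc, ← one_div, div_le_div_iff₀ hu hη]
          nlinarith [mul_pos hT hη]
    rw [norm_mul, norm_ee, mul_one, Complex.norm_real, Real.norm_eq_abs, abs_mul, abs_pow]
    refine mul_le_mul (by gcongr) (vd2_bd ?_ hC (hb.b0 _) ?_ ?_ k4) (abs_nonneg _) (by positivity)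
    · exact (one_le_inv₀ hη).2 (by linarith)
    · rw [abs_mul, abs_of_pos (inv_pos.2 hη)]
      gcongr
      exact hb.b1 _
    · rw [abs_mul, abs_of_pos (a := η⁻¹ ^ 2) (by positivity)]
      gcongr
      exact hb.b2 _
  · have : t - T ≠ 0 := abs_pos.1 hu
    rw [div_pow, sq_abs, abs_of_pos (by linarith)]
    field_simp
    ring

end Pool.Agent.P.MP_8be758_nt.Av3
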