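import Pool.Agent.P.MP_8be758_nt.Av3.BasB

/-! The step `S_VREP`. -/

namespace Pool.Agent.P.MP_8be758_nt.Av3

open Finset Real Filter Topology
open Pool.Agent.P.MP_e86632_nt (ee)
open Pool.Agent.P.MP_8be758_nt.Avg Pool.Agent.P.MP_8be758_nt.Av2

theorem vrep_int {F : ℝ → ℂ} {K S x : ℝ} (hF : Continuous F) (hS : 0 < S)
    (h : ∀ t, ‖F t‖ ≤ K * WT S (t - x)) (l : ℝ) :
    MeasureTheory.Integrable fun t => F t * ee (t * l) :=
  MeasureTheory.Integrable.mono' (((integrable_WT hS).comp_sub_right x).const_mul K)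
    (by fun_prop : Continuous fun t => F t * ee (t * l)).aestronglyMeasurable
    (Eventually.of_forall fun t => by
      rw [norm_mul, Pool.Agent.P.MP_e86632_nt.norm_ee, mul_one]; exact h t)

theorem vrep_win (J L W : ℕ) (f : ℕ → ℂ) :
    ∑ j ∈ Ico J (J + W * L), f j = ∑ w ∈ range W, ∑ j ∈ Wn J L w, f j := by
  induction W with
  | zero => simp
  | succ W ih =>
    rw [sum_range_succ, ← ih, Wn, sum_Ico_consecutive _ (Nat.le_add_right _ _)
      (Nat.add_le_add_left (Nat.mul_le_mul_right L (Nat.le_succ W)) J)]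

theorem vrep_sum {J L : ℕ} (hL : 1 ≤ L) {c : ℕ → ℂ} (hc : ∀ j, 2 * J ≤ j → c j = 0) (g : ℕ → ℂ) :
    ∑ j ∈ Ico J (2 * J), c j * g j =
      ∑ w ∈ range (J / L + 1), ∑ j ∈ Wn J L w, c j * g j := by
  rw [← vrep_win]
  have h := Nat.lt_div_mul_add (a := J) hL
  refine sum_subset (Ico_subset_Ico le_rfl (by rw [add_mul]; omega)) fun j hj hj' => ?_
  rw [mem_Ico] at hj hj'
  rw [hc j (by omega), zero_mul]

theorem vrep_log {J L w j : ℕ} {η : ℝ} (hJ : 1 ≤ J) (hη : 0 ≤ η) (hL : (L : ℝ) ≤ η * J + 1)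
    (hj : j ∈ Wn J L w) : |Real.log j - Real.log (J + w * L : ℕ)| ≤ η := by
  rw [Wn, mem_Ico, add_mul, one_mul, ← add_assoc] at hj
  have h0 : (J : ℝ) ≤ (J + w * L : ℕ) := by exact_mod_cast Nat.le_add_right _ _
  generalize J + w * L = k at hj h0
  have hJ0 : (0 : ℝ) < J := by exact_mod_cast hJ
  have hk : (0 : ℝ) < k := hJ0.trans_le h0
  have h1 : (k : ℝ) ≤ j := by exact_mod_cast hj.1
  have h2 : (j : ℝ) + 1 ≤ k + L := by exact_mod_cast hj.2
  rw [abs_of_nonneg (sub_nonneg.2 (Real.log_le_log hk h1)), ← Real.log_div (by linarith) hk.ne']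
  refine (Real.log_le_sub_one_of_pos (div_pos (by linarith) hk)).trans ?_
  rw [sub_le_iff_le_add, div_le_iff₀ hk]
  nlinarith [mul_le_mul_of_nonneg_left h0 hη]

theorem vrep_exp {ϖ y : ℝ} {j k a1 a2 : ℕ} (hj : 1 ≤ j) (hk : 1 ≤ k) (h1 : 1 ≤ a1) (h2 : 1 ≤ a2) :
    ϖ * j * √((a1 : ℝ) * a2) = ϖ * k * Real.exp y *
      Real.exp (Real.log j - Real.log k + ((Real.log a1 + Real.log a2) / 2 - y)) := by
  have hj : (0 : ℝ) < j := by exact_mod_cast hj
  have hk : (0 : ℝ) < k := by exact_mod_cast hk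
  have h1 : (0 : ℝ) < a1 := by exact_mod_cast h1
  have h2 : (0 : ℝ) < a2 := by exact_mod_cast h2
  rw [Real.exp_add, Real.exp_sub, Real.exp_sub, Real.exp_half, Real.exp_add, Real.exp_log hj,
    Real.exp_log hk, Real.exp_log h1, Real.exp_log h2]
  field_simp

theorem t_VREP (hVD : S_VD) (hOVL : S_OVL) : S_VREP := by
  obtain ⟨C1, hC1, hVD⟩ := hVD
  obtain ⟨C2, hC2, hOVL⟩ := hOVL
  refine ⟨2 * C1 * C2, by positivity, ?_⟩
  intro ϖ A y η κ J c hϖ hA hJ hη hηκ hκ hy1 hy2 hT hc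
  obtain ⟨hL1, -, hL3, hL4⟩ := Lw_bd hη.le (by linarith) hJ
  generalize Lw η J = L at hL1 hL3 hL4 ⊢
  have hJ0 : (0 : ℝ) < J := by exact_mod_cast hJ
  have hκ0 : 0 < κ := hη.trans_le hηκ
  have hT0 : 0 < ϖ * J * A := by positivity
  have hE := Real.exp_pos y
  have hx : ∀ w : ℕ, ϖ * J * Real.exp y + w * (ϖ * L * Real.exp y) =
      ϖ * (J + w * L : ℕ) * Real.exp y := fun w => by push_cast; ring
  have hx0 : ϖ * J * A ≤ ϖ * J * Real.exp y := by gcongr
  have hx1 : ∀ w : ℕ, ϖ * J * A ≤ ϖ * (J + w * L : ℕ) * Real.exp y := fun w => by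
    rw [← hx]
    exact hx0.trans (le_add_of_nonneg_right (by positivity))
  have hF := fun w : ℕ => hVD (ϖ * (J + w * L : ℕ) * Real.exp y) (2 * κ) (by positivity)
    (by linarith) (hT.trans (mul_le_mul (hx1 w) (by nlinarith) (by positivity)
      (hT0.le.trans (hx1 w))))
  choose F hF1 hF2 hF3 using hF
  refine ⟨fun t => ∑ w ∈ range (J / L + 1),
    F w t * ee (-(t * (Real.log (J + w * L : ℕ) + y))) * dp (Wn J L w) c t,
    continuous_finsetSum _ fun w _ => by have := hF1 w; fun_prop, fun t => ?_,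
    fun a1 ha1 a2 ha2 => ?_⟩
  · have h1 := hOVL (ϖ * J * A) η (2 * κ) (ϖ * J * Real.exp y) (ϖ * L * Real.exp y) t (J / L + 1)
      hT0 hη (by linarith) (by linarith) hx0
      (by
        calc η * (ϖ * J * A) = ϖ * (η * J) * A := by ring
          _ ≤ _ := by gcongr)
      fun w hw => by
        have h2 : J + w * L ≤ 2 * J := by
          have := (Nat.mul_le_mul_right L (Nat.lt_succ_iff.1 hw)).trans (Nat.div_mul_le_self J L)
          omega
        have h3 : ((J + w * L : ℕ) : ℝ) ≤ 2 * J := by exact_mod_cast h2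
        rw [hx]
        calc _ ≤ ϖ * (2 * J) * (2 * A) := by gcongr
          _ = _ := by ring
    simp only [hx] at h1
    have hs : 0 < √(ϖ * J * A) := Real.sqrt_pos.2 hT0
    have hJm := Jm_nonneg J L c t
    calc _ ≤ ∑ w ∈ range (J / L + 1), C1 / √(ϖ * J * A) * Jm J L c t *
          WT (ϖ * (J + w * L : ℕ) * Real.exp y * (2 * κ))
            (t - ϖ * (J + w * L : ℕ) * Real.exp y) := by
          refine (norm_sum_le _ _).trans (sum_le_sum fun w hw => ?_)
          rw [norm_mul, norm_mul, Pool.Agent.P.MP_e86632_nt.norm_ee, mul_one, mul_right_comm]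
          have h4 := WT_pos (ϖ * (J + w * L : ℕ) * Real.exp y * (2 * κ))
            (t - ϖ * (J + w * L : ℕ) * Real.exp y)
          refine mul_le_mul ((hF2 w t).trans ?_) (le_Jm (mem_range.1 hw) c t) (norm_nonneg _)
            (by positivity)
          have h5 := Real.sqrt_le_sqrt (hx1 w)
          gcongr
      _ ≤ C1 / √(ϖ * J * A) * Jm J L c t * (C2 * (2 * κ / η) * WT (ϖ * J * A) t) := by
          rw [← mul_sum]
          gcongr
      _ = _ := by ring
  · have hi := fun (w : ℕ) (l : ℝ) => vrep_int (hF1 w)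
      (mul_pos (hT0.trans_le (hx1 w)) (by positivity : 0 < 2 * κ)) (hF2 w) l
    set m := (Real.log a1 + Real.log a2) / 2 with hm
    have hm1 : |m - y| ≤ κ := by
      have g1 := abs_le.1 (Iw_log ha1)
      have g2 := abs_le.1 (Iw_log ha2)
      exact abs_le.2 ⟨by linarith [g1.1, g2.1], by linarith [g1.2, g2.2]⟩
    have e1 : ∀ w, ∀ j ∈ Wn J L w, c j * ee (ϖ * j * √((a1 : ℝ) * a2)) = ∫ t : ℝ, c j *
        (F w t * ee (t * (Real.log j - Real.log (J + w * L : ℕ) + (m - y)))) := fun w j hj => by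
      have g1 : 1 ≤ J + w * L := hJ.trans (Nat.le_add_right _ _)
      rw [vrep_exp (y := y) (g1.trans (mem_Ico.1 hj).1) g1 (Iw_pos ha1) (Iw_pos ha2), hF3,
        MeasureTheory.integral_const_mul]
      exact (abs_add_le _ _).trans (by linarith [vrep_log hJ hη.le hL4 hj])
    rw [vrep_sum hL1 hc, sum_congr rfl fun w _ => sum_congr rfl (e1 w),
      sum_congr rfl fun w _ => (MeasureTheory.integral_finsetSum _
        fun j _ => (hi w _).const_mul (c j)).symm,
      ← MeasureTheory.integral_finsetSum _ fun w _ =>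
        MeasureTheory.integrable_finsetSum _ fun j _ => (hi w _).const_mul (c j)]
    refine MeasureTheory.integral_congr_ae (Eventually.of_forall fun t => ?_)
    simp only [dp, sum_mul, mul_sum]
    refine sum_congr rfl fun w _ => sum_congr rfl fun j _ => ?_
    rw [show t * (Real.log j - Real.log (J + w * L : ℕ) + (m - y)) =
      -(t * (Real.log (J + w * L : ℕ) + y)) + t * Real.log j + t * m by ring,
      Pool.Agent.P.MP_e86632_nt.ee_add, Pool.Agent.P.MP_e86632_nt.ee_add]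
    ring

end Pool.Agent.P.MP_8be758_nt.Av3
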