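import Pool.Agent.P.MP_8be758_nt.Av3.BasB

/-! The step `S_WIN`. -/

namespace Pool.Agent.P.MP_8be758_nt.Av3

open Finset Real Filter Topology
open Pool.Agent.P.MP_e86632_nt (ee)
open Pool.Agent.P.MP_8be758_nt.Avg Pool.Agent.P.MP_8be758_nt.Av2

/-- the averaged window -/
noncomputable def win_om (η y1 y2 : ℝ) (a : ℕ) : ℝ := 1 / η * ∫ y in y1..y2, gw η y a

theorem win_om_nonneg {η y1 y2 : ℝ} (hη : 0 < η) (h : y1 ≤ y2) (a : ℕ) :
    0 ≤ win_om η y1 y2 a :=
  mul_nonneg (by positivity) (intervalIntegral.integral_nonneg h fun y _ => (gw_pos _ _ _).le)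

theorem win_compl {η y1 y2 : ℝ} (hη : 0 < η) (h : y1 ≤ y2) (a : ℕ) :
    1 - win_om η y1 y2 a = 1 / η * ∫ y in (Set.Ioc y1 y2)ᶜ, gw η y a := by
  have h1 := MeasureTheory.integral_add_compl (s := Set.Ioc y1 y2) measurableSet_Ioc
    (integrable_gw hη a)
  rw [integral_gw hη] at h1
  rw [win_om, intervalIntegral.integral_of_le h]
  have h2 : ∫ y in (Set.Ioc y1 y2)ᶜ, gw η y a = η - ∫ y in Set.Ioc y1 y2, gw η y a := by
    linarith
  rw [h2]
  field_simp

theorem win_om_le {η y1 y2 : ℝ} (hη : 0 < η) (h : y1 ≤ y2) (a : ℕ) :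
    0 ≤ 1 - win_om η y1 y2 a := by
  rw [win_compl hη h]
  exact mul_nonneg (by positivity)
    (MeasureTheory.integral_nonneg fun y => (gw_pos _ _ _).le)

theorem win_tail {η κ : ℝ} (hη : 0 < η) (hκ : 0 ≤ κ) (a : ℕ) {s : Set ℝ} (hs : MeasurableSet s)
    (hc : ∀ x ∈ s, κ ≤ |x - Real.log a|) : 1 / η * ∫ y in s, gw η y a ≤ 2 * gs (κ / η) := by
  have h := integral_gs_tail hη (T := κ / η) (by positivity) (Real.log a) hs fun x hx => by
    rw [mul_div_cancel₀ _ hη.ne']
    exact hc x hx
  rw [one_div, inv_mul_le_iff₀ hη]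
  refine le_trans h (le_of_eq ?_)
  ring

/-- away from the edges the averaged window is close to the indicator -/
theorem win_close {η κ : ℝ} (hη : 0 < η) (hκ : 0 ≤ κ) {A1 A2 a : ℕ} (h1 : 1 ≤ A1) (h12 : A1 ≤ A2)
    (ha : 1 ≤ a) (e1 : κ ≤ |Real.log a - Real.log A1|) (e2 : κ ≤ |Real.log a - Real.log A2|) :
    |(if a ∈ Ioc A1 A2 then (1 : ℝ) else 0) - win_om η (Real.log A1) (Real.log A2) a| ≤
      2 * gs (κ / η) := by
  have p1 : (0 : ℝ) < A1 := by exact_mod_cast h1
  have p2 : (0 : ℝ) < A2 := by exact_mod_cast h1.trans h12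
  have pa : (0 : ℝ) < a := by exact_mod_cast ha
  have hy : Real.log A1 ≤ Real.log A2 := Real.log_le_log p1 (by exact_mod_cast h12)
  split_ifs with h
  · have l1 : Real.log A1 ≤ Real.log a :=
      Real.log_le_log p1 (by exact_mod_cast (mem_Ioc.1 h).1.le)
    have l2 : Real.log a ≤ Real.log A2 := Real.log_le_log pa (by exact_mod_cast (mem_Ioc.1 h).2)
    rw [abs_of_nonneg (by linarith)] at e1
    rw [abs_of_nonpos (by linarith)] at e2
    rw [abs_of_nonneg (win_om_le hη hy a), win_compl hη hy]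
    refine win_tail hη hκ a measurableSet_Ioc.compl fun x hx => ?_
    rw [Set.mem_compl_iff, Set.mem_Ioc, not_and_or, not_lt, not_le] at hx
    rcases hx with hx | hx
    · exact le_abs.2 (Or.inr (by linarith))
    · exact le_abs.2 (Or.inl (by linarith))
  · rw [zero_sub, abs_neg, abs_of_nonneg (win_om_nonneg hη hy a), win_om,
      intervalIntegral.integral_of_le hy]
    refine win_tail hη hκ a measurableSet_Ioc fun x hx => ?_
    rw [mem_Ioc, not_and_or, not_lt, not_le] at h
    rcases h with h | h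
    · have l1 : Real.log a ≤ Real.log A1 := Real.log_le_log pa (by exact_mod_cast h)
      rw [abs_of_nonpos (by linarith)] at e1
      exact le_abs.2 (Or.inl (by linarith [hx.1]))
    · have l2 : Real.log A2 ≤ Real.log a := Real.log_le_log p2 (by exact_mod_cast h.le)
      rw [abs_of_nonneg (by linarith)] at e2
      exact le_abs.2 (Or.inr (by linarith [hx.2]))

theorem win_one {η y1 y2 : ℝ} (hη : 0 < η) (h : y1 ≤ y2) (a : ℕ) (p : Prop) [Decidable p] :
    |(if p then (1 : ℝ) else 0) - win_om η y1 y2 a| ≤ 1 := by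
  have h1 := win_om_nonneg hη h a
  have h2 := win_om_le hη h a
  split_ifs <;> exact abs_le.2 ⟨by linarith, by linarith⟩

theorem win_edge {κ x : ℝ} (hx : 0 < x) (h0 : 0 < κ) (hκ : κ ≤ 1 / 2) {J : Finset ℕ}
    (hJ : ∀ a ∈ J, 1 ≤ a) :
    ∑ a ∈ J, (if |Real.log a - Real.log x| < κ then (1 : ℝ) else 0) ≤ 3 * κ * x + 1 := by
  rw [sum_boole]
  exact smo_edge hx h0 hκ fun n hn => ⟨hJ n (mem_filter.1 hn).1, (mem_filter.1 hn).2⟩

theorem win_cont (K W : ℕ) (S J : Finset ℕ) (β α : ℕ → ℝ) (η : ℝ) :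
    Continuous fun y => tb K W S β J (wd η y α) := by
  unfold tb wd
  fun_prop

theorem win_int (K W : ℕ) (S J : Finset ℕ) (β α : ℕ → ℝ) {η y1 y2 : ℝ} (hη : 0 < η)
    (h : y1 ≤ y2) : tb K W S β J (fun a => win_om η y1 y2 a * α a) ≤
      1 / η * ∫ y in y1..y2, tb K W S β J (wd η y α) := by
  have e : ∀ k : ℕ, ∑ b ∈ S, ∑ a ∈ J, β b * (win_om η y1 y2 a * α a) * dd W k (a * b) =
      1 / η * ∫ y in y1..y2, ∑ b ∈ S, ∑ a ∈ J, β b * wd η y α a * dd W k (a * b) := fun k => by
    rw [intervalIntegral.integral_finsetSum fun b _ =>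
      Continuous.intervalIntegrable (by unfold wd; fun_prop) _ _, mul_sum]
    refine sum_congr rfl fun b _ => ?_
    rw [intervalIntegral.integral_finsetSum fun a _ =>
      Continuous.intervalIntegrable (by unfold wd; fun_prop) _ _, mul_sum]
    refine sum_congr rfl fun a _ => ?_
    have e1 : ∀ y, β b * wd η y α a * dd W k (a * b) =
        (β b * α a * dd W k (a * b)) * gw η y a := fun y => by rw [wd]; ring
    simp only [e1]
    rw [intervalIntegral.integral_const_mul, win_om]
    ring
  unfold tb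
  rw [intervalIntegral.integral_finsetSum fun k _ =>
    Continuous.intervalIntegrable (by unfold wd; fun_prop) _ _, mul_sum]
  refine sum_le_sum fun k _ => ?_
  rw [e k, abs_mul, abs_of_pos (by positivity : (0 : ℝ) < 1 / η)]
  exact mul_le_mul_of_nonneg_left (intervalIntegral.abs_integral_le_integral_abs h)
    (by positivity)

theorem win_am {x p s : ℝ} (hs : 0 < s) (h : x ^ 2 ≤ p) : x ≤ 1 / (2 * s) * p + s / 2 := by
  have h1 : 1 / (2 * s) * p + s / 2 - x = 1 / (2 * s) * ((p - x ^ 2) + (x - s) ^ 2) := by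
    field_simp
    ring
  have h2 : 0 ≤ 1 / (2 * s) * ((p - x ^ 2) + (x - s) ^ 2) :=
    mul_nonneg (by positivity) (add_nonneg (by linarith) (sq_nonneg _))
  linarith

theorem t_WIN : S_WIN := by
  intro K W A1 A2 S J β α η κ s hη hηκ hκ hs h1 h12 h21 hβ hα hJ hsub hI hB
  have p1 : (0 : ℝ) < A1 := by exact_mod_cast h1
  have p2 : (0 : ℝ) < A2 := by exact_mod_cast h1.trans h12
  have h0 : 0 < κ := hη.trans_le hηκ
  have hy : Real.log A1 ≤ Real.log A2 := Real.log_le_log p1 (by exact_mod_cast h12)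
  have h21' : (A2 : ℝ) ≤ 2 * A1 := by exact_mod_cast h21
  have hy1 : Real.log A2 ≤ Real.log A1 + 1 := by
    have l1 := Real.log_le_log p2 h21'
    rw [Real.log_mul two_ne_zero p1.ne'] at l1
    linarith [Real.log_two_lt_d9]
  refine ⟨fun a => ((if a ∈ Ioc A1 A2 then (1 : ℝ) else 0) -
    win_om η (Real.log A1) (Real.log A2) a) * α a, fun a => ?_, ?_, ?_⟩
  · rw [abs_mul]
    exact mul_le_one₀ (win_one hη hy a _) (abs_nonneg _) (hα a)
  · have hg := gs_pos (κ / η)
    calc _ ≤ ∑ a ∈ J, ((if |Real.log a - Real.log A1| < κ then (1 : ℝ) else 0) +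
          (if |Real.log a - Real.log A2| < κ then (1 : ℝ) else 0) + 2 * gs (κ / η)) := by
          refine sum_le_sum fun a ha => ?_
          rw [abs_mul]
          refine (mul_le_of_le_one_right (abs_nonneg _) (hα a)).trans ?_
          have w := win_one hη hy a (a ∈ Ioc A1 A2)
          by_cases e1 : |Real.log a - Real.log A1| < κ
          · rw [if_pos e1]
            split_ifs at w ⊢ <;> linarith
          by_cases e2 : |Real.log a - Real.log A2| < κ
          · rw [if_neg e1, if_pos e2]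
            linarith
          · rw [if_neg e1, if_neg e2]
            linarith [win_close hη h0.le h1 h12 (hJ a ha) (not_lt.1 e1) (not_lt.1 e2)]
      _ ≤ _ := by
          rw [sum_add_distrib, sum_add_distrib, sum_const, nsmul_eq_mul]
          have w1 := win_edge p1 h0 hκ hJ
          have w2 := win_edge p2 h0 hκ hJ
          nlinarith
  · set T : ℝ := K * (S.card * (J.card * (gs (κ / η) * (1 + W)))) with hT
    have hT0 : 0 ≤ T := by
      have := gs_pos (κ / η)
      positivity
    have a1 : tb K W S β (Ioc A1 A2) α ≤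
        tb K W S β J (fun a => win_om η (Real.log A1) (Real.log A2) a * α a) +
        tb K W S β J (fun a => ((if a ∈ Ioc A1 A2 then (1 : ℝ) else 0) -
          win_om η (Real.log A1) (Real.log A2) a) * α a) := by
      rw [tb_ite β α hsub]
      refine le_trans (le_of_eq (tb_congr (fun _ _ => rfl) fun a _ => ?_)) (tb_add_le _ _ _ _ _ _ _)
      split_ifs <;> ring
    have a2 : IB (Real.log A1) (Real.log A2) (fun y => tb K W S β J (wd η y α)) (s + T) := by
      refine ((hB.smul (c := 1 / (2 * s)) (by positivity)).add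
        (ib_const (c := s / 2 + T) hy1 (by positivity))).mono (fun y a b => ?_) (le_of_eq ?_)
      · have b1 := tb_sdiff_le (K := K) (W := W) (S := S) β (wd η y α) (hI y a b)
        have b2 : tb K W S β (J \ Iw κ y) (wd η y α) ≤ T := by
          refine (cell_triv K W (Ω := gs (κ / η)) hβ fun c hc => ?_).trans ?_
          · rw [wd, abs_mul, abs_of_pos (gw_pos _ _ _)]
            exact (mul_le_of_le_one_right (gw_pos _ _ _).le (hα c)).trans
              (gw_far η h0.le (hJ c (mem_sdiff.1 hc).1) (mem_sdiff.1 hc).2)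
          · have := gs_pos (κ / η)
            have c1 : ((J \ Iw κ y).card : ℝ) ≤ J.card := by
              exact_mod_cast card_le_card sdiff_subset
            rw [hT]
            gcongr
        have b3 := win_am hs (le_refl (tb K W S β (Iw κ y) (wd η y α) ^ 2))
        linarith
      · field_simp
        ring
    obtain ⟨Φ, c1, c2, c3⟩ := a2
    have a3 : ∫ y in Real.log A1..Real.log A2, tb K W S β J (wd η y α) ≤ s + T :=
      (intervalIntegral.integral_mono_on hy ((win_cont K W S J β α η).intervalIntegrable _ _)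
        (c1.intervalIntegrable _ _) fun y hy => c2 y hy.1 hy.2).trans c3
    have a4 := win_int K W S J β α hη hy
    have a5 : 1 / η * ∫ y in Real.log A1..Real.log A2, tb K W S β J (wd η y α) ≤
        s / η + T / η := by
      refine (mul_le_mul_of_nonneg_left a3 (by positivity)).trans (le_of_eq ?_)
      ring
    linarith

end Pool.Agent.P.MP_8be758_nt.Av3
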