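import Pool.Agent.P.MP_8be758_nt.Av3.UPG
import Pool.Agent.P.MP_8be758_nt.Av3.UPDb
import Pool.Agent.P.MP_8be758_nt.Av3.UPWb
import Pool.Agent.P.MP_8be758_nt.Av3.HYPb
import Pool.Agent.P.MP_8be758_nt.Av3.GAPb
import Pool.Agent.P.MP_8be758_nt.Av3.PERb
import Pool.Agent.P.MP_8be758_nt.Av3.BXb
import Pool.Agent.P.MP_8be758_nt.Av3.IIb
import Pool.Agent.P.MP_8be758_nt.Av3.RGb
import Pool.Agent.P.MP_8be758_nt.Av3.PRIMb
import Pool.Agent.P.MP_8be758_nt.Av3.OSCb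
import Pool.Agent.P.MP_8be758_nt.Av3.QF0b
import Pool.Agent.P.MP_8be758_nt.Av3.QFb
import Pool.Agent.P.MP_8be758_nt.Av3.CELL0b
import Pool.Agent.P.MP_8be758_nt.Av3.CELLb
import Pool.Agent.P.MP_8be758_nt.Av3.SWAPb
import Pool.Agent.P.MP_8be758_nt.Av3.SMOb
import Pool.Agent.P.MP_8be758_nt.Av3.REPb
import Pool.Agent.P.MP_8be758_nt.Av3.SW2b
import Pool.Agent.P.MP_8be758_nt.Av3.EDGb
import Pool.Agent.P.MP_8be758_nt.Av3.BOXb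
import Pool.Agent.P.MP_8be758_nt.Av3.IIIb
import Pool.Agent.P.MP_8be758_nt.Av3.TIb
import Pool.Agent.P.MP_8be758_nt.Av3.COb
import Pool.Agent.P.MP_8be758_nt.Av3.Ib
import Pool.Agent.P.MP_8be758_nt.Av3.HBIb
import Pool.Agent.P.MP_8be758_nt.Av3.EXPb
import Pool.Agent.P.MP_8be758_nt.Av3.G1b
import Pool.Agent.P.MP_8be758_nt.Av3.G3b
import Pool.Agent.P.MP_8be758_nt.Av3.PR3b
import Pool.Agent.P.MP_8be758_nt.Av3.PR2b
import Pool.Agent.P.MP_8be758_nt.Av3.PR1b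
import Pool.Agent.P.MP_8be758_nt.Av3.HBb
import Pool.Agent.P.MP_8be758_nt.Av3.COREb
import Pool.Agent.P.MP_8be758_nt.Av3.PIECESb
import Pool.Agent.P.MP_8be758_nt.Av3.FINALb
import Pool.Agent.P.MP_8be758_nt.Av3.BMP
import Pool.Agent.P.MP_8be758_nt.Av3.VD1
import Pool.Agent.P.MP_8be758_nt.Av3.VD2
import Pool.Agent.P.MP_8be758_nt.Av3.VD
import Pool.Agent.P.MP_8be758_nt.Av3.OVL
import Pool.Agent.P.MP_8be758_nt.Av3.VREP
import Pool.Agent.P.MP_8be758_nt.Av3.WMV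
import Pool.Agent.P.MP_8be758_nt.Av3.MOMG
import Pool.Agent.P.MP_8be758_nt.Av3.M46
import Pool.Agent.P.MP_8be758_nt.Av3.CNT8
import Pool.Agent.P.MP_8be758_nt.Av3.J8
import Pool.Agent.P.MP_8be758_nt.Av3.EB
import Pool.Agent.P.MP_8be758_nt.Av3.EE
import Pool.Agent.P.MP_8be758_nt.Av3.BIL
import Pool.Agent.P.MP_8be758_nt.Av3.QY
import Pool.Agent.P.MP_8be758_nt.Av3.QW
import Pool.Agent.P.MP_8be758_nt.Av3.CLS
import Pool.Agent.P.MP_8be758_nt.Av3.LAYC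
import Pool.Agent.P.MP_8be758_nt.Av3.MNT
import Pool.Agent.P.MP_8be758_nt.Av3.DG0
import Pool.Agent.P.MP_8be758_nt.Av3.DGI
import Pool.Agent.P.MP_8be758_nt.Av3.PMJ
import Pool.Agent.P.MP_8be758_nt.Av3.FZG
import Pool.Agent.P.MP_8be758_nt.Av3.PSN
import Pool.Agent.P.MP_8be758_nt.Av3.PT
import Pool.Agent.P.MP_8be758_nt.Av3.QI
import Pool.Agent.P.MP_8be758_nt.Av3.E40
import Pool.Agent.P.MP_8be758_nt.Av3.WIN
import Pool.Agent.P.MP_8be758_nt.Av3.NUM1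
import Pool.Agent.P.MP_8be758_nt.Av3.NUM2
import Pool.Agent.P.MP_8be758_nt.Av3.E4
import Pool.Agent.P.MP_8be758_nt.Av3.HARM
import Pool.Agent.P.MP_8be758_nt.Av3.MJ1
import Pool.Agent.P.MP_8be758_nt.Av3.MAJ0
import Pool.Agent.P.MP_8be758_nt.Av3.MAJ
import Pool.Agent.P.MP_8be758_nt.Av3.SWAP4
import Pool.Agent.P.MP_8be758_nt.Av3.REP4
import Pool.Agent.P.MP_8be758_nt.Av3.SW4
import Pool.Agent.P.MP_8be758_nt.Av3.IV
import Pool.Agent.P.MP_8be758_nt.Av3.G4b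

/-! Assembly of all the steps. -/

namespace Pool.Agent.P.MP_8be758_nt.Av3

open Finset Real Filter Topology
open Pool.Agent.P.MP_8be758_nt.Avg Pool.Agent.P.MP_8be758_nt.Av2

/-- the range of long averages, from the earlier project -/
theorem core_hi (δ : ℝ) (hδ : 0 < δ) : S_CORE2 (81 / 100) δ := by
  have h45 : (4 / 5 : ℝ) ≤ 81 / 100 := by norm_num
  have hQF := t_QF (t_QF0 t_PRIM t_FRZ) (t_OSC3 t_PB t_TH t_CG lib_CH)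
  have hCELL := t_CELL (t_CELL0 hQF t_MD) lib_GA lib_ZF lib_WW
  have hUPW := t_UPW t_UPD2
  have hBOX3 := t_BOX3 (t_SW2 t_FLT (t_REP (t_SMO lib_WW) t_SVS) (t_SWAP hCELL) hUPW) t_EDG hUPW
  have hHYP := t_HYP t_UPD2
  have hII : ∀ θ' β : ℝ, 4 / 5 ≤ θ' → 13 / 20 ≤ β → 2 - 3 * θ' / 2 < β → S_II2 θ' δ β :=
    fun θ' β h1 h2 h3 => t_II2 hHYP (t_GAP2 t_UPD2) θ' _ β h1 h2
      (t_BX2 t_PER2 θ' _ β h1 hδ h2 h3)
  have hIII := t_III hHYP hBOX3 _ _ h45 (t_RG _ _ (hII _ _ h45 (by norm_num) (by norm_num)))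
    (hII _ _ (by norm_num) le_rfl (by norm_num))
  have hG2 := t_G2 _ _ _ (hII _ (79 / 100) h45 (by norm_num) (by norm_num))
  have hPR3 := t_PR3 t_EXP t_PRB _ _ (79 / 100) (1 / 4000) (by norm_num) (by norm_num)
    (by norm_num) (by norm_num) (by norm_num) (by norm_num) hG2 (t_G3 t_LAY _ _ hIII)
  have hPR1 := t_PR1 t_PRB _ _ _ (by norm_num) (by norm_num)
    (t_G1 _ _ h45 (t_I2 t_KER2 t_TI2 _ _ (by norm_num) hδ)) hG2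
    (t_PR2 _ _ _ _ (by norm_num) (by norm_num) hPR3)
  exact t_CORE2 _ _ h45 (t_HB t_HBI _ _ hPR1)

theorem core_cmb {θ δ : ℝ} (h1 : S_CORE2 θ (119 / 100)) (h2 : S_CORE2 (81 / 100) δ) :
    S_CORE2 θ δ := by
  intro ε hε
  obtain ⟨R1, h1⟩ := h1 ε hε
  obtain ⟨R2, h2⟩ := h2 ε hε
  refine ⟨max R1 R2, fun R hR => ?_⟩
  filter_upwards [h1 R (le_of_max_le_left hR), h2 R (le_of_max_le_right hR)] with N g1 g2 K X1 X2 hS
  rcases le_total (K : ℝ) (N ^ (81 / 100 : ℝ)) with h | h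
  · exact g1 K X1 X2 ⟨hS.lo, h.trans_eq (by norm_num), hS.x1, hS.x12, hS.x2⟩
  · exact g2 K X1 X2 ⟨h, hS.hi, hS.x1, hS.x12, hS.x2⟩

theorem core_E40 : S_E40 :=
  t_E40 (t_QI (t_QW (t_VREP (t_VD t_BMP t_VD1 t_VD2) t_OVL)
    (t_EE (t_M46 (t_MOMG t_WMV)) (t_J8 t_WMV t_CNT8) t_EB) t_BIL t_QY) t_CLS (t_MNT t_LAYC)
    (t_DGI t_DG0) (t_PT t_PMJ t_FZG t_PSN)) (t_MNT t_LAYC)

theorem core_lo (θ : ℝ) (h0 : 8 / 11 < θ) (h1 : θ ≤ 8 / 11 + 1 / 100) :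
    S_CORE2 θ (119 / 100) := by
  have h7 : 7 / 10 ≤ θ := by linarith
  have hP : Pm θ ((θ - 8 / 11) / 1000000) := ⟨by linarith, by linarith, h1⟩
  have hz := hP.z1
  have hUPD := t_UPDb t_UPG
  have hUPW := t_UPWb hUPD
  have hHYP := t_HYPb hUPD
  have hII : ∀ β : ℝ, 4 / 5 ≤ β → 2 - 3 * θ / 2 < β → S_II2 θ (119 / 100) β :=
    fun β h2 h3 => t_IIb hHYP (t_GAPb hUPD) θ _ β h7 (by linarith)
      (t_BXb t_PERb θ _ β h7 (by norm_num) h2 h3)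
  have hRG := t_RGb θ _ (hII _ (by norm_num) (by linarith))
  have hCELL := t_CELLb (t_CELL0b (t_QFb (t_QF0b (t_PRIMb t_UPG)) t_OSCb)) θ _ hP
  have hSW := t_SW2b hUPW θ _ hP
    (t_REPb _ hP.z0 (by linarith) (t_SMOb _ hP.z0 (by linarith))) (t_SWAPb θ _ hP hCELL)
  have hIII := t_IIIb hHYP θ h7 (t_BOXb t_EDGb hUPW θ h7 hSW) hRG
  have hE4 := t_E4 core_E40 t_WIN hUPW θ _ hP (t_NUM1 θ _ hP) (t_NUM2 θ _ hP)
  have hIV := t_IV hHYP θ h7 h1 (t_SW4 hUPW t_REP4 θ _ hP (t_SWAP4 θ _ hP hE4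
    (t_MAJ (t_MAJ0 (t_MJ1 (t_HARM t_LAYC))) _ hP.z0 (by linarith)))) hRG
  have hG2 := t_G2 θ _ _ (hII (10 / 11 - (θ - 8 / 11)) (by linarith) (by linarith))
  have hPR3 := t_PR3b t_EXPb θ _ ((θ - 8 / 11) / 200) (by linarith) (by linarith) h1 rfl hG2
    (t_G3b θ hIII) (t_G4b θ hIV)
  have hPR1 := t_PR1b θ _ (by linarith) (by linarith) (t_G1b θ h7 (t_Ib t_TIb t_COb θ h7)) hG2
    (t_PR2b θ _ _ (by linarith) (by linarith) hPR3)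
  exact t_COREb θ _ h7 (t_HBb t_HBIb θ hPR1)

theorem core_mono {θ θ' δ : ℝ} (h : S_CORE2 θ δ) (hθ : θ ≤ θ') : S_CORE2 θ' δ := by
  intro ε hε
  obtain ⟨R1, h⟩ := h ε hε
  refine ⟨R1, fun R hR => ?_⟩
  filter_upwards [h R hR, eventually_ge_atTop 1] with N g hN K X1 X2 hS
  exact g K X1 X2 (hS.mono hθ le_rfl hN)

theorem all_steps3 (θ δ : ℝ) (hθ : 8 / 11 < θ) (hδ : 0 < δ) : S_FINAL2 θ δ := by
  have h7 : 7 / 10 ≤ θ := by linarith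
  have h1 := core_lo (min θ (8 / 11 + 1 / 100)) (lt_min hθ (by norm_num)) (min_le_right _ _)
  exact t_FINALb θ δ h7 hδ (t_PIECESb θ δ h7 hδ
    (core_cmb (core_mono h1 (min_le_left _ _)) (core_hi _ (half_pos hδ))))

end Pool.Agent.P.MP_8be758_nt.Av3
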