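import Pool.Agent.P.MP_8be758_nt.Av3.Basic

/-! The step `S_BOXb`. -/

namespace Pool.Agent.P.MP_8be758_nt.Av3

open Finset Real Filter Topology
open Pool.Agent.P.MP_e86632_nt (ee)
open Pool.Agent.P.MP_8be758_nt.Avg Pool.Agent.P.MP_8be758_nt.Av2

theorem boxb_lam {N B : ℝ} {A1 U1 U2 V1 V2 : ℕ} (hN : 1 ≤ N) (hB : 0 < B)
    (h1 : 24 / 25 * N ^ 2 ≤ A1 * B) (hU : N ^ (1 / 6 : ℝ) ≤ U1) (hV : N ^ (1 / 6 : ℝ) ≤ V1)
    (hU2 : (U2 : ℝ) ≤ U1 * N ^ (1 / 20 : ℝ)) (h : lamB N B U1 U2 V1 V2 ≠ 1) :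
    loB N B U1 V2 * lamB N B U1 U2 V1 V2 * N ^ (1 / 10 : ℝ) ≤ A1 ∧
      lamB N B U1 U2 V1 V2 ≤ N ^ (1 / 20 : ℝ) := by
  have hN0 : 0 < N := by linarith
  have p5 : 0 < N ^ (1 / 6 : ℝ) := Real.rpow_pos_of_pos hN0 _
  have hU0 : (0 : ℝ) < U1 := p5.trans_le hU
  have hV0 : (0 : ℝ) < V1 := p5.trans_le hV
  have l1 : (U1 : ℝ) ≤ loB N B U1 V2 := le_max_left _ _
  have l0 : 0 < loB N B U1 V2 := hU0.trans_le l1
  have e : lamB N B U1 U2 V1 V2 = min (U2 : ℝ) (24 / 25 * N ^ 2 / (B * V1)) / loB N B U1 V2 := by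
    rcases max_choice 1 (min (U2 : ℝ) (24 / 25 * N ^ 2 / (B * V1)) / loB N B U1 V2) with h2 | h2
    · exact absurd h2 h
    · exact h2
  rw [e]
  constructor
  · rw [mul_div_cancel₀ _ l0.ne']
    have a1 : N ^ (1 / 10 : ℝ) ≤ V1 :=
      (Real.rpow_le_rpow_of_exponent_le hN (by norm_num)).trans hV
    calc _ ≤ 24 / 25 * N ^ 2 / (B * V1) * V1 := by
          gcongr
          exact min_le_right _ _
      _ = 24 / 25 * N ^ 2 / B := by field_simp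
      _ ≤ _ := by rwa [div_le_iff₀ hB]
  · rw [div_le_iff₀ l0]
    have p : 0 < N ^ (1 / 20 : ℝ) := Real.rpow_pos_of_pos hN0 _
    calc _ ≤ (U2 : ℝ) := min_le_left _ _
      _ ≤ U1 * N ^ (1 / 20 : ℝ) := hU2
      _ ≤ loB N B U1 V2 * N ^ (1 / 20 : ℝ) := by gcongr
      _ = _ := mul_comm _ _

theorem t_BOXb (hEDGb : S_EDGb) (hUPWb : S_UPWb) (θ : ℝ) (hθ : 7 / 10 ≤ θ) (hS : S_SW2b θ) : S_BOXb θ := by
  intro j ε hε
  obtain ⟨e0, he0, hS⟩ := hS j (ε / 2) (by positivity)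
  obtain ⟨CE, hCE, hE⟩ := hEDGb
  obtain ⟨CU, hCU, hP⟩ := hUPWb
  refine ⟨min e0 (1 / 30), by positivity, fun e1 he1 he2 W hW => ?_⟩
  filter_upwards [hS e1 he1 (he2.trans (min_le_left _ _)) W hW,
    hE e1 he1 (he2.trans (min_le_right _ _)), hP W hW, ev_zq_tau (show (0 : ℝ) < 1 / 10000 by norm_num) 2,
    ev_log (2 * CU * CE / e1 ^ 2 / (ε / 2 * e1 ^ j)), ev_log 2,
    ev_pow 1 4 (show (1 / 10000 + 49 / 50 : ℝ) < 1 by norm_num),
    ev_const (6 / 5) (show (0 : ℝ) < 13 / 20 by norm_num),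
    eventually_ge_atTop 1] with N k1 k2 k3 k4 k5 k6 k7 k9 hN
  intro K A1 A2 U1 U2 V1 V2 B x S β hT h1 h2 hU hV hV2 hU2 hx1 hx2
  have hN0 : 0 < N := by linarith
  have hB1 : 6 / 5 ≤ B := k9.trans (hT.b13 hN)
  have hB : 0 < B := by linarith
  have hL : 0 < Real.log N := by linarith
  have hK : (0 : ℝ) ≤ K := Nat.cast_nonneg _
  set σ := ∑ b ∈ S, |β b| / b with hσ
  have hσ0 : 0 ≤ σ := sum_nonneg fun _ _ => by positivity
  set lo := loB N B U1 V2 with hlo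
  set lam := lamB N B U1 U2 V1 V2 with hlam
  have hη : 0 < ε / 2 * e1 ^ j := by positivity
  have q1 : tb K W S β (Ioc A1 A2)
      (fun a => tauR (N ^ e1) U1 U2 V1 V2 a - tauJ (N ^ e1) lo (lo * lam) a) ≤
      (ε / 2 * e1 ^ j * σ + 1 / Real.log N ^ 3) * K * N / Real.log N := by
    have hs : ∑ b ∈ S, |β b| ≤ 2 * B * σ := by
      rw [hσ, mul_sum]
      refine sum_le_sum fun b hb => ?_
      obtain ⟨b1, b2, -⟩ := hT.s b hb
      have b0 : (0 : ℝ) < b := hB.trans_le b1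
      rw [← mul_div_assoc, le_div_iff₀ b0, mul_comm]
      gcongr
    refine box3_arith hCU hK hN0 hσ0 hB he1 hL (sum_nonneg fun _ _ => abs_nonneg _) hs
      (k2 B A1 A2 U1 U2 V1 V2 (by linarith) h1 h2 hU hV hV2) ?_ (Z := Zq (1 / 10000) N)
      (P := N ^ (49 / 50 : ℝ)) ?_
      (k3 K B (Zq (1 / 10000) N) S (Ioc A1 A2) β _
        ((Real.rpow_le_rpow_of_exponent_le hN hθ).trans hT.lo) (hT.b13 hN)
        (hT.b2.trans (Real.rpow_le_rpow_of_exponent_le hN (by norm_num)))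
        (fun b hb => ⟨(hT.s b hb).1, (hT.s b hb).2.1⟩) (ioc_sub_AR hB h1 h2) hT.c
        (zq_pos hN0 _).le fun a ha => ?_)
    · rwa [div_le_iff₀' hη] at k5
    · rwa [one_mul, Real.rpow_add hN0, Real.rpow_one] at k7
    · have a2 : (a : ℝ) ≤ A2 := by exact_mod_cast (mem_Ioc.1 ha).2
      have a0 : (0 : ℝ) ≤ A2 := Nat.cast_nonneg _
      have a3 : (a : ℝ) ≤ N ^ 2 := by nlinarith
      have a4 := k4 a a3
      have a5 := box3_tauR (N ^ e1) U1 U2 V1 V2 a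
      have a6 := box3_tauJ (N ^ e1) lo (lo * lam) a
      rw [abs_le]
      constructor <;> linarith [a5.1, a5.2, a6.1, a6.2]
  have q2 : tb K W S β (Ioc A1 A2) (fun a => tauJ (N ^ e1) lo (lo * lam) a -
      tauJ (N ^ e1) x (x * lam) a) ≤
      (ε / 2 * e1 ^ j * σ + 1 / Real.log N ^ 3) * K * N / Real.log N := by
    by_cases hl : lam = 1
    · rw [hl]
      simp only [mul_one, box3_self, sub_zero]
      refine le_trans (le_of_eq ?_) (by positivity)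
      simp [tb]
    · obtain ⟨c1, c2⟩ := boxb_lam (V2 := V2) hN hB h1 hU hV hU2 hl
      refine k1 K A1 A2 B lo x lam S β hT h1 h2 (le_max_left _ _) ?_ hx1 c1 ?_
      · exact ((Real.rpow_le_rpow_of_exponent_le hN (by norm_num)).trans hU).trans
          (le_max_left _ _)
      · have p2 : 0 < N ^ (1 / 10 : ℝ) := Real.rpow_pos_of_pos hN0 _
        have p1 : 0 < x := p2.trans_le hx1
        calc _ ≤ x * N ^ (1 / 20 : ℝ) * N ^ (1 / 10 : ℝ) := by gcongr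
          _ = x * N ^ (3 / 20 : ℝ) := by rw [mul_assoc, ← Real.rpow_add hN0]; norm_num
          _ ≤ _ := hx2
  have q3 := tb_add_le K W S β (Ioc A1 A2)
    (fun a => tauR (N ^ e1) U1 U2 V1 V2 a - tauJ (N ^ e1) lo (lo * lam) a)
    (fun a => tauJ (N ^ e1) lo (lo * lam) a -
      tauJ (N ^ e1) x (x * lam) a)
  simp only [sub_add_sub_cancel] at q3
  refine (q3.trans (add_le_add q1 q2)).trans ?_
  have r1 : 2 * (1 / Real.log N ^ 3) ≤ 1 / Real.log N ^ 2 := by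
    rw [mul_one_div, div_le_div_iff₀ (by positivity) (by positivity)]
    nlinarith [sq_nonneg (Real.log N)]
  calc _ = (ε * e1 ^ j * σ + 2 * (1 / Real.log N ^ 3)) * K * N / Real.log N := by ring
    _ ≤ _ := by gcongr

end Pool.Agent.P.MP_8be758_nt.Av3
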