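import Pool.Agent.P.MP_8be758_nt.Av3.IfB

/-! Small facts about the definitions of the type IV estimate. -/

namespace Pool.Agent.P.MP_8be758_nt.Av3

open Finset Real Filter Topology
open Pool.Agent.P.MP_e86632_nt (ee)
open Pool.Agent.P.MP_8be758_nt.Avg Pool.Agent.P.MP_8be758_nt.Av2

/-! ### upper integrals -/

theorem IB.mono {y1 y2 E E' : ℝ} {X X' : ℝ → ℝ} (h : IB y1 y2 X E)
    (hX : ∀ y, y1 ≤ y → y ≤ y2 → X' y ≤ X y) (hE : E ≤ E') : IB y1 y2 X' E' := by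
  obtain ⟨Φ, h1, h2, h3⟩ := h
  exact ⟨Φ, h1, fun y a b => (hX y a b).trans (h2 y a b), h3.trans hE⟩

theorem IB.add {y1 y2 E E' : ℝ} {X X' : ℝ → ℝ} (h : IB y1 y2 X E) (h' : IB y1 y2 X' E') :
    IB y1 y2 (fun y => X y + X' y) (E + E') := by
  obtain ⟨Φ, h1, h2, h3⟩ := h
  obtain ⟨Ψ, g1, g2, g3⟩ := h'
  refine ⟨fun y => Φ y + Ψ y, h1.add g1, fun y a b => add_le_add (h2 y a b) (g2 y a b), ?_⟩
  rw [intervalIntegral.integral_add (h1.intervalIntegrable _ _) (g1.intervalIntegrable _ _)]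
  exact add_le_add h3 g3

theorem IB.smul {y1 y2 E c : ℝ} {X : ℝ → ℝ} (h : IB y1 y2 X E) (hc : 0 ≤ c) :
    IB y1 y2 (fun y => c * X y) (c * E) := by
  obtain ⟨Φ, h1, h2, h3⟩ := h
  refine ⟨fun y => c * Φ y, continuous_const.mul h1,
    fun y a b => mul_le_mul_of_nonneg_left (h2 y a b) hc, ?_⟩
  rw [intervalIntegral.integral_const_mul]
  exact mul_le_mul_of_nonneg_left h3 hc

theorem ib_const {y1 y2 c : ℝ} (h : y2 ≤ y1 + 1) (hc : 0 ≤ c) : IB y1 y2 (fun _ => c) c := by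
  refine ⟨fun _ => c, continuous_const, fun _ _ _ => le_rfl, ?_⟩
  rw [intervalIntegral.integral_const, smul_eq_mul]
  exact mul_le_of_le_one_left hc (by linarith)

theorem ib_sum {ι : Type*} {y1 y2 : ℝ} (s : Finset ι) {X : ι → ℝ → ℝ} {E : ι → ℝ}
    (h : ∀ i ∈ s, IB y1 y2 (X i) (E i)) :
    IB y1 y2 (fun y => ∑ i ∈ s, X i y) (∑ i ∈ s, E i) := by
  classical
  induction s using Finset.induction_on with
  | empty => exact ⟨fun _ => 0, continuous_const, fun _ _ _ => by simp, by simp⟩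
  | insert i s hi ih =>
    simp only [sum_insert hi]
    exact (h i (mem_insert_self _ _)).add (ih fun j hj => h j (mem_insert_of_mem hj))

theorem ib_sum_le {ι : Type*} {y1 y2 E : ℝ} (s : Finset ι) {X : ι → ℝ → ℝ}
    (h : ∀ i ∈ s, IB y1 y2 (X i) E) : IB y1 y2 (fun y => ∑ i ∈ s, X i y) (s.card * E) := by
  simpa using ib_sum s h

/-! ### windows -/

theorem mem_Iw {κ y : ℝ} {a : ℕ} :
    a ∈ Iw κ y ↔ Real.exp (y - κ) < a ∧ (a : ℝ) ≤ Real.exp (y + κ) := by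
  rw [Iw, mem_Ioc, Nat.floor_lt (Real.exp_pos _).le, Nat.le_floor_iff (Real.exp_pos _).le]

theorem Iw_pos {κ y : ℝ} {a : ℕ} (h : a ∈ Iw κ y) : 1 ≤ a :=
  Nat.succ_le_of_lt ((Nat.zero_le _).trans_lt (mem_Ioc.1 h).1)

theorem mem_Iw_log {κ y : ℝ} {a : ℕ} (ha : 1 ≤ a) :
    a ∈ Iw κ y ↔ y - κ < Real.log a ∧ Real.log a ≤ y + κ := by
  have h : (0 : ℝ) < a := by exact_mod_cast ha
  rw [mem_Iw, Real.lt_log_iff_exp_lt h, Real.log_le_iff_le_exp h]

theorem Iw_log {κ y : ℝ} {a : ℕ} (h : a ∈ Iw κ y) : |Real.log a - y| ≤ κ := by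
  have := (mem_Iw_log (Iw_pos h)).1 h
  exact abs_le.2 ⟨by linarith [this.1], by linarith [this.2]⟩

theorem Iw_far {κ y : ℝ} {a : ℕ} (ha : 1 ≤ a) (h : a ∉ Iw κ y) : κ ≤ |y - Real.log a| := by
  rw [mem_Iw_log ha, not_and_or, not_lt, not_le] at h
  rcases h with h | h
  · exact le_abs.2 (Or.inl (by linarith))
  · exact le_abs.2 (Or.inr (by linarith))

theorem exp_le_lin {x : ℝ} (h0 : 0 ≤ x) (h1 : x ≤ 1 / 4) : Real.exp x ≤ 1 + 3 / 2 * x := by
  have h2 := Real.add_one_le_exp (-x)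
  have h3 : Real.exp x * Real.exp (-x) = 1 := by rw [← Real.exp_add]; simp
  have h4 := Real.exp_pos x
  nlinarith

theorem Iw_nar {κ : ℝ} (h0 : 0 ≤ κ) (h1 : κ ≤ 1 / 20) (y : ℝ) :
    Nar (Real.exp (y - κ)) (3 * κ) (Iw κ y) := fun a ha => by
  refine ⟨(mem_Iw.1 ha).1, (mem_Iw.1 ha).2.trans ?_⟩
  rw [show y + κ = 2 * κ + (y - κ) by ring, Real.exp_add]
  have := exp_le_lin (x := 2 * κ) (by linarith) (by linarith)
  gcongr
  linarith

theorem Iw_rng {κ : ℝ} (h0 : 0 ≤ κ) (h1 : κ ≤ 1 / 20) (y : ℝ) : Rng (Real.exp (y - κ)) (Iw κ y) :=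
  fun a ha => ⟨(Iw_nar h0 h1 y a ha).1, (Iw_nar h0 h1 y a ha).2.trans
    (mul_le_mul_of_nonneg_right (by linarith) (Real.exp_pos _).le)⟩

theorem card_Iw (κ y : ℝ) : ((Iw κ y).card : ℝ) ≤ Real.exp (y + κ) := by
  rw [Iw, Nat.card_Ioc]
  exact le_trans (by exact_mod_cast Nat.sub_le _ _) (Nat.floor_le (Real.exp_pos _).le)

theorem card_Iw' {κ : ℝ} (h0 : 0 ≤ κ) (h1 : κ ≤ 1 / 20) (y : ℝ) :
    ((Iw κ y).card : ℝ) ≤ 3 * κ * Real.exp (y - κ) + 1 :=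
  prim_int _ (Real.exp (y - κ)) (by positivity) fun a ha =>
    ⟨(Iw_nar h0 h1 y a ha).1.le, (Iw_nar h0 h1 y a ha).2.trans_eq (by ring)⟩

theorem gw_pos (η y : ℝ) (a : ℕ) : 0 < gw η y a := gs_pos _

theorem gw_le_one (η y : ℝ) (a : ℕ) : gw η y a ≤ 1 := gs_le_one _

@[fun_prop] theorem continuous_gw (η : ℝ) (a : ℕ) : Continuous fun y => gw η y a := by
  unfold gw; fun_prop

theorem gw_far (η : ℝ) {κ y : ℝ} (hκ : 0 ≤ κ) {a : ℕ} (ha : 1 ≤ a) (h : a ∉ Iw κ y) :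
    gw η y a ≤ gs (κ / η) := by
  refine gs_anti ?_
  rw [abs_div, abs_div, abs_of_nonneg hκ]
  exact div_le_div_of_nonneg_right (Iw_far ha h) (abs_nonneg _)

theorem integrable_gw {η : ℝ} (hη : 0 < η) (a : ℕ) :
    MeasureTheory.Integrable fun y => gw η y a := integrable_gs hη _

theorem integral_gw {η : ℝ} (hη : 0 < η) (a : ℕ) : ∫ y, gw η y a = η := integral_gs hη _

theorem abs_wd_le (η y : ℝ) (α : ℕ → ℝ) (a : ℕ) : |wd η y α a| ≤ |α a| := by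
  rw [wd, abs_mul, abs_of_pos (gw_pos _ _ _)]
  exact mul_le_of_le_one_left (abs_nonneg _) (gw_le_one _ _ _)

/-! ### convolution -/

theorem cv_zero (f g : ℕ → ℝ) : cv f g 0 = 0 := by simp [cv]

theorem cv_AF (f g : ArithmeticFunction ℝ) (n : ℕ) : (f * g) n = cv f g n :=
  ArithmeticFunction.mul_apply

theorem cv_congr {f f' g g' : ℕ → ℝ} {n : ℕ} (h : ∀ u v, u * v = n → n ≠ 0 →
    f u * g v = f' u * g' v) : cv f g n = cv f' g' n :=
  sum_congr rfl fun _ hp => h _ _ (Nat.mem_divisorsAntidiagonal.1 hp).1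
    (Nat.mem_divisorsAntidiagonal.1 hp).2

/-- a function as an arithmetic function -/
noncomputable def toAF (f : ℕ → ℝ) : ArithmeticFunction ℝ :=
  ⟨fun n => if n = 0 then 0 else f n, by simp⟩

theorem cv_toAF (f g : ℕ → ℝ) (n : ℕ) : (toAF f * toAF g) n = cv f g n := by
  rw [cv_AF]
  refine cv_congr fun u v h h0 => ?_
  have hu : u ≠ 0 := fun c => h0 (by rw [← h, c, zero_mul])
  have hv : v ≠ 0 := fun c => h0 (by rw [← h, c, mul_zero])
  simp [toAF, hu, hv]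

theorem toAF_cv (f g : ℕ → ℝ) : toAF (cv f g) = toAF f * toAF g := by
  ext n
  rw [cv_toAF]
  rcases eq_or_ne n 0 with rfl | h
  · simp [cv_zero]
  · simp [toAF, h]

theorem cv_comm (f g : ℕ → ℝ) : cv f g = cv g f := by
  funext n; rw [← cv_toAF, mul_comm, cv_toAF]

theorem cv_assoc (f g h : ℕ → ℝ) : cv (cv f g) h = cv f (cv g h) := by
  funext n; rw [← cv_toAF, ← cv_toAF, toAF_cv, toAF_cv, mul_assoc]

theorem cv_add (f g g' : ℕ → ℝ) (n : ℕ) :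
    cv f (fun u => g u + g' u) n = cv f g n + cv f g' n := by
  simp only [cv, mul_add, sum_add_distrib]

theorem cv_sub (f g g' : ℕ → ℝ) (n : ℕ) :
    cv f (fun u => g u - g' u) n = cv f g n - cv f g' n := by
  simp only [cv, mul_sub, sum_sub_distrib]

theorem cv_smul (f g : ℕ → ℝ) (c : ℝ) (n : ℕ) : cv f (fun u => c * g u) n = c * cv f g n := by
  simp only [cv, mul_sum]; exact sum_congr rfl fun _ _ => by ring

theorem cv_smul_left (f g : ℕ → ℝ) (c : ℝ) (n : ℕ) :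
    cv (fun u => c * f u) g n = c * cv f g n := by
  simp only [cv, mul_sum]; exact sum_congr rfl fun _ _ => by ring

theorem cv_sum {ι : Type*} (s : Finset ι) (f : ℕ → ℝ) (g : ι → ℕ → ℝ) (n : ℕ) :
    cv f (fun u => ∑ i ∈ s, g i u) n = ∑ i ∈ s, cv f (g i) n := by
  simp only [cv, mul_sum]; exact sum_comm

theorem cv_sum_left {ι : Type*} (s : Finset ι) (f : ι → ℕ → ℝ) (g : ℕ → ℝ) (n : ℕ) :
    cv (fun u => ∑ i ∈ s, f i u) g n = ∑ i ∈ s, cv (f i) g n := by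
  simp only [cv, sum_mul]; exact sum_comm

theorem cv_ne_zero {f g : ℕ → ℝ} {n : ℕ} (h : cv f g n ≠ 0) :
    ∃ u v, u * v = n ∧ n ≠ 0 ∧ f u ≠ 0 ∧ g v ≠ 0 := by
  obtain ⟨p, hp, h1⟩ := exists_ne_zero_of_sum_ne_zero h
  exact ⟨p.1, p.2, (Nat.mem_divisorsAntidiagonal.1 hp).1, (Nat.mem_divisorsAntidiagonal.1 hp).2,
    left_ne_zero_of_mul h1, right_ne_zero_of_mul h1⟩

theorem card_dA (n : ℕ) : n.divisorsAntidiagonal.card = n.divisors.card := by
  rw [← Nat.map_div_right_divisors, card_map]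

theorem abs_cv_le {f g : ℕ → ℝ} {n : ℕ} {c : ℝ}
    (h : ∀ u v, u * v = n → n ≠ 0 → |f u| * |g v| ≤ c) : |cv f g n| ≤ n.divisors.card * c := by
  refine (abs_sum_le_sum_abs _ _).trans ?_
  rw [← card_dA, ← nsmul_eq_mul]
  refine sum_le_card_nsmul _ _ _ fun p hp => ?_
  rw [abs_mul]
  exact h _ _ (Nat.mem_divisorsAntidiagonal.1 hp).1 (Nat.mem_divisorsAntidiagonal.1 hp).2

theorem FG.cv_le {U V : ℕ} {f g : ℕ → ℝ} (h : FG U V f g) (n : ℕ) :
    |cv f g n| ≤ n.divisors.card := by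
  simpa using abs_cv_le (f := f) (g := g) (n := n) (c := 1) fun u v _ _ =>
    mul_le_one₀ (h.f1 u) (abs_nonneg _) (h.g1 v)

theorem FG.cv_supp {U V : ℕ} {f g : ℕ → ℝ} (h : FG U V f g) {n : ℕ} (hn : cv f g n ≠ 0) :
    n ≤ U * V := by
  obtain ⟨u, v, rfl, -, h1, h2⟩ := cv_ne_zero hn
  exact Nat.mul_le_mul (h.fU u h1) (h.gV v h2)

theorem bil_cv (X1 X2 : ℕ) (φ ψ f : ℕ → ℝ) :
    bil X1 X2 φ ψ f = ∑ m ∈ Ioc X1 X2, cv φ ψ m * f m := by
  have h : ∀ u, Rough 0 u := fun u p hp _ => by exact_mod_cast hp.pos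
  have := bil_eq_conv 0 X1 X2 φ ψ f
  simp only [h, if_true, filter_true] at this
  exact this

theorem bil_cv_assoc (X1 X2 : ℕ) (β c ψ f : ℕ → ℝ) :
    bil X1 X2 (cv β c) ψ f = bil X1 X2 β (cv c ψ) f := by
  rw [bil_cv, bil_cv, cv_assoc]

theorem rI_bd (z : ℝ) (u : ℕ) : 0 ≤ rI z u ∧ rI z u ≤ 1 := by
  unfold rI; split_ifs <;> norm_num

theorem dv_bd (E u : ℕ) : 0 ≤ dv E u ∧ dv E u ≤ 1 := by
  unfold dv; split_ifs <;> norm_num

theorem cut_pos {x y : ℝ} (f : ℕ → ℝ) {u : ℕ} (h1 : x < u) (h2 : (u : ℝ) ≤ y) :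
    cut x y f u = f u := if_pos ⟨h1, h2⟩

theorem cut_neg {x y : ℝ} (f : ℕ → ℝ) {u : ℕ} (h : ¬ (x < u ∧ (u : ℝ) ≤ y)) : cut x y f u = 0 :=
  if_neg h

theorem cut_ne_zero {x y : ℝ} {f : ℕ → ℝ} {u : ℕ} (h : cut x y f u ≠ 0) :
    x < u ∧ (u : ℝ) ≤ y ∧ f u ≠ 0 := by
  by_cases c : x < u ∧ (u : ℝ) ≤ y
  · exact ⟨c.1, c.2, by rwa [cut_pos f c.1 c.2] at h⟩
  · exact absurd (cut_neg f c) h

theorem abs_cut_le (x y : ℝ) (f : ℕ → ℝ) (u : ℕ) : |cut x y f u| ≤ |f u| := by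
  unfold cut; split_ifs <;> simp

theorem tauR_eq_bx (z : ℝ) (U1 U2 V1 V2 : ℕ) :
    tauR z U1 U2 V1 V2 = bx (rI z) (rI z) U1 U2 V1 V2 := by
  funext a
  rw [tauR, lay_tau, bx, cv]
  split_ifs with h
  · refine sum_congr rfl fun p hp => ?_
    rw [← (Nat.mem_divisorsAntidiagonal.1 hp).1, rough_mul] at h
    simp [cut, rI, h.1, h.2]
  · refine (sum_eq_zero fun p hp => ?_).symm
    rw [← (Nat.mem_divisorsAntidiagonal.1 hp).1, rough_mul, not_and_or] at h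
    rcases h with h | h <;> simp [cut, rI, h]

/-! ### weights -/

theorem WT_pos (T t : ℝ) : 0 < WT T t := by unfold WT; positivity

theorem WT_le_one (T t : ℝ) : WT T t ≤ 1 := by
  unfold WT
  rw [div_le_one (by positivity)]
  linarith [sq_nonneg (t / T)]

@[fun_prop] theorem continuous_WT (T : ℝ) : Continuous (WT T) := by
  unfold WT
  exact continuous_const.div (by fun_prop) fun t => by positivity

theorem WT_anti {T T' t t' : ℝ} (h : |t / T| ≤ |t' / T'|) : WT T' t' ≤ WT T t := by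
  unfold WT
  have := sq_le_sq.2 h
  gcongr

theorem integrable_WT {T : ℝ} (h : 0 < T) : MeasureTheory.Integrable (WT T) := by
  have := integrable_inv_one_add_sq.comp_div h.ne'
  refine this.congr (Filter.Eventually.of_forall fun t => ?_)
  simp [WT]

theorem integral_WT {T : ℝ} (h : 0 < T) : ∫ t, WT T t = π * T := by
  have := MeasureTheory.Measure.integral_comp_div (fun x : ℝ => (1 + x ^ 2)⁻¹) T
  rw [integral_univ_inv_one_add_sq, abs_of_pos h, smul_eq_mul, mul_comm] at this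
  simpa [WT] using this

theorem CB.integrable {a : ℝ → ℝ} (h : CB a) {T : ℝ} (hT : 0 < T) :
    MeasureTheory.Integrable fun t => WT T t * a t := by
  obtain ⟨h1, h2, m, h3⟩ := h
  exact (integrable_WT hT).mul_bdd h1.aestronglyMeasurable (c := m)
    (Filter.Eventually.of_forall fun t => by rw [Real.norm_of_nonneg (h2 t)]; exact h3 t)

theorem CB.mul {a b : ℝ → ℝ} (h : CB a) (h' : CB b) : CB fun t => a t * b t := by
  obtain ⟨h1, h2, m, h3⟩ := h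
  obtain ⟨g1, g2, n, g3⟩ := h'
  exact ⟨h1.mul g1, fun t => mul_nonneg (h2 t) (g2 t), m * n,
    fun t => mul_le_mul (h3 t) (g3 t) (g2 t) ((h2 t).trans (h3 t))⟩

theorem CB.pow {a : ℝ → ℝ} (h : CB a) (n : ℕ) : CB fun t => a t ^ n := by
  obtain ⟨h1, h2, m, h3⟩ := h
  exact ⟨h1.pow n, fun t => pow_nonneg (h2 t) n, m ^ n, fun t => pow_le_pow_left₀ (h2 t) (h3 t) n⟩

theorem CB.pw {a : ℝ → ℝ} (h : CB a) {T c : ℝ} (hT : 0 < T) (hc : 0 ≤ c) :
    PW fun t => c * (WT T t * a t) :=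
  ⟨continuous_const.mul ((continuous_WT T).mul h.1),
    fun t => mul_nonneg hc (mul_nonneg (WT_pos T t).le (h.2.1 t)), (h.integrable hT).const_mul c⟩

theorem kq_pos {R : ℝ} (h : 0 < R) (τ : ℝ) : 0 < kq R τ := div_pos (gs_pos _) h

theorem kq_neg (R τ : ℝ) : kq R (-τ) = kq R τ := by rw [kq, kq, neg_div, gs_neg]

@[fun_prop] theorem continuous_kq (R : ℝ) : Continuous (kq R) := by unfold kq; fun_prop

theorem integrable_kq {R : ℝ} (h : 0 < R) : MeasureTheory.Integrable (kq R) := by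
  have := (integrable_gs h 0).div_const R
  simp only [sub_zero] at this
  exact this

theorem integral_kq {R : ℝ} (h : 0 < R) : ∫ τ, kq R τ = 1 := by
  have := integral_gs h 0
  simp only [sub_zero] at this
  simp only [kq, MeasureTheory.integral_div, this, div_self h.ne']

/-- the Gaussian as a Fourier integral -/
theorem kq_ft {R : ℝ} (h : 0 < R) (l : ℝ) :
    ∫ τ : ℝ, (kq R τ : ℂ) * ee (τ * l) = (gs (R * l) : ℂ) := by
  have hb : 0 < (((π / R ^ 2 : ℝ)) : ℂ).re := by rw [Complex.ofReal_re]; positivity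
  have h1 := fourierIntegral_gaussian hb ((2 * π * l : ℝ) : ℂ)
  have hR : (R : ℂ) ≠ 0 := by exact_mod_cast h.ne'
  have hp : (π : ℂ) ≠ 0 := by exact_mod_cast Real.pi_pos.ne'
  have e1 : ∀ τ : ℝ, (kq R τ : ℂ) * ee (τ * l) = (1 / R : ℂ) *
      (Complex.exp (Complex.I * ((2 * π * l : ℝ) : ℂ) * τ) *
        Complex.exp (-((π / R ^ 2 : ℝ) : ℂ) * τ ^ 2)) := fun τ => by
    rw [kq, gs, ee]
    push_cast
    rw [show -((π : ℂ) * (τ / R) ^ 2) = -(π / R ^ 2) * τ ^ 2 by field_simp,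
      show Complex.I * (2 * π * (τ * l)) = Complex.I * (2 * π * l) * τ by ring]
    ring
  simp only [e1]
  rw [MeasureTheory.integral_const_mul, h1]
  have e2 : ((π : ℂ) / ((π / R ^ 2 : ℝ) : ℂ)) ^ (1 / 2 : ℂ) = R := by
    rw [show (π : ℂ) / ((π / R ^ 2 : ℝ) : ℂ) = ((R ^ 2 : ℝ) : ℂ) by push_cast; field_simp,
      show (1 / 2 : ℂ) = ((1 / 2 : ℝ) : ℂ) by push_cast; rfl,
      ← Complex.ofReal_cpow (by positivity), ← Real.sqrt_eq_rpow, Real.sqrt_sq h.le]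
  rw [e2, gs]
  push_cast
  rw [show -(2 * (π : ℂ) * l) ^ 2 / (4 * (π / R ^ 2)) = -(π * (R * l) ^ 2) by field_simp; ring]
  field_simp

/-! ### Dirichlet polynomials -/

@[fun_prop] theorem continuous_dp (I : Finset ℕ) (d : ℕ → ℂ) : Continuous (dp I d) := by
  unfold dp; fun_prop

theorem norm_dp_le (I : Finset ℕ) (d : ℕ → ℂ) (s : ℝ) : ‖dp I d s‖ ≤ ∑ a ∈ I, ‖d a‖ :=
  (norm_sum_le _ _).trans (sum_le_sum fun a _ => by simp)

theorem cb_dp (I : Finset ℕ) (d : ℕ → ℂ) (x : ℝ) : CB fun t => ‖dp I d (t / 2 + x)‖ :=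
  ⟨by fun_prop, fun _ => norm_nonneg _, _, fun _ => norm_dp_le _ _ _⟩

theorem Jm_nonneg (J L : ℕ) (c : ℕ → ℂ) (t : ℝ) : 0 ≤ Jm J L c t := Real.sqrt_nonneg _

theorem Jm_pow (J L : ℕ) (c : ℕ → ℂ) (t : ℝ) :
    Jm J L c t ^ 8 = ∑ w ∈ range (J / L + 1), ‖dp (Wn J L w) c t‖ ^ 8 := by
  rw [Jm, show 8 = 2 * 2 * 2 by norm_num, pow_mul, pow_mul, Real.sq_sqrt (Real.sqrt_nonneg _),
    Real.sq_sqrt (Real.sqrt_nonneg _), Real.sq_sqrt (sum_nonneg fun _ _ => by positivity)]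

theorem le_Jm {J L w : ℕ} (hw : w < J / L + 1) (c : ℕ → ℂ) (t : ℝ) :
    ‖dp (Wn J L w) c t‖ ≤ Jm J L c t := by
  refine (pow_le_pow_iff_left₀ (norm_nonneg _) (Jm_nonneg _ _ _ _) (show 8 ≠ 0 by norm_num)).1 ?_
  rw [Jm_pow]
  exact single_le_sum (f := fun w => ‖dp (Wn J L w) c t‖ ^ 8) (fun _ _ => by positivity)
    (mem_range.2 hw)

theorem card_Wn (J L w : ℕ) : (Wn J L w).card = L := by
  rw [Wn, Nat.card_Ico, add_mul, one_mul]; omega

theorem Wn_len {J L : ℕ} (h : L ≤ J) : (J / L + 1) * L ≤ 2 * J := by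
  have := Nat.div_mul_le_self J L
  rw [add_mul]; omega

theorem mem_Wn_bd {J L w j : ℕ} (h : L ≤ J) (hw : w < J / L + 1) (hj : j ∈ Wn J L w) :
    J ≤ j ∧ j < 3 * J := by
  have h1 := Wn_len h
  have h2 : (w + 1) * L ≤ (J / L + 1) * L := Nat.mul_le_mul_right L hw
  rw [Wn, mem_Ico] at hj
  omega

theorem Jm_le {J L : ℕ} (h : L ≤ J) {c : ℕ → ℂ} (hc : ∀ j, ‖c j‖ ≤ 1) (t : ℝ) :
    Jm J L c t ≤ 2 * J := by
  refine (pow_le_pow_iff_left₀ (Jm_nonneg _ _ _ _) (by positivity) (show 8 ≠ 0 by norm_num)).1 ?_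
  rw [Jm_pow]
  have h1 : ∀ w, ‖dp (Wn J L w) c t‖ ≤ L := fun w => (norm_dp_le _ _ _).trans (by
    simpa [card_Wn] using sum_le_card_nsmul (Wn J L w) _ 1 fun j _ => hc j)
  have h2 : ((J / L + 1 : ℕ) : ℝ) * L ≤ 2 * J := by exact_mod_cast Wn_len h
  have h3 : (1 : ℝ) ≤ (J / L + 1 : ℕ) := by exact_mod_cast Nat.le_add_left 1 _
  calc _ ≤ ∑ _w ∈ range (J / L + 1), (L : ℝ) ^ 8 := sum_le_sum fun w _ => by
        have := h1 w
        gcongr
    _ = ((J / L + 1 : ℕ) : ℝ) * (L : ℝ) ^ 8 := by rw [sum_const, card_range, nsmul_eq_mul]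
    _ ≤ ((J / L + 1 : ℕ) : ℝ) ^ 8 * (L : ℝ) ^ 8 := by
        gcongr
        exact le_self_pow₀ h3 (by norm_num)
    _ ≤ _ := by rw [← mul_pow]; gcongr

@[fun_prop] theorem continuous_Jm (J L : ℕ) (c : ℕ → ℂ) : Continuous (Jm J L c) := by
  unfold Jm; fun_prop

theorem cb_Jm {J L : ℕ} (h : L ≤ J) {c : ℕ → ℂ} (hc : ∀ j, ‖c j‖ ≤ 1) : CB (Jm J L c) :=
  ⟨continuous_Jm J L c, Jm_nonneg J L c, _, Jm_le h hc⟩

theorem Lw_bd {η : ℝ} (h0 : 0 ≤ η) (h1 : η < 1) {J : ℕ} (hJ : 1 ≤ J) :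
    1 ≤ Lw η J ∧ Lw η J ≤ J ∧ η * J < Lw η J ∧ (Lw η J : ℝ) ≤ η * J + 1 := by
  have hJ0 : (0 : ℝ) < J := by exact_mod_cast hJ
  have h2 : 0 ≤ η * J := by positivity
  refine ⟨Nat.le_add_left 1 _, (Nat.floor_lt h2).2 (by nlinarith), ?_, ?_⟩
  · rw [Lw]; push_cast; exact Nat.lt_floor_add_one _
  · rw [Lw]; push_cast; linarith [Nat.floor_le h2]

theorem norm_cj_le (H : ℝ) (j : ℕ) : ‖cj H j‖ ≤ 1 := by
  rw [cj, norm_mul, Pool.Agent.P.MP_e86632_nt.norm_ee, mul_one, Complex.norm_real,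
    Real.norm_of_nonneg (gs_pos _).le]
  exact gs_le_one _

/-! ### unimodal weights -/

theorem log_nat_mono : Monotone fun a : ℕ => Real.log a := fun a b h => by
  rcases Nat.eq_zero_or_pos a with rfl | h0
  · simpa using Real.log_natCast_nonneg b
  · exact Real.log_le_log (by exact_mod_cast h0) (by exact_mod_cast h)

theorem UM.mul {w w' : ℕ → ℝ} (h : UM w) (h' : UM w') : UM fun a => w a * w' a := by
  obtain ⟨p, q, h1, h2, h3, h4, h5⟩ := h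
  obtain ⟨p', q', g1, g2, g3, g4, g5⟩ := h'
  refine ⟨fun a => p a * p' a, fun a => q a * q' a,
    fun a b hab => mul_le_mul (h1 hab) (g1 hab) (g3 a).1 (h3 b).1,
    fun a b hab => mul_le_mul (h2 hab) (g2 hab) (g4 b).1 (h4 a).1,
    fun a => ⟨mul_nonneg (h3 a).1 (g3 a).1, mul_le_one₀ (h3 a).2 (g3 a).1 (g3 a).2⟩,
    fun a => ⟨mul_nonneg (h4 a).1 (g4 a).1, mul_le_one₀ (h4 a).2 (g4 a).1 (g4 a).2⟩,
    fun a => by simp only [h5, g5]; ring⟩

theorem um_gs (c y : ℝ) : UM fun a => gs (c * (Real.log a - y)) := by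
  refine ⟨fun a => gs (c * min (Real.log a - y) 0), fun a => gs (c * max (Real.log a - y) 0),
    fun a b hab => gs_anti ?_, fun a b hab => gs_anti ?_, fun a => ⟨(gs_pos _).le, gs_le_one _⟩,
    fun a => ⟨(gs_pos _).le, gs_le_one _⟩, fun a => ?_⟩
  · have := log_nat_mono hab
    rw [abs_mul, abs_mul, abs_of_nonpos (min_le_right (Real.log b - y) 0),
      abs_of_nonpos (min_le_right (Real.log a - y) 0)]
    exact mul_le_mul_of_nonneg_left (neg_le_neg (min_le_min_right _ (by linarith))) (abs_nonneg _)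
  · have := log_nat_mono hab
    rw [abs_mul, abs_mul, abs_of_nonneg (le_max_right (Real.log a - y) 0),
      abs_of_nonneg (le_max_right (Real.log b - y) 0)]
    exact mul_le_mul_of_nonneg_left (max_le_max_right _ (by linarith)) (abs_nonneg _)
  · rcases le_total (Real.log a - y) 0 with h | h
    · simp [min_eq_left h, max_eq_right h, gs_zero]
    · simp [min_eq_right h, max_eq_left h, gs_zero]

theorem um_gw (η y : ℝ) : UM (gw η y) := by
  have := um_gs (-η⁻¹) y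
  have e : gw η y = fun a : ℕ => gs (-η⁻¹ * (Real.log a - y)) := by
    funext a; rw [gw]; congr 1; ring
  rwa [e]

/-- the weight `min 1 ((exp y / a) ^ c)` -/
theorem um_exp {c : ℝ} (hc : 0 ≤ c) (y : ℝ) :
    UM fun a => min 1 (Real.exp (c * (y - Real.log a))) :=
  ⟨fun _ => 1, fun a => min 1 (Real.exp (c * (y - Real.log a))), monotone_const,
    fun a b hab => min_le_min_left _ (Real.exp_le_exp.2
      (mul_le_mul_of_nonneg_left (by linarith [log_nat_mono hab]) hc)),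
    fun _ => ⟨zero_le_one, le_rfl⟩,
    fun _ => ⟨le_min zero_le_one (Real.exp_pos _).le, min_le_left _ _⟩, fun _ => (one_mul _).symm⟩

theorem Maj.mono {α : ℕ → ℝ} {X Q D e X' Q' D' e' : ℝ} (h : Maj α X Q D e) (hX : X' ≤ X)
    (hQ : Q' ≤ Q) (hD : D' ≤ D) (he : e ≤ e') : Maj α X' Q' D' e' := fun x x' q s h1 h2 h3 h4 =>
  (h x x' q s h1 (h2.trans hQ) (h3.trans hX) (by linarith)).trans he

/-! ### the majorant `cw` -/

theorem cw_pos (B K : ℝ) (b : ℕ) (κ : ℝ) : 0 < cw B K b κ := mul_pos (Real.exp_pos _) (gs_pos _)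

theorem cw_mono {B B' K K' : ℝ} (hB : 0 < B) (hB' : B ≤ B') (hK : 0 < K) (hK' : K ≤ K') (b : ℕ)
    (κ : ℝ) : cw B K b κ ≤ cw B' K' b κ := by
  refine mul_le_mul (Real.exp_le_exp.2 (neg_le_neg ?_)) (gs_anti ?_) (gs_pos _).le
    (Real.exp_pos _).le
  · gcongr
  · rw [abs_div, abs_div, abs_of_pos (by linarith : 0 < 4 * K'), abs_of_pos (by linarith : 0 < 4 * K)]
    gcongr

theorem wt_le_cw {B : ℝ} (hB : 0 < B) (K : ℝ) (b : ℕ) (κ : ℝ) : wt nuo B K b κ ≤ cw B K b κ :=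
  mul_le_mul_of_nonneg_right ((mul_le_of_le_one_left (psi_nonneg hB (Nat.cast_nonneg b))
    (nuo_bd b).2).trans (psi_le_exp B b)) (gs_pos _).le

theorem dg_mono {w w' : ℕ → ℝ → ℝ} {α α' : ℕ → ℝ} {I I' : Finset ℕ} (n0 : ℕ)
    (hw : ∀ b κ, w b κ ≤ w' b κ) (hw' : ∀ b κ, 0 ≤ w' b κ) (hI : I ⊆ I')
    (hα : ∀ a ∈ I, α a ^ 2 ≤ α' a ^ 2) : dg w α I n0 ≤ dg w' α' I' n0 := by
  refine sum_le_sum fun b _ => sum_le_sum fun k _ => ?_
  refine mul_le_mul (hw _ _) (sum_le_sum fun n _ => ?_)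
    (sum_nonneg fun n _ => sum_nonneg fun a _ => by positivity) (hw' _ _)
  refine le_trans (sum_le_sum fun a ha => ?_)
    (sum_le_sum_of_subset_of_nonneg hI fun a _ _ => by positivity)
  split_ifs
  · exact hα a ha
  · exact le_rfl

theorem dg_nonneg {w : ℕ → ℝ → ℝ} (hw : ∀ b κ, 0 ≤ w b κ) (α : ℕ → ℝ) (I : Finset ℕ) (n0 : ℕ) :
    0 ≤ dg w α I n0 := sum_nonneg fun _ _ => sum_nonneg fun _ _ => mul_nonneg (hw _ _)
  (sum_nonneg fun _ _ => sum_nonneg fun _ _ => by positivity)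

/-! ### consequences of the numerical conditions -/

namespace Hq

variable {A B Z : ℝ} {K : ℕ} (h : Hq A B Z K)
include h

theorem z0 : 0 < Z := by linarith [h.z]

theorem z1 : 1 ≤ Z := by linarith [h.z]

theorem pw {m n : ℕ} (hmn : m ≤ n) : Z ^ m ≤ Z ^ n := pow_le_pow_right₀ h.z1 hmn

theorem one (n : ℕ) : 1 ≤ Z ^ n := one_le_pow₀ h.z1

theorem zb : Z ^ 200 ≤ B := le_of_mul_le_mul_right (h.ab.trans (h.b2.trans_eq (sq B))) h.b0

theorem b1 : 1 ≤ B := (h.one _).trans h.zb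

theorem ba : B ≤ A := (le_mul_of_one_le_left h.b0.le (h.one _)).trans h.ab

theorem za : Z ^ 200 ≤ A := h.zb.trans h.ba

theorem a1 : 1 ≤ A := h.b1.trans h.ba

theorem a0 : 0 < A := by linarith [h.a1]

theorem kr : (1 : ℝ) ≤ K := by exact_mod_cast h.k1

theorem ks : (K : ℝ) ≤ √(A * B) := Real.le_sqrt_of_sq_le h.k2

theorem sa : √(A * B) ≤ A := Real.sqrt_le_iff.2
  ⟨h.a0.le, by rw [sq]; exact mul_le_mul_of_nonneg_left h.ba h.a0.le⟩

theorem ka : (K : ℝ) ≤ A := h.ks.trans h.sa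

theorem zm : Z ^ 100 ≤ √(A / B) := Real.le_sqrt_of_sq_le (by
  rw [← pow_mul, le_div_iff₀ h.b0]; exact h.ab)

theorem m0 : 0 < √(A / B) := (pow_pos h.z0 _).trans_le h.zm

theorem et0 : 0 < et A B Z := div_pos (pow_pos h.z0 _) h.m0

theorem etm : et A B Z * √(A / B) = Z ^ 30 := div_mul_cancel₀ _ h.m0.ne'

theorem ms : √(A / B) * √(A * B) = A := by
  have := h.b0
  rw [← Real.sqrt_mul (div_pos h.a0 h.b0).le, show A / B * (A * B) = A ^ 2 by field_simp,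
    Real.sqrt_sq h.a0.le]

theorem eta : et A B Z * A = Z ^ 30 * √(A * B) := by
  rw [← h.etm, mul_assoc, h.ms]

theorem ets : et A B Z * √(A * B) = Z ^ 30 * B := by
  have h1 : √(A * B) = √(A / B) * B := by
    have := h.b0
    rw [show A * B = A / B * B ^ 2 by field_simp, Real.sqrt_mul (div_pos h.a0 h.b0).le,
      Real.sqrt_sq h.b0.le]
  rw [h1, ← mul_assoc, h.etm]

theorem kap : et A B Z * Z ≤ 1 / Z ^ 69 := by
  have := h.z0
  calc et A B Z * Z ≤ Z ^ 30 / Z ^ 100 * Z := by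
        unfold et
        gcongr
        exact h.zm
    _ = _ := by field_simp

theorem kap1 : et A B Z * Z ≤ 1 / 20 := by
  refine h.kap.trans (one_div_le_one_div_of_le (by norm_num) ?_)
  calc (20 : ℝ) ≤ 16 ^ 2 := by norm_num
    _ ≤ Z ^ 2 := pow_le_pow_left₀ (by norm_num) h.z 2
    _ ≤ _ := h.pw (by norm_num)

theorem gz : A ^ 20 * gs Z ≤ 1 := le_trans (mul_le_mul_of_nonneg_left
  (gs_mono (by linarith [h.z]) (by linarith [h.z])) (pow_nonneg h.a0.le _)) h.g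

end Hq

end Pool.Agent.P.MP_8be758_nt.Av3
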