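import Pool.Agent.P.MP_8be758_nt.Av3.IfA

/-! Small facts about the new definitions. -/

namespace Pool.Agent.P.MP_8be758_nt.Av3

open Finset Real Filter Topology
open Pool.Agent.P.MP_e86632_nt (ee)
open Pool.Agent.P.MP_8be758_nt.Avg Pool.Agent.P.MP_8be758_nt.Av2

theorem Pm.z1 {θ ζ : ℝ} (h : Pm θ ζ) : ζ ≤ 1 / 100000000 := by linarith [h.t0, h.t1]

theorem Pm.t2 {θ ζ : ℝ} (h : Pm θ ζ) : 8 / 11 < θ := by linarith [h.t0, h.z0]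

theorem zq_pow {N : ℝ} (hN : 0 < N) (ζ : ℝ) (j : ℕ) : Zq ζ N ^ j = N ^ (ζ * j) := bx_pw hN ζ j

theorem zq_pos {N : ℝ} (hN : 0 < N) (ζ : ℝ) : 0 < Zq ζ N := Real.rpow_pos_of_pos hN _

theorem rq_pos {N : ℝ} (hN : 0 < N) (ζ : ℝ) : 0 < rq ζ N := by
  have := zq_pos hN ζ
  unfold rq; positivity

theorem ev_zq {ζ : ℝ} (h : 0 < ζ) (C : ℝ) (k : ℕ) :
    ∀ᶠ N : ℝ in atTop, C * Real.log N ^ k ≤ Zq ζ N := bx_ev3 C k h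

theorem ev_zq0 {ζ : ℝ} (h : 0 < ζ) (C : ℝ) : ∀ᶠ N : ℝ in atTop, C ≤ Zq ζ N := ev_const C h

/-- `C Z ^ j N ^ a ≤ N ^ b` when the exponents allow it -/
theorem ev_zq_pow (ζ C : ℝ) (j : ℕ) {a b : ℝ} (h : ζ * j + a < b) :
    ∀ᶠ N : ℝ in atTop, C * Zq ζ N ^ j * N ^ a ≤ N ^ b := by
  filter_upwards [bx_ev2 C h, eventually_gt_atTop 0] with N h1 h2
  rwa [zq_pow h2, mul_assoc, ← Real.rpow_add h2]

theorem ev_zq_gs {ζ : ℝ} (h : 0 < ζ) (j : ℕ) {c : ℝ} (hc : 0 < c) :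
    ∀ᶠ N : ℝ in atTop, N ^ j * gs (c * Zq ζ N) ≤ 1 := by
  filter_upwards [ev_gs j hc h] with N h
  rwa [Real.rpow_natCast] at h

theorem ev_zq_tau {ζ : ℝ} (h : 0 < ζ) (j : ℕ) : ∀ᶠ N : ℝ in atTop, TauB (N ^ j) (Zq ζ N) := by
  filter_upwards [ev_tau j h] with N h
  rwa [Real.rpow_natCast] at h

theorem T4.k7 {θ ζ N B : ℝ} {K : ℕ} {S : Finset ℕ} {β : ℕ → ℝ} (h : T4 θ N K B S β) (hP : Pm θ ζ)
    (hN : 1 ≤ N) : N ^ (7 / 10 : ℝ) ≤ K :=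
  (Real.rpow_le_rpow_of_exponent_le hN (by linarith [hP.t2])).trans h.lo

theorem T4.b13 {θ N B : ℝ} {K : ℕ} {S : Finset ℕ} {β : ℕ → ℝ} (h : T4 θ N K B S β) (hN : 1 ≤ N) :
    N ^ (13 / 20 : ℝ) ≤ B := (Real.rpow_le_rpow_of_exponent_le hN (by norm_num)).trans h.b1

theorem T4.bN {θ N B : ℝ} {K : ℕ} {S : Finset ℕ} {β : ℕ → ℝ} (h : T4 θ N K B S β) (hN : 1 ≤ N) :
    B ≤ N := h.b2.trans (by
  simpa using Real.rpow_le_rpow_of_exponent_le hN (show (10 / 11 : ℝ) ≤ 1 by norm_num))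

theorem Sm6.sml {N : ℝ} {f : ArithmeticFunction ℝ} (h : Sm6 N f) (hN : 1 ≤ N) : Sml N f :=
  ⟨h.1, fun n hn => (h.2 n hn).trans (mul_le_mul_of_nonneg_left
    (Real.rpow_le_rpow_of_exponent_le hN (by norm_num)) zero_le_two)⟩

theorem setup_hi {θ N : ℝ} {K X1 X2 : ℕ} (h : Setup2 θ (119 / 100) N K X1 X2) :
    (K : ℝ) ≤ N ^ (81 / 100 : ℝ) := h.hi.trans_eq (by norm_num)

/-! ### the closed steps of the earlier project -/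

theorem lib_GI : S_GI := t_GI t_GI0
theorem lib_VOR : S_VOR := t_VOR (t_GP t_POI t_CUT) t_GI0
theorem lib_WW : S_WW := t_WW t_OM
theorem lib_TRU : S_TRU := t_TRU lib_WW
theorem lib_GA : S_GA := t_GA lib_TRU t_GE0 (t_GR (t_GR1 lib_VOR (t_LSV lib_GI)) t_SUP)
theorem lib_ZF : S_ZF := t_ZF (t_ZF0 lib_VOR lib_GI) lib_TRU
theorem lib_CH : S_CH := t_CH t_BES

end Pool.Agent.P.MP_8be758_nt.Av3
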