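import Pool.Agent.P.MP_8be758_nt.Av3.Basic

/-! Definitions for the estimate of the type IV sums. -/

namespace Pool.Agent.P.MP_8be758_nt.Av3

open Finset Real Filter Topology
open Pool.Agent.P.MP_e86632_nt (ee)
open Pool.Agent.P.MP_8be758_nt.Avg Pool.Agent.P.MP_8be758_nt.Av2

noncomputable section

/-- Dirichlet convolution -/
def cv (f g : ℕ → ℝ) (n : ℕ) : ℝ := ∑ p ∈ n.divisorsAntidiagonal, f p.1 * g p.2

/-- Dirichlet polynomial -/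
def dp (I : Finset ℕ) (d : ℕ → ℂ) (s : ℝ) : ℂ := ∑ a ∈ I, d a * ee (s * Real.log a)

/-- Gaussian window in the logarithm -/
def gw (η y : ℝ) (a : ℕ) : ℝ := gs ((y - Real.log a) / η)

/-- coefficients times the window -/
def wd (η y : ℝ) (α : ℕ → ℝ) (a : ℕ) : ℝ := gw η y a * α a

/-- the essential support of the window -/
def Iw (κ y : ℝ) : Finset ℕ := Ioc ⌊Real.exp (y - κ)⌋₊ ⌊Real.exp (y + κ)⌋₊

/-- difference of logarithms -/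
def lq (a1 a2 : ℕ) : ℝ := Real.log a2 - Real.log a1

/-- the Cauchy weight -/
def WT (T t : ℝ) : ℝ := 1 / (1 + (t / T) ^ 2)

/-- the normalized Gaussian -/
def kq (R τ : ℝ) : ℝ := gs (τ / R) / R

/-- a continuous integrable weight -/
def PW (P : ℝ → ℝ) : Prop := Continuous P ∧ (∀ t, 0 ≤ P t) ∧ MeasureTheory.Integrable P

/-- a continuous bounded nonnegative function -/
def CB (a : ℝ → ℝ) : Prop := Continuous a ∧ (∀ t, 0 ≤ a t) ∧ ∃ m, ∀ t, a t ≤ m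

/-- averaged weighted mean square of a Dirichlet polynomial -/
def QQ (P : ℝ → ℝ) (R : ℝ) (I : Finset ℕ) (d : ℕ → ℂ) : ℝ :=
  ∫ τ : ℝ, kq R τ * ∫ t : ℝ, P t * ‖dp I d (t / 2 + τ)‖ ^ 2

/-- the upper integral of `X` over `[y1, y2]` is at most `E` -/
def IB (y1 y2 : ℝ) (X : ℝ → ℝ) (E : ℝ) : Prop :=
  ∃ Φ : ℝ → ℝ, Continuous Φ ∧ (∀ y, y1 ≤ y → y ≤ y2 → X y ≤ Φ y) ∧ ∫ y in y1..y2, Φ y ≤ E

/-- a smooth cutoff -/
structure Bmp (χ χ1 χ2 : ℝ → ℝ) (C : ℝ) : Prop where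
  d1 : ∀ x, HasDerivAt χ (χ1 x) x
  d2 : ∀ x, HasDerivAt χ1 (χ2 x) x
  c2 : Continuous χ2
  b0 : ∀ x, |χ x| ≤ 1
  b1 : ∀ x, |χ1 x| ≤ C
  b2 : ∀ x, |χ2 x| ≤ C
  one : ∀ x, |x| ≤ 1 → χ x = 1
  zero : ∀ x, 2 ≤ |x| → χ x = 0 ∧ χ1 x = 0 ∧ χ2 x = 0

/-- Fourier transform of the localized oscillation -/
def vF (χ : ℝ → ℝ) (T η t : ℝ) : ℂ :=
  ∫ l in (-(2 * η))..(2 * η), (χ (l / η) : ℂ) * ee (T * Real.exp l - t * l)

/-- length of the windows -/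
def Lw (η : ℝ) (J : ℕ) : ℕ := ⌊η * J⌋₊ + 1

/-- the window number `w` -/
def Wn (J L w : ℕ) : Finset ℕ := Ico (J + w * L) (J + (w + 1) * L)

/-- eighth power mean over the windows -/
def Jm (J L : ℕ) (c : ℕ → ℂ) (t : ℝ) : ℝ :=
  √(√(√(∑ w ∈ range (J / L + 1), ‖dp (Wn J L w) c t‖ ^ 8)))

/-- quadruples in one window -/
def W4 (J L w : ℕ) : Finset (Fin 4 → ℕ) := Fintype.piFinset fun _ => Wn J L w

/-- pairs of quadruples in one window with given difference of the products -/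
def cnt8 (J L : ℕ) (D : ℤ) : ℕ := ∑ w ∈ range (J / L + 1),
  ((W4 J L w ×ˢ W4 J L w).filter fun p => ((∏ i, p.1 i : ℕ) : ℤ) - (∏ i, p.2 i : ℕ) = D).card

/-- bounded coefficients with supports up to `U` and `V` -/
structure FG (U V : ℕ) (f g : ℕ → ℝ) : Prop where
  f1 : ∀ u, |f u| ≤ 1
  g1 : ∀ v, |g v| ≤ 1
  fU : ∀ u, f u ≠ 0 → u ≤ U
  gV : ∀ v, g v ≠ 0 → v ≤ V
  u1 : 1 ≤ U
  v1 : 1 ≤ V

/-- the quantity bounded in the numerical condition -/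
def nq (T U V J L : ℝ) : ℝ :=
  (T + U ^ 2) ^ 12 * (1 + V ^ 3 / T) ^ 8 * (J * L ^ 3 + J ^ 4 * (J + L ^ 4) / T) ^ 3

/-- trilinear sum with the pure phase -/
def ob (ϖ R : ℝ) (c : ℕ → ℂ) (Js : Finset ℕ) (d1 d2 : ℕ → ℝ) (I : Finset ℕ) : ℂ :=
  ∑ a1 ∈ I, ∑ a2 ∈ I, ((d1 a1 * d2 a2 * gs (R * lq a1 a2) : ℝ) : ℂ) *
    ∑ j ∈ Js, c j * ee (ϖ * j * √((a1 : ℝ) * a2))

/-- contribution of one frequency -/
def osj (μ : ℕ) (R : ℝ) (d : ℕ → ℝ) (I : Finset ℕ) (j : ℕ) : ℂ :=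
  ∑ a1 ∈ I, ∑ a2 ∈ I, if Cg μ a1 a2 then ((d a1 * d a2 * gs (R * lq a1 a2) : ℝ) : ℂ) *
    ee (-((j : ℝ) / 2 * (sg a1 a2 ^ 2 / (μ : ℝ) ^ 2))) else 0

/-- contribution of a set of frequencies -/
def os (μ : ℕ) (R : ℝ) (c : ℕ → ℂ) (Js : Finset ℕ) (d : ℕ → ℝ) (I : Finset ℕ) : ℂ :=
  ∑ j ∈ Js, c j * osj μ R d I j

/-- coefficients of the dual sum -/
def cj (H : ℝ) (j : ℕ) : ℂ := (gs (j / (2 * H)) : ℂ) * ee ((j : ℝ) / 2)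

/-- all frequencies for one value of `μ` -/
def osU (μ : ℕ) (R : ℝ) (i0 : ℕ) (H : ℝ) (d : ℕ → ℝ) (I : Finset ℕ) : ℝ :=
  ‖osj μ R d I 0‖ + ∑ i ∈ range i0, ‖os μ R (cj H) (Ico (2 ^ i) (2 * 2 ^ i)) d I‖

/-- all frequencies -/
def osT (μ0 i0 : ℕ) (M H : ℝ) (d : ℕ → ℝ) (I : Finset ℕ) : ℝ :=
  ∑ μ ∈ Icc 1 μ0, (osU μ (M / (2 * μ)) i0 H d I + osU μ (√2 * M / (2 * μ)) i0 H d I)

/-- model with frozen weights -/
def modG (M H : ℝ) (μ a1 a2 : ℕ) : ℝ :=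
  (gs (M / (2 * μ) * lq a1 a2) - gs (√2 * M / (2 * μ) * lq a1 a2)) *
    ∑' b : ℤ, nuo b * gs (H * (b - sg a1 a2 ^ 2 / (μ : ℝ) ^ 2))

/-- majorant of the weights -/
def cw (B K : ℝ) (b : ℕ) (κ : ℝ) : ℝ := Real.exp (-(π * b / B)) * gs (κ / (4 * K))

/-- product of an increasing and a decreasing function with values in `[0, 1]` -/
def UM (w : ℕ → ℝ) : Prop := ∃ p q : ℕ → ℝ, Monotone p ∧ Antitone q ∧
  (∀ a, 0 ≤ p a ∧ p a ≤ 1) ∧ (∀ a, 0 ≤ q a ∧ q a ≤ 1) ∧ ∀ a, w a = p a * q a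

/-- small sums over short intervals in arithmetic progressions -/
def Maj (α : ℕ → ℝ) (X Q D e : ℝ) : Prop := ∀ x x' q s : ℕ, 1 ≤ q → (q : ℝ) ≤ Q → (x' : ℝ) ≤ X →
  (x' : ℝ) ≤ x + D → |∑ a ∈ (Ioc x x').filter (fun a => a ≡ s [MOD q]), α a| ≤ e

/-- the width of the windows -/
def et (A B Z : ℝ) : ℝ := Z ^ 30 / √(A / B)

/-- numerical conditions of the dispersion estimate -/
structure Hq (A B Z : ℝ) (K : ℕ) : Prop where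
  z : 16 ≤ Z
  ab : Z ^ 200 * B ≤ A
  b2 : A ≤ B ^ 2
  b0 : 0 < B
  k1 : 1 ≤ K
  k2 : (K : ℝ) ^ 2 ≤ A * B
  l : 1 + Real.log A ≤ Z
  g : A ^ 20 * gs (Z / 4) ≤ 1
  t : TauB (A ^ 6) Z

/-- the main numerical condition -/
def Num (A B Z K U V : ℝ) : Prop := ∀ J L T : ℝ, 1 ≤ J → J ≤ A / K * Z → 1 ≤ L →
  L ≤ et A B Z * J + 1 → J * A ≤ Z ^ 128 * T → T ≤ J * A →
  (Z ^ 620) ^ 25 * nq T U V J L ≤ (et A B Z * A) ^ 24

/-- indicator of the rough numbers -/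
def rI (z : ℝ) (u : ℕ) : ℝ := if Rough z u then 1 else 0

/-- indicator of the multiples of `E` -/
def dv (E u : ℕ) : ℝ := if E ∣ u then 1 else 0

/-- the sieve majorant -/
def svL (z : ℝ) (lam : Finset ℕ → ℝ) (u : ℕ) : ℝ :=
  ∑ E ∈ (PL z).powerset, if (∏ p ∈ E, p) ∣ u then lam E else 0

open Classical in
/-- restriction to `(x, y]` -/
def cut (x y : ℝ) (f : ℕ → ℝ) (u : ℕ) : ℝ := if x < u ∧ (u : ℝ) ≤ y then f u else 0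

/-- convolution over a box -/
def bx (f g : ℕ → ℝ) (x1 x2 w1 w2 : ℝ) : ℕ → ℝ := cv (cut x1 x2 f) (cut w1 w2 g)

/-- difference of a box and the rescaled box -/
def bd (f g : ℕ → ℝ) (x1 x2 w1 w2 ρ : ℝ) (u : ℕ) : ℝ :=
  bx f g x1 x2 w1 w2 u - bx f g (x1 / ρ) (x2 / ρ) (ρ * w1) (ρ * w2) u

/-- size conditions for a box and the rescaled box -/
structure Sq (N B x1 x2 w1 w2 ρ : ℝ) : Prop where
  r1 : 1 ≤ ρ
  x0 : N ^ (1 / 25 : ℝ) * ρ ≤ x1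
  x12 : x1 ≤ x2
  xN : x2 ≤ x1 * N
  w0 : N ^ (21 / 20 : ℝ) ≤ B * w1
  w12 : w1 ≤ w2

/-- length of the intersection of `(w1, w2]` and `(a / u, a' / u]` -/
def ln2 (w1 w2 a a' : ℝ) (u : ℕ) : ℝ := max 0 (min w2 (a' / u) - max w1 (a / u))

end

end Pool.Agent.P.MP_8be758_nt.Av3
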