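import Pool.Agent.P.MP_8be758_nt.Av2.All

/-! Definitions for the average form of Conjecture F with exponent `8 / 11`. -/

namespace Pool.Agent.P.MP_8be758_nt.Av3

open Finset Real Filter Topology
open Pool.Agent.P.MP_e86632_nt (ee)
open Pool.Agent.P.MP_8be758_nt.Avg Pool.Agent.P.MP_8be758_nt.Av2

noncomputable section

/-- the exponent `θ` and the exponent `ζ` of the small power -/
structure Pm (θ ζ : ℝ) : Prop where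
  z0 : 0 < ζ
  t0 : 8 / 11 + 1000000 * ζ ≤ θ
  t1 : θ ≤ 8 / 11 + 1 / 100

/-- the small power of `N` -/
def Zq (ζ N : ℝ) : ℝ := N ^ ζ

/-- the width of the narrow weights -/
def rq (ζ N : ℝ) : ℝ := 1 / Zq ζ N ^ 22

/-- size conditions of the type III estimate -/
structure T4 (θ N : ℝ) (K : ℕ) (B : ℝ) (S : Finset ℕ) (β : ℕ → ℝ) : Prop where
  lo : N ^ θ ≤ K
  hi : (K : ℝ) ≤ N ^ (81 / 100 : ℝ)
  b1 : N ^ (33 / 50 : ℝ) ≤ B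
  b2 : B ≤ N ^ (10 / 11 : ℝ)
  s : ∀ b ∈ S, B ≤ b ∧ (b : ℝ) ≤ 2 * B ∧ Squarefree b ∧ Odd b
  c : ∀ b, |β b| ≤ 1

/-- a bounded factor with very short support -/
def Sm6 (N : ℝ) (f : ArithmeticFunction ℝ) : Prop :=
  (∀ n, |f n| ≤ 1) ∧ ∀ n : ℕ, f n ≠ 0 → (n : ℝ) ≤ 2 * N ^ (1 / 6 : ℝ)

/-- the support of `β` is a short range above `y` -/
def Sup (N y : ℝ) (β : ℕ → ℝ) : Prop :=
  ∀ b, β b ≠ 0 → y < b ∧ (b : ℝ) ≤ y * N ^ (1 / 50 : ℝ) ∧ (b : ℝ) ≤ N ^ (10 / 11 : ℝ)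

/-- size conditions of the type IV estimate -/
structure P4 (θ N y0 y1 y2 : ℝ) : Prop where
  b1 : N ^ (4 / 5 - (θ - 8 / 11) / 10) ≤ y0
  b2 : y0 ≤ N ^ (10 / 11 : ℝ)
  v1 : 1 ≤ y1
  v2 : y2 ≤ N ^ (41 / 50 : ℝ)
  o : (N ^ 2 ≤ N ^ (41 / 50 : ℝ) * (y0 * y1) ∧ y2 ^ 2 ≤ N ^ (29 / 100 : ℝ) * y0) ∨
    N ^ 4 ≤ N ^ (29 / 100 : ℝ) * (y0 ^ 3 * y1 ^ 2)

end

end Pool.Agent.P.MP_8be758_nt.Av3
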