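import Pool.Agent.P.MP_8be758_nt.Av3.BasB

/-! The step `S_G4b`. -/

namespace Pool.Agent.P.MP_8be758_nt.Av3

open Finset Real Filter Topology
open Pool.Agent.P.MP_e86632_nt (ee)
open Pool.Agent.P.MP_8be758_nt.Avg Pool.Agent.P.MP_8be758_nt.Av2

theorem g4b_ne {z D : ℝ} {c : ℕ → ℝ} {b : ℕ} (hb : (if Rough z b then c b / D else 0) ≠ 0) :
    Rough z b ∧ c b ≠ 0 := by
  by_cases r : Rough z b
  · exact ⟨r, fun e => hb (by rw [if_pos r, e, zero_div])⟩
  · exact absurd (if_neg r) hb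

theorem g4b_coef {N z D y : ℝ} {c : ℕ → ℝ} (hD : 0 < D) (hc : Bdd N z D c)
    (hs : ∀ u, c u ≠ 0 → y < u ∧ (u : ℝ) ≤ N ^ 3) :
    Coef z y fun b => if Rough z b then c b / D else 0 := by
  refine ⟨fun b => ?_, fun b hb => ⟨(g4b_ne hb).1, (hs b (g4b_ne hb).2).1⟩⟩
  by_cases hb : (if Rough z b then c b / D else 0) = 0
  · simp only [hb, abs_zero]; exact zero_le_one
  · obtain ⟨r, e⟩ := g4b_ne hb
    simp only [if_pos r]
    rw [abs_div, abs_of_pos hD, div_le_one hD]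
    exact hc b r (hs b e).2

theorem g4b_cv (z D : ℝ) (c1 c2 : ArithmeticFunction ℝ) :
    (fun b => if Rough z b then (c1 * c2) b / D ^ 2 else 0) =
      cv (fun b => if Rough z b then c1 b / D else 0) fun b => if Rough z b then c2 b / D else 0 := by
  funext b
  split_ifs with h
  · rw [cv_AF, cv, cv, sum_div]
    refine sum_congr rfl fun p hp => ?_
    rw [← (Nat.mem_divisorsAntidiagonal.1 hp).1, rough_mul] at h
    rw [if_pos h.1, if_pos h.2, div_mul_div_comm, sq]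
  · refine (sum_eq_zero fun p hp => ?_).symm
    rw [← (Nat.mem_divisorsAntidiagonal.1 hp).1, rough_mul, not_and_or] at h
    rcases h with h | h <;> simp [h]

theorem t_G4b (θ : ℝ) (hIV : S_IV θ) : S_G4b θ := by
  intro j ε hε
  obtain ⟨e0, he0, hIV⟩ := hIV j ε hε
  refine ⟨e0, he0, fun e1 he1 h1e D ε' hD hε' => ?_⟩
  obtain ⟨R1, hIV⟩ := hIV e1 he1 h1e (ε' / D ^ 2) (by positivity)
  refine ⟨R1, fun R hR => ?_⟩
  filter_upwards [hIV R hR, eventually_gt_atTop 1] with N h hN K X1 X2 U1 U2 V1 V2 y0 y1 y2 c1 c2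
    f1 f2 hst hP hc1 hc2 hs1 hs2 h1 h2 u1 v1 u2 u3 v3
  have hL := Real.log_pos hN
  have hN0 : 0 < N := by linarith
  have h3 : ∀ a : ℝ, a ≤ 3 → N ^ a ≤ N ^ 3 := fun a ha => by
    rw [← Real.rpow_natCast]
    exact Real.rpow_le_rpow_of_exponent_le hN.le (by simpa using ha)
  have y0p : 0 ≤ y0 := (Real.rpow_nonneg hN0.le _).trans hP.b1
  have b1 := g4b_coef (y := y0) hD hc1 fun u hu =>
    ⟨(hs1 u hu).1, (hs1 u hu).2.2.trans (h3 _ (by norm_num))⟩
  have b2 := g4b_coef (y := 0) hD hc2 fun u hu => ⟨one_pos.trans_le (hP.v1.trans (hs2 u hu).1),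
    (hs2 u hu).2.trans (hP.v2.trans (h3 _ (by norm_num)))⟩
  have m1 := g3_ms (y := N ^ (10 / 11 : ℝ)) (z := N ^ e1) hD c1
  have m2 := g3_ms (y := N ^ (10 / 11 : ℝ)) (z := N ^ e1) hD c2
  have e := g4b_cv (N ^ e1) D c1 c2
  have s1 : Sup N y0 fun b => if Rough (N ^ e1) b then c1 b / D else 0 :=
    fun b hb => hs1 b (g4b_ne hb).2
  have s2 : ∀ v : ℕ, (fun b => if Rough (N ^ e1) b then c2 b / D else 0) v ≠ 0 →
      y1 ≤ v ∧ (v : ℝ) ≤ y2 := fun b hb => hs2 b (g4b_ne hb).2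
  generalize (fun b => if Rough (N ^ e1) b then c1 b / D else 0) = β at b1 m1 e s1
  generalize (fun b => if Rough (N ^ e1) b then c2 b / D else 0) = c at b2 m2 e s2
  have hm := ms_nonneg (N ^ (10 / 11 : ℝ)) (N ^ e1) β
  have hm' := ms_nonneg (N ^ (10 / 11 : ℝ)) (N ^ e1) c
  have key := t_LAY (N ^ e1) ((ε * e1 ^ j * (ms (N ^ (10 / 11 : ℝ)) (N ^ e1) β *
    ms (N ^ (10 / 11 : ℝ)) (N ^ e1) c) + ε' / D ^ 2) * K * N / Real.log N)
    K X1 X2 U1 U2 V1 V2 (cv β c) f1 f2 (fun k => dd R.factorial k) (by positivity)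
    (fun u _ hu => h1.bd hN (le_trans (by exact_mod_cast hu) u3))
    (fun u u' hu hu' => h1.mono hN (by omega) hu')
    (fun v _ hv => h2.bd hN (le_trans (by exact_mod_cast hv) v3))
    (fun v v' hv hv' => h2.mono hN (by omega) hv')
    (fun t t' ht ht' => by
      have a1 : (U1 : ℝ) ≤ t := by exact_mod_cast ht
      have a2 : (V1 : ℝ) ≤ t' := by exact_mod_cast ht'
      exact h K X1 X2 t U2 t' V2 y0 y1 y2 β c hst hP b1 s1 b2 s2 (u1.trans (by gcongr))
        (v1.trans (by gcongr)) (u2.trans (by gcongr)))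
  refine good_of_le ?_
  rw [g3_tau] at key
  have hD2 : 0 < D ^ 2 := by positivity
  rw [sum_congr rfl fun k _ => by rw [g3_conv _ hD2, abs_mul, abs_of_pos hD2, e], ← mul_sum]
  refine (mul_le_mul_of_nonneg_left key hD2.le).trans_eq ?_
  rw [← m1, ← m2]
  field_simp

end Pool.Agent.P.MP_8be758_nt.Av3
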