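import Pool.Agent.P.MP_8be758_nt.Av3.Defs

/-! Statements of the steps adapted from the earlier project. -/

namespace Pool.Agent.P.MP_8be758_nt.Av3

open Finset Real Filter Topology
open Pool.Agent.P.MP_e86632_nt (ee)
open Pool.Agent.P.MP_8be758_nt.Avg Pool.Agent.P.MP_8be758_nt.Av2
open ArithmeticFunction (moebius vonMangoldt)

/-! ### Upper bounds and type II sums -/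

def S_UPG : Prop := ∃ C : ℝ, 0 < C ∧ ∀ (A B κ : ℝ) (S1 S2 : Finset ℕ), 1 ≤ A → 1 ≤ B → 0 < κ →
  (∀ b ∈ S1, B ≤ b ∧ (b : ℝ) ≤ 4 * B) → (∀ a ∈ S2, A ≤ a ∧ (a : ℝ) ≤ 4 * A) →
  ∑ b ∈ S1, ∑ a ∈ S2, ∑' n : ℤ, gs (1 / κ * (n - (√((a * b : ℕ) : ℝ) - 1 / 2))) ≤
    C * (κ * S1.card * S2.card + √(A * B) * (√(A + B) + √(√(A * B) / κ)))

def S_UPDb : Prop := ∃ C : ℝ, 0 < C ∧ ∀ W : ℕ, 1 ≤ W → ∀ᶠ N : ℝ in atTop,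
  ∀ (K : ℕ) (B : ℝ) (S1 S2 : Finset ℕ), N ^ (7 / 10 : ℝ) ≤ K → N ^ (13 / 20 : ℝ) ≤ B →
    B ≤ N ^ (27 / 20 : ℝ) → (∀ b ∈ S1, B ≤ b ∧ (b : ℝ) ≤ 2 * B) →
    (∀ a ∈ S2, N ^ 2 / (2 * B) ≤ a ∧ (a : ℝ) ≤ 2 * N ^ 2 / B) →
    ∑ k ∈ Icc 1 K, ∑ b ∈ S1, ∑ a ∈ S2, |dd W k (a * b)| ≤
      C * (K / N) * S1.card * S2.card + K * N ^ (49 / 50 : ℝ)

def S_UPWb : Prop := ∃ C : ℝ, 0 < C ∧ ∀ W : ℕ, 1 ≤ W → ∀ᶠ N : ℝ in atTop,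
  ∀ (K : ℕ) (B Ω : ℝ) (S I : Finset ℕ) (β α : ℕ → ℝ), N ^ (7 / 10 : ℝ) ≤ K →
    N ^ (13 / 20 : ℝ) ≤ B → B ≤ N ^ (27 / 20 : ℝ) → (∀ b ∈ S, B ≤ b ∧ (b : ℝ) ≤ 2 * B) →
    I ⊆ AR N B → (∀ b, |β b| ≤ 1) → 0 ≤ Ω → (∀ a ∈ I, |α a| ≤ Ω) →
    tb K W S β I α ≤
      C * (K / N) * (∑ b ∈ S, |β b|) * (∑ a ∈ I, |α a|) + Ω * (K * N ^ (49 / 50 : ℝ))

def S_HYPb : Prop := ∀ e1 : ℝ, 0 < e1 → e1 ≤ 1 / 10 → ∀ ε : ℝ, 0 < ε → ∃ η : ℝ, 0 < η ∧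
  ∀ W : ℕ, 1 ≤ W → ∀ᶠ N : ℝ in atTop,
    ∀ (K X1 X2 : ℕ) (y y' M : ℝ) (φ m : ℕ → ℝ) (ψ : ℝ → ℕ → ℝ), N ^ (7 / 10 : ℝ) ≤ K →
      N ^ 2 ≤ X1 → X1 ≤ X2 → (X2 : ℝ) ≤ 6 / 5 * N ^ 2 → N ^ (13 / 20 : ℝ) ≤ y → y' ≤ N → 0 ≤ M →
      (∀ b, 0 ≤ m b) → Coef (N ^ e1) y φ → (∀ u, φ u ≠ 0 → (u : ℝ) ≤ y') →
      (∀ B, Coef (N ^ e1) 0 (ψ B)) →
      (∀ (B : ℝ) (A1 A2 : ℕ) (S : Finset ℕ), y ≤ B → B ≤ y' → Bx N e1 B A1 A2 S →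
        tb K W S φ (Ioc A1 A2) (ψ B) ≤ ∑ b ∈ S, m b + M) →
      ∃ Bf : ℕ → ℝ, ∑ k ∈ Icc 1 K,
        |∑ b ∈ Icc 1 X2, ∑ a ∈ half_P X1 X2 b, φ b * ψ (Bf b) a * dd W k (a * b)| ≤
        ∑ b ∈ Icc 1 X2, m b + Real.log N / η * M + ε * K * N / Real.log N

def S_PERb : Prop := ∀ δ e1 eg : ℝ, 0 < δ → 0 < e1 → 0 < eg → ∀ W : ℕ, 1 ≤ W →
  ∀ᶠ N : ℝ in atTop, ∀ (K A1 A2 : ℕ) (B : ℝ) (S : Finset ℕ) (f β : ℕ → ℝ), N ^ (7 / 10 : ℝ) ≤ K →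
    (K : ℝ) ≤ N ^ (2 - δ) → 1 ≤ B → B ≤ N ^ (1 - eg) → Bx N e1 B A1 A2 S → (∀ a, |f a| ≤ 1) →
    (∀ a, f (a + W) = f a) → (∀ b, |β b| ≤ 1) →
    tb K W S β (Ioc A1 A2) f ≤ K * N / Real.log N ^ 3

def S_GAPb : Prop := ∃ C : ℝ, 0 < C ∧ ∀ e1 eg : ℝ, 0 < e1 → e1 ≤ 1 / 10 → 0 < eg → eg ≤ 1 / 4 →
  ∀ W : ℕ, 1 ≤ W → ∀ᶠ N : ℝ in atTop,
    ∀ (K X1 X2 : ℕ) (φ ψ : ℕ → ℝ), N ^ (7 / 10 : ℝ) ≤ K → N ^ 2 ≤ X1 → (X2 : ℝ) ≤ 6 / 5 * N ^ 2 →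
      Coef (N ^ e1) (N ^ (1 - eg)) φ → Coef (N ^ e1) (N ^ (1 - eg)) ψ →
      ∑ k ∈ Icc 1 K, |bil X1 X2 φ ψ (dd W k)| ≤ C * (eg / e1 ^ 2) * K * N / Real.log N

def S_RGb (θ δ : ℝ) : Prop := ∀ e1 : ℝ, 0 < e1 → e1 ≤ 1 / 10 → ∀ ε : ℝ, 0 < ε →
  ∃ R1 : ℕ, ∀ R : ℕ, R1 ≤ R → ∀ᶠ N : ℝ in atTop,
    ∀ (K X1 X2 : ℕ) (G : ℕ → ℕ → ℝ) (ρ : ℕ → ℝ), Setup2 θ δ N K X1 X2 → (∀ b u, |G b u| ≤ 1) →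
      (∀ b u, G b u ≠ 0 → Rough (N ^ e1) (b * u) ∧ N ^ (10 / 11 : ℝ) < (b * u : ℕ) ∧
        ((b * u : ℕ) : ℝ) ≤ N ^ (109 / 100 : ℝ)) → Coef (N ^ e1) 0 ρ →
      ∑ k ∈ Icc 1 K, |∑ b ∈ Icc 1 X2, ∑ a ∈ half_P X1 X2 b,
        (∑ p ∈ a.divisorsAntidiagonal, G b p.1 * ρ p.2) * dd R.factorial k (a * b)| ≤
        ε * K * N / Real.log N

/-! ### The type III estimate -/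

def S_PRIMb : Prop := ∃ C : ℝ, 0 < C ∧
  ∀ (A B K η T : ℝ) (n0 : ℕ) (I : Finset ℕ), 1 ≤ B → B ≤ A → 1 ≤ K → 0 < η → η ≤ 1 / 4 → 1 ≤ T →
    4 * K * T ≤ η * A → A ≤ η ^ 2 * K ^ 2 → A * B ≤ η ^ 2 * K ^ 3 → (n0 : ℝ) ≤ 3 * A → Nar A η I →
    ∑ b ∈ Icc 1 n0, ∑ k ∈ KR n0, wt nuo B K b (4 * k - 1) * Qf (fun _ => 1) I n0 b k ≤
      C * (K * (η ^ 2 * A + √(A * B)) + A ^ 5 * gs (T / 2))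

def S_OSCb : Prop := ∃ C : ℝ, 0 < C ∧
  ∀ (A B K T Γ τ : ℝ) (μ0 : ℕ) (I : Finset ℕ) (α : ℕ → ℝ), 2 ≤ B → B ≤ A → K ≤ A → A ≤ K ^ 2 →
    1 ≤ T → 1 ≤ Γ → Γ ^ 2 ≤ B → 30 * T ^ 2 * √B ≤ K → (μ0 : ℝ) ≤ A → Rng A I → (∀ a, |α a| ≤ 1) →
    TauB (2 * A) τ →
    (∀ θ, Γ / √B ≤ |θ| → |θ| ≤ A → GG (SI I α) (2 * μ0) θ ≤ Γ * shp (√A) (√(A / B)) θ) →
    |offS α I μ0 (modF B K A) - K / 2 * mainS α I B μ0| ≤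
      C * K * (Γ * τ * (1 + Real.log A) ^ 2 * T ^ 4 * A *
        (√(A / K / B) + √(√A / K) + B * √A / K ^ 2) + τ * A ^ 3 * gs (T / 2))

def S_QF0b : Prop := ∃ C : ℝ, 0 < C ∧
  ∀ (A B η T τ O : ℝ) (K μ0 : ℕ) (I S : Finset ℕ) (α : ℕ → ℝ), 1 ≤ K → B ≤ A → 0 < η →
    η ≤ 1 / 4 → 1 ≤ η ^ 2 * B → 1 ≤ T → 8 * K * T ≤ η * A → A ≤ η ^ 2 * K ^ 2 →
    A * B ≤ η ^ 2 * K ^ 3 → √(A / B) ≤ μ0 → (μ0 : ℝ) ≤ A →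
    Nar A η I → (∀ a, |α a| ≤ 1) → TauB (4 * A ^ 2) τ →
    (∀ b ∈ S, B ≤ b ∧ (b : ℝ) ≤ 2 * B ∧ Odd b) →
    |offS α I μ0 (modF B K A) - K / 2 * mainS α I B μ0| ≤ K * O →
    ∑ k ∈ Icc 1 K, ∑ b ∈ S, Qf α I ⌈2 * A⌉₊ b k ≤
      C * K * (|mainS α I B ⌈2 * A⌉₊| + O + τ * η ^ 3 * A + τ * √(A * B) +
        (1 + Real.log A) * A / B + A ^ 5 * gs (T / 2))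

def S_QFb : Prop := ∃ C : ℝ, 0 < C ∧
  ∀ (A B Z : ℝ) (K : ℕ) (I S : Finset ℕ) (α : ℕ → ℝ), 2 ≤ Z → Z ^ 600 * B ≤ A → Z ^ 300 ≤ B →
    Z ^ 400 * (B ^ 2 * A) ≤ (K : ℝ) ^ 4 → Z ^ 40 * (A * B) ≤ (K : ℝ) ^ 3 → Z ^ 30 * K ≤ A →
    Z ^ 800 * A ≤ (K : ℝ) ^ 2 → Z ^ 400 * A ≤ K * B →
    1 + Real.log A ≤ Z → A ^ 5 * gs (Z / 2) ≤ 1 → TauB (4 * A ^ 2) Z → Nar A (4 / Z ^ 20) I →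
    (∀ a, |α a| ≤ 1) → (∀ b ∈ S, B ≤ b ∧ (b : ℝ) ≤ 2 * B ∧ Odd b) →
    (∀ θ, Z ^ 120 / √B ≤ |θ| → |θ| ≤ A →
      GG (SI I α) (2 * ⌈√(A / B)⌉₊) θ ≤ Z ^ 120 * shp (√A) (√(A / B)) θ) →
    ∑ k ∈ Icc 1 K, ∑ b ∈ S, Qf α I ⌈2 * A⌉₊ b k ≤
      C * K * (enS I (gam α) ⌊Z ^ 60⌋₊ + A / Z ^ 56)

def S_CELL0b : Prop := ∃ C : ℝ, 0 < C ∧
  ∀ (A B Z : ℝ) (K W : ℕ) (I S : Finset ℕ) (α β : ℕ → ℝ), 2 ≤ Z → Z ^ 600 * B ≤ A →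
    Z ^ 300 ≤ B → Z ^ 400 * (B ^ 2 * A) ≤ (K : ℝ) ^ 4 → Z ^ 40 * (A * B) ≤ (K : ℝ) ^ 3 →
    Z ^ 30 * K ≤ A → Z ^ 800 * A ≤ (K : ℝ) ^ 2 → Z ^ 400 * A ≤ K * B →
    1 + Real.log A ≤ Z → A ^ 5 * gs (Z / 2) ≤ 1 → TauB (4 * A ^ 2) Z → Nar A (4 / Z ^ 20) I →
    (∀ a, |α a| ≤ 1) → (∀ b ∈ S, B ≤ b ∧ (b : ℝ) ≤ 2 * B ∧ Squarefree b ∧ Odd b) →
    (∀ b, |β b| ≤ 1) → 1 ≤ W → (W : ℝ) ≤ Z →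
    (∀ θ, Z ^ 120 / √B ≤ |θ| → |θ| ≤ A →
      GG (SI I α) (2 * ⌈√(A / B)⌉₊) θ ≤ Z ^ 120 * shp (√A) (√(A / B)) θ) →
    (∀ q r : ℕ, 1 ≤ q → (q : ℝ) ≤ Z ^ 60 → ‖SI I α ((r : ℝ) / q) 0‖ ≤ 1) →
    tb K W S β I α ≤ C * K * √(A * B) / Z ^ 27

def S_CELLb (θ ζ : ℝ) : Prop := ∀ W : ℕ, 1 ≤ W → ∀ᶠ N : ℝ in atTop,
  ∀ (K E1 E2 : ℕ) (B j j' l τ1 τ2 : ℝ) (S : Finset ℕ) (β : ℕ → ℝ), T4 θ N K B S β →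
    Sw N B j j' l τ1 τ2 → τ2 ≤ τ1 + 1 / Zq ζ N ^ 20 → 1 ≤ E1 → 1 ≤ E2 →
    (E1 : ℝ) ≤ Zq ζ N ^ 2 → (E2 : ℝ) ≤ Zq ζ N ^ 2 →
    tb K W S β (AR N B)
      (fun a => al (rq ζ N) j (j + l) τ1 τ2 E1 E2 a - al (rq ζ N) j' (j' + l) τ1 τ2 E1 E2 a) ≤
      rq ζ N ^ 2 / Zq ζ N ^ 20 * (K * N / Zq ζ N ^ 5)

def S_SWAPb (θ ζ : ℝ) : Prop := ∀ W : ℕ, 1 ≤ W → ∀ᶠ N : ℝ in atTop,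
  ∀ (K : ℕ) (z B j j' l τ1 τ2 : ℝ) (S : Finset ℕ) (β : ℕ → ℝ) (lam : Finset ℕ → ℝ),
    T4 θ N K B S β → Sw N B j j' l τ1 τ2 → ∑ E ∈ (PL z).powerset, |lam E| ≤ Zq ζ N →
    (∀ E ∈ (PL z).powerset, lam E ≠ 0 → ∏ p ∈ E, (p : ℝ) ≤ Zq ζ N ^ 2) →
    tb K W S β (AR N B)
      (fun a => als (rq ζ N) z j (j + l) τ1 τ2 lam a - als (rq ζ N) z j' (j' + l) τ1 τ2 lam a) ≤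
      K * N / Zq ζ N ^ 3

open Classical in
def S_SMOb (ζ : ℝ) : Prop := ∀ᶠ N : ℝ in atTop, ∀ (B x y : ℝ) (A1 A2 : ℕ),
  N ^ (13 / 20 : ℝ) ≤ B → B ≤ N → 24 / 25 * N ^ 2 ≤ A1 * B → A1 ≤ A2 →
  A2 * B ≤ 6 / 5 * N ^ 2 → N ^ (1 / 10 : ℝ) ≤ x → x ≤ y → y * N ^ (1 / 10 : ℝ) ≤ A1 →
  (∀ u v : ℕ, 1 ≤ u → 1 ≤ v →
    WW (rq ζ N) (Real.log x / 2) (Real.log y / 2) (Real.log A1 / 2) (Real.log A2 / 2) u v /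
      rq ζ N ^ 2 ≤ if x / 2 ≤ u ∧ (u : ℝ) ≤ 2 * y then 9 else 1 / N ^ 3) ∧
  ∑ a ∈ AR N B, ∑ p ∈ a.divisorsAntidiagonal,
    |WW (rq ζ N) (Real.log x / 2) (Real.log y / 2) (Real.log A1 / 2) (Real.log A2 / 2) p.1 p.2 /
      rq ζ N ^ 2 - if (x < p.1 ∧ (p.1 : ℝ) ≤ y) ∧ A1 < a ∧ a ≤ A2 then 1 else 0| ≤
    N ^ 2 / B / Zq ζ N ^ 10

def S_REPb (ζ : ℝ) : Prop := ∃ C : ℝ, 0 < C ∧ ∀ᶠ N : ℝ in atTop,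
  ∀ (z L δ B x y : ℝ) (A1 A2 : ℕ) (lam Del : Finset ℕ → ℝ), FLData z L δ lam Del → L ≤ Zq ζ N →
    0 ≤ δ → δ ≤ 1 → N ^ (13 / 20 : ℝ) ≤ B → B ≤ N → 24 / 25 * N ^ 2 ≤ A1 * B →
    A1 ≤ A2 → A2 * B ≤ 6 / 5 * N ^ 2 → N ^ (1 / 10 : ℝ) ≤ x → x ≤ y → y * N ^ (1 / 10 : ℝ) ≤ A1 →
    (∀ a ∈ AR N B, |als (rq ζ N) z (Real.log x / 2) (Real.log y / 2) (Real.log A1 / 2)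
      (Real.log A2 / 2) lam a - if a ∈ Ioc A1 A2 then tauJ z x y a else 0| ≤ 10 * Zq ζ N ^ 3) ∧
    ∑ a ∈ AR N B, |als (rq ζ N) z (Real.log x / 2) (Real.log y / 2) (Real.log A1 / 2)
      (Real.log A2 / 2) lam a - if a ∈ Ioc A1 A2 then tauJ z x y a else 0| ≤
      C * (N ^ 2 / B) * (δ * (Vz z + δ) * Real.log N + 1 / Zq ζ N ^ 10)

def S_SW2b (θ : ℝ) : Prop := ∀ (j : ℕ) (ε : ℝ), 0 < ε → ∃ e0 : ℝ, 0 < e0 ∧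
  ∀ e1 : ℝ, 0 < e1 → e1 ≤ e0 → ∀ W : ℕ, 1 ≤ W → ∀ᶠ N : ℝ in atTop,
    ∀ (K A1 A2 : ℕ) (B x x' r : ℝ) (S : Finset ℕ) (β : ℕ → ℝ), T4 θ N K B S β →
      24 / 25 * N ^ 2 ≤ A1 * B → A2 * B ≤ 6 / 5 * N ^ 2 → 1 ≤ r →
      N ^ (1 / 10 : ℝ) ≤ x → N ^ (1 / 10 : ℝ) ≤ x' → x * r * N ^ (1 / 10 : ℝ) ≤ A1 →
      x' * r * N ^ (1 / 10 : ℝ) ≤ A1 →
      tb K W S β (Ioc A1 A2) (fun a => tauJ (N ^ e1) x (x * r) a - tauJ (N ^ e1) x' (x' * r) a) ≤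
        (ε * e1 ^ j * ∑ b ∈ S, |β b| / b + 1 / Real.log N ^ 3) * K * N / Real.log N

def S_EDGb : Prop := ∃ C : ℝ, 0 < C ∧ ∀ e1 : ℝ, 0 < e1 → e1 ≤ 1 / 30 → ∀ᶠ N : ℝ in atTop,
  ∀ (B : ℝ) (A1 A2 U1 U2 V1 V2 : ℕ), 1 ≤ B → 24 / 25 * N ^ 2 ≤ A1 * B → A2 * B ≤ 6 / 5 * N ^ 2 →
    N ^ (1 / 6 : ℝ) ≤ U1 → N ^ (1 / 6 : ℝ) ≤ V1 → V1 ≤ V2 →
    ∑ a ∈ Ioc A1 A2, |tauR (N ^ e1) U1 U2 V1 V2 a -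
      tauJ (N ^ e1) (loB N B U1 V2) (loB N B U1 V2 * lamB N B U1 U2 V1 V2) a| ≤
      C * (N ^ 2 / B) / (e1 * Real.log N) ^ 2

def S_BOXb (θ : ℝ) : Prop := ∀ (j : ℕ) (ε : ℝ), 0 < ε → ∃ e0 : ℝ, 0 < e0 ∧
  ∀ e1 : ℝ, 0 < e1 → e1 ≤ e0 → ∀ W : ℕ, 1 ≤ W → ∀ᶠ N : ℝ in atTop,
    ∀ (K A1 A2 U1 U2 V1 V2 : ℕ) (B x : ℝ) (S : Finset ℕ) (β : ℕ → ℝ), T4 θ N K B S β →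
      24 / 25 * N ^ 2 ≤ A1 * B → A2 * B ≤ 6 / 5 * N ^ 2 → N ^ (1 / 6 : ℝ) ≤ U1 →
      N ^ (1 / 6 : ℝ) ≤ V1 → V1 ≤ V2 → (U2 : ℝ) ≤ U1 * N ^ (1 / 20 : ℝ) → N ^ (1 / 10 : ℝ) ≤ x →
      x * N ^ (3 / 20 : ℝ) ≤ A1 →
      tb K W S β (Ioc A1 A2) (fun a => tauR (N ^ e1) U1 U2 V1 V2 a -
        tauJ (N ^ e1) x (x * lamB N B U1 U2 V1 V2) a) ≤
        (ε * e1 ^ j * ∑ b ∈ S, |β b| / b + 1 / Real.log N ^ 2) * K * N / Real.log N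

def S_IIIb (θ : ℝ) : Prop := ∀ (j : ℕ) (ε : ℝ), 0 < ε → ∃ e0 : ℝ, 0 < e0 ∧
  ∀ e1 : ℝ, 0 < e1 → e1 ≤ e0 → ∀ ε' : ℝ, 0 < ε' → ∃ R1 : ℕ, ∀ R : ℕ, R1 ≤ R →
    ∀ᶠ N : ℝ in atTop, ∀ (K X1 X2 U1 U2 V1 V2 : ℕ) (y : ℝ) (β : ℕ → ℝ),
      Setup2 θ (119 / 100) N K X1 X2 → N ^ (33 / 50 : ℝ) ≤ y → y ≤ N ^ (10 / 11 : ℝ) →
      Coef (N ^ e1) y β → Sup N y β →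
      N ^ (1 / 6 : ℝ) ≤ U1 → N ^ (1 / 6 : ℝ) ≤ V1 → (U2 : ℝ) ≤ U1 * N ^ (1 / 20 : ℝ) →
      ∑ k ∈ Icc 1 K, |bil X1 X2 β (tauR (N ^ e1) U1 U2 V1 V2) (dd R.factorial k)| ≤
        (ε * e1 ^ j * ms (N ^ (10 / 11 : ℝ)) (N ^ e1) β + ε') * K * N / Real.log N

/-! ### Type I sums -/

def S_TIb : Prop := ∀ (z L δ E1 E2 l Y G : ℝ) (K : ℕ) (J Dd : Finset ℕ) (t κ : ℕ → ℕ → ℝ)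
  (c : ℕ → ℝ) (lam Del : Finset ℕ → ℝ), FLData z L δ lam Del → 1 ≤ L → 0 ≤ l → 0 ≤ E1 → 0 ≤ E2 →
  (∀ k m, 0 ≤ t k m) → (∀ d ∈ Dd, 1 ≤ d ∧ Rough z d ∧ |c d| ≤ 1) →
  (∀ k ∈ Icc 1 K, ∀ q : ℕ, 1 ≤ q →
    |∑ m ∈ J.filter (q ∣ ·), t k m - l * κ k q / q| ≤ E1 * κ k q + E2) →
  (∀ q : ℕ, 1 ≤ q → |∑ k ∈ Icc 1 K, κ k q - K| ≤ q) →
  (∀ k q, 0 ≤ κ k q) → (∀ k p, p.Prime → κ k p ≤ p) →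
  (∀ k, ∀ d ∈ Dd, ∀ E ⊆ PL z, κ k (d * ∏ p ∈ E, p) = κ k d * ∏ p ∈ E, κ k p) →
  (∀ k, ∀ E ⊆ PL z, κ k (∏ p ∈ E, p) = ∏ p ∈ E, κ k p) →
  (∀ k ∈ Icc 1 K, ∑ d ∈ Dd, κ k d ≤ Y) →
  ∑ k ∈ Icc 1 K, |∑ d ∈ Dd, |c d| / d * (κ k d - 1)| ≤ G →
  ∑ k ∈ Icc 1 K, |∑ m ∈ J.filter (Rough z), (∑ d ∈ Dd.filter (· ∣ m), c d) * t k m -
      l * (∑ d ∈ Dd, c d * κ k d / d) * ∏ p ∈ PL z, (1 - κ k p / p)| ≤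
    L * K * (E1 * Y + E2 * Dd.card) + l * ((K * δ + L) * ∑ d ∈ Dd, |c d| / d + G)

def S_COb : Prop := ∀ e1 : ℝ, 0 < e1 → ∀ᶠ N : ℝ in atTop, ∀ K : ℕ, N ^ (7 / 10 : ℝ) ≤ K →
  (K : ℝ) ≤ N →
  (∀ k ∈ Icc 1 K, ∑ d ∈ Ry (N ^ (10 / 11 : ℝ)) (N ^ e1), (rho k d : ℝ) ≤ N ^ (11 / 12 : ℝ)) ∧
  ∀ c : ℕ → ℝ, (∀ d, |c d| ≤ 1) →
    ∑ k ∈ Icc 1 K, |∑ d ∈ Ry (N ^ (10 / 11 : ℝ)) (N ^ e1), c d / d * ((rho k d : ℝ) - 1)| ≤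
      K / Real.log N ^ 3

def S_Ib (θ : ℝ) : Prop := ∀ (j : ℕ) (ε : ℝ), 0 < ε → ∃ e0 : ℝ, 0 < e0 ∧
  ∀ e1 : ℝ, 0 < e1 → e1 ≤ e0 → ∀ R : ℕ, 2 ≤ R → ∀ᶠ N : ℝ in atTop,
    ∀ (K X1 X2 : ℕ) (c : ℕ → ℝ), Setup2 θ (119 / 100) N K X1 X2 → (∀ d, |c d| ≤ 1) →
      ∑ k ∈ Icc 1 K, |∑ m ∈ (Ioc X1 X2).filter (Rough (N ^ e1)),
          (∑ d ∈ (Ry (N ^ (10 / 11 : ℝ)) (N ^ e1)).filter (· ∣ m), c d) * dd R.factorial k m -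
        (∑ d ∈ Ry (N ^ (10 / 11 : ℝ)) (N ^ e1), c d / d) * MT R (N ^ e1) X1 X2 k| ≤
        (ε * e1 ^ j * ms (N ^ (10 / 11 : ℝ)) (N ^ e1) c + 1 / Real.log N) * K * N / Real.log N

/-! ### The combinatorial decomposition -/

def S_HBIb : Prop := ∀ (N : ℝ) (y m : ℕ), 1 < N → m ≤ y ^ 12 →
  vonMangoldt m / (3 * Real.log N) = ∑ j ∈ range 12, (-1) ^ j * (Nat.choose 12 (j + 1) : ℝ) *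
    (rs 0 y (moebius : ArithmeticFunction ℝ) ^ (j + 1) * ze ^ j * lg N) m

def S_EXPb : Prop := ∀ (n : ℕ) (l : Fin n → ℝ) (β : ℝ), (∀ i, 0 ≤ l i ∧ l i ≤ β) → 0 ≤ β →
  2 * β < ∑ i, l i →
  (∃ S : Finset (Fin n), β < ∑ i ∈ S, l i ∧ β < ∑ i ∈ Sᶜ, l i) ∨
  ∃ (S : Finset (Fin n)) (i1 i2 : Fin n), i1 ≠ i2 ∧ i1 ∉ S ∧ i2 ∉ S ∧ ∑ i ∈ S, l i ≤ β ∧
    ∑ i, l i - 2 * ∑ i ∈ S, l i ≤ l i1 ∧ ∑ i, l i - 2 * ∑ i ∈ S, l i ≤ l i2 ∧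
    ((S = (univ.erase i1).erase i2 ∧ ∑ i, l i ≤ 3 * ∑ i ∈ S, l i) ∨
      (2 * ∑ i, l i ≤ 5 * ∑ i ∈ S, l i ∧ 3 * (l i1 + l i2) ≤ 2 * (∑ i, l i - ∑ i ∈ S, l i)))

def S_G1b (θ : ℝ) : Prop := ∀ (j : ℕ) (ε : ℝ), 0 < ε → ∃ e0 : ℝ, 0 < e0 ∧
  ∀ e1 : ℝ, 0 < e1 → e1 ≤ e0 → ∀ D ε' : ℝ, 0 < D → 0 < ε' → ∀ R : ℕ, 2 ≤ R →
    ∀ᶠ N : ℝ in atTop, ∀ (K X1 X2 : ℕ) (c f : ArithmeticFunction ℝ),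
      Setup2 θ (119 / 100) N K X1 X2 →
      Bdd N (N ^ e1) D c → (∀ d, c d ≠ 0 → (d : ℝ) ≤ N ^ (10 / 11 : ℝ)) → Smo N f →
      Good N (N ^ e1) R K X1 X2 (c * f : ArithmeticFunction ℝ)
        (ms (N ^ (10 / 11 : ℝ)) (N ^ e1) c)
        (ε * e1 ^ j * ms (N ^ (10 / 11 : ℝ)) (N ^ e1) c + ε')

def S_G3b (θ : ℝ) : Prop := ∀ (j : ℕ) (ε : ℝ), 0 < ε → ∃ e0 : ℝ, 0 < e0 ∧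
  ∀ e1 : ℝ, 0 < e1 → e1 ≤ e0 → ∀ D ε' : ℝ, 0 < D → 0 < ε' → ∃ R1 : ℕ, ∀ R : ℕ, R1 ≤ R →
    ∀ᶠ N : ℝ in atTop, ∀ (K X1 X2 U1 U2 V1 V2 : ℕ) (y : ℝ) (c f1 f2 : ArithmeticFunction ℝ),
      Setup2 θ (119 / 100) N K X1 X2 → N ^ (33 / 50 : ℝ) ≤ y → y ≤ N ^ (10 / 11 : ℝ) →
      Bdd N (N ^ e1) D c → Sup N y c → Smo N f1 → Smo N f2 →
      N ^ (1 / 6 : ℝ) ≤ U1 → N ^ (1 / 6 : ℝ) ≤ V1 → (U2 : ℝ) ≤ U1 * N ^ (1 / 20 : ℝ) →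
      (U2 : ℝ) ≤ N ^ 3 → (V2 : ℝ) ≤ N ^ 3 →
      Good N (N ^ e1) R K X1 X2 (c * (rs U1 U2 f1 * rs V1 V2 f2) : ArithmeticFunction ℝ) 0
        (ε * e1 ^ j * ms (N ^ (10 / 11 : ℝ)) (N ^ e1) c + ε')

def S_G4b (θ : ℝ) : Prop := ∀ (j : ℕ) (ε : ℝ), 0 < ε → ∃ e0 : ℝ, 0 < e0 ∧
  ∀ e1 : ℝ, 0 < e1 → e1 ≤ e0 → ∀ D ε' : ℝ, 0 < D → 0 < ε' → ∃ R1 : ℕ, ∀ R : ℕ, R1 ≤ R →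
    ∀ᶠ N : ℝ in atTop, ∀ (K X1 X2 U1 U2 V1 V2 : ℕ) (y0 y1 y2 : ℝ)
      (c1 c2 f1 f2 : ArithmeticFunction ℝ), Setup2 θ (119 / 100) N K X1 X2 → P4 θ N y0 y1 y2 →
      Bdd N (N ^ e1) D c1 → Bdd N (N ^ e1) D c2 → Sup N y0 c1 →
      (∀ d, c2 d ≠ 0 → y1 ≤ d ∧ (d : ℝ) ≤ y2) → Smo N f1 → Smo N f2 →
      N ^ (21 / 20 : ℝ) ≤ y0 * U1 → N ^ (21 / 20 : ℝ) ≤ y0 * V1 →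
      (U2 : ℝ) ≤ U1 * N ^ (1 / 50 : ℝ) → (U2 : ℝ) ≤ N ^ 3 → (V2 : ℝ) ≤ N ^ 3 →
      Good N (N ^ e1) R K X1 X2 (c1 * c2 * (rs U1 U2 f1 * rs V1 V2 f2) : ArithmeticFunction ℝ) 0
        (ε * e1 ^ j * (ms (N ^ (10 / 11 : ℝ)) (N ^ e1) c1 * ms (N ^ (10 / 11 : ℝ)) (N ^ e1) c2) +
          ε')

def S_PR3b (θ β h : ℝ) : Prop := ∀ ε : ℝ, 0 < ε → ∃ e0 : ℝ, 0 < e0 ∧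
  ∀ e1 : ℝ, 0 < e1 → e1 ≤ e0 → ∃ R1 : ℕ, ∀ R : ℕ, R1 ≤ R → ∀ᶠ N : ℝ in atTop,
    ∀ (K X1 X2 n : ℕ) (f : Fin n → ArithmeticFunction ℝ) (w : Fin n → ℕ),
      Setup2 θ (119 / 100) N K X1 X2 → n ≤ 24 → (∀ i, Sm6 N (f i) ∨ Smo N (f i)) →
      Good N (N ^ e1) R K X1 X2 (∏ i, rs (⌈N ^ (w i * h)⌉₊ - 1)
        (min (⌈N ^ ((w i + 1) * h)⌉₊ - 1) ⌊N ^ β⌋₊) (f i) : ArithmeticFunction ℝ) 0 ε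

def S_PR2b (θ β : ℝ) : Prop := ∀ ε : ℝ, 0 < ε → ∃ e0 : ℝ, 0 < e0 ∧
  ∀ e1 : ℝ, 0 < e1 → e1 ≤ e0 → ∃ R1 : ℕ, ∀ R : ℕ, R1 ≤ R → ∀ᶠ N : ℝ in atTop,
    ∀ (K X1 X2 n : ℕ) (f : Fin n → ArithmeticFunction ℝ), Setup2 θ (119 / 100) N K X1 X2 →
      n ≤ 24 → (∀ i, Sm6 N (f i) ∨ Smo N (f i)) →
      Good N (N ^ e1) R K X1 X2 (∏ i, rs 0 ⌊N ^ β⌋₊ (f i) : ArithmeticFunction ℝ) 0 ε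

def S_PR1b (θ : ℝ) : Prop := ∀ ε : ℝ, 0 < ε → ∃ e0 : ℝ, 0 < e0 ∧
  ∀ e1 : ℝ, 0 < e1 → e1 ≤ e0 → ∃ C : ℝ, ∃ R1 : ℕ, ∀ R : ℕ, R1 ≤ R → ∀ᶠ N : ℝ in atTop,
    ∀ (K X1 X2 n : ℕ) (f : Fin n → ArithmeticFunction ℝ), Setup2 θ (119 / 100) N K X1 X2 →
      n ≤ 24 → (∀ i, Sm6 N (f i) ∨ Smo N (f i)) →
      Good N (N ^ e1) R K X1 X2 (∏ i, f i : ArithmeticFunction ℝ) C ε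

end Pool.Agent.P.MP_8be758_nt.Av3
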