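import Pool.Agent.P.MP_8be758_nt.Av3.DefB

/-! Statements of the steps of the type IV estimate. -/

namespace Pool.Agent.P.MP_8be758_nt.Av3

open Finset Real Filter Topology
open Pool.Agent.P.MP_e86632_nt (ee)
open Pool.Agent.P.MP_8be758_nt.Avg Pool.Agent.P.MP_8be758_nt.Av2

/-! ### Localized Fourier representation -/

def S_BMP : Prop := ∃ (χ χ1 χ2 : ℝ → ℝ) (C : ℝ), Bmp χ χ1 χ2 C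

def S_VD1 : Prop := ∀ (χ χ1 χ2 : ℝ → ℝ) (C : ℝ), Bmp χ χ1 χ2 C → ∃ C' : ℝ, 0 < C' ∧
  ∀ T η t : ℝ, 0 < T → 0 < η → η ≤ 1 / 10 → ‖vF χ T η t‖ ≤ C' / √T

def S_VD2 : Prop := ∀ (χ χ1 χ2 : ℝ → ℝ) (C : ℝ), Bmp χ χ1 χ2 C → ∃ C' : ℝ, 0 < C' ∧
  ∀ T η t : ℝ, 0 < T → 0 < η → η ≤ 1 / 10 → 8 * (T * η) ≤ |t - T| →
    ‖vF χ T η t‖ ≤ C' / (η * (t - T) ^ 2)

def S_VD : Prop := ∃ C : ℝ, 0 < C ∧ ∀ T η : ℝ, 0 < η → η ≤ 1 / 10 → 1 ≤ T * η ^ 2 →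
  ∃ F : ℝ → ℂ, Continuous F ∧ (∀ t, ‖F t‖ ≤ C / √T * WT (T * η) (t - T)) ∧
    ∀ l : ℝ, |l| ≤ η → ee (T * Real.exp l) = ∫ t : ℝ, F t * ee (t * l)

def S_OVL : Prop := ∃ C : ℝ, 0 < C ∧ ∀ (T δ η x s t : ℝ) (W : ℕ), 0 < T → 0 < δ → δ ≤ η → η ≤ 1 →
  T ≤ x → δ * T ≤ s → (∀ w < W, x + w * s ≤ 4 * T) →
  ∑ w ∈ range W, WT ((x + w * s) * η) (t - (x + w * s)) ≤ C * (η / δ) * WT T t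

def S_VREP : Prop := ∃ C : ℝ, 0 < C ∧ ∀ (ϖ A y η κ : ℝ) (J : ℕ) (c : ℕ → ℂ), 0 < ϖ → 0 < A →
  1 ≤ J → 0 < η → η ≤ κ → κ ≤ 1 / 20 → A ≤ Real.exp y → Real.exp y ≤ 2 * A →
  1 ≤ ϖ * J * A * κ ^ 2 → (∀ j, 2 * J ≤ j → c j = 0) →
  ∃ F : ℝ → ℂ, Continuous F ∧
    (∀ t, ‖F t‖ ≤ C * (κ / η) / √(ϖ * J * A) * (WT (ϖ * J * A) t * Jm J (Lw η J) c t)) ∧
    ∀ a1 ∈ Iw κ y, ∀ a2 ∈ Iw κ y, ∑ j ∈ Ico J (2 * J), c j * ee (ϖ * j * √((a1 : ℝ) * a2)) =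
      ∫ t : ℝ, F t * ee (t * ((Real.log a1 + Real.log a2) / 2))

/-! ### Mean values -/

def S_WMV : Prop := ∀ (ι : Type) (s : Finset ι) (d : ι → ℂ) (l : ι → ℝ) (T : ℝ), 0 < T →
  ∫ t : ℝ, WT T t * ‖∑ i ∈ s, d i * ee (t * l i)‖ ^ 2 ≤
    π * T * ∑ i ∈ s, ∑ i' ∈ s, ‖d i‖ * ‖d i'‖ * Real.exp (-(2 * π * T * |l i - l i'|))

def S_MOMG : Prop := ∀ (ι : Type) (s : Finset ι) (d : ι → ℂ) (m : ι → ℕ) (T Y D x : ℝ), 0 < T →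
  0 ≤ Y → (∀ i ∈ s, ‖d i‖ ≤ 1 ∧ 1 ≤ m i ∧ (m i : ℝ) ≤ Y) →
  (∀ n : ℕ, ((s.filter fun i => m i = n).card : ℝ) ≤ D) →
  ∫ t : ℝ, WT T t * ‖∑ i ∈ s, d i * ee ((t / 2 + x) * Real.log (m i))‖ ^ 2 ≤
    4 * s.card * D * (T + Y)

def S_M46 : Prop := ∀ (U : ℕ) (f : ℕ → ℂ) (T τ x : ℝ), 0 < T → 1 ≤ U → (∀ u, ‖f u‖ ≤ 1) →
  (TauB ((U : ℝ) ^ 2) τ → ∫ t : ℝ, WT T t * ‖dp (Icc 1 U) f (t / 2 + x)‖ ^ 4 ≤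
    4 * τ * (U : ℝ) ^ 2 * (T + (U : ℝ) ^ 2)) ∧
  (TauB ((U : ℝ) ^ 3) τ → ∫ t : ℝ, WT T t * ‖dp (Icc 1 U) f (t / 2 + x)‖ ^ 6 ≤
    4 * τ ^ 2 * (U : ℝ) ^ 3 * (T + (U : ℝ) ^ 3))

def S_CNT8 : Prop := ∀ (J L : ℕ) (τ : ℝ), 1 ≤ L → L ≤ J → TauB (100 * (J : ℝ) ^ 4) τ →
  (cnt8 J L 0 : ℝ) ≤ 2 * τ ^ 4 * (J * (L : ℝ) ^ 3) ∧
  ∀ D : ℤ, D ≠ 0 → (cnt8 J L D : ℝ) ≤ 32 * τ ^ 8 * (J + (L : ℝ) ^ 4)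

def S_J8 : Prop := ∃ C : ℝ, 0 < C ∧ ∀ (J L : ℕ) (c : ℕ → ℂ) (T τ : ℝ), 1 ≤ L → L ≤ J → 0 < T →
  (∀ j, ‖c j‖ ≤ 1) → TauB (100 * (J : ℝ) ^ 4) τ →
  ∫ t : ℝ, WT T t * Jm J L c t ^ 8 ≤
    C * τ ^ 8 * (T * (J * (L : ℝ) ^ 3) + (J : ℝ) ^ 4 * (J + (L : ℝ) ^ 4))

def S_EB : Prop := ∀ (a b c : ℝ → ℝ) (T P8 P4 P6 G : ℝ), CB a → CB b → CB c → 0 < T → 0 < P8 →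
  0 < P4 → 0 < P6 → 0 < G → ∫ t : ℝ, WT T t * a t ^ 8 ≤ P8 * T →
  ∫ t : ℝ, WT T t * b t ^ 4 ≤ P4 * T → ∫ t : ℝ, WT T t * c t ^ 6 ≤ P6 * T →
  P8 ^ 3 * P4 ^ 12 * P6 ^ 8 ≤ G ^ 24 →
  ∫ t : ℝ, WT T t * a t * (b t ^ 2 * c t ^ 2) ≤ 7 * G * T

def S_EE : Prop := ∃ C : ℝ, 0 < C ∧ ∀ (A T η τ Y x : ℝ) (J L U V n : ℕ) (c : ℕ → ℂ)
  (f g : ℕ → ℝ), 0 < A → 0 < T → 0 < η → 1 ≤ L → L ≤ J → (∀ j, ‖c j‖ ≤ 1) → FG U V f g →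
  U * V ≤ n → (U : ℝ) * V ≤ 4 * A → TauB (100 * (J : ℝ) ^ 4) τ → TauB ((U : ℝ) ^ 2) τ →
  TauB ((V : ℝ) ^ 3) τ → C * τ ^ 52 ≤ Y → Y ^ 25 * nq T U V J L ≤ (η * A) ^ 24 →
  ∫ t : ℝ, WT T t * Jm J L c t * ‖dp (Icc 1 n) (fun a => (cv f g a : ℂ)) (t / 2 + x)‖ ^ 2 ≤
    7 * (η * A ^ 2 * √T / Y)

/-! ### The oscillating sums -/

def S_BIL : Prop := ∀ (P : ℝ → ℝ) (F : ℝ → ℂ) (R : ℝ) (I : Finset ℕ) (d1 d2 : ℕ → ℂ), PW P →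
  Continuous F → (∀ t, ‖F t‖ ≤ P t) → 0 < R →
  ‖∑ a1 ∈ I, ∑ a2 ∈ I, d1 a1 * d2 a2 * (gs (R * lq a1 a2) : ℂ) *
    ∫ t : ℝ, F t * ee (t * ((Real.log a1 + Real.log a2) / 2))‖ ≤ (QQ P R I d1 + QQ P R I d2) / 2

def S_QY : Prop := ∀ (P : ℝ → ℝ) (R η E y1 y2 : ℝ) (I : Finset ℕ) (d : ℕ → ℂ), PW P → 0 < R →
  0 < η → y1 ≤ y2 → (∀ x, ∫ t : ℝ, P t * ‖dp I d (t / 2 + x)‖ ^ 2 ≤ E) →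
  IB y1 y2 (fun y => QQ P R I fun a => (gw η y a : ℂ) * d a) (η * E)

def S_QW : Prop := ∃ C : ℝ, 0 < C ∧ ∀ (ϖ R A η κ τ Y y2 : ℝ) (J U V : ℕ) (c : ℕ → ℂ)
  (f1 g1 f2 g2 : ℕ → ℝ), 0 < ϖ → 0 < R → 1 ≤ A → 1 ≤ J → 0 < η → η ≤ κ → κ ≤ 1 / 20 →
  Real.log A ≤ y2 → Real.exp y2 ≤ 2 * A → 1 ≤ ϖ * J * A * κ ^ 2 → (∀ j, ‖c j‖ ≤ 1) →
  FG U V f1 g1 → FG U V f2 g2 → (U : ℝ) * V ≤ 4 * A → TauB (100 * (J : ℝ) ^ 4) τ →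
  TauB ((U : ℝ) ^ 2) τ → TauB ((V : ℝ) ^ 3) τ → C * τ ^ 52 ≤ Y →
  Y ^ 25 * nq (ϖ * J * A) U V J (Lw η J) ≤ (η * A) ^ 24 →
  A ^ 4 * J * √(ϖ * J * A) * gs (κ / η) * Y ≤ η ^ 2 * A ^ 2 →
  IB (Real.log A) y2 (fun y => ‖ob ϖ R c (Ico J (2 * J)) (wd η y (cv f1 g1)) (wd η y (cv f2 g2))
    (Iw κ y)‖) (C * (κ / η) * (η ^ 2 * A ^ 2 / Y))

def S_CLS : Prop := ∀ (μ U V : ℕ) (R η κ y1 y2 E : ℝ) (c : ℕ → ℂ) (Js : Finset ℕ) (f g : ℕ → ℝ),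
  1 ≤ μ → (∀ j, ‖c j‖ ≤ 1) → FG U V f g →
  (∀ (c' : ℕ → ℂ) (f1 g1 f2 g2 : ℕ → ℝ), (∀ j, ‖c' j‖ ≤ 1) → FG U V f1 g1 → FG U V f2 g2 →
    IB y1 y2 (fun y => ‖ob (1 / (μ : ℝ) ^ 2) R c' Js (wd η y (cv f1 g1)) (wd η y (cv f2 g2))
      (Iw κ y)‖) E) →
  IB y1 y2 (fun y => ‖os μ R c Js (wd η y (cv f g)) (Iw κ y)‖) ((2 * (μ : ℝ) ^ 2) ^ 4 * E)

/-! ### The dispersion estimate in a narrow window -/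

def S_LAYC : Prop := ∀ (x0 x1 : ℕ) (g w : ℕ → ℝ) (e : ℝ), UM w →
  (∀ x x' : ℕ, x0 ≤ x → x' ≤ x1 → |∑ a ∈ Ioc x x', g a| ≤ e) → |∑ a ∈ Ioc x0 x1, w a * g a| ≤ e

def S_MNT : Prop := ∀ (α : ℕ → ℝ) (X Q D e η κ y : ℝ), Maj α X Q D e → (∀ a, |α a| ≤ 1) →
  0 ≤ e → Real.exp (y + κ) ≤ X → Real.exp (y + κ) + 1 ≤ Real.exp (y - κ) + D →
  (∀ (μ : ℕ) (R : ℝ), 1 ≤ μ → 2 * (μ : ℝ) ≤ Q →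
    ‖osj μ R (wd η y α) (Iw κ y) 0‖ ≤ (Iw κ y).card * e) ∧
  ∀ W k b : ℕ, 1 ≤ W → (W : ℝ) ≤ Q → 1 ≤ b →
    |∑ a ∈ Iw κ y, wd η y α a * md W k (a * b)| ≤ (W : ℝ) ^ 2 * e / √(Real.exp (y - κ) * b)

def S_DG0 : Prop := ∃ C : ℝ, 0 < C ∧ ∀ (A B K τ : ℝ) (n0 : ℕ) (I : Finset ℕ), 0 < A → 0 < B →
  1 ≤ K → K ≤ A * B → (∀ a ∈ I, 1 ≤ a ∧ (a : ℝ) ≤ A) → TauB (A * n0) τ → 0 ≤ τ →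
  dg (cw B K) (fun _ => 1) I n0 ≤ C * τ * √(A * B) * K

def S_DGI : Prop := ∃ C : ℝ, 0 < C ∧ ∀ (A B K τ κ y1 y2 : ℝ) (n0 : ℕ), 0 < A → 0 < B → 1 ≤ K →
  K ≤ A * B → 0 < κ → y1 ≤ y2 → Real.exp (y2 + κ) ≤ A → TauB (A * n0) τ → 0 ≤ τ →
  IB y1 y2 (fun y => dg (cw B K) (fun _ => 1) (Iw κ y) n0) (C * κ * τ * √(A * B) * K)

def S_PMJ : Prop := ∃ C : ℝ, 0 < C ∧ ∀ (A B K η T : ℝ) (n0 : ℕ) (I : Finset ℕ), 1 ≤ A → 0 < B →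
  0 < K → 0 < η → η ≤ 1 / 4 → 1 ≤ T → 4 * K * T ≤ η * A → 2 * A ≤ n0 → (n0 : ℝ) ≤ 4 * A →
  Nar A η I → offS (fun _ => 1) I n0 (modT nuo B K) ≤
    C * ((η * √(A / B) + 1) * dg (cw (2 * B) K) (fun _ => 1) I n0 + A ^ 5 * gs (T / 2) +
      (1 + Real.log A) * K * A / B)

def S_FZG : Prop := ∃ C : ℝ, 0 < C ∧ ∀ (M H κ ε y : ℝ) (n0 μ0 : ℕ) (d : ℕ → ℝ), 0 < M → 0 < H →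
  0 < κ → κ ≤ 1 / 20 → 0 < ε → 3 * κ * M ≤ ε * μ0 → μ0 ≤ n0 → (∀ a, |d a| ≤ 1) →
  |offS d (Iw κ y) n0 (modT nuo (Real.exp y / M ^ 2) (Real.exp y / H)) -
      offS d (Iw κ y) μ0 (modG M H)| ≤
    C * (κ * offS (fun _ => 1) (Iw κ y) n0
        (modT nuo (2 * (Real.exp y / M ^ 2)) (2 * (Real.exp y / H))) +
      ε ^ 2 * offS (fun _ => 1) (Iw κ y) n0
        (modT nuo (ε ^ 2 * (Real.exp y / M ^ 2)) (Real.exp y / H)))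

def S_PSN : Prop := ∀ (M H : ℝ) (μ0 i0 : ℕ) (d : ℕ → ℝ) (I : Finset ℕ), 0 < H →
  (∀ a, |d a| ≤ 1) → |offS d I μ0 (modG M H)| ≤ 1 / H * (osT μ0 i0 M H d I +
    μ0 * (I.card : ℝ) ^ 2 * (gs (2 ^ i0 / (4 * H)) * (4 * (1 + 4 * H))))

def S_PT : Prop := ∃ C : ℝ, 0 < C ∧ ∀ (A B Z y : ℝ) (K i0 : ℕ) (S : Finset ℕ) (d : ℕ → ℝ),
  Hq A B Z K → A ≤ Real.exp y → Real.exp y ≤ 5 / 4 * A → A / K * Z ≤ 2 ^ i0 →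
  (∀ b ∈ S, B ≤ b ∧ (b : ℝ) ≤ 2 * B ∧ Odd b) → (∀ a, |d a| ≤ 1) →
  ∑ k ∈ Icc 1 K, ∑ b ∈ S, Qf d (Iw (et A B Z * Z) y) ⌈3 * A⌉₊ b k ≤
    C * (dg (cw (8 * B) (4 * K)) (fun _ => 1) (Iw (et A B Z * Z) y) ⌈3 * A⌉₊ + Z * K * A / B +
      K / A * osT ⌊Z ^ 64⌋₊ i0 √(A / B) (A / K) d (Iw (et A B Z * Z) y))

def S_QI : Prop := ∃ C : ℝ, 0 < C ∧ ∀ (A B Z y2 : ℝ) (K U V : ℕ) (S : Finset ℕ) (f g : ℕ → ℝ),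
  Hq A B Z K → C ≤ Z → Real.log A ≤ y2 → Real.exp y2 ≤ 5 / 4 * A →
  (∀ b ∈ S, B ≤ b ∧ (b : ℝ) ≤ 2 * B ∧ Odd b) → FG U V f g → (U : ℝ) * V ≤ 4 * A →
  (∀ a, |cv f g a| ≤ 1) → Maj (cv f g) (2 * A) (Z ^ 70) (Z ^ 40 * √(A * B)) (√(A * B) / Z ^ 100) →
  Num A B Z K U V →
  IB (Real.log A) y2 (fun y => ∑ k ∈ Icc 1 K, ∑ b ∈ S,
    Qf (wd (et A B Z) y (cv f g)) (Iw (et A B Z * Z) y) ⌈3 * A⌉₊ b k)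
    (K * et A B Z ^ 2 * A / Z ^ 20)

def S_E40 : Prop := ∃ C : ℝ, 0 < C ∧ ∀ (A B Z y2 : ℝ) (K W U V : ℕ) (S : Finset ℕ)
  (β f g : ℕ → ℝ), Hq A B Z K → C ≤ Z → Real.log A ≤ y2 → Real.exp y2 ≤ 5 / 4 * A → 1 ≤ W →
  (W : ℝ) ≤ Z → (∀ b ∈ S, B ≤ b ∧ (b : ℝ) ≤ 2 * B ∧ Squarefree b ∧ Odd b) → (∀ b, |β b| ≤ 1) →
  FG U V f g → (U : ℝ) * V ≤ 4 * A → (∀ a, |cv f g a| ≤ 1) →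
  Maj (cv f g) (2 * A) (Z ^ 70) (Z ^ 40 * √(A * B)) (√(A * B) / Z ^ 100) → Num A B Z K U V →
  IB (Real.log A) y2 (fun y => tb K W S β (Iw (et A B Z * Z) y) (wd (et A B Z) y (cv f g)) ^ 2)
    ((et A B Z * K * √(A * B) / Z ^ 9) ^ 2)

def S_WIN : Prop := ∀ (K W A1 A2 : ℕ) (S J : Finset ℕ) (β α : ℕ → ℝ) (η κ s : ℝ), 0 < η → η ≤ κ →
  κ ≤ 1 / 2 → 0 < s → 1 ≤ A1 → A1 ≤ A2 → A2 ≤ 2 * A1 → (∀ b, |β b| ≤ 1) → (∀ a, |α a| ≤ 1) →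
  (∀ a ∈ J, 1 ≤ a) → Ioc A1 A2 ⊆ J →
  (∀ y, Real.log A1 ≤ y → y ≤ Real.log A2 → Iw κ y ⊆ J) →
  IB (Real.log A1) (Real.log A2) (fun y => tb K W S β (Iw κ y) (wd η y α) ^ 2) (s ^ 2) →
  ∃ ω : ℕ → ℝ, (∀ a, |ω a| ≤ 1) ∧
    ∑ a ∈ J, |ω a| ≤ 9 * κ * A1 + 2 + J.card * (2 * gs (κ / η)) ∧
    tb K W S β (Ioc A1 A2) α ≤
      s / η + K * (S.card * (J.card * (gs (κ / η) * (1 + W)))) / η + tb K W S β J ω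

def S_NUM1 (θ ζ : ℝ) : Prop := ∀ᶠ N : ℝ in atTop, ∀ (K : ℕ) (A B : ℝ), N ^ θ ≤ K →
  (K : ℝ) ≤ N ^ (81 / 100 : ℝ) → N ^ (79 / 100 : ℝ) ≤ B → B ≤ N ^ (10 / 11 : ℝ) →
  24 / 25 * N ^ 2 ≤ A * B → A * B ≤ 6 / 5 * N ^ 2 →
  Hq A B (Zq ζ N) K ∧ et A B (Zq ζ N) * Zq ζ N ≤ 1 / N ^ (1 / 20 : ℝ) ∧
    1 / N ≤ et A B (Zq ζ N)

def S_NUM2 (θ ζ : ℝ) : Prop := ∀ᶠ N : ℝ in atTop, ∀ (A B K U V : ℝ), N ^ θ ≤ K →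
  N ^ (4 / 5 - (θ - 8 / 11) / 10) ≤ B → B ≤ N ^ (10 / 11 : ℝ) → 24 / 25 * N ^ 2 ≤ A * B →
  A * B ≤ 6 / 5 * N ^ 2 → 1 ≤ U → 1 ≤ V → U * V ≤ 4 * A → U ≤ N ^ (83 / 100 : ℝ) →
  V ^ 2 ≤ N ^ (3 / 10 : ℝ) * B → Num A B (Zq ζ N) K U V

def S_E4 (θ ζ : ℝ) : Prop := ∀ W : ℕ, 1 ≤ W → ∀ᶠ N : ℝ in atTop,
  ∀ (K A1 A2 U V : ℕ) (B : ℝ) (S : Finset ℕ) (β f g : ℕ → ℝ), T4 θ N K B S β →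
    N ^ (4 / 5 - (θ - 8 / 11) / 10) ≤ B → 24 / 25 * N ^ 2 ≤ A1 * B → A1 ≤ A2 →
    A2 * B ≤ 6 / 5 * N ^ 2 → FG U V f g → (U : ℝ) * V ≤ 4 * A1 → (U : ℝ) ≤ N ^ (83 / 100 : ℝ) →
    (V : ℝ) ^ 2 ≤ N ^ (3 / 10 : ℝ) * B → (∀ a, |cv f g a| ≤ 1) →
    Maj (cv f g) (2 * A1) (Zq ζ N ^ 70) (Zq ζ N ^ 41 * N) (N / Zq ζ N ^ 101) →
    tb K W S β (Ioc A1 A2) (cv f g) ≤ K * N / Zq ζ N ^ 8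

/-! ### The type IV sums -/

def S_HARM : Prop := ∀ (per : ℕ → ℝ) (Q : ℕ) (a b : ℝ), 1 ≤ Q → (∀ u, |per u| ≤ 1) →
  (∀ u, per (u + Q) = per u) → 0 < a → a ≤ b →
  |∑ u ∈ Ioc ⌊a⌋₊ ⌊b⌋₊, per u / u - (∑ r ∈ range Q, per r) / Q * Real.log (b / a)| ≤ 4 * Q / a

def S_MJ1 : Prop := ∀ (per : ℕ → ℝ) (Q n : ℕ) (x1 x2 w1 w2 ρ a a' : ℝ), 1 ≤ Q →
  (∀ u, |per u| ≤ 1) → (∀ u, per (u + Q) = per u) → 1 ≤ ρ → 0 < x1 → 0 < w1 → w1 ≤ w2 →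
  0 ≤ a → a ≤ a' → a' ≤ w1 * n →
  |∑ u ∈ Icc 1 n, cut x1 x2 per u * ln2 w1 w2 a a' u -
    ∑ u ∈ Icc 1 n, cut (x1 / ρ) (x2 / ρ) per u * ln2 (ρ * w1) (ρ * w2) a a' u| ≤
    8 * (a' - a) * (Q * ρ / x1)

def S_MAJ0 : Prop := ∃ C : ℝ, 0 < C ∧ ∀ (E1 E2 q s x x' : ℕ) (c : ℕ → ℝ) (x1 x2 w1 w2 ρ : ℝ),
  1 ≤ E1 → 1 ≤ E2 → 1 ≤ q → x ≤ x' → 1 ≤ x' → (∀ v, |c v| ≤ 1) → 1 ≤ ρ → 0 < x1 → 1 ≤ w1 →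
  w1 ≤ w2 →
  |∑ a ∈ (Ioc x x').filter (fun a => a ≡ s [MOD q]), cv c (bd (dv E1) (dv E2) x1 x2 w1 w2 ρ) a| ≤
    C * (1 + Real.log x') * q * (x' / w1 + ((x' : ℝ) - x) * (E1 * ρ / x1))

def S_MAJ (ζ : ℝ) : Prop := ∀ᶠ N : ℝ in atTop,
  ∀ (z B x1 x2 w1 w2 ρ : ℝ) (lam : Finset ℕ → ℝ) (c : ℕ → ℝ), 1 ≤ B → B ≤ N →
    Sq N B x1 x2 w1 w2 ρ → ∑ E ∈ (PL z).powerset, |lam E| ≤ Zq ζ N →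
    (∀ E ∈ (PL z).powerset, lam E ≠ 0 → ∏ p ∈ E, (p : ℝ) ≤ Zq ζ N ^ 2) → (∀ v, |c v| ≤ 1) →
    Maj (cv c (bd (svL z lam) (svL z lam) x1 x2 w1 w2 ρ)) (3 * N ^ 2 / B) (Zq ζ N ^ 70)
      (Zq ζ N ^ 41 * N) (N / Zq ζ N ^ 101)

def S_SWAP4 (θ ζ : ℝ) : Prop := ∀ W : ℕ, 1 ≤ W → ∀ᶠ N : ℝ in atTop,
  ∀ (K A1 A2 : ℕ) (z B y1 y2 x1 x2 w1 w2 ρ : ℝ) (S : Finset ℕ) (β c : ℕ → ℝ)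
    (lam : Finset ℕ → ℝ), T4 θ N K B S β → P4 θ N B y1 y2 → 24 / 25 * N ^ 2 ≤ A1 * B →
    A2 * B ≤ 6 / 5 * N ^ 2 → (∀ v, |c v| ≤ 1) → (∀ v, c v ≠ 0 → y1 ≤ v ∧ (v : ℝ) ≤ y2) →
    Sq N B x1 x2 w1 w2 ρ → ∑ E ∈ (PL z).powerset, |lam E| ≤ Zq ζ N →
    (∀ E ∈ (PL z).powerset, lam E ≠ 0 → ∏ p ∈ E, (p : ℝ) ≤ Zq ζ N ^ 2) →
    tb K W S β (Ioc A1 A2) (cv c (bd (svL z lam) (svL z lam) x1 x2 w1 w2 ρ)) ≤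
      K * N / Zq ζ N ^ 2

def S_REP4 : Prop := ∀ (z L δ X x1 x2 w1 w2 g : ℝ) (lam Del : Finset ℕ → ℝ) (Dd : Finset ℕ)
  (c : ℕ → ℝ), FLData z L δ lam Del → 0 ≤ δ → δ ≤ 1 → 0 ≤ X → 1 ≤ x1 → x1 ≤ x2 → 0 < w1 →
  Real.log (x2 / x1) ≤ g → (∀ d, c d ≠ 0 → d ∈ Dd) →
  ∑ a ∈ Icc 1 ⌊X⌋₊, |cv c (fun u => bx (svL z lam) (svL z lam) x1 x2 w1 w2 u -
      bx (rI z) (rI z) x1 x2 w1 w2 u) a| ≤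
    X * (∑ d ∈ Dd, |c d| / d) * (2 * (δ * (Vz z + δ) * g) + 3 * L / x1 + 2 * L ^ 2 / w1)

def S_SW4 (θ : ℝ) : Prop := ∀ (j : ℕ) (ε : ℝ), 0 < ε → ∃ e0 : ℝ, 0 < e0 ∧
  ∀ e1 : ℝ, 0 < e1 → e1 ≤ e0 → ∀ W : ℕ, 1 ≤ W → ∀ᶠ N : ℝ in atTop,
    ∀ (K A1 A2 : ℕ) (B y1 y2 x1 x2 w1 w2 ρ : ℝ) (S : Finset ℕ) (β c : ℕ → ℝ), T4 θ N K B S β →
      P4 θ N B y1 y2 → 24 / 25 * N ^ 2 ≤ A1 * B → A2 * B ≤ 6 / 5 * N ^ 2 → Coef (N ^ e1) 0 c →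
      (∀ v, c v ≠ 0 → y1 ≤ v ∧ (v : ℝ) ≤ y2) → Sq N B x1 x2 w1 w2 ρ →
      tb K W S β (Ioc A1 A2) (cv c (bd (rI (N ^ e1)) (rI (N ^ e1)) x1 x2 w1 w2 ρ)) ≤
        (ε * e1 ^ j * ms (N ^ (10 / 11 : ℝ)) (N ^ e1) c * ∑ b ∈ S, |β b| / b +
          1 / Real.log N ^ 2) * K * N / Real.log N

def S_IV (θ : ℝ) : Prop := ∀ (j : ℕ) (ε : ℝ), 0 < ε → ∃ e0 : ℝ, 0 < e0 ∧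
  ∀ e1 : ℝ, 0 < e1 → e1 ≤ e0 → ∀ ε' : ℝ, 0 < ε' → ∃ R1 : ℕ, ∀ R : ℕ, R1 ≤ R →
    ∀ᶠ N : ℝ in atTop, ∀ (K X1 X2 U1 U2 V1 V2 : ℕ) (y0 y1 y2 : ℝ) (β c : ℕ → ℝ),
      Setup2 θ (119 / 100) N K X1 X2 → P4 θ N y0 y1 y2 → Coef (N ^ e1) y0 β → Sup N y0 β →
      Coef (N ^ e1) 0 c → (∀ v, c v ≠ 0 → y1 ≤ v ∧ (v : ℝ) ≤ y2) →
      N ^ (21 / 20 : ℝ) ≤ y0 * U1 → N ^ (21 / 20 : ℝ) ≤ y0 * V1 →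
      (U2 : ℝ) ≤ U1 * N ^ (1 / 50 : ℝ) →
      ∑ k ∈ Icc 1 K, |bil X1 X2 (cv β c) (tauR (N ^ e1) U1 U2 V1 V2) (dd R.factorial k)| ≤
        (ε * e1 ^ j * (ms (N ^ (10 / 11 : ℝ)) (N ^ e1) β * ms (N ^ (10 / 11 : ℝ)) (N ^ e1) c) +
          ε') * K * N / Real.log N

end Pool.Agent.P.MP_8be758_nt.Av3
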