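import Pool.Agent.P.MP_8be758_nt.Av3.BasB

/-! The step `S_LAYC`. -/

namespace Pool.Agent.P.MP_8be758_nt.Av3

open Finset Real Filter Topology
open Pool.Agent.P.MP_e86632_nt (ee)
open Pool.Agent.P.MP_8be758_nt.Avg Pool.Agent.P.MP_8be758_nt.Av2

/-- Abel summation for a decreasing weight -/
theorem layc_anti {x n : ℕ} (hx : x ≤ n) (g : ℕ → ℝ) (e : ℝ) (q : ℕ → ℝ) (hq : Antitone q)
    (h0 : 0 ≤ q n) (h : ∀ x' ≤ n, |∑ a ∈ Ioc x x', g a| ≤ e) :
    |∑ a ∈ Ioc x n, q a * g a| ≤ q x * e := by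
  induction n, hx using Nat.le_induction generalizing q with
  | base => simpa using mul_nonneg h0 ((abs_nonneg _).trans (h x le_rfl))
  | succ n hn ih =>
    have h1 := ih (fun a => q a - q (n + 1)) (fun a b hab => sub_le_sub_right (hq hab) _)
      (sub_nonneg.2 (hq (Nat.le_succ n))) fun x' hx' => h x' (hx'.trans (Nat.le_succ n))
    have h2 := mul_le_mul_of_nonneg_left (h (n + 1) le_rfl) h0
    have e1 : ∑ a ∈ Ioc x (n + 1), q a * g a = ∑ a ∈ Ioc x n, (q a - q (n + 1)) * g a +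
        q (n + 1) * ∑ a ∈ Ioc x (n + 1), g a := by
      simp only [sum_Ioc_succ_top hn, sub_mul, sum_sub_distrib, mul_add, mul_sum]
      ring
    rw [e1]
    refine (abs_add_le _ _).trans ?_
    rw [abs_mul, abs_of_nonneg h0]
    linarith

theorem t_LAYC : S_LAYC := by
  rintro x0 x1 g w e ⟨p, q, h1, h2, h3, h4, h5⟩ h
  have he : 0 ≤ e := (abs_nonneg _).trans (h x0 0 le_rfl (Nat.zero_le _))
  obtain ⟨c, c0, c1, hc⟩ := lay_cake x0 x1 p (fun u _ _ => h3 u) fun u u' _ hu => h1 hu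
  have e1 : ∑ a ∈ Ioc x0 x1, w a * g a =
      ∑ t ∈ Ico x0 x1, c t * ∑ a ∈ Ioc t x1, q a * g a := by
    calc _ = ∑ a ∈ Ioc x0 x1, ∑ t ∈ Ico x0 x1,
          c t * (if t < a ∧ a ≤ x1 then q a * g a else 0) := sum_congr rfl fun a ha => by
          have h6 := hc a
          rw [if_pos (mem_Ioc.1 ha)] at h6
          rw [h5, h6, mul_assoc, sum_mul]
          exact sum_congr rfl fun t _ => by split_ifs <;> ring
      _ = _ := by
          rw [sum_comm]
          refine sum_congr rfl fun t ht => ?_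
          rw [← mul_sum, ← sum_filter]
          congr 2
          ext a
          have := mem_Ico.1 ht
          simp only [mem_filter, mem_Ioc]
          omega
  rw [e1]
  calc _ ≤ ∑ t ∈ Ico x0 x1, c t * e := (abs_sum_le_sum_abs _ _).trans (sum_le_sum fun t ht => by
        rw [abs_mul, abs_of_nonneg (c0 t ht)]
        refine mul_le_mul_of_nonneg_left ((layc_anti (mem_Ico.1 ht).2.le g e q h2 (h4 _).1
          fun x' hx' => h t x' (mem_Ico.1 ht).1 hx').trans ?_) (c0 t ht)
        exact mul_le_of_le_one_left he (h4 _).2)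
    _ ≤ e := by
        rw [← sum_mul]
        exact mul_le_of_le_one_left he c1

end Pool.Agent.P.MP_8be758_nt.Av3
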