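import Pool.Agent.P.MP_8be758_nt.Av3.BasB

/-! The step `S_NUM1`. -/

namespace Pool.Agent.P.MP_8be758_nt.Av3

open Finset Real Filter Topology
open Pool.Agent.P.MP_e86632_nt (ee)
open Pool.Agent.P.MP_8be758_nt.Avg Pool.Agent.P.MP_8be758_nt.Av2

theorem t_NUM1 (θ ζ : ℝ) (hP : Pm θ ζ) : S_NUM1 θ ζ := by
  have z0 := hP.z0
  have z1 := hP.z1
  filter_upwards [ev_zq0 z0 16, ev_zq z0 3 1, ev_zq_gs z0 40 (c := 1 / 4) (by norm_num),
    ev_zq_tau z0 12,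
    ev_zq_pow ζ (25 / 24) 200 (a := 10 / 11 * (2 : ℕ)) (b := (2 : ℕ)) (by push_cast; linarith),
    bx_ev2 (6 / 5) (show ((2 : ℕ) : ℝ) < 79 / 100 * (3 : ℕ) by norm_num),
    bx_ev2 (25 / 24) (show (81 / 100 * (2 : ℕ) : ℝ) < (2 : ℕ) by norm_num),
    ev_zq_pow ζ 2 31 (a := 10 / 11 + 1 / 20) (b := 1) (by push_cast; linarith),
    ev_const (6 / 5) (show (0 : ℝ) < 79 / 100 by norm_num), eventually_ge_atTop 3]
    with N e1 e2 e3 e4 e5 e6 e7 e8 e9 hN K A B k1 k2 b1 b2 a1 a2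
  have N0 : 0 < N := by linarith
  have N1 : 1 ≤ N := by linarith
  rw [← bx_pw N0, Real.rpow_natCast] at e5 e6 e7
  rw [Real.rpow_add N0, Real.rpow_one] at e8
  have B1 : 6 / 5 ≤ B := e9.trans b1
  have B0 : 0 < B := by linarith
  have A0 : 0 < A := (mul_pos_iff_of_pos_right B0).1 (lt_of_lt_of_le (by positivity) a1)
  have AN : A ≤ N ^ 2 := by nlinarith
  have Z0 := zq_pos N0 ζ
  have hl : 1 ≤ Real.log N := by
    rw [Real.le_log_iff_exp_le N0]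
    linarith [Real.exp_one_lt_d9]
  have hq : Hq A B (Zq ζ N) K := by
    refine ⟨e1, le_of_mul_le_mul_right ?_ B0, le_of_mul_le_mul_right ?_ B0, B0, ?_, ?_, ?_, ?_,
      e4.mono ?_ le_rfl⟩
    · have h1 : B ^ 2 ≤ (N ^ (10 / 11 : ℝ)) ^ 2 := by gcongr
      have h2 := mul_le_mul_of_nonneg_left h1 (pow_pos Z0 200).le
      nlinarith
    · have h1 : (N ^ (79 / 100 : ℝ)) ^ 3 ≤ B ^ 3 := by gcongr
      nlinarith
    · exact_mod_cast (Real.one_le_rpow N1 (by linarith [hP.t2])).trans k1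
    · have h1 : (K : ℝ) ^ 2 ≤ (N ^ (81 / 100 : ℝ)) ^ 2 := by gcongr
      linarith
    · have h1 := Real.log_le_log A0 AN
      rw [Real.log_pow] at h1
      push_cast at h1
      linarith
    · refine le_trans ?_ e3
      rw [show Zq ζ N / 4 = 1 / 4 * Zq ζ N by ring, show 40 = 2 * 20 by norm_num, pow_mul]
      have := gs_pos (1 / 4 * Zq ζ N)
      gcongr
    · rw [show 12 = 2 * 6 by norm_num, pow_mul]
      gcongr
  refine ⟨hq, ?_, ?_⟩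
  · have h1 : N / 2 ≤ √(A * B) := Real.le_sqrt_of_sq_le (by nlinarith)
    have h2 := hq.ets
    have h3 := hq.et0
    have h4 : 0 < N ^ (1 / 20 : ℝ) := by positivity
    rw [le_div_iff₀ h4]
    refine le_of_mul_le_mul_right ?_ N0
    calc et A B (Zq ζ N) * Zq ζ N * N ^ (1 / 20 : ℝ) * N
        = 2 * Zq ζ N * N ^ (1 / 20 : ℝ) * (et A B (Zq ζ N) * (N / 2)) := by ring
      _ ≤ 2 * Zq ζ N * N ^ (1 / 20 : ℝ) * (et A B (Zq ζ N) * √(A * B)) := by gcongr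
      _ ≤ 2 * Zq ζ N * N ^ (1 / 20 : ℝ) * (Zq ζ N ^ 30 * N ^ (10 / 11 : ℝ)) := by
          rw [h2]
          gcongr
      _ = 2 * Zq ζ N ^ 31 * (N ^ (10 / 11 : ℝ) * N ^ (1 / 20 : ℝ)) := by ring
      _ ≤ 1 * N := by rwa [one_mul]
  · have h1 : √(A / B) ≤ N :=
      Real.sqrt_le_iff.2 ⟨N0.le, (div_le_self A0.le hq.b1).trans AN⟩
    exact div_le_div₀ (pow_pos Z0 30).le (hq.one 30) hq.m0 h1

end Pool.Agent.P.MP_8be758_nt.Av3
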