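import Pool.Agent.P.MP_8be758_nt.Av3.Basic

/-! The step `S_PR1b`. -/

namespace Pool.Agent.P.MP_8be758_nt.Av3

open Finset Real Filter Topology
open Pool.Agent.P.MP_e86632_nt (ee)
open Pool.Agent.P.MP_8be758_nt.Avg Pool.Agent.P.MP_8be758_nt.Av2

/-- one term with a long smooth factor -/
theorem pr1b_key {N z β D M e η : ℝ} {R K X1 X2 : ℕ} (hN : 1 < N) (h2 : β ≤ 10 / 11)
    (hX : N ^ 2 ≤ X1) (hD : 1 ≤ D) (he : 0 ≤ e)
    (H1 : ∀ c f : ArithmeticFunction ℝ, Bdd N z D c →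
      (∀ d, c d ≠ 0 → (d : ℝ) ≤ N ^ (10 / 11 : ℝ)) → Smo N f →
      Good N z R K X1 X2 (c * f :) (ms (N ^ (10 / 11 : ℝ)) z c)
        (e * ms (N ^ (10 / 11 : ℝ)) z c + η))
    (H2 : ∀ φ ψ : ArithmeticFunction ℝ, Bdd N z D φ → Bdd N z D ψ →
      (∀ u, φ u ≠ 0 → N ^ β < u) → (∀ u, ψ u ≠ 0 → N ^ β < u) →
      Good N z R K X1 X2 (φ * ψ :) 0 η)
    (c f : ArithmeticFunction ℝ) (hc : Bdd N z D c) (hm : ms (N ^ (10 / 11 : ℝ)) z c ≤ M)
    (hf : Smo N f) :
    Good N z R K X1 X2 (up ⌊N ^ β⌋₊ f * c :) M (e * M + 2 * η) := by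
  have h0 : 0 < N := by linarith
  have hb : 0 ≤ N ^ β := (Real.rpow_pos_of_pos h0 _).le
  set Y := ⌊N ^ β⌋₊ with hY
  have hY1 : (Y : ℝ) ≤ N ^ (10 / 11 : ℝ) :=
    (Nat.floor_le hb).trans (Real.rpow_le_rpow_of_exponent_le hN.le h2)
  have hup : ∀ g : ArithmeticFunction ℝ, ∀ u, up Y g u ≠ 0 → N ^ β < u := fun g u hu =>
    (Nat.floor_lt hb).1 (pr1_up_supp hu)
  have a1 := H2 (up Y c) (up Y f) (fun n h3 h4 => (pr1_up_le _ _ _).trans (hc n h3 h4))
    (fun n _ h4 => (pr1_up_le _ _ _).trans ((pr1_bd hN (Or.inr hf) n h4).trans hD))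
    (hup c) (hup f)
  have a2 := H1 (rs 0 Y c) f (fun n h3 h4 => (pr1_rs_le _ _ _ _).trans (hc n h3 h4))
    (fun d hd => le_trans (by exact_mod_cast pr1_rs_supp hd) hY1) hf
  have a3 : ms (N ^ (10 / 11 : ℝ)) z (rs 0 Y c) ≤ M :=
    (pr1_ms_le _ _ (pr1_rs_le 0 Y c)).trans hm
  have a4 := (a1.add a2).mono (C' := M) (η' := e * M + 2 * η) hN.le (by linarith)
    (by nlinarith [mul_le_mul_of_nonneg_left a3 he])
  refine a4.congr fun m h3 _ _ => ?_
  have a5 : Y ^ 2 < m := by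
    have b1 : (Y : ℝ) ≤ N := hY1.trans (by
      simpa using Real.rpow_le_rpow_of_exponent_le hN.le (show (10 / 11 : ℝ) ≤ 1 by norm_num))
    have b2 : (Y : ℝ) ^ 2 ≤ N ^ 2 := by gcongr
    have b3 : (X1 : ℝ) < m := by exact_mod_cast h3
    exact_mod_cast (b2.trans hX).trans_lt b3
  have a6 : up Y c * up Y f + rs 0 Y c * f = up Y f * c + rs 0 Y c * rs 0 Y f := by
    have e1 := rs_add_up Y c
    have e2 := rs_add_up Y f
    generalize up Y c = p, rs 0 Y c = q, up Y f = r, rs 0 Y f = s at *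
    rw [← e1, ← e2]; ring
  rw [← ArithmeticFunction.add_apply, a6, ArithmeticFunction.add_apply, pr1_van Y m c f a5,
    add_zero]

theorem t_PR1b (θ β : ℝ) (h1 : 1 / 6 < β) (h2 : β ≤ 10 / 11) (hG1 : S_G1b θ)
    (hG2 : S_G2 θ (119 / 100) β) (hPR2 : S_PR2b θ β) : S_PR1b θ := by
  intro ε hε
  obtain ⟨C0, hC0, hHR⟩ := lib_HR
  set C := max C0 1 with hC
  have c1 : 1 ≤ C := le_max_right _ _
  have c0 : C0 ≤ C := le_max_left _ _
  obtain ⟨a1, ha1, G1⟩ := hG1 24 (ε / 73 / C ^ 24) (by positivity)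
  obtain ⟨a2, ha2, P2⟩ := hPR2 (ε / 73) (by positivity)
  refine ⟨min (1 / 10) (min a1 a2), by positivity, fun e1 he he0 => ?_⟩
  have b0 : e1 ≤ 1 / 10 := he0.trans (min_le_left _ _)
  have b1 : e1 ≤ a1 := he0.trans ((min_le_right _ _).trans (min_le_left _ _))
  have b2 : e1 ≤ a2 := he0.trans ((min_le_right _ _).trans (min_le_right _ _))
  set s := ⌈3 / e1⌉₊ with hs
  have hs3 : 3 ≤ e1 * s := by
    have := Nat.le_ceil (3 / e1)
    rw [div_le_iff₀ he] at this
    linarith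
  have hD : (1 : ℝ) ≤ (2 ^ s) ^ 24 := one_le_pow₀ (one_le_pow₀ (by norm_num))
  have hM : 1 ≤ C / e1 := by rw [le_div_iff₀ he]; linarith
  obtain ⟨R1, G2⟩ := hG2 e1 he b0 ((2 ^ s) ^ 24) (ε / 73) (by positivity) (by positivity)
  obtain ⟨R2, P2⟩ := P2 e1 he b2
  refine ⟨24 * (C / e1) ^ 24, max 2 (max R1 R2), fun R hR => ?_⟩
  filter_upwards [G1 e1 he b1 ((2 ^ s) ^ 24) (ε / 73) (by positivity) (by positivity) R
    ((le_max_left _ _).trans hR), G2 R ((le_max_left _ _).trans ((le_max_right _ _).trans hR)),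
    P2 R ((le_max_right _ _).trans ((le_max_right _ _).trans hR)), bx_ev2 2 h1, ev_const 2 he,
    eventually_gt_atTop 1] with N g1 g2 p2 n1 n2 hN K X1 X2 n f hS hn hf
  have h0 : 0 < N := by linarith
  have hL := Real.log_pos hN
  set Y := ⌊N ^ β⌋₊ with hY
  have key : ∀ i : Fin n, Good N (N ^ e1) R K X1 X2
      (up Y (f i) * ∏ j ∈ univ.erase i, if j < i then f j else rs 0 Y (f j) :)
      ((C / e1) ^ 24) (3 * (ε / 73)) := fun i => by
    rcases hf i with hi | hi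
    · have z : up Y (f i) = 0 := by
        ext u
        by_contra c
        have d1 := pr1_up_supp c
        have d2 : f i u ≠ 0 := fun d => c (by rw [up_apply, d]; simp)
        exact absurd (Nat.le_floor ((hi.2 u d2).trans n1)) (not_le.2 d1)
      rw [z, zero_mul]
      exact (good_zero _ _ _ _ _ _).mono hN.le (by positivity) (by positivity)
    · have hcard : (univ.erase i).card ≤ 24 :=
        (card_le_univ _).trans (by rw [Fintype.card_fin]; exact hn)
      obtain ⟨q1, q2⟩ := (t_PRB (Fin n) (univ.erase i)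
        fun j => if j < i then f j else rs 0 Y (f j)).1 (N ^ 3) fun j _ u hu => by
          split_ifs
          · exact pr1_bd hN ((hf j).imp_left fun c => c.sml hN.le) u hu
          · exact (pr1_rs_le _ _ _ _).trans (pr1_bd hN ((hf j).imp_left fun c => c.sml hN.le) u hu)
      have r1 : (1 : ℝ) ≤ N ^ (10 / 11 : ℝ) := Real.one_le_rpow hN.le (by norm_num)
      have r2 : N ^ (10 / 11 : ℝ) ≤ N ^ 3 := by
        rw [← Real.rpow_natCast]
        exact Real.rpow_le_rpow_of_exponent_le hN.le (by norm_num)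
      have r3 := (hHR (N ^ e1) (N ^ (10 / 11 : ℝ)) n2
        (Real.rpow_le_rpow_of_exponent_le hN.le (by linarith))).2.2
      rw [Real.log_rpow h0, Real.log_rpow h0, ← mul_assoc, mul_div_mul_right _ _ hL.ne'] at r3
      have r4 : ∑ d ∈ Ry (N ^ (10 / 11 : ℝ)) (N ^ e1), 1 / (d : ℝ) ≤ C / e1 :=
        r3.trans (div_le_div_of_nonneg_right (by linarith) he.le)
      have r5 := (q2 _ (N ^ e1) r1 r2).trans ((pow_le_pow_left₀
        (sum_nonneg fun _ _ => by positivity) r4 _).trans (pow_le_pow_right₀ hM hcard))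
      have r6 := pr1b_key (e := ε / 73 / C ^ 24 * e1 ^ 24) hN h2 hS.x1 hD (by positivity)
        (fun c g => g1 K X1 X2 c g hS) (fun c g => g2 K X1 X2 c g hS) _ (f i)
        (fun u hu hu' => (q1 u hu').trans ?_) r5 hi
      · refine r6.mono hN.le le_rfl (le_of_eq ?_)
        field_simp
        norm_num
      · have t1 : (u : ℝ) ≤ (N ^ e1) ^ s := hu'.trans (by
          rw [bx_pw h0, ← Real.rpow_natCast]
          exact Real.rpow_le_rpow_of_exponent_le hN.le (by simpa using hs3))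
        have t2 : (u.divisors.card : ℝ) ≤ 2 ^ s := by
          exact_mod_cast lib_TAU _ s u (by linarith) hu t1
        exact (pow_le_pow_left₀ (Nat.cast_nonneg _) t2 _).trans
          (pow_le_pow_right₀ (one_le_pow₀ (by norm_num)) hcard)
  have hn' : (n : ℝ) ≤ 24 := by exact_mod_cast hn
  have fin := ((p2 K X1 X2 n f hS hn hf).add (good_sum univ fun i _ => key i)).mono
    (C' := 24 * (C / e1) ^ 24) (η' := ε) hN.le ?_ ?_
  · refine fin.congr fun m _ _ _ => ?_
    rw [pr1_tel Y f, ArithmeticFunction.add_apply, pr1_sum_apply]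
  · rw [sum_const, card_univ, Fintype.card_fin, nsmul_eq_mul, zero_add]
    gcongr
  · rw [sum_const, card_univ, Fintype.card_fin, nsmul_eq_mul]
    nlinarith

end Pool.Agent.P.MP_8be758_nt.Av3
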