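import Pool.Agent.P.MP_8be758_nt.Av3.Basic

/-! The step `S_UPG`. -/

namespace Pool.Agent.P.MP_8be758_nt.Av3

open Finset Real Filter Topology
open Pool.Agent.P.MP_e86632_nt (ee)
open Pool.Agent.P.MP_8be758_nt.Avg Pool.Agent.P.MP_8be758_nt.Av2

theorem upg_alg {p q H : ℝ} (hp : 1 ≤ p) (hq : 1 ≤ q) (hH : 1 ≤ H) :
    (1 + 2 * H * p * (2 * q)) * (1 + 1 / (2 * q * (H / (4 * p)))) *
      (1 + 1 / (2 * H * p * (1 / (4 * q)))) ≤ 25 * (H * (p * q) + (p ^ 2 + q ^ 2)) := by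
  have hp0 : 0 < p := by linarith
  have hq0 : 0 < q := by linarith
  have hH0 : 0 < H := by linarith
  have h1 : 1 / (2 * q * (H / (4 * p))) = 2 * p / q / H := by field_simp; norm_num
  have h2 : 1 / (2 * H * p * (1 / (4 * q))) = 2 * q / p / H := by field_simp; norm_num
  have hpq : 1 ≤ p * q := one_le_mul_of_one_le_of_one_le hp hq
  have h3 : 1 + 2 * H * p * (2 * q) ≤ 5 * H * (p * q) := by
    have : 1 ≤ H * (p * q) := one_le_mul_of_one_le_of_one_le hH hpq
    linarith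
  have h4 : p * q / H ≤ H * (p * q) :=
    (div_le_self (by positivity) hH).trans (le_mul_of_one_le_left (by positivity) hH)
  rw [h1, h2]
  calc _ ≤ 5 * H * (p * q) * (1 + 2 * p / q / H) * (1 + 2 * q / p / H) := by gcongr
    _ = 5 * (H * (p * q)) + 10 * (p ^ 2 + q ^ 2) + 20 * (p * q / H) := by field_simp; ring
    _ ≤ _ := by nlinarith [sq_nonneg p, sq_nonneg q]

theorem upg_sqrt_add {x y : ℝ} (hx : 0 ≤ x) (hy : 0 ≤ y) : √(x + y) ≤ √x + √y := by
  refine Real.sqrt_le_iff.2 ⟨by positivity, ?_⟩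
  have e1 := Real.sq_sqrt hx
  have e2 := Real.sq_sqrt hy
  nlinarith [mul_nonneg (Real.sqrt_nonneg x) (Real.sqrt_nonneg y)]

theorem upg_E_le : ∃ C : ℝ, 0 < C ∧ ∀ (A B : ℝ) (S1 S2 : Finset ℕ) (h : ℤ),
    1 ≤ A → 1 ≤ B → (∀ b ∈ S1, B ≤ b ∧ (b : ℝ) ≤ 4 * B) → (∀ a ∈ S2, A ≤ a ∧ (a : ℝ) ≤ 4 * A) →
    h ≠ 0 → ‖up_E S1 S2 h‖ ≤ C * √(A * B) * (√|(h : ℝ)| * √(√(A * B)) + √(A + B)) := by
  obtain ⟨C, hC, H⟩ := lib_DLS
  refine ⟨20 * C, by positivity, fun A B S1 S2 h hA hB h1 h2 hh => ?_⟩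
  have hH : (1 : ℝ) ≤ |(h : ℝ)| := by exact_mod_cast Int.one_le_abs hh
  have hp : 1 ≤ √A := Real.one_le_sqrt.2 hA
  have hq : 1 ≤ √B := Real.one_le_sqrt.2 hB
  have key := H S2 S1 (fun a => -(h : ℝ) * √(a : ℝ)) (fun b => √(b : ℝ)) (2 * |(h : ℝ)| * √A)
    (2 * √B) (|(h : ℝ)| / (4 * √A)) (1 / (4 * √B)) (by positivity) (by positivity)
    (by positivity) (by positivity)
    (fun a ha => by
      rw [abs_mul, abs_neg, abs_of_nonneg (Real.sqrt_nonneg _)]
      have := up_sqrt_le (h2 a ha).2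
      nlinarith)
    (fun b hb => by
      rw [abs_of_nonneg (Real.sqrt_nonneg _)]
      exact up_sqrt_le (h1 b hb).2)
    (fun a ha a' ha' hne => by
      rw [← mul_sub, abs_mul, abs_neg, div_eq_mul_one_div]
      exact mul_le_mul_of_nonneg_left (up_sep hA (h2 a ha).2 (h2 a' ha').2 hne) (abs_nonneg _))
    (fun b hb b' hb' hne => up_sep hB (h1 b hb).2 (h1 b' hb').2 hne) (fun _ => 1) (fun _ => 1)
  have e1 : up_E S1 S2 h = ee (h / 2) *
      ∑ a ∈ S2, ∑ b ∈ S1, (1 : ℂ) * 1 * ee (-(h : ℝ) * √(a : ℝ) * √(b : ℝ)) := by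
    rw [up_E, sum_comm, mul_sum]
    refine sum_congr rfl fun a _ => ?_
    rw [mul_sum]
    refine sum_congr rfl fun b _ => ?_
    rw [one_mul, one_mul, ← Pool.Agent.P.MP_e86632_nt.ee_add, Nat.cast_mul,
      Real.sqrt_mul (Nat.cast_nonneg a)]
    congr 1; ring
  rw [e1, norm_mul, Pool.Agent.P.MP_e86632_nt.norm_ee, one_mul]
  refine key.trans ?_
  have n1 : √(nsq S1 fun _ => 1) ≤ 2 * √B := by
    have : nsq S1 (fun _ => 1) = (S1.card : ℝ) := by simp [nsq]
    rw [this]; exact up_sqrt_le (up_card hB h1)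
  have n2 : √(nsq S2 fun _ => 1) ≤ 2 * √A := by
    have : nsq S2 (fun _ => 1) = (S2.card : ℝ) := by simp [nsq]
    rw [this]; exact up_sqrt_le (up_card hA h2)
  have n3 := Real.sqrt_le_sqrt (upg_alg hp hq hH)
  rw [Real.sq_sqrt (by linarith), Real.sq_sqrt (by linarith),
    Real.sqrt_mul (by norm_num : (0 : ℝ) ≤ 25), show (25 : ℝ) = 5 ^ 2 by norm_num,
    Real.sqrt_sq (by norm_num : (0 : ℝ) ≤ 5), ← Real.sqrt_mul (by linarith : 0 ≤ A) B] at n3
  have n4 : √(|(h : ℝ)| * √(A * B) + (A + B)) ≤ √|(h : ℝ)| * √(√(A * B)) + √(A + B) := by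
    refine (upg_sqrt_add (by positivity) (by linarith)).trans (le_of_eq ?_)
    rw [Real.sqrt_mul (abs_nonneg (h : ℝ))]
  have n5 := n3.trans (mul_le_mul_of_nonneg_left n4 (by norm_num))
  calc _ ≤ C * (5 * (√|(h : ℝ)| * √(√(A * B)) + √(A + B))) * (2 * √A) * (2 * √B) := by gcongr
    _ = 20 * C * (√A * √B) * (√|(h : ℝ)| * √(√(A * B)) + √(A + B)) := by ring
    _ = _ := by rw [← Real.sqrt_mul (by linarith : 0 ≤ A) B]

theorem t_UPG : S_UPG := by
  obtain ⟨C1, hC1, H1⟩ := upg_E_le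
  obtain ⟨C3, hC3, H3, -⟩ := lib_GS3
  refine ⟨8 + 2 * C1 * C3 + 8 * C1, by positivity, fun A B κ S1 S2 hA hB hκ h1 h2 => ?_⟩
  have hN : 0 < √(A * B) := Real.sqrt_pos.2 (by positivity)
  set N := √(A * B) with hNd
  have t1 : 0 ≤ κ * S1.card * S2.card := by positivity
  have t2 : 0 ≤ N * √(A + B) := by positivity
  have t2' : 0 ≤ N * √(N / κ) := by positivity
  have t3 : 0 ≤ C1 * C3 := by positivity
  rcases le_total 1 κ with hc | hc
  · calc _ ≤ ∑ _b ∈ S1, ∑ _a ∈ S2, 8 * κ := by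
          refine sum_le_sum fun b _ => sum_le_sum fun a _ => (lib_GS2 _ _ (by positivity)).trans ?_
          rw [one_div_one_div]; linarith
      _ = 8 * (κ * S1.card * S2.card) := by simp only [sum_const, nsmul_eq_mul]; ring
      _ ≤ _ := by rw [mul_add N]; nlinarith
  · refine (up_poisson lib_GS1 hκ S1 S2).trans ?_
    have s2 : ∑' h : ℤ, gs (κ * h) * ‖up_E S1 S2 h‖ ≤
        S1.card * S2.card + (C1 * N * √N * (C3 * (1 + 1 / κ) / √κ) +
          C1 * N * √(A + B) * (4 * (1 + 1 / κ))) := by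
      refine Real.tsum_le_of_sum_le (fun h => mul_nonneg (gs_pos _).le (norm_nonneg _)) fun u => ?_
      have s3 : ∀ h ∈ u, gs (κ * h) * ‖up_E S1 S2 h‖ ≤
          (if h = 0 then (S1.card * S2.card : ℝ) else 0) +
            (C1 * N * √N * (gs (κ * (h - 0)) * √|(h : ℝ) - 0|) +
              C1 * N * √(A + B) * gs (κ * (h - 0))) := by
        intro h _
        split_ifs with h0
        · subst h0
          have u1 := up_E_triv S1 S2 0
          have u2 : 0 ≤ C1 * N * √(A + B) := by positivity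
          simp only [Int.cast_zero, mul_zero, gs_zero, one_mul, sub_zero, abs_zero, Real.sqrt_zero,
            zero_add, mul_one]
          linarith
        · rw [zero_add, sub_zero]
          calc _ ≤ gs (κ * h) * (C1 * N * (√|(h : ℝ)| * √N + √(A + B))) :=
              mul_le_mul_of_nonneg_left (H1 A B S1 S2 h hA hB h1 h2 h0) (gs_pos _).le
            _ = _ := by ring
      refine (sum_le_sum s3).trans ?_
      rw [sum_add_distrib, sum_add_distrib, ← mul_sum, ← mul_sum]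
      refine add_le_add ?_ (add_le_add (mul_le_mul_of_nonneg_left (H3 _ 0 u hκ) (by positivity))
        (mul_le_mul_of_nonneg_left (d13_fin lib_GS1 lib_GS2 hκ 0 u) (by positivity)))
      rw [sum_ite_eq']
      split_ifs
      · exact le_rfl
      · positivity
    refine (mul_le_mul_of_nonneg_left s2 hκ.le).trans ?_
    have s4 : √(N / κ) = √N / √κ := Real.sqrt_div hN.le κ
    have s5 : 0 < √κ := Real.sqrt_pos.2 hκ
    have s6 : κ * (C1 * N * √N * (C3 * (1 + 1 / κ) / √κ)) =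
        (κ + 1) * (C1 * C3) * (N * √(N / κ)) := by
      rw [s4]; field_simp
    have s6' : κ * (C1 * N * √(A + B) * (4 * (1 + 1 / κ))) =
        (κ + 1) * (4 * C1) * (N * √(A + B)) := by
      field_simp
    rw [mul_add, mul_add, s6, s6', mul_add N]
    have s7 : (κ + 1) * (C1 * C3) * (N * √(N / κ)) ≤ 2 * (C1 * C3) * (N * √(N / κ)) := by
      gcongr; linarith
    have s8 : (κ + 1) * (4 * C1) * (N * √(A + B)) ≤ 2 * (4 * C1) * (N * √(A + B)) := by
      gcongr; linarith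
    nlinarith [mul_nonneg t3 t1, mul_nonneg hC1.le t1, mul_nonneg t3 t2, mul_nonneg hC1.le t2']

end Pool.Agent.P.MP_8be758_nt.Av3
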