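import Pool.Agent.P.MP_8be758_nt.Av3.BasB

/-! The step `S_WMV`. -/

namespace Pool.Agent.P.MP_8be758_nt.Av3

open Finset Real Filter Topology
open Pool.Agent.P.MP_e86632_nt (ee ee_add ee_neg norm_ee ee_zero)
open Pool.Agent.P.MP_8be758_nt.Avg Pool.Agent.P.MP_8be758_nt.Av2
open MeasureTheory
open scoped FourierTransform

theorem wmv_inv {h F : ℝ → ℂ} (hc : Continuous h) (hi : Integrable h) (hF : Integrable F)
    (e : ∀ t, F t = ∫ l : ℝ, h l * ee (-(t * l))) (l : ℝ) : h l = ∫ t : ℝ, F t * ee (t * l) := by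
  have e1 : 𝓕 h = F := funext fun t => by
    rw [fourier_real_eq_integral_exp_smul, e]
    refine integral_congr_ae (Eventually.of_forall fun v => ?_)
    simp only [smul_eq_mul, ee]
    rw [mul_comm]; congr 2; push_cast; ring
  have := congrFun (hc.fourierInv_fourier_eq hi (e1 ▸ hF)) l
  rw [← this, e1, fourierInv_eq_fourier_neg, fourier_real_eq_integral_exp_smul]
  refine integral_congr_ae (Eventually.of_forall fun v => ?_)
  simp only [smul_eq_mul, ee]
  rw [mul_comm]; congr 2; push_cast; ring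

theorem wmv_ft {T : ℝ} (hT : 0 < T) (t : ℝ) :
    Integrable (fun l : ℝ => ((π * T * Real.exp (-(2 * π * T * |l|)) : ℝ) : ℂ) * ee (-(t * l))) ∧
      ∫ l : ℝ, ((π * T * Real.exp (-(2 * π * T * |l|)) : ℝ) : ℂ) * ee (-(t * l)) = WT T t := by
  have hp : 0 < 2 * π * T := by positivity
  have ha : (-(2 * π * T) - 2 * π * t * Complex.I : ℂ).re < 0 := by simpa using hp
  have hb : 0 < (2 * π * T - 2 * π * t * Complex.I : ℂ).re := by simpa using hp
  have e1 : Set.EqOn (fun l : ℝ => (π * T : ℂ) *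
      Complex.exp ((-(2 * π * T) - 2 * π * t * Complex.I) * l))
      (fun l : ℝ => ((π * T * Real.exp (-(2 * π * T * |l|)) : ℝ) : ℂ) * ee (-(t * l)))
      (Set.Ioi 0) := fun l hl => by
    simp only [ee, abs_of_pos (show 0 < l from hl)]
    push_cast
    rw [mul_assoc _ (Complex.exp _), ← Complex.exp_add]; congr 2; ring
  have e2 : Set.EqOn (fun l : ℝ => (π * T : ℂ) *
      Complex.exp ((2 * π * T - 2 * π * t * Complex.I) * l))
      (fun l : ℝ => ((π * T * Real.exp (-(2 * π * T * |l|)) : ℝ) : ℂ) * ee (-(t * l)))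
      (Set.Iic 0) := fun l hl => by
    simp only [ee, abs_of_nonpos (show l ≤ 0 from hl)]
    push_cast
    rw [mul_assoc _ (Complex.exp _), ← Complex.exp_add]; congr 2; ring
  have i1 := IntegrableOn.congr_fun
    ((integrableOn_exp_mul_complex_Ioi ha 0).const_mul (π * T : ℂ)) e1 measurableSet_Ioi
  have i2 := IntegrableOn.congr_fun
    ((integrableOn_exp_mul_complex_Iic hb 0).const_mul (π * T : ℂ)) e2 measurableSet_Iic
  refine ⟨?_, ?_⟩
  · rw [← integrableOn_univ, ← Set.Iic_union_Ioi (a := (0 : ℝ))]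
    exact i2.union i1
  · rw [← intervalIntegral.integral_Iic_add_Ioi i2 i1, ← setIntegral_congr_fun measurableSet_Ioi e1,
      ← setIntegral_congr_fun measurableSet_Iic e2, integral_const_mul, integral_const_mul,
      integral_exp_mul_complex_Ioi ha, integral_exp_mul_complex_Iic hb]
    have n1 : (-(2 * π * T) - 2 * π * t * Complex.I : ℂ) ≠ 0 := fun h => by simp [h] at ha
    have n2 : (2 * π * T - 2 * π * t * Complex.I : ℂ) ≠ 0 := fun h => by simp [h] at hb
    have n3 : (T : ℂ) ≠ 0 := by exact_mod_cast hT.ne'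
    have n4 : (1 + (t / T) ^ 2 : ℂ) ≠ 0 := by
      exact_mod_cast (by positivity : (1 + (t / T) ^ 2 : ℝ) ≠ 0)
    simp only [WT, Complex.ofReal_zero, mul_zero, Complex.exp_zero]
    push_cast
    rw [eq_div_iff n4, ← mul_add, div_add_div _ _ n2 n1, mul_div_assoc', div_mul_eq_mul_div,
      div_eq_one_iff_eq (mul_ne_zero n2 n1)]
    field_simp
    ring_nf
    simp only [Complex.I_sq]
    ring

theorem wmv_key {T : ℝ} (hT : 0 < T) (l : ℝ) :
    ∫ t : ℝ, (WT T t : ℂ) * ee (t * l) = ((π * T * Real.exp (-(2 * π * T * |l|)) : ℝ) : ℂ) :=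
  (wmv_inv (h := fun l : ℝ => ((π * T * Real.exp (-(2 * π * T * |l|)) : ℝ) : ℂ))
    (F := fun t => (WT T t : ℂ)) (by fun_prop) (by simpa using (wmv_ft hT 0).1)
    (integrable_WT hT).ofReal (fun t => (wmv_ft hT t).2.symm) l).symm

theorem t_WMV : S_WMV := by
  intro ι s d l T hT
  have it : ∀ x : ℝ, Integrable fun t : ℝ => (WT T t : ℂ) * ee (t * x) := fun x =>
    (integrable_WT hT).ofReal.mul_bdd (c := 1) (by fun_prop : Continuous _).aestronglyMeasurable
      (Eventually.of_forall fun t => (norm_ee _).le)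
  have e : ∀ t : ℝ, ((WT T t * ‖∑ i ∈ s, d i * ee (t * l i)‖ ^ 2 : ℝ) : ℂ) =
      ∑ i ∈ s, ∑ i' ∈ s, d i * (starRingEnd ℂ) (d i') * ((WT T t : ℂ) * ee (t * (l i - l i'))) :=
    fun t => by
      push_cast
      rw [← Complex.mul_conj', map_sum, sum_mul_sum, mul_sum]
      refine sum_congr rfl fun i _ => ?_
      rw [mul_sum]
      refine sum_congr rfl fun i' _ => ?_
      rw [map_mul, ← ee_neg, show t * (l i - l i') = t * l i + -(t * l i') by ring, ee_add]
      ring
  refine (le_abs_self _).trans ?_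
  rw [← Real.norm_eq_abs, ← Complex.norm_real, ← integral_complex_ofReal]
  simp_rw [e]
  rw [integral_finsetSum _ fun i _ => integrable_finsetSum _ fun i' _ => (it _).const_mul _,
    mul_sum]
  refine norm_sum_le_of_le _ fun i _ => ?_
  rw [integral_finsetSum _ fun i' _ => (it _).const_mul _, mul_sum]
  refine norm_sum_le_of_le _ fun i' _ => ?_
  rw [integral_const_mul, wmv_key hT, norm_mul, norm_mul, Complex.norm_conj, Complex.norm_real,
    Real.norm_of_nonneg (by positivity)]
  exact le_of_eq (by ring)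

end Pool.Agent.P.MP_8be758_nt.Av3
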